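import Pool.Agent.Lib.MP_6a3dac_ag.QWPresGr

/-!
# The schemes
-/

set_option autoImplicit false

namespace Pool.Agent.Lib.MP_6a3dac_ag

open MvPolynomial CategoryTheory Limits AlgebraicGeometry

attribute [local irreducible] hCommRing hAlgebra rCommRing rAlgebra

section Coord

variable {O : Type} [CommRing O] {n : ℕ} (𝔞 : HomIdeal O n)

/-- The graded algebra structure (its decomposition map is determined by the grading). -/
noncomputable instance hGradedAlgebra : GradedAlgebra (hGr 𝔞) :=
  { (isInternal_hGr 𝔞).chooseDecomposition, gradedMonoid_hGr 𝔞 with }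

/-- The projective scheme `Proj (O[x_1, ..., x_n] / 𝔞)`. -/
noncomputable def hProj : Scheme.{0} := Proj (hGr 𝔞)

/-- The structure morphism of `Proj (O[x_1, ..., x_n] / 𝔞)`. -/
noncomputable def hProjTo : hProj 𝔞 ⟶ Spec (CommRingCat.of O) := projTo O (hGr 𝔞)

/-- The base change of `Proj (O[x_1, ..., x_n] / 𝔞)` to the localization of `O` at the prime `𝔓` is
smooth over this localization. -/
def SmoothOver (𝔓 : Ideal O) [𝔓.IsPrime] : Prop :=
  Smooth (pullback.snd (hProjTo 𝔞)
    (Spec.map (CommRingCat.ofHom (algebraMap O (Localization.AtPrime 𝔓)))))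

/-- The ideals generated by `𝔞` in the polynomial rings over the fields containing `O` are prime:
the homogeneous coordinate ring is geometrically a domain over the field of fractions of `O`. -/
def GeomDomain : Prop :=
  ∀ (k : Type) [Field k] (φ : O →+* k), Function.Injective φ →
    (𝔞.ideal.map (MvPolynomial.map φ)).IsPrime

end Coord

section Weil

variable {K O L : Type} [Field K] [Field L] [Algebra K L] [CommRing O] [Algebra O L] {n : ℕ}
  (σ : L ≃ₐ[K] L) (𝔞 : HomIdeal O n)

/-- The graded algebra structure (its decomposition map is determined by the grading). -/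
noncomputable instance rGradedAlgebra : GradedAlgebra (rGr σ 𝔞) :=
  { (isInternal_rGr σ 𝔞).chooseDecomposition, gradedMonoid_rGr σ 𝔞 with }

/-- The Weil restriction from `L` to `K` of the closed subscheme of the projective space over `L`
defined by `𝔞`. -/
noncomputable def weilRes : Scheme.{0} := Proj (rGr σ 𝔞)

/-- The structure morphism of the Weil restriction. -/
noncomputable def weilResTo : weilRes σ 𝔞 ⟶ Spec (CommRingCat.of K) := projTo K (rGr σ 𝔞)

end Weil

end Pool.Agent.Lib.MP_6a3dac_ag
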