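import Mathlib

/-!
# Quadrics as `Proj` of a graded ring: the basic definitions
-/

set_option autoImplicit false

namespace Pool.Agent.Lib.MP_6a3dac_ag

open CategoryTheory AlgebraicGeometry MvPolynomial

/-- The quadratic polynomial `∑ A i j X_i X_j` of a square matrix `A`. -/
noncomputable def quadPoly {R : Type*} [CommRing R] {n : ℕ} (A : Matrix (Fin n) (Fin n) R) :
    MvPolynomial (Fin n) R :=
  ∑ i, ∑ j, C (A i j) * X i * X j

/-- The degree-`i` part of the quotient of a graded algebra by an ideal: the image of the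
degree-`i` part. -/
def quotGr {K A : Type*} [CommRing K] [CommRing A] [Algebra K A] (𝒜 : ℕ → Submodule K A)
    (I : Ideal A) (i : ℕ) : Submodule K (A ⧸ I) :=
  (𝒜 i).map (Ideal.Quotient.mkₐ K I).toLinearMap

/-- The homogeneous coordinate ring `K[X_1, ..., X_n] / (∑ B i j X_i X_j)` of the quadric given
by a matrix `B`. -/
abbrev QCoord {K : Type} [CommRing K] {n : ℕ} (B : Matrix (Fin n) (Fin n) K) : Type :=
  MvPolynomial (Fin n) K ⧸ Ideal.span {quadPoly B}

/-- The grading of the homogeneous coordinate ring of a quadric: the degree-`i` part consists of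
the classes of the homogeneous polynomials of degree `i`. -/
noncomputable def quadricGr {K : Type} [CommRing K] {n : ℕ} (B : Matrix (Fin n) (Fin n) K) :
    ℕ → Submodule K (QCoord B) :=
  quotGr (homogeneousSubmodule (Fin n) K) (Ideal.span {quadPoly B})

/-- The structure morphism `Proj 𝒮 ⟶ Spec R` of the `Proj` of a graded `R`-algebra. -/
noncomputable def projTo (R : Type) {S : Type} [CommRing R] [CommRing S] [Algebra R S]
    (𝒮 : ℕ → Submodule R S) [GradedAlgebra 𝒮] : Proj 𝒮 ⟶ Spec (CommRingCat.of R) :=
  Proj.toSpecZero 𝒮 ≫ Spec.map (CommRingCat.ofHom (algebraMap R (𝒮 0)))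

end Pool.Agent.Lib.MP_6a3dac_ag
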