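import Pool.Agent.Lib.MP_6a3dac_ag.ModelExist

/-!
# Regular proper flat models of quadrics
-/

set_option autoImplicit false

namespace Pool.Agent.Lib.MP_6a3dac_ag

open CategoryTheory Limits AlgebraicGeometry IsDedekindDomain MvPolynomial

section Quad

variable {R K : Type} [CommRing R] [IsDedekindDomain R] [Field K] [CharZero K] [Algebra R K]
  [IsFractionRing R K] {n : ℕ} (B : Matrix (Fin n) (Fin n) K)

/-- The local ring of `R` at a prime ideal, inside the fraction field. -/
noncomputable abbrev locRing (K : Type) [Field K] [Algebra R K] [IsFractionRing R K] (p : HeightOneSpectrum R) :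
    Subalgebra R K :=
  Localization.subalgebra.ofField K p.asIdeal.primeCompl p.asIdeal.primeCompl_le_nonZeroDivisors

instance (p : HeightOneSpectrum R) : IsLocalization.AtPrime (locRing K p) p.asIdeal :=
  Localization.subalgebra.isLocalization_ofField K p.asIdeal.primeCompl _

instance (p : HeightOneSpectrum R) : IsDiscreteValuationRing (locRing K p) :=
  IsLocalization.AtPrime.isDiscreteValuationRing_of_dedekind_domain R p.ne_bot _

omit [CharZero K] in
theorem finite_residue_locRing (p : HeightOneSpectrum R) [Finite (R ⧸ p.asIdeal)] :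
    Finite (IsLocalRing.ResidueField (locRing K p)) :=
  Finite.of_equiv _ (IsLocalization.AtPrime.equivQuotMaximalIdeal p.asIdeal (locRing K p)).toEquiv

theorem exists_localCoord (p : HeightOneSpectrum R) [Finite (R ⧸ p.asIdeal)] (hn : Odd n)
    (hn2 : 2 ≤ n) (hB : (B + B.transpose).det ≠ 0) :
    ∃ g h : Matrix (Fin n) (Fin n) K, g * h = 1 ∧ h * g = 1 ∧
      RegAt (quadricGr B) (locSub p.asIdeal (Algebra.adjoin R (coordSet B h))) := by
  have := finite_residue_locRing (K := K) p
  obtain ⟨A, i₀, ⟨g, h, hgh, hhg, c, hc, e⟩, hA⟩ := exists_goodForm (O := locRing K p) hn B hB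
  exact ⟨g, h, hgh, hhg, regAt_of_goodForm p.asIdeal hn2 hgh hhg hc e hA⟩

/-- At almost all primes the standard coordinates work. -/
theorem exists_good_primes (hn2 : 2 ≤ n) (hB : (B + B.transpose).det ≠ 0) :
    ∃ D : R, D ≠ 0 ∧ ∀ p : HeightOneSpectrum R, D ∉ p.asIdeal →
      RegAt (quadricGr B) (locSub p.asIdeal (Algebra.adjoin R (coordSet B 1))) := by
  obtain ⟨b, hb⟩ := IsLocalization.exist_integer_multiples_of_finite (nonZeroDivisors R)
    (fun ij : Fin n × Fin n => B ij.1 ij.2)
  choose f hf using hb
  let a : Matrix (Fin n) (Fin n) R := Matrix.of fun i j => f (i, j)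
  have hab : ∀ i j, algebraMap R K (a i j) = algebraMap R K b * B i j := by
    intro i j
    have := hf (i, j)
    rw [Algebra.smul_def] at this
    exact this
  have hb0 : algebraMap R K b ≠ 0 := by
    rw [Ne, FaithfulSMul.algebraMap_eq_zero_iff]
    exact nonZeroDivisors.ne_zero b.2
  have haK : (a + a.transpose).map (algebraMap R K) = algebraMap R K b • (B + B.transpose) := by
    ext i j
    simp [hab, mul_add]
  refine ⟨(a + a.transpose).det, ?_, ?_⟩
  · intro h0
    have h1 := congrArg (algebraMap R K) h0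
    rw [RingHom.map_det, RingHom.mapMatrix_apply, haK, Matrix.det_smul, map_zero] at h1
    exact (mul_ne_zero (pow_ne_zero _ hb0) hB) h1
  · intro p hp
    let A : Matrix (Fin n) (Fin n) (locRing K p) := a.map (algebraMap R (locRing K p))
    have hAdet : IsUnit (A + A.transpose).det := by
      have h1 : A + A.transpose = (a + a.transpose).map (algebraMap R (locRing K p)) := by
        ext i j
        simp [A]
      rw [h1, ← RingHom.mapMatrix_apply, ← RingHom.map_det]
      exact IsLocalization.map_units (locRing K p) (⟨_, hp⟩ : p.asIdeal.primeCompl)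
    have hgood : GoodForm A ⟨0, by omega⟩ := by
      refine ⟨hAdet.ne_zero, ?_⟩
      intro κ _ φ hφ v h1 h2
      have h3 : IsUnit ((A + A.transpose).map φ).det := by
        rw [← RingHom.mapMatrix_apply, ← RingHom.map_det]
        exact hAdet.map φ
      have h4 : v = 0 := mulVec_eq_zero_of_isUnit h3 (funext h1)
      subst h4
      exact ⟨fun _ _ => rfl, fun _ => rfl⟩
    refine regAt_of_goodForm (g := 1) (c := algebraMap R K b) (A := A) p.asIdeal hn2
      (Matrix.mul_one _) (Matrix.mul_one _) hb0 ?_ hgood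
    rw [Matrix.transpose_one, Matrix.mul_one, Matrix.one_mul, ← haK]
    ext i j
    simp only [A, Matrix.map_apply, Matrix.add_apply, Matrix.transpose_apply, map_add,
      ← IsScalarTower.algebraMap_apply]

omit [CharZero K] in
theorem nontrivial_qcoord : Nontrivial (QCoord B) := by
  rw [Ideal.Quotient.nontrivial_iff, Ne, Ideal.eq_top_iff_one, Ideal.mem_span_singleton]
  rintro ⟨q, hq⟩
  have h1 := congrArg (MvPolynomial.eval (0 : Fin n → K)) hq
  rw [map_mul, map_one] at h1
  have h2 : MvPolynomial.eval (0 : Fin n → K) (quadPoly B) = 0 := by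
    simp [quadPoly, map_sum]
  rw [h2, zero_mul] at h1
  exact one_ne_zero h1

omit [CharZero K] in
theorem exists_smul_mem_adjoin {g h : Matrix (Fin n) (Fin n) K} (hgh : g * h = 1)
    (a : QCoord B) : ∃ r : R, r ≠ 0 ∧ r • a ∈ Algebra.adjoin R (coordSet B h) := by
  -- scalars
  have hK : ∀ k : K, ∃ r : R, r ≠ 0 ∧
      r • (algebraMap K (QCoord B) k) ∈ Algebra.adjoin R (coordSet B h) := by
    intro k
    obtain ⟨x, y, hy, rfl⟩ := IsFractionRing.div_surjective (A := R) k
    refine ⟨y, nonZeroDivisors.ne_zero hy, ?_⟩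
    have hy0 : algebraMap R K y ≠ 0 := by
      rw [Ne, FaithfulSMul.algebraMap_eq_zero_iff]
      exact nonZeroDivisors.ne_zero hy
    have h1 : y • (algebraMap K (QCoord B) (algebraMap R K x / algebraMap R K y)) =
        algebraMap R (QCoord B) x := by
      have h2 := map_smul (IsScalarTower.toAlgHom R K (QCoord B)) y
        (algebraMap R K x / algebraMap R K y)
      rw [IsScalarTower.coe_toAlgHom', Algebra.smul_def, mul_div_cancel₀ _ hy0] at h2
      rw [← h2, ← IsScalarTower.algebraMap_apply]
    rw [h1]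
    exact Subalgebra.algebraMap_mem _ _
  have hadd : ∀ x y : QCoord B, (∃ r : R, r ≠ 0 ∧ r • x ∈ Algebra.adjoin R (coordSet B h)) →
      (∃ r : R, r ≠ 0 ∧ r • y ∈ Algebra.adjoin R (coordSet B h)) →
      ∃ r : R, r ≠ 0 ∧ r • (x + y) ∈ Algebra.adjoin R (coordSet B h) := by
    rintro x y ⟨r, hr, hx⟩ ⟨s, hs, hy⟩
    refine ⟨r * s, mul_ne_zero hr hs, ?_⟩
    rw [smul_add, mul_smul r s y, mul_comm r s, mul_smul s r x]
    exact Subalgebra.add_mem _ (Subalgebra.smul_mem _ hx s) (Subalgebra.smul_mem _ hy r)
  have hmul : ∀ x y : QCoord B, (∃ r : R, r ≠ 0 ∧ r • x ∈ Algebra.adjoin R (coordSet B h)) →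
      (∃ r : R, r ≠ 0 ∧ r • y ∈ Algebra.adjoin R (coordSet B h)) →
      ∃ r : R, r ≠ 0 ∧ r • (x * y) ∈ Algebra.adjoin R (coordSet B h) := by
    rintro x y ⟨r, hr, hx⟩ ⟨s, hs, hy⟩
    refine ⟨r * s, mul_ne_zero hr hs, ?_⟩
    rw [← smul_mul_smul_comm]
    exact Subalgebra.mul_mem _ hx hy
  have hsum : ∀ (s : Finset (Fin n)) (x : Fin n → QCoord B),
      (∀ i, ∃ r : R, r ≠ 0 ∧ r • x i ∈ Algebra.adjoin R (coordSet B h)) →
      ∃ r : R, r ≠ 0 ∧ r • (∑ i ∈ s, x i) ∈ Algebra.adjoin R (coordSet B h) := by
    classical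
    intro s x hx
    induction s using Finset.induction_on with
    | empty =>
        exact ⟨1, one_ne_zero, by simp⟩
    | insert i s hi ih =>
      rw [Finset.sum_insert hi]
      exact hadd _ _ (hx i) ih
  obtain ⟨q, rfl⟩ := Ideal.Quotient.mk_surjective a
  induction q using MvPolynomial.induction_on with
  | C k => exact hK k
  | add x y hx hy =>
    rw [map_add]
    exact hadd _ _ hx hy
  | mul_X x i hx =>
    rw [map_mul]
    refine hmul _ _ hx ?_
    have h1 : (X i : MvPolynomial (Fin n) K) = ∑ j, C (g i j) * linSubst h (X j) := by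
      have h2 := linSubst_comp hgh (X i)
      rw [linSubst_X, map_sum] at h2
      rw [← h2]
      refine Finset.sum_congr rfl fun j _ => ?_
      rw [map_mul, linSubst_C]
    rw [h1, map_sum]
    refine hsum _ _ fun j => ?_
    rw [map_mul]
    refine hmul _ _ (hK (g i j)) ?_
    refine ⟨1, one_ne_zero, ?_⟩
    rw [one_smul]
    exact Algebra.subset_adjoin ⟨j, rfl⟩

/-- **Quadrics over the fraction field of a Dedekind domain with finite residue fields** (odd number
of variables). -/
theorem exists_model_quadric (hR : ¬ IsField R) (hfin : ∀ p : HeightOneSpectrum R,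
      Finite (R ⧸ p.asIdeal)) (hn : Odd n) (hn2 : 2 ≤ n) (hB : (B + B.transpose).det ≠ 0) :
    ∃ (Y : Scheme.{0}) (g : Y ⟶ Spec (CommRingCat.of R)),
      IsProper g ∧ Flat g ∧ (∀ y : Y, IsRegularLocalRing (Y.presheaf.stalk y)) ∧
      ∃ e : pullback g (Spec.map (CommRingCat.ofHom (algebraMap R K))) ≅ Proj (quadricGr B),
        e.hom ≫ projTo K (quadricGr B) =
          pullback.snd g (Spec.map (CommRingCat.ofHom (algebraMap R K))) := by
  classical
  have := nontrivial_qcoord B
  obtain ⟨D, hD, hDreg⟩ := exists_good_primes (R := R) B hn2 hB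
  have hex := fun p : HeightOneSpectrum R =>
    have := hfin p
    exists_localCoord B p hn hn2 hB
  choose g h hgh hhg hreg using hex
  let h' : HeightOneSpectrum R → Matrix (Fin n) (Fin n) K :=
    fun p => if D ∈ p.asIdeal then h p else 1
  let g' : HeightOneSpectrum R → Matrix (Fin n) (Fin n) K :=
    fun p => if D ∈ p.asIdeal then g p else 1
  have hgh' : ∀ p, g' p * h' p = 1 := by
    intro p
    by_cases hp : D ∈ p.asIdeal
    · simp only [g', h', if_pos hp, hgh]
    · simp only [g', h', if_neg hp, Matrix.mul_one]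
  have hL : LocalGens (R := R) (quadricGr B) (fun p => coordSet B (h' p)) (coordSet B 1) :=
    { finite := fun p => Set.finite_range _
      finite₀ := Set.finite_range _
      ae := by
        refine (finite_mem_prime hD).subset ?_
        intro p hp
        by_contra hcon
        apply hp
        have hcon' : D ∉ p.asIdeal := hcon
        simp only [h', if_neg hcon']
      homog := by
        rintro p _ ⟨i, rfl⟩
        exact ⟨1, one_pos, mk_mem_quadricGr B (isHomogeneous_linSubst_X _ i)⟩
      full := fun p a => exists_smul_mem_adjoin B (hgh' p) a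
      full₀ := fun a => exists_smul_mem_adjoin B (Matrix.mul_one (1 : Matrix (Fin n) (Fin n) K)) a }
  refine exists_model (quadricGr B) hL hR fun p => ?_
  change RegAt _ (locSub p.asIdeal (Algebra.adjoin R (coordSet B (h' p))))
  by_cases hp : D ∈ p.asIdeal
  · simp only [h', if_pos hp]
    exact hreg p
  · simp only [h', if_neg hp]
    exact hDreg p hp

end Quad

end Pool.Agent.Lib.MP_6a3dac_ag
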