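import Pool.Agent.Lib.MP_6a3dac_ag.Defs

/-!
# Projective schemes over a ring, and Weil restrictions along quadratic extensions

The definitions used in the statement of the theorem on Weil restrictions.
-/

set_option autoImplicit false

namespace Pool.Agent.Lib.MP_6a3dac_ag

open MvPolynomial

/-- A homogeneous ideal of the polynomial ring `O[x_1, ..., x_n]`. -/
structure HomIdeal (O : Type) [CommRing O] (n : ℕ) where
  /-- the ideal -/
  ideal : Ideal (MvPolynomial (Fin n) O)
  /-- it contains the homogeneous components of its elements -/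
  homog : ∀ f ∈ ideal, ∀ i : ℕ, homogeneousComponent i f ∈ ideal

section Coord

variable {O : Type} [CommRing O] {n : ℕ} (𝔞 : HomIdeal O n)

/-- The homogeneous coordinate ring `O[x_1, ..., x_n] / 𝔞`. -/
def HCoord : Type := MvPolynomial (Fin n) O ⧸ 𝔞.ideal

noncomputable instance hCommRing : CommRing (HCoord 𝔞) := Ideal.Quotient.commRing 𝔞.ideal

noncomputable instance hAlgebra : Algebra O (HCoord 𝔞) := Ideal.instAlgebraQuotient O 𝔞.ideal

/-- The class of a polynomial in `O[x_1, ..., x_n] / 𝔞`. -/
noncomputable def hMk : MvPolynomial (Fin n) O →ₐ[O] HCoord 𝔞 := Ideal.Quotient.mkₐ O 𝔞.ideal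

/-- The degree-`k` part of `O[x_1, ..., x_n] / 𝔞`: the classes of the homogeneous polynomials of
degree `k`. -/
noncomputable def hGr (k : ℕ) : Submodule O (HCoord 𝔞) :=
  (homogeneousSubmodule (Fin n) O k).map (hMk 𝔞).toLinearMap

end Coord

section Weil

variable {K O L : Type} [CommRing K] [CommRing L] [Algebra K L] [CommRing O] [Algebra O L]

variable (O L) in
/-- The map `f ↦ f(x_1, ..., x_n)` from `O[x_1, ..., x_n]` to `L[x_1, ..., x_n, y_1, ..., y_n]`. -/
noncomputable def xHom (n : ℕ) : MvPolynomial (Fin n) O →+* MvPolynomial (Fin n ⊕ Fin n) L :=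
  eval₂Hom (C.comp (algebraMap O L)) fun i => X (Sum.inl i)

variable (O) in
/-- The map `f ↦ f^σ(y_1, ..., y_n)` from `O[x_1, ..., x_n]` to
`L[x_1, ..., x_n, y_1, ..., y_n]`, where `f^σ` is obtained from `f` by applying `σ` to the
coefficients. -/
noncomputable def yHom (σ : L ≃ₐ[K] L) (n : ℕ) :
    MvPolynomial (Fin n) O →+* MvPolynomial (Fin n ⊕ Fin n) L :=
  eval₂Hom (C.comp ((σ : L →+* L).comp (algebraMap O L))) fun i => X (Sum.inr i)

variable {n : ℕ} (σ : L ≃ₐ[K] L) (𝔞 : HomIdeal O n)

/-- The ideal of `L[x_1, ..., x_n, y_1, ..., y_n]` generated by the polynomials `f(x_1, ..., x_n)`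
and `f^σ(y_1, ..., y_n)`, where `f` runs through the elements of `𝔞`. -/
noncomputable def pIdeal : Ideal (MvPolynomial (Fin n ⊕ Fin n) L) :=
  𝔞.ideal.map (xHom O L n) ⊔ 𝔞.ideal.map (yHom O σ n)

/-- The bihomogeneous coordinate ring of `Y × Y^σ`, where `Y` is the closed subscheme of the
projective space over `L` defined by `𝔞`. -/
def PCoord : Type := MvPolynomial (Fin n ⊕ Fin n) L ⧸ pIdeal σ 𝔞

noncomputable instance pCommRing : CommRing (PCoord σ 𝔞) := Ideal.Quotient.commRing (pIdeal σ 𝔞)

noncomputable instance pAlgebra : Algebra K (PCoord σ 𝔞) := Ideal.instAlgebraQuotient K (pIdeal σ 𝔞)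

/-- The class of a polynomial in the bihomogeneous coordinate ring. -/
noncomputable def pMk : MvPolynomial (Fin n ⊕ Fin n) L →ₐ[K] PCoord σ 𝔞 :=
  Ideal.Quotient.mkₐ K (pIdeal σ 𝔞)

/-- The involution of the polynomial ring which interchanges `x_i` and `y_i` and applies `σ` to
the coefficients. -/
noncomputable def swapHom (n : ℕ) :
    MvPolynomial (Fin n ⊕ Fin n) L →ₐ[K] MvPolynomial (Fin n ⊕ Fin n) L :=
  aevalTower ((Algebra.algHom K L (MvPolynomial (Fin n ⊕ Fin n) L)).comp (σ : L →ₐ[K] L))
    fun i => X i.swap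

/-- The homogeneous coordinate ring of the Segre embedding of `Y × Y^σ`, as a `K`-algebra: it is
generated by the constants in `L` and the products `x_i y_j`. -/
noncomputable def segSub : Subalgebra K (PCoord σ 𝔞) :=
  Algebra.adjoin K (Set.range (fun c : L => pMk σ 𝔞 (C c)) ∪
    Set.range (fun ij : Fin n × Fin n => pMk σ 𝔞 (X (Sum.inl ij.1) * X (Sum.inr ij.2))))

/-- The elements of the homogeneous coordinate ring of the Segre embedding which are represented by
a polynomial that has the same class as its image under the involution. -/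
noncomputable def resSub : Subalgebra K (PCoord σ 𝔞) :=
  segSub σ 𝔞 ⊓ (AlgHom.equalizer (pMk σ 𝔞) ((pMk σ 𝔞).comp (swapHom σ n))).map (pMk σ 𝔞)

/-- The homogeneous coordinate ring of the Weil restriction of `Y` from `L` to `K`. -/
def RCoord : Type := resSub σ 𝔞

noncomputable instance rCommRing : CommRing (RCoord σ 𝔞) := (resSub σ 𝔞).toCommRing

noncomputable instance rAlgebra : Algebra K (RCoord σ 𝔞) := (resSub σ 𝔞).algebra

/-- The inclusion in the bihomogeneous coordinate ring. -/
noncomputable def rIncl : RCoord σ 𝔞 →ₐ[K] PCoord σ 𝔞 := (resSub σ 𝔞).val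

/-- The degree-`k` part of the homogeneous coordinate ring of the Weil restriction: the elements
represented by homogeneous polynomials of degree `2 k`. -/
noncomputable def rGr (k : ℕ) : Submodule K (RCoord σ 𝔞) :=
  (((homogeneousSubmodule (Fin n ⊕ Fin n) L (2 * k)).restrictScalars K).map
    (pMk σ 𝔞).toLinearMap).comap (rIncl σ 𝔞).toLinearMap

end Weil

end Pool.Agent.Lib.MP_6a3dac_ag
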