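import Pool.Agent.Lib.MP_6a3dac_ag.Mg.G002
import Pool.Agent.Lib.MP_6a3dac_ag.Mg.G072

/-!
# Regular proper flat models from local graded orders
-/

set_option autoImplicit false

namespace Pool.Agent.Lib.MP_6a3dac_ag

open CategoryTheory Limits AlgebraicGeometry IsDedekindDomain

variable {R K A : Type} [CommRing R] [IsDedekindDomain R] [Field K] [Algebra R K]
  [IsFractionRing R K] [CommRing A] [Algebra K A] [Algebra R A] [IsScalarTower R K A]
  (𝒜 : ℕ → Submodule K A) [GradedAlgebra 𝒜]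
  {F : HeightOneSpectrum R → Set A} {F₀ : Set A} (h : LocalGens 𝒜 F F₀)

include h in
theorem bijective_algebraMap_zero [Nontrivial A] (hR : ¬ IsField R) :
    Function.Bijective (algebraMap R (subGr 𝒜 (globalOrder F) 0)) := by
  have hinj : Function.Injective (algebraMap R A) := by
    rw [IsScalarTower.algebraMap_eq R K A]
    exact (algebraMap K A).injective.comp (IsFractionRing.injective R K)
  constructor
  · intro x y hxy
    apply hinj
    exact congrArg (fun z : subGr 𝒜 (globalOrder F) 0 => ((z : globalOrder F) : A)) hxy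
  · rintro ⟨⟨s, hs⟩, hs0⟩
    -- the conductor
    let c : Ideal R :=
      { carrier := {r | ∃ x : R, algebraMap R A x = r • s}
        add_mem' := by
          rintro a b ⟨x, hx⟩ ⟨y, hy⟩
          exact ⟨x + y, by rw [map_add, hx, hy, add_smul]⟩
        zero_mem' := ⟨0, by simp⟩
        smul_mem' := by
          rintro a b ⟨x, hx⟩
          exact ⟨a * x, by rw [map_mul, hx, smul_eq_mul, mul_smul, Algebra.smul_def a]⟩ }
    have hc : c = ⊤ := by
      by_contra hcon
      obtain ⟨m, hm, hcm⟩ := Ideal.exists_le_maximal c hcon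
      have hmne : m ≠ ⊥ := fun hbot => hR (Ring.isField_iff_maximal_bot.mpr (hbot ▸ hm))
      let p : HeightOneSpectrum R := ⟨m, hm.isPrime, hmne⟩
      obtain ⟨r, hr, hra⟩ := mem_globalOrder.mp hs p
      apply hr
      apply hcm
      apply adjoin_degree_zero 𝒜 (h.homog p) hra
      rw [← IsScalarTower.algebraMap_smul K r s]
      exact Submodule.smul_mem _ _ hs0
    have h1 : (1 : R) ∈ c := hc ▸ Submodule.mem_top
    obtain ⟨x, hx⟩ := h1
    refine ⟨x, ?_⟩
    ext
    rw [one_smul] at hx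
    exact hx

include h in
theorem isRegularLocalRing_stalk_globalOrder (hR : ¬ IsField R)
    (hreg : ∀ p, RegAt 𝒜 (localOrder F p)) :
    letI := subGradedAlgebra 𝒜 (h.isHomog_globalOrder 𝒜)
    ∀ y : Proj (subGr 𝒜 (globalOrder F)),
      IsRegularLocalRing ((Proj (subGr 𝒜 (globalOrder F))).presheaf.stalk y) := by
  let := subGradedAlgebra 𝒜 (h.isHomog_globalOrder 𝒜)
  intro y
  apply isRegularLocalRing_stalk
  change ProjectiveSpectrum (subGr 𝒜 (globalOrder F)) at y
  set Y₀ := y.asHomogeneousIdeal.toIdeal with hY₀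
  have hY₀p : Y₀.IsPrime := y.isPrime
  have hY₀h : Y₀.IsHomogeneous (subGr 𝒜 (globalOrder F)) := y.asHomogeneousIdeal.isHomogeneous
  -- a prime of `R` containing the contraction
  obtain ⟨m, hm, hcm⟩ := Ideal.exists_le_maximal (Y₀.comap (algebraMap R (globalOrder F)))
    (Ideal.IsPrime.ne_top (Ideal.IsPrime.comap _))
  have hmne : m ≠ ⊥ := fun hbot => hR (Ring.isField_iff_maximal_bot.mpr (hbot ▸ hm))
  let p : HeightOneSpectrum R := ⟨m, hm.isPrime, hmne⟩
  have hyp : ∀ r, r ∉ p.asIdeal → algebraMap R (globalOrder F) r ∉ Y₀ :=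
    fun r hr hr' => hr (hcm hr')
  have hregp := hreg p
  rw [← h.locSub_globalOrder 𝒜 p] at hregp
  refine isRegularLocalRing_of_locSub 𝒜 p.asIdeal Y₀ hyp (h.isHomog_globalOrder 𝒜) ?_
  refine hregp (isHomog_locSub 𝒜 p.asIdeal (h.isHomog_globalOrder 𝒜)) (extIdeal p.asIdeal Y₀)
    (isPrime_extIdeal p.asIdeal Y₀ hyp)
    (isHomogeneous_extIdeal 𝒜 p.asIdeal Y₀ (h.isHomog_globalOrder 𝒜) hY₀h) ?_
  intro hle
  apply y.not_irrelevant_le
  change (HomogeneousIdeal.irrelevant (subGr 𝒜 (globalOrder F))).toIdeal ≤ Y₀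
  let := subGradedAlgebra 𝒜 (isHomog_locSub 𝒜 p.asIdeal (h.isHomog_globalOrder 𝒜))
  rw [HomogeneousIdeal.toIdeal_irrelevant_le] at hle ⊢
  intro i hi s hs
  exact (locSubHom_mem_extIdeal 𝒜 p.asIdeal Y₀ hyp).mp (hle i hi (x := locSubHom 𝒜 p.asIdeal s) hs)

include h in
/-- **Models from local graded orders.** -/
theorem exists_model [Nontrivial A] (hR : ¬ IsField R) (hreg : ∀ p, RegAt 𝒜 (localOrder F p)) :
    ∃ (Y : Scheme.{0}) (g : Y ⟶ Spec (CommRingCat.of R)),
      IsProper g ∧ Flat g ∧ (∀ y : Y, IsRegularLocalRing (Y.presheaf.stalk y)) ∧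
      ∃ e : pullback g (Spec.map (CommRingCat.ofHom (algebraMap R K))) ≅ Proj 𝒜,
        e.hom ≫ projTo K 𝒜 =
          pullback.snd g (Spec.map (CommRingCat.ofHom (algebraMap R K))) := by
  let := subGradedAlgebra 𝒜 (h.isHomog_globalOrder 𝒜)
  have := h.finiteType 𝒜 hR
  refine ⟨Proj (subGr 𝒜 (globalOrder F)), projTo R (subGr 𝒜 (globalOrder F)),
    isProper_projTo _ (bijective_algebraMap_zero 𝒜 h hR), flat_projTo _ ?_,
    isRegularLocalRing_stalk_globalOrder 𝒜 h hR hreg, ?_⟩
  · intro r s hr hrs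
    ext
    have h1 := congrArg Subtype.val hrs
    change algebraMap R A r * (s : A) = 0 at h1
    rw [IsScalarTower.algebraMap_apply R K A, ← Algebra.smul_def] at h1
    have hr' : algebraMap R K r ≠ 0 := by
      rwa [Ne, FaithfulSMul.algebraMap_eq_zero_iff]
    exact (smul_eq_zero.mp h1).resolve_left hr'
  · have hsurj : ∀ a : A, ∃ r ∈ nonZeroDivisors R, ∃ b : globalOrder F,
        (subGrHom 𝒜 : subGr 𝒜 (globalOrder F) →+*ᵍ 𝒜) b =
          algebraMap K A (algebraMap R K r) * a := by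
      intro a
      obtain ⟨r, hr, hra⟩ := h.exists_ne_zero_smul_mem 𝒜 a
      refine ⟨r, mem_nonZeroDivisors_of_ne_zero hr, ⟨_, hra⟩, ?_⟩
      rw [← IsScalarTower.algebraMap_apply, ← Algebra.smul_def]
      rfl
    have hpb := isPullback_proj (subGr 𝒜 (globalOrder F)) 𝒜 (nonZeroDivisors R)
      (subGrHom 𝒜) (fun r => by
        rw [← IsScalarTower.algebraMap_apply]
        rfl) hsurj (fun b hb => ⟨1, one_mem _, by
          rw [map_one, one_mul]
          exact Subtype.ext hb⟩)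
      (irrelevant_le_map (subGr 𝒜 (globalOrder F)) 𝒜 (nonZeroDivisors R) (subGrHom 𝒜) hsurj)
    exact ⟨hpb.isoPullback.symm, by simp⟩

end Pool.Agent.Lib.MP_6a3dac_ag
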