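import Pool.Agent.Lib.MP_6a3dac_ag.Mg.G007

/-!
# The involution of the bihomogeneous coordinate ring
-/

set_option autoImplicit false
set_option linter.unusedSectionVars false

namespace Pool.Agent.Lib.MP_6a3dac_ag

open MvPolynomial

attribute [local instance] MvPolynomial.gradedAlgebra

section Weil

variable {K L O : Type} [Field K] [Field L] [Algebra K L] [CommRing O] [Algebra O L] {n : ℕ}
  (σ : L ≃ₐ[K] L) (𝔞 : HomogeneousIdeal (homogeneousSubmodule (Fin n) O))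

theorem swapPoly_C (c : L) : swapPoly n σ (C c) = C (σ c) := by
  rw [swapPoly, RingHom.comp_apply, map_C]
  change rename Sum.swap (C (σ c)) = _
  rw [rename_C]

theorem swapPoly_X (i : Fin n ⊕ Fin n) :
    swapPoly n σ (X i : MvPolynomial (Fin n ⊕ Fin n) L) = X i.swap := by
  rw [swapPoly, RingHom.comp_apply, map_X]
  change rename Sum.swap (X i) = _
  rw [rename_X]

theorem swapPoly_inl (f : MvPolynomial (Fin n) L) :
    swapPoly n σ (rename Sum.inl f) = rename Sum.inr (MvPolynomial.map (σ : L →+* L) f) := by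
  rw [swapPoly, RingHom.comp_apply, map_rename]
  change rename Sum.swap (rename Sum.inl _) = _
  rw [rename_rename]
  rfl

theorem swapPoly_inr (f : MvPolynomial (Fin n) L) :
    swapPoly n σ (rename Sum.inr f) = rename Sum.inl (MvPolynomial.map (σ : L →+* L) f) := by
  rw [swapPoly, RingHom.comp_apply, map_rename]
  change rename Sum.swap (rename Sum.inr _) = _
  rw [rename_rename]
  rfl

variable {σ} (hσ2 : ∀ c, σ (σ c) = c)

include hσ2

theorem map_map_involution (f : MvPolynomial (Fin n) O) :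
    MvPolynomial.map (σ : L →+* L) (MvPolynomial.map ((σ : L →+* L).comp (algebraMap O L)) f) =
      MvPolynomial.map (algebraMap O L) f := by
  rw [map_map]
  have h1 : ((σ : L →+* L).comp ((σ : L →+* L).comp (algebraMap O L))) = algebraMap O L :=
    RingHom.ext fun c => hσ2 _
  rw [h1]

theorem swapPoly_swapPoly (P : MvPolynomial (Fin n ⊕ Fin n) L) :
    swapPoly n σ (swapPoly n σ P) = P := by
  induction P using MvPolynomial.induction_on with
  | C c => rw [swapPoly_C, swapPoly_C, hσ2]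
  | add P Q hP hQ => rw [map_add, map_add, hP, hQ]
  | mul_X P i hP => rw [map_mul, map_mul, hP, swapPoly_X, swapPoly_X, Sum.swap_swap]

theorem pairIdeal_le_comap : pairIdeal σ 𝔞 ≤ (pairIdeal σ 𝔞).comap (swapPoly n σ) := by
  rw [pairIdeal_eq, Ideal.span_le]
  rintro _ (⟨f, hf, rfl⟩ | ⟨f, hf, rfl⟩)
  · refine Ideal.subset_span (Or.inr ⟨f, hf, ?_⟩)
    change _ = swapPoly n σ (rename Sum.inl _)
    rw [swapPoly_inl, map_map]
  · refine Ideal.subset_span (Or.inl ⟨f, hf, ?_⟩)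
    change _ = swapPoly n σ (rename Sum.inr _)
    rw [swapPoly_inr, map_map_involution hσ2]

/-- The involution of the bihomogeneous coordinate ring. -/
noncomputable def swapPair : PairRing σ 𝔞 →+* PairRing σ 𝔞 :=
  Ideal.quotientMap _ (swapPoly n σ) (pairIdeal_le_comap 𝔞 hσ2)

theorem swapPair_mk (P : MvPolynomial (Fin n ⊕ Fin n) L) :
    swapPair 𝔞 hσ2 (Ideal.Quotient.mk _ P) = Ideal.Quotient.mk _ (swapPoly n σ P) :=
  Ideal.quotientMap_mk

theorem swapPair_swapPair (z : PairRing σ 𝔞) : swapPair 𝔞 hσ2 (swapPair 𝔞 hσ2 z) = z := by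
  obtain ⟨P, rfl⟩ := Ideal.Quotient.mk_surjective z
  rw [swapPair_mk, swapPair_mk, swapPoly_swapPoly hσ2]

theorem swapPair_algebraMap (c : L) : swapPair 𝔞 hσ2 (algebraMap L (PairRing σ 𝔞) c) =
    algebraMap L (PairRing σ 𝔞) (σ c) := by
  change swapPair 𝔞 hσ2 (Ideal.Quotient.mk _ (C c)) = Ideal.Quotient.mk _ (C (σ c))
  rw [swapPair_mk, swapPoly_C]

theorem swapPair_xCl (i : Fin n) : swapPair 𝔞 hσ2 (xCl σ 𝔞 i) = yCl σ 𝔞 i := by
  rw [xCl, swapPair_mk, swapPoly_X]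
  rfl

theorem swapPair_yCl (i : Fin n) : swapPair 𝔞 hσ2 (yCl σ 𝔞 i) = xCl σ 𝔞 i := by
  rw [yCl, swapPair_mk, swapPoly_X]
  rfl

theorem mem_resAlg_iff (z : PairRing σ 𝔞) :
    z ∈ resAlg σ 𝔞 ↔ z ∈ segreAlg σ 𝔞 ∧ swapPair 𝔞 hσ2 z = z := by
  constructor
  · rintro ⟨hz, P, hP1, hP2⟩
    refine ⟨hz, ?_⟩
    conv_lhs => rw [← hP1]
    rw [swapPair_mk, hP2]
  · rintro ⟨hz, hz2⟩
    obtain ⟨P, rfl⟩ := Ideal.Quotient.mk_surjective z
    refine ⟨hz, P, rfl, ?_⟩
    rwa [swapPair_mk] at hz2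

theorem swapPair_mem_pairGr {z : PairRing σ 𝔞} {k : ℕ} (hz : z ∈ pairGr σ 𝔞 k) :
    swapPair 𝔞 hσ2 z ∈ pairGr σ 𝔞 k := by
  obtain ⟨P, hP, rfl⟩ := hz
  refine ⟨swapPoly n σ P, (IsHomogeneous.map hP _).rename_isHomogeneous, ?_⟩
  exact (swapPair_mk 𝔞 hσ2 P).symm

theorem swapPair_mem_segreAlg {z : PairRing σ 𝔞} (hz : z ∈ segreAlg σ 𝔞) :
    swapPair 𝔞 hσ2 z ∈ segreAlg σ 𝔞 := by
  rw [segreAlg_eq] at hz
  induction hz using Algebra.adjoin_induction with
  | mem x hx =>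
    obtain ⟨ij, rfl⟩ := hx
    change swapPair 𝔞 hσ2 (xCl σ 𝔞 ij.1 * yCl σ 𝔞 ij.2) ∈ _
    rw [map_mul, swapPair_xCl, swapPair_yCl, mul_comm]
    exact xy_mem_segreAlg _ _ _ _
  | algebraMap c =>
    rw [swapPair_algebraMap]
    exact Subalgebra.algebraMap_mem _ _
  | add x y _ _ hx hy =>
    rw [map_add]
    exact add_mem hx hy
  | mul x y _ _ hx hy =>
    rw [map_mul]
    exact mul_mem hx hy

/-- The involution of the Segre algebra. -/
noncomputable def swapSeg : segreAlg σ 𝔞 →+* segreAlg σ 𝔞 :=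
  ((swapPair 𝔞 hσ2).comp (segreAlg σ 𝔞).val.toRingHom).codRestrict (segreAlg σ 𝔞).toSubring
    fun z => swapPair_mem_segreAlg 𝔞 hσ2 z.2

theorem coe_swapSeg (z : segreAlg σ 𝔞) :
    (swapSeg 𝔞 hσ2 z : PairRing σ 𝔞) = swapPair 𝔞 hσ2 z := rfl

theorem swapSeg_swapSeg (z : segreAlg σ 𝔞) : swapSeg 𝔞 hσ2 (swapSeg 𝔞 hσ2 z) = z :=
  Subtype.ext (swapPair_swapPair 𝔞 hσ2 z)

end Weil

end Pool.Agent.Lib.MP_6a3dac_ag
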