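import Pool.Agent.Lib.MP_6a3dac_ag.ChartMain
import Pool.Agent.Lib.MP_6a3dac_ag.Mg.G072

/-!
# Regularity from a chart
-/

set_option autoImplicit false

namespace Pool.Agent.Lib.MP_6a3dac_ag

open MvPolynomial IsLocalRing

/-- Regularity of a local ring from a map to a bigger ring. -/
theorem isRegularLocalRing_of_range {P D L : Type} [CommRing P] [IsRegularRing P] [CommRing D]
    [IsLocalRing D] [CommRing L] [Nontrivial L] (Θ : D →+* L) (hΘ : Function.Injective Θ)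
    (δ' : P →+* L) (hrange : ∀ p, δ' p ∈ Θ.range) {r : ℕ} (f : Fin r → P)
    (hf : ∀ i, δ' (f i) = 0)
    (hind : ∀ Q : Ideal P, Q.IsPrime → (∀ i, f i ∈ Q) → ∀ s, s ∉ Q → ∀ c : Fin r → P,
      s * ∑ i, c i * f i ∈ Q ^ 2 → ∀ i, c i ∈ Q)
    (ha : ∀ z : D, ∃ a b, Θ z * δ' b = δ' a ∧ ∀ w, Θ w = δ' b → IsUnit w)
    (hb : ∀ q, δ' q = 0 → ∃ τ, δ' τ ≠ 0 ∧ τ * q ∈ Ideal.span (Set.range f)) :
    IsRegularLocalRing D := by
  obtain ⟨δ, hδ⟩ := exists_lift_of_range_le Θ hΘ δ' hrange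
  have hf' : ∀ i, δ (f i) = 0 := by
    intro i
    apply hΘ
    rw [hδ, hf, map_zero]
  refine isRegularLocalRing_of_chart δ f hf' ?_ ?_ ?_
  · intro s hs c hc
    refine hind _ (Ideal.IsPrime.comap δ) ?_ s ?_ c hc
    · intro i
      rw [Ideal.mem_comap, hf']
      exact Ideal.zero_mem _
    · rw [Ideal.mem_comap, IsLocalRing.mem_maximalIdeal, mem_nonunits_iff, not_not]
      exact hs
  · intro z
    obtain ⟨a, b, h1, h2⟩ := ha z
    refine ⟨a, b, h2 _ (hδ b), ?_⟩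
    apply hΘ
    rw [map_mul, hδ, hδ, h1]
  · intro p hp
    have h1 : δ' p = 0 := by rw [← hδ, hp, map_zero]
    obtain ⟨τ, h2, h3⟩ := hb p h1
    refine ⟨τ, ?_, h3⟩
    intro h4
    apply h2
    rw [← hδ, h4, map_zero]

end Pool.Agent.Lib.MP_6a3dac_ag
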