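import Pool.Agent.Lib.MP_6a3dac_ag.SplitReg

/-!
# Charts of `Proj` of a graded order generated in degree one
-/

set_option autoImplicit false

namespace Pool.Agent.Lib.MP_6a3dac_ag

open MvPolynomial IsLocalRing HomogeneousLocalization

section Homogenize

variable {O G ν : Type} [CommRing O]

theorem eval₂Hom_mul_of_isHomogeneous' {L : Type} [CommRing L] (φ : O →+* L) (v : L) (w : G → L)
    {p : MvPolynomial G O} {k : ℕ} (hp : p.IsHomogeneous k) :
    eval₂Hom φ (fun i => v * w i) p = v ^ k * eval₂Hom φ w p := by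
  rw [coe_eval₂Hom, coe_eval₂Hom, eval₂_eq, eval₂_eq, Finset.mul_sum]
  refine Finset.sum_congr rfl fun d hd => ?_
  have hdk : ∑ i ∈ d.support, d i = k := by
    have := hp (mem_support_iff.mp hd)
    rw [← this, Finsupp.weight_apply, Finsupp.sum]
    simp
  simp_rw [mul_pow]
  rw [Finset.prod_mul_distrib, Finset.prod_pow_eq_pow_sum, hdk]
  ring

theorem map_eq_of_isHomogeneous {L : Type} [CommRing L] (μ : MvPolynomial G O →+* L)
    (δ' : MvPolynomial ν O →+* L) (θ : MvPolynomial G O →ₐ[O] MvPolynomial ν O) (d : L)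
    (hC : ∀ r, μ (C r) = δ' (C r)) (hX : ∀ x, μ (X x) = d * δ' (θ (X x)))
    {z : MvPolynomial G O} {k : ℕ} (hz : z.IsHomogeneous k) : μ z = d ^ k * δ' (θ z) := by
  have h1 : μ = eval₂Hom (μ.comp C) (fun x => d * δ' (θ (X x))) := by
    apply MvPolynomial.ringHom_ext
    · intro r
      simp
    · intro x
      rw [coe_eval₂Hom, eval₂_X, hX]
  have h2 : δ'.comp (θ : MvPolynomial G O →+* MvPolynomial ν O) =
      eval₂Hom (μ.comp C) (fun x => δ' (θ (X x))) := by
    apply MvPolynomial.ringHom_ext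
    · intro r
      rw [coe_eval₂Hom, eval₂_C, RingHom.comp_apply, RingHom.comp_apply, hC]
      congr 1
      exact θ.commutes r
    · intro x
      rw [coe_eval₂Hom, eval₂_X]
      rfl
  have h3 : δ' (θ z) = eval₂Hom (μ.comp C) (fun x => δ' (θ (X x))) z := by
    rw [← h2]; rfl
  rw [h3, ← eval₂Hom_mul_of_isHomogeneous' _ _ _ hz, ← h1]

theorem exists_homogenization {g : MvPolynomial G O} (hg : g.IsHomogeneous 1)
    (zvar : ν → MvPolynomial G O) (hz : ∀ x, (zvar x).IsHomogeneous 1) (p : MvPolynomial ν O) :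
    ∃ (k : ℕ) (P : MvPolynomial G O), P.IsHomogeneous k ∧
      ∀ (L : Type) [CommRing L] (μ : MvPolynomial G O →+* L) (δ' : MvPolynomial ν O →+* L),
        (∀ r, μ (C r) = δ' (C r)) → (∀ x, μ (zvar x) = μ g * δ' (X x)) →
          μ P = μ g ^ k * δ' p := by
  induction p using MvPolynomial.induction_on with
  | C r =>
    refine ⟨0, C r, isHomogeneous_C _ _, fun L _ μ δ' hC _ => ?_⟩
    rw [hC, pow_zero, one_mul]
  | add p q hp hq =>
    obtain ⟨k, P, hP, hP'⟩ := hp
    obtain ⟨l, Q, hQ, hQ'⟩ := hq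
    refine ⟨k + l, P * g ^ l + Q * g ^ k, ?_, fun L _ μ δ' hC hv => ?_⟩
    · have h1 := hP.mul (hg.pow l)
      have h2 := hQ.mul (hg.pow k)
      rw [one_mul] at h1 h2
      rw [add_comm l k] at h2
      exact h1.add h2
    · rw [map_add, map_mul, map_mul, map_pow, map_pow, hP' L μ δ' hC hv, hQ' L μ δ' hC hv,
        map_add]
      ring
  | mul_X p x hp =>
    obtain ⟨k, P, hP, hP'⟩ := hp
    refine ⟨k + 1, P * zvar x, hP.mul (hz x), fun L _ μ δ' hC hv => ?_⟩
    rw [map_mul, hP' L μ δ' hC hv, hv, map_mul]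
    ring

end Homogenize

section Graded

variable {O A G : Type} [CommRing O] [CommRing A] {σ : Type} [SetLike σ A]
  [AddSubgroupClass σ A] (𝒜 : ℕ → σ) [GradedRing 𝒜] (ψ : MvPolynomial G O →+* A)
  (hC : ∀ r, ψ (C r) ∈ 𝒜 0) (hX : ∀ i, ψ (X i) ∈ 𝒜 1)

include hC hX in
theorem mem_of_isHomogeneous' {p : MvPolynomial G O} {k : ℕ} (hp : p.IsHomogeneous k) :
    ψ p ∈ 𝒜 k := by
  rw [p.as_sum, map_sum]
  refine sum_mem fun d hd => ?_
  rw [monomial_eq, map_mul, Finsupp.prod, map_prod]
  have h1 : ∏ i ∈ d.support, ψ (X i ^ d i) ∈ 𝒜 (∑ i ∈ d.support, d i) := by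
    refine SetLike.prod_mem_graded (A := 𝒜) (fun i => d i) _ fun i _ => ?_
    rw [map_pow]
    have := SetLike.pow_mem_graded (A := 𝒜) (d i) (hX i)
    simpa using this
  have h2 : ∑ i ∈ d.support, d i = k := by
    have := hp (mem_support_iff.mp hd)
    rw [← this, Finsupp.weight_apply, Finsupp.sum]
    simp
  rw [← h2, ← zero_add (∑ i ∈ d.support, d i)]
  exact SetLike.mul_mem_graded (hC _) h1

include hC hX in
theorem decompose_map' (p : MvPolynomial G O) (k : ℕ) :
    (DirectSum.decompose 𝒜 (ψ p) k : A) = ψ (homogeneousComponent k p) := by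
  conv_lhs => rw [← sum_homogeneousComponent p]
  rw [map_sum, DirectSum.decompose_sum, DFinsupp.finsetSum_apply, AddSubmonoidClass.coe_finsetSum]
  have h1 : ∀ i, (DirectSum.decompose 𝒜 (ψ (homogeneousComponent i p)) k : A) =
      if i = k then ψ (homogeneousComponent k p) else 0 := by
    intro i
    have hi := mem_of_isHomogeneous' 𝒜 ψ hC hX (homogeneousComponent_isHomogeneous i p)
    split_ifs with h
    · subst h
      rw [DirectSum.decompose_of_mem_same 𝒜 hi]
    · rw [DirectSum.decompose_of_mem_ne 𝒜 hi h]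
  simp_rw [h1]
  rw [Finset.sum_ite_eq']
  split_ifs with h
  · rfl
  · rw [Finset.mem_range, not_lt] at h
    rw [homogeneousComponent_eq_zero _ _ (by omega), map_zero]

end Graded

section Order

variable {R O K A G : Type} [CommRing R] [CommRing O] [CommRing K] [CommRing A] [Algebra R K]
  [Algebra K A] [Algebra R A] [IsScalarTower R K A] [Algebra R O] (𝒜 : ℕ → Submodule K A)
  (p : Ideal R) [p.IsPrime] (ψ : MvPolynomial G O →+* A)

/-- The order generated by the images of the variables. -/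
def genOrder : Subalgebra R A := locSub p (Algebra.adjoin R (Set.range fun x => ψ (X x)))

omit [Algebra R O] in
theorem psi_X_mem (x : G) : ψ (X x) ∈ genOrder p ψ :=
  le_locSub _ _ (Algebra.subset_adjoin ⟨x, rfl⟩)

variable [IsLocalization.AtPrime O p] (hψR : ∀ r, ψ (C (algebraMap R O r)) = algebraMap R A r)
include hψR

theorem psi_C_mul_smul' {r : R} (hr : r ∉ p) (a : A) :
    ψ (C (IsLocalization.mk' O 1 (⟨r, hr⟩ : p.primeCompl))) * r • a = a := by
  rw [Algebra.smul_def, ← mul_assoc, ← hψR, ← map_mul, ← map_mul, IsLocalization.mk'_spec, map_one,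
    map_one, map_one, one_mul]

theorem mem_genOrder (a : A) : a ∈ genOrder p ψ ↔ ∃ z, ψ z = a := by
  constructor
  · rintro ⟨r, hr, ha⟩
    have h1 : ∀ x ∈ Algebra.adjoin R (Set.range fun x => ψ (X x)), ∃ g, ψ g = x := by
      intro x hx
      induction hx using Algebra.adjoin_induction with
      | mem x hx =>
        obtain ⟨g, rfl⟩ := hx
        exact ⟨X g, rfl⟩
      | algebraMap r => exact ⟨_, hψR r⟩
      | add x y _ _ hx hy =>
        obtain ⟨a, rfl⟩ := hx
        obtain ⟨b, rfl⟩ := hy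
        exact ⟨a + b, map_add _ _ _⟩
      | mul x y _ _ hx hy =>
        obtain ⟨a, rfl⟩ := hx
        obtain ⟨b, rfl⟩ := hy
        exact ⟨a * b, map_mul _ _ _⟩
    obtain ⟨g, hg⟩ := h1 _ ha
    refine ⟨C (IsLocalization.mk' O 1 (⟨r, hr⟩ : p.primeCompl)) * g, ?_⟩
    rw [map_mul, hg, psi_C_mul_smul' p ψ hψR hr]
  · rintro ⟨z, rfl⟩
    induction z using MvPolynomial.induction_on with
    | C r =>
      obtain ⟨a, s, rfl⟩ := IsLocalization.exists_mk'_eq p.primeCompl r
      refine ⟨s, s.2, ?_⟩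
      rw [Algebra.smul_def, ← hψR, ← map_mul, ← map_mul, IsLocalization.mk'_spec', hψR]
      exact Subalgebra.algebraMap_mem _ _
    | add f g hf hg =>
      rw [map_add]
      exact Subalgebra.add_mem _ hf hg
    | mul_X f i hf =>
      rw [map_mul]
      exact Subalgebra.mul_mem _ hf (psi_X_mem p ψ i)

end Order

end Pool.Agent.Lib.MP_6a3dac_ag
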