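import Pool.Agent.Lib.MP_6a3dac_ag.ChartData

/-!
# The main properties of the charts
-/

set_option autoImplicit false

namespace Pool.Agent.Lib.MP_6a3dac_ag

open MvPolynomial IsLocalRing HomogeneousLocalization

variable {R O K A G ν : Type} [CommRing R] [CommRing O] [CommRing K] [CommRing A] [Algebra R K]
  [Algebra K A] [Algebra R A] [IsScalarTower R K A] [Algebra R O] (𝒜 : ℕ → Submodule K A)
  [GradedAlgebra 𝒜]
  (p : Ideal R) [p.IsPrime] (ψ : MvPolynomial G O →+* A)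
  (hC : ∀ r, ψ (C r) ∈ 𝒜 0) (hX : ∀ i, ψ (X i) ∈ 𝒜 1)

include hX in
omit [Algebra R O] in
theorem isHomog_genOrder : IsHomog 𝒜 (genOrder p ψ) := by
  refine isHomog_locSub 𝒜 _ (isHomog_adjoin 𝒜 ?_)
  rintro _ ⟨g, rfl⟩
  exact ⟨1, hX g⟩

variable [IsLocalization.AtPrime O p] (hψR : ∀ r, ψ (C (algebraMap R O r)) = algebraMap R A r)
  (hT : IsHomog 𝒜 (genOrder p ψ)) (y : Ideal (genOrder p ψ)) [hy : y.IsPrime]

omit hy in
include hC hX hψR in
/-- A relevant homogeneous prime of the order does not contain all generators. -/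
theorem exists_X_notMem (hirr : letI := subGradedAlgebra 𝒜 hT
      ¬ (HomogeneousIdeal.irrelevant (subGr 𝒜 (genOrder p ψ))).toIdeal ≤ y) :
    ∃ x : G, (⟨ψ (X x), psi_X_mem p ψ x⟩ : genOrder p ψ) ∉ y := by
  by_contra hcon
  push Not at hcon
  let := subGradedAlgebra 𝒜 hT
  apply hirr
  rw [HomogeneousIdeal.toIdeal_irrelevant_le]
  intro i hi t ht
  change t ∈ y
  obtain ⟨z, hz⟩ := (mem_genOrder p ψ hψR t).mp t.2
  have h1 : ψ (homogeneousComponent i z) = t := by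
    rw [← decompose_map' 𝒜 ψ hC hX, hz]
    exact DirectSum.decompose_of_mem_same 𝒜 ht
  have hmem : ∀ q, ψ q ∈ genOrder p ψ := fun q => (mem_genOrder p ψ hψR _).mpr ⟨q, rfl⟩
  have hhom : ∀ (q : MvPolynomial G O), q.IsHomogeneous i →
      (⟨ψ q, hmem q⟩ : genOrder p ψ) ∈ y := by
    intro q hq
    let ψ' : MvPolynomial G O →+* genOrder p ψ :=
      ψ.codRestrict (genOrder p ψ).toSubring fun x => hmem x
    change ψ' q ∈ y
    rw [q.as_sum, map_sum]
    refine y.sum_mem fun d hd => ?_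
    have hdk : d.degree = i := by
      have := hq (mem_support_iff.mp hd)
      rw [← this, Finsupp.degree_eq_weight_one]
      rfl
    have hd0 : d ≠ 0 := by
      rintro rfl
      rw [map_zero] at hdk
      omega
    obtain ⟨j, hj⟩ := Finsupp.ne_iff.mp hd0
    rw [monomial_eq, map_mul, Finsupp.prod, map_prod]
    refine y.mul_mem_left _ (Ideal.mem_of_dvd _
      (Finset.dvd_prod_of_mem (fun i => ψ' (X i ^ d i)) (Finsupp.mem_support_iff.mpr hj)) ?_)
    rw [map_pow]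
    exact Ideal.pow_mem_of_mem _ (hcon j) _ (Nat.pos_of_ne_zero hj)
  have h2 := hhom _ (homogeneousComponent_isHomogeneous i z)
  have h3 : (⟨ψ (homogeneousComponent i z), hmem _⟩ : genOrder p ψ) = t := Subtype.ext h1
  rwa [h3] at h2

include hC hX hψR in
/-- **Charts.** -/
theorem exists_chart {g : MvPolynomial G O} (hg : g.IsHomogeneous 1)
    (hgy : (⟨ψ g, (mem_genOrder p ψ hψR _).mpr ⟨g, rfl⟩⟩ : genOrder p ψ) ∉ y)
    (zvar : ν → MvPolynomial G O) (hz : ∀ x, (zvar x).IsHomogeneous 1)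
    (θ : MvPolynomial G O →ₐ[O] MvPolynomial ν O)
    (hcompat : ∀ (L : Type) [CommRing L] (μ : A →+* L), IsUnit (μ (ψ g)) →
      ∀ (δ' : MvPolynomial ν O →+* L), (∀ r, μ (ψ (C r)) = δ' (C r)) →
        (∀ v, μ (ψ (zvar v)) = μ (ψ g) * δ' (X v)) →
          ∀ x, μ (ψ (X x)) = μ (ψ g) * δ' (θ (X x))) :
    letI := subGradedAlgebra 𝒜 hT
    ∃ δ' : MvPolynomial ν O →+* BigLoc y,
      (∀ r, algebraMap A (BigLoc y) (ψ (C r)) = δ' (C r)) ∧
      (∀ v, algebraMap A (BigLoc y) (ψ (zvar v)) = algebraMap A (BigLoc y) (ψ g) * δ' (X v)) ∧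
      (∀ x, algebraMap A (BigLoc y) (ψ (X x)) =
        algebraMap A (BigLoc y) (ψ g) * δ' (θ (X x))) ∧
      (∀ q, δ' q ∈ (bigMap 𝒜 hT y).range) ∧
      (∀ z, ∃ a b, bigMap 𝒜 hT y z * δ' b = δ' a ∧ ∀ w, bigMap 𝒜 hT y w = δ' b → IsUnit w) ∧
      (∀ q, δ' q = 0 → ∃ (τ : MvPolynomial ν O) (Q : MvPolynomial G O) (m : ℕ), IsUnit (δ' τ) ∧
        ψ Q = 0 ∧ ∀ (L : Type) [CommRing L] (μ : MvPolynomial G O →+* L)
          (δ'' : MvPolynomial ν O →+* L), (∀ r, μ (C r) = δ'' (C r)) →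
            (∀ v, μ (zvar v) = μ g * δ'' (X v)) → (∀ x, μ (X x) = μ g * δ'' (θ (X x))) →
              μ Q = μ g ^ m * δ'' (τ * q)) := by
  classical
  let := subGradedAlgebra 𝒜 hT
  have hmem : ∀ q, ψ q ∈ genOrder p ψ := fun q => (mem_genOrder p ψ hψR _).mpr ⟨q, rfl⟩
  let ι : A →+* BigLoc y := algebraMap A (BigLoc y)
  have hd : IsUnit (ι (ψ g)) := isUnit_algebraMap_bigLoc y hgy
  obtain ⟨d, hd'⟩ := hd
  let δ' : MvPolynomial ν O →+* BigLoc y :=
    eval₂Hom ((ι.comp ψ).comp C) fun v => ι (ψ (zvar v)) * ↑(d⁻¹)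
  have h1 : ∀ r, ι (ψ (C r)) = δ' (C r) := by
    intro r
    simp [δ']
  have h2 : ∀ v, ι (ψ (zvar v)) = ι (ψ g) * δ' (X v) := by
    intro v
    simp only [δ', coe_eval₂Hom, eval₂_X]
    rw [← hd', mul_comm (ι (ψ (zvar v))), ← mul_assoc, Units.mul_inv, one_mul]
  have h3 : ∀ x, ι (ψ (X x)) = ι (ψ g) * δ' (θ (X x)) :=
    hcompat (BigLoc y) ι (hd' ▸ d.isUnit) δ' h1 h2
  have hhom : ∀ {z : MvPolynomial G O} {k : ℕ}, z.IsHomogeneous k →
      ι (ψ z) = ι (ψ g) ^ k * δ' (θ z) := fun hz =>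
    map_eq_of_isHomogeneous (ι.comp ψ) δ' θ (ι (ψ g)) h1 h3 hz
  have hmemA : ∀ {z : MvPolynomial G O} {k : ℕ}, z.IsHomogeneous k → ψ z ∈ 𝒜 k :=
    fun hz => mem_of_isHomogeneous' 𝒜 ψ hC hX hz
  have hunit : IsUnit (ι (ψ g)) := hd' ▸ d.isUnit
  refine ⟨δ', h1, h2, h3, ?_, ?_, ?_⟩
  · intro q
    induction q using MvPolynomial.induction_on with
    | C r =>
      rw [← h1]
      refine mem_range_bigMap 𝒜 hT y 0 ⟨_, hmem (C r)⟩ 1 (hC r)
        (SetLike.GradedOne.one_mem) ?_ ?_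
      · exact fun h1 => hy.ne_top ((Ideal.eq_top_iff_one _).mpr h1)
      · change ι (ψ (C r)) * ι 1 = ι (ψ (C r))
        rw [map_one, mul_one]
    | add P Q hP hQ =>
      rw [map_add]
      exact Subring.add_mem _ hP hQ
    | mul_X P v hP =>
      rw [map_mul]
      refine Subring.mul_mem _ hP ?_
      refine mem_range_bigMap 𝒜 hT y 1 ⟨_, hmem (zvar v)⟩ ⟨_, hmem g⟩ (hmemA (hz v)) (hmemA hg)
        hgy ?_
      change δ' (X v) * ι (ψ g) = ι (ψ (zvar v))
      rw [h2, mul_comm]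
  · intro z
    obtain ⟨k, a, b, ha, hb, hby, rfl⟩ := exists_frac 𝒜 hT y z
    have hrep : ∀ (c : genOrder p ψ), (c : A) ∈ 𝒜 k → ∃ q : MvPolynomial G O,
        q.IsHomogeneous k ∧ ψ q = c := by
      intro c hc
      obtain ⟨z, hz⟩ := (mem_genOrder p ψ hψR c).mp c.2
      refine ⟨homogeneousComponent k z, homogeneousComponent_isHomogeneous k z, ?_⟩
      rw [← decompose_map' 𝒜 ψ hC hX, hz]
      exact DirectSum.decompose_of_mem_same 𝒜 hc
    obtain ⟨qa, hqa, hqa'⟩ := hrep a ha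
    obtain ⟨qb, hqb, hqb'⟩ := hrep b hb
    have hgk : ((⟨_, hmem (g ^ k)⟩ : genOrder p ψ) : A) ∈ 𝒜 k := by
      have := hmemA (hg.pow k)
      rwa [one_mul] at this
    have hgky : (⟨_, hmem (g ^ k)⟩ : genOrder p ψ) ∉ y := by
      intro h
      have h4 : (⟨_, hmem (g ^ k)⟩ : genOrder p ψ) = (⟨ψ g, hmem g⟩ : genOrder p ψ) ^ k := by
        apply Subtype.ext
        change ψ (g ^ k) = (ψ g) ^ k
        exact map_pow _ _ _
      rw [h4] at h
      exact hgy (hy.mem_of_pow_mem _ h)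
    have hev : IsUnit (ι (ψ g) ^ k) := hunit.pow k
    refine ⟨θ qa, θ qb, ?_, ?_⟩
    · have h4 := bigMap_mk 𝒜 hT y k a b ha hb hby
      apply hev.mul_left_cancel
      calc ι (ψ g) ^ k * (bigMap 𝒜 hT y (HomogeneousLocalization.mk ⟨k, ⟨a, ha⟩, ⟨b, hb⟩, hby⟩) *
            δ' (θ qb)) =
          bigMap 𝒜 hT y (HomogeneousLocalization.mk ⟨k, ⟨a, ha⟩, ⟨b, hb⟩, hby⟩) *
            (ι (ψ g) ^ k * δ' (θ qb)) := by ring
        _ = bigMap 𝒜 hT y (HomogeneousLocalization.mk ⟨k, ⟨a, ha⟩, ⟨b, hb⟩, hby⟩) * ι b := by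
            rw [← hhom hqb, hqb']
        _ = ι a := h4
        _ = _ := by rw [← hqa', hhom hqa]
    · intro w hw
      have h4 := isUnit_frac_of_notMem 𝒜 hT y k b ⟨_, hmem (g ^ k)⟩ hb hgk hby hgky
      have h5 := bigMap_mk 𝒜 hT y k b ⟨_, hmem (g ^ k)⟩ hb hgk hgky
      have h6 : w = HomogeneousLocalization.mk ⟨k, ⟨b, hb⟩, ⟨⟨_, hmem (g ^ k)⟩, hgk⟩, hgky⟩ := by
        apply bigMap_injective 𝒜 hT y
        rw [hw]
        apply hev.mul_right_cancel
        have h7 : algebraMap A (BigLoc y) ((⟨_, hmem (g ^ k)⟩ : genOrder p ψ) : A) =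
            ι (ψ g) ^ k := by
          change ι (ψ (g ^ k)) = _
          rw [map_pow, map_pow]
        rw [h7] at h5
        rw [h5]
        change _ = ι b
        rw [← hqb', hhom hqb, mul_comm]
      rw [h6]
      exact h4
  · intro q hq
    obtain ⟨k, P, hP, hP'⟩ := exists_homogenization hg zvar hz q
    have hιP : ι (ψ P) = 0 := by
      have := hP' (BigLoc y) (ι.comp ψ) δ' h1 h2
      rw [RingHom.comp_apply] at this
      rw [this, hq, mul_zero]
    obtain ⟨⟨_, t, ht, rfl⟩, ht0⟩ := (IsLocalization.map_eq_zero_iff (denoms y) (BigLoc y) _).mp hιP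
    change (t : A) * ψ P = 0 at ht0
    obtain ⟨l, hl⟩ : ∃ l, ((DirectSum.decompose (subGr 𝒜 (genOrder p ψ)) t l : _) :
        genOrder p ψ) ∉ y := by
      by_contra hcon
      push Not at hcon
      apply ht
      rw [← DirectSum.sum_support_decompose (subGr 𝒜 (genOrder p ψ)) t]
      exact y.sum_mem fun i _ => hcon i
    have htl : ((DirectSum.decompose 𝒜 (t : A) l : _) : A) * ψ P = 0 := by
      have h5 := DirectSum.coe_decompose_mul_of_right_mem 𝒜 (l + k) (hmemA hP) (a := (t : A))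
      rw [ht0, if_pos (by omega), Nat.add_sub_cancel, DirectSum.decompose_zero] at h5
      exact h5.symm
    obtain ⟨z, hz'⟩ := (mem_genOrder p ψ hψR t).mp t.2
    have hzl := homogeneousComponent_isHomogeneous l z
    have hψl : ψ (homogeneousComponent l z) = DirectSum.decompose 𝒜 (t : A) l := by
      rw [← decompose_map' 𝒜 ψ hC hX, hz']
    refine ⟨θ (homogeneousComponent l z), homogeneousComponent l z * P, l + k, ?_, ?_, ?_⟩
    · have h5 : IsUnit (ι (ψ (homogeneousComponent l z))) := by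
        rw [hψl, ← coe_decompose_subGr 𝒜 hT t l]
        exact isUnit_algebraMap_bigLoc y hl
      rw [hhom hzl] at h5
      exact isUnit_of_mul_isUnit_right h5
    · rw [map_mul, hψl, htl]
    · intro L _ μ δ'' e1 e2 e3
      rw [map_mul, hP' L μ δ'' e1 e2, map_eq_of_isHomogeneous μ δ'' θ (μ g) e1 e3 hzl, map_mul]
      ring

end Pool.Agent.Lib.MP_6a3dac_ag
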