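import Pool.Agent.Lib.MP_6a3dac_ag.Mg.G006
import Pool.Agent.Lib.MP_6a3dac_ag.Mg.G072

/-!
# The homogeneous local ring of a graded subalgebra inside a localization of the algebra
-/

set_option autoImplicit false

namespace Pool.Agent.Lib.MP_6a3dac_ag

open HomogeneousLocalization

section Lift

universe u v w

theorem exists_lift_of_range_le {P : Type u} {D : Type v} {L : Type w} [CommRing P] [CommRing D]
    [CommRing L] (Θ : D →+* L) (hΘ : Function.Injective Θ) (δ' : P →+* L)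
    (hrange : ∀ p, δ' p ∈ Θ.range) : ∃ δ : P →+* D, ∀ p, Θ (δ p) = δ' p := by
  let e : D ≃+* Θ.range := RingEquiv.ofBijective Θ.rangeRestrict
    ⟨fun x y h => hΘ (congrArg Subtype.val h), Θ.rangeRestrict_surjective⟩
  refine ⟨e.symm.toRingHom.comp (δ'.codRestrict Θ.range hrange), fun p => ?_⟩
  have h1 : e (e.symm ⟨δ' p, hrange p⟩) = ⟨δ' p, hrange p⟩ := e.apply_symm_apply _
  exact congrArg Subtype.val h1

end Lift

section

variable {R K A : Type} [CommRing R] [CommRing K] [CommRing A] [Algebra R K] [Algebra K A]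
  [Algebra R A] [IsScalarTower R K A]
  (𝒜 : ℕ → Submodule K A) [GradedAlgebra 𝒜] {T : Subalgebra R A} (hT : IsHomog 𝒜 T)
  (y : Ideal T) [hy : y.IsPrime]

/-- The elements of the algebra which lie in the subalgebra but not in the prime ideal. -/
def denoms : Submonoid A := y.primeCompl.map (T.val : T →+* A)

omit [GradedAlgebra 𝒜] in
theorem mem_denoms {a : A} : a ∈ denoms y ↔ ∃ t : T, t ∉ y ∧ (t : A) = a := Iff.rfl

/-- The localization of the algebra at the elements of the subalgebra outside the prime. -/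
abbrev BigLoc : Type := Localization (denoms y)

instance : IsLocalization (y.primeCompl.map (T.val : T →+* A)) (BigLoc y) :=
  inferInstanceAs (IsLocalization (denoms y) (Localization (denoms y)))

/-- The map from the local ring to the big localization. -/
noncomputable def locIncl : Localization.AtPrime y →+* BigLoc y :=
  IsLocalization.map (BigLoc y) (T.val : T →+* A) (Submonoid.le_comap_map y.primeCompl)

omit [GradedAlgebra 𝒜] in
theorem locIncl_injective : Function.Injective (locIncl y) :=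
  IsLocalization.map_injective_of_injective (g := (T.val : T →+* A)) y.primeCompl
    (Localization.AtPrime y) (BigLoc y) Subtype.val_injective

/-- The map from the homogeneous local ring to the big localization. -/
noncomputable def bigMap :
    letI := subGradedAlgebra 𝒜 hT
    AtPrime (subGr 𝒜 T) y →+* BigLoc y :=
  letI := subGradedAlgebra 𝒜 hT
  (locIncl y).comp (algebraMap (AtPrime (subGr 𝒜 T) y) (Localization.AtPrime y))

theorem bigMap_injective :
    letI := subGradedAlgebra 𝒜 hT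
    Function.Injective (bigMap 𝒜 hT y) := by
  let := subGradedAlgebra 𝒜 hT
  intro a b hab
  exact val_injective _ (locIncl_injective y hab)

theorem bigMap_mk (k : ℕ) (a b : T) (ha : (a : A) ∈ 𝒜 k) (hb : (b : A) ∈ 𝒜 k) (hby : b ∉ y) :
    letI := subGradedAlgebra 𝒜 hT
    bigMap 𝒜 hT y (HomogeneousLocalization.mk ⟨k, ⟨a, ha⟩, ⟨b, hb⟩, hby⟩) *
      algebraMap A (BigLoc y) b = algebraMap A (BigLoc y) a := by
  let := subGradedAlgebra 𝒜 hT
  have h1 : bigMap 𝒜 hT y (HomogeneousLocalization.mk ⟨k, ⟨a, ha⟩, ⟨b, hb⟩, hby⟩) =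
      locIncl y (IsLocalization.mk' (Localization.AtPrime y) a (⟨b, hby⟩ : y.primeCompl)) := by
    rw [← Localization.mk_eq_mk']
    rfl
  rw [h1, locIncl, IsLocalization.map_mk']
  exact IsLocalization.mk'_spec _ _ _

include hT in
theorem exists_frac :
    letI := subGradedAlgebra 𝒜 hT
    ∀ z : AtPrime (subGr 𝒜 T) y, ∃ (k : ℕ) (a b : T) (ha : (a : A) ∈ 𝒜 k) (hb : (b : A) ∈ 𝒜 k) (hby : b ∉ y),
      z = HomogeneousLocalization.mk ⟨k, ⟨a, ha⟩, ⟨b, hb⟩, hby⟩ := by
  let := subGradedAlgebra 𝒜 hT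
  intro z
  obtain ⟨⟨k, ⟨a, ha⟩, ⟨b, hb⟩, hby⟩, rfl⟩ := mk_surjective z
  exact ⟨k, a, b, ha, hb, hby, rfl⟩

theorem isUnit_frac_of_notMem (k : ℕ) (a b : T) (ha : (a : A) ∈ 𝒜 k) (hb : (b : A) ∈ 𝒜 k)
    (hay : a ∉ y) (hby : b ∉ y) :
    letI := subGradedAlgebra 𝒜 hT
    IsUnit (HomogeneousLocalization.mk (𝒜 := subGr 𝒜 T) (x := y.primeCompl)
      ⟨k, ⟨a, ha⟩, ⟨b, hb⟩, hby⟩) := by
  let := subGradedAlgebra 𝒜 hT
  refine IsUnit.of_mul_eq_one (HomogeneousLocalization.mk ⟨k, ⟨b, hb⟩, ⟨a, ha⟩, hay⟩) ?_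
  apply bigMap_injective 𝒜 hT y
  rw [map_mul, map_one]
  have h1 := bigMap_mk 𝒜 hT y k a b ha hb hby
  have h2 := bigMap_mk 𝒜 hT y k b a hb ha hay
  have hua : IsUnit (algebraMap A (BigLoc y) a) :=
    IsLocalization.map_units (BigLoc y) (⟨a, a, hay, rfl⟩ : denoms y)
  have hub : IsUnit (algebraMap A (BigLoc y) b) :=
    IsLocalization.map_units (BigLoc y) (⟨b, b, hby, rfl⟩ : denoms y)
  apply (hua.mul hub).mul_right_cancel
  calc _ = (bigMap 𝒜 hT y (HomogeneousLocalization.mk ⟨k, ⟨a, ha⟩, ⟨b, hb⟩, hby⟩) *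
        algebraMap A (BigLoc y) b) *
        (bigMap 𝒜 hT y (HomogeneousLocalization.mk ⟨k, ⟨b, hb⟩, ⟨a, ha⟩, hay⟩) *
        algebraMap A (BigLoc y) a) := by ring
    _ = _ := by rw [h1, h2, one_mul]

omit [GradedAlgebra 𝒜] in
theorem nontrivial_bigLoc : Nontrivial (BigLoc y) :=
  (locIncl_injective y).nontrivial

end

end Pool.Agent.Lib.MP_6a3dac_ag
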