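import Pool.Agent.Lib.MP_6a3dac_ag.IndepB
import Pool.Agent.Lib.MP_6a3dac_ag.LocFrac

/-!
# Regularity of the local rings of the blow-up of a split quadric
-/

set_option autoImplicit false

namespace Pool.Agent.Lib.MP_6a3dac_ag

open MvPolynomial IsLocalRing Matrix

theorem isRegularLocalRing_of_split {O : Type} [CommRing O] [IsDomain O]
    [IsDiscreteValuationRing O] {n : ℕ} {π : O} (hπ : Irreducible π)
    {q c h : Matrix (Fin n) (Fin n) O} {W : Finset (Fin n)} (H : SplitForm π q c h W)
    {D L : Type} [CommRing D] [IsLocalRing D] [CommRing L] [Nontrivial L] (Θ : D →+* L)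
    (hΘ : Function.Injective Θ) (δ0 : MvPolynomial (Fin n) O →+* L)
    (δ' : MvPolynomial (Fin n ⊕ Fin 3) O →+* L) (hσ : ∀ p, δ' (sigma W p) = δ0 p)
    (hrange : ∀ p, δ' p ∈ Θ.range) {κ : Fin n ⊕ Fin 3} (hκ : IsGood W κ) (j : Fin n)
    (hE : IsUnit (δ' (X (Sum.inr 0)))) (hδκ : δ' (X κ) = 1) (hj : δ0 (X j) = 1)
    (hbase : ∀ κ', IsGood W κ' → δ' (X (Sum.inr 0) * X κ') = δ0 (baseP π h κ'))
    (hA : δ0 (quadPoly (q + π • (c + h))) = 0)
    (ha : ∀ z : D, ∃ a b, Θ z * δ' b = δ' a ∧ ∀ w, Θ w = δ' b → IsUnit w)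
    (hb : ∀ p, δ0 p = 0 → ∃ τ, δ0 τ ≠ 0 ∧
      τ * p ∈ Ideal.span (Set.range ![quadPoly (q + π • (c + h)), X j - 1])) :
    IsRegularLocalRing D := by
  classical
  obtain ⟨δ, hδ⟩ := exists_lift_of_range_le Θ hΘ δ' hrange
  set e := δ (X (Sum.inr 0)) with he
  have hu0 : δ0 (baseP π h κ) = δ' (X (Sum.inr 0)) := by
    rw [← hbase κ hκ, map_mul, hδκ, mul_one]
  by_cases hunit : IsUnit e
  · -- away from the exceptional divisor
    have hpow : ∀ p : MvPolynomial (Fin n ⊕ Fin 3) O, ∃ (N : ℕ) (t : MvPolynomial (Fin n) O),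
        δ' (X (Sum.inr 0)) ^ N * δ' p = δ0 t := by
      intro p
      obtain ⟨N, t, ht⟩ := exists_sigma (π := π) (h := h) hκ (RingHom.ker δ')
        (fun κ' hκ' => by
          rw [RingHom.mem_ker, map_sub, hσ, hbase κ' hκ', sub_self])
        (by rw [RingHom.mem_ker, map_sub, hδκ, map_one, sub_self]) p
      refine ⟨N, t, ?_⟩
      rw [RingHom.mem_ker, map_sub, hσ, sub_eq_zero, map_mul, map_pow] at ht
      exact ht
    let δ₀ : MvPolynomial (Fin n) O →+* D := δ.comp (sigma (O := O) W : MvPolynomial (Fin n) O →+* _)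
    have hδ₀ : ∀ p, Θ (δ₀ p) = δ0 p := by
      intro p
      rw [← hσ, ← hδ]
      rfl
    have hf : ∀ i : Fin 2, δ₀ ((![quadPoly (q + π • (c + h)), X j - 1] : Fin 2 → _) i) = 0 := by
      intro i
      apply hΘ
      rw [hδ₀, map_zero]
      fin_cases i
      · exact hA
      · change δ0 (X j - 1) = 0
        rw [map_sub, hj, map_one, sub_self]
    refine isRegularLocalRing_of_chart δ₀ ![quadPoly (q + π • (c + h)), X j - 1] hf ?_ ?_ ?_
    · intro s hs a hsa
      set Y := Ideal.comap δ₀ (maximalIdeal D) with hY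
      have hYp : Y.IsPrime := Ideal.IsPrime.comap δ₀
      have hmemY : ∀ i : Fin 2, (![quadPoly (q + π • (c + h)), X j - 1] : Fin 2 → _) i ∈ Y := by
        intro i
        rw [hY, Ideal.mem_comap, hf i]
        exact Ideal.zero_mem _
      have hsY : s ∉ Y := by
        rw [hY, Ideal.mem_comap, IsLocalRing.mem_maximalIdeal, mem_nonunits_iff, not_not]
        exact hs
      rw [Fin.sum_univ_two] at hsa
      have hκY : baseP π h κ ∉ Y := by
        rw [hY, Ideal.mem_comap, IsLocalRing.mem_maximalIdeal, mem_nonunits_iff, not_not]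
        have h1 : δ₀ (baseP π h κ) = e := by
          apply hΘ
          rw [hδ₀, he, hδ, hu0]
        rw [h1]
        exact hunit
      have h2 := indep_A hπ H Y hκ hκY j (hmemY 1) (hmemY 0) hsY hsa
      intro i
      fin_cases i
      · exact h2.1
      · exact h2.2
    · intro z
      obtain ⟨a, b, hab, hbu⟩ := ha z
      obtain ⟨N, t, ht⟩ := hpow a
      obtain ⟨N', t', ht'⟩ := hpow b
      refine ⟨t * baseP π h κ ^ N', t' * baseP π h κ ^ N, ?_, ?_⟩
      · have h1 : δ₀ (t' * baseP π h κ ^ N) = e ^ (N + N') * δ b := by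
          apply hΘ
          rw [hδ₀, map_mul, map_pow, hu0, ← ht', map_mul, map_pow, he, hδ, hδ]
          ring
        rw [h1]
        exact (hunit.pow _).mul (hbu _ (hδ b))
      · apply hΘ
        rw [map_mul, hδ₀, hδ₀, map_mul, map_mul, map_pow, map_pow, hu0, ← ht', ← ht, ← hab]
        ring
    · intro p hp
      have hp0 : δ0 p = 0 := by rw [← hδ₀, hp, map_zero]
      obtain ⟨τ, hτ, hτp⟩ := hb p hp0
      refine ⟨τ, ?_, hτp⟩
      intro h1
      apply hτ
      rw [← hδ₀, h1, map_zero]
  · -- along the exceptional divisor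
    have hjW : j ∈ W := by
      by_contra hjW
      apply hunit
      refine IsUnit.of_mul_eq_one (δ (X (Sum.inl j))) ?_
      apply hΘ
      rw [he, ← map_mul, hδ, ← sigma_X_notMem hjW, hσ, hj, map_one]
    have hf0 : ∀ i : Fin 5, δ' (eqs π q c h κ j i) = 0 := by
      have h0 : δ' (X (Sum.inr 1) * X (Sum.inr 0) - C π) = 0 := by
        have h1 := hbase (Sum.inr 1) trivial
        rw [map_sub, mul_comm, h1, ← hσ]
        change δ' (sigma W (C π)) - _ = 0
        rw [sigma_C, sub_self]
      have h1 : δ' (X (Sum.inr 2) * X (Sum.inr 0) - bigQuad h) = 0 := by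
        have h1 := hbase (Sum.inr 2) trivial
        rw [map_sub, mul_comm, h1, ← hσ]
        change δ' (sigma W (quadPoly h)) - _ = 0
        rw [sigma_quadPoly_h H.h_zero, sub_self]
      have h2 : δ' (bigQuad q + X (Sum.inr 1) * (bigQuad c + X (Sum.inr 2))) = 0 := by
        have h3 : δ' (X (Sum.inr 0) ^ 2 *
            (bigQuad q + X (Sum.inr 1) * (bigQuad c + X (Sum.inr 2)))) = 0 := by
          have h4 : (X (Sum.inr 0) ^ 2 *
            (bigQuad q + X (Sum.inr 1) * (bigQuad c + X (Sum.inr 2))) :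
              MvPolynomial (Fin n ⊕ Fin 3) O) = sigma W (quadPoly (q + π • (c + h))) +
              (X (Sum.inr 0) * bigQuad c + X (Sum.inr 2) * X (Sum.inr 0)) *
                (X (Sum.inr 1) * X (Sum.inr 0) - C π) +
              C π * (X (Sum.inr 2) * X (Sum.inr 0) - bigQuad h) := by
            rw [sigma_quadPoly H.h_zero H.q_zero H.c_zero]
            ring
          rw [h4, map_add, map_add, map_mul δ' _ (X (Sum.inr 1) * X (Sum.inr 0) - C π),
            map_mul δ' _ (X (Sum.inr 2) * X (Sum.inr 0) - bigQuad h), h0, h1, hσ, hA]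
          ring
        rw [map_mul, map_pow] at h3
        exact ((hE.pow 2).mul_right_eq_zero).mp h3
      have h3 : δ' (X κ - 1) = 0 := by rw [map_sub, hδκ, map_one, sub_self]
      have h4 : δ' (X (Sum.inl j) - 1) = 0 := by
        rw [map_sub, ← sigma_X_mem hjW, hσ, hj, map_one, sub_self]
      intro i
      fin_cases i
      · exact h0
      · exact h1
      · exact h2
      · exact h3
      · exact h4
    have hf : ∀ i : Fin 5, δ (eqs π q c h κ j i) = 0 := by
      intro i
      apply hΘ
      rw [hδ, hf0, map_zero]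
    refine isRegularLocalRing_of_chart δ (eqs π q c h κ j) hf ?_ ?_ ?_
    · intro s hs a hsa
      set Y := Ideal.comap δ (maximalIdeal D) with hY
      have hYp : Y.IsPrime := Ideal.IsPrime.comap δ
      have hmemY : ∀ i, eqs π q c h κ j i ∈ Y := by
        intro i
        rw [hY, Ideal.mem_comap, hf i]
        exact Ideal.zero_mem _
      have hsY : s ∉ Y := by
        rw [hY, Ideal.mem_comap, IsLocalRing.mem_maximalIdeal, mem_nonunits_iff, not_not]
        exact hs
      have hEY : X (Sum.inr 0) ∈ Y := by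
        rw [hY, Ideal.mem_comap, IsLocalRing.mem_maximalIdeal, mem_nonunits_iff]
        exact hunit
      exact indep_B hπ H Y hκ hjW hmemY hEY hsY a hsa
    · intro z
      obtain ⟨a, b, hab, hbu⟩ := ha z
      refine ⟨a, b, hbu _ (hδ b), ?_⟩
      apply hΘ
      rw [map_mul, hδ, hδ, hab]
    · intro p hp
      set J := Ideal.span (Set.range (eqs π q c h κ j)) with hJ
      obtain ⟨N, t, ht⟩ := exists_sigma (π := π) (h := h) hκ J
        (fun κ' hκ' => sigma_base H.h_zero hκ' κ j) (Ideal.subset_span ⟨3, rfl⟩) p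
      have hJker : ∀ x ∈ J, δ' x = 0 := by
        intro x hx
        have hle : J ≤ RingHom.ker δ' := by
          rw [hJ, Ideal.span_le]
          rintro _ ⟨i, rfl⟩
          exact hf0 i
        exact hle hx
      have hp' : δ' p = 0 := by rw [← hδ, hp, map_zero]
      have ht0 : δ0 t = 0 := by
        have h1 := hJker _ ht
        rw [map_sub, map_mul, hp', mul_zero, zero_sub, neg_eq_zero, hσ] at h1
        exact h1
      obtain ⟨τ, hτ, hτt⟩ := hb t ht0
      refine ⟨sigma W τ * X (Sum.inr 0) ^ N, ?_, ?_⟩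
      · intro h1
        have h2 : δ' (sigma W τ * X (Sum.inr 0) ^ N) = 0 := by rw [← hδ, h1, map_zero]
        rw [map_mul, map_pow, hσ] at h2
        exact hτ (((hE.pow N).mul_left_eq_zero).mp h2)
      · have h1 : sigma W (τ * t) ∈ J := by
          have hle : Ideal.span (Set.range ![quadPoly (q + π • (c + h)), X j - 1]) ≤
              J.comap (sigma (O := O) W : MvPolynomial (Fin n) O →+* _) := by
            rw [Ideal.span_le]
            rintro _ ⟨i, rfl⟩
            fin_cases i
            · exact sigma_quadPoly_mem H.h_zero H.q_zero H.c_zero κ j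
            · change sigma W (X j - 1) ∈ J
              rw [map_sub, sigma_X_mem hjW, map_one]
              exact Ideal.subset_span ⟨4, rfl⟩
          exact hle hτt
        have h2 : sigma W τ * X (Sum.inr 0) ^ N * p =
            sigma W τ * (X (Sum.inr 0) ^ N * p - sigma W t) + sigma W (τ * t) := by
          rw [map_mul]
          ring
        rw [h2]
        exact J.add_mem (J.mul_mem_left _ ht) h1

end Pool.Agent.Lib.MP_6a3dac_ag
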