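import Pool.Agent.Lib.MP_6a3dac_ag.Mg.G006

/-!
# Quadratic étale-like homomorphisms of local rings
-/

set_option autoImplicit false

namespace Pool.Agent.Lib.MP_6a3dac_ag

open IsLocalRing

universe u v

/-- The ring `D₁` is a localization of the quadratic étale algebra `D[ω]`. -/
structure EtaleLike {D : Type u} {D₁ : Type v} [CommRing D] [CommRing D₁] (φ : D →+* D₁) (ω : D₁)
    (a b : D) : Prop where
  om : ω * ω = φ a + φ b * ω
  disc : IsUnit (b ^ 2 + 4 * a)
  uniq : ∀ d e, φ d + ω * φ e = 0 → d = 0 ∧ e = 0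
  frac : ∀ z, ∃ p q d e, IsUnit (φ p + ω * φ q) ∧ (φ p + ω * φ q) * z = φ d + ω * φ e

variable {D : Type u} {D₁ : Type v} [CommRing D] [CommRing D₁] {φ : D →+* D₁} {ω : D₁} {a b : D}
  (h : EtaleLike φ ω a b)

include h

theorem EtaleLike.mul_eq (p q d e : D) : (φ p + ω * φ q) * (φ d + ω * φ e) =
    φ (p * d + a * (q * e)) + ω * φ (p * e + q * d + b * (q * e)) := by
  simp only [map_add, map_mul]
  linear_combination (φ q * φ e) * h.om

theorem EtaleLike.eq_iff {d e d' e' : D} (he : φ d + ω * φ e = φ d' + ω * φ e') :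
    d = d' ∧ e = e' := by
  obtain ⟨h1, h2⟩ := h.uniq (d - d') (e - e') (by
    rw [map_sub, map_sub]
    linear_combination he)
  exact ⟨sub_eq_zero.mp h1, sub_eq_zero.mp h2⟩

/-- Elements of an extended ideal. -/
theorem EtaleLike.mem_map {J : Ideal D} {z : D₁} (hz : z ∈ J.map φ) :
    ∃ p q d e, IsUnit (φ p + ω * φ q) ∧ d ∈ J ∧ e ∈ J ∧ (φ p + ω * φ q) * z = φ d + ω * φ e := by
  refine Submodule.span_induction (p := fun z _ => ∃ p q d e, IsUnit (φ p + ω * φ q) ∧ d ∈ J ∧
    e ∈ J ∧ (φ p + ω * φ q) * z = φ d + ω * φ e) ?_ ?_ ?_ ?_ hz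
  · rintro _ ⟨x, hx, rfl⟩
    exact ⟨1, 0, x, 0, by simp, hx, J.zero_mem, by simp⟩
  · exact ⟨1, 0, 0, 0, by simp, J.zero_mem, J.zero_mem, by simp⟩
  · rintro x y _ _ ⟨p, q, d, e, hu, hd, he, hx⟩ ⟨p', q', d', e', hu', hd', he', hy⟩
    refine ⟨p * p' + a * (q * q'), p * q' + q * p' + b * (q * q'),
      (p' * d + a * (q' * e)) + (p * d' + a * (q * e')),
      (p' * e + q' * d + b * (q' * e)) + (p * e' + q * d' + b * (q * e')), ?_, ?_, ?_, ?_⟩
    · rw [← h.mul_eq]
      exact hu.mul hu'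
    · exact J.add_mem (J.add_mem (J.mul_mem_left _ hd) (J.mul_mem_left _ (J.mul_mem_left _ he)))
        (J.add_mem (J.mul_mem_left _ hd') (J.mul_mem_left _ (J.mul_mem_left _ he')))
    · exact J.add_mem (J.add_mem (J.add_mem (J.mul_mem_left _ he) (J.mul_mem_left _ hd))
        (J.mul_mem_left _ (J.mul_mem_left _ he)))
        (J.add_mem (J.add_mem (J.mul_mem_left _ he') (J.mul_mem_left _ hd'))
        (J.mul_mem_left _ (J.mul_mem_left _ he')))
    · have h1 := h.mul_eq p' q' d e
      have h2 := h.mul_eq p q d' e'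
      have h3 := h.mul_eq p q p' q'
      rw [← hx] at h1
      rw [← hy] at h2
      rw [← h3, map_add φ (p' * d + a * (q' * e)), map_add φ (p' * e + q' * d + b * (q' * e))]
      linear_combination h1 + h2
  · rintro c x _ ⟨p, q, d, e, hu, hd, he, hx⟩
    obtain ⟨p', q', d', e', hu', hc⟩ := h.frac c
    refine ⟨p * p' + a * (q * q'), p * q' + q * p' + b * (q * q'),
      d' * d + a * (e' * e), d' * e + e' * d + b * (e' * e), ?_, ?_, ?_, ?_⟩
    · rw [← h.mul_eq]
      exact hu.mul hu'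
    · exact J.add_mem (J.mul_mem_left _ hd) (J.mul_mem_left _ (J.mul_mem_left _ he))
    · exact J.add_mem (J.add_mem (J.mul_mem_left _ he) (J.mul_mem_left _ hd))
        (J.mul_mem_left _ (J.mul_mem_left _ he))
    · have h1 := h.mul_eq d' e' d e
      have h3 := h.mul_eq p q p' q'
      rw [← h3, ← h1, ← hx, ← hc, smul_eq_mul]
      ring

omit h in
theorem isUnit_or_of_local [IsLocalRing D] [IsLocalRing D₁] [IsLocalHom φ] {p q : D}
    (hu : IsUnit (φ p + ω * φ q)) : IsUnit p ∨ IsUnit q := by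
  by_contra hcon
  rw [not_or] at hcon
  have h1 : φ p ∈ maximalIdeal D₁ := fun hp => hcon.1 (isUnit_of_map_unit φ p hp)
  have h2 : φ q ∈ maximalIdeal D₁ := fun hp => hcon.2 (isUnit_of_map_unit φ q hp)
  exact (Ideal.add_mem _ h1 (Ideal.mul_mem_left _ ω h2)) hu

theorem EtaleLike.comap_map [IsLocalRing D] [IsLocalRing D₁] [IsLocalHom φ] (J : Ideal D) :
    (J.map φ).comap φ = J := by
  apply le_antisymm _ Ideal.le_comap_map
  intro x hx
  obtain ⟨p, q, d, e, hu, hd, he, hx⟩ := h.mem_map (Ideal.mem_comap.mp hx)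
  have h1 : φ (p * x) + ω * φ (q * x) = φ d + ω * φ e := by
    rw [← hx, map_mul, map_mul]; ring
  obtain ⟨h2, h3⟩ := h.eq_iff h1
  rcases isUnit_or_of_local hu with hp | hq
  · rw [← h2] at hd
    exact (Ideal.unit_mul_mem_iff_mem J hp).mp hd
  · rw [← h3] at he
    exact (Ideal.unit_mul_mem_iff_mem J hq).mp he

theorem EtaleLike.map_maximalIdeal [IsLocalRing D] [IsLocalRing D₁] [IsLocalHom φ] :
    (maximalIdeal D).map φ = maximalIdeal D₁ := by
  apply le_antisymm
  · exact ((local_hom_TFAE φ).out 0 2 rfl rfl).mp ‹IsLocalHom φ›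
  · intro z hz
    obtain ⟨p, q, d, e, hu, hze⟩ := h.frac z
    rw [← Ideal.unit_mul_mem_iff_mem _ hu, hze]
    have hmem : φ d + ω * φ e ∈ maximalIdeal D₁ := by
      rw [← hze]
      exact Ideal.mul_mem_left _ _ hz
    by_cases he : IsUnit e
    · obtain ⟨e, rfl⟩ := he
      -- scale to `ω - r`
      obtain ⟨r, hr⟩ : ∃ r, φ d + ω * φ (e : D) = φ (e : D) * (ω - φ r) := by
        refine ⟨-(d * ((e⁻¹ : Dˣ) : D)), ?_⟩
        have h1 : φ (e : D) * φ (((e⁻¹ : Dˣ) : D)) = 1 := by rw [← map_mul, Units.mul_inv, map_one]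
        rw [map_neg, map_mul]
        linear_combination (-φ d) * h1
      rw [hr] at hmem ⊢
      have heu : IsUnit (φ (e : D)) := e.isUnit.map φ
      rw [Ideal.unit_mul_mem_iff_mem _ heu] at hmem ⊢
      -- the conjugate is a unit
      have hc : IsUnit (φ b - ω - φ r) := by
        by_contra hcon
        have h1 : φ (b ^ 2 + 4 * a) = ((ω - φ r) - (φ b - ω - φ r)) * ((ω - φ r) - (φ b - ω - φ r)) := by
          simp only [map_add, map_pow, map_mul, map_ofNat]
          linear_combination (-4) * h.om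
        have h2 : φ (b ^ 2 + 4 * a) ∈ maximalIdeal D₁ := by
          rw [h1]
          exact Ideal.mul_mem_left _ _ (Ideal.sub_mem _ hmem hcon)
        exact h2 (h.disc.map φ)
      have h4 : (φ b - ω - φ r) * (ω - φ r) = φ (r * r - b * r - a) := by
        simp only [map_sub, map_mul]
        linear_combination (-1) * h.om
      rw [← Ideal.unit_mul_mem_iff_mem _ hc, h4]
      refine Ideal.mem_map_of_mem φ fun hunit => ?_
      have h5 := hunit.map φ
      rw [← h4] at h5
      exact (Ideal.mul_mem_left _ _ hmem) h5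
    · have h1 : φ e ∈ (maximalIdeal D).map φ := Ideal.mem_map_of_mem φ he
      have h2 : d ∈ maximalIdeal D := by
        intro hd
        have h3 : φ e ∈ maximalIdeal D₁ := fun h' => he (isUnit_of_map_unit φ e h')
        have h4 : φ d ∈ maximalIdeal D₁ := by
          have h5 := Ideal.sub_mem _ hmem (Ideal.mul_mem_left _ ω h3)
          rwa [add_sub_cancel_right] at h5
        exact h4 (hd.map φ)
      exact Ideal.add_mem _ (Ideal.mem_map_of_mem φ h2) (Ideal.mul_mem_left _ _ h1)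

theorem EtaleLike.isRegularLocalRing [IsLocalRing D] [IsLocalRing D₁] [IsLocalHom φ]
    (hreg : IsRegularLocalRing D₁) : IsRegularLocalRing D :=
  isRegularLocalRing_of_comap_map φ h.comap_map h.map_maximalIdeal hreg

end Pool.Agent.Lib.MP_6a3dac_ag
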