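import Pool.Agent.Lib.MP_6a3dac_ag.DescAbs

/-!
# Fractions over a quadratic étale-like extension
-/

set_option autoImplicit false

namespace Pool.Agent.Lib.MP_6a3dac_ag

open IsLocalRing

section

variable {O O₁ A A₁ : Type} [CommRing O] [CommRing O₁] [CommRing A] [CommRing A₁] [Algebra O A]
  [Algebra O₁ A₁] {κ : O →+* O₁} {ω : O₁} {a b : O} {j : A →+* A₁}

variable (κ ω j) in
/-- The element `z` is a fraction `(j x + ω j y) / (p + ω q)` with `x`, `y` in `N`. -/
def Fr (N : Submodule O A) (z : A₁) : Prop :=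
  ∃ (p q : O) (x y : A), IsUnit (κ p + ω * κ q) ∧ x ∈ N ∧ y ∈ N ∧
    (κ p + ω * κ q) • z = j x + ω • j y

theorem Fr.of_mem {N : Submodule O A} {x : A} (hx : x ∈ N) : Fr κ ω j N (j x) :=
  ⟨1, 0, x, 0, by simp, hx, N.zero_mem, by simp⟩

theorem Fr.zero {N : Submodule O A} : Fr κ ω j N (0 : A₁) :=
  ⟨1, 0, 0, 0, by simp, N.zero_mem, N.zero_mem, by simp⟩

theorem Fr.mono {N N' : Submodule O A} (h : N ≤ N') {z : A₁} (hz : Fr κ ω j N z) :
    Fr κ ω j N' z := by
  obtain ⟨p, q, x, y, hu, hx, hy, hz⟩ := hz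
  exact ⟨p, q, x, y, hu, h hx, h hy, hz⟩

variable (hκ : EtaleLike κ ω a b) (hj : ∀ o, j (algebraMap O A o) = algebraMap O₁ A₁ (κ o))

include hj in
theorem j_smul (o : O) (x : A) : j (o • x) = κ o • j x := by
  rw [Algebra.smul_def, map_mul, hj, ← Algebra.smul_def]

include hκ hj

theorem j_mul_eq (x y x' y' : A) : (j x + ω • j y) * (j x' + ω • j y') =
    j (x * x' + a • (y * y')) + ω • j (x * y' + y * x' + b • (y * y')) := by
  have h1 : (algebraMap O₁ A₁ ω) * (algebraMap O₁ A₁ ω) = algebraMap O₁ A₁ (κ a) +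
      algebraMap O₁ A₁ (κ b) * algebraMap O₁ A₁ ω := by
    rw [← map_mul, hκ.om, map_add, map_mul]
  simp only [map_add, map_mul, hj, Algebra.smul_def]
  linear_combination (j y * j y') * h1

theorem j_smul_eq (p q : O) (x y : A) : (κ p + ω * κ q) • (j x + ω • j y) =
    j (p • x + a • (q • y)) + ω • j (p • y + q • x + b • (q • y)) := by
  have h1 := j_mul_eq hκ hj (algebraMap O A p) (algebraMap O A q) x y
  have h2 : j (algebraMap O A p) + ω • j (algebraMap O A q) =
      algebraMap O₁ A₁ (κ p + ω * κ q) := by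
    rw [hj, hj, map_add, map_mul, Algebra.smul_def]
  rw [h2, ← Algebra.smul_def] at h1
  rw [h1]
  simp only [Algebra.smul_def]

theorem Fr.smul {N : Submodule O A} {z : A₁} (hz : Fr κ ω j N z) (c : O₁) :
    Fr κ ω j N (c • z) := by
  obtain ⟨p, q, x, y, hu, hx, hy, hz⟩ := hz
  obtain ⟨p', q', d, e, hu', hc⟩ := hκ.frac c
  refine ⟨p * p' + a * (q * q'), p * q' + q * p' + b * (q * q'), d • x + a • (e • y),
    d • y + e • x + b • (e • y), ?_, ?_, ?_, ?_⟩
  · rw [← hκ.mul_eq]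
    exact hu.mul hu'
  · exact N.add_mem (N.smul_mem _ hx) (N.smul_mem _ (N.smul_mem _ hy))
  · exact N.add_mem (N.add_mem (N.smul_mem _ hy) (N.smul_mem _ hx))
      (N.smul_mem _ (N.smul_mem _ hy))
  · have h1 := j_mul_eq hκ hj (algebraMap O A d) (algebraMap O A e) x y
    have h2 : j (algebraMap O A d) + ω • j (algebraMap O A e) =
        algebraMap O₁ A₁ (κ d + ω * κ e) := by
      rw [hj, hj, map_add, map_mul, Algebra.smul_def]
    rw [h2, ← hc, ← hz] at h1
    rw [← hκ.mul_eq]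
    simp only [Algebra.smul_def, map_mul, map_add] at h1 ⊢
    linear_combination h1

theorem Fr.add {N : Submodule O A} {z z' : A₁} (hz : Fr κ ω j N z) (hz' : Fr κ ω j N z') :
    Fr κ ω j N (z + z') := by
  obtain ⟨p, q, x, y, hu, hx, hy, hz⟩ := hz
  obtain ⟨p', q', x', y', hu', hx', hy', hz'⟩ := hz'
  refine ⟨p * p' + a * (q * q'), p * q' + q * p' + b * (q * q'),
    (p' • x + a • (q' • y)) + (p • x' + a • (q • y')),
    (p' • y + q' • x + b • (q' • y)) + (p • y' + q • x' + b • (q • y')), ?_, ?_, ?_, ?_⟩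
  · rw [← hκ.mul_eq]
    exact hu.mul hu'
  · exact N.add_mem (N.add_mem (N.smul_mem _ hx) (N.smul_mem _ (N.smul_mem _ hy)))
      (N.add_mem (N.smul_mem _ hx') (N.smul_mem _ (N.smul_mem _ hy')))
  · exact N.add_mem (N.add_mem (N.add_mem (N.smul_mem _ hy) (N.smul_mem _ hx))
      (N.smul_mem _ (N.smul_mem _ hy))) (N.add_mem (N.add_mem (N.smul_mem _ hy')
      (N.smul_mem _ hx')) (N.smul_mem _ (N.smul_mem _ hy')))
  · have h1 := j_mul_eq hκ hj (algebraMap O A p') (algebraMap O A q') x y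
    have h2 := j_mul_eq hκ hj (algebraMap O A p) (algebraMap O A q) x' y'
    have e1 : j (algebraMap O A p') + ω • j (algebraMap O A q') =
        algebraMap O₁ A₁ (κ p' + ω * κ q') := by
      rw [hj, hj, map_add, map_mul, Algebra.smul_def]
    have e2 : j (algebraMap O A p) + ω • j (algebraMap O A q) =
        algebraMap O₁ A₁ (κ p + ω * κ q) := by
      rw [hj, hj, map_add, map_mul, Algebra.smul_def]
    rw [e1, ← hz] at h1
    rw [e2, ← hz'] at h2
    rw [← hκ.mul_eq]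
    simp only [Algebra.smul_def, map_mul, map_add] at h1 h2 ⊢
    linear_combination h1 + h2

theorem Fr.mul {N N' N'' : Submodule O A} (hN : ∀ x ∈ N, ∀ y ∈ N', x * y ∈ N'') {z z' : A₁}
    (hz : Fr κ ω j N z) (hz' : Fr κ ω j N' z') : Fr κ ω j N'' (z * z') := by
  obtain ⟨p, q, x, y, hu, hx, hy, hz⟩ := hz
  obtain ⟨p', q', x', y', hu', hx', hy', hz'⟩ := hz'
  refine ⟨p * p' + a * (q * q'), p * q' + q * p' + b * (q * q'),
    x * x' + a • (y * y'), x * y' + y * x' + b • (y * y'), ?_, ?_, ?_, ?_⟩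
  · rw [← hκ.mul_eq]
    exact hu.mul hu'
  · exact N''.add_mem (hN _ hx _ hx') (N''.smul_mem _ (hN _ hy _ hy'))
  · exact N''.add_mem (N''.add_mem (hN _ hx _ hy') (hN _ hy _ hx'))
      (N''.smul_mem _ (hN _ hy _ hy'))
  · rw [← hκ.mul_eq, ← j_mul_eq hκ hj, ← hz, ← hz', smul_mul_smul_comm]

theorem Fr.sum {N : Submodule O A} {ι : Type} (s : Finset ι) (f : ι → A₁)
    (hf : ∀ i ∈ s, Fr κ ω j N (f i)) : Fr κ ω j N (∑ i ∈ s, f i) := by
  classical
  induction s using Finset.induction_on with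
  | empty => simpa using Fr.zero
  | insert i s hi ih =>
    rw [Finset.sum_insert hi]
    exact Fr.add hκ hj (hf i (Finset.mem_insert_self i s))
      (ih fun k hk => hf k (Finset.mem_insert_of_mem hk))

omit hκ hj in
theorem fr_algebraMap (hκ : EtaleLike κ ω a b)
    (hj : ∀ o, j (algebraMap O A o) = algebraMap O₁ A₁ (κ o)) {N : Submodule O A}
    (h1 : (1 : A) ∈ N) (c : O₁) : Fr κ ω j N (algebraMap O₁ A₁ c) := by
  have h2 : Fr κ ω j N (j 1) := Fr.of_mem h1
  have h3 := h2.smul hκ hj c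
  rwa [map_one, ← Algebra.algebraMap_eq_smul_one] at h3

end

end Pool.Agent.Lib.MP_6a3dac_ag
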