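import Pool.Agent.Lib.MP_6a3dac_ag.Mg.G006

/-!
# The even part of an algebra generated by homogeneous elements
-/

set_option autoImplicit false

namespace Pool.Agent.Lib.MP_6a3dac_ag

variable {R K A : Type} [CommRing R] [CommRing K] [CommRing A] [Algebra R K] [Algebra K A]
  [Algebra R A] [IsScalarTower R K A] (𝒜 : ℕ → Submodule K A) [GradedAlgebra 𝒜]

/-- The generators of even degree and the products of two generators of odd degree. -/
def evenGens (F : Set A) : Set A :=
  {x | x ∈ F ∧ ∃ k, x ∈ 𝒜 (2 * k)} ∪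
    {x | ∃ s t, (s ∈ F ∧ ∃ k, s ∈ 𝒜 (2 * k + 1)) ∧ (t ∈ F ∧ ∃ k, t ∈ 𝒜 (2 * k + 1)) ∧ x = s * t}

omit [GradedAlgebra 𝒜] in
theorem finite_evenGens {F : Set A} (hF : F.Finite) : (evenGens 𝒜 F).Finite := by
  refine (hF.subset fun x hx => hx.1).union
    ((hF.prod hF |>.image fun x : A × A => x.1 * x.2).subset ?_)
  rintro x ⟨s, t, ⟨hs, _⟩, ⟨ht, _⟩, rfl⟩
  exact ⟨(s, t), ⟨hs, ht⟩, rfl⟩

theorem evenGens_homog {F : Set A} {x : A} (hx : x ∈ evenGens 𝒜 F) : ∃ k, x ∈ 𝒜 (2 * k) := by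
  rcases hx with ⟨_, h⟩ | ⟨s, t, ⟨_, k, hs⟩, ⟨_, l, ht⟩, rfl⟩
  · exact h
  · refine ⟨k + l + 1, ?_⟩
    have h1 := SetLike.mul_mem_graded hs ht
    rwa [show 2 * k + 1 + (2 * l + 1) = 2 * (k + l + 1) by ring] at h1

omit [GradedAlgebra 𝒜] [Algebra R K] [IsScalarTower R K A] in
theorem evenGens_subset {F : Set A} {T : Subalgebra R A} (hF : F ⊆ T) : evenGens 𝒜 F ⊆ T := by
  rintro x (⟨h, _⟩ | ⟨s, t, ⟨hs, _⟩, ⟨ht, _⟩, rfl⟩)
  · exact hF h
  · exact T.mul_mem (hF hs) (hF ht)

section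

variable {𝒜} {F : Set A}

omit [GradedAlgebra 𝒜] [IsScalarTower R K A] [Algebra R K] in
theorem odd_mul_odd (P : Subalgebra R A) (hP : evenGens 𝒜 F ⊆ P)
    {x y : A} (hx : x ∈ Submodule.span P {t | t ∈ F ∧ ∃ k, t ∈ 𝒜 (2 * k + 1)})
    (hy : y ∈ Submodule.span P {t | t ∈ F ∧ ∃ k, t ∈ 𝒜 (2 * k + 1)}) : x * y ∈ P := by
  refine Submodule.span_induction (p := fun x _ => x * y ∈ P) ?_ ?_ ?_ ?_ hx
  · intro s hs
    refine Submodule.span_induction (p := fun y _ => s * y ∈ P) ?_ ?_ ?_ ?_ hy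
    · intro t ht
      exact hP (Or.inr ⟨s, t, hs, ht, rfl⟩)
    · rw [mul_zero]
      exact P.zero_mem
    · intro y z _ _ h1 h2
      rw [mul_add]
      exact P.add_mem h1 h2
    · intro p y _ h1
      change s * ((p : A) * y) ∈ P
      rw [mul_left_comm]
      exact P.mul_mem p.2 h1
  · rw [zero_mul]
    exact P.zero_mem
  · intro x z _ _ h1 h2
    rw [add_mul]
    exact P.add_mem h1 h2
  · intro p x _ h1
    change ((p : A) * x) * y ∈ P
    rw [mul_assoc]
    exact P.mul_mem p.2 h1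

theorem even_adjoin_aux (hF : ∀ x ∈ F, ∃ i, x ∈ 𝒜 i) {x : A} (hx : x ∈ Algebra.adjoin R F) :
    (∀ i, Even i → (DirectSum.decompose 𝒜 x i : A) ∈ Algebra.adjoin R (evenGens 𝒜 F)) ∧
    ∀ i, Odd i → (DirectSum.decompose 𝒜 x i : A) ∈
      Submodule.span (Algebra.adjoin R (evenGens 𝒜 F))
        {t | t ∈ F ∧ ∃ k, t ∈ 𝒜 (2 * k + 1)} := by
  classical
  set P := Algebra.adjoin R (evenGens 𝒜 F) with hP
  set M := Submodule.span P {t | t ∈ F ∧ ∃ k, t ∈ 𝒜 (2 * k + 1)} with hM
  induction hx using Algebra.adjoin_induction with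
  | mem x hx =>
    obtain ⟨l, hl⟩ := hF x hx
    constructor
    · intro i hi
      by_cases hil : l = i
      · subst hil
        obtain ⟨k, rfl⟩ := hi.two_dvd
        rw [DirectSum.decompose_of_mem_same 𝒜 hl]
        exact Algebra.subset_adjoin (Or.inl ⟨hx, k, hl⟩)
      · rw [DirectSum.decompose_of_mem_ne 𝒜 hl hil]
        exact P.zero_mem
    · intro i hi
      by_cases hil : l = i
      · subst hil
        obtain ⟨k, rfl⟩ := hi
        rw [DirectSum.decompose_of_mem_same 𝒜 hl]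
        exact Submodule.subset_span ⟨hx, k, hl⟩
      · rw [DirectSum.decompose_of_mem_ne 𝒜 hl hil]
        exact M.zero_mem
  | algebraMap r =>
    have h0 : algebraMap R A r ∈ 𝒜 0 := by
      rw [IsScalarTower.algebraMap_apply R K A]
      exact SetLike.algebraMap_mem_graded 𝒜 _
    constructor
    · intro i hi
      by_cases h : 0 = i
      · subst h
        rw [DirectSum.decompose_of_mem_same 𝒜 h0]
        exact Subalgebra.algebraMap_mem _ _
      · rw [DirectSum.decompose_of_mem_ne 𝒜 h0 h]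
        exact Subalgebra.zero_mem _
    · intro i hi
      have h : 0 ≠ i := by
        rintro rfl
        exact absurd hi (by decide)
      rw [DirectSum.decompose_of_mem_ne 𝒜 h0 h]
      exact M.zero_mem
  | add x y _ _ hx hy =>
    constructor
    · intro i hi
      rw [DirectSum.decompose_add, DirectSum.add_apply, Submodule.coe_add]
      exact P.add_mem (hx.1 i hi) (hy.1 i hi)
    · intro i hi
      rw [DirectSum.decompose_add, DirectSum.add_apply, Submodule.coe_add]
      exact M.add_mem (hx.2 i hi) (hy.2 i hi)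
  | mul x y _ _ hx hy =>
    have hsum : ∀ i, (DirectSum.decompose 𝒜 (x * y) i : A) =
        ∑ j ∈ (DirectSum.decompose 𝒜 x).support,
          (DirectSum.decompose 𝒜 ((DirectSum.decompose 𝒜 x j : A) * y) i : A) := by
      intro i
      conv_lhs => rw [← DirectSum.sum_support_decompose 𝒜 x]
      rw [Finset.sum_mul, DirectSum.decompose_sum, DFinsupp.finsetSum_apply,
        AddSubmonoidClass.coe_finsetSum]
    constructor
    · intro i hi
      rw [hsum]
      refine P.sum_mem fun j _ => ?_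
      rw [DirectSum.coe_decompose_mul_of_left_mem 𝒜 _ (DirectSum.decompose 𝒜 x j).2]
      split_ifs with hij
      · rcases Nat.even_or_odd j with hj | hj
        · exact P.mul_mem (hx.1 j hj) (hy.1 _ ((Nat.even_sub hij).mpr (iff_of_true hi hj)))
        · exact odd_mul_odd P Algebra.subset_adjoin (hx.2 j hj)
            (hy.2 _ (Nat.Even.sub_odd hij hi hj))
      · exact P.zero_mem
    · intro i hi
      rw [hsum]
      refine M.sum_mem fun j _ => ?_
      rw [DirectSum.coe_decompose_mul_of_left_mem 𝒜 _ (DirectSum.decompose 𝒜 x j).2]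
      split_ifs with hij
      · rcases Nat.even_or_odd j with hj | hj
        · exact M.smul_mem ⟨_, hx.1 j hj⟩ (hy.2 _ (Nat.Odd.sub_even hij hi hj))
        · rw [mul_comm]
          exact M.smul_mem ⟨_, hy.1 _ (Nat.Odd.sub_odd hi hj)⟩ (hx.2 j hj)
      · exact M.zero_mem

/-- The even components of elements of an algebra generated by homogeneous elements. -/
theorem even_adjoin (hF : ∀ x ∈ F, ∃ i, x ∈ 𝒜 i) {x : A} (hx : x ∈ Algebra.adjoin R F) {k : ℕ}
    (hk : x ∈ 𝒜 (2 * k)) : x ∈ Algebra.adjoin R (evenGens 𝒜 F) := by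
  have h1 := (even_adjoin_aux hF hx).1 (2 * k) (even_two_mul k)
  rwa [DirectSum.decompose_of_mem_same 𝒜 hk] at h1

end

end Pool.Agent.Lib.MP_6a3dac_ag
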