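import Pool.Agent.Lib.MP_6a3dac_ag.DescMain
import Pool.Agent.Lib.MP_6a3dac_ag.EvenAdjoin

/-!
# Local orders from quadratic étale-like extensions
-/

set_option autoImplicit false
set_option linter.unusedSectionVars false

namespace Pool.Agent.Lib.MP_6a3dac_ag

open IsLocalRing

section Good

variable {R O O₁ K A K₁ A₁ : Type} [CommRing R] [IsDomain R] [CommRing O] [IsDomain O]
  [IsLocalRing O] [CommRing O₁]
  [IsLocalRing O₁] {κ : O →+* O₁} [IsLocalHom κ] {ω : O₁} {a b : O} (hκ : EtaleLike κ ω a b)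
  [Algebra R O] (p : Ideal R) [p.IsPrime] [IsLocalization.AtPrime O p]
  [CommRing K] [CommRing A] [Algebra R K] [Algebra K A] [Algebra R A] [IsScalarTower R K A]
  [Algebra O K] [Algebra O A] [IsScalarTower O K A] [IsScalarTower R O A]
  (𝒜 : ℕ → Submodule K A) [GradedAlgebra 𝒜]
  [CommRing K₁] [CommRing A₁] [IsDomain A₁] [Algebra O₁ K₁] [Algebra K₁ A₁]
  [Algebra O₁ A₁] [IsScalarTower O₁ K₁ A₁]
  (𝒜₁ : ℕ → Submodule K₁ A₁) [GradedAlgebra 𝒜₁]
  {j : A →+* A₁} (hj : ∀ o, j (algebraMap O A o) = algebraMap O₁ A₁ (κ o))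
  (hgr : ∀ k, ∀ x ∈ 𝒜 k, j x ∈ 𝒜₁ (2 * k))
  (huniq : ∀ x y, j x + ω • j y = 0 → x = 0 ∧ y = 0)
  {F : Set A} {F₁ : Set A₁}

theorem algebraMap_mem_locSub (S : Subalgebra R A) (o : O) : algebraMap O A o ∈ locSub p S := by
  obtain ⟨r, s, hs⟩ := IsLocalization.exists_mk'_eq p.primeCompl o
  refine ⟨s, s.2, ?_⟩
  have h1 : (s : R) • algebraMap O A o = algebraMap R A r := by
    rw [Algebra.smul_def, IsScalarTower.algebraMap_apply R O A, IsScalarTower.algebraMap_apply R O A,
      ← map_mul, ← hs, IsLocalization.mk'_spec']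
  rw [h1]
  exact S.algebraMap_mem r

theorem adjoin_le_locSub : ∀ x ∈ Algebra.adjoin O F, x ∈ locSub p (Algebra.adjoin R F) := by
  intro x hx
  induction hx using Algebra.adjoin_induction with
  | mem x hx => exact le_locSub _ _ (Algebra.subset_adjoin hx)
  | algebraMap o => exact algebraMap_mem_locSub p _ o
  | add x y _ _ hx hy => exact Subalgebra.add_mem _ hx hy
  | mul x y _ _ hx hy => exact Subalgebra.mul_mem _ hx hy

theorem locSub_le_adjoin (x : A) (hx : x ∈ locSub p (Algebra.adjoin R F)) :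
    x ∈ Algebra.adjoin O F := by
  obtain ⟨r, hr, hx⟩ := hx
  have h1 : ∀ z ∈ Algebra.adjoin R F, z ∈ Algebra.adjoin O F := by
    intro z hz
    induction hz using Algebra.adjoin_induction with
    | mem x hx => exact Algebra.subset_adjoin hx
    | algebraMap r =>
      rw [IsScalarTower.algebraMap_apply R O A]
      exact Subalgebra.algebraMap_mem _ _
    | add x y _ _ hx hy => exact Subalgebra.add_mem _ hx hy
    | mul x y _ _ hx hy => exact Subalgebra.mul_mem _ hx hy
  obtain ⟨u, hu⟩ := IsLocalization.map_units O (⟨r, hr⟩ : p.primeCompl)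
  have h2 : x = ((u⁻¹ : Oˣ) : O) • (r • x) := by
    have h3 : r • x = (u : O) • x := by
      rw [hu, Algebra.smul_def, Algebra.smul_def, IsScalarTower.algebraMap_apply R O A]
    rw [h3, smul_smul, Units.inv_mul, one_smul]
  rw [h2]
  exact Subalgebra.smul_mem _ (h1 _ hx) _

include hκ hj hgr huniq in
/-- **Local orders by descent.** -/
theorem good_of_desc (hF₁ : ∀ x ∈ F₁, ∃ i, x ∈ 𝒜₁ i)
    (hFF₁ : ∀ x ∈ F, j x ∈ Algebra.adjoin O₁ F₁)
    (hfr : ∀ x ∈ evenGens 𝒜₁ F₁, Fr κ ω j (Subalgebra.toSubmodule (Algebra.adjoin O F)) x)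
    (hfull : ∀ (k : ℕ), ∀ x ∈ 𝒜 k, ∃ o : O, o ≠ 0 ∧ κ o • j x ∈ Algebra.adjoin O₁ F₁)
    (hreg : RegAt 𝒜₁ (Algebra.adjoin O₁ F₁)) :
    (∀ x, ∃ r : R, r ≠ 0 ∧ r • x ∈ Algebra.adjoin R F) ∧
      RegAt 𝒜 (locSub p (Algebra.adjoin R F)) := by
  classical
  set S := locSub p (Algebra.adjoin R F) with hSdef
  set T := Algebra.adjoin O₁ F₁ with hTdef
  have hOS : ∀ o : O, algebraMap O A o ∈ S := algebraMap_mem_locSub p _
  have hT : IsHomog 𝒜₁ T := isHomog_adjoin 𝒜₁ hF₁
  have hST : ∀ x ∈ S, j x ∈ T := by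
    intro x hx
    have h1 := locSub_le_adjoin (O := O) p x hx
    clear hx
    induction h1 using Algebra.adjoin_induction with
    | mem x hx => exact hFF₁ x hx
    | algebraMap o =>
      rw [hj]
      exact T.algebraMap_mem _
    | add x y _ _ hx hy =>
      rw [map_add]
      exact T.add_mem hx hy
    | mul x y _ _ hx hy =>
      rw [map_mul]
      exact T.mul_mem hx hy
  have hle : Subalgebra.toSubmodule (Algebra.adjoin O F) ≤ subO hOS :=
    fun x hx => adjoin_le_locSub p x hx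
  have hfr' : ∀ k, ∀ z ∈ T, z ∈ 𝒜₁ (2 * k) → Fr κ ω j (subO hOS) z := by
    intro k z hz hzk
    have h1 := even_adjoin hF₁ hz hzk
    clear hzk hz
    induction h1 using Algebra.adjoin_induction with
    | mem x hx => exact (hfr x hx).mono hle
    | algebraMap o => exact fr_algebraMap hκ hj S.one_mem o
    | add x y _ _ hx hy => exact hx.add hκ hj hy
    | mul x y _ _ hx hy => exact Fr.mul hκ hj (fun x hx y hy => S.mul_mem hx hy) hx hy
  refine ⟨?_, regAt_desc hκ 𝒜 𝒜₁ hj hgr huniq hOS hST hfr' hT hreg⟩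
  -- homogeneous elements
  have key : ∀ (k : ℕ) (x : A), x ∈ 𝒜 k → ∃ r : R, r ≠ 0 ∧ r • x ∈ Algebra.adjoin R F := by
    intro k x hx
    obtain ⟨o, ho, hox⟩ := hfull k x hx
    have h1 : κ o • j x ∈ 𝒜₁ (2 * k) := by
      rw [← IsScalarTower.algebraMap_smul K₁ (κ o)]
      exact Submodule.smul_mem _ _ (hgr k x hx)
    obtain ⟨s, t, v, w, hu, hv, hw, he⟩ := hfr' k _ hox h1
    have h2 : j ((s * o) • x - v) + ω • j ((t * o) • x - w) = 0 := by
      rw [map_sub, map_sub, j_smul hj, j_smul hj]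
      rw [smul_smul, add_mul, add_smul] at he
      rw [smul_sub, map_mul, map_mul, smul_smul, ← mul_assoc]
      linear_combination he
    obtain ⟨h3, h4⟩ := huniq _ _ h2
    have h5 : o • x ∈ S := by
      have key2 : ∀ {c : O}, IsUnit c → (c * o) • x ∈ S → o • x ∈ S := by
        intro c hc h6
        obtain ⟨c, rfl⟩ := hc
        have h7 : o • x = algebraMap O A ((c⁻¹ : Oˣ) : O) * (((c : O) * o) • x) := by
          rw [← Algebra.smul_def, smul_smul, ← mul_assoc, Units.inv_mul, one_mul]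
        rw [h7]
        exact S.mul_mem (hOS _) h6
      rcases isUnit_or_of_local hu with hs | ht
      · exact key2 hs (by rw [sub_eq_zero.mp h3]; exact hv)
      · exact key2 ht (by rw [sub_eq_zero.mp h4]; exact hw)
    obtain ⟨c, d, hcd⟩ := IsLocalization.exists_mk'_eq p.primeCompl o
    have hc : c ≠ 0 := by
      rintro rfl
      rw [IsLocalization.mk'_zero] at hcd
      exact ho hcd.symm
    have h6 : c • x ∈ S := by
      have h7 : c • x = algebraMap O A (algebraMap R O d) * (o • x) := by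
        rw [← Algebra.smul_def, smul_smul, ← hcd, IsLocalization.mk'_spec', Algebra.smul_def,
          Algebra.smul_def, IsScalarTower.algebraMap_apply R O A]
      rw [h7]
      exact S.mul_mem (hOS _) h5
    obtain ⟨r, hr, hrc⟩ := h6
    refine ⟨r * c, mul_ne_zero ?_ hc, by rwa [mul_smul]⟩
    rintro rfl
    exact hr p.zero_mem
  intro x
  have h1 : ∀ s : Finset ℕ, ∃ r : R, r ≠ 0 ∧
      r • (∑ i ∈ s, (DirectSum.decompose 𝒜 x i : A)) ∈ Algebra.adjoin R F := by
    intro s
    induction s using Finset.induction_on with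
    | empty => exact ⟨1, one_ne_zero, by simp⟩
    | insert i s hi ih =>
      obtain ⟨r, hr, h2⟩ := ih
      obtain ⟨r', hr', h3⟩ := key i _ (DirectSum.decompose 𝒜 x i).2
      refine ⟨r' * r, mul_ne_zero hr' hr, ?_⟩
      rw [Finset.sum_insert hi, smul_add, mul_smul, mul_smul]
      refine Subalgebra.add_mem _ ?_ (Subalgebra.smul_mem _ h2 _)
      rw [smul_comm]
      exact Subalgebra.smul_mem _ h3 _
  have h2 := h1 (DirectSum.decompose 𝒜 x).support
  rwa [DirectSum.sum_support_decompose] at h2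

end Good

end Pool.Agent.Lib.MP_6a3dac_ag
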