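import Pool.Agent.Lib.MP_6a3dac_ag.SplitMaps

/-!
# Regularity of the blow-up of a split quadric
-/

set_option autoImplicit false

namespace Pool.Agent.Lib.MP_6a3dac_ag

open MvPolynomial IsLocalRing Matrix HomogeneousLocalization

section Range

variable {R K A : Type} [CommRing R] [CommRing K] [CommRing A] [Algebra R K] [Algebra K A]
  [Algebra R A] [IsScalarTower R K A]
  (𝒜 : ℕ → Submodule K A) [GradedAlgebra 𝒜] {T : Subalgebra R A} (hT : IsHomog 𝒜 T)
  (y : Ideal T) [hy : y.IsPrime]

omit [GradedAlgebra 𝒜] in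
theorem isUnit_algebraMap_bigLoc {t : T} (ht : t ∉ y) : IsUnit (algebraMap A (BigLoc y) t) :=
  IsLocalization.map_units (BigLoc y) (⟨t, t, ht, rfl⟩ : denoms y)

theorem mem_range_bigMap {x : BigLoc y} (k : ℕ) (a b : T) (ha : (a : A) ∈ 𝒜 k)
    (hb : (b : A) ∈ 𝒜 k) (hby : b ∉ y)
    (hx : x * algebraMap A (BigLoc y) b = algebraMap A (BigLoc y) a) :
    letI := subGradedAlgebra 𝒜 hT
    x ∈ (bigMap 𝒜 hT y).range := by
  let := subGradedAlgebra 𝒜 hT
  refine ⟨HomogeneousLocalization.mk ⟨k, ⟨a, ha⟩, ⟨b, hb⟩, hby⟩, ?_⟩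
  apply (isUnit_algebraMap_bigLoc y hby).mul_right_cancel
  rw [bigMap_mk, hx]

end Range

variable {R O K A : Type} [CommRing R] [CommRing O] [IsDomain O] [IsDiscreteValuationRing O]
  [CommRing K] [CommRing A] [Algebra R K]
  [Algebra K A] [Algebra R A] [IsScalarTower R K A] [Algebra R O] (𝒜 : ℕ → Submodule K A)
  [GradedAlgebra 𝒜]
  (p : Ideal R) [p.IsPrime] {n : ℕ} (ψ : MvPolynomial (Fin n) O →+* A)
  (hC : ∀ r, ψ (C r) ∈ 𝒜 0) (hX : ∀ i, ψ (X i) ∈ 𝒜 1)
  {π : O} {q c h : Matrix (Fin n) (Fin n) O} {W : Finset (Fin n)} [IsLocalization.AtPrime O p]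
  (hψR : ∀ r, ψ (C (algebraMap R O r)) = algebraMap R A r)

include hC hX hψR in
theorem regAt_splitOrder (hπ : Irreducible π) (H : SplitForm π q c h W)
    (hker : RingHom.ker ψ = Ideal.span {quadPoly (q + π • (c + h))}) :
    RegAt 𝒜 (splitOrder p ψ π h W) := by
  classical
  intro hT y hy hyh hirr
  let T := splitOrder p ψ π h W
  obtain ⟨κ, hκ, j, hg⟩ := exists_special_notMem 𝒜 p ψ π h W hψR hT y hyh hirr
  let := subGradedAlgebra 𝒜 hT
  have hd := degP_le κ
  set d := degP n κ with hddef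
  set L := BigLoc y with hL
  let ι : A →+* L := algebraMap A L
  let lam : MvPolynomial (Fin n) O →+* L := ι.comp ψ
  let g : T := ⟨_, psi_mem_of_gen p ψ π h W (gen_pow_mem π h hκ j)⟩
  have hgy : g ∉ y := hg
  have : Nontrivial L := nontrivial_bigLoc y
  -- units
  have hgunit : IsUnit (lam (baseP π h κ) * lam (X j) ^ (3 - d)) := by
    have h1 := isUnit_algebraMap_bigLoc y hgy
    have h2 : algebraMap A (BigLoc y) g = lam (baseP π h κ) * lam (X j) ^ (3 - d) := by
      change ι (ψ (baseP π h κ * X j ^ (3 - d))) = _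
      rw [map_mul, map_mul, map_pow, map_pow]
      rfl
    rw [← h2]
    exact h1
  have hv : IsUnit (lam (X j)) := by
    have h1 := isUnit_of_mul_isUnit_right hgunit
    exact (isUnit_pow_iff (by omega)).mp h1
  have hu : IsUnit (lam (baseP π h κ)) := isUnit_of_mul_isUnit_left hgunit
  obtain ⟨v, hv⟩ := hv
  obtain ⟨u, hu⟩ := hu
  let e : Lˣ := u * v⁻¹ ^ d
  have he : (u : L) = (v : L) ^ d * e := by
    have h1 : u = v ^ d * e := by
      simp only [e]
      rw [mul_comm, mul_assoc, ← mul_pow, inv_mul_cancel, one_pow, mul_one]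
    rw [h1, Units.val_mul, Units.val_pow_eq_pow_val]
  let δ0 := mapZero lam v
  let δ' := mapBig lam v e π h W
  have hlam : ∀ {P : MvPolynomial (Fin n) O} {k : ℕ}, P.IsHomogeneous k →
      lam P = (v : L) ^ k * δ0 P := fun hP => lam_eq_of_isHomogeneous lam v hP
  have hδj : δ0 (X j) = 1 := by
    change mapZero lam v (X j) = 1
    rw [mapZero_X, ← hv, Units.mul_inv]
  have hδu : δ0 (baseP π h κ) = e := by
    have h1 := hlam (isHomogeneous_baseP π h κ)
    rw [← hu, he] at h1
    exact ((v.isUnit.pow d).mul_left_cancel h1).symm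
  have hιg : ι g = (e : L) * (v : L) ^ 3 := by
    change ι (ψ (baseP π h κ * X j ^ (3 - d))) = _
    have h1 : ι (ψ (baseP π h κ * X j ^ (3 - d))) = lam (baseP π h κ) * lam (X j) ^ (3 - d) := by
      rw [map_mul, map_mul, map_pow, map_pow]
      rfl
    rw [h1, ← hu, ← hv, he]
    have h3 : (3 : ℕ) = d + (3 - d) := by omega
    conv_rhs => rw [h3, pow_add]
    ring
  have hg3 : (g : A) ∈ 𝒜 3 := by
    have h1 := mem_of_isHomogeneous 𝒜 ψ hC hX ((isHomogeneous_baseP π h κ).mul
      ((isHomogeneous_X O j).pow (3 - d)))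
    have h3 : degP n κ + 1 * (3 - d) = 3 := by omega
    rw [h3] at h1
    exact h1
  -- the range of the maps
  have hrC : ∀ r, lam (C r) ∈ (bigMap 𝒜 hT y).range := by
    intro r
    refine mem_range_bigMap 𝒜 hT y 0 ⟨_, psi_C_mem p ψ π h W hψR r⟩ 1 (hC r)
      (SetLike.GradedOne.one_mem) ?_ ?_
    · exact fun h1 => hy.ne_top ((Ideal.eq_top_iff_one _).mpr h1)
    · change lam (C r) * algebraMap A L 1 = ι (ψ (C r))
      rw [map_one, mul_one]
      rfl
  have hr0X : ∀ i, δ0 (X i) ∈ (bigMap 𝒜 hT y).range := by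
    intro i
    refine mem_range_bigMap 𝒜 hT y 3
      ⟨_, psi_mem_of_gen p ψ π h W (gen_pow_mul_mem π h hκ j i)⟩ g ?_ hg3 hgy ?_
    · have h1 := mem_of_isHomogeneous 𝒜 ψ hC hX ((isHomogeneous_baseP π h κ).mul
        (((isHomogeneous_X O j).pow (2 - d)).mul (isHomogeneous_X O i)))
      have h3 : degP n κ + (1 * (2 - d) + 1) = 3 := by omega
      rw [h3] at h1
      exact h1
    · change δ0 (X i) * ι g = ι (ψ (baseP π h κ * (X j ^ (2 - d) * X i)))
      have h1 : ι (ψ (baseP π h κ * (X j ^ (2 - d) * X i))) =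
          lam (baseP π h κ) * (lam (X j) ^ (2 - d) * lam (X i)) := by
        rw [map_mul, map_mul, map_mul, map_mul, map_pow, map_pow]
        rfl
      rw [h1, hιg, ← hu, ← hv, he, hlam (isHomogeneous_X O i), pow_one]
      have h3 : (3 : ℕ) = d + (2 - d) + 1 := by omega
      conv_lhs => rw [h3, pow_add, pow_add]
      ring
  have hr0 : ∀ P, δ0 P ∈ (bigMap 𝒜 hT y).range := by
    intro P
    induction P using MvPolynomial.induction_on with
    | C r =>
      change mapZero lam v (C r) ∈ _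
      rw [mapZero_C]
      exact hrC r
    | add P Q hP hQ =>
      rw [map_add]
      exact Subring.add_mem _ hP hQ
    | mul_X P i hP =>
      rw [map_mul]
      exact Subring.mul_mem _ hP (hr0X i)
  have hr : ∀ P, δ' P ∈ (bigMap 𝒜 hT y).range := by
    intro P
    induction P using MvPolynomial.induction_on with
    | C r =>
      change mapBig lam v e π h W (C r) ∈ _
      rw [mapBig_C]
      exact hrC r
    | add P Q hP hQ =>
      rw [map_add]
      exact Subring.add_mem _ hP hQ
    | mul_X P κ' hP =>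
      rw [map_mul]
      refine Subring.mul_mem _ hP ?_
      by_cases hκ' : IsGood W κ'
      · have hd' := degP_le κ'
        refine mem_range_bigMap 𝒜 hT y 3
          ⟨_, psi_mem_of_gen p ψ π h W (gen_pow_mem π h hκ' j)⟩ g ?_ hg3 hgy ?_
        · have h1 := mem_of_isHomogeneous 𝒜 ψ hC hX ((isHomogeneous_baseP π h κ').mul
            ((isHomogeneous_X O j).pow (3 - degP n κ')))
          have h3 : degP n κ' + 1 * (3 - degP n κ') = 3 := by omega
          rw [h3] at h1
          exact h1
        · change δ' (X κ') * ι g = ι (ψ (baseP π h κ' * X j ^ (3 - degP n κ')))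
          have h1 : ι (ψ (baseP π h κ' * X j ^ (3 - degP n κ'))) =
              lam (baseP π h κ') * lam (X j) ^ (3 - degP n κ') := by
            rw [map_mul, map_mul, map_pow, map_pow]
            rfl
          have h2 : δ' (X κ') = δ0 (baseP π h κ') * ↑(e⁻¹) := mapBig_good _ _ _ _ _ _ hκ'
          rw [h1, hιg, ← hv, hlam (isHomogeneous_baseP π h κ'), h2]
          have h3 : (3 : ℕ) = degP n κ' + (3 - degP n κ') := by omega
          have h4 : (↑(e⁻¹) : L) * e = 1 := Units.inv_mul e
          calc δ0 (baseP π h κ') * ↑(e⁻¹) * (↑e * (v : L) ^ 3) =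
              δ0 (baseP π h κ') * (↑(e⁻¹) * ↑e) * (v : L) ^ 3 := by ring
            _ = δ0 (baseP π h κ') * (v : L) ^ (degP n κ' + (3 - degP n κ')) := by
                rw [h4, mul_one, ← h3]
            _ = _ := by rw [pow_add]; ring
      · rcases κ' with l | a
        · have hl : l ∈ W := by
            by_contra hl
            exact hκ' hl
          have h2 : δ' (X (Sum.inl l)) = δ0 (X l) := mapBig_inl _ _ _ _ _ _ hl
          rw [h2]
          exact hr0X l
        · fin_cases a
          · have h2 : δ' (X (Sum.inr 0)) = e := mapBig_exc _ _ _ _ _ _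
            change δ' (X (Sum.inr 0)) ∈ _
            rw [h2, ← hδu]
            exact hr0 _
          · exact absurd trivial hκ'
          · exact absurd trivial hκ'
  refine isRegularLocalRing_of_split hπ H (bigMap 𝒜 hT y) (bigMap_injective 𝒜 hT y) δ0 δ'
    (mapBig_sigma lam v e π h W) hr hκ j ?_ ?_ hδj (fun κ' hκ' => mapBig_base _ _ _ _ _ _ hκ')
    ?_ ?_ ?_
  · have h2 : δ' (X (Sum.inr 0)) = e := mapBig_exc _ _ _ _ _ _
    rw [h2]
    exact e.isUnit
  · have h2 : δ' (X κ) = δ0 (baseP π h κ) * ↑(e⁻¹) := mapBig_good _ _ _ _ _ _ hκ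
    rw [h2, hδu, Units.mul_inv]
  · have h1 : lam (quadPoly (q + π • (c + h))) = 0 := by
      have h2 : quadPoly (q + π • (c + h)) ∈ RingHom.ker ψ := by
        rw [hker]
        exact Ideal.mem_span_singleton_self _
      change ι (ψ _) = 0
      rw [RingHom.mem_ker.mp h2, map_zero]
    rw [hlam (quadPoly_isHomogeneous _)] at h1
    exact ((v.isUnit.pow 2).mul_right_eq_zero).mp h1
  · -- fractions
    intro z
    obtain ⟨k, a, b, ha, hb, hby, rfl⟩ := exists_frac 𝒜 hT y z
    have hab : ((a * b ^ 2 : T) : A) ∈ 𝒜 (3 * k) := by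
      have h1 := SetLike.mul_mem_graded ha (SetLike.pow_mem_graded 2 hb)
      have h3 : k + 2 • k = 3 * k := by rw [smul_eq_mul]; ring
      rw [h3] at h1
      exact h1
    have hbb : ((b ^ 3 : T) : A) ∈ 𝒜 (3 * k) := by
      have h1 := SetLike.pow_mem_graded 3 hb
      rw [smul_eq_mul] at h1
      exact h1
    have hgg : ((g ^ k : T) : A) ∈ 𝒜 (3 * k) := by
      have h1 := SetLike.pow_mem_graded k hg3
      have h3 : k • 3 = 3 * k := by rw [smul_eq_mul]; ring
      rw [h3] at h1
      exact h1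
    have hdiv : (3 * k + 2) / 3 = k := by omega
    obtain ⟨P, hP⟩ := exists_estimate 𝒜 p ψ hC hX π h W hψR ι v e _ (a * b ^ 2).2 (3 * k)
    obtain ⟨Q, hQ⟩ := exists_estimate 𝒜 p ψ hC hX π h W hψR ι v e _ (b ^ 3).2 (3 * k)
    rw [DirectSum.decompose_of_mem_same 𝒜 hab, hdiv] at hP
    rw [DirectSum.decompose_of_mem_same 𝒜 hbb, hdiv] at hQ
    have hub : IsUnit (ι b) := isUnit_algebraMap_bigLoc y hby
    have hιab : ι ((a * b ^ 2 : T) : A) = ι a * ι b ^ 2 := by
      rw [← map_pow, ← map_mul]; rfl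
    have hιb : ι ((b ^ 3 : T) : A) = ι b ^ 3 := by
      rw [← map_pow]; rfl
    have hev : IsUnit ((e : L) ^ k * (v : L) ^ (3 * k)) := (e.isUnit.pow k).mul (v.isUnit.pow _)
    refine ⟨P, Q, ?_, ?_⟩
    · have h1 := bigMap_mk 𝒜 hT y k a b ha hb hby
      apply hev.mul_left_cancel
      rw [hιab] at hP
      rw [hιb] at hQ
      calc (e : L) ^ k * (v : L) ^ (3 * k) *
            (bigMap 𝒜 hT y (HomogeneousLocalization.mk ⟨k, ⟨a, ha⟩, ⟨b, hb⟩, hby⟩) * δ' Q)
          = bigMap 𝒜 hT y (HomogeneousLocalization.mk ⟨k, ⟨a, ha⟩, ⟨b, hb⟩, hby⟩) *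
            ((e : L) ^ k * (v : L) ^ (3 * k) * δ' Q) := by ring
        _ = (bigMap 𝒜 hT y (HomogeneousLocalization.mk ⟨k, ⟨a, ha⟩, ⟨b, hb⟩, hby⟩) * ι b) *
            ι b ^ 2 := by
            rw [← hQ]; ring
        _ = ι a * ι b ^ 2 := by rw [h1]
        _ = _ := hP
    · intro w hw
      have hb3 : b ^ 3 ∉ y := fun h1 => hby (hy.mem_of_pow_mem _ h1)
      have hgk : g ^ k ∉ y := fun h1 => hgy (hy.mem_of_pow_mem _ h1)
      have h1 := isUnit_frac_of_notMem 𝒜 hT y (3 * k) (b ^ 3) (g ^ k) hbb hgg hb3 hgk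
      have h2 := bigMap_mk 𝒜 hT y (3 * k) (b ^ 3) (g ^ k) hbb hgg hgk
      have h3 : w = HomogeneousLocalization.mk ⟨3 * k, ⟨b ^ 3, hbb⟩, ⟨g ^ k, hgg⟩, hgk⟩ := by
        apply bigMap_injective 𝒜 hT y
        rw [hw]
        apply hev.mul_right_cancel
        have h4 : algebraMap A (BigLoc y) ((g ^ k : T) : A) =
            (e : L) ^ k * (v : L) ^ (3 * k) := by
          have h5 : algebraMap A (BigLoc y) ((g ^ k : T) : A) = ι g ^ k := by
            rw [← map_pow]; rfl
          rw [h5, hιg, mul_pow, ← pow_mul]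
        rw [h4] at h2
        rw [h2]
        change _ = ι ((b ^ 3 : T) : A)
        rw [hQ]
        ring
      rw [h3]
      exact h1
  · -- relations
    intro P hP
    set M := P.totalDegree with hM
    let P' : MvPolynomial (Fin n) O :=
      ∑ i ∈ Finset.range (M + 1), X j ^ (M - i) * homogeneousComponent i P
    have hP'hom : P'.IsHomogeneous M := by
      refine IsHomogeneous.sum _ _ _ fun i hi => ?_
      have h1 := ((isHomogeneous_X O j).pow (M - i)).mul (homogeneousComponent_isHomogeneous i P)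
      have h2 : 1 * (M - i) + i = M := by
        rw [Finset.mem_range] at hi
        omega
      rwa [h2] at h1
    have hPP' : P' - P ∈ Ideal.span {(X j - 1 : MvPolynomial (Fin n) O)} := by
      have h1 : P = ∑ i ∈ Finset.range (M + 1), homogeneousComponent i P :=
        (sum_homogeneousComponent P).symm
      have h2 : P' - P = ∑ i ∈ Finset.range (M + 1),
          (X j ^ (M - i) - 1) * homogeneousComponent i P := by
        conv_lhs => rw [h1]
        rw [← Finset.sum_sub_distrib]
        refine Finset.sum_congr rfl fun i _ => by ring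
      rw [h2]
      refine Ideal.sum_mem _ fun i _ => Ideal.mul_mem_right _ _ ?_
      rw [Ideal.mem_span_singleton]
      have := sub_dvd_pow_sub_pow (X j : MvPolynomial (Fin n) O) 1 (M - i)
      rwa [one_pow] at this
    have hδP' : δ0 P' = 0 := by
      obtain ⟨r, hr'⟩ := Ideal.mem_span_singleton.mp hPP'
      have h1 := congrArg δ0 hr'
      rw [map_mul, map_sub, map_sub, hP, hδj, map_one, sub_self, zero_mul, sub_zero] at h1
      exact h1
    have hιP' : ι (ψ P') = 0 := by
      change lam P' = 0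
      rw [hlam hP'hom, hδP', mul_zero]
    obtain ⟨⟨_, t, ht, rfl⟩, ht0⟩ := (IsLocalization.map_eq_zero_iff (denoms y) L _).mp hιP'
    change (t : A) * ψ P' = 0 at ht0
    -- a homogeneous component of `t` outside `y`
    obtain ⟨k, hk⟩ : ∃ k, ((DirectSum.decompose (subGr 𝒜 T) t k : _) : T) ∉ y := by
      by_contra hcon
      push Not at hcon
      apply ht
      rw [← DirectSum.sum_support_decompose (subGr 𝒜 T) t]
      exact y.sum_mem fun i _ => hcon i
    have htk : ((DirectSum.decompose 𝒜 (t : A) k : _) : A) * ψ P' = 0 := by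
      have h1 := mem_of_isHomogeneous 𝒜 ψ hC hX hP'hom
      have h2 := DirectSum.coe_decompose_mul_of_right_mem 𝒜 (k + M) h1 (a := (t : A))
      rw [ht0, if_pos (by omega), Nat.add_sub_cancel, DirectSum.decompose_zero] at h2
      exact h2.symm
    obtain ⟨τ, hτ⟩ := splitOrder_le_range p ψ π h W hψR _ t.2
    refine ⟨homogeneousComponent k τ, ?_, ?_⟩
    · intro h0
      have h1 := hlam (homogeneousComponent_isHomogeneous k τ)
      rw [h0, mul_zero] at h1
      have h2 : lam (homogeneousComponent k τ) =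
          algebraMap A L ((DirectSum.decompose (subGr 𝒜 T) t k : _) : T) := by
        change ι (ψ _) = _
        rw [← decompose_map 𝒜 ψ hC hX, hτ, coe_decompose_subGr 𝒜 hT t k]
      rw [h2] at h1
      exact not_isUnit_zero (h1 ▸ isUnit_algebraMap_bigLoc y hk)
    · have h1 : homogeneousComponent k τ * P' ∈
          Ideal.span {quadPoly (q + π • (c + h))} := by
        rw [← hker, RingHom.mem_ker, map_mul, ← decompose_map 𝒜 ψ hC hX, hτ]
        exact htk
      have h2 : homogeneousComponent k τ * P = homogeneousComponent k τ * P' -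
          homogeneousComponent k τ * (P' - P) := by ring
      rw [h2]
      refine Ideal.sub_mem _ (Ideal.span_mono ?_ h1) (Ideal.mul_mem_left _ _
        (Ideal.span_mono ?_ hPP'))
      · rintro _ rfl
        exact ⟨0, rfl⟩
      · rintro _ rfl
        exact ⟨1, rfl⟩

end Pool.Agent.Lib.MP_6a3dac_ag
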