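import Pool.Agent.Lib.MP_6a3dac_ag.DescPrime
import Pool.Agent.Lib.MP_6a3dac_ag.SplitReg

/-!
# Descent of regularity along quadratic étale-like extensions of graded rings
-/

set_option autoImplicit false
set_option linter.unusedSectionVars false

namespace Pool.Agent.Lib.MP_6a3dac_ag

open IsLocalRing HomogeneousLocalization

section Map

variable {R K A : Type} [CommRing R] [CommRing K] [CommRing A] [Algebra R K] [Algebra K A]
  [Algebra R A] [IsScalarTower R K A]
  {K₁ A₁ O₁ : Type} [CommRing K₁] [CommRing A₁] [CommRing O₁] [Algebra O₁ K₁] [Algebra K₁ A₁]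
  [Algebra O₁ A₁] [IsScalarTower O₁ K₁ A₁]
  {S : Subalgebra R A} {T : Subalgebra O₁ A₁} {y : Ideal S} [y.IsPrime] {Y : Ideal T} [Y.IsPrime]
  {j : A →+* A₁} (hST : ∀ x ∈ S, j x ∈ T) (hyY : ∀ s, s ∉ y → jS hST s ∉ Y)

/-- The homomorphism between the big localizations. -/
noncomputable def bigJ : BigLoc y →+* BigLoc Y :=
  IsLocalization.map (M := denoms y) (T := denoms Y) (BigLoc Y) j (by
    rintro _ ⟨s, hs, rfl⟩
    exact ⟨jS hST s, hyY s hs, rfl⟩)

theorem bigJ_algebraMap (x : A) :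
    bigJ hST hyY (algebraMap A (BigLoc y) x) = algebraMap A₁ (BigLoc Y) (j x) :=
  IsLocalization.map_eq _ x

theorem algebraMap_bigLoc_injective [IsDomain A₁] :
    Function.Injective (algebraMap A₁ (BigLoc Y)) := by
  apply IsLocalization.injective (M := denoms Y)
  rintro _ ⟨t, ht, rfl⟩
  rw [mem_nonZeroDivisors_iff_ne_zero]
  intro h0
  apply ht
  have h1 : t = 0 := Subtype.ext h0
  change t ∈ Y
  rw [h1]
  exact Y.zero_mem

end Map

section Main

variable {O O₁ : Type} [CommRing O] [IsLocalRing O] [CommRing O₁] [IsLocalRing O₁]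
  {κ : O →+* O₁} [IsLocalHom κ] {ω : O₁} {a b : O} (hκ : EtaleLike κ ω a b)
  {R K A : Type} [CommRing R] [CommRing K] [CommRing A] [Algebra R K] [Algebra K A]
  [Algebra R A] [IsScalarTower R K A] [Algebra O K] [Algebra O A] [IsScalarTower O K A]
  (𝒜 : ℕ → Submodule K A) [GradedAlgebra 𝒜]
  {K₁ A₁ : Type} [CommRing K₁] [CommRing A₁] [IsDomain A₁] [Algebra O₁ K₁] [Algebra K₁ A₁]
  [Algebra O₁ A₁] [IsScalarTower O₁ K₁ A₁]
  (𝒜₁ : ℕ → Submodule K₁ A₁) [GradedAlgebra 𝒜₁]
  {j : A →+* A₁} (hj : ∀ o, j (algebraMap O A o) = algebraMap O₁ A₁ (κ o))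
  (hgr : ∀ k, ∀ x ∈ 𝒜 k, j x ∈ 𝒜₁ (2 * k))
  (huniq : ∀ x y, j x + ω • j y = 0 → x = 0 ∧ y = 0)
  {S : Subalgebra R A} (hOS : ∀ o : O, algebraMap O A o ∈ S)
  {T : Subalgebra O₁ A₁} (hST : ∀ x ∈ S, j x ∈ T)
  (hfr : ∀ k, ∀ z ∈ T, z ∈ 𝒜₁ (2 * k) → Fr κ ω j (subO hOS) z)

include hj hgr hfr in
omit [IsLocalRing O] [IsLocalRing O₁] [IsLocalHom κ] [IsDomain A₁] in
/-- Fractions of homogeneous elements. -/
theorem fr_homog (hS : IsHomog 𝒜 S) (k : ℕ) {z : A₁} (hz : z ∈ T) (hzk : z ∈ 𝒜₁ (2 * k)) :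
    ∃ (p q : O) (x x' : S), IsUnit (κ p + ω * κ q) ∧ (x : A) ∈ 𝒜 k ∧ (x' : A) ∈ 𝒜 k ∧
      (κ p + ω * κ q) • z = j x + ω • j x' := by
  obtain ⟨p, q, x, x', hu, hx, hx', he⟩ := hfr k z hz hzk
  refine ⟨p, q, ⟨_, hS x hx k⟩, ⟨_, hS x' hx' k⟩, hu, (DirectSum.decompose 𝒜 x k).2,
    (DirectSum.decompose 𝒜 x' k).2, ?_⟩
  have h1 := congrArg (fun w => (DirectSum.decompose 𝒜₁ w (2 * k) : A₁)) he
  simp only [DirectSum.decompose_add, DirectSum.add_apply, Submodule.coe_add] at h1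
  rw [← IsScalarTower.algebraMap_smul K₁ (κ p + ω * κ q) z,
    ← IsScalarTower.algebraMap_smul K₁ ω (j x')] at h1
  rw [DirectSum.decompose_smul, DirectSum.decompose_smul, DirectSum.smul_apply,
    DirectSum.smul_apply, Submodule.coe_smul, Submodule.coe_smul,
    DirectSum.decompose_of_mem_same 𝒜₁ hzk, decompose_j 𝒜 𝒜₁ hgr,
    decompose_j 𝒜 𝒜₁ hgr, IsScalarTower.algebraMap_smul, IsScalarTower.algebraMap_smul] at h1
  exact h1

include hκ hj hgr huniq hST hfr in
/-- **Descent of regularity.** -/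
theorem regAt_desc (hT : IsHomog 𝒜₁ T) (hreg : RegAt 𝒜₁ T) : RegAt 𝒜 S := by
  classical
  intro hS y hy hyh hirr
  let := subGradedAlgebra 𝒜 hS
  let := subGradedAlgebra 𝒜₁ hT
  obtain ⟨Y, hY, hYh, hout, hin⟩ := exists_prime_over hκ 𝒜 𝒜₁ hj hgr huniq hS hOS hT hST hfr y hyh
  -- a relevant element
  obtain ⟨i, hi, e, hei, hey⟩ : ∃ i, 0 < i ∧ ∃ e : S, (e : A) ∈ 𝒜 i ∧ e ∉ y := by
    by_contra hcon
    push Not at hcon
    apply hirr
    rw [HomogeneousIdeal.toIdeal_irrelevant_le]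
    intro i hi s hs
    exact hcon i hi s hs
  have hYirr : ¬ (HomogeneousIdeal.irrelevant (subGr 𝒜₁ T)).toIdeal ≤ Y := by
    intro hle
    rw [HomogeneousIdeal.toIdeal_irrelevant_le] at hle
    have h1 : (jS hST e : A₁) ∈ 𝒜₁ (2 * i) := hgr i _ hei
    exact hout e hey (hle (2 * i) (by omega) (x := jS hST e) h1)
  have hreg₁ := hreg hT Y hY hYh hYirr
  set ι := algebraMap A (BigLoc y) with hι
  set ι₁ := algebraMap A₁ (BigLoc Y) with hι₁
  have : Nontrivial (BigLoc y) := nontrivial_bigLoc y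
  have : Nontrivial (BigLoc Y) := nontrivial_bigLoc Y
  have hinj₁ : Function.Injective ι₁ := algebraMap_bigLoc_injective
  let Θ := bigMap 𝒜 hS y
  let Θ₁ := bigMap 𝒜₁ hT Y
  have hΘ : Function.Injective Θ := bigMap_injective 𝒜 hS y
  have hΘ₁ : Function.Injective Θ₁ := bigMap_injective 𝒜₁ hT Y
  have hu : ∀ {s : S}, s ∉ y → IsUnit (ι s) := fun hs => isUnit_algebraMap_bigLoc y hs
  have hu₁ : ∀ {t : T}, t ∉ Y → IsUnit (ι₁ t) := fun ht => isUnit_algebraMap_bigLoc Y ht
  -- the homomorphism of local rings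
  obtain ⟨φ, hφ⟩ := exists_lift_of_range_le Θ₁ hΘ₁ ((bigJ hST hout).comp Θ) (by
    intro z
    obtain ⟨k, s, t, hs, ht, hty, rfl⟩ := exists_frac 𝒜 hS y z
    refine mem_range_bigMap 𝒜₁ hT Y (2 * k) (jS hST s) (jS hST t) (hgr k _ hs) (hgr k _ ht)
      (hout t hty) ?_
    have h1 := bigMap_mk 𝒜 hS y k s t hs ht hty
    have h2 := congrArg (bigJ hST hout) h1
    rw [map_mul, bigJ_algebraMap, bigJ_algebraMap] at h2
    exact h2)
  have hφ' : ∀ z, Θ₁ (φ z) = bigJ hST hout (Θ z) := hφ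
  have hJ : ∀ x, bigJ hST hout (ι x) = ι₁ (j x) := bigJ_algebraMap hST hout
  -- constants
  have h0y : ∀ s : S, (s : A) = 1 → s ∉ y := by
    intro s hs h1
    have h2 : s = 1 := Subtype.ext hs
    rw [h2] at h1
    exact hy.ne_top ((Ideal.eq_top_iff_one _).mpr h1)
  have h00 : ∀ o : O, algebraMap O A o ∈ 𝒜 0 := by
    intro o
    rw [IsScalarTower.algebraMap_apply O K A]
    exact SetLike.algebraMap_mem_graded 𝒜 _
  have h01 : ∀ o : O₁, algebraMap O₁ A₁ o ∈ 𝒜₁ 0 := by
    intro o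
    rw [IsScalarTower.algebraMap_apply O₁ K₁ A₁]
    exact SetLike.algebraMap_mem_graded 𝒜₁ _
  have hcon : ∀ o : O, ∃ z, Θ z = ι (algebraMap O A o) := by
    intro o
    refine mem_range_bigMap 𝒜 hS y 0 ⟨_, hOS o⟩ 1 (h00 o) SetLike.GradedOne.one_mem (h0y 1 rfl) ?_
    · change ι (algebraMap O A o) * ι 1 = ι (algebraMap O A o)
      rw [map_one, mul_one]
  obtain ⟨aD, haD⟩ := hcon a
  obtain ⟨bD, hbD⟩ := hcon b
  obtain ⟨ωD, hωD⟩ : ∃ z, Θ₁ z = ι₁ (algebraMap O₁ A₁ ω) := by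
    refine mem_range_bigMap 𝒜₁ hT Y 0 ⟨_, T.algebraMap_mem ω⟩ 1 (h01 ω)
      SetLike.GradedOne.one_mem ?_ ?_
    · exact fun h1 => hY.ne_top ((Ideal.eq_top_iff_one _).mpr h1)
    · change ι₁ (algebraMap O₁ A₁ ω) * ι₁ 1 = ι₁ (algebraMap O₁ A₁ ω)
      rw [map_one, mul_one]
  -- fractions
  have hmkS : ∀ (k : ℕ) (s t : S), (s : A) ∈ 𝒜 k → (t : A) ∈ 𝒜 k → t ∉ y →
      ∃ z, Θ z * ι t = ι s := by
    intro k s t hs ht hty
    exact ⟨_, bigMap_mk 𝒜 hS y k s t hs ht hty⟩
  have hEt : EtaleLike φ ωD aD bD :=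
    { om := by
        apply hΘ₁
        rw [map_mul, map_add, map_mul, hφ', hφ', haD, hbD, hωD, hJ, hJ, hj, hj, ← map_mul,
          ← map_mul, ← map_mul, ← map_add, ← map_mul, ← map_add]
        congr 2
        exact hκ.om
      disc := by
        obtain ⟨d, hd⟩ := hκ.disc.exists_right_inv
        obtain ⟨dD, hdD⟩ := hcon d
        refine IsUnit.of_mul_eq_one dD ?_
        apply hΘ
        rw [map_mul, map_add, map_pow, map_mul, haD, hbD, hdD, map_ofNat, map_one, ← map_pow,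
          ← map_ofNat ι 4, ← map_mul, ← map_add, ← map_mul]
        have h1 : ((algebraMap O A) b ^ 2 + 4 * (algebraMap O A) a) * (algebraMap O A) d = 1 := by
          rw [← map_one (algebraMap O A), ← hd]
          simp only [map_mul, map_add, map_pow, map_ofNat]
        rw [h1, map_one]
      uniq := by
        intro z w hzw
        obtain ⟨k, s, t, hs, ht, hty, rfl⟩ := exists_frac 𝒜 hS y z
        obtain ⟨l, s', t', hs', ht', hty', rfl⟩ := exists_frac 𝒜 hS y w
        have h1 := bigMap_mk 𝒜 hS y k s t hs ht hty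
        have h2 := bigMap_mk 𝒜 hS y l s' t' hs' ht' hty'
        have h3 := congrArg Θ₁ hzw
        rw [map_add, map_mul, hφ', hφ', hωD, map_zero] at h3
        have h4 := congrArg (bigJ hST hout) h1
        have h5 := congrArg (bigJ hST hout) h2
        rw [map_mul, bigJ_algebraMap, bigJ_algebraMap] at h4 h5
        have h6 : ι₁ (j (s * t') + ω • j (s' * t)) = 0 := by
          rw [Algebra.smul_def, map_add, map_mul, map_mul, map_mul, map_mul, map_mul]
          change ι₁ (j s) * ι₁ (j t') + ι₁ (algebraMap O₁ A₁ ω) * (ι₁ (j s') * ι₁ (j t)) = 0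
          rw [← h4, ← h5]
          linear_combination (ι₁ (j t) * ι₁ (j t')) * h3
        rw [map_eq_zero_iff ι₁ hinj₁] at h6
        obtain ⟨h7, h8⟩ := huniq _ _ h6
        constructor
        · apply hΘ
          apply (hu hty).mul_right_cancel
          apply (hu hty').mul_right_cancel
          change _ * ι t * ι t' = Θ 0 * ι t * ι t'
          rw [map_zero, zero_mul, zero_mul, h1, ← map_mul, h7, map_zero]
        · apply hΘ
          apply (hu hty').mul_right_cancel
          apply (hu hty).mul_right_cancel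
          change _ * ι t' * ι t = Θ 0 * ι t' * ι t
          rw [map_zero, zero_mul, zero_mul, h2, ← map_mul, h8, map_zero]
      frac := by
        intro z
        obtain ⟨n, t, c, ht, hc, hcY, rfl⟩ := exists_frac 𝒜₁ hT Y z
        have h1 := bigMap_mk 𝒜₁ hT Y n t c ht hc hcY
        set z : AtPrime (subGr 𝒜₁ T) Y := HomogeneousLocalization.mk ⟨n, ⟨t, ht⟩, ⟨c, hc⟩, hcY⟩
          with hz
        change Θ₁ z * ι₁ c = ι₁ t at h1
        have hdc : (c : A₁) ^ (2 * i) ∈ 𝒜₁ (2 * (i * n)) := by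
          have h2 := SetLike.pow_mem_graded (2 * i) hc
          rwa [smul_eq_mul, mul_assoc] at h2
        have hdt : (t : A₁) * (c : A₁) ^ (2 * i - 1) ∈ 𝒜₁ (2 * (i * n)) := by
          have h2 := SetLike.mul_mem_graded ht (SetLike.pow_mem_graded (2 * i - 1) hc)
          have h3 : n + (2 * i - 1) • n = 2 * (i * n) := by
            rw [smul_eq_mul]
            have h4 : 2 * i - 1 + 1 = 2 * i := by omega
            calc n + (2 * i - 1) * n = (2 * i - 1 + 1) * n := by ring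
              _ = _ := by rw [h4]; ring
          rwa [h3] at h2
        have hEi : ((e ^ n : S) : A) ∈ 𝒜 (i * n) := by
          have h2 := SetLike.pow_mem_graded n hei
          rwa [smul_eq_mul, mul_comm] at h2
        have hEy : e ^ n ∉ y := fun h2 => hey (hy.mem_of_pow_mem _ h2)
        obtain ⟨p, q, x, x', hu1, hx, hx', he1⟩ := fr_homog 𝒜 𝒜₁ hj hgr hOS hfr hS (i * n)
          (T.pow_mem c.2 _) hdc
        obtain ⟨p', q', w, w', hu2, hw, hw', he2⟩ := fr_homog 𝒜 𝒜₁ hj hgr hOS hfr hS (i * n)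
          (T.mul_mem t.2 (T.pow_mem c.2 _)) hdt
        have hsm : ∀ (o : O) (v : A), v ∈ 𝒜 (i * n) → o • v ∈ 𝒜 (i * n) := by
          intro o v hv
          rw [← IsScalarTower.algebraMap_smul K o v]
          exact Submodule.smul_mem _ _ hv
        have hmk : ∀ v : A, v ∈ subO hOS → v ∈ 𝒜 (i * n) →
            ∃ z, Θ z * ι ((e ^ n : S) : A) = ι v :=
          fun v hv hv' => hmkS (i * n) ⟨v, hv⟩ (e ^ n) hv' hEi hEy
        have hcl : ∀ (r s : O) (v v' : S), (v : A) ∈ 𝒜 (i * n) → (v' : A) ∈ 𝒜 (i * n) →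
            ∃ z z' : AtPrime (subGr 𝒜 S) y, Θ₁ (φ z + ωD * φ z') * ι₁ (j ((e ^ n : S) : A)) =
              ι₁ ((κ r + ω * κ s) • (j v + ω • j v')) := by
          intro r s v v' hv hv'
          obtain ⟨z1, hz1⟩ := hmk (r • (v : A) + a • (s • (v' : A)))
            ((subO hOS).add_mem ((subO hOS).smul_mem _ v.2)
              ((subO hOS).smul_mem _ ((subO hOS).smul_mem _ v'.2)))
            (Submodule.add_mem _ (hsm _ _ hv) (hsm _ _ (hsm _ _ hv')))
          obtain ⟨z2, hz2⟩ := hmk (r • (v' : A) + s • (v : A) + b • (s • (v' : A)))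
            ((subO hOS).add_mem ((subO hOS).add_mem ((subO hOS).smul_mem _ v'.2)
              ((subO hOS).smul_mem _ v.2))
              ((subO hOS).smul_mem _ ((subO hOS).smul_mem _ v'.2)))
            (Submodule.add_mem _ (Submodule.add_mem _ (hsm _ _ hv') (hsm _ _ hv))
              (hsm _ _ (hsm _ _ hv')))
          refine ⟨z1, z2, ?_⟩
          have h5 := congrArg (bigJ hST hout) hz1
          have h6 := congrArg (bigJ hST hout) hz2
          rw [map_mul, hJ, hJ, ← hφ'] at h5 h6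
          rw [j_smul_eq hκ hj, map_add Θ₁, map_mul Θ₁, hωD, map_add ι₁, Algebra.smul_def ω,
            map_mul ι₁, ← h5, ← h6]
          ring
        obtain ⟨zp, zq, h2⟩ := hcl p' q' x x' hx hx'
        obtain ⟨zd, ze, h3⟩ := hcl p q w w' hw hw'
        have hEu : IsUnit (ι₁ (j ((e ^ n : S) : A))) := hu₁ (hout _ hEy)
        have hcu : IsUnit (ι₁ c) := hu₁ hcY
        refine ⟨zp, zq, zd, ze, ?_, ?_⟩
        · -- the unit
          have h4 : (κ p' + ω * κ q') • ((κ p + ω * κ q) • c ^ (2 * i)) ∉ Y := by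
            intro h5
            have h6 : ∀ {o : O₁} {v : T}, IsUnit o → o • v ∈ Y → v ∈ Y := by
              intro o v ho hov
              rw [Algebra.smul_def] at hov
              exact (Ideal.unit_mul_mem_iff_mem Y (ho.map (algebraMap O₁ T))).mp hov
            exact hcY (hY.mem_of_pow_mem _ (h6 hu1 (h6 hu2 h5)))
          have h5 : (((κ p' + ω * κ q') • ((κ p + ω * κ q) • c ^ (2 * i)) : T) : A₁) ∈
              𝒜₁ (2 * (i * n)) := by
            change (κ p' + ω * κ q') • ((κ p + ω * κ q) • (c : A₁) ^ (2 * i)) ∈ _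
            rw [← IsScalarTower.algebraMap_smul K₁ (κ p' + ω * κ q'),
              ← IsScalarTower.algebraMap_smul K₁ (κ p + ω * κ q)]
            exact Submodule.smul_mem _ _ (Submodule.smul_mem _ _ hdc)
          have h6 : (jS hST (e ^ n) : A₁) ∈ 𝒜₁ (2 * (i * n)) := hgr _ _ hEi
          have h7 := isUnit_frac_of_notMem 𝒜₁ hT Y (2 * (i * n)) _ (jS hST (e ^ n)) h5 h6 h4
            (hout _ hEy)
          have h8 := bigMap_mk 𝒜₁ hT Y (2 * (i * n)) _ (jS hST (e ^ n)) h5 h6 (hout _ hEy)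
          have h9 : φ zp + ωD * φ zq = HomogeneousLocalization.mk
              ⟨2 * (i * n), ⟨(κ p' + ω * κ q') • ((κ p + ω * κ q) • c ^ (2 * i)), h5⟩,
                ⟨jS hST (e ^ n), h6⟩, hout _ hEy⟩ := by
            apply hΘ₁
            apply hEu.mul_right_cancel
            rw [h2, ← he1]
            exact h8.symm
          rw [h9]
          exact h7
        · apply hΘ₁
          apply hEu.mul_right_cancel
          apply (hcu.pow (2 * i)).mul_right_cancel
          rw [h3, map_mul]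
          have h10 : Θ₁ (φ zp + ωD * φ zq) * Θ₁ z * ι₁ (j ((e ^ n : S) : A)) * ι₁ c ^ (2 * i) =
              (Θ₁ (φ zp + ωD * φ zq) * ι₁ (j ((e ^ n : S) : A))) *
                ((Θ₁ z * ι₁ c) * ι₁ c ^ (2 * i - 1)) := by
            have h11 : ι₁ (c : A₁) ^ (2 * i) = ι₁ c * ι₁ c ^ (2 * i - 1) := by
              rw [← pow_succ']
              congr 1
              omega
            rw [h11]
            ring
          rw [h10, h2, h1, ← he1, ← he2]
          simp only [Algebra.smul_def, map_mul, map_pow]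
          ring }
  have hloc : IsLocalHom φ := by
    constructor
    intro z hz
    obtain ⟨k, s, t, hs, ht, hty, rfl⟩ := exists_frac 𝒜 hS y z
    have h1 := bigMap_mk 𝒜 hS y k s t hs ht hty
    by_cases hsy : s ∈ y
    · exfalso
      have h2 := congrArg (bigJ hST hout) h1
      rw [map_mul, bigJ_algebraMap, bigJ_algebraMap] at h2
      obtain ⟨w, hw⟩ := hz.exists_right_inv
      obtain ⟨l, s', t', hs', ht', hty', rfl⟩ := exists_frac 𝒜₁ hT Y w
      have h3 := bigMap_mk 𝒜₁ hT Y l s' t' hs' ht' hty'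
      have h4 := congrArg Θ₁ hw
      rw [map_mul, hφ', map_one] at h4
      have h5 : ι₁ (j s * s') = ι₁ (j t * t') := by
        rw [map_mul, map_mul]
        change ι₁ (j s) * ι₁ s' = ι₁ (j t) * ι₁ t'
        rw [← h2, ← h3]
        linear_combination (ι₁ (j t) * ι₁ t') * h4
      have h6 := hinj₁ h5
      have h7 : jS hST s * s' = jS hST t * t' := Subtype.ext h6
      have h8 : jS hST t * t' ∈ Y := by
        rw [← h7]
        exact Y.mul_mem_right _ (hin k s hs hsy)
      exact (hY.mem_or_mem h8).elim (hout t hty) hty'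
    · exact isUnit_frac_of_notMem 𝒜 hS y k s t hs ht hsy hty
  exact hEt.isRegularLocalRing hreg₁

end Main

end Pool.Agent.Lib.MP_6a3dac_ag
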