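import Pool.Agent.Lib.MP_6a3dac_ag.DescFr
import Pool.Agent.Lib.MP_6a3dac_ag.LocFrac

/-!
# Primes over a given prime in a quadratic étale-like extension
-/

set_option autoImplicit false
set_option linter.unusedSectionVars false

namespace Pool.Agent.Lib.MP_6a3dac_ag

open IsLocalRing HomogeneousLocalization

section Sub

variable {O R A : Type} [CommRing O] [CommRing R] [CommRing A] [Algebra O A] [Algebra R A]
  {S : Subalgebra R A} (hOS : ∀ o : O, algebraMap O A o ∈ S)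

/-- A subalgebra as a submodule over another ring. -/
def subO : Submodule O A where
  carrier := S
  add_mem' := S.add_mem
  zero_mem' := S.zero_mem
  smul_mem' o x hx := by
    rw [Algebra.smul_def]
    exact S.mul_mem (hOS o) hx

/-- An ideal of a subalgebra as a submodule over another ring. -/
def idealO (y : Ideal S) : Submodule O A where
  carrier := {x | ∃ h : x ∈ S, (⟨x, h⟩ : S) ∈ y}
  add_mem' := by
    rintro p q ⟨hp, hp'⟩ ⟨hq, hq'⟩
    exact ⟨S.add_mem hp hq, y.add_mem hp' hq'⟩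
  zero_mem' := ⟨S.zero_mem, y.zero_mem⟩
  smul_mem' := by
    rintro o x ⟨h, h'⟩
    rw [Algebra.smul_def]
    exact ⟨S.mul_mem (hOS o) h, y.mul_mem_left ⟨_, hOS o⟩ h'⟩

theorem mem_idealO {y : Ideal S} (s : S) : (s : A) ∈ idealO hOS y ↔ s ∈ y :=
  ⟨fun ⟨_, h⟩ => h, fun h => ⟨s.2, h⟩⟩

theorem mem_subO {x : A} : x ∈ subO hOS ↔ x ∈ S := Iff.rfl

end Sub

section Dec

variable {K A K₁ A₁ : Type} [CommRing K] [CommRing A] [Algebra K A] (𝒜 : ℕ → Submodule K A)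
  [GradedAlgebra 𝒜] [CommRing K₁] [CommRing A₁] [Algebra K₁ A₁] (𝒜₁ : ℕ → Submodule K₁ A₁)
  [GradedAlgebra 𝒜₁] {j : A →+* A₁} (hgr : ∀ k, ∀ x ∈ 𝒜 k, j x ∈ 𝒜₁ (2 * k))

include hgr in
theorem decompose_j (x : A) (k : ℕ) :
    (DirectSum.decompose 𝒜₁ (j x) (2 * k) : A₁) = j (DirectSum.decompose 𝒜 x k) := by
  classical
  conv_lhs => rw [← DirectSum.sum_support_decompose 𝒜 x]
  rw [map_sum, DirectSum.decompose_sum, DFinsupp.finsetSum_apply, AddSubmonoidClass.coe_finsetSum]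
  rw [Finset.sum_eq_single k]
  · exact DirectSum.decompose_of_mem_same _ (hgr k _ (DirectSum.decompose 𝒜 x k).2)
  · intro i _ hik
    exact DirectSum.decompose_of_mem_ne _ (hgr i _ (DirectSum.decompose 𝒜 x i).2) (by omega)
  · intro hk
    rw [DFinsupp.notMem_support_iff] at hk
    rw [hk, ZeroMemClass.coe_zero, map_zero, DirectSum.decompose_zero]
    rfl

end Dec

section Prime

variable {O O₁ : Type} [CommRing O] [IsLocalRing O] [CommRing O₁] [IsLocalRing O₁]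
  {κ : O →+* O₁} [IsLocalHom κ] {ω : O₁} {a b : O} (hκ : EtaleLike κ ω a b)
  {R K A : Type} [CommRing R] [CommRing K] [CommRing A] [Algebra R K] [Algebra K A]
  [Algebra R A] [IsScalarTower R K A] [Algebra O K] [Algebra O A] [IsScalarTower O K A]
  (𝒜 : ℕ → Submodule K A) [GradedAlgebra 𝒜]
  {K₁ A₁ : Type} [CommRing K₁] [CommRing A₁] [Algebra O₁ K₁] [Algebra K₁ A₁]
  [Algebra O₁ A₁] [IsScalarTower O₁ K₁ A₁]
  (𝒜₁ : ℕ → Submodule K₁ A₁) [GradedAlgebra 𝒜₁]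
  {j : A →+* A₁} (hj : ∀ o, j (algebraMap O A o) = algebraMap O₁ A₁ (κ o))
  (hgr : ∀ k, ∀ x ∈ 𝒜 k, j x ∈ 𝒜₁ (2 * k))
  (huniq : ∀ x y, j x + ω • j y = 0 → x = 0 ∧ y = 0)
  {S : Subalgebra R A} (hS : IsHomog 𝒜 S) (hOS : ∀ o : O, algebraMap O A o ∈ S)
  {T : Subalgebra O₁ A₁} (hT : IsHomog 𝒜₁ T) (hST : ∀ x ∈ S, j x ∈ T)
  (hfr : ∀ k, ∀ z ∈ T, z ∈ 𝒜₁ (2 * k) → Fr κ ω j (subO hOS) z)

/-- The homomorphism between the subalgebras. -/
def jS (hST : ∀ x ∈ S, j x ∈ T) : S →+* T :=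
  (j.comp (S.val : S →+* A)).codRestrict T.toSubring fun x => hST x x.2

omit [IsLocalRing O] [IsLocalRing O₁] [IsLocalHom κ] [IsScalarTower O K A] [Algebra O K]
  [Algebra O A] [Algebra R K] [IsScalarTower R K A] [CommRing O] [GradedAlgebra 𝒜]
  [Algebra K A] [CommRing K] [GradedAlgebra 𝒜₁] [Algebra K₁ A₁] [CommRing K₁]
  [IsScalarTower O₁ K₁ A₁] [Algebra O₁ K₁] in
theorem coe_jS (x : S) : (jS hST x : A₁) = j x := rfl

include hκ hj hgr hfr hT in
omit [IsLocalRing O] [IsLocalRing O₁] [IsLocalHom κ] [IsScalarTower O K A] [Algebra O K]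
  [IsScalarTower O₁ K₁ A₁] [Algebra O₁ K₁] in
theorem fr_of_mem_map (y : Ideal S)
    (hyh : letI := subGradedAlgebra 𝒜 hS
      y.IsHomogeneous (subGr 𝒜 S)) {z : T} (hz : z ∈ y.map (jS hST)) :
    ∀ c ∈ T, ∀ k, Fr κ ω j (idealO hOS y) (DirectSum.decompose 𝒜₁ (c * z) (2 * k) : A₁) := by
  classical
  let := subGradedAlgebra 𝒜 hS
  refine Submodule.span_induction (p := fun (z : T) _ => ∀ c ∈ T, ∀ k,
    Fr κ ω j (idealO hOS y) (DirectSum.decompose 𝒜₁ (c * (z : A₁)) (2 * k) : A₁))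
    ?_ ?_ ?_ ?_ hz
  · rintro _ ⟨s, hs, rfl⟩ c hc k
    rw [coe_jS]
    have h1 : c * j (s : A) = ∑ i ∈ (DirectSum.decompose (subGr 𝒜 S) s).support,
        c * j (((DirectSum.decompose (subGr 𝒜 S) s i : _) : S) : A) := by
      rw [← Finset.mul_sum, ← map_sum]
      congr 2
      conv_lhs => rw [← DirectSum.sum_support_decompose (subGr 𝒜 S) s]
      rw [AddSubmonoidClass.coe_finsetSum]
    rw [h1, DirectSum.decompose_sum, DFinsupp.finsetSum_apply, AddSubmonoidClass.coe_finsetSum]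
    refine Fr.sum hκ hj _ _ fun i _ => ?_
    set s' := ((DirectSum.decompose (subGr 𝒜 S) s i : _) : S) with hs'
    have hs'y : s' ∈ y := hyh i hs
    have hs'i : (s' : A) ∈ 𝒜 i := (DirectSum.decompose (subGr 𝒜 S) s i).2
    rw [DirectSum.coe_decompose_mul_of_right_mem 𝒜₁ _ (hgr i _ hs'i)]
    split_ifs with hik
    · have h2 : 2 * k - 2 * i = 2 * (k - i) := by omega
      rw [h2]
      refine Fr.mul hκ hj (N := subO hOS) (N' := idealO hOS y) ?_
        (hfr (k - i) _ (hT _ hc _) (DirectSum.decompose 𝒜₁ c (2 * (k - i))).2)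
        (Fr.of_mem ((mem_idealO hOS s').mpr hs'y))
      rintro x hx x' ⟨hx', hx''⟩
      exact ⟨S.mul_mem hx hx', y.mul_mem_left ⟨x, hx⟩ hx''⟩
    · exact Fr.zero
  · intro c _ k
    rw [ZeroMemClass.coe_zero, mul_zero, DirectSum.decompose_zero]
    exact Fr.zero
  · intro z z' _ _ h1 h2 c hc k
    rw [Subalgebra.coe_add, mul_add, DirectSum.decompose_add, DirectSum.add_apply,
      Submodule.coe_add]
    exact Fr.add hκ hj (h1 c hc k) (h2 c hc k)
  · intro c' z _ h1 c hc k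
    have h2 := h1 (c * c') (T.mul_mem hc c'.2) k
    rw [mul_assoc] at h2
    exact h2

include hκ hj hgr huniq hfr hT in
omit [IsScalarTower O K A] in
theorem notMem_map (y : Ideal S) 
    (hyh : letI := subGradedAlgebra 𝒜 hS
      y.IsHomogeneous (subGr 𝒜 S)) {s : S} (hs : s ∉ y) : jS hST s ∉ y.map (jS hST) := by
  classical
  let := subGradedAlgebra 𝒜 hS
  intro hcon
  obtain ⟨k, hk⟩ : ∃ k, ((DirectSum.decompose (subGr 𝒜 S) s k : _) : S) ∉ y := by
    by_contra h1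
    push Not at h1
    apply hs
    rw [← DirectSum.sum_support_decompose (subGr 𝒜 S) s]
    exact y.sum_mem fun i _ => h1 i
  obtain ⟨p, q, x, x', hu, hx, hx', he⟩ := fr_of_mem_map hκ 𝒜 𝒜₁ hj hgr hS hOS hT hST hfr y hyh
    hcon 1 T.one_mem k
  rw [one_mul, coe_jS, decompose_j 𝒜 𝒜₁ hgr, ← coe_decompose_subGr 𝒜 hS] at he
  set s' := ((DirectSum.decompose (subGr 𝒜 S) s k : _) : S) with hs'
  have h1 : j (p • (s' : A) - x) + ω • j (q • (s' : A) - x') = 0 := by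
    rw [map_sub, map_sub, j_smul hj, j_smul hj]
    rw [add_smul, mul_smul] at he
    rw [smul_sub]
    linear_combination he
  obtain ⟨h2, h3⟩ := huniq _ _ h1
  have key : ∀ {o : O}, IsUnit o → o • (s' : A) ∈ idealO hOS y → s' ∈ y := by
    intro o ho h4
    obtain ⟨o, rfl⟩ := ho
    have h5 := (idealO hOS y).smul_mem ((o⁻¹ : Oˣ) : O) h4
    rw [smul_smul, Units.inv_mul, one_smul] at h5
    exact (mem_idealO hOS s').mp h5
  rcases isUnit_or_of_local hu with hp | hq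
  · exact hk (key hp (by rw [sub_eq_zero.mp h2]; exact hx))
  · exact hk (key hq (by rw [sub_eq_zero.mp h3]; exact hx'))

include hκ hj hgr huniq hfr in
omit [IsScalarTower O K A] in
/-- A homogeneous prime ideal over a given one. -/
theorem exists_prime_over (y : Ideal S) [hy : y.IsPrime]
    (hyh : letI := subGradedAlgebra 𝒜 hS
      y.IsHomogeneous (subGr 𝒜 S)) :
    letI := subGradedAlgebra 𝒜₁ hT
    ∃ Y : Ideal T, Y.IsPrime ∧ Y.IsHomogeneous (subGr 𝒜₁ T) ∧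
      (∀ s, s ∉ y → jS hST s ∉ Y) ∧
      ∀ k, ∀ s : S, (s : A) ∈ 𝒜 k → s ∈ y → jS hST s ∈ Y := by
  classical
  let := subGradedAlgebra 𝒜 hS
  let := subGradedAlgebra 𝒜₁ hT
  obtain ⟨P, hP, hle, hdis⟩ := Ideal.exists_le_prime_disjoint (y.map (jS hST))
    (y.primeCompl.map (jS hST)) (by
      rw [Set.disjoint_left]
      rintro _ h1 ⟨s, hs, rfl⟩
      exact notMem_map hκ 𝒜 𝒜₁ hj hgr huniq hS hOS hT hST hfr y hyh hs h1)
  refine ⟨(P.homogeneousCore (subGr 𝒜₁ T)).toIdeal, Ideal.IsPrime.homogeneousCore hP,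
    (P.homogeneousCore (subGr 𝒜₁ T)).isHomogeneous, ?_, ?_⟩
  · intro s hs h1
    exact Set.disjoint_left.mp hdis (Ideal.toIdeal_homogeneousCore_le (subGr 𝒜₁ T) P h1) ⟨s, hs, rfl⟩
  · intro k s hsk hs
    apply Ideal.subset_span
    refine ⟨⟨jS hST s, ⟨2 * k, ?_⟩⟩, ?_, rfl⟩
    · exact hgr k _ hsk
    · exact hle (Ideal.mem_map_of_mem _ hs)

end Prime

end Pool.Agent.Lib.MP_6a3dac_ag
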