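import Pool.Agent.Lib.MP_6a3dac_ag.QuatDefs

/-!
# Quaternionic forms over quadratic extensions
-/

set_option autoImplicit false

namespace Pool.Agent.Lib.MP_6a3dac_ag

open MvPolynomial
open scoped Quaternion

section Data

/-- A commutative algebra `W` with a root `ω` of `X ^ 2 - b X - a` and a conjugation `σ`. -/
structure QData {K W : Type} [CommRing K] [CommRing W] [Algebra K W] (a b : K) (ω : W)
    (σ : W →+* W) : Prop where
  om : ω * ω = algebraMap K W a + algebraMap K W b * ω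
  alg : ∀ r : K, σ (algebraMap K W r) = algebraMap K W r
  conj : σ ω = algebraMap K W b - ω

variable {K W : Type} [CommRing K] [CommRing W] [Algebra K W] {a b c : K} {ω : W} {σ : W →+* W}
  (hQ : QData a b ω σ)

/-- The component `u`. -/
def gU (ω : W) (d : ℍ[K,a,b,c]) : W := algebraMap K W d.re + algebraMap K W d.imI * ω

/-- The component `v`. -/
def gV (ω : W) (d : ℍ[K,a,b,c]) : W := algebraMap K W d.imJ + algebraMap K W d.imK * ω

theorem gU_add (d e : ℍ[K,a,b,c]) : gU ω (d + e) = gU ω d + gU ω e := by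
  simp only [gU, QuaternionAlgebra.re_add, QuaternionAlgebra.imI_add, map_add]; ring

theorem gV_add (d e : ℍ[K,a,b,c]) : gV ω (d + e) = gV ω d + gV ω e := by
  simp only [gV, QuaternionAlgebra.imJ_add, QuaternionAlgebra.imK_add, map_add]; ring

theorem gU_smul (r : K) (d : ℍ[K,a,b,c]) : gU ω (r • d) = algebraMap K W r * gU ω d := by
  simp only [gU, QuaternionAlgebra.re_smul, QuaternionAlgebra.imI_smul, smul_eq_mul, map_mul]; ring

theorem gV_smul (r : K) (d : ℍ[K,a,b,c]) : gV ω (r • d) = algebraMap K W r * gV ω d := by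
  simp only [gV, QuaternionAlgebra.imJ_smul, QuaternionAlgebra.imK_smul, smul_eq_mul, map_mul]; ring

theorem gU_one : gU ω (1 : ℍ[K,a,b,c]) = 1 := by
  simp [gU]

theorem gV_one : gV ω (1 : ℍ[K,a,b,c]) = 0 := by
  simp [gV]

include hQ

theorem QData.conj_conj_om : σ (σ ω) = ω := by
  rw [hQ.conj, map_sub, hQ.alg, hQ.conj]; ring

theorem gU_mul (d e : ℍ[K,a,b,c]) :
    gU ω (d * e) = gU ω d * gU ω e + algebraMap K W c * gV ω d * σ (gV ω e) := by
  simp only [gU, gV, QuaternionAlgebra.re_mul, QuaternionAlgebra.imI_mul, map_add, map_sub,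
    map_mul, hQ.alg, hQ.conj]
  linear_combination (-(algebraMap K W d.imI * algebraMap K W e.imI) +
    algebraMap K W c * algebraMap K W d.imK * algebraMap K W e.imK) * hQ.om

theorem gV_mul (d e : ℍ[K,a,b,c]) :
    gV ω (d * e) = gU ω d * gV ω e + gV ω d * σ (gU ω e) := by
  simp only [gU, gV, QuaternionAlgebra.imJ_mul, QuaternionAlgebra.imK_mul, map_add, map_sub,
    map_mul, hQ.alg, hQ.conj]
  linear_combination (-(algebraMap K W d.imI * algebraMap K W e.imK) +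
    algebraMap K W d.imK * algebraMap K W e.imI) * hQ.om

theorem gU_star (d : ℍ[K,a,b,c]) : gU ω (star d) = σ (gU ω d) := by
  simp only [gU, QuaternionAlgebra.re_star, QuaternionAlgebra.imI_star, map_add, map_neg,
    map_mul, hQ.alg, hQ.conj]
  ring

omit hQ in
theorem gV_star (d : ℍ[K,a,b,c]) : gV ω (star d) = -gV ω d := by
  simp only [gV, QuaternionAlgebra.imJ_star, QuaternionAlgebra.imK_star, map_neg]
  ring

end Data

section Forms

variable {K W : Type} [CommRing K] [CommRing W] [Algebra K W] {a b c : K} {ω : W} {σ : W →+* W}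
  {m : ℕ}

/-- The form `z_i ρ(u + v j) η z_jᵀ` for `u` and `v` in `W`. -/
noncomputable def gF (σ : W →+* W) (c : W) (i j : Fin m) (u v : W) :
    MvPolynomial (Fin m ⊕ Fin m) W :=
  C v * (X (Sum.inl i) * X (Sum.inl j)) - C u * (X (Sum.inl i) * X (Sum.inr j)) +
    C (σ u) * (X (Sum.inr i) * X (Sum.inl j)) -
    C (c * σ v) * (X (Sum.inr i) * X (Sum.inr j))

/-- The form `z_i ρ(d) η z_jᵀ`. -/
noncomputable def gQ (ω : W) (σ : W →+* W) (i j : Fin m) (d : ℍ[K,a,b,c]) :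
    MvPolynomial (Fin m ⊕ Fin m) W :=
  gF σ (algebraMap K W c) i j (gU ω d) (gV ω d)

/-- The quadratic form attached to a matrix. -/
noncomputable def gPoly (ω : W) (σ : W →+* W) (H : Matrix (Fin m) (Fin m) ℍ[K,a,b,c]) :
    MvPolynomial (Fin m ⊕ Fin m) W :=
  ∑ i, ∑ j, gQ ω σ i j (H i j)

theorem gF_add (c : W) (i j : Fin m) (u v u' v' : W) :
    gF σ c i j (u + u') (v + v') = gF σ c i j u v + gF σ c i j u' v' := by
  simp only [gF, map_add, mul_add]; ring

theorem gQ_add (i j : Fin m) (d e : ℍ[K,a,b,c]) :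
    gQ ω σ i j (d + e) = gQ ω σ i j d + gQ ω σ i j e := by
  rw [gQ, gU_add, gV_add, gF_add]; rfl

theorem gQ_zero (i j : Fin m) : gQ ω σ i j (0 : ℍ[K,a,b,c]) = 0 := by
  have h := gQ_add (ω := ω) (σ := σ) i j (0 : ℍ[K,a,b,c]) 0
  rw [add_zero] at h
  exact left_eq_add.mp h

theorem gQ_sum {ι : Type} (s : Finset ι) (i j : Fin m) (f : ι → ℍ[K,a,b,c]) :
    gQ ω σ i j (∑ k ∈ s, f k) = ∑ k ∈ s, gQ ω σ i j (f k) := by
  classical
  induction s using Finset.induction_on with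
  | empty => simp [gQ_zero]
  | insert x s hx ih => rw [Finset.sum_insert hx, Finset.sum_insert hx, gQ_add, ih]

theorem gQ_smul (hQ : QData a b ω σ) (r : K) (i j : Fin m) (d : ℍ[K,a,b,c]) :
    gQ ω σ i j (r • d) = C (algebraMap K W r) * gQ ω σ i j d := by
  simp only [gQ, gF, gU_smul, gV_smul, map_mul, hQ.alg]; ring

theorem gF_isHomogeneous (c : W) (i j : Fin m) (u v : W) : (gF σ c i j u v).IsHomogeneous 2 := by
  have h : ∀ (u : W) (v w : Fin m ⊕ Fin m),
      (C u * (X v * X w) : MvPolynomial (Fin m ⊕ Fin m) W).IsHomogeneous 2 := by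
    intro u v w
    have h3 := (isHomogeneous_C (Fin m ⊕ Fin m) u).mul
      ((isHomogeneous_X W v).mul (isHomogeneous_X _ w))
    simpa using h3
  exact (((h _ _ _).sub (h _ _ _)).add (h _ _ _)).sub (h _ _ _)

theorem gQ_isHomogeneous (i j : Fin m) (d : ℍ[K,a,b,c]) : (gQ ω σ i j d).IsHomogeneous 2 :=
  gF_isHomogeneous _ _ _ _ _

theorem gPoly_isHomogeneous (H : Matrix (Fin m) (Fin m) ℍ[K,a,b,c]) :
    (gPoly ω σ H).IsHomogeneous 2 :=
  IsHomogeneous.sum _ _ _ fun _ _ => IsHomogeneous.sum _ _ _ fun _ _ => gQ_isHomogeneous _ _ _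

/-- The substitution `z_i ↦ ∑ z_k ρ(G_ki)`. -/
noncomputable def eG (ω : W) (σ : W →+* W) (G : Matrix (Fin m) (Fin m) ℍ[K,a,b,c]) :
    MvPolynomial (Fin m ⊕ Fin m) W →ₐ[W] MvPolynomial (Fin m ⊕ Fin m) W :=
  aeval (Sum.elim
    (fun i => ∑ k, (C (gU ω (G k i)) * X (Sum.inl k) +
      C (algebraMap K W c * σ (gV ω (G k i))) * X (Sum.inr k)))
    (fun i => ∑ k, (C (gV ω (G k i)) * X (Sum.inl k) + C (σ (gU ω (G k i))) * X (Sum.inr k))))

theorem eG_inl (G : Matrix (Fin m) (Fin m) ℍ[K,a,b,c]) (i : Fin m) :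
    eG ω σ G (X (Sum.inl i)) = ∑ k, (C (gU ω (G k i)) * X (Sum.inl k) +
      C (algebraMap K W c * σ (gV ω (G k i))) * X (Sum.inr k)) := by
  simp [eG]

theorem eG_inr (G : Matrix (Fin m) (Fin m) ℍ[K,a,b,c]) (i : Fin m) :
    eG ω σ G (X (Sum.inr i)) = ∑ k, (C (gV ω (G k i)) * X (Sum.inl k) +
      C (σ (gU ω (G k i))) * X (Sum.inr k)) := by
  simp [eG]

theorem eG_C (G : Matrix (Fin m) (Fin m) ℍ[K,a,b,c]) (r : W) : eG ω σ G (C r) = C r := by
  simp [eG, algebraMap_eq]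

/-- The forms transform as expected. -/
theorem eG_gQ (hQ : QData a b ω σ) (hσ : ∀ w, σ (σ w) = w)
    (G : Matrix (Fin m) (Fin m) ℍ[K,a,b,c]) (i j : Fin m) (d : ℍ[K,a,b,c]) :
    eG ω σ G (gQ ω σ i j d) = ∑ k, ∑ l, gQ ω σ k l (G k i * d * star (G l j)) := by
  have h1 : eG ω σ G (gQ ω σ i j d) =
      C (gV ω d) * (eG ω σ G (X (Sum.inl i)) * eG ω σ G (X (Sum.inl j))) -
      C (gU ω d) * (eG ω σ G (X (Sum.inl i)) * eG ω σ G (X (Sum.inr j))) +
      C (σ (gU ω d)) * (eG ω σ G (X (Sum.inr i)) * eG ω σ G (X (Sum.inl j))) -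
      C (algebraMap K W c * σ (gV ω d)) *
        (eG ω σ G (X (Sum.inr i)) * eG ω σ G (X (Sum.inr j))) := by
    simp only [gQ, gF, map_sub, map_add, map_mul (eG ω σ G), eG_C]
  rw [h1, eG_inl, eG_inl, eG_inr, eG_inr,
    Finset.sum_mul_sum, Finset.sum_mul_sum, Finset.sum_mul_sum, Finset.sum_mul_sum]
  simp only [Finset.mul_sum, ← Finset.sum_sub_distrib, ← Finset.sum_add_distrib]
  refine Finset.sum_congr rfl fun k _ => Finset.sum_congr rfl fun l _ => ?_
  simp only [gQ, gF, gU_mul hQ, gV_mul hQ, gU_star hQ, gV_star, map_mul, map_add, map_neg, hQ.alg,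
    hσ]
  ring

end Forms

end Pool.Agent.Lib.MP_6a3dac_ag
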