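import Pool.Agent.Lib.MP_6a3dac_ag.DescPrime
import Pool.Agent.Lib.MP_6a3dac_ag.EvenAdjoin
import Pool.Agent.Lib.MP_6a3dac_ag.QuatGen
import Pool.Agent.Lib.MP_6a3dac_ag.Mg.G007

/-!
# Homomorphisms onto a form of the even part of a graded algebra
-/

set_option autoImplicit false
set_option linter.unusedSectionVars false

namespace Pool.Agent.Lib.MP_6a3dac_ag

section Comp

variable {K A : Type} [CommRing K] [CommRing A] [Algebra K A] (𝒜 : ℕ → Submodule K A)
  [GradedAlgebra 𝒜]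

/-- Induction over the homogeneous elements of an algebra generated in degree one. -/
theorem comp_induction {Λ : Set A} (hΛ : Algebra.adjoin K Λ = ⊤) (hΛ1 : ∀ g ∈ Λ, g ∈ 𝒜 1)
    (P : ℕ → A → Prop) (h0 : ∀ k, P k 0) (hadd : ∀ k x y, P k x → P k y → P k (x + y))
    (hK : ∀ r, P 0 (algebraMap K A r)) (hg : ∀ g ∈ Λ, P 1 g)
    (hmul : ∀ k l x y, P k x → P l y → P (k + l) (x * y)) : ∀ k, ∀ x ∈ 𝒜 k, P k x := by
  classical
  have key : ∀ x : A, ∀ k, P k (DirectSum.decompose 𝒜 x k : A) := by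
    intro x
    have hx : x ∈ Algebra.adjoin K Λ := by rw [hΛ]; trivial
    induction hx using Algebra.adjoin_induction with
    | mem x hx =>
      intro k
      by_cases h : 1 = k
      · subst h
        rw [DirectSum.decompose_of_mem_same 𝒜 (hΛ1 x hx)]
        exact hg x hx
      · rw [DirectSum.decompose_of_mem_ne 𝒜 (hΛ1 x hx) h]
        exact h0 k
    | algebraMap r =>
      intro k
      have hr : algebraMap K A r ∈ 𝒜 0 := SetLike.algebraMap_mem_graded 𝒜 r
      by_cases h : 0 = k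
      · subst h
        rw [DirectSum.decompose_of_mem_same 𝒜 hr]
        exact hK r
      · rw [DirectSum.decompose_of_mem_ne 𝒜 hr h]
        exact h0 k
    | add x y _ _ hx hy =>
      intro k
      rw [DirectSum.decompose_add, DirectSum.add_apply, Submodule.coe_add]
      exact hadd _ _ _ (hx k) (hy k)
    | mul x y _ _ hx hy =>
      intro k
      have hsum : (DirectSum.decompose 𝒜 (x * y) k : A) =
          ∑ j ∈ (DirectSum.decompose 𝒜 x).support,
            (DirectSum.decompose 𝒜 ((DirectSum.decompose 𝒜 x j : A) * y) k : A) := by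
        conv_lhs => rw [← DirectSum.sum_support_decompose 𝒜 x]
        rw [Finset.sum_mul, DirectSum.decompose_sum, DFinsupp.finsetSum_apply,
          AddSubmonoidClass.coe_finsetSum]
      rw [hsum]
      have hs : ∀ (s : Finset ℕ) (f : ℕ → A), (∀ i ∈ s, P k (f i)) → P k (∑ i ∈ s, f i) := by
        intro s f hf
        induction s using Finset.induction_on with
        | empty => simpa using h0 k
        | insert i s hi ih =>
          rw [Finset.sum_insert hi]
          exact hadd _ _ _ (hf i (Finset.mem_insert_self i s))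
            (ih fun l hl => hf l (Finset.mem_insert_of_mem hl))
      refine hs _ _ fun i _ => ?_
      rw [DirectSum.coe_decompose_mul_of_left_mem 𝒜 _ (DirectSum.decompose 𝒜 x i).2]
      split_ifs with hik
      · have h1 := hmul i (k - i) _ _ (hx i) (hy (k - i))
        rwa [Nat.add_sub_cancel' hik] at h1
      · exact h0 k
  intro k x hx
  have h1 := key x k
  rwa [DirectSum.decompose_of_mem_same 𝒜 hx] at h1

end Comp

section Even

variable {K K₁ A A₁ : Type} [CommRing K] [Field K₁] [Algebra K K₁] [CommRing A] [Algebra K A]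
  (𝒜 : ℕ → Submodule K A) [GradedAlgebra 𝒜] [CommRing A₁] [Algebra K₁ A₁]
  (𝒜₁ : ℕ → Submodule K₁ A₁) [GradedAlgebra 𝒜₁] (ω : K₁) (j : A →+* A₁)

/-- The homomorphism `j` identifies `A ⊗ K₁` with the even part of `A₁`. -/
structure EvenMap : Prop where
  alg : ∀ r : K, j (algebraMap K A r) = algebraMap K₁ A₁ (algebraMap K K₁ r)
  gr : ∀ k, ∀ x ∈ 𝒜 k, j x ∈ 𝒜₁ (2 * k)
  exi : ∀ k, ∀ f ∈ 𝒜₁ (2 * k), ∃ s ∈ 𝒜 k, ∃ s' ∈ 𝒜 k, f = j s + ω • j s'
  uniq : ∀ s s', j s + ω • j s' = 0 → s = 0 ∧ s' = 0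

variable {𝒜 𝒜₁ ω j}

/-- The elements `j s + ω j s'` form a subalgebra. -/
theorem mem_rangeOm {a b : K} {σ : K₁ →+* K₁} (hQ : QData a b ω σ)
    (alg : ∀ r : K, j (algebraMap K A r) = algebraMap K₁ A₁ (algebraMap K K₁ r))
    (hbas : ∀ z : K₁, ∃ x y : K, z = algebraMap K K₁ x + algebraMap K K₁ y * ω) {F : Set A₁}
    (hF : ∀ f ∈ F, ∃ s s', f = j s + ω • j s') {f : A₁} (hf : f ∈ Algebra.adjoin K₁ F) :
    ∃ s s', f = j s + ω • j s' := by
  induction hf using Algebra.adjoin_induction with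
  | mem f hf => exact hF f hf
  | algebraMap z =>
    obtain ⟨x, y, rfl⟩ := hbas z
    refine ⟨algebraMap K A x, algebraMap K A y, ?_⟩
    rw [map_add, map_mul, alg, alg, Algebra.smul_def]
    ring
  | add f g _ _ hf hg =>
    obtain ⟨s, s', rfl⟩ := hf
    obtain ⟨t, t', rfl⟩ := hg
    refine ⟨s + t, s' + t', ?_⟩
    rw [map_add, map_add, smul_add]
    ring
  | mul f g _ _ hf hg =>
    obtain ⟨s, s', rfl⟩ := hf
    obtain ⟨t, t', rfl⟩ := hg
    refine ⟨s * t + algebraMap K A a * (s' * t'),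
      s * t' + s' * t + algebraMap K A b * (s' * t'), ?_⟩
    have h1 : (algebraMap K₁ A₁ ω) * (algebraMap K₁ A₁ ω) =
        algebraMap K₁ A₁ (algebraMap K K₁ a) +
        algebraMap K₁ A₁ (algebraMap K K₁ b) * algebraMap K₁ A₁ ω := by
      rw [← map_mul, hQ.om, map_add, map_mul]
    simp only [map_add, map_mul, alg, Algebra.smul_def]
    linear_combination (j s' * j t') * h1

theorem evenMap_of_gens {a b : K} {σ : K₁ →+* K₁} (hQ : QData a b ω σ) (hσ : ω - σ ω ≠ 0)
    (hbas : ∀ z : K₁, ∃ x y : K, z = algebraMap K K₁ x + algebraMap K K₁ y * ω)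
    {Λ : Set A} (hΛ : Algebra.adjoin K Λ = ⊤) (hΛ1 : ∀ g ∈ Λ, g ∈ 𝒜 1)
    (alg : ∀ r : K, j (algebraMap K A r) = algebraMap K₁ A₁ (algebraMap K K₁ r))
    (hjΛ : ∀ g ∈ Λ, j g ∈ 𝒜₁ 2) (hinj : Function.Injective j)
    {F₁ : Set A₁} (hF₁ : Algebra.adjoin K₁ F₁ = ⊤) (hF₁1 : ∀ f ∈ F₁, f ∈ 𝒜₁ 1)
    (hpair : ∀ f ∈ F₁, ∀ g ∈ F₁, ∃ s s', f * g = j s + ω • j s')
    (τ : A₁ →+* A₁) (hτ : ∀ w, τ (algebraMap K₁ A₁ w) = algebraMap K₁ A₁ (σ w)) {γ : K₁}
    (hγ : γ ≠ 0) (hτΛ : ∀ g ∈ Λ, τ (j g) = γ • j g) :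
    EvenMap 𝒜 𝒜₁ ω j ∧ ∀ k, ∀ x ∈ 𝒜 k, τ (j x) = γ ^ k • j x := by
  have hgr : ∀ k, ∀ x ∈ 𝒜 k, j x ∈ 𝒜₁ (2 * k) := by
    refine comp_induction 𝒜 hΛ hΛ1 (fun k x => j x ∈ 𝒜₁ (2 * k)) ?_ ?_ ?_ ?_ ?_
    · intro k
      rw [map_zero]
      exact Submodule.zero_mem _
    · intro k x y hx hy
      rw [map_add]
      exact Submodule.add_mem _ hx hy
    · intro r
      rw [alg]
      exact SetLike.algebraMap_mem_graded 𝒜₁ _
    · intro g hg
      exact hjΛ g hg
    · intro k l x y hx hy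
      rw [map_mul, mul_add]
      exact SetLike.mul_mem_graded hx hy
  have hτj : ∀ k, ∀ x ∈ 𝒜 k, τ (j x) = γ ^ k • j x := by
    refine comp_induction 𝒜 hΛ hΛ1 (fun k x => τ (j x) = γ ^ k • j x) ?_ ?_ ?_ ?_ ?_
    · intro k
      simp
    · intro k x y hx hy
      rw [map_add, map_add, hx, hy, smul_add]
    · intro r
      rw [alg, hτ, hQ.alg, pow_zero, one_smul]
    · intro g hg
      rw [pow_one]
      exact hτΛ g hg
    · intro k l x y hx hy
      rw [map_mul, map_mul, hx, hy, pow_add, smul_mul_smul_comm]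
  refine ⟨⟨alg, hgr, ?_, ?_⟩, hτj⟩
  · intro k f hf
    have h1 : f ∈ Algebra.adjoin K₁ (evenGens 𝒜₁ F₁) :=
      even_adjoin (R := K₁) (fun x hx => ⟨1, hF₁1 x hx⟩) (by rw [hF₁]; trivial) hf
    obtain ⟨s, s', hs⟩ := mem_rangeOm hQ alg hbas (F := evenGens 𝒜₁ F₁) (by
      rintro x (⟨hx, l, hl⟩ | ⟨f, g, ⟨hf, _⟩, ⟨hg, _⟩, rfl⟩)
      · refine ⟨0, 0, ?_⟩
        have h2 := DirectSum.decompose_of_mem_ne 𝒜₁ (hF₁1 x hx) (j := 2 * l) (by omega)
        rw [DirectSum.decompose_of_mem_same 𝒜₁ hl] at h2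
        rw [h2, map_zero, smul_zero, add_zero]
      · exact hpair f hf g hg) h1
    refine ⟨_, (DirectSum.decompose 𝒜 s k).2, _, (DirectSum.decompose 𝒜 s' k).2, ?_⟩
    have h2 := congrArg (fun w => (DirectSum.decompose 𝒜₁ w (2 * k) : A₁)) hs
    simp only [DirectSum.decompose_add, DirectSum.add_apply, Submodule.coe_add,
      DirectSum.decompose_smul, DirectSum.smul_apply, Submodule.coe_smul] at h2
    rw [DirectSum.decompose_of_mem_same 𝒜₁ hf, decompose_j 𝒜 𝒜₁ hgr,
      decompose_j 𝒜 𝒜₁ hgr] at h2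
    exact h2
  · intro s s' hs
    have key : ∀ k, (DirectSum.decompose 𝒜 s k : A) = 0 ∧ (DirectSum.decompose 𝒜 s' k : A) = 0 := by
      intro k
      have h2 := congrArg (fun w => (DirectSum.decompose 𝒜₁ w (2 * k) : A₁)) hs
      simp only [DirectSum.decompose_add, DirectSum.add_apply, Submodule.coe_add,
        DirectSum.decompose_smul, DirectSum.smul_apply, Submodule.coe_smul,
        DirectSum.decompose_zero, DirectSum.zero_apply, ZeroMemClass.coe_zero] at h2
      rw [decompose_j 𝒜 𝒜₁ hgr, decompose_j 𝒜 𝒜₁ hgr] at h2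
      set u : A := (DirectSum.decompose 𝒜 s k : A)
      set u' : A := (DirectSum.decompose 𝒜 s' k : A)
      have h3 : τ (j u) = γ ^ k • j u := hτj k _ (DirectSum.decompose 𝒜 s k).2
      have h3' : τ (j u') = γ ^ k • j u' := hτj k _ (DirectSum.decompose 𝒜 s' k).2
      have h4 := congrArg τ h2
      rw [map_add, Algebra.smul_def, map_mul, hτ, h3, h3', map_zero, ← Algebra.smul_def,
        smul_comm (σ ω), ← smul_add] at h4
      have h5 : j u + σ ω • j u' = 0 := by
        rcases smul_eq_zero.mp h4 with h | h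
        · exact absurd h (pow_ne_zero k hγ)
        · exact h
      have h6 : (ω - σ ω) • j u' = 0 := by
        rw [sub_smul]
        linear_combination h2 - h5
      have h7 : j u' = 0 := (smul_eq_zero.mp h6).resolve_left hσ
      have h8 : j u = 0 := by rw [h7, smul_zero, add_zero] at h2; exact h2
      exact ⟨hinj (by rw [h8, map_zero]), hinj (by rw [h7, map_zero])⟩
    have key2 : ∀ x : A, (∀ k, (DirectSum.decompose 𝒜 x k : A) = 0) → x = 0 := by
      classical
      intro x hx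
      rw [← DirectSum.sum_support_decompose 𝒜 x]
      exact Finset.sum_eq_zero fun i _ => hx i
    exact ⟨key2 s fun k => (key k).1, key2 s' fun k => (key k).2⟩

end Even

end Pool.Agent.Lib.MP_6a3dac_ag
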