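import Pool.Agent.Lib.MP_6a3dac_ag.EvenMap

/-!
# Composites and quotients of even maps
-/

set_option autoImplicit false
set_option linter.unusedSectionVars false

namespace Pool.Agent.Lib.MP_6a3dac_ag

variable {K K₁ A A₁ : Type} [CommRing K] [Field K₁] [Algebra K K₁] [CommRing A] [Algebra K A]
  {𝒜 : ℕ → Submodule K A} [CommRing A₁] [Algebra K₁ A₁]
  {𝒜₁ : ℕ → Submodule K₁ A₁} {ω : K₁} {j : A →+* A₁}

/-- Composition with a graded isomorphism. -/
theorem EvenMap.comp_equiv (h : EvenMap 𝒜 𝒜₁ ω j) {A₂ : Type} [CommRing A₂] [Algebra K₁ A₂]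
    {𝒜₂ : ℕ → Submodule K₁ A₂} (e : A₁ →ₐ[K₁] A₂) (e' : A₂ →ₐ[K₁] A₁)
    (he : ∀ x, e' (e x) = x) (he' : ∀ x, e (e' x) = x) (hgr : ∀ k, ∀ x ∈ 𝒜₁ k, e x ∈ 𝒜₂ k)
    (hgr' : ∀ k, ∀ x ∈ 𝒜₂ k, e' x ∈ 𝒜₁ k) : EvenMap 𝒜 𝒜₂ ω ((e : A₁ →+* A₂).comp j) where
  alg r := by
    rw [RingHom.comp_apply, h.alg]
    exact e.commutes _
  gr k x hx := hgr _ _ (h.gr k x hx)
  exi k f hf := by
    obtain ⟨s, hs, s', hs', h1⟩ := h.exi k _ (hgr' _ f hf)
    refine ⟨s, hs, s', hs', ?_⟩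
    have h2 := congrArg e h1
    rw [he', map_add, map_smul] at h2
    exact h2
  uniq s s' hs := by
    apply h.uniq
    have h2 := congrArg e' hs
    rw [map_add, map_smul, map_zero] at h2
    change e' (e (j s)) + ω • e' (e (j s')) = 0 at h2
    rwa [he, he] at h2

variable [GradedAlgebra 𝒜] [GradedAlgebra 𝒜₁]

/-- Quotients by a homogeneous element. -/
theorem EvenMap.quot (h : EvenMap 𝒜 𝒜₁ ω j) {B B₁ : Type} [CommRing B] [Algebra K B]
    [CommRing B₁] [Algebra K₁ B₁] {ℬ : ℕ → Submodule K B} {ℬ₁ : ℕ → Submodule K₁ B₁}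
    (π : A →ₐ[K] B) (hπ : Function.Surjective π) (π₁ : A₁ →ₐ[K₁] B₁)
    (hℬ : ∀ k, ℬ k = (𝒜 k).map π.toLinearMap) (hℬ₁ : ∀ k, ℬ₁ k = (𝒜₁ k).map π₁.toLinearMap)
    {q : A} (hker : ∀ x, π x = 0 ↔ q ∣ x) {q₁ : A₁} (hq₁ : q₁ ∈ 𝒜₁ 2)
    (hker₁ : ∀ x, π₁ x = 0 ↔ q₁ ∣ x) {u : K₁} (hu : u ≠ 0) (hqq : j q = u • q₁) :
    ∃ j' : B →+* B₁, (∀ x, j' (π x) = π₁ (j x)) ∧ EvenMap ℬ ℬ₁ ω j' := by
  classical
  have hri : Function.RightInverse (Function.surjInv hπ) (π : A →+* B) :=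
    Function.rightInverse_surjInv hπ
  have hle : RingHom.ker (π : A →+* B) ≤ RingHom.ker ((π₁ : A₁ →+* B₁).comp j) := by
    intro x hx
    have h1 : π x = 0 := hx
    obtain ⟨y, rfl⟩ := (hker x).mp h1
    rw [RingHom.mem_ker, RingHom.comp_apply, map_mul, hqq]
    change π₁ _ = 0
    rw [hker₁, smul_mul_assoc]
    exact Dvd.intro (u • j y) (by rw [mul_smul_comm])
  let j' : B →+* B₁ := RingHom.liftOfRightInverse (π : A →+* B) _ hri
    ⟨(π₁ : A₁ →+* B₁).comp j, hle⟩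
  have hj' : ∀ x, j' (π x) = π₁ (j x) := fun x =>
    RingHom.liftOfRightInverse_comp_apply (π : A →+* B) _ hri ⟨(π₁ : A₁ →+* B₁).comp j, hle⟩ x
  refine ⟨j', hj', ?_, ?_, ?_, ?_⟩
  · intro r
    have h1 : algebraMap K B r = π (algebraMap K A r) := (π.commutes r).symm
    rw [h1, hj', h.alg]
    exact π₁.commutes _
  · intro k x hx
    rw [hℬ] at hx
    obtain ⟨s, hs, rfl⟩ := hx
    change j' (π s) ∈ _
    rw [hj', hℬ₁]
    exact ⟨_, h.gr k s hs, rfl⟩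
  · intro k f hf
    rw [hℬ₁] at hf
    obtain ⟨g, hg, rfl⟩ := hf
    obtain ⟨s, hs, s', hs', h1⟩ := h.exi k g hg
    refine ⟨π s, ?_, π s', ?_, ?_⟩
    · rw [hℬ]
      exact ⟨s, hs, rfl⟩
    · rw [hℬ]
      exact ⟨s', hs', rfl⟩
    · rw [hj', hj', h1]
      change π₁ _ = _
      rw [map_add, map_smul]
  · intro x x' hx
    obtain ⟨s, rfl⟩ := hπ x
    obtain ⟨s', rfl⟩ := hπ x'
    rw [hj', hj', ← map_smul, ← map_add, hker₁] at hx
    obtain ⟨g, hg⟩ := hx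
    have key : ∀ k, q ∣ (DirectSum.decompose 𝒜 s k : A) ∧
        q ∣ (DirectSum.decompose 𝒜 s' k : A) := by
      intro k
      have h2 := congrArg (fun w => (DirectSum.decompose 𝒜₁ w (2 * k) : A₁)) hg
      simp only [DirectSum.decompose_add, DirectSum.add_apply, Submodule.coe_add,
        DirectSum.decompose_smul, DirectSum.smul_apply, Submodule.coe_smul] at h2
      rw [decompose_j 𝒜 𝒜₁ h.gr, decompose_j 𝒜 𝒜₁ h.gr,
        DirectSum.coe_decompose_mul_of_left_mem 𝒜₁ (2 * k) hq₁] at h2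
      set v : A := (DirectSum.decompose 𝒜 s k : A)
      set v' : A := (DirectSum.decompose 𝒜 s' k : A)
      split_ifs at h2 with hk
      · have h3 : 2 * k - 2 = 2 * (k - 1) := by omega
        rw [h3] at h2
        obtain ⟨t, ht, t', ht', h4⟩ := h.exi (k - 1)
          (u⁻¹ • (DirectSum.decompose 𝒜₁ g (2 * (k - 1)) : A₁))
          (Submodule.smul_mem _ _ (DirectSum.decompose 𝒜₁ g (2 * (k - 1))).2)
        have h5 : j (v - q * t) + ω • j (v' - q * t') = 0 := by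
          have h6 : q₁ * (DirectSum.decompose 𝒜₁ g (2 * (k - 1)) : A₁) =
              j q * (j t + ω • j t') := by
            rw [hqq, ← h4, smul_mul_smul_comm, mul_inv_cancel₀ hu, one_smul]
          rw [h6] at h2
          rw [map_sub, map_sub, map_mul, map_mul, smul_sub]
          rw [mul_add, mul_smul_comm] at h2
          linear_combination h2
        obtain ⟨h7, h8⟩ := h.uniq _ _ h5
        exact ⟨⟨t, sub_eq_zero.mp h7⟩, ⟨t', sub_eq_zero.mp h8⟩⟩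
      · obtain ⟨h7, h8⟩ := h.uniq _ _ h2
        rw [h7, h8]
        exact ⟨dvd_zero _, dvd_zero _⟩
    constructor
    · rw [hker, ← DirectSum.sum_support_decompose 𝒜 s]
      exact Finset.dvd_sum fun i _ => (key i).1
    · rw [hker, ← DirectSum.sum_support_decompose 𝒜 s']
      exact Finset.dvd_sum fun i _ => (key i).2

end Pool.Agent.Lib.MP_6a3dac_ag
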