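import Pool.Agent.Lib.MP_6a3dac_ag.Mg.G006

/-!
# Regularity of rings of invariants of involutions: two maximal ideals
-/

set_option autoImplicit false

namespace Pool.Agent.Lib.MP_6a3dac_ag

open IsLocalRing

/-- Regularity of the ring of invariants when the involution does not preserve the point. -/
theorem isRegularLocalRing_fixedRing_of_split {D : Type} [CommRing D] [IsLocalRing D]
    (hD : IsRegularLocalRing D) (B : Subring D) (τ : B →+* B) (hτ : ∀ z, τ (τ z) = z)
    (hloc : ∀ z : D, ∃ b q : B, IsUnit (q : D) ∧ z * q = b)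
    (hdom : ∀ a : B, τ a = a → IsUnit (a : D) → ∃ b : B, a * b = 1) (e : B)
    (he : IsUnit (e : D)) (he' : ¬ IsUnit ((τ e : B) : D)) :
    IsRegularLocalRing (fixedRing τ) := by
  classical
  let φ : fixedRing τ →+* D := B.subtype.comp (fixedRing τ).subtype
  have hφ : ∀ a : fixedRing τ, φ a = ((a : B) : D) := fun _ => rfl
  have hunit : ∀ a : fixedRing τ, IsUnit a ↔ IsUnit (φ a) := by
    intro a
    constructor
    · exact fun ha => ha.map φ
    · intro ha
      obtain ⟨b, hb⟩ := hdom a a.2 ha
      exact IsUnit.of_mul_eq_one (⟨b, dom_fixedRing τ a a.2 b hb⟩ : fixedRing τ) (Subtype.ext hb)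
  have hnt : Nontrivial (fixedRing τ) := by
    refine ⟨0, 1, fun h0 => ?_⟩
    have h1 := congrArg φ h0
    rw [map_zero, map_one] at h1
    exact zero_ne_one h1
  have hlocal : IsLocalRing (fixedRing τ) := by
    apply IsLocalRing.of_nonunits_add
    intro a b ha hb
    rw [mem_nonunits_iff, hunit] at ha hb ⊢
    rw [← mem_nonunits_iff, ← IsLocalRing.mem_maximalIdeal] at ha hb ⊢
    rw [map_add]
    exact Ideal.add_mem _ ha hb
  have hmem : ∀ a : fixedRing τ, a ∈ maximalIdeal (fixedRing τ) ↔ φ a ∈ maximalIdeal D := by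
    intro a
    rw [IsLocalRing.mem_maximalIdeal, IsLocalRing.mem_maximalIdeal, mem_nonunits_iff,
      mem_nonunits_iff, hunit]
  have hτe : ((τ e : B) : D) ∈ maximalIdeal D := by
    rw [IsLocalRing.mem_maximalIdeal, mem_nonunits_iff]
    exact he'
  -- traces
  have htr : ∀ b : B, b + τ b ∈ fixedRing τ := by
    intro b
    rw [mem_fixedRing, map_add, hτ, add_comm]
  have hunit_add : ∀ x y : D, IsUnit x → y ∈ maximalIdeal D → IsUnit (x + y) := by
    intro x y hx hy
    by_contra hcon
    have h1 : x + y ∈ maximalIdeal D := (IsLocalRing.mem_maximalIdeal _).mpr hcon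
    have h2 : x ∈ maximalIdeal D := (Ideal.add_mem_iff_left _ hy).mp h1
    rw [IsLocalRing.mem_maximalIdeal] at h2
    exact h2 hx
  -- purity
  have hpure : ∀ J : Ideal (fixedRing τ), (J.map φ).comap φ = J := by
    intro J
    apply le_antisymm _ Ideal.le_comap_map
    -- the set of elements of `B` whose multiples have traces in `J`
    let JB : Ideal B := J.map (fixedRing τ).subtype
    have hJB : ∀ b ∈ JB, (⟨b + τ b, htr b⟩ : fixedRing τ) ∈ J := by
      intro b hb
      refine Submodule.span_induction
        (p := fun b _ => ∀ c : B, (⟨c * b + τ (c * b), htr (c * b)⟩ : fixedRing τ) ∈ J)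
        ?_ ?_ ?_ ?_ hb |> fun h => by simpa using h 1
      · rintro _ ⟨a, ha, rfl⟩ c
        have h1 : (⟨c * (fixedRing τ).subtype a + τ (c * (fixedRing τ).subtype a), htr _⟩ :
            fixedRing τ) = ⟨c + τ c, htr c⟩ * a := by
          apply Subtype.ext
          change c * (a : B) + τ (c * (a : B)) = (c + τ c) * (a : B)
          rw [map_mul, show τ (a : B) = a from a.2]; ring
        rw [h1]
        exact J.mul_mem_left _ ha
      · intro c
        have h1 : (⟨c * 0 + τ (c * 0), htr _⟩ : fixedRing τ) = 0 := by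
          apply Subtype.ext
          change c * 0 + τ (c * 0) = 0
          rw [mul_zero, map_zero, add_zero]
        rw [h1]
        exact J.zero_mem
      · intro x y _ _ hx hy c
        have h1 : (⟨c * (x + y) + τ (c * (x + y)), htr _⟩ : fixedRing τ) =
            ⟨c * x + τ (c * x), htr _⟩ + ⟨c * y + τ (c * y), htr _⟩ := by
          apply Subtype.ext
          change c * (x + y) + τ (c * (x + y)) = (c * x + τ (c * x)) + (c * y + τ (c * y))
          rw [mul_add, map_add]; ring
        rw [h1]
        exact J.add_mem (hx c) (hy c)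
      · intro a x _ hx c
        have h1 : (⟨c * (a • x) + τ (c * (a • x)), htr _⟩ : fixedRing τ) =
            ⟨(c * a) * x + τ ((c * a) * x), htr _⟩ := by
          apply Subtype.ext
          change c * (a * x) + τ (c * (a * x)) = _
          rw [← mul_assoc]
        rw [h1]
        exact hx (c * a)
    have key : ∀ x ∈ J.map φ, ∃ q : B, IsUnit (q : D) ∧ ∃ b ∈ JB, x * q = (b : D) := by
      intro x hx
      refine Submodule.span_induction
        (p := fun x _ => ∃ q : B, IsUnit (q : D) ∧ ∃ b ∈ JB, x * q = (b : D)) ?_ ?_ ?_ ?_ hx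
      · rintro _ ⟨a, ha, rfl⟩
        exact ⟨1, by simp, a, Ideal.mem_map_of_mem _ ha, by simp [hφ]⟩
      · exact ⟨1, by simp, 0, JB.zero_mem, by simp⟩
      · rintro x y _ _ ⟨q, hq, b, hb, hx⟩ ⟨q', hq', b', hb', hy⟩
        refine ⟨q * q', ?_, b * q' + b' * q, JB.add_mem (JB.mul_mem_right _ hb)
          (JB.mul_mem_right _ hb'), ?_⟩
        · push_cast; exact hq.mul hq'
        · push_cast; linear_combination (q' : D) * hx + (q : D) * hy
      · rintro c x _ ⟨q, hq, b, hb, hx⟩
        obtain ⟨b', q', hq', hc⟩ := hloc c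
        refine ⟨q' * q, ?_, b' * b, JB.mul_mem_left _ hb, ?_⟩
        · push_cast; exact hq'.mul hq
        · rw [smul_eq_mul]
          push_cast
          linear_combination (q : D) * x * hc + (b' : D) * hx
    intro x hx
    obtain ⟨q, hq, b, hb, hxq⟩ := key _ hx
    -- multiply with `e`
    have h1 : (⟨b * e + τ (b * e), htr _⟩ : fixedRing τ) ∈ J := hJB _ (JB.mul_mem_right _ hb)
    let t : fixedRing τ := ⟨q * e + τ (q * e), htr _⟩
    have ht : IsUnit t := by
      rw [hunit]
      change IsUnit (((q * e + τ (q * e) : B)) : D)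
      push_cast
      apply hunit_add
      · exact hq.mul he
      · rw [map_mul]
        push_cast
        exact Ideal.mul_mem_left _ _ hτe
    have h2 : x * t = ⟨b * e + τ (b * e), htr _⟩ := by
      apply Subtype.ext
      change (x : B) * (q * e + τ (q * e)) = b * e + τ (b * e)
      have h3 : (x : B) * q = b := Subtype.ext hxq
      have h4 : τ (b * e) = (x : B) * τ (q * e) := by
        rw [← h3, mul_assoc, map_mul, show τ (x : B) = x from x.2]
      rw [h4, ← h3]; ring
    have h3 : x * t ∈ J := by rw [h2]; exact h1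
    exact (Ideal.mul_unit_mem_iff_mem J ht).mp h3
  apply isRegularLocalRing_of_comap_map φ hpure _ hD
  apply le_antisymm
  · rw [Ideal.map_le_iff_le_comap]
    intro a ha
    exact (hmem a).mp ha
  · intro z hz
    obtain ⟨b, q, hq, hzq⟩ := hloc z
    obtain ⟨q', hq'⟩ := (hq.mul he).exists_right_inv
    -- the difference of `e`
    have hΔ : IsUnit (((e - τ e : B)) : D) := by
      push_cast
      rw [sub_eq_add_neg]
      exact hunit_add _ _ he (by rw [Ideal.neg_mem_iff]; exact hτe)
    have hsq : τ ((e - τ e) * (e - τ e)) = (e - τ e) * (e - τ e) := by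
      rw [map_mul, map_sub, hτ]; ring
    obtain ⟨d, hd⟩ := hdom _ hsq (by push_cast; push_cast at hΔ; exact hΔ.mul hΔ)
    have hdτ : τ d = d := dom_fixedRing τ _ hsq d hd
    -- the coefficients
    let β : fixedRing τ := ⟨(b * e - τ (b * e)) * (e - τ e) * d, by
      rw [mem_fixedRing, map_mul, map_mul, map_sub, map_sub, hτ, hτ, hdτ]; ring⟩
    have hβe : ((β : B)) * (e - τ e) = b * e - τ (b * e) := by
      change (b * e - τ (b * e)) * (e - τ e) * d * (e - τ e) = _
      linear_combination (b * e - τ (b * e)) * hd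
    let α : fixedRing τ := ⟨b * e - β * e, by
      rw [mem_fixedRing, map_sub, map_mul τ (β : B), show τ (β : B) = β from β.2]
      linear_combination hβe⟩
    have hb : (b : D) ∈ maximalIdeal D := by
      rw [← hzq]
      exact Ideal.mul_mem_right _ _ hz
    have hβm : β ∈ maximalIdeal (fixedRing τ) := by
      rw [hmem]
      change (((b * e - τ (b * e)) * (e - τ e) * d : B) : D) ∈ _
      push_cast
      rw [mul_assoc]
      apply Ideal.mul_mem_right
      apply Ideal.sub_mem
      · exact Ideal.mul_mem_right _ _ hb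
      · rw [map_mul]
        push_cast
        exact Ideal.mul_mem_left _ _ hτe
    have hαm : α ∈ maximalIdeal (fixedRing τ) := by
      rw [hmem]
      change ((b * e - β * e : B) : D) ∈ _
      push_cast
      exact Ideal.sub_mem _ (Ideal.mul_mem_right _ _ hb)
        (Ideal.mul_mem_right _ _ ((hmem β).mp hβm))
    have h1 : z = (φ α + φ β * (e : D)) * q' := by
      rw [hφ, hφ]
      have h2 : ((α : B) : D) + ((β : B) : D) * (e : D) = (b : D) * e := by
        change ((b * e - β * e : B) : D) + ((β : B) : D) * (e : D) = _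
        push_cast
        ring
      rw [h2, ← hzq]
      linear_combination (-z) * hq'
    rw [h1]
    exact Ideal.mul_mem_right _ _ (Ideal.add_mem _ (Ideal.mem_map_of_mem φ hαm)
      (Ideal.mul_mem_right _ _ (Ideal.mem_map_of_mem φ hβm)))

end Pool.Agent.Lib.MP_6a3dac_ag
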