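import Pool.Agent.Lib.MP_6a3dac_ag.Mg.G002
import Pool.Agent.Lib.MP_6a3dac_ag.QWInvSplit

/-!
# Regularity of the invariants of an involution of a graded ring
-/

set_option autoImplicit false

namespace Pool.Agent.Lib.MP_6a3dac_ag

open HomogeneousLocalization

section

variable {R K A L M F : Type} [CommRing R] [CommRing K] [CommRing A] [Algebra R K] [Algebra K A]
  [Algebra R A] [IsScalarTower R K A] [CommRing L] [CommRing M] [Algebra R L] [Algebra L M]
  [Algebra R M] [IsScalarTower R L M] [Field F]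
  (𝒜 : ℕ → Submodule K A) [GradedAlgebra 𝒜] (ℳ : ℕ → Submodule L M) [GradedAlgebra ℳ]
  (j : A →+* M) (ι : M →+* F) (S : Subalgebra R A) (T : Subalgebra R M)

/-- **Regularity of the ring of invariants at all homogeneous primes.** -/
theorem regAt_of_involution (hj : Function.Injective j) (hι : Function.Injective ι)
    (hgr : ∀ n a, a ∈ 𝒜 n ↔ j a ∈ ℳ n) (τ : M →+* M) (hτ : ∀ m, τ (τ m) = m)
    (hτgr : ∀ n m, m ∈ ℳ n → τ m ∈ ℳ n) (hfix : ∀ m, τ m = m → ∃ a, j a = m)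
    (hfix' : ∀ a, τ (j a) = j a) (hST : ∀ a, a ∈ S ↔ j a ∈ T) (hTτ : ∀ t ∈ T, τ t ∈ T)
    (τF : F →+* F) (hτF : ∀ m, τF (ι m) = ι (τ m)) (hτF2 : ∀ z, τF (τF z) = z)
    (H : ∀ (Q : Ideal T) (_ : Q.IsPrime), (∃ n, 0 < n ∧ ∃ t : T, (t : M) ∈ ℳ n ∧ t ∉ Q) →
      IsRegularLocalRing (homLoc ℳ ι T Q) ∧
      ((∀ z ∈ homLoc ℳ ι T Q, τF z ∈ homLoc ℳ ι T Q) →
        ∃ y ∈ homLoc ℳ ι T Q, τF y - y ≠ 0 ∧ ∀ z ∈ homLoc ℳ ι T Q,
          ∃ c ∈ homLoc ℳ ι T Q, τF z - z = c * (τF y - y))) :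
    RegAt 𝒜 S := by
  classical
  intro hS y hyp hyh hirr
  let := subGradedAlgebra 𝒜 hS
  -- going up
  let jT : S →+* T := (j.comp (S.val : S →+* A)).codRestrict T.toSubring fun s => (hST s).mp s.2
  have hjT : ∀ s : S, ((jT s : T) : M) = j s := fun _ => rfl
  have hjTinj : Function.Injective jT := by
    intro a b hab
    apply Subtype.ext
    apply hj
    rw [← hjT, ← hjT, hab]
  have hlift : ∀ t : T, τ t = t → ∃ s : S, jT s = t := by
    intro t ht
    obtain ⟨a, ha⟩ := hfix t ht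
    exact ⟨⟨a, (hST a).mpr (by rw [ha]; exact t.2)⟩, Subtype.ext ha⟩
  obtain ⟨Q, hQp, hQ⟩ : ∃ Q : Ideal T, Q.IsPrime ∧ ∀ s : S, jT s ∈ Q ↔ s ∈ y := by
    let : Algebra S T := jT.toAlgebra
    have : Algebra.IsIntegral S T := by
      refine ⟨fun t => ?_⟩
      let τt : T := ⟨τ t, hTτ t t.2⟩
      obtain ⟨a, ha⟩ := hlift (t + τt) (by
        change τ ((t : M) + τ t) = t + τ t
        rw [map_add, hτ, add_comm])
      obtain ⟨b, hb⟩ := hlift (t * τt) (by
        change τ ((t : M) * τ t) = t * τ t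
        rw [map_mul, hτ, mul_comm])
      refine ⟨Polynomial.X ^ 2 - Polynomial.C a * Polynomial.X + Polynomial.C b, ?_, ?_⟩
      · nontriviality S
        monicity!
      · rw [Polynomial.eval₂_add, Polynomial.eval₂_sub, Polynomial.eval₂_mul,
          Polynomial.eval₂_C, Polynomial.eval₂_C, Polynomial.eval₂_X, Polynomial.eval₂_pow,
          Polynomial.eval₂_X]
        change t ^ 2 - jT a * t + jT b = 0
        rw [ha, hb]
        ring
    obtain ⟨Q, -, hQp, hQ⟩ := Ideal.exists_ideal_over_prime_of_isIntegral y (⊥ : Ideal T) (by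
      intro s hs
      have h1 : jT s = 0 := hs
      rw [hjTinj (h1.trans (map_zero jT).symm)]
      exact y.zero_mem)
    refine ⟨Q, hQp, fun s => ?_⟩
    rw [← hQ]
    rfl
  -- an element of positive degree
  obtain ⟨d, hd, s₀, hs₀, hs₀y⟩ : ∃ d, 0 < d ∧ ∃ s : S, (s : A) ∈ 𝒜 d ∧ s ∉ y := by
    by_contra hcon
    push Not at hcon
    apply hirr
    rw [HomogeneousIdeal.toIdeal_irrelevant_le]
    intro i hi s hs
    exact hcon i hi s hs
  obtain ⟨hreg, hpr⟩ := H Q hQp ⟨d, hd, jT s₀, (hgr _ _).mp hs₀, (hQ s₀).not.mpr hs₀y⟩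
  have hloc := isLocalRing_homLoc ℳ ι T Q hι
  apply isRegularLocalRing_of_homLoc 𝒜 (ι.comp j) S y (hι.comp hj) hS
  have hι0 : ∀ t : T, t ∉ Q → ι t ≠ 0 := fun t ht => map_ne_zero_of_notMem ι T Q hι ht
  have hQτmul : ∀ s t : T, s ∉ Q → t ∉ Q → s * t ∉ Q := fun s t => hQp.mul_notMem
  by_cases hcase : ∀ n, ∀ t : T, (t : M) ∈ ℳ n → t ∉ Q → (⟨τ t, hTτ t t.2⟩ : T) ∉ Q
  · -- the stable case
    have hDτ : ∀ z ∈ homLoc ℳ ι T Q, τF z ∈ homLoc ℳ ι T Q := by
      rintro z ⟨n, a, s, ha, hs, hsQ, h1⟩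
      refine ⟨n, ⟨τ a, hTτ a a.2⟩, ⟨τ s, hTτ s s.2⟩, hτgr n a ha, hτgr n s hs, hcase n s hs hsQ, ?_⟩
      change τF z * ι (τ s) = ι (τ a)
      rw [← hτF, ← hτF, ← map_mul, h1]
    obtain ⟨y₀, hy₀, hy₁, hy₂⟩ := hpr hDτ
    let τD : homLoc ℳ ι T Q →+* homLoc ℳ ι T Q :=
      (τF.comp (homLoc ℳ ι T Q).subtype).codRestrict (homLoc ℳ ι T Q) fun z => hDτ z z.2
    have hfixreg : IsRegularLocalRing (fixedRing τD) := by
      refine isRegularLocalRing_fixedRing (τ := τD) hreg (fun z => Subtype.ext (hτF2 z))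
        (y := ⟨y₀, hy₀⟩) (fun h0 => hy₁ (congrArg Subtype.val h0)) fun z => ?_
      obtain ⟨c, hc, hc2⟩ := hy₂ z z.2
      exact ⟨⟨c, hc⟩, Subtype.ext hc2⟩
    have hmem : ∀ z : F, z ∈ homLoc 𝒜 (ι.comp j) S y ↔ z ∈ homLoc ℳ ι T Q ∧ τF z = z := by
      intro z
      constructor
      · rintro ⟨n, a, s, ha, hs, hsy, h1⟩
        change z * ι (j s) = ι (j a) at h1
        have hsQ : jT s ∉ Q := (hQ s).not.mpr hsy
        refine ⟨⟨n, jT a, jT s, (hgr n a).mp ha, (hgr n s).mp hs, hsQ, h1⟩, ?_⟩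
        apply mul_right_cancel₀ (hι0 _ hsQ)
        rw [hjT, h1]
        calc τF z * ι (j s) = τF z * τF (ι (j s)) := by rw [hτF, hfix']
          _ = τF (ι (j a)) := by rw [← map_mul, h1]
          _ = ι (j a) := by rw [hτF, hfix']
      · rintro ⟨⟨n, a, s, ha, hs, hsQ, h1⟩, hz⟩
        have hsQ' := hcase n s hs hsQ
        obtain ⟨b, hb⟩ := hlift (s * ⟨τ s, hTτ s s.2⟩) (by
          change τ ((s : M) * τ s) = s * τ s
          rw [map_mul, hτ, mul_comm])
        have hb' : j b = (s : M) * τ s := congrArg Subtype.val hb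
        have hzb : z * ι (j b) = ι ((a : M) * τ s) := by
          rw [hb', map_mul, map_mul, ← h1]
          ring
        obtain ⟨c, hc⟩ := hlift (a * ⟨τ s, hTτ s s.2⟩) (by
          change τ ((a : M) * τ s) = a * τ s
          apply hι
          rw [← hτF, ← hzb, map_mul, hτF, hfix', hz])
        have hc' : j c = (a : M) * τ s := congrArg Subtype.val hc
        refine ⟨n + n, c, b, ?_, ?_, ?_, ?_⟩
        · rw [hgr, hc']
          exact SetLike.mul_mem_graded ha (hτgr n s hs)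
        · rw [hgr, hb']
          exact SetLike.mul_mem_graded hs (hτgr n s hs)
        · rw [← hQ, hb]
          exact hQp.mul_notMem hsQ hsQ'
        · change z * ι (j b) = ι (j c)
          rw [hzb, hc']
    let e : fixedRing τD ≃+* homLoc 𝒜 (ι.comp j) S y :=
      { toFun := fun z => ⟨((z : homLoc ℳ ι T Q) : F), (hmem _).mpr
          ⟨(z : homLoc ℳ ι T Q).2, congrArg Subtype.val z.2⟩⟩
        invFun := fun z => ⟨⟨z, ((hmem z).mp z.2).1⟩, Subtype.ext ((hmem z).mp z.2).2⟩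
        left_inv := fun z => rfl
        right_inv := fun z => rfl
        map_mul' := fun z w => rfl
        map_add' := fun z w => rfl }
    exact IsRegularLocalRing.of_ringEquiv e
  · -- the split case
    push Not at hcase
    obtain ⟨k, t, htk, htQ, htQ'⟩ := hcase
    let BF : Subring F :=
      { carrier := {z | ∃ (n : ℕ) (a : T) (s : S), (a : M) ∈ ℳ n ∧ (s : A) ∈ 𝒜 n ∧ s ∉ y ∧
          z * ι (j s) = ι a}
        mul_mem' := by
          rintro z w ⟨n, a, s, ha, hs, hsy, h1⟩ ⟨m, b, t, hb, ht, hty, h2⟩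
          refine ⟨n + m, a * b, s * t, SetLike.mul_mem_graded ha hb, SetLike.mul_mem_graded hs ht,
            hyp.mul_notMem hsy hty, ?_⟩
          rw [Subalgebra.coe_mul, Subalgebra.coe_mul, map_mul, map_mul, map_mul, ← h1, ← h2]
          ring
        one_mem' := ⟨0, 1, 1, SetLike.GradedOne.one_mem, SetLike.GradedOne.one_mem,
          fun h => hyp.ne_top ((Ideal.eq_top_iff_one _).mpr h), by simp⟩
        add_mem' := by
          rintro z w ⟨n, a, s, ha, hs, hsy, h1⟩ ⟨m, b, t, hb, ht, hty, h2⟩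
          refine ⟨n + m, a * jT t + jT s * b, s * t,
            (ℳ (n + m)).add_mem (SetLike.mul_mem_graded ha ((hgr m t).mp ht))
            (SetLike.mul_mem_graded ((hgr n s).mp hs) hb), SetLike.mul_mem_graded hs ht,
            hyp.mul_notMem hsy hty, ?_⟩
          rw [Subalgebra.coe_add, Subalgebra.coe_mul, Subalgebra.coe_mul, Subalgebra.coe_mul,
            map_mul, map_add, map_mul, map_mul, map_mul, hjT, hjT, ← h1, ← h2]
          ring
        zero_mem' := ⟨0, 0, 1, (ℳ 0).zero_mem, SetLike.GradedOne.one_mem,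
          fun h => hyp.ne_top ((Ideal.eq_top_iff_one _).mpr h), by simp⟩
        neg_mem' := by
          rintro z ⟨n, a, s, ha, hs, hsy, h1⟩
          exact ⟨n, -a, s, (ℳ n).neg_mem ha, hs, hsy, by
            rw [Subalgebra.coe_neg, map_neg, ← h1]; ring⟩ }
    have hBFmem : ∀ z : F, z ∈ BF ↔ ∃ (n : ℕ) (a : T) (s : S), (a : M) ∈ ℳ n ∧
      (s : A) ∈ 𝒜 n ∧ s ∉ y ∧ z * ι (j s) = ι a := fun _ => Iff.rfl
    have hBD : ∀ z ∈ BF, z ∈ homLoc ℳ ι T Q := by
      rintro z ⟨n, a, s, ha, hs, hsy, h1⟩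
      exact ⟨n, a, jT s, ha, (hgr n s).mp hs, (hQ s).not.mpr hsy, h1⟩
    have hBτ : ∀ z ∈ BF, τF z ∈ BF := by
      rintro z ⟨n, a, s, ha, hs, hsy, h1⟩
      refine ⟨n, ⟨τ a, hTτ a a.2⟩, s, hτgr n a ha, hs, hsy, ?_⟩
      change τF z * ι (j s) = ι (τ a)
      rw [← hτF, ← h1, map_mul, hτF, hfix']
    let B : Subring (homLoc ℳ ι T Q) := BF.comap (homLoc ℳ ι T Q).subtype
    have hBmem : ∀ z : homLoc ℳ ι T Q, z ∈ B ↔ (z : F) ∈ BF := fun _ => Iff.rfl
    let τB : B →+* B :=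
      { toFun := fun z => ⟨⟨τF ((z : homLoc ℳ ι T Q) : F), hBD _ (hBτ _ z.2)⟩, hBτ _ z.2⟩
        map_one' := Subtype.ext (Subtype.ext (map_one τF))
        map_mul' := fun a b => Subtype.ext (Subtype.ext (map_mul τF _ _))
        map_zero' := Subtype.ext (Subtype.ext (map_zero τF))
        map_add' := fun a b => Subtype.ext (Subtype.ext (map_add τF _ _)) }
    have hτB : ∀ z : B, (((τB z : B) : homLoc ℳ ι T Q) : F) = τF ((z : homLoc ℳ ι T Q) : F) :=
      fun _ => rfl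
    have hmem : ∀ z : F, z ∈ homLoc 𝒜 (ι.comp j) S y ↔ z ∈ BF ∧ τF z = z := by
      intro z
      constructor
      · rintro ⟨n, a, s, ha, hs, hsy, h1⟩
        change z * ι (j s) = ι (j a) at h1
        have hsQ : jT s ∉ Q := (hQ s).not.mpr hsy
        refine ⟨⟨n, jT a, s, (hgr n a).mp ha, hs, hsy, h1⟩, ?_⟩
        apply mul_right_cancel₀ (hι0 _ hsQ)
        rw [hjT, h1]
        calc τF z * ι (j s) = τF z * τF (ι (j s)) := by rw [hτF, hfix']
          _ = τF (ι (j a)) := by rw [← map_mul, h1]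
          _ = ι (j a) := by rw [hτF, hfix']
      · rintro ⟨⟨n, a, s, ha, hs, hsy, h1⟩, hz⟩
        obtain ⟨c, hc⟩ := hlift a (by
          apply hι
          rw [← hτF, ← h1, map_mul, hτF, hfix', hz])
        have hc' : j c = (a : M) := congrArg Subtype.val hc
        refine ⟨n, c, s, ?_, hs, hsy, ?_⟩
        · rw [hgr, hc']
          exact ha
        · change z * ι (j s) = ι (j c)
          rw [h1, hc']
    -- the idempotent-like element
    have hs₀Q : jT s₀ ∉ Q := (hQ s₀).not.mpr hs₀y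
    have hs₀0 : ι (j s₀) ≠ 0 := hι0 _ hs₀Q
    have htd : ((t ^ d : T) : M) ∈ ℳ (d * k) := by
      rw [SubmonoidClass.coe_pow]
      exact SetLike.pow_mem_graded d htk
    have hs₀k : ((s₀ ^ k : S) : A) ∈ 𝒜 (d * k) := by
      rw [SubmonoidClass.coe_pow, mul_comm]
      exact SetLike.pow_mem_graded k hs₀
    have hs₀ky : s₀ ^ k ∉ y := fun h => hs₀y (hyp.mem_of_pow_mem k h)
    have heB : ι (t : M) ^ d / ι (j s₀) ^ k ∈ BF := by
      refine ⟨d * k, t ^ d, s₀ ^ k, htd, hs₀k, hs₀ky, ?_⟩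
      rw [SubmonoidClass.coe_pow, SubmonoidClass.coe_pow, map_pow, map_pow, map_pow,
        div_mul_cancel₀ _ (pow_ne_zero _ hs₀0)]
    let e : B := ⟨⟨ι (t : M) ^ d / ι (j s₀) ^ k, hBD _ heB⟩, heB⟩
    have hfixreg : IsRegularLocalRing (fixedRing τB) := by
      refine isRegularLocalRing_fixedRing_of_split hreg B τB
        (fun z => Subtype.ext (Subtype.ext (hτF2 _))) ?_ ?_ e ?_ ?_
      · -- `D` is a localization of `B`
        rintro ⟨z, n, a, s, ha, hs, hsQ, h1⟩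
        have hsd : ((s ^ d : T) : M) ∈ ℳ (d * n) := by
          rw [SubmonoidClass.coe_pow]
          exact SetLike.pow_mem_graded d hs
        have hsn : ((s₀ ^ n : S) : A) ∈ 𝒜 (d * n) := by
          rw [SubmonoidClass.coe_pow, mul_comm]
          exact SetLike.pow_mem_graded n hs₀
        have hsny : s₀ ^ n ∉ y := fun h => hs₀y (hyp.mem_of_pow_mem n h)
        have hqB : ι (s : M) ^ d / ι (j s₀) ^ n ∈ BF := by
          refine ⟨d * n, s ^ d, s₀ ^ n, hsd, hsn, hsny, ?_⟩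
          rw [SubmonoidClass.coe_pow, SubmonoidClass.coe_pow, map_pow, map_pow, map_pow,
            div_mul_cancel₀ _ (pow_ne_zero _ hs₀0)]
        have hbB : ι (a : M) * ι (s : M) ^ (d - 1) / ι (j s₀) ^ n ∈ BF := by
          refine ⟨d * n, a * s ^ (d - 1), s₀ ^ n, ?_, hsn, hsny, ?_⟩
          · rw [Subalgebra.coe_mul, SubmonoidClass.coe_pow]
            have h2 : d * n = n + (d - 1) * n := by
              obtain ⟨d', rfl⟩ : ∃ d', d = d' + 1 := ⟨d - 1, by omega⟩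
              rw [Nat.add_sub_cancel]; ring
            rw [h2]
            exact SetLike.mul_mem_graded ha (SetLike.pow_mem_graded _ hs)
          · rw [Subalgebra.coe_mul, SubmonoidClass.coe_pow, SubmonoidClass.coe_pow, map_pow,
              map_mul, map_pow, map_pow, div_mul_cancel₀ _ (pow_ne_zero _ hs₀0)]
        refine ⟨⟨⟨_, hBD _ hbB⟩, hbB⟩, ⟨⟨_, hBD _ hqB⟩, hqB⟩, ?_, ?_⟩
        · rw [isUnit_homLoc_iff ℳ ι T Q hι _ (n := d * n) (a := s ^ d) (s := jT (s₀ ^ n)) hsd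
            ((hgr _ _).mp hsn) ((hQ _).not.mpr hsny)]
          · exact fun h => hsQ (hQp.mem_of_pow_mem d h)
          · change (ι (s : M) ^ d / ι (j s₀) ^ n) * ι (j ((s₀ ^ n : S) : A)) = ι ((s ^ d : T) : M)
            rw [SubmonoidClass.coe_pow, SubmonoidClass.coe_pow, map_pow, map_pow, map_pow,
              div_mul_cancel₀ _ (pow_ne_zero _ hs₀0)]
        · apply Subtype.ext
          change z * (ι (s : M) ^ d / ι (j s₀) ^ n) = ι (a : M) * ι (s : M) ^ (d - 1) / ι (j s₀) ^ n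
          rw [← h1, ← mul_div_assoc]
          congr 1
          obtain ⟨d', rfl⟩ : ∃ d', d = d' + 1 := ⟨d - 1, by omega⟩
          rw [Nat.add_sub_cancel, pow_succ]
          ring
      · -- units of the invariants
        rintro ⟨⟨z, hz⟩, hzB⟩ hzτ hzu
        have hz1 : τF z = z := congrArg (fun x : B => ((x : homLoc ℳ ι T Q) : F)) hzτ
        obtain ⟨n, a, s, ha, hs, hsy, h1⟩ := (hmem z).mpr ⟨hzB, hz1⟩
        change z * ι (j s) = ι (j a) at h1
        have hay : a ∉ y := by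
          rw [← hQ]
          exact (isUnit_homLoc_iff ℳ ι T Q hι ⟨z, hz⟩ (n := n) (a := jT a) (s := jT s)
            ((hgr _ _).mp ha) ((hgr _ _).mp hs) ((hQ _).not.mpr hsy) h1).mp hzu
        have h0 : ι (j a) ≠ 0 := hι0 (jT a) ((hQ a).not.mpr hay)
        have hwB : ι (j s) / ι (j a) ∈ BF :=
          ⟨n, jT s, a, (hgr _ _).mp hs, ha, hay, div_mul_cancel₀ _ h0⟩
        refine ⟨⟨⟨_, hBD _ hwB⟩, hwB⟩, ?_⟩
        apply Subtype.ext
        apply Subtype.ext
        change z * (ι (j s) / ι (j a)) = 1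
        rw [← mul_div_assoc, h1, div_self h0]
      · rw [isUnit_homLoc_iff ℳ ι T Q hι _ (n := d * k) (a := t ^ d) (s := jT (s₀ ^ k)) htd
            ((hgr _ _).mp hs₀k) ((hQ _).not.mpr hs₀ky)]
        · exact fun h => htQ (hQp.mem_of_pow_mem d h)
        · change (ι (t : M) ^ d / ι (j s₀) ^ k) * ι (j ((s₀ ^ k : S) : A)) = ι ((t ^ d : T) : M)
          rw [SubmonoidClass.coe_pow, SubmonoidClass.coe_pow, map_pow, map_pow, map_pow,
            div_mul_cancel₀ _ (pow_ne_zero _ hs₀0)]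
      · have htd' : (((⟨τ t, hTτ t t.2⟩ : T) ^ d : T) : M) ∈ ℳ (d * k) := by
          rw [SubmonoidClass.coe_pow]
          exact SetLike.pow_mem_graded d (hτgr k t htk)
        rw [isUnit_homLoc_iff ℳ ι T Q hι _ (n := d * k) (a := (⟨τ t, hTτ t t.2⟩ : T) ^ d)
            (s := jT (s₀ ^ k)) htd' ((hgr _ _).mp hs₀k) ((hQ _).not.mpr hs₀ky), not_not]
        · exact Ideal.pow_mem_of_mem _ htQ' d hd
        · change τF (ι (t : M) ^ d / ι (j s₀) ^ k) * ι (j ((s₀ ^ k : S) : A)) =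
            ι (((⟨τ t, hTτ t t.2⟩ : T) ^ d : T) : M)
          rw [SubmonoidClass.coe_pow, SubmonoidClass.coe_pow, map_pow, map_pow, map_pow, map_div₀,
            map_pow, map_pow, hτF, hτF, hfix', div_mul_cancel₀ _ (pow_ne_zero _ hs₀0)]
    let e : fixedRing τB ≃+* homLoc 𝒜 (ι.comp j) S y :=
      { toFun := fun z => ⟨(((z : B) : homLoc ℳ ι T Q) : F), (hmem _).mpr
          ⟨(z : B).2, congrArg (fun x : B => ((x : homLoc ℳ ι T Q) : F)) z.2⟩⟩
        invFun := fun z => ⟨⟨⟨z, hBD _ ((hmem z).mp z.2).1⟩, ((hmem z).mp z.2).1⟩,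
          Subtype.ext (Subtype.ext ((hmem z).mp z.2).2)⟩
        left_inv := fun z => rfl
        right_inv := fun z => rfl
        map_mul' := fun z w => rfl
        map_add' := fun z w => rfl }
    exact IsRegularLocalRing.of_ringEquiv e

end

end Pool.Agent.Lib.MP_6a3dac_ag
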