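import Pool.Agent.Lib.MP_6a3dac_ag.QWGens
import Pool.Agent.Lib.MP_6a3dac_ag.QWGraded
import Pool.Agent.Lib.MP_6a3dac_ag.Mg.G003
import Pool.Agent.Lib.MP_6a3dac_ag.ModelExist

/-!
# Regular models of the rings of invariants: the abstract theorem
-/

set_option autoImplicit false
set_option linter.unusedSectionVars false
set_option linter.unusedVariables false

namespace Pool.Agent.Lib.MP_6a3dac_ag

open CategoryTheory Limits AlgebraicGeometry IsDedekindDomain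

section Params

variable {R O L M : Type} [CommRing R] [CommRing O] [Algebra R O] [Field L] [Algebra R L]
  [Algebra O L] [IsScalarTower R O L] [CommRing M] [Algebra L M] [Algebra R M]
  [IsScalarTower R L M]
  {σ : O →+* O} (h : QuadExt R O σ) (hRL : Function.Injective (algebraMap R L))
  {τ : M →+* M} (hτO : ∀ c, τ (oM O L M c) = oM O L M (σ c)) (p : Ideal R) [hp : p.IsPrime]

include h hRL hτO in
theorem exists_inv_lamP' {n : R} (hn : n ∉ p) :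
    ∃ u ∈ lamP O L M p, algebraMap R M n * u = 1 ∧ τ u = u := by
  obtain ⟨l, hl⟩ := exists_inv (L := L) (M := M) hRL hn
  refine ⟨algebraMap L M l, ⟨n, hn, 1, by rw [hl, map_one], l, rfl⟩, hl, ?_⟩
  have h1 : algebraMap R M n * τ (algebraMap L M l) = 1 := by
    rw [← oM_algebraMap (O := O) (L := L) (M := M) n, ← h.fix, ← hτO, ← map_mul, oM_algebraMap,
      hl, map_one]
  calc τ (algebraMap L M l) = (algebraMap R M n * algebraMap L M l) * τ (algebraMap L M l) := by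
        rw [hl, one_mul]
    _ = algebraMap L M l * (algebraMap R M n * τ (algebraMap L M l)) := by ring
    _ = algebraMap L M l := by rw [h1, mul_one]

/-- The arithmetic hypotheses of the local theory. -/
def ArithHyp (M : Type) [CommRing M] [Algebra L M] [Algebra R M] [IsScalarTower R L M]
    (τ : M →+* M) (p : Ideal R) [p.IsPrime] (ϖ : O) (r : ℕ) : Prop :=
  ϖ ≠ 0 ∧ (∃ η ∈ lamP O L M p, τ (oM O L M ϖ) = η * oM O L M ϖ) ∧
  ((r = 0 ∧ ∃ c ∈ lamP O L M p, ∃ d ∈ lamP O L M p, (τ c - c) * d = 1) ∨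
    (1 ≤ r ∧ ∃ ε ∈ lamP O L M p, ∃ ε' ∈ lamP O L M p, ∃ e ∈ lamP O L M p,
      τ (oM O L M ϖ) - oM O L M ϖ = ε * oM O L M ϖ ^ r ∧ ε * ε' = 1 ∧
      τ ε - ε = e * oM O L M ϖ ^ r))

include h hRL hτO in
theorem arithHyp_unram [Nontrivial O] (hU : UnramAt σ p) :
    ArithHyp (O := O) (L := L) M τ p 1 0 := by
  refine ⟨one_ne_zero, ⟨1, Subring.one_mem _, by simp⟩, Or.inl ⟨rfl, ?_⟩⟩
  obtain ⟨c, d, n, hn, hcd⟩ := hU
  obtain ⟨u, hu, hu1, -⟩ := exists_inv_lamP' h hRL hτO p hn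
  refine ⟨oM O L M c, oM_mem_lamP p c, oM O L M d * u, Subring.mul_mem _ (oM_mem_lamP p d) hu, ?_⟩
  rw [hτO, ← map_sub, ← mul_assoc, ← map_mul, hcd, oM_algebraMap, hu1]

include h hRL hτO in
theorem arithHyp_ram {𝔓 : Ideal O} [h𝔓 : 𝔓.IsPrime] (hp𝔓 : 𝔓.comap (algebraMap R O) = p)
    (hσ : ∀ c, σ c - c ∈ 𝔓) {ϖ : O} {r : ℕ} (hϖ0 : ϖ ≠ 0) (hr : 1 ≤ r)
    (h1 : ∃ ε, ε ∉ 𝔓 ∧ ∃ n, n ∉ p ∧ algebraMap R O n * (σ ϖ - ϖ) = ε * ϖ ^ r)
    (h2 : ∀ c, ∃ y, ∃ n, n ∉ p ∧ algebraMap R O n * (σ c - c) = y * ϖ ^ r) :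
    ArithHyp (O := O) (L := L) M τ p ϖ r := by
  obtain ⟨ε, hε, n, hn, hεn⟩ := h1
  obtain ⟨u, hu, hu1, hu2⟩ := exists_inv_lamP' h hRL hτO p hn
  have hΔ : τ (oM O L M ϖ) - oM O L M ϖ = oM O L M ε * u * oM O L M ϖ ^ r := by
    have h3 := congrArg (oM O L M) hεn
    rw [map_mul, oM_algebraMap, map_sub, map_mul, map_pow, ← hτO] at h3
    linear_combination u * h3 - (τ (oM O L M ϖ) - oM O L M ϖ) * hu1
  refine ⟨hϖ0, ⟨1 + oM O L M ε * u * oM O L M ϖ ^ (r - 1), ?_, ?_⟩, Or.inr ⟨hr, ?_⟩⟩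
  · exact Subring.add_mem _ (Subring.one_mem _) (Subring.mul_mem _ (Subring.mul_mem _
      (oM_mem_lamP p _) hu) (Subring.pow_mem _ (oM_mem_lamP p _) _))
  · obtain ⟨r', rfl⟩ : ∃ r', r = r' + 1 := ⟨r - 1, by omega⟩
    rw [Nat.add_sub_cancel]
    rw [pow_succ] at hΔ
    linear_combination hΔ
  · obtain ⟨m, hm, hεm⟩ := h.exists_dvd hp𝔓 hσ hε
    obtain ⟨v, hv, hv1, -⟩ := exists_inv_lamP' h hRL hτO p hm
    obtain ⟨y, n', hn', hy⟩ := h2 ε
    obtain ⟨w, hw, hw1, -⟩ := exists_inv_lamP' h hRL hτO p hn'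
    refine ⟨oM O L M ε * u, Subring.mul_mem _ (oM_mem_lamP p _) hu,
      algebraMap R M n * oM O L M (σ ε) * v, Subring.mul_mem _ (Subring.mul_mem _ ?_
        (oM_mem_lamP p _)) hv, oM O L M y * u * w, Subring.mul_mem _ (Subring.mul_mem _
          (oM_mem_lamP p _) hu) hw, hΔ, ?_, ?_⟩
    · rw [← oM_algebraMap (O := O) (L := L)]
      exact oM_mem_lamP p _
    · have h3 := congrArg (oM O L M) hεm
      rw [oM_algebraMap, map_mul] at h3
      linear_combination (algebraMap R M m * v) * hu1 + hv1 - (u * algebraMap R M n * v) * h3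
    · have h3 := congrArg (oM O L M) hy
      rw [map_mul, oM_algebraMap, map_sub, map_mul, map_pow] at h3
      rw [map_mul, hτO, hu2]
      linear_combination (u * w) * h3 - (u * (oM O L M (σ ε) - oM O L M ε)) * hw1

end Params

section Model

variable {R K O L A M F I : Type} [CommRing R] [IsDedekindDomain R] [Field K] [Algebra R K]
  [IsFractionRing R K] [CommRing O] [IsDedekindDomain O] [Algebra R O] [Module.Finite R O]
  [Field L] [Algebra R L] [Algebra O L] [IsScalarTower R O L] [IsFractionRing O L]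
  [CommRing A] [Algebra K A] [Algebra R A] [IsScalarTower R K A]
  (𝒜 : ℕ → Submodule K A) [GradedAlgebra 𝒜]
  [CommRing M] [IsDomain M] [Algebra L M] [Algebra R M] [IsScalarTower R L M]
  (ℳ : ℕ → Submodule L M) [GradedAlgebra ℳ] [Field F] [Finite I]

/-- **Regular models of rings of invariants.** -/
theorem exists_model_of_involution (hRf : ¬ IsField R)
    (hfin : ∀ p : HeightOneSpectrum R, Finite (R ⧸ p.asIdeal))
    {σ : O →+* O} (h : QuadExt R O σ)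
    (j : A →ₐ[R] M) (hj : Function.Injective j) (hgr : ∀ n a, a ∈ 𝒜 n ↔ j a ∈ ℳ n)
    (τ : M →+* M) (hτ : ∀ m, τ (τ m) = m) (hτgr : ∀ n m, m ∈ ℳ n → τ m ∈ ℳ n)
    (hfix : ∀ m, τ m = m → ∃ a, j a = m) (hfix' : ∀ a, τ (j a) = j a)
    (hτO : ∀ c, τ (oM O L M c) = oM O L M (σ c))
    (ι : M →+* F) (hι : Function.Injective ι) (τF : F →+* F)
    (hτF : ∀ m, τF (ι m) = ι (τ m)) (hτF2 : ∀ z, τF (τF z) = z)
    (x : I → M) (hxdeg : ∀ i, x i ∈ ℳ 1) (hstar : ∀ l, ∃ l', τ (x l) = x l')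
    (I₀ : Set I) (hseg : ∀ i, ∃ k l, k ∈ I₀ ∧ τ (x k) = x k ∧ x i * τ (x i) = x k * x l)
    (hgen : Algebra.adjoin L (Set.range x) = ⊤)
    (hC : ∀ (p : HeightOneSpectrum R) (i : I) (D : Subring F), IsLocalRing D →
      (∀ c ∈ lamP O L M p.asIdeal, ι c ∈ D) → ι (x i) ≠ 0 → (∀ k, ι (x k) / ι (x i) ∈ D) →
      ∃ (G : Type) (_ : CommRing G) (φ : G →+* F), IsChart ι x (lamP O L M p.asIdeal) D i φ)
    (hR : ∀ (p : HeightOneSpectrum R), ¬ UnramAt σ p.asIdeal → ∀ (𝔓 : Ideal O) (_ : 𝔓.IsPrime),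
      𝔓.comap (algebraMap R O) = p.asIdeal → ∀ (ϖ : O) (r : ℕ), 1 ≤ r →
      Irreducible (algebraMap O (Localization.AtPrime 𝔓) ϖ) →
      (∀ c, ∃ y, ∃ n, n ∉ p.asIdeal ∧ algebraMap R O n * (σ c - c) = y * ϖ ^ r) →
      ∀ (i : I) (D : Subring F), i ∈ I₀ → τ (x i) = x i → IsLocalRing D →
      (∀ c ∈ lamP O L M p.asIdeal, ι c ∈ D) → ι (x i) ≠ 0 → (∀ k, ι (x k) / ι (x i) ∈ D) →
      (∀ w ∈ D, ι (oM O L M ϖ) * w ≠ 1) →
      (∀ k, ∀ w ∈ D, (τF (ι (x k) / ι (x i)) - ι (x k) / ι (x i)) * w ≠ 1) →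
      ∃ (G : Type) (_ : CommRing G) (φ : G →+* F) (ϖG : G) (Z : Finset G),
        IsRamChart ι τF x (lamP O L M p.asIdeal) (oM O L M ϖ) r D i φ ϖG Z) :
    ∃ (Y : Scheme.{0}) (g : Y ⟶ Spec (CommRingCat.of R)),
      IsProper g ∧ Flat g ∧ (∀ y : Y, IsRegularLocalRing (Y.presheaf.stalk y)) ∧
      ∃ e : pullback g (Spec.map (CommRingCat.ofHom (algebraMap R K))) ≅ Proj 𝒜,
        e.hom ≫ projTo K 𝒜 =
          pullback.snd g (Spec.map (CommRingCat.ofHom (algebraMap R K))) := by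
  classical
  have hOL : Function.Injective (algebraMap O L) := IsFractionRing.injective O L
  have hRL : Function.Injective (algebraMap R L) := by
    rw [IsScalarTower.algebraMap_eq R O L]
    exact hOL.comp h.inj
  have hLM : Function.Injective (algebraMap L M) := (algebraMap L M).injective
  have hA : Nontrivial A := by
    refine ⟨0, 1, fun h0 => ?_⟩
    have := congrArg j h0
    rw [map_zero, map_one] at this
    exact zero_ne_one this
  have hτR : ∀ a : R, τ (algebraMap R M a) = algebraMap R M a := by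
    intro a
    rw [← oM_algebraMap (O := O) (L := L), hτO, h.fix]
  -- the parameters at the primes
  have hpar : ∀ p : HeightOneSpectrum R, ∃ (ϖ : O) (r : ℕ),
      ArithHyp (O := O) (L := L) M τ p.asIdeal ϖ r ∧
      (UnramAt σ p.asIdeal → ϖ = 1 ∧ r = 0) ∧
      (1 ≤ r → ∀ (i : I) (D : Subring F), i ∈ I₀ → τ (x i) = x i → IsLocalRing D →
        (∀ c ∈ lamP O L M p.asIdeal, ι c ∈ D) → ι (x i) ≠ 0 → (∀ k, ι (x k) / ι (x i) ∈ D) →
        (∀ w ∈ D, ι (oM O L M ϖ) * w ≠ 1) →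
        (∀ k, ∀ w ∈ D, (τF (ι (x k) / ι (x i)) - ι (x k) / ι (x i)) * w ≠ 1) →
        ∃ (G : Type) (_ : CommRing G) (φ : G →+* F) (ϖG : G) (Z : Finset G),
          IsRamChart ι τF x (lamP O L M p.asIdeal) (oM O L M ϖ) r D i φ ϖG Z) := by
    intro p
    by_cases hU : UnramAt σ p.asIdeal
    · refine ⟨1, 0, arithHyp_unram h hRL hτO p.asIdeal hU, fun _ => ⟨rfl, rfl⟩, fun h0 => ?_⟩
      omega
    · obtain ⟨𝔓, h𝔓, hp𝔓⟩ := h.exists_prime_over p.asIdeal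
      have := p.isMaximal
      have := hfin p
      obtain ⟨ϖ, r, h1, h2, h3, h4⟩ := h.exists_uniformizer p.ne_bot hU hp𝔓
      have hϖ0 : ϖ ≠ 0 := by
        rintro rfl
        rw [map_zero] at h2
        exact h2.ne_zero rfl
      refine ⟨ϖ, r, arithHyp_ram h hRL hτO p.asIdeal hp𝔓 (h.sub_mem_of_not_unram hU hp𝔓) hϖ0 h1 h3
        h4, fun hU' => absurd hU' hU, fun _ => hR p hU 𝔓 h𝔓 hp𝔓 ϖ r h1 h2 h4⟩
  choose ϖ r hpar1 hpar2 hpar3 using hpar
  -- finitely many generators of `O`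
  obtain ⟨C₀, hC₀⟩ : (⊤ : Subalgebra R O).FG := by
    have : Algebra.FiniteType R O := inferInstance
    exact this.out
  let T₁ : O → ℕ → Subalgebra R M := fun ϖ r => orderAlg (L := L) x τ (C₀ : Set O) ϖ r R
  have hT₁τ : ∀ ϖ r, ∀ t ∈ T₁ ϖ r, τ t ∈ T₁ ϖ r := fun ϖ r t ht => map_orderAlg hτR hτ ht
  have hT₁FG : ∀ ϖ r, (T₁ ϖ r).FG := by
    intro ϖ r
    have h1 : (orderGens (L := L) x τ (C₀ : Set O) ϖ r).Finite :=
      (C₀.finite_toSet.image _).union ((finite_WSet r).union (finite_W1Set r))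
    exact ⟨(h1.union (h1.image _)).toFinset, by rw [Set.Finite.coe_toFinset]; rfl⟩
  let S₁ : O → ℕ → Subalgebra R A := fun ϖ r => (T₁ ϖ r).comap j
  have hS₁FG : ∀ ϖ r, (S₁ ϖ r).FG := fun ϖ r =>
    fg_comap_of_involution j hj τ hτ hfix (T₁ ϖ r) (hT₁τ ϖ r) (hT₁FG ϖ r)
  have hT₁h : ∀ ϖ r, IsHomog ℳ (T₁ ϖ r) := fun ϖ r =>
    isHomog_adjoin ℳ fun m hm => orderGens_homog hτgr hxdeg hm
  have hjdec : ∀ a i, j (DirectSum.decompose 𝒜 a i : A) = DirectSum.decompose ℳ (j a) i := by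
    intro a i
    conv_rhs => rw [← DirectSum.sum_support_decompose 𝒜 a, map_sum, DirectSum.decompose_sum,
      DFinsupp.finsetSum_apply, AddSubmonoidClass.coe_finsetSum]
    have h1 : ∀ k ∈ (DirectSum.decompose 𝒜 a).support, (DirectSum.decompose ℳ
        (j (DirectSum.decompose 𝒜 a k : A)) i : M) = if k = i then
          j (DirectSum.decompose 𝒜 a i : A) else 0 := by
      intro k _
      have hk := (hgr k _).mp (DirectSum.decompose 𝒜 a k).2
      split_ifs with hki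
      · subst hki
        rw [DirectSum.decompose_of_mem_same ℳ hk]
      · rw [DirectSum.decompose_of_mem_ne ℳ hk hki]
    rw [Finset.sum_congr rfl h1, Finset.sum_ite_eq']
    split_ifs with h2
    · rfl
    · rw [DFinsupp.notMem_support_iff] at h2
      rw [h2]
      simp
  have hS₁h : ∀ ϖ r, IsHomog 𝒜 (S₁ ϖ r) := by
    intro ϖ r s hs i
    change j _ ∈ T₁ ϖ r
    rw [hjdec]
    exact hT₁h ϖ r _ hs i
  have hS₁0 : ∀ ϖ r, ∀ s ∈ S₁ ϖ r, s ∈ 𝒜 0 → ∃ a : R, algebraMap R A a = s := by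
    intro ϖ r s hs hs0
    obtain ⟨a, ha⟩ := degree_zero_orderAlg (ℳ := ℳ) h hτO hτgr hxdeg hLM hOL (t := j s) hs
      ((hgr 0 s).mp hs0) (hfix' s)
    refine ⟨a, hj ?_⟩
    rw [← ha]
    exact j.commutes a
  have hgood : ∀ ϖ r, ∃ F, GoodGens 𝒜 (S₁ ϖ r) F := fun ϖ r =>
    exists_goodGens 𝒜 (hS₁h ϖ r) (hS₁FG ϖ r) (hS₁0 ϖ r)
  have hgens : ∀ ϖ r, GoodGens 𝒜 (S₁ ϖ r) (gensOf 𝒜 (S₁ ϖ r)) := fun ϖ r =>
    goodGens_gensOf 𝒜 (hgood ϖ r)
  have hfull : ∀ ϖ r, ϖ ≠ 0 → ∀ a : A, ∃ n : R, n ≠ 0 ∧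
      n • a ∈ Algebra.adjoin R (gensOf 𝒜 (S₁ ϖ r)) := by
    intro ϖ r hϖ a
    obtain ⟨n, hn, hna⟩ := full_orderAlg (R := R) (O := O) (L := L) (x := x) (τ := τ)
      (C₀ := (C₀ : Set O)) (ϖ := ϖ) (r := r) h hRL hC₀ (fun c hc => by
        refine mul_ne_zero hc fun h0 => hc ?_
        rw [← h.invol c, h0, map_zero]) (fun l => by
        obtain ⟨⟨a, b⟩, hab⟩ := IsLocalization.surj (nonZeroDivisors O) l
        exact ⟨a, b, nonZeroDivisors.coe_ne_zero b, by rw [mul_comm]; exact hab⟩) hgen hϖ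
      inferInstance (j a)
    refine ⟨n, hn, ?_⟩
    rw [(hgens ϖ r).2.2]
    change j (n • a) ∈ T₁ ϖ r
    rw [map_smul]
    exact hna
  have hLG : LocalGens 𝒜 (fun p => gensOf 𝒜 (S₁ (ϖ p) (r p))) (gensOf 𝒜 (S₁ 1 0)) :=
    { finite := fun p => (hgens _ _).1
      finite₀ := (hgens _ _).1
      ae := by
        obtain ⟨d, hd0, hd⟩ := h.exists_disc
        refine (finite_mem_prime hd0).subset ?_
        intro p hp
        by_contra hdp
        apply hp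
        obtain ⟨h1, h2⟩ := hpar2 p (hd p.asIdeal hdp)
        change gensOf 𝒜 (S₁ (ϖ p) (r p)) = _
        rw [h1, h2]
      homog := fun p => (hgens _ _).2.1
      full := fun p => hfull _ _ (hpar1 p).1
      full₀ := hfull _ _ one_ne_zero }
  refine exists_model 𝒜 hLG hRf fun p => ?_
  obtain ⟨hϖ0, hη, hΛ⟩ := hpar1 p
  have hOH : OrderHyp ℳ x τ (oM O L M (ϖ p)) (lamP O L M p.asIdeal) (r p)
      (locSub p.asIdeal (T₁ (ϖ p) (r p))) :=
    orderHyp_locSub h hRL hτO hτ hτgr hxdeg hstar hC₀ p.asIdeal hη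
  have hϖM : oM O L M (ϖ p) ≠ 0 := by
    intro h0
    apply hϖ0
    apply hOL
    apply hLM
    rw [map_zero, map_zero]
    exact h0
  refine regAt_of_involution 𝒜 ℳ (j : A →+* M) ι (localOrder _ p)
    (locSub p.asIdeal (T₁ (ϖ p) (r p))) hj hι hgr τ hτ hτgr hfix hfix' ?_ ?_ τF hτF hτF2 ?_
  · intro a
    change a ∈ locSub p.asIdeal (Algebra.adjoin R (gensOf 𝒜 (S₁ (ϖ p) (r p)))) ↔ _
    rw [(hgens _ _).2.2]
    constructor
    · rintro ⟨n, hn, hna⟩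
      refine ⟨n, hn, ?_⟩
      have hna' : j (n • a) ∈ T₁ (ϖ p) (r p) := hna
      rw [map_smul] at hna'
      exact hna'
    · rintro ⟨n, hn, hna⟩
      refine ⟨n, hn, ?_⟩
      change j (n • a) ∈ T₁ (ϖ p) (r p)
      rw [map_smul]
      exact hna
  · rintro t ⟨n, hn, hnt⟩
    refine ⟨n, hn, ?_⟩
    have := hT₁τ _ _ _ hnt
    rwa [Algebra.smul_def, map_mul, hτR, ← Algebra.smul_def] at this
  · intro Q hQ hrel
    exact hOH.main ι hι τF hτF hτF2 hstar hseg hϖM (hC p) (hpar3 p) hΛ Q hQ hrel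

end Model

end Pool.Agent.Lib.MP_6a3dac_ag
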