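import Pool.Agent.Lib.MP_6a3dac_ag.QWPres
import Pool.Agent.Lib.MP_6a3dac_ag.QWWeilInv

/-!
# The gradings
-/

set_option autoImplicit false

namespace Pool.Agent.Lib.MP_6a3dac_ag

open MvPolynomial

section

attribute [local instance] MvPolynomial.gradedAlgebra

/-- The homogeneous ideal, as a bundled homogeneous ideal of Mathlib. -/
def HomIdeal.toHom {O : Type} [CommRing O] {n : ℕ} (𝔞 : HomIdeal O n) :
    HomogeneousIdeal (homogeneousSubmodule (Fin n) O) :=
  ⟨𝔞.ideal, fun i f hf => by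
    change ((MvPolynomial.decomposition.decompose' f i :
      homogeneousSubmodule (Fin n) O i) : MvPolynomial (Fin n) O) ∈ _
    rw [MvPolynomial.decomposition.decompose'_apply]
    exact 𝔞.homog f hf i⟩

section Coord

variable {O : Type} [CommRing O] {n : ℕ} (𝔞 : HomIdeal O n)

theorem isInternal_hGr : DirectSum.IsInternal (hGr 𝔞) := isInternal_coordGr 𝔞.toHom

theorem gradedMonoid_hGr : SetLike.GradedMonoid (hGr 𝔞) := gradedMonoid_coordGr 𝔞.toHom

end Coord

section Weil

variable {K L O : Type} [Field K] [Field L] [Algebra K L] [CommRing O] [Algebra O L] {n : ℕ}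
  (σ : L ≃ₐ[K] L) (𝔞 : HomIdeal O n)

theorem adjoin_restrictScalars_eq {P : Type} [CommRing P] [Algebra K P] [Algebra L P]
    [IsScalarTower K L P] (s : Set P) (z : P) :
    z ∈ Algebra.adjoin K (Set.range (algebraMap L P) ∪ s) ↔ z ∈ Algebra.adjoin L s := by
  constructor
  · intro hz
    induction hz using Algebra.adjoin_induction with
    | mem x hx =>
      rcases hx with ⟨c, rfl⟩ | hx
      · exact Subalgebra.algebraMap_mem _ _
      · exact Algebra.subset_adjoin hx
    | algebraMap c =>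
      rw [IsScalarTower.algebraMap_apply K L P]
      exact Subalgebra.algebraMap_mem _ _
    | add x y _ _ hx hy => exact add_mem hx hy
    | mul x y _ _ hx hy => exact mul_mem hx hy
  · intro hz
    induction hz using Algebra.adjoin_induction with
    | mem x hx => exact Algebra.subset_adjoin (Or.inr hx)
    | algebraMap c => exact Algebra.subset_adjoin (Or.inl ⟨c, rfl⟩)
    | add x y _ _ hx hy => exact add_mem hx hy
    | mul x y _ _ hx hy => exact mul_mem hx hy

theorem mem_segSub_iff (z : PairRing σ 𝔞.toHom) :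
    (z : PCoord σ 𝔞) ∈ segSub σ 𝔞 ↔ z ∈ segreAlg σ 𝔞.toHom :=
  adjoin_restrictScalars_eq (K := K) (L := L) (P := PairRing σ 𝔞.toHom) _ z

theorem swapHom_eq (P : MvPolynomial (Fin n ⊕ Fin n) L) : swapHom σ n P = swapPoly n σ P := by
  have h : ((swapHom σ n : MvPolynomial (Fin n ⊕ Fin n) L →ₐ[K] _) :
      MvPolynomial (Fin n ⊕ Fin n) L →+* MvPolynomial (Fin n ⊕ Fin n) L) = swapPoly n σ := by
    apply MvPolynomial.ringHom_ext
    · intro r
      rw [swapPoly_C]
      simp only [swapHom, RingHom.coe_coe, aevalTower_C]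
      rfl
    · intro i
      rw [swapPoly_X]
      simp [swapHom]
  exact congrArg (fun f : MvPolynomial (Fin n ⊕ Fin n) L →+* _ => f P) h

theorem mem_resSub_iff (z : PairRing σ 𝔞.toHom) :
    (z : PCoord σ 𝔞) ∈ resSub σ 𝔞 ↔ z ∈ resAlg σ 𝔞.toHom := by
  constructor
  · rintro ⟨h1, P, hP1, hP2⟩
    refine ⟨(mem_segSub_iff σ 𝔞 z).mp h1, P, hP2, ?_⟩
    rw [← hP2, ← swapHom_eq]
    exact (AlgHom.mem_equalizer _ _ _).mp hP1 |>.symm
  · rintro ⟨h1, P, hP1, hP2⟩
    refine ⟨(mem_segSub_iff σ 𝔞 z).mpr h1, P, ?_, hP1⟩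
    refine (AlgHom.mem_equalizer _ _ _).mpr ?_
    rw [← swapHom_eq] at hP2
    exact hP1.trans hP2.symm

theorem isInternal_rGr : DirectSum.IsInternal (rGr σ 𝔞) := by
  have h1 : IsHomog (pairGr σ 𝔞.toHom) (resSub σ 𝔞 : Subalgebra K (PairRing σ 𝔞.toHom)) := by
    intro z hz i
    exact (mem_resSub_iff σ 𝔞 _).mpr
      (isHomog_resAlg σ 𝔞.toHom z ((mem_resSub_iff σ 𝔞 z).mp hz) i)
  exact isInternal_of_isHomog σ 𝔞.toHom h1
    (fun z hz => ((mem_resSub_iff σ 𝔞 z).mp hz).1)

theorem gradedMonoid_rGr : SetLike.GradedMonoid (rGr σ 𝔞) where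
  one_mem := by
    change (1 : PairRing σ 𝔞.toHom) ∈ pairGr σ 𝔞.toHom 0
    exact SetLike.GradedOne.one_mem (A := pairGr σ 𝔞.toHom)
  mul_mem i j a b ha hb := by
    have h := SetLike.mul_mem_graded (A := pairGr σ 𝔞.toHom) ha hb
    rw [← mul_add] at h
    exact h

end Weil

end

end Pool.Agent.Lib.MP_6a3dac_ag
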