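import Pool.Agent.Lib.MP_6a3dac_ag.HermIndep

/-!
# Independence of the equations of a Hermitian quadric in the first kind of charts
-/

set_option autoImplicit false

namespace Pool.Agent.Lib.MP_6a3dac_ag

open Matrix MvPolynomial IsLocalRing

section Defs

variable {O : Type} [CommRing O] (t n : O) {N : ℕ} (p q : Matrix (Fin N) (Fin N) O)

/-- The polynomial `∑ p_kl ε_kl + q_kl δ_kl` in the variables `a`, `b`. -/
noncomputable def hPoly : CoordRing O N := ∑ k, ∑ l, (C (p k l) * epsP t n k l +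
  C (q k l) * delP O k l)

/-- The generic vector. -/
noncomputable def genV (O : Type) [CommRing O] (N : ℕ) : Fin N ⊕ Fin N → CoordRing O N := X

theorem hPoly_eq : hPoly t n p q =
    genV O N ⬝ᵥ (hMat t n p q).map C *ᵥ genV O N := by
  rw [map_hMat, dot_hMat, hPoly]
  rfl

/-- The equations of a Hermitian quadric in the first kind of charts. -/
noncomputable def eqsHA (i : Fin N) : Fin 3 → CoordRing O N :=
  ![X (Sum.inl i) - 1, X (Sum.inr i), hPoly t n p q]

end Defs

section Indep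

variable {O : Type} [CommRing O] [IsDomain O] [IsDiscreteValuationRing O]
  [Finite (ResidueField O)] {t n : O} {N : ℕ} {p q : Matrix (Fin N) (Fin N) O} {π : O}

theorem indep_eqsHA (hπ : Irreducible π) (hani : RadAnisoI π (hMat t n p q))
    (hdet : (hMat t n p q + (hMat t n p q)ᵀ).det ≠ 0)
    {i : Fin N} (Q : Ideal (CoordRing O N)) [Q.IsPrime]
    (hQ : ∀ k, eqsHA t n p q i k ∈ Q) (s : CoordRing O N) (hs : s ∉ Q)
    (c : Fin 3 → CoordRing O N)
    (h : s * ∑ k, c k * eqsHA t n p q i k ∈ Q ^ 2) (k : Fin 3) : c k ∈ Q := by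
  classical
  have hQp : Q.IsPrime := ‹_›
  set pC := p.map (C : O →+* CoordRing O N) with hpC
  set qC := q.map (C : O →+* CoordRing O N) with hqC
  obtain ⟨M, hM⟩ : ∃ M, M = hMat (C t) (C n) pC qC := ⟨_, rfl⟩
  have hMC : (hMat t n p q).map (C : O →+* CoordRing O N) = M := by
    rw [hM, map_hMat]
  have hGC : (hMat t n p q + (hMat t n p q)ᵀ).map (C : O →+* CoordRing O N) = M + Mᵀ := by
    rw [← hMC]
    ext i j
    simp
  obtain ⟨v, hv⟩ : ∃ v, v = genV O N := ⟨_, rfl⟩
  obtain ⟨f, hf⟩ : ∃ f, f = hPoly t n p q := ⟨_, rfl⟩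
  have hf' : v ⬝ᵥ M *ᵥ v = f := by rw [hf, hPoly_eq, hMC, hv]
  have hvX : ∀ a, v a = X a := fun a => by rw [hv]; rfl
  have e0 : eqsHA t n p q i 0 = v (Sum.inl i) - 1 := by rw [hvX]; rfl
  have e1 : eqsHA t n p q i 1 = v (Sum.inr i) := by rw [hvX]; rfl
  have e2 : eqsHA t n p q i 2 = f := by rw [hf]; rfl
  have m0 : v (Sum.inl i) - 1 ∈ Q := e0 ▸ hQ 0
  have m1 : v (Sum.inr i) ∈ Q := e1 ▸ hQ 1
  have m2 : f ∈ Q := e2 ▸ hQ 2
  have hC0 : ∀ (Δ : Derivation O (CoordRing O N) (CoordRing O N)) (r : O), Δ (C r) = 0 :=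
    fun Δ r => Δ.map_algebraMap r
  have hder : ∀ a, c 0 * (if Sum.inl i = a then 1 else 0) + c 1 * (if Sum.inr i = a then 1 else 0) +
      c 2 * ((M + Mᵀ) *ᵥ v) a ∈ Q := by
    intro a
    have h1 := derivation_sum_mem Q (pderiv a) hQ hs h
    rw [Fin.sum_univ_three, e0, e1, e2, map_sub, Derivation.map_one_eq_zero, sub_zero, ← hf',
      hM, derivation_hVal (C t) (C n) pC qC (pderiv a) (hC0 _ t) (hC0 _ n) (fun k l => hC0 _ _)
      (fun k l => hC0 _ _), ← hM] at h1
    have h2 : (fun b => pderiv a (v b)) = (Pi.single a 1 : Fin N ⊕ Fin N → CoordRing O N) := by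
      ext b
      rw [hvX, pderiv_X]
    rw [h2, single_one_dotProduct, hvX, hvX, pderiv_X, pderiv_X] at h1
    simp only [Pi.single_apply] at h1
    exact h1
  have hcci : ∀ {z : CoordRing O N}, v (Sum.inl i) * z ∈ Q → z ∈ Q := by
    intro z hz
    refine (hQp.mem_or_mem hz).resolve_left fun h1 => hQp.ne_top ((Ideal.eq_top_iff_one _).mpr ?_)
    have := Q.sub_mem h1 m0
    rwa [sub_sub_cancel] at this
  have hc2 : c 2 ∈ Q := by
    by_contra hc2
    have hcanc : ∀ {z : CoordRing O N}, c 2 * z ∈ Q → z ∈ Q := fun hz =>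
      (hQp.mem_or_mem hz).resolve_left hc2
    obtain ⟨G, hG⟩ : ∃ G, G = (M + Mᵀ) *ᵥ v := ⟨_, rfl⟩
    have hG0 : ∀ a, a ≠ Sum.inl i → a ≠ Sum.inr i → G a ∈ Q := by
      intro a ha ha'
      have h1 := hder a
      rw [if_neg (Ne.symm ha), if_neg (Ne.symm ha'), mul_zero, mul_zero, zero_add, zero_add,
        ← hG] at h1
      exact hcanc h1
    have hvv : v ⬝ᵥ G = 2 * f := by
      rw [hG, ← hf', add_mulVec, dotProduct_add, mulVec_transpose, dotProduct_comm v (v ᵥ* M),
        ← dotProduct_mulVec]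
      ring
    have hwv : omV (C t) (C n) v ⬝ᵥ G = C t * f := by
      rw [hG, hM, dot_hMat_symm, ← hf', hM, dot_hMat, Finset.mul_sum]
      refine Finset.sum_congr rfl fun k _ => ?_
      rw [Finset.mul_sum]
      refine Finset.sum_congr rfl fun l _ => ?_
      simp only [epsB, delB, omV, Sum.elim_inl, Sum.elim_inr]
      ring
    have hGi : G (Sum.inl i) ∈ Q := by
      apply hcci
      have h1 : v ⬝ᵥ G ∈ Q := by
        rw [hvv]
        exact Q.mul_mem_left _ m2
      rw [dotProduct, ← Finset.add_sum_erase _ _ (Finset.mem_univ (Sum.inl i))] at h1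
      refine (Ideal.add_mem_iff_left _ ?_).mp h1
      refine Q.sum_mem fun a ha => ?_
      have ha1 : a ≠ Sum.inl i := Finset.ne_of_mem_erase ha
      by_cases ha2 : a = Sum.inr i
      · rw [ha2]
        exact Q.mul_mem_right _ m1
      · exact Q.mul_mem_left _ (hG0 a ha1 ha2)
    have hGi' : G (Sum.inr i) ∈ Q := by
      apply hcci
      have h1 : omV (C t) (C n) v ⬝ᵥ G ∈ Q := by
        rw [hwv]
        exact Q.mul_mem_left _ m2
      rw [dotProduct, ← Finset.add_sum_erase _ _ (Finset.mem_univ (Sum.inr i))] at h1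
      have h2 : omV (C t) (C n) v (Sum.inr i) * G (Sum.inr i) ∈ Q := by
        refine (Ideal.add_mem_iff_left _ ?_).mp h1
        refine Q.sum_mem fun a ha => ?_
        have ha1 : a ≠ Sum.inr i := Finset.ne_of_mem_erase ha
        by_cases ha2 : a = Sum.inl i
        · rw [ha2]
          exact Q.mul_mem_left _ hGi
        · exact Q.mul_mem_left _ (hG0 a ha2 ha1)
      have h3 : omV (C t) (C n) v (Sum.inr i) = v (Sum.inl i) + C t * v (Sum.inr i) := rfl
      rw [h3, add_mul] at h2
      exact (Ideal.add_mem_iff_left _ (Q.mul_mem_right _ (Q.mul_mem_left _ m1))).mp h2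
    have hGall : ∀ a, G a ∈ Q := by
      intro a
      by_cases h1 : a = Sum.inl i
      · rwa [h1]
      · by_cases h2 : a = Sum.inr i
        · rwa [h2]
        · exact hG0 a h1 h2
    -- the gradient at `ω v`
    have hGω : ∀ a, ((M + Mᵀ) *ᵥ omV (C t) (C n) v) a ∈ Q := by
      have hl : ∀ k, ((M + Mᵀ) *ᵥ omV (C t) (C n) v) (Sum.inl k) ∈ Q := by
        intro k
        have h1 := grad_inr (C t) (C n) pC qC v k
        rw [← hM, ← hG] at h1
        have h2 : ((M + Mᵀ) *ᵥ omV (C t) (C n) v) (Sum.inl k) =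
            C t * G (Sum.inl k) - G (Sum.inr k) := by
          rw [h1]; ring
        rw [h2]
        exact Q.sub_mem (Q.mul_mem_left _ (hGall _)) (hGall _)
      rintro (k | k)
      · exact hl k
      · rw [hM, grad_inr, ← hM]
        refine Q.sub_mem (Q.mul_mem_left _ (hl k)) ?_
        have h1 : omV (C t) (C n) (omV (C t) (C n) v) =
            (C t : CoordRing O N) • omV (C t) (C n) v - (C n : CoordRing O N) • v := by
          ext a
          rcases a with a | a
          · simp only [omV, Sum.elim_inl, Sum.elim_inr, Pi.sub_apply, Pi.smul_apply, smul_eq_mul]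
            ring_nf
          · simp only [omV, Sum.elim_inl, Sum.elim_inr, Pi.sub_apply, Pi.smul_apply, smul_eq_mul]
            ring_nf
        rw [h1, mulVec_sub, mulVec_smul, mulVec_smul, ← hG]
        exact Q.sub_mem (Q.mul_mem_left _ (hl k)) (Q.mul_mem_left _ (hGall _))
    have c0m : c 0 ∈ Q := by
      have h1 := hder (Sum.inl i)
      rw [if_pos rfl, if_neg (by simp), mul_one, mul_zero, add_zero, ← hG] at h1
      exact (Ideal.add_mem_iff_left _ (Q.mul_mem_left _ hGi)).mp h1
    have c1m : c 1 ∈ Q := by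
      have h1 := hder (Sum.inr i)
      rw [if_pos rfl, if_neg (by simp), mul_one, mul_zero, zero_add, ← hG] at h1
      exact (Ideal.add_mem_iff_left _ (Q.mul_mem_left _ hGi')).mp h1
    have hcomb : s * (c 2 * f) ∈ Q ^ 2 := by
      rw [Fin.sum_univ_three, e0, e1, e2] at h
      have h1 : s * (c 2 * f) = s * (c 0 * (v (Sum.inl i) - 1) + c 1 * v (Sum.inr i) +
          c 2 * f) - s * (c 0 * (v (Sum.inl i) - 1) + c 1 * v (Sum.inr i)) := by ring
      rw [h1]
      refine Ideal.sub_mem _ h (Ideal.mul_mem_left _ _ ?_)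
      rw [pow_two]
      exact Ideal.add_mem _ (Ideal.mul_mem_mul c0m m0) (Ideal.mul_mem_mul c1m m1)
    have hviQ : v (Sum.inl i) ∉ Q := by
      intro h1
      refine hQp.ne_top ((Ideal.eq_top_iff_one _).mpr ?_)
      have := Q.sub_mem h1 m0
      rwa [sub_sub_cancel] at this
    have hdetQ : C (hMat t n p q + (hMat t n p q)ᵀ).det ∈ Q := by
      refine det_mem_of_grad C Q _ (x := v) ?_ hviQ
      rw [hGC, ← hG]
      exact hGall
    have hm := C_mem_of_C_mem Q hdet hdetQ
    have hs' : s * c 2 ∉ Q := fun h1 => (hQp.mem_or_mem h1).elim hs hc2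
    have hfin := null_pairI hπ hani (C : O →+* CoordRing O N) Q hm
      (fun s' hs' => mul_C_notMem_sq hπ Q (hm π (by
        rw [hπ.maximalIdeal_eq]
        exact Ideal.mem_span_singleton_self _)) hs')
      (x := v) (y := omV (C t) (C n) v) (by rw [hGC, ← hG]; exact hGall)
      (by rw [hGC]; exact hGω) hs' (by
        intro ξ η
        rw [hMC, hM, dot_omV_norm, ← hM, hf']
        have h1 : s * c 2 * ((ξ ^ 2 + C t * ξ * η + C n * η ^ 2) * f) =
          (ξ ^ 2 + C t * ξ * η + C n * η ^ 2) * (s * (c 2 * f)) := by ring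
        rw [h1]
        exact Ideal.mul_mem_left _ _ hcomb) (Sum.inl i) (Sum.inr i)
    have h3 : omV (C t) (C n) v (Sum.inr i) = v (Sum.inl i) + C t * v (Sum.inr i) := rfl
    rw [h3] at hfin
    have h4 : v (Sum.inl i) * (v (Sum.inl i) * 1) ∈ Q := by
      have h5 := Q.add_mem hfin (Q.mul_mem_left (omV (C t) (C n) v (Sum.inl i) -
        v (Sum.inl i) * C t) m1)
      have h6 : v (Sum.inl i) * (v (Sum.inl i) + C t * v (Sum.inr i)) -
          v (Sum.inr i) * omV (C t) (C n) v (Sum.inl i) +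
          (omV (C t) (C n) v (Sum.inl i) - v (Sum.inl i) * C t) * v (Sum.inr i) =
          v (Sum.inl i) * (v (Sum.inl i) * 1) := by ring
      rwa [h6] at h5
    exact hQp.ne_top ((Ideal.eq_top_iff_one _).mpr (hcci (hcci h4)))
  have c0m : c 0 ∈ Q := by
    have h1 := hder (Sum.inl i)
    rw [if_pos rfl, if_neg (by simp), mul_one, mul_zero, add_zero] at h1
    exact (Ideal.add_mem_iff_left _ (Q.mul_mem_right _ hc2)).mp h1
  have c1m : c 1 ∈ Q := by
    have h1 := hder (Sum.inr i)
    rw [if_pos rfl, if_neg (by simp), mul_one, mul_zero, zero_add] at h1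
    exact (Ideal.add_mem_iff_left _ (Q.mul_mem_right _ hc2)).mp h1
  fin_cases k
  · exact c0m
  · exact c1m
  · exact hc2

end Indep

end Pool.Agent.Lib.MP_6a3dac_ag
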