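import Pool.Agent.Lib.MP_6a3dac_ag.Mg.G007
import Pool.Agent.Lib.MP_6a3dac_ag.HermIndepA

/-!
# Hermitian quadrics: the basic definitions
-/

set_option autoImplicit false

namespace Pool.Agent.Lib.MP_6a3dac_ag

open MvPolynomial

section Defs

variable {K : Type} [CommRing K] (t n : K) {N : ℕ} (P Q : Matrix (Fin N) (Fin N) K)

theorem hPoly_mem : hPoly t n P Q ∈ weilAlg t n N := by
  refine Subalgebra.sum_mem _ fun k _ => Subalgebra.sum_mem _ fun l _ => ?_
  refine Subalgebra.add_mem _ (Subalgebra.mul_mem _ (Subalgebra.algebraMap_mem _ _) ?_)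
    (Subalgebra.mul_mem _ (Subalgebra.algebraMap_mem _ _) ?_)
  · exact Algebra.subset_adjoin (Or.inl ⟨(k, l), rfl⟩)
  · exact Algebra.subset_adjoin (Or.inr ⟨(k, l), rfl⟩)

theorem isHomogeneous_hPoly : (hPoly t n P Q).IsHomogeneous 2 := by
  refine IsHomogeneous.sum _ _ _ fun k _ => IsHomogeneous.sum _ _ _ fun l _ => ?_
  have h1 := (isHomogeneous_C (Fin N ⊕ Fin N) (P k l)).mul (epsP_isHomogeneous t n k l)
  have h2 := (isHomogeneous_C (Fin N ⊕ Fin N) (Q k l)).mul (delP_isHomogeneous (K := K) k l)
  rw [zero_add] at h1 h2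
  exact h1.add h2

/-- The ideal generated by the element `∑ P_kl ε_kl + Q_kl δ_kl`. -/
noncomputable def hermIdeal : Ideal (weilAlg t n N) :=
  Ideal.span {⟨hPoly t n P Q, hPoly_mem t n P Q⟩}

/-- The homogeneous coordinate ring of a Hermitian quadric. -/
def HermRing : Type := weilAlg t n N ⧸ hermIdeal t n P Q

/-- The quotient ring structure. -/
noncomputable def hermCommRing : CommRing (HermRing t n P Q) :=
  Ideal.Quotient.commRing (hermIdeal t n P Q)

noncomputable instance instCommRingHermRing : CommRing (HermRing t n P Q) :=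
  hermCommRing t n P Q

/-- The quotient algebra structure. -/
noncomputable def hermAlgebra (R : Type) [CommRing R] [Algebra R K] :
    Algebra R (HermRing t n P Q) :=
  Ideal.instAlgebraQuotient R (hermIdeal t n P Q)

noncomputable instance instAlgebraHermRing {R : Type} [CommRing R] [Algebra R K] :
    Algebra R (HermRing t n P Q) :=
  hermAlgebra t n P Q R

instance instIsScalarTowerHermRing {R : Type} [CommRing R] [Algebra R K] :
    IsScalarTower R K (HermRing t n P Q) :=
  IsScalarTower.of_algebraMap_eq fun r => by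
    change Ideal.Quotient.mk (hermIdeal t n P Q) (algebraMap R (weilAlg t n N) r) =
      Ideal.Quotient.mk (hermIdeal t n P Q) (algebraMap K (weilAlg t n N) (algebraMap R K r))
    rw [← IsScalarTower.algebraMap_apply]

/-- The projection to the homogeneous coordinate ring of the Hermitian quadric. -/
noncomputable def hermMk : weilAlg t n N →+* HermRing t n P Q :=
  Ideal.Quotient.mk (hermIdeal t n P Q)

theorem hermMk_surjective : Function.Surjective (hermMk t n P Q) := Ideal.Quotient.mk_surjective

theorem hermMk_algebraMap {R : Type} [CommRing R] [Algebra R K] (r : R) :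
    hermMk t n P Q (algebraMap R _ r) = algebraMap R _ r := rfl

theorem hermMk_eq_zero_iff (a : weilAlg t n N) :
    hermMk t n P Q a = 0 ↔ a ∈ hermIdeal t n P Q := Ideal.Quotient.eq_zero_iff_mem

/-- The projection as a homomorphism of algebras. -/
noncomputable def hermMkₐ (R : Type) [CommRing R] [Algebra R K] :
    weilAlg t n N →ₐ[R] HermRing t n P Q :=
  { hermMk t n P Q with commutes' := fun _ => rfl }

/-- The grading of the homogeneous coordinate ring of a Hermitian quadric. -/
noncomputable def hermGr (k : ℕ) : Submodule K (HermRing t n P Q) :=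
  (weilGr t n N k).map (hermMkₐ t n P Q K).toLinearMap

theorem isHomogeneous_hermIdeal : (hermIdeal t n P Q).IsHomogeneous (weilGr t n N) := by
  apply Ideal.homogeneous_span
  rintro _ rfl
  exact ⟨1, isHomogeneous_hPoly t n P Q⟩

theorem isInternal_hermGr : DirectSum.IsInternal (hermGr t n P Q) :=
  isInternal_quotGr (weilGr t n N) _ (isHomogeneous_hermIdeal t n P Q)

theorem gradedMonoid_hermGr : SetLike.GradedMonoid (hermGr t n P Q) :=
  quotGr_gradedMonoid (weilGr t n N) (hermIdeal t n P Q)

/-- The graded algebra structure (its decomposition map is determined by the grading). -/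
noncomputable instance hermGradedAlgebra : GradedAlgebra (hermGr t n P Q) :=
  { (isInternal_hermGr t n P Q).chooseDecomposition, gradedMonoid_hermGr t n P Q with }

theorem nontrivial_hermRing [Nontrivial K] : Nontrivial (HermRing t n P Q) := by
  change Nontrivial (weilAlg t n N ⧸ hermIdeal t n P Q)
  apply Ideal.Quotient.nontrivial_iff.mpr
  intro h
  have h1 : (1 : weilAlg t n N) ∈ hermIdeal t n P Q := by rw [h]; exact Submodule.mem_top
  obtain ⟨b, hb⟩ := Ideal.mem_span_singleton.mp h1
  have h2 := congrArg (fun x : weilAlg t n N => eval (fun _ => (0 : K)) (x : CoordRing K N)) hb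
  change eval _ (1 : CoordRing K N) = eval _ (hPoly t n P Q * (b : CoordRing K N)) at h2
  rw [map_one, map_mul] at h2
  have h3 : eval (fun _ => (0 : K)) (hPoly t n P Q) = 0 := by
    rw [hPoly, map_sum]
    refine Finset.sum_eq_zero fun k _ => ?_
    rw [map_sum]
    refine Finset.sum_eq_zero fun l _ => ?_
    simp [epsP, delP]
  rw [h3, zero_mul] at h2
  exact one_ne_zero h2

end Defs

end Pool.Agent.Lib.MP_6a3dac_ag
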