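import Pool.Agent.Lib.MP_6a3dac_ag.WeilRegAt
import Pool.Agent.Lib.MP_6a3dac_ag.HermIndepA

/-!
# Regularity of the local models of Hermitian quadrics
-/

set_option autoImplicit false

namespace Pool.Agent.Lib.MP_6a3dac_ag

open MvPolynomial IsLocalRing

section Lin

variable {O : Type} [CommRing O] (t n : O) {N : ℕ} (p q : Matrix (Fin N) (Fin N) O)

/-- The linear form in the generators corresponding to a Hermitian form. -/
noncomputable def hLin : MvPolynomial (WG N) O :=
  ∑ k, ∑ l, (C (p k l) * X (Sum.inl (k, l)) + C (q k l) * X (Sum.inr (k, l)))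

theorem isHomogeneous_hLin : (hLin p q).IsHomogeneous 1 := by
  refine IsHomogeneous.sum _ _ _ fun k _ => IsHomogeneous.sum _ _ _ fun l _ => ?_
  have h1 := (isHomogeneous_C (WG N) (p k l)).mul (isHomogeneous_X O (Sum.inl (k, l)))
  have h2 := (isHomogeneous_C (WG N) (q k l)).mul (isHomogeneous_X O (Sum.inr (k, l)))
  rw [zero_add] at h1 h2
  exact h1.add h2

theorem psiS_hLin : psiS O t n N (hLin p q) = hPoly t n p q := by
  rw [hLin, hPoly, map_sum]
  refine Finset.sum_congr rfl fun k _ => ?_
  rw [map_sum]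
  refine Finset.sum_congr rfl fun l _ => ?_
  rw [map_add, map_mul, map_mul, psiS_C, psiS_C, psiS_inl, psiS_inr]
  rfl

theorem thetaD_hLin : thetaD t N (hLin p q) = hEqD t p q := by
  rw [hLin, hEqD, hEq, map_sum]
  refine Finset.sum_congr rfl fun k _ => ?_
  rw [map_sum]
  refine Finset.sum_congr rfl fun l _ => ?_
  have hC : ∀ r : O, thetaD t N (C r) = C r := fun r => (thetaD t N).commutes r
  rw [map_add, map_mul, map_mul, hC, hC, thetaD_inl, thetaD_inr]
  rfl

end Lin

section Main

variable {R O K A : Type} [CommRing R] [CommRing O] [IsDomain O] [IsDiscreteValuationRing O]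
  [Finite (ResidueField O)] [Field K] [CommRing A] [Algebra R K] [Algebra K A] [Algebra R A]
  [IsScalarTower R K A] [Algebra R O] [Algebra O K] [IsScalarTower R O K] [IsFractionRing O K]
  (𝒜 : ℕ → Submodule K A) [GradedAlgebra 𝒜] (p : Ideal R) [p.IsPrime]
  [IsLocalization.AtPrime O p] {t n : O} {N : ℕ} (ψ : MvPolynomial (WG N) O →+* A)
  (hψK : ∀ r, ψ (C r) = algebraMap K A (algebraMap O K r)) (hX : ∀ x, ψ (X x) ∈ 𝒜 1)
  {P Q₀ : Matrix (Fin N) (Fin N) O} {π : O}
  (hz : ∀ Q, psiS K t n N Q = 0 → ψ Q = 0) (hH : ψ (hLin P Q₀) = 0)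
  (hk : ∀ Q, ψ Q = 0 → psiS K t n N Q ∈ Ideal.span {psiS K t n N (hLin P Q₀)})

include hψK hX hz hH hk in
theorem regAt_herm (hπ : Irreducible π) (hmax : MaxOrd t n) (hd : t ^ 2 - 4 * n ≠ 0)
    (hani : RadAnisoI π (hMat t n P Q₀))
    (hdet : (hMat t n P Q₀ + (hMat t n P Q₀).transpose).det ≠ 0) :
    RegAt 𝒜 (genOrder p ψ) := by
  classical
  intro hT y hy hyh hirr
  have hC : ∀ r, ψ (C r) ∈ 𝒜 0 := fun r => by
    rw [hψK]
    exact SetLike.algebraMap_mem_graded _ _
  have hψR : ∀ r, ψ (C (algebraMap R O r)) = algebraMap R A r := fun r => by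
    rw [hψK, ← IsScalarTower.algebraMap_apply R O K, ← IsScalarTower.algebraMap_apply R K A]
  let := subGradedAlgebra 𝒜 hT
  obtain ⟨x, hx⟩ := exists_X_notMem 𝒜 p ψ hC hX hψR hT y hirr
  have hlam : ∀ {L : Type} [CommRing L] (μ : A →+* L) (Q : MvPolynomial (WG N) O),
      psiS K t n N Q = 0 → (μ.comp ψ) Q = 0 := by
    intro L _ μ Q hQ
    rw [RingHom.comp_apply, hz Q hQ, map_zero]
  have hmem : ∀ q, ψ q ∈ genOrder p ψ := fun q => (mem_genOrder p ψ hψR _).mpr ⟨q, rfl⟩
  -- a good generator outside `y`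
  have hcases : (∃ i, (⟨ψ (X (Sum.inl (i, i))), hmem _⟩ : genOrder p ψ) ∉ y) ∨
      ∃ i j, (⟨ψ (X (Sum.inr (i, j))), hmem _⟩ : genOrder p ψ) ∉ y := by
    by_contra hcon
    push Not at hcon
    obtain ⟨h1, h2⟩ := hcon
    rcases x with ⟨k, l⟩ | ⟨k, l⟩
    · apply hx
      apply hy.mem_of_pow_mem 2
      have h3 := hz _ (psiS_rel_norm' K t n k l)
      rw [map_sub, sub_eq_zero] at h3
      let ψ' : MvPolynomial (WG N) O →+* genOrder p ψ :=
        ψ.codRestrict (genOrder p ψ).toSubring fun x => hmem x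
      have h4 : ψ' (X (Sum.inl (k, l)) ^ 2 + C t * (X (Sum.inl (k, l)) * X (Sum.inr (k, l))) +
          C n * X (Sum.inr (k, l)) ^ 2) = ψ' (X (Sum.inl (k, k)) * X (Sum.inl (l, l))) :=
        Subtype.ext h3
      have h5 : (⟨ψ (X (Sum.inl (k, l))), psi_X_mem p ψ _⟩ : genOrder p ψ) ^ 2 =
          ψ' (X (Sum.inl (k, k))) * ψ' (X (Sum.inl (l, l))) -
          ψ' (C t) * ψ' (X (Sum.inl (k, l))) * ψ' (X (Sum.inr (k, l))) -
          ψ' (C n) * ψ' (X (Sum.inr (k, l))) * ψ' (X (Sum.inr (k, l))) := by
        rw [← map_mul, ← h4]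
        simp only [map_add, map_mul, map_pow]
        have h6 : (⟨ψ (X (Sum.inl (k, l))), psi_X_mem p ψ _⟩ : genOrder p ψ) =
          ψ' (X (Sum.inl (k, l))) := rfl
        rw [h6]
        ring
      rw [h5]
      exact y.sub_mem (y.sub_mem (y.mul_mem_left _ (h1 l)) (y.mul_mem_left _ (h2 k l)))
        (y.mul_mem_left _ (h2 k l))
    · exact hx (h2 k l)
  have : Nontrivial (BigLoc y) := nontrivial_bigLoc y
  rcases hcases with ⟨i, hi⟩ | ⟨i, j, hij⟩
  · obtain ⟨δ', h1, h2, h3, h4, h5, h6⟩ := exists_chart 𝒜 p ψ hC hX hψR hT y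
      (isHomogeneous_X O (Sum.inl (i, i))) hi (zvarA O i) (isHomogeneous_zvarA i)
      (psiS O t n N) (fun L _ μ hu δ' e1 e2 => compatA (μ.comp ψ) (hlam μ) i hu δ' e1 e2)
    have hu : IsUnit (algebraMap A (BigLoc y) (ψ (X (Sum.inl (i, i))))) :=
      isUnit_algebraMap_bigLoc y hi
    refine isRegularLocalRing_of_range (bigMap 𝒜 hT y) (bigMap_injective 𝒜 hT y) δ' h4
      (eqsHA t n P Q₀ i) ?_
      (fun Q hQp hQ s hs c hc k => indep_eqsHA hπ hani hdet Q hQ s hs c hc k) h5 ?_
    · intro k
      fin_cases k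
      · change δ' (X (Sum.inl i) - 1) = 0
        rw [map_sub, map_one, sub_eq_zero]
        apply hu.mul_left_cancel
        rw [← h2, mul_one]
        rfl
      · change δ' (X (Sum.inr i)) = 0
        apply hu.mul_left_cancel
        rw [← h2, mul_zero]
        change algebraMap A (BigLoc y) (ψ (X (Sum.inr (i, i)))) = 0
        rw [hz _ (by rw [psiS_inr, delP]; ring), map_zero]
      · change δ' (hPoly t n P Q₀) = 0
        have e1 := map_eq_of_isHomogeneous ((algebraMap A (BigLoc y)).comp ψ) δ' (psiS O t n N)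
          (algebraMap A (BigLoc y) (ψ (X (Sum.inl (i, i))))) h1 h3 (isHomogeneous_hLin P Q₀)
        rw [RingHom.comp_apply, hH, map_zero, pow_one, psiS_hLin] at e1
        exact (hu.mul_right_eq_zero).mp e1.symm
    · intro q hq
      obtain ⟨τ, Q, m, hτ, hQ, hall⟩ := h6 q hq
      let I₀ : Ideal (CoordRing O N) := Ideal.span (Set.range (eqsA O i))
      let I : Ideal (CoordRing O N) := Ideal.span (Set.range (eqsHA t n P Q₀ i))
      have hI₀ : I₀ ≤ I := by
        refine Ideal.span_le.mpr ?_
        rintro _ ⟨k, rfl⟩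
        fin_cases k
        · exact Ideal.subset_span ⟨0, rfl⟩
        · exact Ideal.subset_span ⟨1, rfl⟩
      have ha : Ideal.Quotient.mk I₀ (X (Sum.inl i)) = 1 := by
        rw [← sub_eq_zero, ← map_one (Ideal.Quotient.mk I₀), ← map_sub,
          Ideal.Quotient.eq_zero_iff_mem]
        exact Ideal.subset_span ⟨0, rfl⟩
      have hb : Ideal.Quotient.mk I₀ (X (Sum.inr i)) = 0 := by
        rw [Ideal.Quotient.eq_zero_iff_mem]
        exact Ideal.subset_span ⟨1, rfl⟩
      have hg : Ideal.Quotient.mk I₀ (psiS O t n N (X (Sum.inl (i, i)))) = 1 := by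
        rw [psiS_inl, epsP]
        simp only [map_add, map_mul, ha, hb]
        ring
      have := hall (CoordRing O N ⧸ I₀) ((Ideal.Quotient.mk I₀).comp
        (psiS O t n N : MvPolynomial (WG N) O →+* CoordRing O N)) (Ideal.Quotient.mk I₀)
        (fun r => by
          change Ideal.Quotient.mk I₀ (psiS O t n N (C r)) = _
          rw [psiS_C]
          rfl) (fun v => by
          change Ideal.Quotient.mk I₀ (psiS O t n N (zvarA O i v)) =
            Ideal.Quotient.mk I₀ (psiS O t n N (X (Sum.inl (i, i)))) * _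
          rw [hg, one_mul]
          rcases v with k | k
          · change Ideal.Quotient.mk I₀ (psiS O t n N (X (Sum.inl (k, i)))) = _
            rw [psiS_inl, epsP]
            simp only [map_add, map_mul, ha, hb]
            ring
          · change Ideal.Quotient.mk I₀ (psiS O t n N (X (Sum.inr (k, i)))) = _
            rw [psiS_inr, delP]
            simp only [map_sub, map_mul, ha, hb]
            ring) (fun x => by
          change Ideal.Quotient.mk I₀ (psiS O t n N (X x)) =
            Ideal.Quotient.mk I₀ (psiS O t n N (X (Sum.inl (i, i)))) * _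
          rw [hg, one_mul])
      change Ideal.Quotient.mk I₀ (psiS O t n N Q) =
        Ideal.Quotient.mk I₀ (psiS O t n N (X (Sum.inl (i, i)))) ^ m * _ at this
      rw [hg, one_pow, one_mul, Ideal.Quotient.mk_eq_mk_iff_sub_mem] at this
      obtain ⟨r, hr, hrI⟩ := exists_C_mul_mem (K := K) (I := I) (x := τ * q) (by
        have e1 : τ * q = psiS O t n N Q - (psiS O t n N Q - τ * q) := by ring
        rw [e1, map_sub]
        refine Ideal.sub_mem _ ?_ (Ideal.mem_map_of_mem _ (hI₀ this))
        rw [map_psiS]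
        refine Ideal.span_le.mpr ?_ (hk Q hQ)
        rintro _ rfl
        rw [SetLike.mem_coe, ← map_psiS, psiS_hLin]
        exact Ideal.mem_map_of_mem _ (Ideal.subset_span ⟨2, rfl⟩))
      refine ⟨C r * τ, ?_, ?_⟩
      · rw [map_mul, ← h1, hψK]
        have hr' : algebraMap O K r ≠ 0 := by
          rwa [Ne, FaithfulSMul.algebraMap_eq_zero_iff]
        have hru : IsUnit (algebraMap A (BigLoc y) (algebraMap K A (algebraMap O K r))) :=
          ((isUnit_iff_ne_zero.mpr hr').map _).map _
        exact (hru.mul hτ).ne_zero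
      · rw [mul_assoc]
        exact hrI
  · have hne : i ≠ j := by
      rintro rfl
      apply hij
      have h0 : (⟨ψ (X (Sum.inr (i, i))), hmem _⟩ : genOrder p ψ) = 0 := by
        apply Subtype.ext
        change ψ (X (Sum.inr (i, i))) = 0
        rw [hz _ (by rw [psiS_inr, delP]; ring)]
      rw [h0]
      exact y.zero_mem
    obtain ⟨δ', h1, h2, h3, h4, h5, h6⟩ := exists_chart 𝒜 p ψ hC hX hψR hT y
      (isHomogeneous_X O (Sum.inr (i, j))) hij (zvarD O i j) (isHomogeneous_zvarD i j)
      (thetaD t N) (fun L _ μ hu δ' e1 e2 => compatD (μ.comp ψ) (hlam μ) i j hu δ' e1 e2)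
    have hu : IsUnit (algebraMap A (BigLoc y) (ψ (X (Sum.inr (i, j))))) :=
      isUnit_algebraMap_bigLoc y hij
    refine isRegularLocalRing_of_range (bigMap 𝒜 hT y) (bigMap_injective 𝒜 hT y) δ' h4
      (eqsHD t n P Q₀ i j) ?_
      (fun Q hQp hQ s hs c hc k =>
        indep_eqsHD hπ hmax hd hani hdet hne Q hQ s hs c hc k) h5 ?_
    · intro k
      fin_cases k
      · change δ' (X (Sum.inl (Sum.inl i)) - 1) = 0
        rw [map_sub, map_one, sub_eq_zero]
        apply hu.mul_left_cancel
        rw [← h2, mul_one]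
        rfl
      · change δ' (X (Sum.inl (Sum.inr i))) = 0
        apply hu.mul_left_cancel
        rw [← h2, mul_zero]
        change algebraMap A (BigLoc y) (ψ (X (Sum.inr (i, i)))) = 0
        rw [hz _ (by rw [psiS_inr, delP]; ring), map_zero]
      · change δ' (X (Sum.inl (Sum.inl j))) = 0
        apply hu.mul_left_cancel
        rw [← h2, mul_zero]
        change algebraMap A (BigLoc y) (ψ (X (Sum.inr (j, j)))) = 0
        rw [hz _ (by rw [psiS_inr, delP]; ring), map_zero]
      · change δ' (X (Sum.inl (Sum.inr j)) - 1) = 0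
        rw [map_sub, map_one, sub_eq_zero]
        apply hu.mul_left_cancel
        rw [← h2, mul_one]
        rfl
      · exact normRel ((algebraMap A (BigLoc y)).comp ψ) (hlam _) i j hu δ' h1 h2
      · change δ' (hEqD t P Q₀) = 0
        have e1 := map_eq_of_isHomogeneous ((algebraMap A (BigLoc y)).comp ψ) δ' (thetaD t N)
          (algebraMap A (BigLoc y) (ψ (X (Sum.inr (i, j))))) h1 h3 (isHomogeneous_hLin P Q₀)
        rw [RingHom.comp_apply, hH, map_zero, pow_one, thetaD_hLin] at e1
        exact (hu.mul_right_eq_zero).mp e1.symm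
    · intro q hq
      obtain ⟨τ, Q, m, hτ, hQ, hall⟩ := h6 q hq
      let I : Ideal (MvPolynomial (ChartVar N) O) := Ideal.span (Set.range (eqsHD t n P Q₀ i j))
      have hI : ∀ k, eqsHD t n P Q₀ i j k ∈ I := fun k => Ideal.subset_span ⟨k, rfl⟩
      obtain ⟨r, hr, hrI⟩ := exists_C_mul_mem_of_sections (K := K) (I := I) (hI 4) hd (τ * q) (by
        intro ξ η R₁ _ φ δ'' e1 e2 e3
        obtain ⟨σ, hσC, hσ⟩ := exists_section (K := K) t n φ δ'' e1 (e2 _ (hI 4)) ξ η e3
        have f0 : δ'' (X (Sum.inl (Sum.inl i))) = 1 := by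
          have := e2 _ (hI 0)
          change δ'' (X (Sum.inl (Sum.inl i)) - 1) = 0 at this
          rwa [map_sub, map_one, sub_eq_zero] at this
        have f1 : δ'' (X (Sum.inl (Sum.inr i))) = 0 := e2 _ (hI 1)
        have f2 : δ'' (X (Sum.inl (Sum.inl j))) = 0 := e2 _ (hI 2)
        have f3 : δ'' (X (Sum.inl (Sum.inr j))) = 1 := by
          have := e2 _ (hI 3)
          change δ'' (X (Sum.inl (Sum.inr j)) - 1) = 0 at this
          rwa [map_sub, map_one, sub_eq_zero] at this
        obtain ⟨g, hg⟩ := e3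
        rw [← hg] at hσ
        let μ : MvPolynomial (WG N) O →+* R₁ := σ.comp
          (psiS K t n N : MvPolynomial (WG N) O →+* CoordRing K N)
        have hμX : ∀ x, (g : R₁) * μ (X x) = δ'' (thetaD t N (X x)) := hσ
        have hμg : (g : R₁) * μ (X (Sum.inr (i, j))) = 1 := by
          rw [hμX]
          exact thetaD_g δ'' f0 f1 f3
        have hμgu : μ (X (Sum.inr (i, j))) = ↑(g⁻¹) := by
          rw [← g.inv_mul_cancel_left (μ (X (Sum.inr (i, j)))), hμg, mul_one]
        have hμv : ∀ v, (g : R₁) * μ (zvarD O i j v) = δ'' (X v) := by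
          intro v
          rw [← thetaD_zvarD (t := t) δ'' f0 f1 f2 f3 v]
          rcases v with (k | k) | a
          · exact hμX _
          · exact hμX _
          · fin_cases a
            · exact hμX _
            · change (g : R₁) * μ (-X (Sum.inl (i, i))) =
                δ'' (thetaD t N (-X (Sum.inl (i, i))))
              rw [map_neg, map_neg, map_neg, ← hμX, mul_neg]
            · exact hμX _
        have := hall R₁ μ δ'' (fun r => by
            change σ (psiS K t n N (C r)) = _
            rw [psiS_C, hσC, e1]) (fun v => by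
            rw [hμgu, ← hμv v, Units.inv_mul_cancel_left]) (fun x => by
            rw [hμgu, ← hμX x, Units.inv_mul_cancel_left])
        have h0 : μ Q = 0 := by
          change σ (psiS K t n N Q) = 0
          obtain ⟨w, hw⟩ := Ideal.mem_span_singleton.mp (hk Q hQ)
          rw [hw, map_mul]
          have e6 := map_eq_of_isHomogeneous μ δ'' (thetaD t N) (↑(g⁻¹) : R₁) (fun r => by
            change σ (psiS K t n N (C r)) = _
            rw [psiS_C, hσC, e1]) (fun x => by
            rw [← hμX x, Units.inv_mul_cancel_left]) (isHomogeneous_hLin P Q₀)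
          have e7 : δ'' (hEqD t P Q₀) = 0 := e2 _ (hI 5)
          rw [thetaD_hLin, e7, mul_zero] at e6
          change σ (psiS K t n N (hLin P Q₀)) = 0 at e6
          rw [e6, zero_mul]
        rw [h0, hμgu] at this
        exact (((g⁻¹).isUnit.pow m).mul_right_eq_zero).mp this.symm)
      refine ⟨C r * τ, ?_, ?_⟩
      · rw [map_mul, ← h1, hψK]
        have hr' : algebraMap O K r ≠ 0 := by
          rwa [Ne, FaithfulSMul.algebraMap_eq_zero_iff]
        have hru : IsUnit (algebraMap A (BigLoc y) (algebraMap K A (algebraMap O K r))) :=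
          ((isUnit_iff_ne_zero.mpr hr').map _).map _
        exact (hru.mul hτ).ne_zero
      · rw [mul_assoc]
        exact hrI

end Main

end Pool.Agent.Lib.MP_6a3dac_ag
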