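import Pool.Agent.Lib.MP_6a3dac_ag.HermSubst
import Pool.Agent.Lib.MP_6a3dac_ag.HermRegAt

/-!
# Families of generators of the coordinate ring of a Hermitian quadric
-/

set_option autoImplicit false

namespace Pool.Agent.Lib.MP_6a3dac_ag

open MvPolynomial Matrix IsLocalRing

section Full

variable {R K A B : Type} [CommRing R] [IsDomain R] [Field K] [Algebra R K] [IsFractionRing R K]
  [CommRing A] [Algebra K A] [CommRing B] [Algebra K B] [Algebra R B] [IsScalarTower R K B]

theorem full_of_surjective (Θ : A →ₐ[K] B) (hΘ : Function.Surjective Θ) (s : Set A)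
    (hs : Algebra.adjoin K s = ⊤) (T : Subalgebra R B) (hT : ∀ x ∈ s, Θ x ∈ T) (b : B) :
    ∃ d : R, d ≠ 0 ∧ d • b ∈ T := by
  rw [← mem_satSub (K := K)]
  obtain ⟨a, rfl⟩ := hΘ b
  have h1 : Algebra.adjoin K s ≤ (satSub (K := K) T).comap Θ :=
    Algebra.adjoin_le fun x hx => le_satSub (K := K) (hT x hx)
  rw [hs] at h1
  exact h1 Algebra.mem_top

end Full

section Psi

variable {O K : Type} [CommRing O] [Field K] [Algebra O K] {N : ℕ} {t n : K} {t' n' : O}
  {Φ Φi : CoordRing K N →ₐ[K] CoordRing K N}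

theorem psiS_mem (t' n' : O) (F : MvPolynomial (WG N) O) :
    psiS K t' n' N F ∈ weilAlg (algebraMap O K t') (algebraMap O K n') N := by
  induction F using MvPolynomial.induction_on with
  | C a =>
    rw [psiS_C]
    exact Subalgebra.algebraMap_mem _ _
  | add p q hp hq =>
    rw [map_add]
    exact Subalgebra.add_mem _ hp hq
  | mul_X p x hp =>
    rw [map_mul]
    refine Subalgebra.mul_mem _ hp ?_
    rcases x with ⟨k, l⟩ | ⟨k, l⟩
    · rw [psiS_inl]
      exact epsP_mem _ _ _ _ _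
    · rw [psiS_inr]
      exact delP_mem _ _ _ _ _

theorem psiS_hLinK (t' n' : O) (p q : Matrix (Fin N) (Fin N) O) :
    psiS K t' n' N (hLin p q) = hPoly (algebraMap O K t') (algebraMap O K n')
      (p.map (algebraMap O K)) (q.map (algebraMap O K)) := by
  rw [hLin, hPoly, map_sum]
  refine Finset.sum_congr rfl fun k _ => ?_
  rw [map_sum]
  refine Finset.sum_congr rfl fun l _ => ?_
  rw [map_add, map_mul, map_mul, psiS_C, psiS_C, psiS_inl, psiS_inr]
  rfl

/-- The map from the polynomial ring to the coordinate ring of the Weil restriction. -/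
noncomputable def psiH₀ (hΦ : HermIso t n (algebraMap O K t') (algebraMap O K n') Φ Φi) :
    MvPolynomial (WG N) O →+* weilAlg t n N :=
  RingHom.codRestrict ((Φ : CoordRing K N →+* CoordRing K N).comp
    (psiS K t' n' N : MvPolynomial (WG N) O →+* CoordRing K N)) (weilAlg t n N)
    (fun F => hΦ.mem (psiS_mem t' n' F))

variable (hΦ : HermIso t n (algebraMap O K t') (algebraMap O K n') Φ Φi)

theorem coe_psiH₀ (F : MvPolynomial (WG N) O) :
    ((psiH₀ hΦ F : weilAlg t n N) : CoordRing K N) = Φ (psiS K t' n' N F) := rfl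

theorem psiH₀_X_mem (x : WG N) : psiH₀ hΦ (X x) ∈ weilGr t n N 1 := by
  change Φ (psiS K t' n' N (X x)) ∈ homogeneousSubmodule (Fin N ⊕ Fin N) K (2 * 1)
  rcases x with ⟨k, l⟩ | ⟨k, l⟩
  · rw [psiS_inl, epsP_eq_hPoly]
    obtain ⟨p, q, hpq⟩ := hΦ.map1 (Matrix.single k l 1) 0
    rw [hpq]
    exact isHomogeneous_hPoly t n p q
  · rw [psiS_inr, delP_eq_hPoly (algebraMap O K t') (algebraMap O K n')]
    obtain ⟨p, q, hpq⟩ := hΦ.map1 0 (Matrix.single k l 1)
    rw [hpq]
    exact isHomogeneous_hPoly t n p q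

/-- The map `Φ` on the coordinate rings. -/
noncomputable def thetaH : weilAlg (algebraMap O K t') (algebraMap O K n') N →ₐ[K] weilAlg t n N :=
  AlgHom.codRestrict (Φ.comp (weilAlg (algebraMap O K t') (algebraMap O K n') N).val)
    (weilAlg t n N) (fun b => hΦ.mem b.2)

theorem coe_thetaH (b : weilAlg (algebraMap O K t') (algebraMap O K n') N) :
    ((thetaH hΦ b : weilAlg t n N) : CoordRing K N) = Φ (b : CoordRing K N) := rfl

theorem thetaH_surjective : Function.Surjective (thetaH hΦ) := by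
  intro a
  refine ⟨⟨Φi (a : CoordRing K N), hΦ.symm.mem a.2⟩, ?_⟩
  apply Subtype.ext
  rw [coe_thetaH]
  exact hΦ.inv1 _

theorem full_psiH₀ {R : Type} [CommRing R] [IsDomain R] [Algebra R K] [IsFractionRing R K]
    (a : weilAlg t n N) :
    ∃ d : R, d ≠ 0 ∧ d • a ∈ Algebra.adjoin R (Set.range fun x => psiH₀ hΦ (X x)) := by
  refine full_of_surjective (thetaH hΦ) (thetaH_surjective hΦ) _
    (Algebra.adjoin_adjoin_coe_preimage (R := K)) _ ?_ a
  rintro ⟨x, hx⟩ hxs
  apply Algebra.subset_adjoin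
  rcases hxs with ⟨⟨k, l⟩, hkl⟩ | ⟨⟨k, l⟩, hkl⟩
  · refine ⟨Sum.inl (k, l), ?_⟩
    apply Subtype.ext
    rw [coe_psiH₀, coe_thetaH, psiS_inl]
    change Φ (epsP (algebraMap O K t') (algebraMap O K n') k l) = Φ x
    change epsP (algebraMap O K t') (algebraMap O K n') k l = x at hkl
    rw [hkl]
  · refine ⟨Sum.inr (k, l), ?_⟩
    apply Subtype.ext
    rw [coe_psiH₀, coe_thetaH, psiS_inr]
    change Φ (delP K k l) = Φ x
    change delP K k l = x at hkl
    rw [hkl]

end Psi

section Quot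

variable {O K : Type} [CommRing O] [Field K] [Algebra O K] {N : ℕ} {t n : K} {t' n' : O}
  {Φ Φi : CoordRing K N →ₐ[K] CoordRing K N}
  (hΦ : HermIso t n (algebraMap O K t') (algebraMap O K n') Φ Φi)
  (P Q : Matrix (Fin N) (Fin N) K)

/-- The map from the polynomial ring to the coordinate ring of the Hermitian quadric. -/
noncomputable def psiH : MvPolynomial (WG N) O →+* HermRing t n P Q :=
  (hermMk t n P Q).comp (psiH₀ hΦ)

theorem psiH_apply (F : MvPolynomial (WG N) O) : psiH hΦ P Q F = hermMk t n P Q (psiH₀ hΦ F) :=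
  rfl

theorem psiH_X_mem (x : WG N) : psiH hΦ P Q (X x) ∈ hermGr t n P Q 1 :=
  ⟨_, psiH₀_X_mem hΦ x, rfl⟩

theorem full_quot {R : Type} [CommRing R] [Algebra R K] {S : Set (weilAlg t n N)}
    (h : ∀ b, ∃ d : R, d ≠ 0 ∧ d • b ∈ Algebra.adjoin R S) (a : HermRing t n P Q) :
    ∃ d : R, d ≠ 0 ∧ d • a ∈ Algebra.adjoin R (hermMk t n P Q '' S) := by
  obtain ⟨b, rfl⟩ := hermMk_surjective t n P Q a
  obtain ⟨d, hd, h⟩ := h b
  refine ⟨d, hd, ?_⟩
  have h1 := (Subalgebra.mem_map (f := hermMkₐ t n P Q R)).mpr ⟨_, h, rfl⟩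
  rw [AlgHom.map_adjoin, map_smul] at h1
  exact h1

theorem full_psiH {R : Type} [CommRing R] [IsDomain R] [Algebra R K] [IsFractionRing R K]
    (a : HermRing t n P Q) :
    ∃ d : R, d ≠ 0 ∧ d • a ∈ Algebra.adjoin R (Set.range fun x => psiH hΦ P Q (X x)) := by
  have h1 := full_quot (R := R) P Q (full_psiH₀ hΦ) a
  rw [← Set.range_comp] at h1
  exact h1

variable (p q : Matrix (Fin N) (Fin N) O)
  (hΦH : Φ (hPoly (algebraMap O K t') (algebraMap O K n') (p.map (algebraMap O K))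
    (q.map (algebraMap O K))) = hPoly t n P Q)

include hΦH in
theorem psiH₀_hLin : psiH₀ hΦ (hLin p q) = ⟨hPoly t n P Q, hPoly_mem t n P Q⟩ := by
  apply Subtype.ext
  rw [coe_psiH₀, psiS_hLinK, hΦH]

include hΦH in
theorem psiH_hLin : psiH hΦ P Q (hLin p q) = 0 := by
  rw [psiH_apply, psiH₀_hLin hΦ P Q p q hΦH, hermMk_eq_zero_iff]
  exact Ideal.mem_span_singleton_self _

include hΦH in
theorem psiS_mem_of_psiH_eq_zero {F : MvPolynomial (WG N) O} (hF : psiH hΦ P Q F = 0) :
    psiS K t' n' N F ∈ Ideal.span {psiS K t' n' N (hLin p q)} := by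
  rw [psiH_apply, hermMk_eq_zero_iff, hermIdeal, Ideal.mem_span_singleton] at hF
  obtain ⟨b, hb⟩ := hF
  have h1 := congrArg (fun x : weilAlg t n N => Φi (x : CoordRing K N)) hb
  change Φi (Φ (psiS K t' n' N F)) = Φi (hPoly t n P Q * (b : CoordRing K N)) at h1
  rw [hΦ.inv2, map_mul, ← hΦH, hΦ.inv2, ← psiS_hLinK] at h1
  rw [h1]
  exact Ideal.mul_mem_right _ _ (Ideal.mem_span_singleton_self _)

theorem psiH_eq_zero {F : MvPolynomial (WG N) O} (hF : psiS K t' n' N F = 0) :
    psiH hΦ P Q F = 0 := by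
  have h1 : psiH₀ hΦ F = 0 := by
    apply Subtype.ext
    rw [coe_psiH₀, hF, map_zero]
    rfl
  rw [psiH_apply, h1, map_zero]

theorem psiH_C (r : O) : psiH hΦ P Q (C r) = algebraMap K _ (algebraMap O K r) := by
  have h1 : psiH₀ hΦ (C r) = algebraMap K _ (algebraMap O K r) := by
    apply Subtype.ext
    rw [coe_psiH₀, psiS_C, algHom_C]
    rfl
  rw [psiH_apply, h1, hermMk_algebraMap]

end Quot

end Pool.Agent.Lib.MP_6a3dac_ag
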