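import Pool.Agent.Lib.MP_6a3dac_ag.Mg.G006
import Pool.Agent.Lib.MP_6a3dac_ag.ChartMain

/-!
# Weil restrictions of projective spaces: the maps defining the charts
-/

set_option autoImplicit false

namespace Pool.Agent.Lib.MP_6a3dac_ag

open MvPolynomial IsLocalRing

/-- The index set of the generators: `inl` for the coefficients of `1`, `inr` for those of `ω`. -/
abbrev WG (N : ℕ) : Type := (Fin N × Fin N) ⊕ (Fin N × Fin N)

section

variable {O : Type} [CommRing O] (K : Type) [CommRing K] [Algebra O K] (t n : O) (N : ℕ)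

/-- The map from the polynomial ring in the generators to the coordinate ring. -/
noncomputable def psiS : MvPolynomial (WG N) O →ₐ[O] CoordRing K N :=
  aeval (Sum.elim (fun kl : Fin N × Fin N => epsP (algebraMap O K t) (algebraMap O K n) kl.1 kl.2)
    (fun kl : Fin N × Fin N => delP K kl.1 kl.2))

variable {N}

@[simp] theorem psiS_inl (k l : Fin N) : psiS K t n N (X (Sum.inl (k, l))) =
    epsP (algebraMap O K t) (algebraMap O K n) k l := by
  rw [psiS, aeval_X]
  rfl

@[simp] theorem psiS_inr (k l : Fin N) : psiS K t n N (X (Sum.inr (k, l))) = delP K k l := by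
  rw [psiS, aeval_X]
  rfl

theorem psiS_C (r : O) : psiS K t n N (C r) = C (algebraMap O K r) := by
  rw [psiS, aeval_C]
  rfl

end

section Rel

variable {O : Type} [CommRing O] (K : Type) [CommRing K] [Algebra O K] (t n : O) {N : ℕ}

/-- The relation used for the first kind of charts. -/
theorem psiS_rel_eps (k l i : Fin N) : psiS K t n N
    (X (Sum.inl (k, l)) * X (Sum.inl (i, i)) - (X (Sum.inl (k, i)) * X (Sum.inl (l, i)) +
      C n * (X (Sum.inr (k, i)) * X (Sum.inr (l, i))) +
      C t * (X (Sum.inl (k, i)) * X (Sum.inr (l, i))))) = 0 := by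
  simp only [map_sub, map_add, map_mul, psiS_inl, psiS_inr, psiS_C, epsP, delP]
  ring

theorem psiS_rel_del (k l i : Fin N) : psiS K t n N
    (X (Sum.inr (k, l)) * X (Sum.inl (i, i)) - (X (Sum.inr (k, i)) * X (Sum.inl (l, i)) -
      X (Sum.inl (k, i)) * X (Sum.inr (l, i)))) = 0 := by
  simp only [map_sub, map_add, map_mul, psiS_inl, psiS_inr, psiS_C, epsP, delP]
  ring

theorem psiS_rel_plucker (k l i j : Fin N) : psiS K t n N
    (X (Sum.inr (k, l)) * X (Sum.inr (i, j)) - (X (Sum.inr (k, j)) * X (Sum.inr (i, l)) -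
      X (Sum.inr (i, k)) * X (Sum.inr (l, j)))) = 0 := by
  simp only [map_sub, map_add, map_mul, psiS_inl, psiS_inr, psiS_C, epsP, delP]
  ring

theorem psiS_rel_quad (k l i j : Fin N) : psiS K t n N
    (X (Sum.inl (k, l)) * X (Sum.inr (i, j)) ^ 2 -
      (X (Sum.inr (k, j)) * X (Sum.inr (l, j)) * X (Sum.inl (i, i)) +
      X (Sum.inr (k, j)) * X (Sum.inr (i, l)) *
        (X (Sum.inl (j, i)) - C t * X (Sum.inr (i, j))) +
      X (Sum.inr (i, k)) * X (Sum.inr (l, j)) * X (Sum.inl (j, i)) +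
      X (Sum.inr (i, k)) * X (Sum.inr (i, l)) * X (Sum.inl (j, j)))) = 0 := by
  simp only [map_sub, map_add, map_mul, map_pow, psiS_inl, psiS_inr, psiS_C, epsP, delP]
  ring

theorem psiS_rel_norm (i j : Fin N) : psiS K t n N
    (X (Sum.inl (j, i)) ^ 2 - C t * (X (Sum.inl (j, i)) * X (Sum.inr (i, j))) +
      C n * X (Sum.inr (i, j)) ^ 2 - X (Sum.inl (i, i)) * X (Sum.inl (j, j))) = 0 := by
  simp only [map_sub, map_add, map_mul, map_pow, psiS_inl, psiS_inr, psiS_C, epsP, delP]
  ring

theorem psiS_rel_norm' (i j : Fin N) : psiS K t n N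
    (X (Sum.inl (i, j)) ^ 2 + C t * (X (Sum.inl (i, j)) * X (Sum.inr (i, j))) +
      C n * X (Sum.inr (i, j)) ^ 2 - X (Sum.inl (i, i)) * X (Sum.inl (j, j))) = 0 := by
  simp only [map_sub, map_add, map_mul, map_pow, psiS_inl, psiS_inr, psiS_C, epsP, delP]
  ring

end Rel

section Theta

variable {O : Type} [CommRing O] (t n : O) (N : ℕ)

/-- The variables of the second kind of charts: `c_k`, `d_k` and `A`, `B`, `C`. -/
abbrev ChartVar (N : ℕ) : Type := (Fin N ⊕ Fin N) ⊕ Fin 3

/-- The generators in terms of the variables of the second kind of charts. -/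
noncomputable def thetaD : MvPolynomial (WG N) O →ₐ[O] MvPolynomial (ChartVar N) O :=
  aeval (Sum.elim
    (fun kl : Fin N × Fin N =>
      -(X (Sum.inl (Sum.inl kl.1)) * X (Sum.inl (Sum.inl kl.2)) * X (Sum.inr 1)) +
      X (Sum.inl (Sum.inl kl.1)) * X (Sum.inl (Sum.inr kl.2)) * (X (Sum.inr 0) - C t) +
      X (Sum.inl (Sum.inr kl.1)) * X (Sum.inl (Sum.inl kl.2)) * X (Sum.inr 0) +
      X (Sum.inl (Sum.inr kl.1)) * X (Sum.inl (Sum.inr kl.2)) * X (Sum.inr 2))
    (fun kl : Fin N × Fin N =>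
      X (Sum.inl (Sum.inl kl.1)) * X (Sum.inl (Sum.inr kl.2)) -
      X (Sum.inl (Sum.inr kl.1)) * X (Sum.inl (Sum.inl kl.2))))

variable {N}

theorem thetaD_inl (k l : Fin N) : thetaD t N (X (Sum.inl (k, l))) =
      -(X (Sum.inl (Sum.inl k)) * X (Sum.inl (Sum.inl l)) * X (Sum.inr 1)) +
      X (Sum.inl (Sum.inl k)) * X (Sum.inl (Sum.inr l)) * (X (Sum.inr 0) - C t) +
      X (Sum.inl (Sum.inr k)) * X (Sum.inl (Sum.inl l)) * X (Sum.inr 0) +
      X (Sum.inl (Sum.inr k)) * X (Sum.inl (Sum.inr l)) * X (Sum.inr 2) := by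
  rw [thetaD, aeval_X]
  rfl

theorem thetaD_inr (k l : Fin N) : thetaD t N (X (Sum.inr (k, l))) =
      X (Sum.inl (Sum.inl k)) * X (Sum.inl (Sum.inr l)) -
      X (Sum.inl (Sum.inr k)) * X (Sum.inl (Sum.inl l)) := by
  rw [thetaD, aeval_X]
  rfl

/-- The variables of the second kind of charts in terms of the generators. -/
noncomputable def zvarD (O : Type) [CommRing O] {N : ℕ} (i j : Fin N) :
    ChartVar N → MvPolynomial (WG N) O :=
  Sum.elim (Sum.elim (fun k => X (Sum.inr (k, j))) (fun k => X (Sum.inr (i, k))))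
    ![X (Sum.inl (j, i)), -X (Sum.inl (i, i)), X (Sum.inl (j, j))]

/-- The variables of the first kind of charts in terms of the generators. -/
noncomputable def zvarA (O : Type) [CommRing O] {N : ℕ} (i : Fin N) :
    Fin N ⊕ Fin N → MvPolynomial (WG N) O :=
  Sum.elim (fun k => X (Sum.inl (k, i))) (fun k => X (Sum.inr (k, i)))

theorem isHomogeneous_zvarD (i j : Fin N) (v : ChartVar N) :
    (zvarD O i j v).IsHomogeneous 1 := by
  rcases v with (k | k) | a
  · exact isHomogeneous_X _ _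
  · exact isHomogeneous_X _ _
  · fin_cases a
    · exact isHomogeneous_X _ _
    · exact (isHomogeneous_X _ _).neg
    · exact isHomogeneous_X _ _

theorem isHomogeneous_zvarA (i : Fin N) (v : Fin N ⊕ Fin N) :
    (zvarA O i v).IsHomogeneous 1 := by
  rcases v with k | k
  · exact isHomogeneous_X _ _
  · exact isHomogeneous_X _ _

end Theta

end Pool.Agent.Lib.MP_6a3dac_ag
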