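import Pool.Agent.Lib.MP_6a3dac_ag.NullPair
import Pool.Agent.Lib.MP_6a3dac_ag.WeilMaps

/-!
# Hermitian forms in coordinates
-/

set_option autoImplicit false

namespace Pool.Agent.Lib.MP_6a3dac_ag

open Matrix Module IsLocalRing MvPolynomial

section Transport

variable {O : Type} [CommRing O] [IsDomain O] [IsDiscreteValuationRing O]
  [Finite (ResidueField O)] {J : Type} [Fintype J] {π : O}

/-- The quadratic form `q / π` on the singular radical modulo `π` is anisotropic. -/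
def RadAnisoI (π : O) (M : Matrix J J O) : Prop :=
  ∀ x : J → O, (∀ i, π ∣ ((M + Mᵀ) *ᵥ x) i) → π ^ 2 ∣ x ⬝ᵥ M *ᵥ x → ∀ i, π ∣ x i

theorem null_pairI (hπ : Irreducible π) {M : Matrix J J O} (hM : RadAnisoI π M)
    {P : Type} [CommRing P] (ι : O →+* P) (Y : Ideal P) [Y.IsPrime]
    (hι : ∀ x ∈ maximalIdeal O, ι x ∈ Y) (hns : ∀ s, s ∉ Y → s * ι π ∉ Y ^ 2)
    {x y : J → P} (hx : ∀ i, ((M + Mᵀ).map ι *ᵥ x) i ∈ Y)
    (hy : ∀ i, ((M + Mᵀ).map ι *ᵥ y) i ∈ Y) {s : P} (hs : s ∉ Y)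
    (h : ∀ ξ η : P, s * ((ξ • x + η • y) ⬝ᵥ (M.map ι) *ᵥ (ξ • x + η • y)) ∈ Y ^ 2) (i j : J) :
    x i * y j - x j * y i ∈ Y := by
  classical
  let e := Fintype.equivFin J
  let A : Matrix (Fin (Fintype.card J)) (Fin (Fintype.card J)) O := M.submatrix e.symm e.symm
  have key : ∀ {S : Type} [CommRing S] (B : Matrix J J S) (v : J → S),
      (B.submatrix e.symm e.symm) *ᵥ (v ∘ e.symm) = (B *ᵥ v) ∘ e.symm := by
    intro S _ B v
    rw [Matrix.submatrix_mulVec_equiv]
    congr 2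
    ext i
    simp
  have keyq : ∀ {S : Type} [CommRing S] (B : Matrix J J S) (v : J → S),
      qf (B.submatrix e.symm e.symm) (v ∘ e.symm) = v ⬝ᵥ B *ᵥ v := by
    intro S _ B v
    rw [qf, key]
    exact comp_equiv_dotProduct_comp_equiv v (B *ᵥ v) e.symm
  have hA : RadAniso π A := by
    intro v h1 h2 i
    have hv : v = (v ∘ e) ∘ e.symm := by
      ext i
      simp
    rw [hv] at h1 h2
    have h3 := hM (v ∘ e) (fun j => by
      have h4 := h1 (e j)
      have h5 : A + Aᵀ = (M + Mᵀ).submatrix e.symm e.symm := rfl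
      rw [h5, key] at h4
      simpa using h4) (by
      rw [← keyq]
      exact h2)
    have h6 := h3 (e.symm i)
    simpa using h6
  have h1 := null_pair hπ hA ι Y hι hns (x := x ∘ e.symm) (y := y ∘ e.symm) (fun i => by
      have h5 : (A + Aᵀ).map ι = ((M + Mᵀ).map ι).submatrix e.symm e.symm := rfl
      rw [h5, key]
      exact hx _) (fun i => by
      have h5 : (A + Aᵀ).map ι = ((M + Mᵀ).map ι).submatrix e.symm e.symm := rfl
      rw [h5, key]
      exact hy _) hs (fun ξ η => by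
      have h5 : A.map ι = (M.map ι).submatrix e.symm e.symm := rfl
      have h6 : ξ • (x ∘ e.symm) + η • (y ∘ e.symm) = (ξ • x + η • y) ∘ e.symm := rfl
      rw [h5, h6, keyq]
      exact h ξ η) (e i) (e j)
  simpa using h1

end Transport

section Forms

variable {S : Type} [CommRing S] (t n : S) {N : ℕ}

/-- The matrix of the quadratic form `∑ p_kl ε_kl + q_kl δ_kl` in the variables `a`, `b`. -/
def hMat (p q : Matrix (Fin N) (Fin N) S) : Matrix (Fin N ⊕ Fin N) (Fin N ⊕ Fin N) S :=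
  Matrix.fromBlocks p (t • p - q) q (n • p)

/-- The coefficient of `1` in `v_k τ(w_l)`. -/
def epsB (v w : Fin N ⊕ Fin N → S) (k l : Fin N) : S :=
  v (Sum.inl k) * w (Sum.inl l) + n * (v (Sum.inr k) * w (Sum.inr l)) +
    t * (v (Sum.inl k) * w (Sum.inr l))

/-- The coefficient of `ω` in `v_k τ(w_l)`. -/
def delB (v w : Fin N ⊕ Fin N → S) (k l : Fin N) : S :=
  v (Sum.inr k) * w (Sum.inl l) - v (Sum.inl k) * w (Sum.inr l)

/-- Multiplication by `ω`. -/
def omV (v : Fin N ⊕ Fin N → S) : Fin N ⊕ Fin N → S :=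
  Sum.elim (fun k => -(n * v (Sum.inr k))) (fun k => v (Sum.inl k) + t * v (Sum.inr k))

theorem dot_hMat (p q : Matrix (Fin N) (Fin N) S) (v w : Fin N ⊕ Fin N → S) :
    v ⬝ᵥ hMat t n p q *ᵥ w = ∑ k, ∑ l, (p k l * epsB t n v w k l + q k l * delB v w k l) := by
  simp only [dotProduct, mulVec, Fintype.sum_sum_type, hMat, fromBlocks_apply₁₁,
    fromBlocks_apply₁₂, fromBlocks_apply₂₁, fromBlocks_apply₂₂, Matrix.sub_apply,
    Matrix.smul_apply, smul_eq_mul, epsB, delB]
  rw [← Finset.sum_add_distrib]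
  refine Finset.sum_congr rfl fun k _ => ?_
  rw [mul_add, mul_add, Finset.mul_sum, Finset.mul_sum, Finset.mul_sum, Finset.mul_sum,
    ← Finset.sum_add_distrib, ← Finset.sum_add_distrib, ← Finset.sum_add_distrib]
  refine Finset.sum_congr rfl fun l _ => by ring

theorem dot_hMat_symm (p q : Matrix (Fin N) (Fin N) S) (v w : Fin N ⊕ Fin N → S) :
    v ⬝ᵥ (hMat t n p q + (hMat t n p q)ᵀ) *ᵥ w =
      ∑ k, ∑ l, (p k l * (epsB t n v w k l + epsB t n w v k l) +
        q k l * (delB v w k l + delB w v k l)) := by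
  rw [add_mulVec, dotProduct_add, dot_hMat, mulVec_transpose, dotProduct_comm v,
    ← dotProduct_mulVec, dot_hMat, ← Finset.sum_add_distrib]
  refine Finset.sum_congr rfl fun k _ => ?_
  rw [← Finset.sum_add_distrib]
  refine Finset.sum_congr rfl fun l _ => by ring

/-- The adjoint of multiplication by `ω` is multiplication by `τ(ω) = t - ω`. -/
theorem dot_omV (p q : Matrix (Fin N) (Fin N) S) (v w : Fin N ⊕ Fin N → S) :
    omV t n v ⬝ᵥ (hMat t n p q + (hMat t n p q)ᵀ) *ᵥ w =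
      t * (v ⬝ᵥ (hMat t n p q + (hMat t n p q)ᵀ) *ᵥ w) -
        v ⬝ᵥ (hMat t n p q + (hMat t n p q)ᵀ) *ᵥ omV t n w := by
  rw [dot_hMat_symm, dot_hMat_symm, dot_hMat_symm, Finset.mul_sum, ← Finset.sum_sub_distrib]
  refine Finset.sum_congr rfl fun k _ => ?_
  rw [Finset.mul_sum, ← Finset.sum_sub_distrib]
  refine Finset.sum_congr rfl fun l _ => ?_
  simp only [epsB, delB, omV, Sum.elim_inl, Sum.elim_inr]
  ring

theorem dot_omV_self (p q : Matrix (Fin N) (Fin N) S) (v : Fin N ⊕ Fin N → S) :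
    omV t n v ⬝ᵥ hMat t n p q *ᵥ omV t n v = n * (v ⬝ᵥ hMat t n p q *ᵥ v) := by
  rw [dot_hMat, dot_hMat, Finset.mul_sum]
  refine Finset.sum_congr rfl fun k _ => ?_
  rw [Finset.mul_sum]
  refine Finset.sum_congr rfl fun l _ => ?_
  simp only [epsB, delB, omV, Sum.elim_inl, Sum.elim_inr]
  ring

theorem dot_omV_norm (p q : Matrix (Fin N) (Fin N) S) (v : Fin N ⊕ Fin N → S) (ξ η : S) :
    (ξ • v + η • omV t n v) ⬝ᵥ hMat t n p q *ᵥ (ξ • v + η • omV t n v) =
      (ξ ^ 2 + t * ξ * η + n * η ^ 2) * (v ⬝ᵥ hMat t n p q *ᵥ v) := by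
  rw [dot_hMat, dot_hMat, Finset.mul_sum]
  refine Finset.sum_congr rfl fun k _ => ?_
  rw [Finset.mul_sum]
  refine Finset.sum_congr rfl fun l _ => ?_
  simp only [epsB, delB, omV, Sum.elim_inl, Sum.elim_inr, Pi.add_apply, Pi.smul_apply,
    smul_eq_mul]
  ring

/-- The second half of the gradient is determined by the first. -/
theorem grad_inr (p q : Matrix (Fin N) (Fin N) S) (v : Fin N ⊕ Fin N → S) (k : Fin N) :
    ((hMat t n p q + (hMat t n p q)ᵀ) *ᵥ v) (Sum.inr k) =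
      t * ((hMat t n p q + (hMat t n p q)ᵀ) *ᵥ v) (Sum.inl k) -
        ((hMat t n p q + (hMat t n p q)ᵀ) *ᵥ omV t n v) (Sum.inl k) := by
  classical
  have h1 := dot_omV t n p q (Pi.single (Sum.inl k) 1) v
  rw [single_one_dotProduct, single_one_dotProduct] at h1
  have h2 : omV t n (Pi.single (Sum.inl k) (1 : S) : Fin N ⊕ Fin N → S) =
      Pi.single (Sum.inr k) 1 := by
    ext i
    rcases i with i | i
    · simp [omV]
    · simp only [omV, Sum.elim_inr, Pi.single_apply, Sum.inl.injEq, Sum.inr.injEq,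
        reduceCtorEq, if_false, mul_zero, add_zero]
  rw [h2, single_one_dotProduct] at h1
  exact h1

end Forms

end Pool.Agent.Lib.MP_6a3dac_ag
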