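import Pool.Agent.Lib.MP_6a3dac_ag.HermForm

/-!
# Identities for Hermitian forms in the charts
-/

set_option autoImplicit false

namespace Pool.Agent.Lib.MP_6a3dac_ag

open Matrix MvPolynomial

section Ident

variable {S : Type} [CommRing S] (t n A B D : S) {N : ℕ} (p q : Matrix (Fin N) (Fin N) S)
  (c d : Fin N → S)

/-- The vector `∑ c_k e_k`. -/
def vecU : Fin N ⊕ Fin N → S := Sum.elim c fun _ => 0

/-- The vector `A w - ω w - B u`. -/
def vecX : Fin N ⊕ Fin N → S := Sum.elim (fun k => A * d k - B * c k) fun k => -d k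

/-- The vector `C w + (A - t) u + ω u`. -/
def vecY : Fin N ⊕ Fin N → S := Sum.elim (fun k => D * d k + (A - t) * c k) fun k => c k

/-- The equation of the Hermitian form in the chart. -/
def hEq : S := ∑ k, ∑ l, (p k l * (-(c k * c l * B) + c k * d l * (A - t) + d k * c l * A +
  d k * d l * D) + q k l * (c k * d l - d k * c l))

theorem hEq_star (ξ η : S) :
    (ξ • vecX A B c d + η • vecY t A D c d) ⬝ᵥ hMat t n p q *ᵥ
        (ξ • vecX A B c d + η • vecY t A D c d) =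
      (-(B * ξ ^ 2) + (2 * A - t) * (ξ * η) + D * η ^ 2) * hEq t A B D p q c d -
        (A * (t - A) - B * D - n) *
          ((ξ • vecU d - η • vecU c) ⬝ᵥ hMat t n p q *ᵥ (ξ • vecU d - η • vecU c)) := by
  rw [dot_hMat, dot_hMat, hEq, Finset.mul_sum, Finset.mul_sum, ← Finset.sum_sub_distrib]
  refine Finset.sum_congr rfl fun k _ => ?_
  rw [Finset.mul_sum, Finset.mul_sum, ← Finset.sum_sub_distrib]
  refine Finset.sum_congr rfl fun l _ => ?_
  simp only [epsB, delB, vecX, vecY, vecU, Sum.elim_inl, Sum.elim_inr, Pi.add_apply,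
    Pi.sub_apply, Pi.smul_apply, smul_eq_mul]
  ring

theorem dot_ux : vecU c ⬝ᵥ (hMat t n p q + (hMat t n p q)ᵀ) *ᵥ vecX A B c d =
    hEq t A B D p q c d - B * (vecU c ⬝ᵥ hMat t n p q *ᵥ vecU c) -
      D * (vecU d ⬝ᵥ hMat t n p q *ᵥ vecU d) := by
  rw [dot_hMat_symm, dot_hMat, dot_hMat, hEq, Finset.mul_sum, Finset.mul_sum,
    ← Finset.sum_sub_distrib, ← Finset.sum_sub_distrib]
  refine Finset.sum_congr rfl fun k _ => ?_
  rw [Finset.mul_sum, Finset.mul_sum, ← Finset.sum_sub_distrib, ← Finset.sum_sub_distrib]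
  refine Finset.sum_congr rfl fun l _ => ?_
  simp only [epsB, delB, vecX, vecU, Sum.elim_inl, Sum.elim_inr]
  ring

theorem dot_wx : vecU d ⬝ᵥ (hMat t n p q + (hMat t n p q)ᵀ) *ᵥ vecX A B c d =
    (2 * A - t) * (vecU d ⬝ᵥ hMat t n p q *ᵥ vecU d) -
      B * (vecU c ⬝ᵥ (hMat t n p q + (hMat t n p q)ᵀ) *ᵥ vecU d) := by
  rw [dot_hMat_symm, dot_hMat_symm, dot_hMat, Finset.mul_sum, Finset.mul_sum,
    ← Finset.sum_sub_distrib]
  refine Finset.sum_congr rfl fun k _ => ?_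
  rw [Finset.mul_sum, Finset.mul_sum, ← Finset.sum_sub_distrib]
  refine Finset.sum_congr rfl fun l _ => ?_
  simp only [epsB, delB, vecX, vecU, Sum.elim_inl, Sum.elim_inr]
  ring

theorem dot_uy : vecU c ⬝ᵥ (hMat t n p q + (hMat t n p q)ᵀ) *ᵥ vecY t A D c d =
    D * (vecU c ⬝ᵥ (hMat t n p q + (hMat t n p q)ᵀ) *ᵥ vecU d) +
      (2 * A - t) * (vecU c ⬝ᵥ hMat t n p q *ᵥ vecU c) := by
  rw [dot_hMat_symm, dot_hMat_symm, dot_hMat, Finset.mul_sum, Finset.mul_sum,
    ← Finset.sum_add_distrib]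
  refine Finset.sum_congr rfl fun k _ => ?_
  rw [Finset.mul_sum, Finset.mul_sum, ← Finset.sum_add_distrib]
  refine Finset.sum_congr rfl fun l _ => ?_
  simp only [epsB, delB, vecY, vecU, Sum.elim_inl, Sum.elim_inr]
  ring

theorem dot_wy : vecU d ⬝ᵥ (hMat t n p q + (hMat t n p q)ᵀ) *ᵥ vecY t A D c d =
    hEq t A B D p q c d + B * (vecU c ⬝ᵥ hMat t n p q *ᵥ vecU c) +
      D * (vecU d ⬝ᵥ hMat t n p q *ᵥ vecU d) := by
  rw [dot_hMat_symm, dot_hMat, dot_hMat, hEq, Finset.mul_sum, Finset.mul_sum,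
    ← Finset.sum_add_distrib, ← Finset.sum_add_distrib]
  refine Finset.sum_congr rfl fun k _ => ?_
  rw [Finset.mul_sum, Finset.mul_sum, ← Finset.sum_add_distrib, ← Finset.sum_add_distrib]
  refine Finset.sum_congr rfl fun l _ => ?_
  simp only [epsB, delB, vecY, vecU, Sum.elim_inl, Sum.elim_inr]
  ring

theorem dot_uw_expand (ξ η : S) :
    (ξ • vecU d - η • vecU c) ⬝ᵥ hMat t n p q *ᵥ (ξ • vecU d - η • vecU c) =
      ξ ^ 2 * (vecU d ⬝ᵥ hMat t n p q *ᵥ vecU d) + η ^ 2 * (vecU c ⬝ᵥ hMat t n p q *ᵥ vecU c) -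
        ξ * η * (vecU c ⬝ᵥ (hMat t n p q + (hMat t n p q)ᵀ) *ᵥ vecU d) := by
  rw [dot_hMat_symm, dot_hMat, dot_hMat, dot_hMat, Finset.mul_sum, Finset.mul_sum,
    Finset.mul_sum, ← Finset.sum_add_distrib, ← Finset.sum_sub_distrib]
  refine Finset.sum_congr rfl fun k _ => ?_
  rw [Finset.mul_sum, Finset.mul_sum, Finset.mul_sum, ← Finset.sum_add_distrib,
    ← Finset.sum_sub_distrib]
  refine Finset.sum_congr rfl fun l _ => ?_
  simp only [epsB, delB, vecU, Sum.elim_inl, Sum.elim_inr, Pi.sub_apply, Pi.smul_apply,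
    smul_eq_mul]
  ring

theorem omV_vecX : omV t n (vecX A B c d) = (t - A) • vecX A B c d - B • vecY t A D c d -
    (A * (t - A) - B * D - n) • vecU d := by
  ext i
  rcases i with i | i <;>
  · simp only [omV, vecX, vecY, vecU, Sum.elim_inl, Sum.elim_inr, Pi.sub_apply, Pi.smul_apply,
      smul_eq_mul]
    ring

theorem omV_vecY : omV t n (vecY t A D c d) = A • vecY t A D c d - D • vecX A B c d +
    (A * (t - A) - B * D - n) • vecU c := by
  ext i
  rcases i with i | i <;>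
  · simp only [omV, vecX, vecY, vecU, Sum.elim_inl, Sum.elim_inr, Pi.sub_apply, Pi.add_apply,
      Pi.smul_apply, smul_eq_mul]
    ring

/-- A derivation applied to the equation. -/
theorem derivation_hEq {R : Type} [CommRing R] [Algebra R S] (Δ : Derivation R S S)
    (ht : Δ t = 0) (hp : ∀ k l, Δ (p k l) = 0) (hq : ∀ k l, Δ (q k l) = 0) :
    Δ (hEq t A B D p q c d) =
      vecU (fun k => Δ (c k)) ⬝ᵥ (hMat t n p q + (hMat t n p q)ᵀ) *ᵥ vecX A B c d +
      vecU (fun k => Δ (d k)) ⬝ᵥ (hMat t n p q + (hMat t n p q)ᵀ) *ᵥ vecY t A D c d +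
      Δ A * (vecU c ⬝ᵥ (hMat t n p q + (hMat t n p q)ᵀ) *ᵥ vecU d) -
      Δ B * (vecU c ⬝ᵥ hMat t n p q *ᵥ vecU c) +
      Δ D * (vecU d ⬝ᵥ hMat t n p q *ᵥ vecU d) := by
  rw [dot_hMat_symm, dot_hMat_symm, dot_hMat_symm, dot_hMat, dot_hMat, hEq, map_sum,
    Finset.mul_sum, Finset.mul_sum, Finset.mul_sum, ← Finset.sum_add_distrib,
    ← Finset.sum_add_distrib, ← Finset.sum_sub_distrib, ← Finset.sum_add_distrib]
  refine Finset.sum_congr rfl fun k _ => ?_
  rw [map_sum, Finset.mul_sum, Finset.mul_sum, Finset.mul_sum, ← Finset.sum_add_distrib,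
    ← Finset.sum_add_distrib, ← Finset.sum_sub_distrib, ← Finset.sum_add_distrib]
  refine Finset.sum_congr rfl fun l _ => ?_
  simp only [epsB, delB, vecX, vecY, vecU, Sum.elim_inl, Sum.elim_inr, map_add, map_sub, map_neg,
    Derivation.leibniz, smul_eq_mul, ht, hp, hq]
  ring

/-- A derivation applied to the value of the form. -/
theorem derivation_hVal {R : Type} [CommRing R] [Algebra R S] (Δ : Derivation R S S)
    (ht : Δ t = 0) (hn : Δ n = 0) (hp : ∀ k l, Δ (p k l) = 0) (hq : ∀ k l, Δ (q k l) = 0)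
    (v : Fin N ⊕ Fin N → S) :
    Δ (v ⬝ᵥ hMat t n p q *ᵥ v) =
      (fun i => Δ (v i)) ⬝ᵥ (hMat t n p q + (hMat t n p q)ᵀ) *ᵥ v := by
  rw [dot_hMat_symm, dot_hMat, map_sum]
  refine Finset.sum_congr rfl fun k _ => ?_
  rw [map_sum]
  refine Finset.sum_congr rfl fun l _ => ?_
  simp only [epsB, delB, map_add, map_sub, Derivation.leibniz, smul_eq_mul, ht, hn, hp, hq]
  ring

end Ident

section Map

variable {R S : Type} [CommRing R] [CommRing S] (t n : R) {N : ℕ}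
  (p q : Matrix (Fin N) (Fin N) R)

theorem map_hMat (φ : R →+* S) : (hMat t n p q).map φ = hMat (φ t) (φ n) (p.map φ) (q.map φ) := by
  rw [hMat, hMat, Matrix.fromBlocks_map]
  congr 1
  · ext i j
    simp
  · ext i j
    simp

end Map

end Pool.Agent.Lib.MP_6a3dac_ag
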