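import Pool.Agent.Lib.MP_6a3dac_ag.IndepA
import Pool.Agent.Lib.MP_6a3dac_ag.Mg.G002

/-!
# The norm equation is not in the square of a prime ideal
-/

set_option autoImplicit false

namespace Pool.Agent.Lib.MP_6a3dac_ag

open MvPolynomial IsLocalRing

section MaxOrd

variable {O : Type} [CommRing O] [IsLocalRing O]

/-- The order `O[ω]`, `ω ^ 2 - t ω + n = 0`, is a maximal order. -/
def MaxOrd (t n : O) : Prop :=
  ∀ r : O, 2 * r - t ∈ maximalIdeal O → r ^ 2 - t * r + n ∉ maximalIdeal O ^ 2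

theorem mem_maximalIdeal_of_C_mem {σ : Type} (Y : Ideal (MvPolynomial σ O)) [Y.IsPrime] {r : O}
    (h : C r ∈ Y) : r ∈ maximalIdeal O := by
  by_contra hr
  rw [IsLocalRing.notMem_maximalIdeal] at hr
  exact Ideal.IsPrime.ne_top ‹_› (Y.eq_top_of_isUnit_mem h (hr.map C))

end MaxOrd

variable {O : Type} [CommRing O] [IsDomain O] [IsDiscreteValuationRing O]
  [Finite (ResidueField O)] {t n : O} {σ : Type}

/-- In characteristic two all elements of the residue field are squares. -/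
theorem exists_sq_sub_mem (h2 : (2 : O) ∈ maximalIdeal O) (x : O) :
    ∃ r : O, r ^ 2 - x ∈ maximalIdeal O := by
  have h0 : (2 : ResidueField O) = 0 := by
    have h1 : residue O 2 = 0 := (residue_eq_zero_iff _).mpr h2
    rwa [map_ofNat] at h1
  have hc : CharP (ResidueField O) 2 := CharTwo.of_one_ne_zero_of_two_eq_zero one_ne_zero h0
  have := Fintype.ofFinite (ResidueField O)
  obtain ⟨y, hy⟩ := FiniteField.isSquare_of_char_two (F := ResidueField O)
    (ringChar.eq (ResidueField O) 2) (residue O x)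
  obtain ⟨r, rfl⟩ := residue_surjective y
  refine ⟨r, ?_⟩
  rw [← residue_eq_zero_iff, map_sub, map_pow, hy]
  ring

theorem exists_sub_C_mem (Y : Ideal (MvPolynomial σ O)) [Y.IsPrime]
    (hm : ∀ x ∈ maximalIdeal O, C x ∈ Y) {a : MvPolynomial σ O} (h1 : C t - 2 * a ∈ Y)
    (h2 : a ^ 2 - C t * a + C n ∈ Y) : ∃ r : O, a - C r ∈ Y := by
  by_cases h : (2 : O) ∈ maximalIdeal O
  · obtain ⟨r, hr⟩ := exists_sq_sub_mem h n
    refine ⟨r, ?_⟩
    have h3 : (C 2 : MvPolynomial σ O) ∈ Y := hm _ h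
    have h4 : (C (r ^ 2 - n) : MvPolynomial σ O) ∈ Y := hm _ hr
    apply Ideal.IsPrime.mem_of_pow_mem ‹_› 2
    have h5 : (a - C r) ^ 2 = (a ^ 2 - C t * a + C n) + (C t - 2 * a) * a + C (r ^ 2 - n) +
        C 2 * (a ^ 2 - a * C r) := by
      simp only [map_sub, map_pow, map_ofNat]
      ring
    rw [h5]
    exact Y.add_mem (Y.add_mem (Y.add_mem h2 (Y.mul_mem_right _ h1)) h4) (Y.mul_mem_right _ h3)
  · rw [IsLocalRing.notMem_maximalIdeal] at h
    obtain ⟨u, hu⟩ := h
    refine ⟨t * ↑(u⁻¹), ?_⟩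
    have h4 : (C ((u⁻¹ : Oˣ) : O) : MvPolynomial σ O) * 2 = 1 := by
      have h5 : ((u⁻¹ : Oˣ) : O) * 2 = 1 := by rw [← hu, Units.inv_mul]
      rw [← C_1, ← h5, C_mul, map_ofNat]
    have h3 : a - C (t * ((u⁻¹ : Oˣ) : O)) = -(C ((u⁻¹ : Oˣ) : O) * (C t - 2 * a)) := by
      rw [C_mul]
      linear_combination (-a) * h4
    rw [h3]
    exact Y.neg_mem (Y.mul_mem_left _ h1)

theorem normEq_notMem_sq [Finite σ] {a b c : σ} (hab : a ≠ b) (hac : a ≠ c) (hbc : b ≠ c)
    (hmax : MaxOrd t n) (hd : t ^ 2 - 4 * n ≠ 0) (Y : Ideal (MvPolynomial σ O)) [Y.IsPrime]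
    (hf : X a * (C t - X a) - X b * X c - C n ∈ Y) {s : MvPolynomial σ O} (hs : s ∉ Y) :
    s * (X a * (C t - X a) - X b * X c - C n) ∉ Y ^ 2 := by
  classical
  intro hsf
  obtain ⟨π, hπ⟩ := IsDiscreteValuationRing.exists_irreducible O
  have hb : X c ∈ Y := by
    have h1 := derivation_mem Y (pderiv b) hs hsf
    simp only [map_sub, Derivation.leibniz, pderiv_C, pderiv_X_self, pderiv_X_of_ne hab,
      pderiv_X_of_ne hbc.symm, smul_eq_mul, mul_one, mul_zero, sub_zero, add_zero, zero_sub,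
      zero_add] at h1
    simpa using Y.neg_mem h1
  have hc : X b ∈ Y := by
    have h1 := derivation_mem Y (pderiv c) hs hsf
    simp only [map_sub, Derivation.leibniz, pderiv_C, pderiv_X_self, pderiv_X_of_ne hac,
      pderiv_X_of_ne hbc, smul_eq_mul, mul_one, mul_zero, sub_zero, add_zero, zero_sub,
      zero_add] at h1
    simpa using Y.neg_mem h1
  have ha : C t - 2 * X a ∈ Y := by
    have h1 := derivation_mem Y (pderiv a) hs hsf
    simp only [map_sub, Derivation.leibniz, pderiv_C, pderiv_X_self, pderiv_X_of_ne hab.symm,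
      pderiv_X_of_ne hac.symm, smul_eq_mul, mul_one, mul_zero, sub_zero, add_zero, zero_sub,
      zero_add] at h1
    have h2 : (X a * -1 + (C t - X a) : MvPolynomial σ O) = C t - 2 * X a := by ring
    rwa [h2] at h1
  have hdY : C (t ^ 2 - 4 * n) ∈ Y := by
    have h1 : C (t ^ 2 - 4 * n) = (C t - 2 * X a) * (C t - 2 * X a) +
        4 * (X a * (C t - X a) - X b * X c - C n) + 4 * X c * X b := by
      simp only [map_sub, map_mul, map_pow, map_ofNat]
      ring
    rw [h1]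
    exact Y.add_mem (Y.add_mem (Y.mul_mem_left _ ha) (Y.mul_mem_left _ hf)) (Y.mul_mem_left _ hc)
  have hm := C_mem_of_C_mem Y hd hdY
  have hquad : X a ^ 2 - C t * X a + C n ∈ Y := by
    have h1 : X a ^ 2 - C t * X a + C n = -(X a * (C t - X a) - X b * X c - C n) - X c * X b := by
      ring
    rw [h1]
    exact Y.sub_mem (Y.neg_mem hf) (Y.mul_mem_left _ hc)
  obtain ⟨r, hr⟩ := exists_sub_C_mem Y hm ha hquad
  have hr2 : C (2 * r - t) ∈ Y := by
    have h1 : (C (2 * r - t) : MvPolynomial σ O) = -(2 * (X a - C r)) - (C t - 2 * X a) := by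
      simp only [map_sub, map_mul, map_ofNat]
      ring
    rw [h1]
    exact Y.sub_mem (Y.neg_mem (Y.mul_mem_left _ hr)) ha
  have hN : C (r ^ 2 - t * r + n) ∈ Y := by
    have h1 : (C (r ^ 2 - t * r + n) : MvPolynomial σ O) = (X a ^ 2 - C t * X a + C n) +
        (C t - X a - C r) * (X a - C r) := by
      simp only [map_sub, map_mul, map_add, map_pow]
      ring
    rw [h1]
    exact Y.add_mem hquad (Y.mul_mem_left _ hr)
  have h1 := hmax r (mem_maximalIdeal_of_C_mem Y hr2)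
  have h2 := mem_maximalIdeal_of_C_mem Y hN
  rw [hπ.maximalIdeal_eq, Ideal.mem_span_singleton] at h2
  obtain ⟨u, hu⟩ := h2
  have huu : IsUnit u := by
    by_contra hnu
    apply h1
    rw [← mem_nonunits_iff, ← IsLocalRing.mem_maximalIdeal] at hnu
    rw [hu, pow_two]
    refine Ideal.mul_mem_mul ?_ hnu
    rw [hπ.maximalIdeal_eq]
    exact Ideal.mem_span_singleton_self _
  have hY2 : s * C (r ^ 2 - t * r + n) ∈ Y ^ 2 := by
    have h3 : s * C (r ^ 2 - t * r + n) = s * ((X a - C r) * (C t - 2 * X a) +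
        (X a - C r) * (X a - C r) - X b * X c) -
        s * (X a * (C t - X a) - X b * X c - C n) := by
      simp only [map_sub, map_mul, map_add, map_pow]
      ring
    rw [h3, pow_two]
    rw [pow_two] at hsf
    exact Ideal.sub_mem _ (Ideal.mul_mem_left _ _ (Ideal.sub_mem _ (Ideal.add_mem _
      (Ideal.mul_mem_mul hr ha) (Ideal.mul_mem_mul hr hr)) (Ideal.mul_mem_mul hc hb))) hsf
  apply mul_C_notMem_sq hπ Y (hm π (by
    rw [hπ.maximalIdeal_eq]
    exact Ideal.mem_span_singleton_self _)) hs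
  obtain ⟨v, hv⟩ := huu
  have h3 : (C π : MvPolynomial σ O) = C ((v⁻¹ : Oˣ) : O) * C (r ^ 2 - t * r + n) := by
    rw [← C_mul, hu, ← hv, mul_comm π, ← mul_assoc, Units.inv_mul, one_mul]
  rw [h3]
  have h4 : s * (C ((v⁻¹ : Oˣ) : O) * C (r ^ 2 - t * r + n)) =
      C ((v⁻¹ : Oˣ) : O) * (s * C (r ^ 2 - t * r + n)) := by ring
  rw [h4]
  exact Ideal.mul_mem_left _ _ hY2

end Pool.Agent.Lib.MP_6a3dac_ag
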