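import Pool.Agent.Lib.MP_6a3dac_ag.WeilClear
import Pool.Agent.Lib.MP_6a3dac_ag.NormEq
import Pool.Agent.Lib.MP_6a3dac_ag.ChartApply

/-!
# Regularity of the local models of Weil restrictions of projective spaces
-/

set_option autoImplicit false

namespace Pool.Agent.Lib.MP_6a3dac_ag

open MvPolynomial IsLocalRing

section Indep

variable {O : Type} [CommRing O] [IsDomain O] [IsDiscreteValuationRing O] {t n : O} {N : ℕ}

/-- The equations of the first kind of charts. -/
noncomputable def eqsA (O : Type) [CommRing O] {N : ℕ} (i : Fin N) : Fin 2 → CoordRing O N :=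
  ![X (Sum.inl i) - 1, X (Sum.inr i)]

/-- The equations of the second kind of charts. -/
noncomputable def eqsD (t n : O) {N : ℕ} (i j : Fin N) : Fin 5 → MvPolynomial (ChartVar N) O :=
  ![X (Sum.inl (Sum.inl i)) - 1, X (Sum.inl (Sum.inr i)), X (Sum.inl (Sum.inl j)),
    X (Sum.inl (Sum.inr j)) - 1,
    X (Sum.inr 0) * (C t - X (Sum.inr 0)) - X (Sum.inr 1) * X (Sum.inr 2) - C n]

theorem indep_eqsA (i : Fin N) (Q : Ideal (CoordRing O N)) [Q.IsPrime]
    (hQ : ∀ k, eqsA O i k ∈ Q) (s : CoordRing O N) (hs : s ∉ Q) (c : Fin 2 → CoordRing O N)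
    (h : s * ∑ k, c k * eqsA O i k ∈ Q ^ 2) (k : Fin 2) : c k ∈ Q := by
  have h0 : (X (Sum.inl i) - 1 : CoordRing O N) ∈ Q := hQ 0
  have h1 : (X (Sum.inr i) : CoordRing O N) ∈ Q := hQ 1
  rw [Fin.sum_univ_two] at h
  change s * (c 0 * (X (Sum.inl i) - 1) + c 1 * X (Sum.inr i)) ∈ Q ^ 2 at h
  have hne : (Sum.inl i : Fin N ⊕ Fin N) ≠ Sum.inr i := by simp
  fin_cases k
  · have h2 := derivation_mem Q (pderiv (Sum.inl i)) hs h
    simp only [map_add, map_sub, Derivation.leibniz, pderiv_X_self, pderiv_X_of_ne hne.symm,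
      pderiv_one, smul_eq_mul, mul_one, mul_zero, sub_zero, zero_add] at h2
    have h3 := Q.sub_mem h2 (Q.add_mem (Q.mul_mem_right (pderiv (Sum.inl i) (c 0)) h0)
      (Q.mul_mem_right (pderiv (Sum.inl i) (c 1)) h1))
    have h4 : c 0 + (X (Sum.inl i) - 1) * (pderiv (Sum.inl i)) (c 0) +
        X (Sum.inr i) * (pderiv (Sum.inl i)) (c 1) -
        ((X (Sum.inl i) - 1) * (pderiv (Sum.inl i)) (c 0) +
          X (Sum.inr i) * (pderiv (Sum.inl i)) (c 1)) = c 0 := by ring
    rwa [h4] at h3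
  · have h2 := derivation_mem Q (pderiv (Sum.inr i)) hs h
    simp only [map_add, map_sub, Derivation.leibniz, pderiv_X_self, pderiv_X_of_ne hne,
      pderiv_one, smul_eq_mul, mul_one, mul_zero, sub_zero, zero_add] at h2
    have h3 := Q.sub_mem h2 (Q.add_mem (Q.mul_mem_right (pderiv (Sum.inr i) (c 0)) h0)
      (Q.mul_mem_right (pderiv (Sum.inr i) (c 1)) h1))
    have h4 : (X (Sum.inl i) - 1) * (pderiv (Sum.inr i)) (c 0) +
        (c 1 + X (Sum.inr i) * (pderiv (Sum.inr i)) (c 1)) -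
        ((X (Sum.inl i) - 1) * (pderiv (Sum.inr i)) (c 0) +
          X (Sum.inr i) * (pderiv (Sum.inr i)) (c 1)) = c 1 := by ring
    rwa [h4] at h3

/-- A derivation applied to a linear combination of elements of a prime ideal. -/
theorem derivation_sum_mem {B : Type} [CommRing B] {A : Type} [CommRing A] [Algebra A B]
    (Q : Ideal B) [Q.IsPrime] (D : Derivation A B B) {r : ℕ} {f c : Fin r → B}
    (hf : ∀ k, f k ∈ Q) {s : B} (hs : s ∉ Q) (h : s * ∑ k, c k * f k ∈ Q ^ 2) :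
    ∑ k, c k * D (f k) ∈ Q := by
  have h1 := derivation_mem Q D hs h
  rw [map_sum] at h1
  have h2 : ∑ k, c k * D (f k) = ∑ k, D (c k * f k) - ∑ k, f k * D (c k) := by
    rw [← Finset.sum_sub_distrib]
    refine Finset.sum_congr rfl fun k _ => ?_
    rw [Derivation.leibniz, smul_eq_mul, smul_eq_mul]
    ring
  rw [h2]
  exact Q.sub_mem h1 (Q.sum_mem fun k _ => Q.mul_mem_right _ (hf k))

theorem indep_eqsD [Finite (ResidueField O)] (hmax : MaxOrd t n) (hd : t ^ 2 - 4 * n ≠ 0)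
    {i j : Fin N} (hij : i ≠ j) (Q : Ideal (MvPolynomial (ChartVar N) O)) [Q.IsPrime]
    (hQ : ∀ k, eqsD t n i j k ∈ Q) (s : MvPolynomial (ChartVar N) O) (hs : s ∉ Q)
    (c : Fin 5 → MvPolynomial (ChartVar N) O)
    (h : s * ∑ k, c k * eqsD t n i j k ∈ Q ^ 2) (k : Fin 5) : c k ∈ Q := by
  have hD : ∀ D : Derivation O (MvPolynomial (ChartVar N) O) (MvPolynomial (ChartVar N) O),
      c 0 * D (eqsD t n i j 0) + c 1 * D (eqsD t n i j 1) + c 2 * D (eqsD t n i j 2) +
        c 3 * D (eqsD t n i j 3) + c 4 * D (eqsD t n i j 4) ∈ Q := by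
    intro D
    have := derivation_sum_mem Q D hQ hs h
    rwa [Fin.sum_univ_five] at this
  have e0 : eqsD t n i j 0 = X (Sum.inl (Sum.inl i)) - 1 := rfl
  have e1 : eqsD t n i j 1 = X (Sum.inl (Sum.inr i)) := rfl
  have e2 : eqsD t n i j 2 = X (Sum.inl (Sum.inl j)) := rfl
  have e3 : eqsD t n i j 3 = X (Sum.inl (Sum.inr j)) - 1 := rfl
  have e4 : eqsD t n i j 4 = X (Sum.inr 0) * (C t - X (Sum.inr 0)) -
    X (Sum.inr 1) * X (Sum.inr 2) - C n := rfl
  have hc0 : c 0 ∈ Q := by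
    have h1 := hD (pderiv (Sum.inl (Sum.inl i)))
    rw [e0, e1, e2, e3, e4] at h1
    simp only [map_sub, Derivation.leibniz, pderiv_C, pderiv_X, pderiv_one, smul_eq_mul,
      Pi.single_apply, Sum.inl.injEq, reduceCtorEq, if_false, if_true, hij.symm, hij, mul_zero,
      mul_one, sub_zero, add_zero] at h1
    exact h1
  have hc1 : c 1 ∈ Q := by
    have h1 := hD (pderiv (Sum.inl (Sum.inr i)))
    rw [e0, e1, e2, e3, e4] at h1
    simp only [map_sub, Derivation.leibniz, pderiv_C, pderiv_X, pderiv_one, smul_eq_mul,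
      Pi.single_apply, Sum.inl.injEq, Sum.inr.injEq, reduceCtorEq, if_false, if_true, hij.symm,
      hij, mul_zero, mul_one, sub_zero, add_zero, zero_add] at h1
    exact h1
  have hc2 : c 2 ∈ Q := by
    have h1 := hD (pderiv (Sum.inl (Sum.inl j)))
    rw [e0, e1, e2, e3, e4] at h1
    simp only [map_sub, Derivation.leibniz, pderiv_C, pderiv_X, pderiv_one, smul_eq_mul,
      Pi.single_apply, Sum.inl.injEq, Sum.inr.injEq, reduceCtorEq, if_false, if_true, hij.symm,
      hij, mul_zero, mul_one, sub_zero, add_zero, zero_add] at h1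
    exact h1
  have hc3 : c 3 ∈ Q := by
    have h1 := hD (pderiv (Sum.inl (Sum.inr j)))
    rw [e0, e1, e2, e3, e4] at h1
    simp only [map_sub, Derivation.leibniz, pderiv_C, pderiv_X, pderiv_one, smul_eq_mul,
      Pi.single_apply, Sum.inl.injEq, Sum.inr.injEq, reduceCtorEq, if_false, if_true, hij.symm,
      hij, mul_zero, mul_one, sub_zero, add_zero, zero_add] at h1
    exact h1
  have hc4 : c 4 ∈ Q := by
    by_contra hc4
    have hs' : s * c 4 ∉ Q := fun h1 => (Ideal.IsPrime.mem_or_mem ‹_› h1).elim hs hc4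
    have hQ4 := hQ 4
    rw [e4] at hQ4
    apply normEq_notMem_sq (a := (Sum.inr 0 : ChartVar N)) (b := Sum.inr 1) (c := Sum.inr 2)
      (by simp) (by simp) (by simp) hmax hd Q hQ4 hs'
    rw [Fin.sum_univ_five] at h
    have h1 : s * c 4 * (X (Sum.inr 0) * (C t - X (Sum.inr 0)) - X (Sum.inr 1) * X (Sum.inr 2) -
        C n) = s * (c 0 * eqsD t n i j 0 + c 1 * eqsD t n i j 1 + c 2 * eqsD t n i j 2 +
        c 3 * eqsD t n i j 3 + c 4 * eqsD t n i j 4) - s * (c 0 * eqsD t n i j 0 +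
        c 1 * eqsD t n i j 1 + c 2 * eqsD t n i j 2 + c 3 * eqsD t n i j 3) := by
      rw [← e4]
      ring
    rw [h1]
    refine Ideal.sub_mem _ h (Ideal.mul_mem_left _ _ ?_)
    rw [pow_two]
    exact Ideal.add_mem _ (Ideal.add_mem _ (Ideal.add_mem _ (Ideal.mul_mem_mul hc0 (hQ 0))
      (Ideal.mul_mem_mul hc1 (hQ 1))) (Ideal.mul_mem_mul hc2 (hQ 2)))
      (Ideal.mul_mem_mul hc3 (hQ 3))
  fin_cases k
  · exact hc0
  · exact hc1
  · exact hc2
  · exact hc3
  · exact hc4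

end Indep

end Pool.Agent.Lib.MP_6a3dac_ag
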