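import Pool.Agent.Lib.MP_6a3dac_ag.HermIdent
import Pool.Agent.Lib.MP_6a3dac_ag.WeilReg

/-!
# Independence of the equations of a Hermitian quadric in the charts
-/

set_option autoImplicit false

namespace Pool.Agent.Lib.MP_6a3dac_ag

open Matrix MvPolynomial IsLocalRing

section Defs

variable {O : Type} [CommRing O] (t n : O) {N : ℕ} (p q : Matrix (Fin N) (Fin N) O)

/-- The equation of the Hermitian form in the second kind of charts. -/
noncomputable def hEqD : MvPolynomial (ChartVar N) O :=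
  hEq (C t) (X (Sum.inr 0)) (X (Sum.inr 1)) (X (Sum.inr 2)) (p.map C) (q.map C)
    (fun k => X (Sum.inl (Sum.inl k))) (fun k => X (Sum.inl (Sum.inr k)))

/-- The equations of a Hermitian quadric in the second kind of charts. -/
noncomputable def eqsHD (i j : Fin N) : Fin 6 → MvPolynomial (ChartVar N) O :=
  ![X (Sum.inl (Sum.inl i)) - 1, X (Sum.inl (Sum.inr i)), X (Sum.inl (Sum.inl j)),
    X (Sum.inl (Sum.inr j)) - 1,
    X (Sum.inr 0) * (C t - X (Sum.inr 0)) - X (Sum.inr 1) * X (Sum.inr 2) - C n,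
    hEqD t p q]

end Defs

section Grad

variable {O P : Type} [CommRing O] [CommRing P] {J : Type} [Fintype J] [DecidableEq J]

/-- A vector with a coordinate outside a prime ideal, and with gradient in the prime ideal. -/
theorem det_mem_of_grad (ι : O →+* P) (Y : Ideal P) [Y.IsPrime] (G : Matrix J J O) {x : J → P}
    (hx : ∀ i, (G.map ι *ᵥ x) i ∈ Y) {j : J} (hj : x j ∉ Y) : ι G.det ∈ Y := by
  have h1 : (G.map ι).adjugate *ᵥ (G.map ι *ᵥ x) = (G.map ι).det • x := by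
    rw [mulVec_mulVec, adjugate_mul, smul_mulVec, one_mulVec]
  have h2 : (G.map ι).det * x j ∈ Y := by
    have h3 := congrFun h1 j
    rw [Pi.smul_apply, smul_eq_mul] at h3
    rw [← h3]
    exact Y.sum_mem fun i _ => Y.mul_mem_left _ (hx i)
  have h4 : (G.map ι).det = ι G.det := by
    rw [← RingHom.mapMatrix_apply, ← RingHom.map_det]
  rw [h4] at h2
  exact (Ideal.IsPrime.mem_or_mem ‹_› h2).resolve_right hj

end Grad

section Indep

variable {O : Type} [CommRing O] [IsDomain O] [IsDiscreteValuationRing O]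
  [Finite (ResidueField O)] {t n : O} {N : ℕ} {p q : Matrix (Fin N) (Fin N) O} {π : O}

theorem indep_eqsHD (hπ : Irreducible π) (hmax : MaxOrd t n) (hd : t ^ 2 - 4 * n ≠ 0)
    (hani : RadAnisoI π (hMat t n p q))
    (hdet : (hMat t n p q + (hMat t n p q)ᵀ).det ≠ 0)
    {i j : Fin N} (hij : i ≠ j) (Q : Ideal (MvPolynomial (ChartVar N) O)) [Q.IsPrime]
    (hQ : ∀ k, eqsHD t n p q i j k ∈ Q) (s : MvPolynomial (ChartVar N) O) (hs : s ∉ Q)
    (c : Fin 6 → MvPolynomial (ChartVar N) O)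
    (h : s * ∑ k, c k * eqsHD t n p q i j k ∈ Q ^ 2) (k : Fin 6) : c k ∈ Q := by
  classical
  have hQp : Q.IsPrime := ‹_›
  obtain ⟨A, hA⟩ : ∃ A : MvPolynomial (ChartVar N) O, A = X (Sum.inr 0) := ⟨_, rfl⟩
  obtain ⟨B, hB⟩ : ∃ B : MvPolynomial (ChartVar N) O, B = X (Sum.inr 1) := ⟨_, rfl⟩
  obtain ⟨D, hDD⟩ : ∃ D : MvPolynomial (ChartVar N) O, D = X (Sum.inr 2) := ⟨_, rfl⟩
  obtain ⟨u, hu⟩ : ∃ u : Fin N → MvPolynomial (ChartVar N) O,
    u = fun k => X (Sum.inl (Sum.inl k)) := ⟨_, rfl⟩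
  obtain ⟨w, hw⟩ : ∃ w : Fin N → MvPolynomial (ChartVar N) O,
    w = fun k => X (Sum.inl (Sum.inr k)) := ⟨_, rfl⟩
  set pC := p.map (C : O →+* MvPolynomial (ChartVar N) O) with hpC
  set qC := q.map (C : O →+* MvPolynomial (ChartVar N) O) with hqC
  obtain ⟨M, hM⟩ : ∃ M, M = hMat (C t) (C n) pC qC := ⟨_, rfl⟩
  have hMC : (hMat t n p q).map (C : O →+* MvPolynomial (ChartVar N) O) = M := by
    rw [hM, map_hMat]
  have hGC : (hMat t n p q + (hMat t n p q)ᵀ).map (C : O →+* MvPolynomial (ChartVar N) O) =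
      M + Mᵀ := by
    rw [← hMC]
    ext i j
    simp
  obtain ⟨x, hx⟩ : ∃ x, x = vecX A B u w := ⟨_, rfl⟩
  obtain ⟨y, hy⟩ : ∃ y, y = vecY (C t) A D u w := ⟨_, rfl⟩
  obtain ⟨f₂, hf₂⟩ : ∃ f₂, f₂ = hEqD t p q := ⟨_, rfl⟩
  obtain ⟨f₁, hf₁⟩ : ∃ f₁, f₁ = A * (C t - A) - B * D - C n := ⟨_, rfl⟩
  have hf₂' : hEq (C t) A B D pC qC u w = f₂ := by rw [hf₂, hA, hB, hDD, hu, hw, hEqD]
  have e0 : eqsHD t n p q i j 0 = u i - 1 := by rw [hu]; rfl
  have e1 : eqsHD t n p q i j 1 = w i := by rw [hw]; rfl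
  have e2 : eqsHD t n p q i j 2 = u j := by rw [hu]; rfl
  have e3 : eqsHD t n p q i j 3 = w j - 1 := by rw [hw]; rfl
  have e4 : eqsHD t n p q i j 4 = f₁ := by rw [hf₁, hA, hB, hDD]; rfl
  have e5 : eqsHD t n p q i j 5 = f₂ := by rw [hf₂]; rfl
  have m0 : u i - 1 ∈ Q := e0 ▸ hQ 0
  have m1 : w i ∈ Q := e1 ▸ hQ 1
  have m2 : u j ∈ Q := e2 ▸ hQ 2
  have m3 : w j - 1 ∈ Q := e3 ▸ hQ 3
  have m4 : f₁ ∈ Q := e4 ▸ hQ 4
  have m5 : f₂ ∈ Q := e5 ▸ hQ 5
  have hder : ∀ Δ : Derivation O (MvPolynomial (ChartVar N) O) (MvPolynomial (ChartVar N) O),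
      c 0 * Δ (u i) + c 1 * Δ (w i) + c 2 * Δ (u j) + c 3 * Δ (w j) +
        c 4 * (Δ A * (C t - 2 * A) - D * Δ B - B * Δ D) +
        c 5 * (vecU (fun k => Δ (u k)) ⬝ᵥ (M + Mᵀ) *ᵥ x + vecU (fun k => Δ (w k)) ⬝ᵥ
          (M + Mᵀ) *ᵥ y + Δ A * (vecU u ⬝ᵥ (M + Mᵀ) *ᵥ vecU w) -
          Δ B * (vecU u ⬝ᵥ M *ᵥ vecU u) + Δ D * (vecU w ⬝ᵥ M *ᵥ vecU w)) ∈ Q := by
    intro Δ
    have h1 := derivation_sum_mem Q Δ hQ hs h
    rw [Fin.sum_univ_six, e0, e1, e2, e3, e4, e5, map_sub, map_sub, Derivation.map_one_eq_zero,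
      sub_zero, sub_zero, ← hf₂'] at h1
    have hC0 : ∀ r : O, Δ (C r) = 0 := fun r => Δ.map_algebraMap r
    rw [derivation_hEq (C t) (C n) A B D pC qC u w Δ (hC0 t) (fun k l => hC0 _)
      (fun k l => hC0 _), ← hM, ← hx, ← hy] at h1
    have h2 : Δ f₁ = Δ A * (C t - 2 * A) - D * Δ B - B * Δ D := by
      rw [hf₁]
      simp only [map_sub, Derivation.leibniz, smul_eq_mul, hC0]
      ring
    rwa [h2] at h1
  -- values of the partial derivatives
  have hcx : ∀ k₀ : Fin N, c 0 * (if i = k₀ then 1 else 0) + c 2 * (if j = k₀ then 1 else 0) +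
      c 5 * ((M + Mᵀ) *ᵥ x) (Sum.inl k₀) ∈ Q := by
    intro k₀
    have h1 := hder (pderiv (Sum.inl (Sum.inl k₀)))
    have h2 : vecU (fun k => pderiv (Sum.inl (Sum.inl k₀)) (u k)) =
        (Pi.single (Sum.inl k₀) 1 : Fin N ⊕ Fin N → MvPolynomial (ChartVar N) O) := by
      ext a
      rcases a with a | a
      · simp only [vecU, hu, Sum.elim_inl, pderiv_X, Pi.single_apply, Sum.inl.injEq]
      · simp [vecU]
    have h3 : vecU (fun k => pderiv (Sum.inl (Sum.inl k₀)) (w k)) =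
        (0 : Fin N ⊕ Fin N → MvPolynomial (ChartVar N) O) := by
      ext a
      rcases a with a | a
      · simp [vecU, hw, pderiv_X, Pi.single_apply]
      · simp [vecU]
    rw [h2, h3, single_one_dotProduct, zero_dotProduct] at h1
    simp only [hA, hB, hDD, hu, hw, pderiv_X, Pi.single_apply, Sum.inl.injEq, reduceCtorEq,
      if_false, mul_zero, zero_mul, add_zero, sub_zero] at h1
    exact h1
  have hcy : ∀ k₀ : Fin N, c 1 * (if i = k₀ then 1 else 0) + c 3 * (if j = k₀ then 1 else 0) +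
      c 5 * ((M + Mᵀ) *ᵥ y) (Sum.inl k₀) ∈ Q := by
    intro k₀
    have h1 := hder (pderiv (Sum.inl (Sum.inr k₀)))
    have h2 : vecU (fun k => pderiv (Sum.inl (Sum.inr k₀)) (w k)) =
        (Pi.single (Sum.inl k₀) 1 : Fin N ⊕ Fin N → MvPolynomial (ChartVar N) O) := by
      ext a
      rcases a with a | a
      · simp only [vecU, hw, Sum.elim_inl, pderiv_X, Pi.single_apply, Sum.inl.injEq,
          Sum.inr.injEq]
      · simp [vecU]
    have h3 : vecU (fun k => pderiv (Sum.inl (Sum.inr k₀)) (u k)) =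
        (0 : Fin N ⊕ Fin N → MvPolynomial (ChartVar N) O) := by
      ext a
      rcases a with a | a
      · simp [vecU, hu, pderiv_X, Pi.single_apply]
      · simp [vecU]
    rw [h2, h3, single_one_dotProduct, zero_dotProduct] at h1
    simp only [hA, hB, hDD, hu, hw, pderiv_X, Pi.single_apply, Sum.inl.injEq, Sum.inr.injEq,
      reduceCtorEq, if_false, mul_zero, zero_mul, add_zero, sub_zero, zero_add] at h1
    exact h1
  have hcA : c 4 * (C t - 2 * A) + c 5 * (vecU u ⬝ᵥ (M + Mᵀ) *ᵥ vecU w) ∈ Q := by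
    have h1 := hder (pderiv (Sum.inr 0))
    have h2 : vecU (fun k => pderiv (Sum.inr 0) (w k)) =
        (0 : Fin N ⊕ Fin N → MvPolynomial (ChartVar N) O) := by
      ext a
      rcases a with a | a
      · simp [vecU, hw, pderiv_X, Pi.single_apply]
      · simp [vecU]
    have h3 : vecU (fun k => pderiv (Sum.inr 0) (u k)) =
        (0 : Fin N ⊕ Fin N → MvPolynomial (ChartVar N) O) := by
      ext a
      rcases a with a | a
      · simp [vecU, hu, pderiv_X, Pi.single_apply]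
      · simp [vecU]
    rw [h2, h3, zero_dotProduct, zero_dotProduct] at h1
    have d1 : pderiv (Sum.inr 0) A = 1 := by rw [hA, pderiv_X_self]
    have d2 : pderiv (Sum.inr 0) B = 0 := by rw [hB, pderiv_X_of_ne (by simp)]
    have d3 : pderiv (Sum.inr 0) D = 0 := by rw [hDD, pderiv_X_of_ne (by simp)]
    have d4 : ∀ k, pderiv (Sum.inr 0) (u k) = 0 := fun k => by rw [hu, pderiv_X_of_ne (by simp)]
    have d5 : ∀ k, pderiv (Sum.inr 0) (w k) = 0 := fun k => by rw [hw, pderiv_X_of_ne (by simp)]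
    rw [d1, d2, d3, d4, d4, d5, d5] at h1
    simpa using h1
  have hcB : c 4 * D + c 5 * (vecU u ⬝ᵥ M *ᵥ vecU u) ∈ Q := by
    have h1 := hder (pderiv (Sum.inr 1))
    have h2 : vecU (fun k => pderiv (Sum.inr 1) (w k)) =
        (0 : Fin N ⊕ Fin N → MvPolynomial (ChartVar N) O) := by
      ext a
      rcases a with a | a
      · simp [vecU, hw, pderiv_X, Pi.single_apply]
      · simp [vecU]
    have h3 : vecU (fun k => pderiv (Sum.inr 1) (u k)) =
        (0 : Fin N ⊕ Fin N → MvPolynomial (ChartVar N) O) := by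
      ext a
      rcases a with a | a
      · simp [vecU, hu, pderiv_X, Pi.single_apply]
      · simp [vecU]
    rw [h2, h3, zero_dotProduct, zero_dotProduct] at h1
    have d1 : pderiv (Sum.inr 1) A = 0 := by rw [hA, pderiv_X_of_ne (by simp)]
    have d2 : pderiv (Sum.inr 1) B = 1 := by rw [hB, pderiv_X_self]
    have d3 : pderiv (Sum.inr 1) D = 0 := by rw [hDD, pderiv_X_of_ne (by simp)]
    have d4 : ∀ k, pderiv (Sum.inr 1) (u k) = 0 := fun k => by rw [hu, pderiv_X_of_ne (by simp)]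
    have d5 : ∀ k, pderiv (Sum.inr 1) (w k) = 0 := fun k => by rw [hw, pderiv_X_of_ne (by simp)]
    rw [d1, d2, d3, d4, d4, d5, d5] at h1
    have h4 := Q.neg_mem h1
    have h5 : -(c 0 * 0 + c 1 * 0 + c 2 * 0 + c 3 * 0 + c 4 * (0 * (C t - 2 * A) - D * 1 - B * 0) +
        c 5 * (0 + 0 + 0 * (vecU u ⬝ᵥ (M + Mᵀ) *ᵥ vecU w) - 1 * (vecU u ⬝ᵥ M *ᵥ vecU u) +
          0 * (vecU w ⬝ᵥ M *ᵥ vecU w))) = c 4 * D + c 5 * (vecU u ⬝ᵥ M *ᵥ vecU u) := by ring
    rwa [h5] at h4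
  have hcD : c 5 * (vecU w ⬝ᵥ M *ᵥ vecU w) - c 4 * B ∈ Q := by
    have h1 := hder (pderiv (Sum.inr 2))
    have h2 : vecU (fun k => pderiv (Sum.inr 2) (w k)) =
        (0 : Fin N ⊕ Fin N → MvPolynomial (ChartVar N) O) := by
      ext a
      rcases a with a | a
      · simp [vecU, hw, pderiv_X, Pi.single_apply]
      · simp [vecU]
    have h3 : vecU (fun k => pderiv (Sum.inr 2) (u k)) =
        (0 : Fin N ⊕ Fin N → MvPolynomial (ChartVar N) O) := by
      ext a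
      rcases a with a | a
      · simp [vecU, hu, pderiv_X, Pi.single_apply]
      · simp [vecU]
    rw [h2, h3, zero_dotProduct, zero_dotProduct] at h1
    have d1 : pderiv (Sum.inr 2) A = 0 := by rw [hA, pderiv_X_of_ne (by simp)]
    have d2 : pderiv (Sum.inr 2) B = 0 := by rw [hB, pderiv_X_of_ne (by simp)]
    have d3 : pderiv (Sum.inr 2) D = 1 := by rw [hDD, pderiv_X_self]
    have d4 : ∀ k, pderiv (Sum.inr 2) (u k) = 0 := fun k => by rw [hu, pderiv_X_of_ne (by simp)]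
    have d5 : ∀ k, pderiv (Sum.inr 2) (w k) = 0 := fun k => by rw [hw, pderiv_X_of_ne (by simp)]
    rw [d1, d2, d3, d4, d4, d5, d5] at h1
    have h5 : (c 0 * 0 + c 1 * 0 + c 2 * 0 + c 3 * 0 + c 4 * (0 * (C t - 2 * A) - D * 0 - B * 1) +
        c 5 * (0 + 0 + 0 * (vecU u ⬝ᵥ (M + Mᵀ) *ᵥ vecU w) - 0 * (vecU u ⬝ᵥ M *ᵥ vecU u) +
          1 * (vecU w ⬝ᵥ M *ᵥ vecU w))) = c 5 * (vecU w ⬝ᵥ M *ᵥ vecU w) - c 4 * B := by ring
    rwa [h5] at h1
  have hcci : ∀ {z : MvPolynomial (ChartVar N) O}, u i * z ∈ Q → z ∈ Q := by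
    intro z hz
    refine (hQp.mem_or_mem hz).resolve_left fun h1 => hQp.ne_top ((Ideal.eq_top_iff_one _).mpr ?_)
    have := Q.sub_mem h1 m0
    rwa [sub_sub_cancel] at this
  have hdj : ∀ {z : MvPolynomial (ChartVar N) O}, w j * z ∈ Q → z ∈ Q := by
    intro z hz
    refine (hQp.mem_or_mem hz).resolve_left fun h1 => hQp.ne_top ((Ideal.eq_top_iff_one _).mpr ?_)
    have := Q.sub_mem h1 m3
    rwa [sub_sub_cancel] at this
  have hvU : ∀ (a : Fin N → MvPolynomial (ChartVar N) O)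
      (G : Fin N ⊕ Fin N → MvPolynomial (ChartVar N) O),
      vecU a ⬝ᵥ G = ∑ k, a k * G (Sum.inl k) := by
    intro a G
    simp [dotProduct, vecU, Fintype.sum_sum_type]
  have hc5 : c 5 ∈ Q := by
    by_contra hc5
    have hcanc : ∀ {z : MvPolynomial (ChartVar N) O}, c 5 * z ∈ Q → z ∈ Q := fun hz =>
      (hQp.mem_or_mem hz).resolve_left hc5
    have hux : vecU u ⬝ᵥ (M + Mᵀ) *ᵥ x ∈ Q := by
      apply hcanc
      rw [hx, hM, dot_ux (C t) (C n) A B D, hf₂', ← hM]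
      have h1 := Q.sub_mem (Q.sub_mem (Q.mul_mem_left (c 5) m5) (Q.mul_mem_left B hcB))
        (Q.mul_mem_left D hcD)
      have h2 : c 5 * f₂ - B * (c 4 * D + c 5 * (vecU u ⬝ᵥ M *ᵥ vecU u)) -
          D * (c 5 * (vecU w ⬝ᵥ M *ᵥ vecU w) - c 4 * B) =
          c 5 * (f₂ - B * (vecU u ⬝ᵥ M *ᵥ vecU u) - D * (vecU w ⬝ᵥ M *ᵥ vecU w)) := by ring
      rwa [h2] at h1
    have hwx : vecU w ⬝ᵥ (M + Mᵀ) *ᵥ x ∈ Q := by
      apply hcanc
      rw [hx, hM, dot_wx (C t) (C n) A B, ← hM]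
      have h1 := Q.sub_mem (Q.mul_mem_left (2 * A - C t) hcD) (Q.mul_mem_left B hcA)
      have h2 : (2 * A - C t) * (c 5 * (vecU w ⬝ᵥ M *ᵥ vecU w) - c 4 * B) -
          B * (c 4 * (C t - 2 * A) + c 5 * (vecU u ⬝ᵥ (M + Mᵀ) *ᵥ vecU w)) =
          c 5 * ((2 * A - C t) * (vecU w ⬝ᵥ M *ᵥ vecU w) -
            B * (vecU u ⬝ᵥ (M + Mᵀ) *ᵥ vecU w)) := by ring
      rwa [h2] at h1
    have huy : vecU u ⬝ᵥ (M + Mᵀ) *ᵥ y ∈ Q := by
      apply hcanc
      rw [hy, hM, dot_uy (C t) (C n) A D, ← hM]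
      have h1 := Q.add_mem (Q.mul_mem_left D hcA) (Q.mul_mem_left (2 * A - C t) hcB)
      have h2 : D * (c 4 * (C t - 2 * A) + c 5 * (vecU u ⬝ᵥ (M + Mᵀ) *ᵥ vecU w)) +
          (2 * A - C t) * (c 4 * D + c 5 * (vecU u ⬝ᵥ M *ᵥ vecU u)) =
          c 5 * (D * (vecU u ⬝ᵥ (M + Mᵀ) *ᵥ vecU w) +
            (2 * A - C t) * (vecU u ⬝ᵥ M *ᵥ vecU u)) := by ring
      rwa [h2] at h1
    have hwy : vecU w ⬝ᵥ (M + Mᵀ) *ᵥ y ∈ Q := by
      apply hcanc
      rw [hy, hM, dot_wy (C t) (C n) A B D, hf₂', ← hM]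
      have h1 := Q.add_mem (Q.add_mem (Q.mul_mem_left (c 5) m5) (Q.mul_mem_left B hcB))
        (Q.mul_mem_left D hcD)
      have h2 : c 5 * f₂ + B * (c 4 * D + c 5 * (vecU u ⬝ᵥ M *ᵥ vecU u)) +
          D * (c 5 * (vecU w ⬝ᵥ M *ᵥ vecU w) - c 4 * B) =
          c 5 * (f₂ + B * (vecU u ⬝ᵥ M *ᵥ vecU u) + D * (vecU w ⬝ᵥ M *ᵥ vecU w)) := by ring
      rwa [h2] at h1
    -- the first half of the gradients
    have hfirst : ∀ G : Fin N ⊕ Fin N → MvPolynomial (ChartVar N) O,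
        (∀ k, k ≠ i → k ≠ j → G (Sum.inl k) ∈ Q) → vecU u ⬝ᵥ G ∈ Q → vecU w ⬝ᵥ G ∈ Q →
          ∀ k, G (Sum.inl k) ∈ Q := by
      intro G h0 h1 h2
      have hGi : G (Sum.inl i) ∈ Q := by
        apply hcci
        rw [hvU, ← Finset.add_sum_erase _ _ (Finset.mem_univ i)] at h1
        refine (Ideal.add_mem_iff_left _ ?_).mp h1
        refine Q.sum_mem fun k hk => ?_
        have hki : k ≠ i := Finset.ne_of_mem_erase hk
        by_cases hkj : k = j
        · rw [hkj]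
          exact Q.mul_mem_right _ m2
        · exact Q.mul_mem_left _ (h0 k hki hkj)
      have hGj : G (Sum.inl j) ∈ Q := by
        apply hdj
        rw [hvU, ← Finset.add_sum_erase _ _ (Finset.mem_univ j)] at h2
        refine (Ideal.add_mem_iff_left _ ?_).mp h2
        refine Q.sum_mem fun k hk => ?_
        have hkj : k ≠ j := Finset.ne_of_mem_erase hk
        by_cases hki : k = i
        · rw [hki]
          exact Q.mul_mem_right _ m1
        · exact Q.mul_mem_left _ (h0 k hki hkj)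
      intro k
      by_cases hki : k = i
      · rwa [hki]
      · by_cases hkj : k = j
        · rwa [hkj]
        · exact h0 k hki hkj
    have gxl : ∀ k, ((M + Mᵀ) *ᵥ x) (Sum.inl k) ∈ Q := by
      refine hfirst _ (fun k hki hkj => ?_) hux hwx
      have h1 := hcx k
      rw [if_neg (Ne.symm hki), if_neg (Ne.symm hkj), mul_zero, mul_zero, zero_add, zero_add] at h1
      exact hcanc h1
    have gyl : ∀ k, ((M + Mᵀ) *ᵥ y) (Sum.inl k) ∈ Q := by
      refine hfirst _ (fun k hki hkj => ?_) huy hwy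
      have h1 := hcy k
      rw [if_neg (Ne.symm hki), if_neg (Ne.symm hkj), mul_zero, mul_zero, zero_add, zero_add] at h1
      exact hcanc h1
    -- the second half
    have gx : ∀ a, ((M + Mᵀ) *ᵥ x) a ∈ Q := by
      rintro (k | k)
      · exact gxl k
      · rw [hM, grad_inr, ← hM]
        refine Q.sub_mem (Q.mul_mem_left _ (gxl k)) ?_
        rw [hx, omV_vecX (C t) (C n) A B D, ← hx, ← hy, ← hf₁, mulVec_sub, mulVec_sub,
          mulVec_smul, mulVec_smul, mulVec_smul]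
        simp only [Pi.sub_apply, Pi.smul_apply, smul_eq_mul]
        exact Q.sub_mem (Q.sub_mem (Q.mul_mem_left _ (gxl k)) (Q.mul_mem_left _ (gyl k)))
          (Q.mul_mem_right _ m4)
    have gy : ∀ a, ((M + Mᵀ) *ᵥ y) a ∈ Q := by
      rintro (k | k)
      · exact gyl k
      · rw [hM, grad_inr, ← hM]
        refine Q.sub_mem (Q.mul_mem_left _ (gyl k)) ?_
        rw [hy, omV_vecY (C t) (C n) A B D, ← hx, ← hy, ← hf₁, mulVec_add, mulVec_sub,
          mulVec_smul, mulVec_smul, mulVec_smul]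
        simp only [Pi.sub_apply, Pi.add_apply, Pi.smul_apply, smul_eq_mul]
        exact Q.add_mem (Q.sub_mem (Q.mul_mem_left _ (gyl k)) (Q.mul_mem_left _ (gxl k)))
          (Q.mul_mem_right _ m4)
    -- the other coefficients
    have c0m : c 0 ∈ Q := by
      have h1 := hcx i
      rw [if_pos rfl, if_neg hij.symm, mul_one, mul_zero, add_zero] at h1
      exact (Ideal.add_mem_iff_left _ (Q.mul_mem_left _ (gxl i))).mp h1
    have c2m : c 2 ∈ Q := by
      have h1 := hcx j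
      rw [if_pos rfl, if_neg hij, mul_one, mul_zero, zero_add] at h1
      exact (Ideal.add_mem_iff_left _ (Q.mul_mem_left _ (gxl j))).mp h1
    have c1m : c 1 ∈ Q := by
      have h1 := hcy i
      rw [if_pos rfl, if_neg hij.symm, mul_one, mul_zero, add_zero] at h1
      exact (Ideal.add_mem_iff_left _ (Q.mul_mem_left _ (gyl i))).mp h1
    have c3m : c 3 ∈ Q := by
      have h1 := hcy j
      rw [if_pos rfl, if_neg hij, mul_one, mul_zero, zero_add] at h1
      exact (Ideal.add_mem_iff_left _ (Q.mul_mem_left _ (gyl j))).mp h1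
    have hcomb : s * (c 4 * f₁ + c 5 * f₂) ∈ Q ^ 2 := by
      rw [Fin.sum_univ_six, e0, e1, e2, e3, e4, e5] at h
      have h1 : s * (c 4 * f₁ + c 5 * f₂) = s * (c 0 * (u i - 1) + c 1 * w i + c 2 * u j +
          c 3 * (w j - 1) + c 4 * f₁ + c 5 * f₂) - s * (c 0 * (u i - 1) + c 1 * w i +
          c 2 * u j + c 3 * (w j - 1)) := by ring
      rw [h1]
      refine Ideal.sub_mem _ h (Ideal.mul_mem_left _ _ ?_)
      rw [pow_two]
      exact Ideal.add_mem _ (Ideal.add_mem _ (Ideal.add_mem _ (Ideal.mul_mem_mul c0m m0)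
        (Ideal.mul_mem_mul c1m m1)) (Ideal.mul_mem_mul c2m m2)) (Ideal.mul_mem_mul c3m m3)
    -- the uniformizer
    have hyi : y (Sum.inr i) = u i := by rw [hy]; rfl
    have hyj : y (Sum.inr j) = u j := by rw [hy]; rfl
    have hxi : x (Sum.inr i) = -w i := by rw [hx]; rfl
    have hxj : x (Sum.inr j) = -w j := by rw [hx]; rfl
    have hyiQ : y (Sum.inr i) ∉ Q := by
      rw [hyi]
      intro h1
      refine hQp.ne_top ((Ideal.eq_top_iff_one _).mpr ?_)
      have := Q.sub_mem h1 m0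
      rwa [sub_sub_cancel] at this
    have hdetQ : C (hMat t n p q + (hMat t n p q)ᵀ).det ∈ Q := by
      refine det_mem_of_grad C Q _ (x := y) ?_ hyiQ
      rw [hGC]
      exact gy
    have hm := C_mem_of_C_mem Q hdet hdetQ
    have hs' : s * c 5 ∉ Q := fun h1 => (hQp.mem_or_mem h1).elim hs hc5
    have hfin := null_pairI hπ hani (C : O →+* MvPolynomial (ChartVar N) O) Q hm
      (fun s' hs' => mul_C_notMem_sq hπ Q (hm π (by
        rw [hπ.maximalIdeal_eq]
        exact Ideal.mem_span_singleton_self _)) hs')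
      (x := x) (y := y) (by rw [hGC]; exact gx) (by rw [hGC]; exact gy) hs' (by
        intro ξ η
        rw [hMC]
        obtain ⟨g, hg⟩ : ∃ g, g = -(B * ξ ^ 2) + (2 * A - C t) * (ξ * η) + D * η ^ 2 := ⟨_, rfl⟩
        have h1 := hEq_star (C t) (C n) A B D pC qC u w ξ η
        rw [← hx, ← hy, ← hM, hf₂', ← hf₁, ← hg] at h1
        have h2 := dot_uw_expand (C t) (C n) pC qC u w ξ η
        rw [← hM] at h2
        have h3 : c 5 * ((ξ • vecU w - η • vecU u) ⬝ᵥ M *ᵥ (ξ • vecU w - η • vecU u)) +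
            c 4 * g ∈ Q := by
          rw [h2, hg]
          have h4 := Q.sub_mem (Q.add_mem (Q.mul_mem_left (ξ ^ 2) hcD)
            (Q.mul_mem_left (η ^ 2) hcB)) (Q.mul_mem_left (ξ * η) hcA)
          have h5 : ξ ^ 2 * (c 5 * (vecU w ⬝ᵥ M *ᵥ vecU w) - c 4 * B) +
              η ^ 2 * (c 4 * D + c 5 * (vecU u ⬝ᵥ M *ᵥ vecU u)) -
              ξ * η * (c 4 * (C t - 2 * A) + c 5 * (vecU u ⬝ᵥ (M + Mᵀ) *ᵥ vecU w)) =
              c 5 * (ξ ^ 2 * (vecU w ⬝ᵥ M *ᵥ vecU w) + η ^ 2 * (vecU u ⬝ᵥ M *ᵥ vecU u) -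
                ξ * η * (vecU u ⬝ᵥ (M + Mᵀ) *ᵥ vecU w)) +
              c 4 * (-(B * ξ ^ 2) + (2 * A - C t) * (ξ * η) + D * η ^ 2) := by ring
          rwa [h5] at h4
        rw [h1]
        have h6 : s * c 5 * (g * f₂ - f₁ * ((ξ • vecU w - η • vecU u) ⬝ᵥ M *ᵥ
            (ξ • vecU w - η • vecU u))) = g * (s * (c 4 * f₁ + c 5 * f₂)) -
            s * (f₁ * (c 5 * ((ξ • vecU w - η • vecU u) ⬝ᵥ M *ᵥ
              (ξ • vecU w - η • vecU u)) + c 4 * g)) := by ring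
        rw [h6]
        refine Ideal.sub_mem _ (Ideal.mul_mem_left _ _ hcomb) (Ideal.mul_mem_left _ _ ?_)
        rw [pow_two]
        exact Ideal.mul_mem_mul m4 h3) (Sum.inr j) (Sum.inr i)
    rw [hxj, hxi, hyi, hyj] at hfin
    have h1 : w j * (u i * 1) ∈ Q := by
      have h2 := Q.sub_mem (Q.mul_mem_right (w i) m2) hfin
      have h3 : u j * w i - (-w j * u i - -w i * u j) = w j * (u i * 1) + 2 * (u j * w i) -
        2 * (u j * w i) := by ring
      rw [h3, add_sub_cancel_right] at h2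
      exact h2
    exact hQp.ne_top ((Ideal.eq_top_iff_one _).mpr (hcci (hdj h1)))
  have c0m : c 0 ∈ Q := by
    have h1 := hcx i
    rw [if_pos rfl, if_neg hij.symm, mul_one, mul_zero, add_zero] at h1
    exact (Ideal.add_mem_iff_left _ (Q.mul_mem_right _ hc5)).mp h1
  have c2m : c 2 ∈ Q := by
    have h1 := hcx j
    rw [if_pos rfl, if_neg hij, mul_one, mul_zero, zero_add] at h1
    exact (Ideal.add_mem_iff_left _ (Q.mul_mem_right _ hc5)).mp h1
  have c1m : c 1 ∈ Q := by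
    have h1 := hcy i
    rw [if_pos rfl, if_neg hij.symm, mul_one, mul_zero, add_zero] at h1
    exact (Ideal.add_mem_iff_left _ (Q.mul_mem_right _ hc5)).mp h1
  have c3m : c 3 ∈ Q := by
    have h1 := hcy j
    rw [if_pos rfl, if_neg hij, mul_one, mul_zero, zero_add] at h1
    exact (Ideal.add_mem_iff_left _ (Q.mul_mem_right _ hc5)).mp h1
  have c4m : c 4 ∈ Q := by
    by_contra hc4
    have hs' : s * c 4 ∉ Q := fun h1 => (hQp.mem_or_mem h1).elim hs hc4
    have hQ4 : X (Sum.inr 0) * (C t - X (Sum.inr 0)) - X (Sum.inr 1) * X (Sum.inr 2) - C n ∈ Q :=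
      hQ 4
    apply normEq_notMem_sq (a := (Sum.inr 0 : ChartVar N)) (b := Sum.inr 1) (c := Sum.inr 2)
      (by simp) (by simp) (by simp) hmax hd Q hQ4 hs'
    have h0 : X (Sum.inr 0) * (C t - X (Sum.inr 0)) - X (Sum.inr 1) * X (Sum.inr 2) - C n = f₁ := by
      rw [hf₁, hA, hB, hDD]
    rw [h0]
    rw [Fin.sum_univ_six, e0, e1, e2, e3, e4, e5] at h
    have h1 : s * c 4 * f₁ = s * (c 0 * (u i - 1) + c 1 * w i + c 2 * u j +
        c 3 * (w j - 1) + c 4 * f₁ + c 5 * f₂) - s * (c 0 * (u i - 1) + c 1 * w i +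
        c 2 * u j + c 3 * (w j - 1) + c 5 * f₂) := by ring
    rw [h1]
    refine Ideal.sub_mem _ h (Ideal.mul_mem_left _ _ ?_)
    rw [pow_two]
    exact Ideal.add_mem _ (Ideal.add_mem _ (Ideal.add_mem _ (Ideal.add_mem _
      (Ideal.mul_mem_mul c0m m0) (Ideal.mul_mem_mul c1m m1)) (Ideal.mul_mem_mul c2m m2))
      (Ideal.mul_mem_mul c3m m3)) (Ideal.mul_mem_mul hc5 m5)
  fin_cases k
  · exact c0m
  · exact c1m
  · exact c2m
  · exact c3m
  · exact c4m
  · exact hc5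

end Indep

end Pool.Agent.Lib.MP_6a3dac_ag
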