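import Pool.Agent.Lib.MP_6a3dac_ag.NormEq

/-!
# Existence of maximal orders in quadratic algebras
-/

set_option autoImplicit false

namespace Pool.Agent.Lib.MP_6a3dac_ag

open IsLocalRing

variable {O : Type} [CommRing O] [IsDomain O] [IsDiscreteValuationRing O]

theorem mem_maximalIdeal_sq_iff {π : O} (hπ : Irreducible π) {x : O} :
    x ∈ maximalIdeal O ^ 2 ↔ π ^ 2 ∣ x := by
  rw [hπ.maximalIdeal_eq, Ideal.span_singleton_pow, Ideal.mem_span_singleton]

theorem exists_maxOrd_aux {π : O} (hπ : Irreducible π) (k : ℕ) : ∀ t n : O,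
    ¬ π ^ k ∣ t ^ 2 - 4 * n → ∃ r s t₁ n₁ : O, s ≠ 0 ∧ t = 2 * r + s * t₁ ∧
      n = r ^ 2 + r * s * t₁ + s ^ 2 * n₁ ∧ MaxOrd t₁ n₁ := by
  induction k with
  | zero => intro t n h; exact absurd (by rw [pow_zero]; exact one_dvd _) h
  | succ k ih =>
    intro t n h
    by_cases hmax : MaxOrd t n
    · exact ⟨0, 1, t, n, one_ne_zero, by ring, by ring, hmax⟩
    · simp only [MaxOrd, not_forall, not_not] at hmax
      obtain ⟨r, hr, hr2⟩ := hmax
      rw [hπ.maximalIdeal_eq, Ideal.mem_span_singleton] at hr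
      rw [mem_maximalIdeal_sq_iff hπ] at hr2
      obtain ⟨u, hu⟩ := hr
      obtain ⟨v, hv⟩ := hr2
      have hdisc : t ^ 2 - 4 * n = π ^ 2 * ((-u) ^ 2 - 4 * v) := by
        linear_combination (-t + 2 * r + π * u) * hu - 4 * hv
      have h1 : ¬ π ^ k ∣ (-u) ^ 2 - 4 * v := by
        intro h2
        apply h
        rw [hdisc, pow_succ]
        refine (mul_dvd_mul h2 (dvd_refl π)).trans ?_
        exact ⟨π, by ring⟩
      obtain ⟨a, b, t₁, n₁, hb, h2, h3, h4⟩ := ih (-u) v h1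
      refine ⟨r + π * a, π * b, t₁, n₁, mul_ne_zero hπ.ne_zero hb, ?_, ?_, h4⟩
      · linear_combination (-1) * hu + π * h2
      · linear_combination hv + π ^ 2 * h3 + (-1) * r * hu + π * r * h2

theorem exists_maxOrd (t n : O) (hd : t ^ 2 - 4 * n ≠ 0) : ∃ r s t₁ n₁ : O, s ≠ 0 ∧
    t = 2 * r + s * t₁ ∧ n = r ^ 2 + r * s * t₁ + s ^ 2 * n₁ ∧ MaxOrd t₁ n₁ := by
  obtain ⟨π, hπ⟩ := IsDiscreteValuationRing.exists_irreducible O
  obtain ⟨k, u, hu⟩ := IsDiscreteValuationRing.associated_pow_irreducible hd hπ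
  refine exists_maxOrd_aux hπ (k + 1) t n ?_
  intro h
  have h1 : π ^ (k + 1) ∣ π ^ k := by
    rw [← hu]
    exact h.trans (dvd_mul_right _ _)
  rw [pow_dvd_pow_iff hπ.ne_zero hπ.not_isUnit] at h1
  omega

theorem maxOrd_of_isUnit {t n : O} (h : IsUnit (t ^ 2 - 4 * n)) : MaxOrd t n := by
  intro r h1 h2
  have h3 : t ^ 2 - 4 * n ∈ maximalIdeal O := by
    have h4 : t ^ 2 - 4 * n = (2 * r - t) * (2 * r - t) - 4 * (r ^ 2 - t * r + n) := by ring
    rw [h4]
    exact (maximalIdeal O).sub_mem (Ideal.mul_mem_left _ _ h1)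
      (Ideal.mul_mem_left _ _ (Ideal.pow_le_self two_ne_zero h2))
  exact (IsLocalRing.notMem_maximalIdeal.mpr h) h3

end Pool.Agent.Lib.MP_6a3dac_ag
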