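import Pool.Agent.Lib.MP_6a3dac_ag.HermIdent
import Pool.Agent.Lib.MP_6a3dac_ag.MaxOrdExist

/-!
# Maximal lattices for Hermitian forms
-/

set_option autoImplicit false

namespace Pool.Agent.Lib.MP_6a3dac_ag

open Matrix IsLocalRing

section Basic

variable {S : Type} [CommRing S] (t n : S) {N : ℕ}

theorem dot_polar {J : Type} [Fintype J] (M : Matrix J J S) (v w : J → S) :
    v ⬝ᵥ (M + Mᵀ) *ᵥ w = (v + w) ⬝ᵥ M *ᵥ (v + w) - v ⬝ᵥ M *ᵥ v - w ⬝ᵥ M *ᵥ w := by
  rw [add_mulVec, dotProduct_add, mulVec_transpose, dotProduct_comm v (w ᵥ* M),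
    ← dotProduct_mulVec, mulVec_add, add_dotProduct, dotProduct_add, dotProduct_add]
  ring

theorem add_transpose_eq_of_forall {J : Type} [Fintype J] [DecidableEq J] (M M' g : Matrix J J S)
    (h : ∀ v, (g *ᵥ v) ⬝ᵥ M *ᵥ (g *ᵥ v) = v ⬝ᵥ M' *ᵥ v) : M' + M'ᵀ = gᵀ * (M + Mᵀ) * g := by
  ext i j
  have h1 : ∀ B : Matrix J J S, B i j = Pi.single i 1 ⬝ᵥ B *ᵥ Pi.single j 1 := by
    intro B
    rw [single_one_dotProduct, mulVec_single_one]
    rfl
  rw [h1 (M' + M'ᵀ), h1 (gᵀ * (M + Mᵀ) * g), dot_polar, ← h, ← h, ← h, mulVec_add, ← dot_polar,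
    ← mulVec_mulVec, ← mulVec_mulVec, mulVec_transpose, dotProduct_comm (Pi.single i 1),
    ← dotProduct_mulVec, dotProduct_comm ((M + Mᵀ) *ᵥ _)]

theorem dot_omV_right (p q : Matrix (Fin N) (Fin N) S) (v w : Fin N ⊕ Fin N → S) :
    v ⬝ᵥ hMat t n p q *ᵥ omV t n w =
      t * (v ⬝ᵥ hMat t n p q *ᵥ w) - omV t n v ⬝ᵥ hMat t n p q *ᵥ w := by
  rw [dot_hMat, dot_hMat, dot_hMat, Finset.mul_sum, ← Finset.sum_sub_distrib]
  refine Finset.sum_congr rfl fun k _ => ?_
  rw [Finset.mul_sum, ← Finset.sum_sub_distrib]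
  refine Finset.sum_congr rfl fun l _ => ?_
  simp only [epsB, delB, omV, Sum.elim_inl, Sum.elim_inr]
  ring

theorem dot_omV_omV (p q : Matrix (Fin N) (Fin N) S) (v w : Fin N ⊕ Fin N → S) :
    omV t n v ⬝ᵥ hMat t n p q *ᵥ omV t n w = n * (v ⬝ᵥ hMat t n p q *ᵥ w) := by
  rw [dot_hMat, dot_hMat, Finset.mul_sum]
  refine Finset.sum_congr rfl fun k _ => ?_
  rw [Finset.mul_sum]
  refine Finset.sum_congr rfl fun l _ => ?_
  simp only [epsB, delB, omV, Sum.elim_inl, Sum.elim_inr]
  ring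

theorem omV_single (k : Fin N) : omV t n (Pi.single (Sum.inl k) (1 : S) : Fin N ⊕ Fin N → S) =
    Pi.single (Sum.inr k) 1 := by
  ext i
  rcases i with i | i
  · simp [omV]
  · simp only [omV, Sum.elim_inr, Pi.single_apply, Sum.inl.injEq, Sum.inr.injEq,
      reduceCtorEq, if_false, mul_zero, add_zero]

/-- A linear map commuting with the multiplication by `ω` transforms the form into one of the
same kind. -/
theorem conj_hMat (p q : Matrix (Fin N) (Fin N) S) (g : Matrix (Fin N ⊕ Fin N) (Fin N ⊕ Fin N) S)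
    (hg : ∀ v, g *ᵥ omV t n v = omV t n (g *ᵥ v)) :
    ∃ p' q' : Matrix (Fin N) (Fin N) S, gᵀ * hMat t n p q * g = hMat t n p' q' := by
  have hentry : ∀ i j, (gᵀ * hMat t n p q * g) i j =
      (g *ᵥ Pi.single i 1) ⬝ᵥ hMat t n p q *ᵥ (g *ᵥ Pi.single j 1) := by
    intro i j
    have h1 : (gᵀ * hMat t n p q * g) i j =
        Pi.single i 1 ⬝ᵥ (gᵀ * hMat t n p q * g) *ᵥ Pi.single j 1 := by
      rw [single_one_dotProduct, mulVec_single_one]
      rfl
    rw [h1, ← mulVec_mulVec, ← mulVec_mulVec, mulVec_transpose, dotProduct_comm (Pi.single i 1),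
      ← dotProduct_mulVec, dotProduct_comm]
  refine ⟨Matrix.of fun k l => (gᵀ * hMat t n p q * g) (Sum.inl k) (Sum.inl l),
    Matrix.of fun k l => (gᵀ * hMat t n p q * g) (Sum.inr k) (Sum.inl l), ?_⟩
  ext i j
  rcases i with k | k <;> rcases j with l | l
  · simp only [hMat, fromBlocks_apply₁₁, Matrix.of_apply]
  · simp only [hMat, fromBlocks_apply₁₂, Matrix.of_apply, Matrix.sub_apply, Matrix.smul_apply,
      smul_eq_mul]
    have e := hentry (Sum.inl k) (Sum.inr l)
    have e1 := hentry (Sum.inl k) (Sum.inl l)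
    have e2 := hentry (Sum.inr k) (Sum.inl l)
    rw [← omV_single t n l, hg, dot_omV_right, ← hg, omV_single, ← e1, ← e2] at e
    exact e
  · simp only [hMat, fromBlocks_apply₂₁, Matrix.of_apply]
  · simp only [hMat, fromBlocks_apply₂₂, Matrix.of_apply, Matrix.smul_apply, smul_eq_mul]
    have e := hentry (Sum.inr k) (Sum.inr l)
    have e1 := hentry (Sum.inl k) (Sum.inl l)
    rw [← omV_single t n l, ← omV_single t n k, hg, hg, dot_omV_omV, ← e1] at e
    exact e

theorem dot_conj {J : Type} [Fintype J] (M g : Matrix J J S) (v : J → S) :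
    (g *ᵥ v) ⬝ᵥ M *ᵥ (g *ᵥ v) = v ⬝ᵥ (gᵀ * M * g) *ᵥ v := by
  rw [← mulVec_mulVec, ← mulVec_mulVec, mulVec_transpose, dotProduct_comm v, ← dotProduct_mulVec,
    dotProduct_comm]

end Basic

section Normal

variable {O K : Type} [CommRing O] [Field K] [CharZero K] [Algebra O K] (t n : O) {N : ℕ}

omit [CharZero K] in
theorem sum_eq_of_symm {K : Type} [Field K] [CharZero K] {N : ℕ} {F G : Fin N → Fin N → K}
    (h : ∀ k l, F k l + F l k = G k l + G l k) : ∑ k, ∑ l, F k l = ∑ k, ∑ l, G k l := by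
  have h2 : ∀ F : Fin N → Fin N → K, 2 * ∑ k, ∑ l, F k l = ∑ k, ∑ l, (F k l + F l k) := by
    intro F
    simp_rw [Finset.sum_add_distrib]
    rw [Finset.sum_comm (f := fun k l => F l k)]
    ring
  have h3 : (2 : K) * ∑ k, ∑ l, F k l = 2 * ∑ k, ∑ l, G k l := by
    rw [h2, h2]
    exact Finset.sum_congr rfl fun k _ => Finset.sum_congr rfl fun l _ => h k l
  exact mul_left_cancel₀ two_ne_zero h3

/-- A Hermitian form with integral values is given by integral coefficients. -/
theorem exists_integral_coeffs (p q : Matrix (Fin N) (Fin N) K)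
    (h : ∀ x : Fin N ⊕ Fin N → O, ∃ r : O, algebraMap O K r =
      (algebraMap O K ∘ x) ⬝ᵥ hMat (algebraMap O K t) (algebraMap O K n) p q *ᵥ
        (algebraMap O K ∘ x)) :
    ∃ p' q' : Matrix (Fin N) (Fin N) O, ∀ v : Fin N ⊕ Fin N → K,
      v ⬝ᵥ hMat (algebraMap O K t) (algebraMap O K n) p q *ᵥ v =
        v ⬝ᵥ (hMat t n p' q').map (algebraMap O K) *ᵥ v := by
  classical
  obtain ⟨M, hM⟩ : ∃ M, M = hMat (algebraMap O K t) (algebraMap O K n) p q := ⟨_, rfl⟩
  rw [← hM] at h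
  choose f hf using h
  -- polar values
  have hpol : ∀ x y : Fin N ⊕ Fin N → O, algebraMap O K (f (x + y) - f x - f y) =
      (algebraMap O K ∘ x) ⬝ᵥ (M + Mᵀ) *ᵥ (algebraMap O K ∘ y) := by
    intro x y
    rw [dot_polar, map_sub, map_sub, hf, hf, hf]
    congr 2
    have : algebraMap O K ∘ (x + y) = algebraMap O K ∘ x + algebraMap O K ∘ y := by
      ext i
      simp
    rw [this]
  have hsingle : ∀ a : Fin N ⊕ Fin N, algebraMap O K ∘ (Pi.single a (1 : O)) =
      (Pi.single a 1 : Fin N ⊕ Fin N → K) := by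
    intro a
    ext i
    simp only [Function.comp_apply, Pi.single_apply]
    split_ifs <;> simp
  let P : Matrix (Fin N) (Fin N) O := Matrix.of fun k l =>
    if k = l then f (Pi.single (Sum.inl k) 1) else if k < l then
      f (Pi.single (Sum.inl k) 1 + Pi.single (Sum.inl l) 1) - f (Pi.single (Sum.inl k) 1) -
        f (Pi.single (Sum.inl l) 1) else 0
  let Q : Matrix (Fin N) (Fin N) O := Matrix.of fun k l =>
    if k < l then f (Pi.single (Sum.inr k) 1 + Pi.single (Sum.inl l) 1) -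
      f (Pi.single (Sum.inr k) 1) - f (Pi.single (Sum.inl l) 1) else 0
  have hPd : ∀ k, algebraMap O K (P k k) = p k k := by
    intro k
    simp only [P, Matrix.of_apply, if_true]
    rw [hf, hsingle, single_one_dotProduct, mulVec_single_one, hM]
    rfl
  have hPu : ∀ k l, k < l → algebraMap O K (P k l) = p k l + p l k := by
    intro k l hkl
    simp only [P, Matrix.of_apply, if_neg hkl.ne, if_pos hkl]
    rw [hpol, hsingle, hsingle, single_one_dotProduct, mulVec_single_one, hM]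
    rfl
  have hPl : ∀ k l, l < k → algebraMap O K (P k l) = 0 := by
    intro k l hkl
    simp only [P, Matrix.of_apply, if_neg hkl.ne', if_neg hkl.not_gt, map_zero]
  have hQu : ∀ k l, k < l → algebraMap O K (Q k l) =
      q k l + (algebraMap O K t * p l k - q l k) := by
    intro k l hkl
    simp only [Q, Matrix.of_apply, if_pos hkl]
    rw [hpol, hsingle, hsingle, single_one_dotProduct, mulVec_single_one, hM]
    rfl
  have hQl : ∀ k l, ¬ k < l → algebraMap O K (Q k l) = 0 := by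
    intro k l hkl
    simp only [Q, Matrix.of_apply, if_neg hkl, map_zero]
  refine ⟨P, Q, fun v => ?_⟩
  rw [map_hMat, dot_hMat, dot_hMat]
  refine sum_eq_of_symm fun k l => ?_
  simp only [Matrix.map_apply]
  rcases lt_trichotomy k l with hkl | rfl | hkl
  · rw [hPu k l hkl, hQu k l hkl, hPl l k hkl, hQl l k hkl.not_gt]
    simp only [epsB, delB]
    ring
  · rw [hPd, hQl k k (lt_irrefl k)]
    simp only [epsB, delB]
    ring
  · rw [hPu l k hkl, hQu l k hkl, hPl k l hkl, hQl k l hkl.not_gt]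
    simp only [epsB, delB]
    ring

end Normal

end Pool.Agent.Lib.MP_6a3dac_ag
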