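import Pool.Agent.Lib.MP_6a3dac_ag.HermMove

/-!
# Existence of maximal lattices for Hermitian forms
-/

set_option autoImplicit false

namespace Pool.Agent.Lib.MP_6a3dac_ag

open Matrix IsLocalRing

section MapDot

variable {R S : Type} [CommRing R] [CommRing S] {J : Type} [Fintype J]

theorem dot_map (φ : R →+* S) (M : Matrix J J R) (v w : J → R) :
    (φ ∘ v) ⬝ᵥ M.map φ *ᵥ (φ ∘ w) = φ (v ⬝ᵥ M *ᵥ w) := by
  simp only [dotProduct, mulVec, Function.comp_apply, Matrix.map_apply, map_sum, map_mul]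

theorem map_add_transposeI (φ : R →+* S) (M : Matrix J J R) :
    (M + Mᵀ).map φ = M.map φ + (M.map φ)ᵀ := by
  ext i j
  simp

end MapDot

variable {O K : Type} [CommRing O] [IsDomain O] [IsDiscreteValuationRing O] [Field K] [CharZero K]
  [Algebra O K] [IsFractionRing O K] (t n : O) {N : ℕ} (p₀ q₀ : Matrix (Fin N) (Fin N) K)

/-- The Hermitian form with coefficients `p`, `q` in `O` is equivalent over `K` to the one with
coefficients `p₀`, `q₀`. -/
def HCls (p q : Matrix (Fin N) (Fin N) O) : Prop :=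
  ∃ g : Matrix (Fin N ⊕ Fin N) (Fin N ⊕ Fin N) K, g.det ≠ 0 ∧
    (∀ v, g *ᵥ omV (algebraMap O K t) (algebraMap O K n) v =
      omV (algebraMap O K t) (algebraMap O K n) (g *ᵥ v)) ∧
    ∀ v, (g *ᵥ v) ⬝ᵥ hMat (algebraMap O K t) (algebraMap O K n) p₀ q₀ *ᵥ (g *ᵥ v) =
      v ⬝ᵥ (hMat t n p q).map (algebraMap O K) *ᵥ v

omit [IsDiscreteValuationRing O] [CharZero K] in
theorem exists_hcls : ∃ p q : Matrix (Fin N) (Fin N) O, HCls t n p₀ q₀ p q := by
  obtain ⟨b, hb⟩ := IsLocalization.exist_integer_multiples_of_finite (nonZeroDivisors O)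
    (Sum.elim (fun ij : Fin N × Fin N => p₀ ij.1 ij.2) (fun ij : Fin N × Fin N => q₀ ij.1 ij.2))
  choose f hf using hb
  have hbK : algebraMap O K b ≠ 0 := by
    rw [Ne, FaithfulSMul.algebraMap_eq_zero_iff]
    exact nonZeroDivisors.ne_zero b.2
  refine ⟨Matrix.of fun i j => b * f (Sum.inl (i, j)), Matrix.of fun i j => b * f (Sum.inr (i, j)),
    Matrix.diagonal fun _ => algebraMap O K b, ?_, ?_, ?_⟩
  · rw [Matrix.det_diagonal]
    exact Finset.prod_ne_zero_iff.mpr fun _ _ => hbK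
  · intro v
    ext i
    rcases i with i | i
    · simp only [omV, mulVec_diagonal, Sum.elim_inl]
      ring
    · simp only [omV, mulVec_diagonal, Sum.elim_inr]
      ring
  · intro v
    have hM : (hMat t n (Matrix.of fun i j => (b : O) * f (Sum.inl (i, j)))
        (Matrix.of fun i j => (b : O) * f (Sum.inr (i, j)))).map (algebraMap O K) =
        (algebraMap O K b) ^ 2 • hMat (algebraMap O K t) (algebraMap O K n) p₀ q₀ := by
      have h1 : ∀ ij, algebraMap O K (f (Sum.inl ij)) = algebraMap O K b * p₀ ij.1 ij.2 := by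
        intro ij
        rw [hf, Algebra.smul_def]
        rfl
      have h2 : ∀ ij, algebraMap O K (f (Sum.inr ij)) = algebraMap O K b * q₀ ij.1 ij.2 := by
        intro ij
        rw [hf, Algebra.smul_def]
        rfl
      rw [map_hMat]
      ext i j
      rcases i with i | i <;> rcases j with j | j <;>
      · simp only [hMat, fromBlocks_apply₁₁, fromBlocks_apply₁₂, fromBlocks_apply₂₁,
          fromBlocks_apply₂₂, Matrix.smul_apply, Matrix.sub_apply, Matrix.map_apply,
          Matrix.of_apply, map_mul, h1, h2, smul_eq_mul]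
        ring
    rw [hM]
    have h3 : (Matrix.diagonal fun _ => algebraMap O K b : Matrix (Fin N ⊕ Fin N) _ K) *ᵥ v =
        algebraMap O K b • v := by
      ext i
      rw [mulVec_diagonal, Pi.smul_apply, smul_eq_mul]
    rw [h3, mulVec_smul, dotProduct_smul, smul_dotProduct, smul_mulVec, dotProduct_smul]
    simp only [smul_eq_mul]
    ring

variable {t n p₀ q₀} {p q : Matrix (Fin N) (Fin N) O}

omit [IsDiscreteValuationRing O] [CharZero K] in
theorem HCls.det_ne (h : HCls t n p₀ q₀ p q)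
    (hd : (hMat (algebraMap O K t) (algebraMap O K n) p₀ q₀ +
      (hMat (algebraMap O K t) (algebraMap O K n) p₀ q₀)ᵀ).det ≠ 0) :
    (hMat t n p q + (hMat t n p q)ᵀ).det ≠ 0 := by
  obtain ⟨g, hg, _, h2⟩ := h
  have h3 := add_transpose_eq_of_forall _ _ _ h2
  rw [← map_add_transposeI] at h3
  have h4 := congrArg Matrix.det h3
  rw [Matrix.det_mul, Matrix.det_mul, Matrix.det_transpose, ← RingHom.mapMatrix_apply,
    ← RingHom.map_det] at h4
  intro h0
  rw [h0, map_zero] at h4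
  exact (mul_ne_zero (mul_ne_zero hg hd) hg) h4.symm

/-- The step of the reduction. -/
theorem HCls.enlarge {π : O} (hπ : Irreducible π) (h : HCls t n p₀ q₀ p q)
    {x : Fin N ⊕ Fin N → O} {k : Fin N} (hx : Bad π (hMat t n p q) x)
    (hk : ¬ π ^ 2 ∣ nrm t n x k) :
    ∃ p' q' : Matrix (Fin N) (Fin N) O, HCls t n p₀ q₀ p' q' ∧
      π ^ 4 * (hMat t n p' q' + (hMat t n p' q')ᵀ).det =
        nrm t n x k ^ 2 * (hMat t n p q + (hMat t n p q)ᵀ).det := by
  classical
  obtain ⟨g, hg, hgJ, hgq⟩ := h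
  have hπK : algebraMap O K π ≠ 0 := by
    rw [Ne, FaithfulSMul.algebraMap_eq_zero_iff]
    exact hπ.ne_zero
  have hnrm : nrm t n x k ≠ 0 := by
    intro h0
    apply hk
    rw [h0]
    exact dvd_zero _
  obtain ⟨γ, hγ⟩ : ∃ γ, γ = gammaM t n π K x k := ⟨_, rfl⟩
  have hdetγ := det_gammaM (K := K) t n π x k hπK
  rw [← hγ] at hdetγ
  have hγ0 : γ.det ≠ 0 := by
    intro h0
    rw [h0, mul_zero] at hdetγ
    exact hnrm ((FaithfulSMul.algebraMap_eq_zero_iff O K).mp hdetγ.symm)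
  have hγJ : ∀ v, γ *ᵥ omV (algebraMap O K t) (algebraMap O K n) v =
      omV (algebraMap O K t) (algebraMap O K n) (γ *ᵥ v) := by
    intro v
    rw [hγ]
    exact gammaM_omV t n π x k v
  obtain ⟨pt, qt, hpt⟩ := conj_hMat (algebraMap O K t) (algebraMap O K n) (p.map (algebraMap O K))
    (q.map (algebraMap O K)) γ hγJ
  rw [← map_hMat] at hpt
  obtain ⟨M, hM⟩ : ∃ M, M = hMat t n p q := ⟨_, rfl⟩
  rw [← hM] at hpt hgq hx
  -- integrality
  have hint : ∀ y : Fin N ⊕ Fin N → O, ∃ r : O, algebraMap O K r =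
      (algebraMap O K ∘ y) ⬝ᵥ hMat (algebraMap O K t) (algebraMap O K n) pt qt *ᵥ
        (algebraMap O K ∘ y) := by
    intro y
    rw [← hpt, ← dot_conj]
    let z : Fin N ⊕ Fin N → O := y (Sum.inl k) • x + y (Sum.inr k) • omV t n x
    let y₀ : Fin N ⊕ Fin N → O := fun i => y i -
      y (Sum.inl k) * (Sum.elim (Pi.single k 1) (fun _ => 0) i : O) -
      y (Sum.inr k) * (Sum.elim (fun _ => 0) (Pi.single k 1) i : O)
    have hz : Bad π M z := by
      rw [hM] at hx ⊢
      exact bad_comb hx _ _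
    have hsingle : ∀ i, (algebraMap O K) ((Pi.single k (1 : O) : Fin N → O) i) =
        (Pi.single k 1 : Fin N → K) i := by
      intro i
      simp only [Pi.single_apply]
      split_ifs <;> simp
    have hγy : γ *ᵥ (algebraMap O K ∘ y) =
        algebraMap O K ∘ y₀ + (algebraMap O K π)⁻¹ • (algebraMap O K ∘ z) := by
      ext i
      rw [hγ, gammaM_mulVec]
      rcases i with i | i
      · simp only [Function.comp_apply, Pi.add_apply, Pi.smul_apply, smul_eq_mul, y₀, z,
          Sum.elim_inl, map_sub, map_mul, map_add, map_zero, hsingle]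
        ring
      · simp only [Function.comp_apply, Pi.add_apply, Pi.smul_apply, smul_eq_mul, y₀, z,
          Sum.elim_inr, map_sub, map_mul, map_add, map_zero, hsingle]
        ring
    rw [hγy, dot_add_smul, dot_map, ← map_add_transposeI, dot_map, dot_map]
    have h1 : π ∣ y₀ ⬝ᵥ (M + Mᵀ) *ᵥ z := Finset.dvd_sum fun l _ => Dvd.dvd.mul_left (hz.1 l) _
    obtain ⟨β, hβ⟩ := h1
    obtain ⟨ζ, hζ⟩ := hz.2
    refine ⟨y₀ ⬝ᵥ M *ᵥ y₀ + β + ζ, ?_⟩
    rw [hβ, hζ]
    simp only [map_add, map_mul, map_pow]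
    field_simp
  obtain ⟨p', q', hpq⟩ := exists_integral_coeffs t n pt qt hint
  have hform : ∀ v, (γ *ᵥ v) ⬝ᵥ M.map (algebraMap O K) *ᵥ (γ *ᵥ v) =
      v ⬝ᵥ (hMat t n p' q').map (algebraMap O K) *ᵥ v := by
    intro v
    rw [dot_conj, hpt, hpq]
  refine ⟨p', q', ⟨g * γ, ?_, ?_, ?_⟩, ?_⟩
  · rw [Matrix.det_mul]
    exact mul_ne_zero hg hγ0
  · intro v
    rw [← mulVec_mulVec, hγJ, hgJ, mulVec_mulVec]
  · intro v
    rw [← mulVec_mulVec, hgq, hform]
  · have h3 := add_transpose_eq_of_forall _ _ _ hform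
    rw [← map_add_transposeI, ← map_add_transposeI] at h3
    have h4 := congrArg Matrix.det h3
    rw [Matrix.det_mul, Matrix.det_mul, Matrix.det_transpose, ← RingHom.mapMatrix_apply,
      ← RingHom.mapMatrix_apply, ← RingHom.map_det, ← RingHom.map_det] at h4
    apply FaithfulSMul.algebraMap_injective O K
    rw [map_mul, map_mul, map_pow, map_pow, h4, ← hdetγ, ← hM]
    ring

/-- **Existence of maximal lattices.** -/
theorem exists_radAniso {π : O} (hπ : Irreducible π) (hmax : MaxOrd t n)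
    (hd : (hMat (algebraMap O K t) (algebraMap O K n) p₀ q₀ +
      (hMat (algebraMap O K t) (algebraMap O K n) p₀ q₀)ᵀ).det ≠ 0) :
    ∃ p q : Matrix (Fin N) (Fin N) O, HCls t n p₀ q₀ p q ∧ RadAnisoI π (hMat t n p q) ∧
      (hMat t n p q + (hMat t n p q)ᵀ).det ≠ 0 := by
  let S : Set O := {d | ∃ p q : Matrix (Fin N) (Fin N) O, HCls t n p₀ q₀ p q ∧
    (hMat t n p q + (hMat t n p q)ᵀ).det = d}
  obtain ⟨pa, qa, ha⟩ := exists_hcls t n p₀ q₀
  obtain ⟨d, ⟨p, q, hpq, hdd⟩, hmin⟩ := WellFounded.has_min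
    (IsWellFounded.wf (r := DvdNotUnit (α := O))) S ⟨_, pa, qa, ha, rfl⟩
  refine ⟨p, q, hpq, ?_, hpq.det_ne hd⟩
  intro x hx1 hx2
  by_contra hcon
  push Not at hcon
  obtain ⟨i, hi⟩ := hcon
  obtain ⟨x', k, hx', hk⟩ := exists_nrm (t := t) (n := n) hπ hmax (M := hMat t n p q)
    (x := x) ⟨hx1, hx2⟩ hi
  obtain ⟨p', q', hcls, hdet⟩ := hpq.enlarge hπ hx' hk
  refine hmin _ ⟨p', q', hcls, rfl⟩ ⟨hcls.det_ne hd, ?_⟩
  have hnrm : nrm t n x' k ≠ 0 := by
    intro h0
    apply hk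
    rw [h0]
    exact dvd_zero _
  obtain ⟨w, hw⟩ : nrm t n x' k ∣ π := by
    obtain ⟨j, u, hu⟩ := IsDiscreteValuationRing.associated_pow_irreducible hnrm hπ
    have hj : j < 2 := by
      by_contra hj
      push Not at hj
      apply hk
      have h1 : π ^ 2 ∣ nrm t n x' k * u := by
        rw [hu]
        exact pow_dvd_pow π hj
      exact (Units.dvd_mul_right).mp h1
    have h1 : nrm t n x' k ∣ π ^ j := by
      rw [← hu]
      exact dvd_mul_right _ _
    refine h1.trans ?_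
    interval_cases j
    · rw [pow_zero]
      exact one_dvd _
    · rw [pow_one]
  refine ⟨w ^ 2 * π ^ 2, ?_, ?_⟩
  · intro hunit
    exact hπ.not_isUnit ((isUnit_pow_iff two_ne_zero).mp (isUnit_of_mul_isUnit_right hunit))
  · rw [← hdd]
    apply mul_left_cancel₀ (pow_ne_zero 2 hnrm)
    rw [← hdet]
    have h4 : π ^ 4 = (nrm t n x' k * w) ^ 2 * π ^ 2 := by
      rw [← hw]
      ring
    rw [h4]
    ring

end Pool.Agent.Lib.MP_6a3dac_ag
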