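import Pool.Agent.Lib.MP_6a3dac_ag.WeilFam
import Pool.Agent.Lib.MP_6a3dac_ag.QuadricModel

/-!
# Regular proper flat models of Weil restrictions of projective spaces
-/

set_option autoImplicit false

namespace Pool.Agent.Lib.MP_6a3dac_ag

open CategoryTheory Limits AlgebraicGeometry IsDedekindDomain MvPolynomial IsLocalRing

section Weil

variable {R K : Type} [CommRing R] [IsDedekindDomain R] [Field K] [Algebra R K]
  [IsFractionRing R K] (t n : K) (N : ℕ)

/-- Local coordinates at all primes. -/
theorem exists_local_weil (p : HeightOneSpectrum R) (hd : t ^ 2 - 4 * n ≠ 0) :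
    ∃ (r s : K) (t' n' : locRing K p), s ≠ 0 ∧ t = 2 * r + s * algebraMap (locRing K p) K t' ∧
      n = r ^ 2 + r * s * algebraMap (locRing K p) K t' + s ^ 2 * algebraMap (locRing K p) K n' ∧
      MaxOrd t' n' := by
  have : IsFractionRing (locRing K p) K := inferInstance
  obtain ⟨d, hd'⟩ := IsLocalization.exist_integer_multiples_of_finite
    (nonZeroDivisors (locRing K p)) ![t, n]
  obtain ⟨t0, ht0⟩ := hd' 0
  obtain ⟨n0, hn0⟩ := hd' 1
  change algebraMap (locRing K p) K t0 = (d : locRing K p) • t at ht0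
  change algebraMap (locRing K p) K n0 = (d : locRing K p) • n at hn0
  rw [Algebra.smul_def] at ht0 hn0
  have hdK : algebraMap (locRing K p) K d ≠ 0 := by
    rw [Ne, FaithfulSMul.algebraMap_eq_zero_iff]
    exact nonZeroDivisors.ne_zero d.2
  have hdisc : t0 ^ 2 - 4 * (d * n0) ≠ 0 := by
    intro h0
    have h1 := congrArg (algebraMap (locRing K p) K) h0
    rw [map_sub, map_pow, map_mul, map_mul, map_ofNat, ht0, hn0, map_zero] at h1
    have h2 : (algebraMap (locRing K p) K d) ^ 2 * (t ^ 2 - 4 * n) = 0 := by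
      rw [← h1]
      ring
    exact (mul_ne_zero (pow_ne_zero 2 hdK) hd) h2
  obtain ⟨r, s, t', n', hs, h1, h2, h3⟩ := exists_maxOrd t0 (d * n0) hdisc
  have h1' := congrArg (algebraMap (locRing K p) K) h1
  have h2' := congrArg (algebraMap (locRing K p) K) h2
  simp only [map_add, map_mul, map_pow, map_ofNat] at h1' h2'
  rw [ht0] at h1'
  rw [hn0] at h2'
  have hs' : algebraMap (locRing K p) K s ≠ 0 := by
    rwa [Ne, FaithfulSMul.algebraMap_eq_zero_iff]
  refine ⟨algebraMap (locRing K p) K r / algebraMap (locRing K p) K d,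
    algebraMap (locRing K p) K s / algebraMap (locRing K p) K d, t', n',
    div_ne_zero hs' hdK, ?_, ?_, h3⟩
  · field_simp
    linear_combination h1'
  · field_simp
    linear_combination h2'

/-- At almost all primes the given coordinates work. -/
theorem exists_good_weil (hd : t ^ 2 - 4 * n ≠ 0) :
    ∃ D : R, D ≠ 0 ∧ ∀ p : HeightOneSpectrum R, D ∉ p.asIdeal →
      ∃ t' n' : locRing K p, t = algebraMap (locRing K p) K t' ∧
        n = algebraMap (locRing K p) K n' ∧ MaxOrd t' n' := by
  obtain ⟨d, hd'⟩ := IsLocalization.exist_integer_multiples_of_finite (nonZeroDivisors R) ![t, n]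
  obtain ⟨t0, ht0⟩ := hd' 0
  obtain ⟨n0, hn0⟩ := hd' 1
  change algebraMap R K t0 = (d : R) • t at ht0
  change algebraMap R K n0 = (d : R) • n at hn0
  rw [Algebra.smul_def] at ht0 hn0
  have hdK : algebraMap R K d ≠ 0 := by
    rw [Ne, FaithfulSMul.algebraMap_eq_zero_iff]
    exact nonZeroDivisors.ne_zero d.2
  have hdisc : t0 ^ 2 - 4 * (d * n0) ≠ 0 := by
    intro h0
    have h1 := congrArg (algebraMap R K) h0
    rw [map_sub, map_pow, map_mul, map_mul, map_ofNat, ht0, hn0, map_zero] at h1
    have h2 : (algebraMap R K d) ^ 2 * (t ^ 2 - 4 * n) = 0 := by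
      rw [← h1]
      ring
    exact (mul_ne_zero (pow_ne_zero 2 hdK) hd) h2
  refine ⟨d * (t0 ^ 2 - 4 * (d * n0)), mul_ne_zero (nonZeroDivisors.ne_zero d.2) hdisc, ?_⟩
  intro p hp
  have hp1 : (d : R) ∉ p.asIdeal := fun h => hp (p.asIdeal.mul_mem_right _ h)
  have hp2 : t0 ^ 2 - 4 * (d * n0) ∉ p.asIdeal := fun h => hp (p.asIdeal.mul_mem_left _ h)
  obtain ⟨u, hu⟩ := IsLocalization.map_units (locRing K p) (⟨_, hp1⟩ : p.asIdeal.primeCompl)
  change (u : locRing K p) = algebraMap R (locRing K p) d at hu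
  have hu2 : algebraMap R (locRing K p) d * ((u⁻¹ : (locRing K p)ˣ) : locRing K p) = 1 := by
    rw [← hu, Units.mul_inv]
  have hu3 : algebraMap R K d * algebraMap (locRing K p) K ((u⁻¹ : (locRing K p)ˣ) : locRing K p) =
      1 := by
    rw [IsScalarTower.algebraMap_apply R (locRing K p) K, ← map_mul, hu2, map_one]
  obtain ⟨v, hv⟩ : ∃ v : locRing K p, v = ((u⁻¹ : (locRing K p)ˣ) : locRing K p) := ⟨_, rfl⟩
  rw [← hv] at hu2 hu3
  refine ⟨algebraMap R (locRing K p) t0 * v, algebraMap R (locRing K p) n0 * v, ?_, ?_, ?_⟩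
  · rw [map_mul, ← IsScalarTower.algebraMap_apply, ht0]
    linear_combination (-t) * hu3
  · rw [map_mul, ← IsScalarTower.algebraMap_apply, hn0]
    linear_combination (-n) * hu3
  · apply maxOrd_of_isUnit
    have h1 : (algebraMap R (locRing K p) t0 * v) ^ 2 - 4 * (algebraMap R (locRing K p) n0 * v) =
        v ^ 2 * algebraMap R (locRing K p) (t0 ^ 2 - 4 * (d * n0)) := by
      simp only [map_sub, map_mul, map_pow, map_ofNat]
      linear_combination 4 * algebraMap R (locRing K p) n0 * v * hu2
    rw [h1]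
    have hvu : IsUnit v := by rw [hv]; exact Units.isUnit _
    exact (hvu.pow 2).mul (IsLocalization.map_units (locRing K p)
      (⟨_, hp2⟩ : p.asIdeal.primeCompl))

/-- **Weil restrictions of projective spaces along quadratic extensions.** -/
theorem exists_model_weil (hR : ¬ IsField R) (hfin : ∀ p : HeightOneSpectrum R,
      Finite (R ⧸ p.asIdeal)) (hd : t ^ 2 - 4 * n ≠ 0) :
    ∃ (Y : Scheme.{0}) (g : Y ⟶ Spec (CommRingCat.of R)),
      IsProper g ∧ Flat g ∧ (∀ y : Y, IsRegularLocalRing (Y.presheaf.stalk y)) ∧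
      ∃ e : pullback g (Spec.map (CommRingCat.ofHom (algebraMap R K))) ≅ Proj (weilGr t n N),
        e.hom ≫ projTo K (weilGr t n N) =
          pullback.snd g (Spec.map (CommRingCat.ofHom (algebraMap R K))) := by
  classical
  obtain ⟨D, hD, hDreg⟩ := exists_good_weil (R := R) t n hd
  have hex : ∀ p : HeightOneSpectrum R, ∃ (r s : K) (t' n' : locRing K p), s ≠ 0 ∧
      t = 2 * r + s * algebraMap (locRing K p) K t' ∧
      n = r ^ 2 + r * s * algebraMap (locRing K p) K t' + s ^ 2 * algebraMap (locRing K p) K n' ∧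
      MaxOrd t' n' ∧ (D ∉ p.asIdeal → r = 0 ∧ s = 1) := by
    intro p
    by_cases hp : D ∈ p.asIdeal
    · obtain ⟨r, s, t', n', h1, h2, h3, h4⟩ := exists_local_weil t n p hd
      exact ⟨r, s, t', n', h1, h2, h3, h4, fun h => absurd hp h⟩
    · obtain ⟨t', n', h1, h2, h3⟩ := hDreg p hp
      refine ⟨0, 1, t', n', one_ne_zero, ?_, ?_, h3, fun _ => ⟨rfl, rfl⟩⟩
      · rw [h1]; ring
      · rw [h2]; ring
  choose r s t' n' hs h2 h3 h4 h5 using hex
  let F : HeightOneSpectrum R → Set (weilAlg t n N) :=
    fun p => Set.range (genFam t n (N := N) (r p) (s p))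
  have hL : LocalGens (R := R) (weilGr t n N) F (Set.range (genFam t n (N := N) 0 1)) :=
    { finite := fun p => Set.finite_range _
      finite₀ := Set.finite_range _
      ae := by
        refine (finite_mem_prime hD).subset ?_
        intro p hp
        by_contra hcon
        apply hp
        obtain ⟨e1, e2⟩ := h5 p hcon
        change Set.range (genFam t n (N := N) (r p) (s p)) = _
        rw [e1, e2]
      homog := by
        rintro p _ ⟨x, rfl⟩
        exact ⟨1, one_pos, genFam_mem t n _ _ x⟩
      full := fun p a => full_genFam t n _ _ (hs p) a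
      full₀ := fun a => full_genFam t n _ _ one_ne_zero a }
  refine exists_model (weilGr t n N) hL hR fun p => ?_
  have := hfin p
  have := finite_residue_locRing (K := K) p
  have hreg := regAt_weil (R := R) (O := locRing K p) (K := K) (weilGr t n N) p.asIdeal
    (psiFam t n (N := N) (locRing K p) (r p) (s p)) (psiFam_C t n _ _)
    (fun x => by rw [psiFam_X]; exact genFam_mem t n _ _ x)
    (psiFam_eq_zero_iff (hs p) (h2 p) (h3 p)) (h4 p) (by
      intro h0
      apply hd
      have h1 := congrArg (algebraMap (locRing K p) K) h0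
      rw [map_sub, map_pow, map_mul, map_ofNat, map_zero] at h1
      rw [h2 p, h3 p]
      linear_combination (s p) ^ 2 * h1)
  have hset : (Set.range fun x => psiFam t n (N := N) (locRing K p) (r p) (s p) (X x)) = F p := by
    change _ = Set.range (genFam t n (N := N) (r p) (s p))
    congr 1
    ext x : 1
    exact psiFam_X t n _ _ x
  change RegAt _ (locSub p.asIdeal (Algebra.adjoin R (F p)))
  rw [← hset]
  exact hreg

end Weil

end Pool.Agent.Lib.MP_6a3dac_ag
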