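import Pool.Agent.Lib.MP_6a3dac_ag.HermFam
import Pool.Agent.Lib.MP_6a3dac_ag.WeilModel

/-!
# Regular proper flat models of Hermitian quadrics
-/

set_option autoImplicit false

namespace Pool.Agent.Lib.MP_6a3dac_ag

open CategoryTheory Limits AlgebraicGeometry IsDedekindDomain MvPolynomial IsLocalRing Matrix

section Good

variable {R K : Type} [CommRing R] [IsDedekindDomain R] [Field K] [Algebra R K]
  [IsFractionRing R K]

theorem exists_integral_ae (x : K) : ∃ D : R, D ≠ 0 ∧ ∀ p : HeightOneSpectrum R,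
    D ∉ p.asIdeal → ∃ y : locRing K p, algebraMap (locRing K p) K y = x := by
  obtain ⟨a, b, hb, rfl⟩ := IsFractionRing.div_surjective (A := R) x
  refine ⟨b, nonZeroDivisors.ne_zero hb, fun p hp => ?_⟩
  obtain ⟨u, hu⟩ := IsLocalization.map_units (locRing K p) (⟨b, hp⟩ : p.asIdeal.primeCompl)
  change (u : locRing K p) = algebraMap R (locRing K p) b at hu
  refine ⟨algebraMap R (locRing K p) a * ((u⁻¹ : (locRing K p)ˣ) : locRing K p), ?_⟩
  have hbK : algebraMap R K b ≠ 0 := by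
    rw [Ne, FaithfulSMul.algebraMap_eq_zero_iff]
    exact nonZeroDivisors.ne_zero hb
  rw [eq_div_iff hbK, IsScalarTower.algebraMap_apply R (locRing K p) K b, ← map_mul, ← hu,
    mul_assoc, Units.inv_mul, mul_one, ← IsScalarTower.algebraMap_apply]

theorem exists_integral_ae_family {ι : Type} [Fintype ι] (x : ι → K) :
    ∃ D : R, D ≠ 0 ∧ ∀ p : HeightOneSpectrum R,
      D ∉ p.asIdeal → ∀ i, ∃ y : locRing K p, algebraMap (locRing K p) K y = x i := by
  choose D hD h using fun i => exists_integral_ae (R := R) (x i)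
  refine ⟨∏ i, D i, Finset.prod_ne_zero_iff.mpr fun i _ => hD i, fun p hp i => h i p fun hi => ?_⟩
  exact hp (Ideal.mem_of_dvd _ (Finset.dvd_prod_of_mem D (Finset.mem_univ i)) hi)

theorem exists_unit_ae {x : K} (hx : x ≠ 0) : ∃ D : R, D ≠ 0 ∧ ∀ p : HeightOneSpectrum R,
    D ∉ p.asIdeal → ∀ y : locRing K p, algebraMap (locRing K p) K y = x → IsUnit y := by
  obtain ⟨a, b, hb, rfl⟩ := IsFractionRing.div_surjective (A := R) x
  have ha : a ≠ 0 := by
    rintro rfl
    apply hx
    rw [map_zero, zero_div]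
  have hbK : algebraMap R K b ≠ 0 := by
    rw [Ne, FaithfulSMul.algebraMap_eq_zero_iff]
    exact nonZeroDivisors.ne_zero hb
  refine ⟨a, ha, fun p hp y hy => ?_⟩
  have hu := IsLocalization.map_units (locRing K p) (⟨a, hp⟩ : p.asIdeal.primeCompl)
  change IsUnit (algebraMap R (locRing K p) a) at hu
  have h1 : y * algebraMap R (locRing K p) b = algebraMap R (locRing K p) a := by
    apply IsFractionRing.injective (locRing K p) K
    rw [map_mul, hy, ← IsScalarTower.algebraMap_apply, ← IsScalarTower.algebraMap_apply,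
      div_mul_cancel₀ _ hbK]
  rw [← h1] at hu
  exact isUnit_of_mul_isUnit_left hu

theorem radAnisoI_of_isUnit {O J : Type} [CommRing O] [Fintype J] [DecidableEq J] (π : O)
    {M : Matrix J J O} (h : IsUnit (M + Mᵀ).det) : RadAnisoI π M := by
  intro x hx _ i
  have h1 : (M + Mᵀ).det * x i = ((M + Mᵀ).adjugate *ᵥ ((M + Mᵀ) *ᵥ x)) i := by
    rw [mulVec_mulVec, adjugate_mul, smul_mulVec, one_mulVec]
    rfl
  obtain ⟨u, hu⟩ := h
  have h2 : π ∣ (M + Mᵀ).det * x i := by
    rw [h1]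
    exact Finset.dvd_sum fun j _ => Dvd.dvd.mul_left (hx j) _
  rw [← hu] at h2
  exact (Units.dvd_mul_left).mp h2

end Good

section Local

variable {R K : Type} [CommRing R] [IsDedekindDomain R] [Field K] [Algebra R K]
  [IsFractionRing R K] {t n : K} {N : ℕ} (P Q : Matrix (Fin N) (Fin N) K)

/-- The properties of a generating set which we need at a prime. -/
structure GoodGens (t n : K) {N : ℕ} (P Q : Matrix (Fin N) (Fin N) K) (p : HeightOneSpectrum R)
    (S : Set (HermRing t n P Q)) : Prop where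
  finite : S.Finite
  homog : ∀ x ∈ S, ∃ i, 0 < i ∧ x ∈ hermGr t n P Q i
  full : ∀ a, ∃ r : R, r ≠ 0 ∧ r • a ∈ Algebra.adjoin R S
  reg : RegAt (hermGr t n P Q) (locSub p.asIdeal (Algebra.adjoin R S))

variable {P Q}

theorem goodGens_of_iso (p : HeightOneSpectrum R) [Finite (R ⧸ p.asIdeal)]
    {t' n' : locRing K p} {Φ Φi : CoordRing K N →ₐ[K] CoordRing K N}
    (hΦ : HermIso t n (algebraMap (locRing K p) K t') (algebraMap (locRing K p) K n') Φ Φi)
    {P' Q' : Matrix (Fin N) (Fin N) (locRing K p)}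
    (hΦH : Φ (hPoly (algebraMap (locRing K p) K t') (algebraMap (locRing K p) K n')
      (P'.map (algebraMap (locRing K p) K)) (Q'.map (algebraMap (locRing K p) K))) =
        hPoly t n P Q) {π : locRing K p} (hπ : Irreducible π) (hmax : MaxOrd t' n')
    (hd : t' ^ 2 - 4 * n' ≠ 0) (hani : RadAnisoI π (hMat t' n' P' Q'))
    (hdet : (hMat t' n' P' Q' + (hMat t' n' P' Q')ᵀ).det ≠ 0) :
    GoodGens t n P Q p (Set.range fun x => psiH hΦ P Q (X x)) where
  finite := Set.finite_range _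
  homog := by
    rintro _ ⟨x, rfl⟩
    exact ⟨1, one_pos, psiH_X_mem hΦ P Q x⟩
  full := full_psiH hΦ P Q
  reg := by
    have := finite_residue_locRing (K := K) p
    exact regAt_herm (R := R) (O := locRing K p) (K := K) (hermGr t n P Q) p.asIdeal
      (psiH hΦ P Q) (psiH_C hΦ P Q) (psiH_X_mem hΦ P Q)
      (fun F hF => psiH_eq_zero hΦ P Q hF)
      (psiH_hLin hΦ P Q P' Q' hΦH) (fun F hF => psiS_mem_of_psiH_eq_zero hΦ P Q P' Q' hΦH hF)
      hπ hmax hd hani hdet

/-- The standard generators. -/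
noncomputable def stdGens (t n : K) (P Q : Matrix (Fin N) (Fin N) K) : Set (HermRing t n P Q) :=
  Set.range fun x => hermMk t n P Q (genFam t n 0 1 x)

theorem exists_good_herm (hR : ∀ p : HeightOneSpectrum R, Finite (R ⧸ p.asIdeal))
    (hd : t ^ 2 - 4 * n ≠ 0) (hdet : (hMat t n P Q + (hMat t n P Q)ᵀ).det ≠ 0) :
    ∃ D : R, D ≠ 0 ∧ ∀ p : HeightOneSpectrum R, D ∉ p.asIdeal →
      GoodGens t n P Q p (stdGens t n P Q) := by
  obtain ⟨D₁, hD₁, h₁⟩ := exists_integral_ae_family (R := R) ![t, n]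
  obtain ⟨D₂, hD₂, h₂⟩ := exists_integral_ae_family (R := R)
    (fun x : Fin N × Fin N => P x.1 x.2)
  obtain ⟨D₃, hD₃, h₃⟩ := exists_integral_ae_family (R := R)
    (fun x : Fin N × Fin N => Q x.1 x.2)
  obtain ⟨D₄, hD₄, h₄⟩ := exists_unit_ae (R := R) hd
  obtain ⟨D₅, hD₅, h₅⟩ := exists_unit_ae (R := R) hdet
  refine ⟨D₁ * D₂ * D₃ * D₄ * D₅, by simp [hD₁, hD₂, hD₃, hD₄, hD₅], fun p hp => ?_⟩
  have g5 : D₅ ∉ p.asIdeal := fun h => hp (p.asIdeal.mul_mem_left _ h)
  have g4 : D₄ ∉ p.asIdeal := fun h => hp (p.asIdeal.mul_mem_right _ (p.asIdeal.mul_mem_left _ h))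
  have g3 : D₃ ∉ p.asIdeal := fun h => hp (p.asIdeal.mul_mem_right _
    (p.asIdeal.mul_mem_right _ (p.asIdeal.mul_mem_left _ h)))
  have g2 : D₂ ∉ p.asIdeal := fun h => hp (p.asIdeal.mul_mem_right _
    (p.asIdeal.mul_mem_right _ (p.asIdeal.mul_mem_right _ (p.asIdeal.mul_mem_left _ h))))
  have g1 : D₁ ∉ p.asIdeal := fun h => hp (p.asIdeal.mul_mem_right _
    (p.asIdeal.mul_mem_right _ (p.asIdeal.mul_mem_right _ (p.asIdeal.mul_mem_right _ h))))
  obtain ⟨t', ht'⟩ := h₁ p g1 0
  obtain ⟨n', hn'⟩ := h₁ p g1 1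
  change algebraMap (locRing K p) K t' = t at ht'
  change algebraMap (locRing K p) K n' = n at hn'
  choose P₁ hP₁ using h₂ p g2
  choose Q₁ hQ₁ using h₃ p g3
  obtain ⟨P', hP'⟩ : ∃ P' : Matrix (Fin N) (Fin N) (locRing K p),
      P'.map (algebraMap (locRing K p) K) = P :=
    ⟨Matrix.of fun i j => P₁ (i, j), by ext i j; exact hP₁ (i, j)⟩
  obtain ⟨Q', hQ'⟩ : ∃ Q' : Matrix (Fin N) (Fin N) (locRing K p),
      Q'.map (algebraMap (locRing K p) K) = Q :=
    ⟨Matrix.of fun i j => Q₁ (i, j), by ext i j; exact hQ₁ (i, j)⟩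
  have hdisc : IsUnit (t' ^ 2 - 4 * n') := h₄ p g4 _ (by
    rw [map_sub, map_pow, map_mul, map_ofNat, ht', hn'])
  have hdet' : IsUnit (hMat t' n' P' Q' + (hMat t' n' P' Q')ᵀ).det := h₅ p g5 _ (by
    rw [RingHom.map_det, RingHom.mapMatrix_apply, map_add_transposeI, map_hMat, ht', hn', hP',
      hQ'])
  have hΦ : HermIso (N := N) t n (algebraMap (locRing K p) K t') (algebraMap (locRing K p) K n')
      (AlgHom.id K _) (AlgHom.id K _) := by
    rw [ht', hn']
    exact hermIso_id t n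
  obtain ⟨π, hπ⟩ := IsDiscreteValuationRing.exists_irreducible (locRing K p)
  have := hR p
  have h6 := goodGens_of_iso (R := R) (P := P) (Q := Q) p hΦ (P' := P') (Q' := Q') (by
    rw [AlgHom.id_apply, ht', hn', hP', hQ']) hπ (maxOrd_of_isUnit hdisc) hdisc.ne_zero
    (radAnisoI_of_isUnit π hdet') hdet'.ne_zero
  have h7 : stdGens t n P Q = Set.range fun x => psiH hΦ P Q (X x) := by
    rw [stdGens]
    congr 1
    ext x : 1
    rw [psiH_apply]
    congr 1
    apply Subtype.ext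
    rw [coe_psiH₀, AlgHom.id_apply]
    rcases x with ⟨k, l⟩ | ⟨k, l⟩
    · rw [coe_genFam_inl, psiS_inl, ht', hn', C_0, zero_mul, add_zero]
    · rw [coe_genFam_inr, psiS_inr, C_1, one_mul]
  rw [h7]
  exact h6

theorem exists_local_herm [CharZero K] (p : HeightOneSpectrum R) [Finite (R ⧸ p.asIdeal)]
    (hd : t ^ 2 - 4 * n ≠ 0) (hdet : (hMat t n P Q + (hMat t n P Q)ᵀ).det ≠ 0) :
    ∃ S, GoodGens t n P Q p S := by
  obtain ⟨r, s, t', n', hs, ht, hn, hmax⟩ := exists_local_weil (R := R) t n p hd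
  obtain ⟨π, hπ⟩ := IsDiscreteValuationRing.exists_irreducible (locRing K p)
  have hdet₀ := det_subOm_ne hs ht hn P Q hdet
  obtain ⟨P', Q', ⟨g, hg, hgJ, hgq⟩, hani, hdet'⟩ := exists_radAniso (t := t') (n := n') hπ hmax
    hdet₀
  have hgu : IsUnit g.det := isUnit_iff_ne_zero.mpr hg
  have hg1 : g⁻¹ * g = 1 := Matrix.nonsing_inv_mul g hgu
  have hg2 : g * g⁻¹ = 1 := Matrix.mul_nonsing_inv g hgu
  have hi₁ := (hermIso_substM hg2 hg1 hgJ).symm
  have hi₂ := (hermIso_subOm (N := N) hs ht hn).trans hi₁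
  have hinf : Infinite K := inferInstance
  have hpoly : hPoly (algebraMap (locRing K p) K t') (algebraMap (locRing K p) K n')
      (P'.map (algebraMap (locRing K p) K)) (Q'.map (algebraMap (locRing K p) K)) =
      substM g (hPoly (algebraMap (locRing K p) K t') (algebraMap (locRing K p) K n') P
        (s⁻¹ • (Q - r • P))) := by
    apply MvPolynomial.funext
    intro v
    have key : ∀ M : Matrix (Fin N ⊕ Fin N) (Fin N ⊕ Fin N) K,
        eval v ((X : Fin N ⊕ Fin N → CoordRing K N) ⬝ᵥ M.map C *ᵥ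
          (X : Fin N ⊕ Fin N → CoordRing K N)) = v ⬝ᵥ M *ᵥ v := by
      intro M
      simp only [dotProduct, mulVec, map_sum, map_mul, eval_X, Matrix.map_apply, eval_C]
    rw [hPoly_eq, hPoly_eq, genV, substM_quad, key, key, ← dot_conj, hgq, map_hMat]
  have hfin := goodGens_of_iso (R := R) (P := P) (Q := Q) p hi₂ (P' := P') (Q' := Q') (by
    rw [AlgHom.comp_apply, hpoly, substM_comp, hg2, substM_one, subOm_hPoly ht hn, smul_smul,
      mul_inv_cancel₀ hs, one_smul, add_sub_cancel]) hπ hmax (by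
    intro h0
    apply hd
    have h1 := congrArg (algebraMap (locRing K p) K) h0
    rw [map_sub, map_pow, map_mul, map_ofNat, map_zero] at h1
    rw [ht, hn]
    linear_combination s ^ 2 * h1) hani hdet'
  exact ⟨_, hfin⟩

/-- **Hermitian quadrics.** -/
theorem exists_model_herm [CharZero K] (hR : ¬ IsField R)
    (hfin : ∀ p : HeightOneSpectrum R, Finite (R ⧸ p.asIdeal)) (hd : t ^ 2 - 4 * n ≠ 0)
    (hdet : (hMat t n P Q + (hMat t n P Q)ᵀ).det ≠ 0) :
    ∃ (Y : Scheme.{0}) (g : Y ⟶ Spec (CommRingCat.of R)),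
      IsProper g ∧ Flat g ∧ (∀ y : Y, IsRegularLocalRing (Y.presheaf.stalk y)) ∧
      ∃ e : pullback g (Spec.map (CommRingCat.ofHom (algebraMap R K))) ≅ Proj (hermGr t n P Q),
        e.hom ≫ projTo K (hermGr t n P Q) =
          pullback.snd g (Spec.map (CommRingCat.ofHom (algebraMap R K))) := by
  classical
  obtain ⟨D, hD, hDreg⟩ := exists_good_herm (R := R) hfin hd hdet
  have hex : ∀ p : HeightOneSpectrum R, ∃ S, GoodGens t n P Q p S ∧
      (D ∉ p.asIdeal → S = stdGens t n P Q) := by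
    intro p
    by_cases hp : D ∈ p.asIdeal
    · have := hfin p
      obtain ⟨S, hS⟩ := exists_local_herm (R := R) p hd hdet
      exact ⟨S, hS, fun h => absurd hp h⟩
    · exact ⟨_, hDreg p hp, fun _ => rfl⟩
  choose F hF hF₀ using hex
  have hstd : ∀ a : HermRing t n P Q, ∃ r : R, r ≠ 0 ∧
      r • a ∈ Algebra.adjoin R (stdGens t n P Q) := by
    intro a
    have h1 := full_quot (R := R) P Q (full_genFam (R := R) t n 0 1 one_ne_zero) a
    rw [← Set.range_comp] at h1
    exact h1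
  have hL : LocalGens (R := R) (hermGr t n P Q) F (stdGens t n P Q) :=
    { finite := fun p => (hF p).finite
      finite₀ := Set.finite_range _
      ae := by
        refine (finite_mem_prime hD).subset ?_
        intro p hp
        by_contra hcon
        exact hp (hF₀ p hcon)
      homog := fun p => (hF p).homog
      full := fun p => (hF p).full
      full₀ := hstd }
  have := nontrivial_hermRing t n P Q
  exact exists_model (hermGr t n P Q) hL hR fun p => (hF p).reg

end Local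

end Pool.Agent.Lib.MP_6a3dac_ag
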