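import Pool.Agent.Lib.MP_6a3dac_ag.HermLattice

/-!
# Enlarging a lattice
-/

set_option autoImplicit false

namespace Pool.Agent.Lib.MP_6a3dac_ag

open Matrix IsLocalRing

section Closure

variable {O : Type} [CommRing O] {t n : O} {N : ℕ} {p q : Matrix (Fin N) (Fin N) O}

theorem dot_add_smul {S : Type} [CommRing S] {J : Type} [Fintype J] (M : Matrix J J S)
    (v w : J → S) (c : S) : (v + c • w) ⬝ᵥ M *ᵥ (v + c • w) =
      v ⬝ᵥ M *ᵥ v + c * (v ⬝ᵥ (M + Mᵀ) *ᵥ w) + c ^ 2 * (w ⬝ᵥ M *ᵥ w) := by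
  rw [add_mulVec, dotProduct_add, mulVec_transpose, dotProduct_comm v (w ᵥ* M),
    ← dotProduct_mulVec, mulVec_add, add_dotProduct, dotProduct_add, dotProduct_add, mulVec_smul]
  simp only [dotProduct_smul, smul_dotProduct, smul_eq_mul]
  ring

theorem omV_omV {S : Type} [CommRing S] (t n : S) (v : Fin N ⊕ Fin N → S) :
    omV t n (omV t n v) = t • omV t n v - n • v := by
  ext a
  rcases a with a | a
  · simp only [omV, Sum.elim_inl, Sum.elim_inr, Pi.sub_apply, Pi.smul_apply, smul_eq_mul]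
    ring
  · simp only [omV, Sum.elim_inl, Sum.elim_inr, Pi.sub_apply, Pi.smul_apply, smul_eq_mul]
    ring

/-- The conditions on a vector `x` for the lattice to be enlarged by `x / π`. -/
def Bad (π : O) (M : Matrix (Fin N ⊕ Fin N) (Fin N ⊕ Fin N) O) (x : Fin N ⊕ Fin N → O) : Prop :=
  (∀ i, π ∣ ((M + Mᵀ) *ᵥ x) i) ∧ π ^ 2 ∣ x ⬝ᵥ M *ᵥ x

theorem bad_omV {π : O} {x : Fin N ⊕ Fin N → O} (h : Bad π (hMat t n p q) x) :
    Bad π (hMat t n p q) (omV t n x) := by
  have hl : ∀ k, π ∣ ((hMat t n p q + (hMat t n p q)ᵀ) *ᵥ omV t n x) (Sum.inl k) := by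
    intro k
    have h1 := grad_inr t n p q x k
    have h2 : ((hMat t n p q + (hMat t n p q)ᵀ) *ᵥ omV t n x) (Sum.inl k) =
        t * ((hMat t n p q + (hMat t n p q)ᵀ) *ᵥ x) (Sum.inl k) -
          ((hMat t n p q + (hMat t n p q)ᵀ) *ᵥ x) (Sum.inr k) := by
      rw [h1]; ring
    rw [h2]
    exact dvd_sub (Dvd.dvd.mul_left (h.1 _) _) (h.1 _)
  constructor
  · rintro (k | k)
    · exact hl k
    · rw [grad_inr, omV_omV, mulVec_sub, mulVec_smul, mulVec_smul]
      simp only [Pi.sub_apply, Pi.smul_apply, smul_eq_mul]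
      exact dvd_sub (Dvd.dvd.mul_left (hl k) _)
        (dvd_sub (Dvd.dvd.mul_left (hl k) _) (Dvd.dvd.mul_left (h.1 _) _))
  · rw [dot_omV_omV]
    exact Dvd.dvd.mul_left h.2 _

theorem bad_comb {π : O} {x : Fin N ⊕ Fin N → O} (h : Bad π (hMat t n p q) x) (a b : O) :
    Bad π (hMat t n p q) (a • x + b • omV t n x) := by
  constructor
  · intro i
    rw [mulVec_add, mulVec_smul, mulVec_smul]
    exact dvd_add (Dvd.dvd.mul_left (h.1 _) _) (Dvd.dvd.mul_left ((bad_omV h).1 _) _)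
  · rw [dot_omV_norm]
    exact Dvd.dvd.mul_left h.2 _

theorem bad_add_smul {π : O} {M : Matrix (Fin N ⊕ Fin N) (Fin N ⊕ Fin N) O}
    {x : Fin N ⊕ Fin N → O} (h : Bad π M x) (y : Fin N ⊕ Fin N → O) : Bad π M (x + π • y) := by
  constructor
  · intro i
    rw [mulVec_add, mulVec_smul]
    exact dvd_add (h.1 _) (dvd_mul_right _ _)
  · rw [dot_add_smul]
    refine dvd_add (dvd_add h.2 ?_) (dvd_mul_right _ _)
    rw [pow_two]
    refine mul_dvd_mul_left _ ?_
    have h1 : x ⬝ᵥ (M + Mᵀ) *ᵥ y = y ⬝ᵥ (M + Mᵀ) *ᵥ x := by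
      rw [dotProduct_mulVec, ← mulVec_transpose, transpose_add, transpose_transpose, add_comm,
        dotProduct_comm]
    rw [h1]
    exact Finset.dvd_sum fun l _ => Dvd.dvd.mul_left (h.1 l) _

end Closure

section Norm

variable {O : Type} [CommRing O] [IsDomain O] [IsDiscreteValuationRing O] {t n π : O} {N : ℕ}
  {M : Matrix (Fin N ⊕ Fin N) (Fin N ⊕ Fin N) O}

/-- The norm of the `k`-th component. -/
def nrm (t n : O) (x : Fin N ⊕ Fin N → O) (k : Fin N) : O :=
  x (Sum.inl k) ^ 2 + t * x (Sum.inl k) * x (Sum.inr k) + n * x (Sum.inr k) ^ 2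

/-- A bad vector can be replaced by one with a component of small norm. -/
theorem exists_nrm (hπ : Irreducible π) (hmax : MaxOrd t n) {x : Fin N ⊕ Fin N → O}
    (hx : Bad π M x) {i : Fin N ⊕ Fin N} (hi : ¬ π ∣ x i) :
    ∃ (x' : Fin N ⊕ Fin N → O) (k : Fin N), Bad π M x' ∧ ¬ π ^ 2 ∣ nrm t n x' k := by
  classical
  obtain ⟨k, hk⟩ : ∃ k : Fin N, ¬ (π ∣ x (Sum.inl k) ∧ π ∣ x (Sum.inr k)) := by
    rcases i with k | k
    · exact ⟨k, fun h => hi h.1⟩
    · exact ⟨k, fun h => hi h.2⟩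
  by_cases hn : π ^ 2 ∣ nrm t n x k
  · -- the split case
    have hpr := hπ.prime
    have hb : ¬ π ∣ x (Sum.inr k) := by
      intro hb
      apply hk
      refine ⟨?_, hb⟩
      have h1 : π ∣ x (Sum.inl k) ^ 2 := by
        have h2 : x (Sum.inl k) ^ 2 = nrm t n x k - x (Sum.inr k) *
            (t * x (Sum.inl k) + n * x (Sum.inr k)) := by
          rw [nrm]; ring
        rw [h2]
        exact dvd_sub ((dvd_pow_self π two_ne_zero).trans hn) (Dvd.dvd.mul_right hb _)
      exact hpr.dvd_of_dvd_pow h1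
    have hbu : IsUnit (x (Sum.inr k)) := by
      rw [← IsLocalRing.notMem_maximalIdeal, hπ.maximalIdeal_eq, Ideal.mem_span_singleton]
      exact hb
    obtain ⟨b, hb'⟩ := hbu
    have hbb : (b : O) * ((b⁻¹ : Oˣ) : O) = 1 := Units.mul_inv b
    obtain ⟨r, hr⟩ : ∃ r, r = -(x (Sum.inl k) * ((b⁻¹ : Oˣ) : O)) := ⟨_, rfl⟩
    have hN : nrm t n x k = b ^ 2 * (r ^ 2 - t * r + n) := by
      rw [nrm, ← hb', hr]
      linear_combination (-x (Sum.inl k) ^ 2 * (1 + b * ((b⁻¹ : Oˣ) : O)) -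
        t * b * x (Sum.inl k)) * hbb
    have h1 : π ^ 2 ∣ r ^ 2 - t * r + n := by
      rw [hN] at hn
      have := hn.mul_left (((b⁻¹ : Oˣ) : O) ^ 2)
      have h2 : ((b⁻¹ : Oˣ) : O) ^ 2 * (b ^ 2 * (r ^ 2 - t * r + n)) =
          (b * ((b⁻¹ : Oˣ) : O)) ^ 2 * (r ^ 2 - t * r + n) := by ring
      rwa [h2, hbb, one_pow, one_mul] at this
    have h2 : ¬ π ∣ 2 * r - t := by
      intro h3
      apply hmax r
      · rw [hπ.maximalIdeal_eq, Ideal.mem_span_singleton]
        exact h3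
      · rw [mem_maximalIdeal_sq_iff hπ]
        exact h1
    have htr : ¬ π ∣ 2 * x (Sum.inl k) + t * x (Sum.inr k) := by
      intro h3
      apply h2
      have h4 : 2 * r - t = -(((b⁻¹ : Oˣ) : O) * (2 * x (Sum.inl k) + t * x (Sum.inr k))) := by
        rw [hr, ← hb']
        linear_combination t * hbb
      rw [h4]
      exact (dvd_neg).mpr (Dvd.dvd.mul_left h3 _)
    refine ⟨x + π • Pi.single (Sum.inl k) 1, k, bad_add_smul hx _, ?_⟩
    intro h3
    apply htr
    have h4 : nrm t n (x + π • Pi.single (Sum.inl k) 1) k =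
        nrm t n x k + π * (2 * x (Sum.inl k) + t * x (Sum.inr k)) + π ^ 2 := by
      simp only [nrm, Pi.add_apply, Pi.smul_apply, Pi.single_eq_same, smul_eq_mul, mul_one,
        Pi.single_apply, reduceCtorEq, if_false, mul_zero, add_zero]
      ring
    rw [h4] at h3
    have h5 : π ^ 2 ∣ π * (2 * x (Sum.inl k) + t * x (Sum.inr k)) := by
      have := dvd_sub (dvd_sub h3 (dvd_refl (π ^ 2))) hn
      have h6 : nrm t n x k + π * (2 * x (Sum.inl k) + t * x (Sum.inr k)) + π ^ 2 - π ^ 2 -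
          nrm t n x k = π * (2 * x (Sum.inl k) + t * x (Sum.inr k)) := by ring
      rwa [h6] at this
    rw [pow_two] at h5
    exact (mul_dvd_mul_iff_left hπ.ne_zero).mp h5
  · exact ⟨x, k, hx, hn⟩

end Norm

section Gamma

variable {O K : Type} [CommRing O] [IsDomain O] [Field K] [Algebra O K] [IsFractionRing O K]
  (t n π : O) {N : ℕ}

/-- The vectors `x / π - e_k` and `ω x / π - ω e_k` as the columns of a matrix. -/
noncomputable def colU (K : Type) [Field K] [Algebra O K] (x : Fin N ⊕ Fin N → O) (k : Fin N) :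
    Matrix (Fin N ⊕ Fin N) (Fin 2) K :=
  Matrix.of fun i => ![(algebraMap O K π)⁻¹ * algebraMap O K (x i) -
      Sum.elim (Pi.single k 1) (fun _ => 0) i,
    (algebraMap O K π)⁻¹ * algebraMap O K (omV t n x i) - Sum.elim (fun _ => 0) (Pi.single k 1) i]

/-- The `k`-th component. -/
def rowW (K : Type) [Field K] (k : Fin N) : Matrix (Fin 2) (Fin N ⊕ Fin N) K :=
  Matrix.of ![Sum.elim (Pi.single k 1) (fun _ => 0), Sum.elim (fun _ => 0) (Pi.single k 1)]

/-- The matrix of the map which sends `e_k` to `x / π` and fixes the other `e_l`. -/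
noncomputable def gammaM (K : Type) [Field K] [Algebra O K] (x : Fin N ⊕ Fin N → O) (k : Fin N) :
    Matrix (Fin N ⊕ Fin N) (Fin N ⊕ Fin N) K :=
  1 + colU t n π K x k * rowW K k

omit [IsDomain O] [IsFractionRing O K] in
theorem rowW_mulVec (k : Fin N) (v : Fin N ⊕ Fin N → K) :
    rowW K k *ᵥ v = ![v (Sum.inl k), v (Sum.inr k)] := by
  ext a
  fin_cases a
  · simp [rowW, mulVec, dotProduct, Fintype.sum_sum_type, Pi.single_apply]
  · simp [rowW, mulVec, dotProduct, Fintype.sum_sum_type, Pi.single_apply]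

omit [IsDomain O] [IsFractionRing O K] in
theorem gammaM_mulVec (x : Fin N ⊕ Fin N → O) (k : Fin N) (v : Fin N ⊕ Fin N → K)
    (i : Fin N ⊕ Fin N) :
    (gammaM t n π K x k *ᵥ v) i = v i +
      v (Sum.inl k) * ((algebraMap O K π)⁻¹ * algebraMap O K (x i) -
        (Sum.elim (Pi.single k 1) (fun _ => 0) i : K)) +
      v (Sum.inr k) * ((algebraMap O K π)⁻¹ * algebraMap O K (omV t n x i) -
        (Sum.elim (fun _ => 0) (Pi.single k 1) i : K)) := by
  rw [gammaM, add_mulVec, one_mulVec, ← mulVec_mulVec, rowW_mulVec]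
  simp only [Pi.add_apply, mulVec, dotProduct, Fin.sum_univ_two, colU, Matrix.of_apply,
    Matrix.cons_val_zero, Matrix.cons_val_one]
  ring

omit [IsDomain O] [IsFractionRing O K] in
theorem gammaM_omV (x : Fin N ⊕ Fin N → O) (k : Fin N) (v : Fin N ⊕ Fin N → K) :
    gammaM t n π K x k *ᵥ omV (algebraMap O K t) (algebraMap O K n) v =
      omV (algebraMap O K t) (algebraMap O K n) (gammaM t n π K x k *ᵥ v) := by
  ext i
  rcases i with i | i
  · rw [gammaM_mulVec]
    simp only [omV, Sum.elim_inl, Sum.elim_inr, gammaM_mulVec, map_neg, map_add, map_mul]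
    ring
  · rw [gammaM_mulVec]
    simp only [omV, Sum.elim_inl, Sum.elim_inr, gammaM_mulVec, map_neg, map_add, map_mul]
    ring

omit [IsDomain O] [IsFractionRing O K] in
theorem det_gammaM (x : Fin N ⊕ Fin N → O) (k : Fin N) (hπ : algebraMap O K π ≠ 0) :
    (algebraMap O K π) ^ 2 * (gammaM t n π K x k).det = algebraMap O K (nrm t n x k) := by
  rw [gammaM, Matrix.det_one_add_mul_comm, Matrix.det_fin_two]
  simp only [Matrix.add_apply, Matrix.mul_apply, Fintype.sum_sum_type, rowW, colU,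
    Matrix.of_apply, Matrix.cons_val_zero, Matrix.cons_val_one, Sum.elim_inl, Sum.elim_inr,
    Pi.single_apply, ite_mul, one_mul, zero_mul, Finset.sum_const_zero, Finset.sum_ite_eq',
    Finset.mem_univ, if_true, add_zero, zero_add, Matrix.one_apply_eq, Matrix.one_apply_ne,
    sub_zero, nrm, omV, map_add, map_mul, map_neg, map_pow, ne_eq, one_ne_zero, not_false_eq_true,
    zero_ne_one]
  field_simp
  ring

end Gamma

end Pool.Agent.Lib.MP_6a3dac_ag
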