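import Pool.Agent.Lib.MP_6a3dac_ag.HermForm

/-!
# Nondegeneracy of the trace form of a Hermitian form
-/

set_option autoImplicit false

namespace Pool.Agent.Lib.MP_6a3dac_ag

open Matrix

variable {K : Type} [Field K] [CharZero K] {t n : K} {N : ℕ}

theorem det_hMat_ne_of_isHermitian (hd : t ^ 2 - 4 * n ≠ 0)
    (h : Matrix (Fin N) (Fin N) (QuadraticAlgebra K (-n) t)) (hh : h.IsHermitian)
    (hu : IsUnit h.det) :
    (hMat t n (h.map QuadraticAlgebra.re) (-n • h.map QuadraticAlgebra.im) +
      (hMat t n (h.map QuadraticAlgebra.re) (-n • h.map QuadraticAlgebra.im))ᵀ).det ≠ 0 := by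
  intro h0
  obtain ⟨w, hw, hw0⟩ := Matrix.exists_mulVec_eq_zero_iff.mpr h0
  apply hw
  let W : Fin N → QuadraticAlgebra K (-n) t := fun l => ⟨w (Sum.inl l), w (Sum.inr l)⟩
  have hre : ∀ k l, (h l k).re = (h k l).re + t * (h k l).im := by
    intro k l
    have h1 := congrFun (congrFun hh l) k
    rw [conjTranspose_apply] at h1
    rw [← h1, QuadraticAlgebra.re_star]
  have him : ∀ k l, (h l k).im = -(h k l).im := by
    intro k l
    have h1 := congrFun (congrFun hh l) k
    rw [conjTranspose_apply] at h1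
    rw [← h1, QuadraticAlgebra.im_star]
  have hz : h *ᵥ (fun l => star (W l)) = 0 := by
    ext1 k
    obtain ⟨z, hz⟩ : ∃ z, z = (h *ᵥ fun l => star (W l)) k := ⟨_, rfl⟩
    have hzre : z.re = ∑ l, ((h k l).re * (w (Sum.inl l) + t * w (Sum.inr l)) +
        n * (h k l).im * w (Sum.inr l)) := by
      rw [hz, mulVec, dotProduct]
      rw [show (∑ l, h k l * star (W l)).re = ∑ l, (h k l * star (W l)).re from
        map_sum (QuadraticAlgebra.reₗ (R := K) (a := -n) (b := t)) _ _]
      refine Finset.sum_congr rfl fun l _ => ?_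
      rw [QuadraticAlgebra.re_mul, QuadraticAlgebra.re_star, QuadraticAlgebra.im_star]
      change (h k l).re * (w (Sum.inl l) + t * w (Sum.inr l)) + -n * (h k l).im * -w (Sum.inr l) = _
      ring
    have hzim : z.im = ∑ l, ((h k l).im * w (Sum.inl l) - (h k l).re * w (Sum.inr l)) := by
      rw [hz, mulVec, dotProduct]
      rw [show (∑ l, h k l * star (W l)).im = ∑ l, (h k l * star (W l)).im from
        map_sum (QuadraticAlgebra.imₗ (R := K) (a := -n) (b := t)) _ _]
      refine Finset.sum_congr rfl fun l _ => ?_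
      rw [QuadraticAlgebra.im_mul, QuadraticAlgebra.re_star, QuadraticAlgebra.im_star]
      change (h k l).re * -w (Sum.inr l) + (h k l).im * (w (Sum.inl l) + t * w (Sum.inr l)) +
        t * (h k l).im * -w (Sum.inr l) = _
      ring
    have e1 := congrFun hw0 (Sum.inl k)
    have e2 := congrFun hw0 (Sum.inr k)
    simp only [mulVec, dotProduct, Fintype.sum_sum_type, hMat, Matrix.add_apply,
      Matrix.transpose_apply, fromBlocks_apply₁₁, fromBlocks_apply₁₂, fromBlocks_apply₂₁,
      fromBlocks_apply₂₂, Matrix.sub_apply, Matrix.smul_apply, Matrix.map_apply, smul_eq_mul,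
      Pi.zero_apply, ← Finset.sum_add_distrib] at e1 e2
    have f1 : 2 * z.re + t * z.im = 0 := by
      rw [hzre, hzim, ← e1, Finset.mul_sum, Finset.mul_sum, ← Finset.sum_add_distrib]
      refine Finset.sum_congr rfl fun l _ => ?_
      rw [hre k l, him k l]
      ring
    have f2 : t * z.re + (t ^ 2 - 2 * n) * z.im = 0 := by
      rw [hzre, hzim, ← e2, Finset.mul_sum, Finset.mul_sum, ← Finset.sum_add_distrib]
      refine Finset.sum_congr rfl fun l _ => ?_
      rw [hre k l, him k l]
      ring
    have f3 : (t ^ 2 - 4 * n) * z.im = 0 := by linear_combination 2 * f2 - t * f1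
    have f4 : z.im = 0 := (mul_eq_zero.mp f3).resolve_left hd
    rw [f4, mul_zero, add_zero] at f1
    have f5 : z.re = 0 := (mul_eq_zero.mp f1).resolve_left two_ne_zero
    rw [← hz]
    exact QuadraticAlgebra.ext f5 f4
  have hW : (fun l => star (W l)) = 0 := by
    have h1 : h⁻¹ *ᵥ (h *ᵥ (fun l => star (W l))) = 0 := by rw [hz, mulVec_zero]
    rwa [mulVec_mulVec, Matrix.nonsing_inv_mul h hu, one_mulVec] at h1
  have hW' : ∀ l, W l = 0 := fun l => by
    have h1 := congrFun hW l
    exact star_eq_zero.mp h1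
  ext i
  rcases i with l | l
  · exact congrArg QuadraticAlgebra.re (hW' l)
  · exact congrArg QuadraticAlgebra.im (hW' l)

end Pool.Agent.Lib.MP_6a3dac_ag
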