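import Pool.Agent.Lib.MP_6a3dac_ag.HermDefs

/-!
# Hermitian quadrics as schemes
-/

set_option autoImplicit false

namespace Pool.Agent.Lib.MP_6a3dac_ag

open CategoryTheory AlgebraicGeometry

variable {K : Type} [CommRing K] (t n : K) {N : ℕ}
  (h : Matrix (Fin N) (Fin N) (QuadraticAlgebra K (-n) t))

/-- The matrix of the coefficients of `1` in the entries of a matrix over `K[ω]`. -/
def matRe : Matrix (Fin N) (Fin N) K := fun k l => (h k l).re

/-- The matrix of the coefficients of `1` in the entries of `ω h`. -/
def matOm : Matrix (Fin N) (Fin N) K := fun k l => -n * (h k l).im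

/-- The Hermitian quadric `h(v, v) = 0` in the Weil restriction of a projective space. -/
noncomputable def hermQuadric : Scheme.{0} := Proj (hermGr t n (matRe t n h) (matOm t n h))

/-- The structure morphism of a Hermitian quadric. -/
noncomputable def hermQuadricTo : hermQuadric t n h ⟶ Spec (CommRingCat.of K) :=
  projTo K (hermGr t n (matRe t n h) (matOm t n h))

end Pool.Agent.Lib.MP_6a3dac_ag
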