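import Pool.Agent.Lib.MP_6a3dac_ag.WeilRegAt
import Pool.Agent.Lib.MP_6a3dac_ag.MaxOrdExist

/-!
# Families of generators of the coordinate ring of a Weil restriction
-/

set_option autoImplicit false

namespace Pool.Agent.Lib.MP_6a3dac_ag

open MvPolynomial IsLocalRing

section Full

variable {R K A : Type} [CommRing R] [IsDomain R] [Field K] [Algebra R K] [IsFractionRing R K]
  [CommRing A] [Algebra K A] [Algebra R A] [IsScalarTower R K A]

/-- The elements which have a nonzero multiple in a given subring. -/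
def satSub (T : Subalgebra R A) : Subalgebra K A where
  carrier := {a | ∃ r : R, r ≠ 0 ∧ r • a ∈ T}
  mul_mem' := by
    rintro x y ⟨r, hr, hx⟩ ⟨s, hs, hy⟩
    refine ⟨r * s, mul_ne_zero hr hs, ?_⟩
    rw [← smul_mul_smul_comm]
    exact T.mul_mem hx hy
  add_mem' := by
    rintro x y ⟨r, hr, hx⟩ ⟨s, hs, hy⟩
    refine ⟨r * s, mul_ne_zero hr hs, ?_⟩
    rw [smul_add, mul_smul r s y, mul_comm r s, mul_smul s r x]
    exact T.add_mem (T.smul_mem hx s) (T.smul_mem hy r)
  algebraMap_mem' := by
    intro k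
    obtain ⟨x, y, hy, rfl⟩ := IsFractionRing.div_surjective (A := R) k
    refine ⟨y, nonZeroDivisors.ne_zero hy, ?_⟩
    have hy0 : algebraMap R K y ≠ 0 := by
      rw [Ne, FaithfulSMul.algebraMap_eq_zero_iff]
      exact nonZeroDivisors.ne_zero hy
    have h1 : y • (algebraMap K A (algebraMap R K x / algebraMap R K y)) =
        algebraMap R A x := by
      rw [Algebra.smul_def, IsScalarTower.algebraMap_apply R K A, ← map_mul,
        mul_div_cancel₀ _ hy0, ← IsScalarTower.algebraMap_apply]
    rw [h1]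
    exact Subalgebra.algebraMap_mem _ _

theorem mem_satSub {T : Subalgebra R A} {a : A} :
    a ∈ satSub (K := K) T ↔ ∃ r : R, r ≠ 0 ∧ r • a ∈ T := Iff.rfl

theorem le_satSub {T : Subalgebra R A} {a : A} (ha : a ∈ T) : a ∈ satSub (K := K) T :=
  ⟨1, one_ne_zero, by rwa [one_smul]⟩

end Full

section Fam

variable {K : Type} [Field K] (t n : K) (N : ℕ)

theorem epsP_mem (k l : Fin N) : epsP t n k l ∈ weilAlg t n N :=
  Algebra.subset_adjoin (Or.inl ⟨(k, l), rfl⟩)

theorem delP_mem (k l : Fin N) : delP K k l ∈ weilAlg t n N :=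
  Algebra.subset_adjoin (Or.inr ⟨(k, l), rfl⟩)

variable {N}

/-- The generators `ε_kl + r δ_kl` and `s δ_kl`. -/
noncomputable def genFam (r s : K) : WG N → weilAlg t n N :=
  Sum.elim
    (fun kl : Fin N × Fin N => (⟨epsP t n kl.1 kl.2, epsP_mem t n N _ _⟩ : weilAlg t n N) +
      r • ⟨delP K kl.1 kl.2, delP_mem t n N _ _⟩)
    (fun kl : Fin N × Fin N => s • ⟨delP K kl.1 kl.2, delP_mem t n N _ _⟩)

theorem coe_genFam_inl (r s : K) (k l : Fin N) :
    ((genFam t n r s (Sum.inl (k, l)) : weilAlg t n N) : CoordRing K N) =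
      epsP t n k l + C r * delP K k l := by
  change epsP t n k l + r • delP K k l = _
  rw [smul_eq_C_mul]

theorem coe_genFam_inr (r s : K) (k l : Fin N) :
    ((genFam t n r s (Sum.inr (k, l)) : weilAlg t n N) : CoordRing K N) = C s * delP K k l := by
  change s • delP K k l = _
  rw [smul_eq_C_mul]

theorem genFam_mem (r s : K) (x : WG N) : genFam t n r s x ∈ weilGr t n N 1 := by
  rcases x with ⟨k, l⟩ | ⟨k, l⟩
  · change ((genFam t n r s (Sum.inl (k, l)) : weilAlg t n N) : CoordRing K N) ∈
      homogeneousSubmodule (Fin N ⊕ Fin N) K (2 * 1)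
    rw [coe_genFam_inl]
    refine Submodule.add_mem _ (epsP_isHomogeneous _ _ _ _) ?_
    rw [← smul_eq_C_mul]
    exact Submodule.smul_mem _ _ (delP_isHomogeneous _ _)
  · change ((genFam t n r s (Sum.inr (k, l)) : weilAlg t n N) : CoordRing K N) ∈
      homogeneousSubmodule (Fin N ⊕ Fin N) K (2 * 1)
    rw [coe_genFam_inr, ← smul_eq_C_mul]
    exact Submodule.smul_mem _ _ (delP_isHomogeneous _ _)

/-- The linear substitution corresponding to `ω = r + s ω'`. -/
noncomputable def subOm (K : Type) [Field K] (N : ℕ) (r s : K) :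
    CoordRing K N →ₐ[K] CoordRing K N :=
  aeval (Sum.elim (fun i => X (Sum.inl i) + C r * X (Sum.inr i)) (fun i => C s * X (Sum.inr i)))

theorem subOm_inl (r s : K) (i : Fin N) :
    subOm K N r s (X (Sum.inl i)) = X (Sum.inl i) + C r * X (Sum.inr i) := by
  rw [subOm, aeval_X]; rfl

theorem subOm_inr (r s : K) (i : Fin N) :
    subOm K N r s (X (Sum.inr i)) = C s * X (Sum.inr i) := by
  rw [subOm, aeval_X]; rfl

theorem subOm_injective {r s : K} (hs : s ≠ 0) : Function.Injective (subOm K N r s) := by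
  have h : (subOm K N (-(r * s⁻¹)) s⁻¹).comp (subOm K N r s) = AlgHom.id K _ := by
    apply MvPolynomial.algHom_ext
    rintro (i | i)
    · rw [AlgHom.comp_apply, subOm_inl, map_add, map_mul, subOm_inl, subOm_inr, algHom_C,
        algebraMap_eq, AlgHom.id_apply]
      simp only [map_neg, map_mul]
      ring
    · rw [AlgHom.comp_apply, subOm_inr, map_mul, subOm_inr, algHom_C, algebraMap_eq,
        AlgHom.id_apply, ← mul_assoc, ← C_mul, mul_inv_cancel₀ hs, C_1, one_mul]
  intro x y hxy
  have h1 := congrArg (subOm K N (-(r * s⁻¹)) s⁻¹) hxy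
  rw [← AlgHom.comp_apply, ← AlgHom.comp_apply, h] at h1
  exact h1

variable {O : Type} [CommRing O] [Algebra O K]

/-- The map from the polynomial ring given by a family of generators. -/
noncomputable def psiFam (O : Type) [CommRing O] [Algebra O K] (r s : K) :
    MvPolynomial (WG N) O →+* weilAlg t n N :=
  eval₂Hom ((algebraMap K (weilAlg t n N)).comp (algebraMap O K)) (genFam t n r s)

theorem psiFam_C (r s : K) (a : O) :
    psiFam t n (N := N) O r s (C a) = algebraMap K _ (algebraMap O K a) := by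
  rw [psiFam, coe_eval₂Hom, eval₂_C]
  rfl

theorem psiFam_X (r s : K) (x : WG N) :
    psiFam t n (N := N) O r s (X x) = genFam t n r s x := by
  rw [psiFam, coe_eval₂Hom, eval₂_X]

variable {t n}

theorem coe_psiFam {r s : K} {t' n' : O} (ht : t = 2 * r + s * algebraMap O K t')
    (hn : n = r ^ 2 + r * s * algebraMap O K t' + s ^ 2 * algebraMap O K n')
    (Q : MvPolynomial (WG N) O) :
    ((psiFam t n (N := N) O r s Q : weilAlg t n N) : CoordRing K N) =
      subOm K N r s (psiS K t' n' N Q) := by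
  have h : ((weilAlg t n N).val : weilAlg t n N →+* CoordRing K N).comp
      (psiFam t n (N := N) O r s) =
      (subOm K N r s : CoordRing K N →+* CoordRing K N).comp
        (psiS K t' n' N : MvPolynomial (WG N) O →+* CoordRing K N) := by
    apply MvPolynomial.ringHom_ext
    · intro a
      change ((psiFam t n (N := N) O r s (C a) : weilAlg t n N) : CoordRing K N) =
        subOm K N r s (psiS K t' n' N (C a))
      rw [psiFam_C, psiS_C, algHom_C]
      rfl
    · intro x
      change ((psiFam t n (N := N) O r s (X x) : weilAlg t n N) : CoordRing K N) =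
        subOm K N r s (psiS K t' n' N (X x))
      rw [psiFam_X]
      rcases x with ⟨k, l⟩ | ⟨k, l⟩
      · rw [coe_genFam_inl, psiS_inl, epsP, epsP, delP]
        simp only [map_add, map_mul, subOm_inl, subOm_inr, algHom_C, algebraMap_eq]
        rw [ht, hn]
        simp only [map_add, map_mul, map_pow, map_ofNat]
        ring
      · rw [coe_genFam_inr, psiS_inr, delP]
        simp only [map_sub, map_mul, subOm_inl, subOm_inr]
        ring
  exact RingHom.congr_fun h Q

theorem psiFam_eq_zero_iff {r s : K} {t' n' : O} (hs : s ≠ 0)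
    (ht : t = 2 * r + s * algebraMap O K t')
    (hn : n = r ^ 2 + r * s * algebraMap O K t' + s ^ 2 * algebraMap O K n')
    (Q : MvPolynomial (WG N) O) :
    psiFam t n (N := N) O r s Q = 0 ↔ psiS K t' n' N Q = 0 := by
  rw [← Subtype.coe_injective.eq_iff, coe_psiFam ht hn]
  exact map_eq_zero_iff (subOm K N r s) (subOm_injective hs)

end Fam

section FullFam

variable {R K : Type} [CommRing R] [IsDomain R] [Field K] [Algebra R K] [IsFractionRing R K]
  (t n : K) {N : ℕ}

theorem full_genFam (r s : K) (hs : s ≠ 0) (a : weilAlg t n N) :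
    ∃ d : R, d ≠ 0 ∧ d • a ∈ Algebra.adjoin R (Set.range (genFam t n (N := N) r s)) := by
  rw [← mem_satSub (K := K)]
  have hmem : ∀ x : WG N, genFam t n r s x ∈
      satSub (K := K) (Algebra.adjoin R (Set.range (genFam t n (N := N) r s))) :=
    fun x => le_satSub (Algebra.subset_adjoin ⟨x, rfl⟩)
  have hdel : ∀ k l : Fin N, (⟨delP K k l, delP_mem t n N _ _⟩ : weilAlg t n N) ∈
      satSub (K := K) (Algebra.adjoin R (Set.range (genFam t n (N := N) r s))) := by
    intro k l
    have h1 := Subalgebra.smul_mem _ (hmem (Sum.inr (k, l))) s⁻¹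
    have h2 : s⁻¹ • genFam t n r s (Sum.inr (k, l)) =
        (⟨delP K k l, delP_mem t n N _ _⟩ : weilAlg t n N) := by
      change s⁻¹ • (s • (⟨delP K k l, delP_mem t n N _ _⟩ : weilAlg t n N)) = _
      rw [smul_smul, inv_mul_cancel₀ hs, one_smul]
    rwa [h2] at h1
  have heps : ∀ k l : Fin N, (⟨epsP t n k l, epsP_mem t n N _ _⟩ : weilAlg t n N) ∈
      satSub (K := K) (Algebra.adjoin R (Set.range (genFam t n (N := N) r s))) := by
    intro k l
    have h1 := Subalgebra.sub_mem _ (hmem (Sum.inl (k, l)))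
      (Subalgebra.smul_mem _ (hdel k l) r)
    have h2 : genFam t n r s (Sum.inl (k, l)) -
        r • (⟨delP K k l, delP_mem t n N _ _⟩ : weilAlg t n N) =
        (⟨epsP t n k l, epsP_mem t n N _ _⟩ : weilAlg t n N) := by
      change (⟨epsP t n k l, epsP_mem t n N _ _⟩ : weilAlg t n N) +
        r • (⟨delP K k l, delP_mem t n N _ _⟩ : weilAlg t n N) - _ = _
      rw [add_sub_cancel_right]
    rwa [h2] at h1
  have hle : weilAlg t n N ≤
      (satSub (K := K) (Algebra.adjoin R (Set.range (genFam t n (N := N) r s)))).map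
        (weilAlg t n N).val := by
    refine Algebra.adjoin_le ?_
    rintro x (⟨⟨k, l⟩, rfl⟩ | ⟨⟨k, l⟩, rfl⟩)
    · exact ⟨_, heps k l, rfl⟩
    · exact ⟨_, hdel k l, rfl⟩
  obtain ⟨b, hb, hba⟩ := hle a.2
  have : b = a := Subtype.ext hba
  rw [← this]
  exact hb

end FullFam

end Pool.Agent.Lib.MP_6a3dac_ag
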