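import Pool.Agent.Lib.MP_6a3dac_ag.HermDefs
import Pool.Agent.Lib.MP_6a3dac_ag.WeilFam
import Pool.Agent.Lib.MP_6a3dac_ag.HermMin

/-!
# Linear substitutions of Hermitian forms
-/

set_option autoImplicit false

namespace Pool.Agent.Lib.MP_6a3dac_ag

open MvPolynomial Matrix

section SubstM

variable {K : Type} [CommRing K] {J : Type} [Fintype J] [DecidableEq J]

/-- The linear substitution given by a matrix. -/
noncomputable def substM (G : Matrix J J K) : MvPolynomial J K →ₐ[K] MvPolynomial J K :=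
  aeval fun i => ∑ j, C (G i j) * X j

theorem substM_X (G : Matrix J J K) (i : J) : substM G (X i) = ∑ j, C (G i j) * X j := by
  rw [substM, aeval_X]

theorem substM_C (G : Matrix J J K) (r : K) : substM G (C r) = C r := by
  rw [substM, aeval_C]; rfl

theorem substM_comp (G G' : Matrix J J K) (f : MvPolynomial J K) :
    substM G (substM G' f) = substM (G' * G) f := by
  rw [← AlgHom.comp_apply]
  congr 1
  apply MvPolynomial.algHom_ext
  intro i
  rw [AlgHom.comp_apply, substM_X, substM_X, map_sum]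
  simp only [map_mul, substM_C, substM_X, Matrix.mul_apply, map_sum, Finset.mul_sum,
    Finset.sum_mul]
  rw [Finset.sum_comm]
  refine Finset.sum_congr rfl fun j _ => Finset.sum_congr rfl fun k _ => by ring

theorem substM_one (f : MvPolynomial J K) : substM (1 : Matrix J J K) f = f := by
  have : substM (1 : Matrix J J K) = AlgHom.id K _ := by
    apply MvPolynomial.algHom_ext
    intro i
    rw [substM_X, AlgHom.id_apply, Finset.sum_eq_single i]
    · rw [Matrix.one_apply_eq, C_1, one_mul]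
    · intro j _ hj
      rw [Matrix.one_apply_ne (Ne.symm hj), C_0, zero_mul]
    · intro h
      exact absurd (Finset.mem_univ i) h
  rw [this, AlgHom.id_apply]

theorem substM_quad (G M : Matrix J J K) :
    substM G ((X : J → MvPolynomial J K) ⬝ᵥ M.map C *ᵥ (X : J → MvPolynomial J K)) =
      (X : J → MvPolynomial J K) ⬝ᵥ (Gᵀ * M * G).map C *ᵥ (X : J → MvPolynomial J K) := by
  have h1 : substM G ((X : J → MvPolynomial J K) ⬝ᵥ M.map C *ᵥ (X : J → MvPolynomial J K)) =
      ((G.map C : Matrix J J (MvPolynomial J K)) *ᵥ X) ⬝ᵥ M.map C *ᵥ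
        ((G.map C : Matrix J J (MvPolynomial J K)) *ᵥ X) := by
    simp only [dotProduct, mulVec, map_sum, map_mul, substM_X, Matrix.map_apply, substM_C]
  rw [h1, dot_conj]
  congr 2
  rw [Matrix.map_mul, Matrix.map_mul, Matrix.transpose_map]

end SubstM

section Iso

variable {K : Type} [Field K] {N : ℕ}

/-- Linear substitutions transforming Hermitian forms for `(t', n')` into such forms for
`(t, n)` and conversely. -/
structure HermIso (t n t' n' : K) (Φ Φi : CoordRing K N →ₐ[K] CoordRing K N) : Prop where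
  inv1 : ∀ f, Φ (Φi f) = f
  inv2 : ∀ f, Φi (Φ f) = f
  map1 : ∀ p q : Matrix (Fin N) (Fin N) K, ∃ p' q', Φ (hPoly t' n' p q) = hPoly t n p' q'
  map2 : ∀ p q : Matrix (Fin N) (Fin N) K, ∃ p' q', Φi (hPoly t n p q) = hPoly t' n' p' q'

variable {t n t' n' : K} {Φ Φi : CoordRing K N →ₐ[K] CoordRing K N}

theorem HermIso.symm (h : HermIso t n t' n' Φ Φi) : HermIso t' n' t n Φi Φ :=
  ⟨h.inv2, h.inv1, h.map2, h.map1⟩

theorem HermIso.trans {t₁ n₁ t₂ n₂ t₃ n₃ : K} {Φ Φi Ψ Ψi : CoordRing K N →ₐ[K] CoordRing K N}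
    (h : HermIso t₁ n₁ t₂ n₂ Φ Φi) (h' : HermIso t₂ n₂ t₃ n₃ Ψ Ψi) :
    HermIso t₁ n₁ t₃ n₃ (Φ.comp Ψ) (Ψi.comp Φi) where
  inv1 f := by
    rw [AlgHom.comp_apply, AlgHom.comp_apply, h'.inv1, h.inv1]
  inv2 f := by
    rw [AlgHom.comp_apply, AlgHom.comp_apply, h.inv2, h'.inv2]
  map1 p q := by
    obtain ⟨p', q', h1⟩ := h'.map1 p q
    obtain ⟨p'', q'', h2⟩ := h.map1 p' q'
    exact ⟨p'', q'', by rw [AlgHom.comp_apply, h1, h2]⟩
  map2 p q := by
    obtain ⟨p', q', h1⟩ := h.map2 p q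
    obtain ⟨p'', q'', h2⟩ := h'.map2 p' q'
    exact ⟨p'', q'', by rw [AlgHom.comp_apply, h1, h2]⟩

theorem hermIso_id (t n : K) : HermIso (N := N) t n t n (AlgHom.id K _) (AlgHom.id K _) :=
  ⟨fun _ => rfl, fun _ => rfl, fun p q => ⟨p, q, rfl⟩, fun p q => ⟨p, q, rfl⟩⟩

theorem epsP_eq_hPoly (t n : K) (k l : Fin N) :
    epsP t n k l = hPoly t n (Matrix.single k l 1) 0 := by
  rw [hPoly, Finset.sum_eq_single k, Finset.sum_eq_single l]
  · simp
  · intro b _ hb
    simp [Matrix.single_apply, Ne.symm hb]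
  · intro h
    exact absurd (Finset.mem_univ l) h
  · intro b _ hb
    refine Finset.sum_eq_zero fun c _ => ?_
    simp [Matrix.single_apply, Ne.symm hb]
  · intro h
    exact absurd (Finset.mem_univ k) h

theorem delP_eq_hPoly (t n : K) (k l : Fin N) :
    delP K k l = hPoly t n 0 (Matrix.single k l 1) := by
  rw [hPoly, Finset.sum_eq_single k, Finset.sum_eq_single l]
  · simp
  · intro b _ hb
    simp [Matrix.single_apply, Ne.symm hb]
  · intro h
    exact absurd (Finset.mem_univ l) h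
  · intro b _ hb
    refine Finset.sum_eq_zero fun c _ => ?_
    simp [Matrix.single_apply, Ne.symm hb]
  · intro h
    exact absurd (Finset.mem_univ k) h

theorem HermIso.mem (h : HermIso t n t' n' Φ Φi) {f : CoordRing K N}
    (hf : f ∈ weilAlg t' n' N) : Φ f ∈ weilAlg t n N := by
  have hle : weilAlg t' n' N ≤ (weilAlg t n N).comap Φ := by
    refine Algebra.adjoin_le ?_
    rintro x (⟨⟨k, l⟩, rfl⟩ | ⟨⟨k, l⟩, rfl⟩)
    · obtain ⟨p, q, hpq⟩ := h.map1 (Matrix.single k l 1) 0
      change Φ (epsP t' n' k l) ∈ weilAlg t n N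
      rw [epsP_eq_hPoly, hpq]
      exact hPoly_mem t n p q
    · obtain ⟨p, q, hpq⟩ := h.map1 0 (Matrix.single k l 1)
      change Φ (delP K k l) ∈ weilAlg t n N
      rw [delP_eq_hPoly t' n', hpq]
      exact hPoly_mem t n p q
  exact hle hf

theorem HermIso.injective (h : HermIso t n t' n' Φ Φi) : Function.Injective Φ :=
  Function.LeftInverse.injective h.inv2

theorem subOm_hPoly {t n t' n' r s : K} (ht : t = 2 * r + s * t')
    (hn : n = r ^ 2 + r * s * t' + s ^ 2 * n') (p q : Matrix (Fin N) (Fin N) K) :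
    subOm K N r s (hPoly t' n' p q) = hPoly t n p (r • p + s • q) := by
  rw [hPoly, hPoly, map_sum]
  refine Finset.sum_congr rfl fun k _ => ?_
  rw [map_sum]
  refine Finset.sum_congr rfl fun l _ => ?_
  rw [ht, hn, epsP, epsP, delP]
  simp only [map_add, map_sub, map_mul, subOm_inl, subOm_inr, algHom_C, algebraMap_eq,
    Matrix.add_apply, Matrix.smul_apply, smul_eq_mul, map_pow, map_ofNat]
  ring

/-- The isomorphisms given by `ω = r + s ω'`. -/
theorem hermIso_subOm {r s : K} (hs : s ≠ 0) (ht : t = 2 * r + s * t')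
    (hn : n = r ^ 2 + r * s * t' + s ^ 2 * n') :
    HermIso (N := N) t n t' n' (subOm K N r s) (subOm K N (-(r * s⁻¹)) s⁻¹) := by
  have hinv : ∀ {r s : K}, s ≠ 0 → ∀ f, subOm K N (-(r * s⁻¹)) s⁻¹ (subOm K N r s f) = f := by
    intro r s hs f
    have h : (subOm K N (-(r * s⁻¹)) s⁻¹).comp (subOm K N r s) = AlgHom.id K _ := by
      apply MvPolynomial.algHom_ext
      rintro (i | i)
      · rw [AlgHom.comp_apply, subOm_inl, map_add, map_mul, subOm_inl, subOm_inr, algHom_C,
          algebraMap_eq, AlgHom.id_apply]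
        simp only [map_neg, map_mul]
        ring
      · rw [AlgHom.comp_apply, subOm_inr, map_mul, subOm_inr, algHom_C, algebraMap_eq,
          AlgHom.id_apply, ← mul_assoc, ← C_mul, mul_inv_cancel₀ hs, C_1, one_mul]
    exact DFunLike.congr_fun h f
  have ht' : t' = 2 * (-(r * s⁻¹)) + s⁻¹ * t := by
    rw [ht]
    field_simp
    ring
  have hn' : n' = (-(r * s⁻¹)) ^ 2 + (-(r * s⁻¹)) * s⁻¹ * t + (s⁻¹) ^ 2 * n := by
    rw [hn, ht]
    field_simp
    ring
  refine ⟨fun f => ?_, hinv hs, fun p q => ⟨_, _, subOm_hPoly ht hn p q⟩,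
    fun p q => ⟨_, _, subOm_hPoly ht' hn' p q⟩⟩
  have h1 := hinv (r := -(r * s⁻¹)) (inv_ne_zero hs) f
  have h2 : -(-(r * s⁻¹) * s⁻¹⁻¹) = r := by
    field_simp
  rwa [h2, inv_inv] at h1

/-- The determinant after the change of the generator. -/
theorem det_subOm_ne {r s : K} (hs : s ≠ 0) (ht : t = 2 * r + s * t')
    (hn : n = r ^ 2 + r * s * t' + s ^ 2 * n') (P Q : Matrix (Fin N) (Fin N) K)
    (hd : (hMat t n P Q + (hMat t n P Q)ᵀ).det ≠ 0) :
    (hMat t' n' P (s⁻¹ • (Q - r • P)) + (hMat t' n' P (s⁻¹ • (Q - r • P)))ᵀ).det ≠ 0 := by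
  have h1 := add_transpose_eq_of_forall (hMat t' n' P (s⁻¹ • (Q - r • P))) (hMat t n P Q)
    (Matrix.fromBlocks 1 (r • 1) 0 (s • 1)) (fun v => by
      obtain ⟨w, hw⟩ : ∃ w : Fin N ⊕ Fin N → K,
        w = Matrix.fromBlocks (1 : Matrix (Fin N) (Fin N) K) (r • 1) 0 (s • 1) *ᵥ v := ⟨_, rfl⟩
      have h2 : ∀ i, w (Sum.inl i) = v (Sum.inl i) + r * v (Sum.inr i) := by
        intro i
        rw [hw, fromBlocks_mulVec, Sum.elim_inl, one_mulVec, smul_mulVec, one_mulVec]
        rfl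
      have h3 : ∀ i, w (Sum.inr i) = s * v (Sum.inr i) := by
        intro i
        rw [hw, fromBlocks_mulVec, Sum.elim_inr, zero_mulVec, zero_add, smul_mulVec, one_mulVec]
        rfl
      rw [← hw, dot_hMat, dot_hMat]
      refine Finset.sum_congr rfl fun k _ => Finset.sum_congr rfl fun l _ => ?_
      simp only [epsB, delB, h2, h3, Matrix.smul_apply, Matrix.sub_apply, smul_eq_mul]
      rw [ht, hn]
      field_simp
      ring)
  intro h0
  apply hd
  rw [h1, Matrix.det_mul, Matrix.det_mul, h0, mul_zero, zero_mul]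

theorem substM_hPoly {G : Matrix (Fin N ⊕ Fin N) (Fin N ⊕ Fin N) K} (p q p' q' : Matrix (Fin N) (Fin N) K)
    (h : Gᵀ * hMat t n p q * G = hMat t n p' q') :
    substM G (hPoly t n p q) = hPoly t n p' q' := by
  rw [hPoly_eq, hPoly_eq, genV, substM_quad, h]

/-- The isomorphisms given by an invertible matrix over the quadratic algebra. -/
theorem hermIso_substM {G Gi : Matrix (Fin N ⊕ Fin N) (Fin N ⊕ Fin N) K} (h1 : G * Gi = 1)
    (h2 : Gi * G = 1) (hG : ∀ v, G *ᵥ omV t n v = omV t n (G *ᵥ v)) :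
    HermIso t n t n (substM G) (substM Gi) := by
  have hGi : ∀ v, Gi *ᵥ omV t n v = omV t n (Gi *ᵥ v) := by
    intro v
    have h3 : v = G *ᵥ (Gi *ᵥ v) := by rw [mulVec_mulVec, h1, one_mulVec]
    conv_lhs => rw [h3]
    rw [← hG, mulVec_mulVec, h2, one_mulVec]
  refine ⟨fun f => ?_, fun f => ?_, fun p q => ?_, fun p q => ?_⟩
  · rw [substM_comp, h2, substM_one]
  · rw [substM_comp, h1, substM_one]
  · obtain ⟨p', q', h⟩ := conj_hMat t n p q G hG
    exact ⟨p', q', substM_hPoly p q p' q' h⟩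
  · obtain ⟨p', q', h⟩ := conj_hMat t n p q Gi hGi
    exact ⟨p', q', substM_hPoly p q p' q' h⟩

end Iso

end Pool.Agent.Lib.MP_6a3dac_ag
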