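import Pool.Agent.Lib.MP_6a3dac_ag.Mg.G002

/-!
# Independence of the equations away from the exceptional divisor
-/

set_option autoImplicit false

namespace Pool.Agent.Lib.MP_6a3dac_ag

open MvPolynomial IsLocalRing Matrix

variable {O : Type} [CommRing O] [IsDomain O] [IsDiscreteValuationRing O] {n : ℕ}

/-- The Euler derivation multiplies homogeneous quadratic polynomials by two. -/
theorem sum_X_mul_pderiv_quadPoly {R : Type*} [CommRing R] (A : Matrix (Fin n) (Fin n) R) :
    ∑ l, X l * pderiv l (quadPoly A) = 2 * quadPoly A := by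
  rw [two_mul_quadPoly]
  conv_rhs => rw [quadPoly]
  refine Finset.sum_congr rfl fun l _ => ?_
  rw [pderiv_quadPoly, Finset.mul_sum]
  refine Finset.sum_congr rfl fun j _ => by ring

theorem C_det_mul_X_mem {R : Type*} [CommRing R] (A : Matrix (Fin n) (Fin n) R)
    (Y : Ideal (MvPolynomial (Fin n) R)) (hder : ∀ l, pderiv l (quadPoly A) ∈ Y) (i : Fin n) :
    C (A + Aᵀ).det * X i ∈ Y := by
  set G := (A + Aᵀ) with hG
  have h1 : C G.det * X i = ∑ l, C (G.adjugate i l) * pderiv l (quadPoly A) := by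
    simp_rw [pderiv_quadPoly, Finset.mul_sum]
    rw [Finset.sum_comm]
    have h2 : ∀ j, ∑ l, C (G.adjugate i l) * (C (G l j) * X j) =
        C ((G.adjugate * G) i j) * (X j : MvPolynomial (Fin n) R) := by
      intro j
      rw [Matrix.mul_apply, map_sum, Finset.sum_mul]
      refine Finset.sum_congr rfl fun l _ => ?_
      rw [map_mul]; ring
    rw [← hG]
    simp_rw [h2, Matrix.adjugate_mul, Matrix.smul_apply, Matrix.one_apply]
    rw [Finset.sum_eq_single i]
    · simp
    · intro j _ hj; simp [Ne.symm hj]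
    · simp
  rw [h1]
  exact Y.sum_mem fun l _ => Y.mul_mem_left _ (hder l)

/-- A prime ideal of a polynomial ring over a discrete valuation ring containing a nonzero
constant contains the maximal ideal. -/
theorem C_mem_of_C_mem {σ : Type*} (Y : Ideal (MvPolynomial σ O)) [hYp : Y.IsPrime] {d : O}
    (hd : d ≠ 0) (hdY : C d ∈ Y) : ∀ x ∈ maximalIdeal O, C x ∈ Y := by
  have hp : (Y.comap (C : O →+* MvPolynomial σ O)).IsPrime := Ideal.IsPrime.comap _
  have hne : Y.comap (C : O →+* MvPolynomial σ O) ≠ ⊥ := by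
    intro hbot
    have : d ∈ Y.comap (C : O →+* MvPolynomial σ O) := hdY
    rw [hbot] at this
    exact hd this
  have h1 := IsLocalRing.eq_maximalIdeal (hp.isMaximal hne)
  intro x hx
  rw [← h1] at hx
  exact hx

theorem indep_A {π : O} (hπ : Irreducible π) {q c h : Matrix (Fin n) (Fin n) O}
    {W : Finset (Fin n)} (H : SplitForm π q c h W) (Y : Ideal (MvPolynomial (Fin n) O))
    [hYp : Y.IsPrime] {κ : Fin n ⊕ Fin 3} (hκ : IsGood W κ) (hκY : baseP π h κ ∉ Y) (j : Fin n)
    (hjY : X j - 1 ∈ Y) (hAY : quadPoly (q + π • (c + h)) ∈ Y)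
    {s a b : MvPolynomial (Fin n) O} (hs : s ∉ Y)
    (hsab : s * (a * quadPoly (q + π • (c + h)) + b * (X j - 1)) ∈ Y ^ 2) :
    a ∈ Y ∧ b ∈ Y := by
  classical
  set A := q + π • (c + h) with hA
  have hXj : (X j : MvPolynomial (Fin n) O) ∉ Y := by
    intro hX
    have h1 := Y.sub_mem hX hjY
    rw [sub_sub_cancel] at h1
    exact hYp.ne_top ((Ideal.eq_top_iff_one _).mpr h1)
  have hX1 : ∀ p, p * X j ∈ Y → p ∈ Y := fun p hp => (hYp.mem_or_mem hp).resolve_right hXj
  have hder : ∀ l, pderiv l (a * quadPoly A + b * (X j - 1)) ∈ Y :=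
    fun l => derivation_mem Y (pderiv l) hs hsab
  have hder2 : ∀ l, a * pderiv l (quadPoly A) + b * pderiv l (X j) ∈ Y := by
    intro l
    have h1 := hder l
    have h2 : pderiv l (a * quadPoly A + b * (X j - 1)) =
        (a * pderiv l (quadPoly A) + b * pderiv l (X j)) +
          (pderiv l a * quadPoly A + pderiv l b * (X j - 1)) := by
      rw [map_add, pderiv_mul, pderiv_mul, map_sub, pderiv_one, sub_zero]
      ring
    rw [h2] at h1
    exact (Ideal.add_mem_iff_left _ (Y.add_mem (Y.mul_mem_left _ hAY)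
      (Y.mul_mem_left _ hjY))).mp h1
  have hb : b ∈ Y := by
    have h1 : ∑ l, X l * (a * pderiv l (quadPoly A) + b * pderiv l (X j)) ∈ Y :=
      Y.sum_mem fun l _ => Y.mul_mem_left _ (hder2 l)
    have h2 : ∑ l, X l * (a * pderiv l (quadPoly A) + b * pderiv l (X j)) =
        a * (2 * quadPoly A) + b * X j := by
      rw [← sum_X_mul_pderiv_quadPoly, Finset.mul_sum]
      have h3 : b * X j = ∑ l, X l * (b * pderiv l (X j)) := by
        rw [Finset.sum_eq_single j]
        · rw [pderiv_X_self]; ring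
        · intro l _ hl
          rw [pderiv_X_of_ne hl.symm]
          ring
        · simp
      rw [h3, ← Finset.sum_add_distrib]
      refine Finset.sum_congr rfl fun l _ => by ring
    rw [h2] at h1
    exact hX1 _ ((Ideal.add_mem_iff_right _ (Y.mul_mem_left _ (Y.mul_mem_left _ hAY))).mp h1)
  refine ⟨?_, hb⟩
  by_contra ha
  have hs' : s * a ∉ Y := fun hsa => (hYp.mem_or_mem hsa).elim hs ha
  have hsA : s * a * quadPoly A ∈ Y ^ 2 := by
    have h1 : s * a * quadPoly A = s * (a * quadPoly A + b * (X j - 1)) -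
        s * (b * (X j - 1)) := by ring
    rw [h1]
    refine Ideal.sub_mem _ hsab (Ideal.mul_mem_left _ _ ?_)
    rw [pow_two]
    exact Ideal.mul_mem_mul hb hjY
  have hderA : ∀ l, pderiv l (quadPoly A) ∈ Y := fun l => derivation_mem Y (pderiv l) hs' hsA
  have hdet : C (A + Aᵀ).det ∈ Y := hX1 _ (C_det_mul_X_mem A Y hderA j)
  have hmax := C_mem_of_C_mem Y H.det_ne hdet
  have hπm : π ∈ maximalIdeal O := by
    rw [hπ.maximalIdeal_eq]
    exact Ideal.mem_span_singleton_self _
  have hπY : C π ∈ Y := hmax π hπm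
  have hadd : quadPoly A = quadPoly q + C π * (quadPoly c + quadPoly h) := by
    simp only [quadPoly, hA, Finset.mul_sum, ← Finset.sum_add_distrib]
    refine Finset.sum_congr rfl fun i _ => Finset.sum_congr rfl fun j _ => ?_
    simp only [Matrix.add_apply, Matrix.smul_apply, smul_eq_mul, map_add, map_mul]
    ring
  have hXl : ∀ l, l ∉ W → (X l : MvPolynomial (Fin n) O) ∈ Y := by
    refine mem_of_rad C Y hmax q (fun l => l ∉ W) H.radq X ?_ ?_
    · intro l
      have h1 := hderA l
      rw [hadd, map_add, pderiv_C_mul] at h1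
      have h2 := (Ideal.add_mem_iff_left _ (Y.mul_mem_right _ hπY)).mp h1
      rwa [pderiv_quadPoly] at h2
    · rw [hadd] at hAY
      exact (Ideal.add_mem_iff_left _ (Y.mul_mem_right _ hπY)).mp hAY
  -- the form `h`
  have hq2 : quadPoly q ∈ Y ^ 2 := by
    refine Ideal.sum_mem _ fun i _ => Ideal.sum_mem _ fun j _ => ?_
    by_cases hij : i ∈ W ∨ j ∈ W
    · rw [H.q_zero i j hij]
      simp
    · push Not at hij
      rw [mul_assoc, pow_two]
      exact Ideal.mul_mem_left _ _ (Ideal.mul_mem_mul (hXl i hij.1) (hXl j hij.2))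
  have hc1 : quadPoly c ∈ Y := by
    refine Ideal.sum_mem _ fun i _ => Ideal.sum_mem _ fun j _ => ?_
    by_cases hij : i ∈ W ∨ j ∉ W
    · rw [H.c_zero i j hij]
      simp
    · push Not at hij
      exact Ideal.mul_mem_right _ _ (Ideal.mul_mem_left _ _ (hXl i hij.1))
  have hh : quadPoly h ∈ Y := by
    by_contra hh
    have h1 : s * a * quadPoly h ∉ Y := fun h2 => (hYp.mem_or_mem h2).elim hs' hh
    apply mul_C_notMem_sq hπ Y hπY h1
    have h2 : s * a * quadPoly h * C π = s * a * quadPoly A - s * a * quadPoly q -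
        s * a * (C π * quadPoly c) := by
      rw [hadd]; ring
    rw [h2]
    refine Ideal.sub_mem _ (Ideal.sub_mem _ hsA (Ideal.mul_mem_left _ _ hq2))
      (Ideal.mul_mem_left _ _ ?_)
    rw [pow_two]
    exact Ideal.mul_mem_mul hπY hc1
  apply hκY
  rcases κ with l | a'
  · exact hXl l hκ
  · fin_cases a'
    · exact absurd hκ (by simp [IsGood])
    · exact hπY
    · exact hh

end Pool.Agent.Lib.MP_6a3dac_ag
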