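import Pool.Agent.Lib.MP_6a3dac_ag.IndepA

/-!
# Independence of the equations of the blow-up along the exceptional divisor
-/

set_option autoImplicit false

namespace Pool.Agent.Lib.MP_6a3dac_ag

open MvPolynomial IsLocalRing Matrix

section Calc

variable {O : Type} [CommRing O] {n : ℕ}

theorem bigQuad_eq_rename (A : Matrix (Fin n) (Fin n) O) :
    bigQuad A = rename Sum.inl (quadPoly A) := by
  simp [bigQuad, quadPoly, map_sum]

theorem pderiv_inl_bigQuad (A : Matrix (Fin n) (Fin n) O) (l : Fin n) :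
    pderiv (Sum.inl l) (bigQuad A) = ∑ j, C ((A + Aᵀ) l j) * X (Sum.inl j) := by
  rw [bigQuad_eq_rename, pderiv_rename Sum.inl_injective, pderiv_quadPoly]
  simp [map_sum]

theorem pderiv_inr_bigQuad (A : Matrix (Fin n) (Fin n) O) (a : Fin 3) :
    pderiv (Sum.inr a) (bigQuad A) = 0 := by
  simp only [bigQuad, map_sum]
  refine Finset.sum_eq_zero fun i _ => Finset.sum_eq_zero fun j _ => ?_
  rw [pderiv_mul, pderiv_mul, pderiv_C, pderiv_X_of_ne (by simp), pderiv_X_of_ne (by simp)]
  ring

theorem derivation_bigQuad (D : Derivation O (MvPolynomial (Fin n ⊕ Fin 3) O)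
      (MvPolynomial (Fin n ⊕ Fin 3) O)) (w : Fin n → MvPolynomial (Fin n ⊕ Fin 3) O)
    (hw : ∀ i, D (X (Sum.inl i)) = w i * X (Sum.inl i)) (A : Matrix (Fin n) (Fin n) O)
    (m : MvPolynomial (Fin n ⊕ Fin 3) O) (hA : ∀ i j, A i j ≠ 0 → w i + w j = m) :
    D (bigQuad A) = m * bigQuad A := by
  simp only [bigQuad, map_sum, Finset.mul_sum]
  refine Finset.sum_congr rfl fun i _ => Finset.sum_congr rfl fun j _ => ?_
  by_cases hij : A i j = 0
  · rw [hij, C_0, zero_mul, zero_mul, map_zero, mul_zero]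
  · rw [← hA i j hij, Derivation.leibniz, Derivation.leibniz, hw, hw]
    have h1 : D (C (A i j)) = 0 := by
      rw [← algebraMap_eq]
      exact D.map_algebraMap _
    rw [h1]
    simp only [smul_eq_mul]
    ring

end Calc

variable {O : Type} [CommRing O] [IsDomain O] [IsDiscreteValuationRing O] {n : ℕ}

theorem indep_B {π : O} (hπ : Irreducible π) {q c h : Matrix (Fin n) (Fin n) O}
    {W : Finset (Fin n)} (H : SplitForm π q c h W) (Y : Ideal (MvPolynomial (Fin n ⊕ Fin 3) O))
    [hYp : Y.IsPrime] {κ : Fin n ⊕ Fin 3} (hκ : IsGood W κ) {j : Fin n} (hj : j ∈ W)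
    (hfY : ∀ i, eqs π q c h κ j i ∈ Y) (hE : X (Sum.inr 0) ∈ Y)
    {s : MvPolynomial (Fin n ⊕ Fin 3) O} (hs : s ∉ Y)
    (a : Fin 5 → MvPolynomial (Fin n ⊕ Fin 3) O)
    (hsa : s * ∑ i, a i * eqs π q c h κ j i ∈ Y ^ 2) : ∀ i, a i ∈ Y := by
  classical
  set E : MvPolynomial (Fin n ⊕ Fin 3) O := X (Sum.inr 0) with hEdef
  set P' : MvPolynomial (Fin n ⊕ Fin 3) O := X (Sum.inr 1) with hPdef
  set H' : MvPolynomial (Fin n ⊕ Fin 3) O := X (Sum.inr 2) with hHdef
  have f1 : eqs π q c h κ j 0 = P' * E - C π := rfl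
  have f2 : eqs π q c h κ j 1 = H' * E - bigQuad h := rfl
  have f3 : eqs π q c h κ j 2 = bigQuad q + P' * (bigQuad c + H') := rfl
  have f4 : eqs π q c h κ j 3 = X κ - 1 := rfl
  have f5 : eqs π q c h κ j 4 = X (Sum.inl j) - 1 := rfl
  -- the basic estimate for derivations
  have hD : ∀ D : Derivation O (MvPolynomial (Fin n ⊕ Fin 3) O) (MvPolynomial (Fin n ⊕ Fin 3) O),
      ∑ i, a i * D (eqs π q c h κ j i) ∈ Y := by
    intro D
    have h1 := derivation_mem Y D hs hsa
    have h2 : D (∑ i, a i * eqs π q c h κ j i) = ∑ i, a i * D (eqs π q c h κ j i) +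
        ∑ i, D (a i) * eqs π q c h κ j i := by
      rw [map_sum, ← Finset.sum_add_distrib]
      refine Finset.sum_congr rfl fun i _ => ?_
      rw [Derivation.leibniz, smul_eq_mul, smul_eq_mul]
      ring
    rw [h2] at h1
    exact (Ideal.add_mem_iff_left _ (Y.sum_mem fun i _ => Y.mul_mem_left _ (hfY i))).mp h1
  have hone : (1 : MvPolynomial (Fin n ⊕ Fin 3) O) ∉ Y :=
    fun h1 => hYp.ne_top ((Ideal.eq_top_iff_one _).mpr h1)
  have hXκ : X κ ∉ Y := by
    intro hX
    have h1 := Y.sub_mem hX (f4 ▸ hfY 3)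
    rw [sub_sub_cancel] at h1
    exact hone h1
  have hXj : X (Sum.inl j) ∉ Y := by
    intro hX
    have h1 := Y.sub_mem hX (f5 ▸ hfY 4)
    rw [sub_sub_cancel] at h1
    exact hone h1
  have hπY : C π ∈ Y := by
    have h1 := Y.sub_mem (Y.mul_mem_left P' hE) (f1 ▸ hfY 0)
    rwa [sub_sub_cancel] at h1
  have hmax : ∀ x ∈ maximalIdeal O, C x ∈ Y := C_mem_of_C_mem Y hπ.ne_zero hπY
  -- first Euler derivation
  have h3 : a 3 ∈ Y := by
    let w : Fin n ⊕ Fin 3 → MvPolynomial (Fin n ⊕ Fin 3) O :=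
      Sum.elim (fun i => if i ∈ W then 0 else 1) ![-1, 1, 1]
    let D := mkDerivation O fun κ' => w κ' * X κ'
    have hDX : ∀ κ', D (X κ') = w κ' * X κ' := fun κ' => mkDerivation_X _ _ _
    have hDC : ∀ r, D (C r) = 0 := fun r => derivation_C D r
    have hDq : D (bigQuad q) = 2 * bigQuad q := by
      refine derivation_bigQuad D (fun i => w (Sum.inl i)) (fun i => hDX _) q 2 fun i l hil => ?_
      have hi : i ∉ W := fun hi => hil (H.q_zero i l (Or.inl hi))
      have hl : l ∉ W := fun hl => hil (H.q_zero i l (Or.inr hl))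
      simp only [w, Sum.elim_inl, if_neg hi, if_neg hl]
      norm_num
    have hDc : D (bigQuad c) = 1 * bigQuad c := by
      refine derivation_bigQuad D (fun i => w (Sum.inl i)) (fun i => hDX _) c 1 fun i l hil => ?_
      have hi : i ∉ W := fun hi => hil (H.c_zero i l (Or.inl hi))
      have hl : l ∈ W := by
        by_contra hl
        exact hil (H.c_zero i l (Or.inr hl))
      simp only [w, Sum.elim_inl, if_neg hi, if_pos hl]
      norm_num
    have hDh : D (bigQuad h) = 0 * bigQuad h := by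
      refine derivation_bigQuad D (fun i => w (Sum.inl i)) (fun i => hDX _) h 0 fun i l hil => ?_
      have hi : i ∈ W := by
        by_contra hi
        exact hil (H.h_zero i l (Or.inl hi))
      have hl : l ∈ W := by
        by_contra hl
        exact hil (H.h_zero i l (Or.inr hl))
      simp only [w, Sum.elim_inl, if_pos hi, if_pos hl]
      norm_num
    have hDE : D E = -E := by
      have := hDX (Sum.inr 0)
      simpa [w] using this
    have hDP : D P' = P' := by
      have := hDX (Sum.inr 1)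
      simpa [w] using this
    have hDH : D H' = H' := by
      have := hDX (Sum.inr 2)
      simpa [w] using this
    have hDκ : D (X κ) = X κ := by
      rw [hDX]
      rcases κ with l | b
      · have hl : l ∉ W := hκ
        simp [w, hl]
      · fin_cases b
        · exact absurd hκ (by simp [IsGood])
        · simp [w]
        · simp [w]
    have hDj : D (X (Sum.inl j)) = 0 := by
      rw [hDX]
      simp [w, hj]
    have h1 := hD D
    rw [Fin.sum_univ_five, f1, f2, f3, f4, f5] at h1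
    simp only [map_sub, map_add, Derivation.leibniz, hDq, hDc, hDh, hDE, hDP, hDH, hDκ, hDj, hDC,
      smul_eq_mul, Derivation.map_one_eq_zero] at h1
    have h2 : a 3 * X κ = (a 0 * (P' * -E + E * P' - 0) + a 1 * (H' * -E + E * H' - 0 * bigQuad h) +
        a 2 * (2 * bigQuad q + (P' * (1 * bigQuad c + H') + (bigQuad c + H') * P')) +
        a 3 * (X κ - 0) + a 4 * (0 - 0)) -
        2 * a 2 * (bigQuad q + P' * (bigQuad c + H')) := by ring
    have h4 : a 3 * X κ ∈ Y := by
      rw [h2]
      exact Y.sub_mem h1 (Y.mul_mem_left _ (f3 ▸ hfY 2))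
    exact (hYp.mem_or_mem h4).resolve_right hXκ
  -- second Euler derivation
  have h4 : a 4 ∈ Y := by
    let w : Fin n ⊕ Fin 3 → MvPolynomial (Fin n ⊕ Fin 3) O :=
      Sum.elim (fun _ => 1) ![0, 0, 2]
    let D := mkDerivation O fun κ' => w κ' * X κ'
    have hDX : ∀ κ', D (X κ') = w κ' * X κ' := fun κ' => mkDerivation_X _ _ _
    have hDC : ∀ r, D (C r) = 0 := fun r => derivation_C D r
    have hDA : ∀ A, D (bigQuad A) = 2 * bigQuad A := by
      intro A
      refine derivation_bigQuad D (fun i => w (Sum.inl i)) (fun i => hDX _) A 2 fun i l _ => ?_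
      simp only [w, Sum.elim_inl]
      norm_num
    have hDE : D E = 0 := by
      have := hDX (Sum.inr 0)
      simpa [w] using this
    have hDP : D P' = 0 := by
      have := hDX (Sum.inr 1)
      simpa [w] using this
    have hDH : D H' = 2 * H' := by
      have := hDX (Sum.inr 2)
      simpa [w] using this
    have hDj : D (X (Sum.inl j)) = X (Sum.inl j) := by
      rw [hDX]
      simp [w]
    have h1 := hD D
    rw [Fin.sum_univ_five, f1, f2, f3, f4, f5] at h1
    simp only [map_sub, map_add, Derivation.leibniz, hDA, hDE, hDP, hDH, hDj, hDC,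
      smul_eq_mul, Derivation.map_one_eq_zero] at h1
    have h2 : a 4 * X (Sum.inl j) = (a 0 * (P' * 0 + E * 0 - 0) +
        a 1 * (H' * 0 + E * (2 * H') - 2 * bigQuad h) +
        a 2 * (2 * bigQuad q + (P' * (2 * bigQuad c + 2 * H') + (bigQuad c + H') * 0)) +
        a 3 * (D (X κ) - 0) + a 4 * (X (Sum.inl j) - 0)) -
        2 * a 1 * (H' * E - bigQuad h) -
        2 * a 2 * (bigQuad q + P' * (bigQuad c + H')) - a 3 * D (X κ) := by ring
    have h5 : a 4 * X (Sum.inl j) ∈ Y := by
      rw [h2]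
      exact Y.sub_mem (Y.sub_mem (Y.sub_mem h1 (Y.mul_mem_left _ (f2 ▸ hfY 1)))
        (Y.mul_mem_left _ (f3 ▸ hfY 2))) (Y.mul_mem_right _ h3)
    exact (hYp.mem_or_mem h5).resolve_right hXj
  -- the remaining three equations
  have hD3 : ∀ D : Derivation O (MvPolynomial (Fin n ⊕ Fin 3) O) (MvPolynomial (Fin n ⊕ Fin 3) O),
      a 0 * D (P' * E - C π) + a 1 * D (H' * E - bigQuad h) +
        a 2 * D (bigQuad q + P' * (bigQuad c + H')) ∈ Y := by
    intro D
    have h1 := hD D
    rw [Fin.sum_univ_five, f1, f2, f3] at h1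
    exact (Ideal.add_mem_iff_left _ (Y.mul_mem_right _ h3)).mp
      ((Ideal.add_mem_iff_left _ (Y.mul_mem_right _ h4)).mp h1)
  have hdl : ∀ l : Fin n, -(a 1 * ∑ i, C ((h + hᵀ) l i) * X (Sum.inl i)) +
      a 2 * (∑ i, C ((q + qᵀ) l i) * X (Sum.inl i)) +
      a 2 * P' * ∑ i, C ((c + cᵀ) l i) * X (Sum.inl i) ∈ Y := by
    intro l
    have h1 := hD3 (pderiv (Sum.inl l))
    have e1 : pderiv (Sum.inl l) (P' * E - C π) = 0 := by
      rw [map_sub, pderiv_mul, pderiv_C, hPdef, hEdef, pderiv_X_of_ne (by simp),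
        pderiv_X_of_ne (by simp)]
      ring
    have e2 : pderiv (Sum.inl l) (H' * E - bigQuad h) =
        -∑ i, C ((h + hᵀ) l i) * X (Sum.inl i) := by
      rw [map_sub, pderiv_mul, pderiv_inl_bigQuad, hHdef, hEdef, pderiv_X_of_ne (by simp),
        pderiv_X_of_ne (by simp)]
      ring
    have e3 : pderiv (Sum.inl l) (bigQuad q + P' * (bigQuad c + H')) =
        ∑ i, C ((q + qᵀ) l i) * X (Sum.inl i) + P' * ∑ i, C ((c + cᵀ) l i) * X (Sum.inl i) := by
      rw [map_add, pderiv_mul, map_add, pderiv_inl_bigQuad, pderiv_inl_bigQuad, hPdef, hHdef,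
        pderiv_X_of_ne (by simp), pderiv_X_of_ne (by simp)]
      ring
    rw [e1, e2, e3] at h1
    have h2 : -(a 1 * ∑ i, C ((h + hᵀ) l i) * X (Sum.inl i)) +
      a 2 * (∑ i, C ((q + qᵀ) l i) * X (Sum.inl i)) +
      a 2 * P' * ∑ i, C ((c + cᵀ) l i) * X (Sum.inl i) =
        a 0 * 0 + a 1 * (-∑ i, C ((h + hᵀ) l i) * X (Sum.inl i)) +
        a 2 * (∑ i, C ((q + qᵀ) l i) * X (Sum.inl i) +
          P' * ∑ i, C ((c + cᵀ) l i) * X (Sum.inl i)) := by ring
    rw [h2]
    exact h1
  have hquad : ∀ A : Matrix (Fin n) (Fin n) O, bigQuad A =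
      ∑ i, ∑ l, C (A i l) * X (Sum.inl i) * X (Sum.inl l) := fun A => rfl
  have h2 : a 2 ∈ Y := by
    by_contra h2
    have hPY : P' ∈ Y := by
      have h1 := hD3 (pderiv (Sum.inr 2))
      have e1 : pderiv (Sum.inr 2) (P' * E - C π) = 0 := by
        rw [map_sub, pderiv_mul, pderiv_C, hPdef, hEdef, pderiv_X_of_ne (by simp),
          pderiv_X_of_ne (by simp)]
        ring
      have e2 : pderiv (Sum.inr 2) (H' * E - bigQuad h) = E := by
        rw [map_sub, pderiv_mul, pderiv_inr_bigQuad, hHdef, hEdef, pderiv_X_self,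
          pderiv_X_of_ne (by simp)]
        ring
      have e3 : pderiv (Sum.inr 2) (bigQuad q + P' * (bigQuad c + H')) = P' := by
        rw [map_add, pderiv_mul, map_add, pderiv_inr_bigQuad, pderiv_inr_bigQuad, hPdef, hHdef,
          pderiv_X_of_ne (by simp), pderiv_X_self]
        ring
      rw [e1, e2, e3, mul_zero, zero_add] at h1
      exact (hYp.mem_or_mem ((Ideal.add_mem_iff_right _ (Y.mul_mem_left _ hE)).mp h1)).resolve_left
        h2
    have hcH : bigQuad c + H' ∈ Y := by
      have h1 := hD3 (pderiv (Sum.inr 1))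
      have e1 : pderiv (Sum.inr 1) (P' * E - C π) = E := by
        rw [map_sub, pderiv_mul, pderiv_C, hPdef, hEdef, pderiv_X_self,
          pderiv_X_of_ne (by simp)]
        ring
      have e2 : pderiv (Sum.inr 1) (H' * E - bigQuad h) = 0 := by
        rw [map_sub, pderiv_mul, pderiv_inr_bigQuad, hHdef, hEdef, pderiv_X_of_ne (by simp),
          pderiv_X_of_ne (by simp)]
        ring
      have e3 : pderiv (Sum.inr 1) (bigQuad q + P' * (bigQuad c + H')) = bigQuad c + H' := by
        rw [map_add, pderiv_mul, map_add, pderiv_inr_bigQuad, pderiv_inr_bigQuad, hPdef, hHdef,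
          pderiv_X_self, pderiv_X_of_ne (by simp)]
        ring
      rw [e1, e2, e3, mul_zero, add_zero] at h1
      exact (hYp.mem_or_mem ((Ideal.add_mem_iff_right _ (Y.mul_mem_left _ hE)).mp h1)).resolve_left
        h2
    have hqY : bigQuad q ∈ Y :=
      (Ideal.add_mem_iff_left _ (Y.mul_mem_right _ hPY)).mp (f3 ▸ hfY 2)
    have hXl : ∀ l, l ∉ W → (X (Sum.inl l) : MvPolynomial (Fin n ⊕ Fin 3) O) ∈ Y := by
      refine mem_of_rad C Y hmax q (fun l => l ∉ W) H.radq (fun l => X (Sum.inl l)) ?_ ?_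
      · intro l
        by_cases hl : l ∈ W
        · have h5 : ∀ i, (q + qᵀ) l i = 0 := by
            intro i
            rw [Matrix.add_apply, Matrix.transpose_apply, H.q_zero l i (Or.inl hl),
              H.q_zero i l (Or.inr hl), add_zero]
          simp only [h5, C_0, zero_mul, Finset.sum_const_zero]
          exact Y.zero_mem
        · have h5 : ∀ i, (h + hᵀ) l i = 0 := by
            intro i
            rw [Matrix.add_apply, Matrix.transpose_apply, H.h_zero l i (Or.inl hl),
              H.h_zero i l (Or.inr hl), add_zero]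
          have h6 := hdl l
          simp only [h5, C_0, zero_mul, Finset.sum_const_zero, mul_zero, neg_zero, zero_add] at h6
          have h7 := (Ideal.add_mem_iff_left _ (Y.mul_mem_right _ (Y.mul_mem_left (a 2) hPY))).mp h6
          exact (hYp.mem_or_mem h7).resolve_left h2
      · exact hqY
    have hcY : bigQuad c ∈ Y := by
      rw [hquad]
      refine Ideal.sum_mem _ fun i _ => Ideal.sum_mem _ fun l _ => ?_
      by_cases hil : i ∈ W ∨ l ∉ W
      · rw [H.c_zero i l hil]
        simp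
      · push Not at hil
        exact Ideal.mul_mem_right _ _ (Ideal.mul_mem_left _ _ (hXl i hil.1))
    have hHY : H' ∈ Y := (Ideal.add_mem_iff_right _ hcY).mp hcH
    apply hXκ
    rcases κ with l | b
    · exact hXl l hκ
    · fin_cases b
      · exact absurd hκ (by simp [IsGood])
      · exact hPY
      · exact hHY
  have h1 : a 1 ∈ Y := by
    by_contra h1
    have hhY : bigQuad h ∈ Y := by
      have h5 := Y.sub_mem (Y.mul_mem_left H' hE) (f2 ▸ hfY 1)
      rwa [sub_sub_cancel] at h5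
    refine hXj (mem_of_rad C Y hmax h (fun l => l ∈ W) H.radh (fun l => X (Sum.inl l)) ?_ hhY j hj)
    intro l
    have h6 := hdl l
    have h7 := (Ideal.add_mem_iff_left _ (Y.mul_mem_right _ (Y.mul_mem_right P' h2))).mp h6
    have h8 := (Ideal.add_mem_iff_left _ (Y.mul_mem_right _ h2)).mp h7
    rw [neg_mem_iff] at h8
    exact (hYp.mem_or_mem h8).resolve_left h1
  have h0 : a 0 ∈ Y := by
    by_contra h0
    have hPY : P' ∈ Y := by
      have h5 := hD3 (pderiv (Sum.inr 0))
      have h6 := (Ideal.add_mem_iff_left _ (Y.mul_mem_right _ h1)).mp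
        ((Ideal.add_mem_iff_left _ (Y.mul_mem_right _ h2)).mp h5)
      have e1 : pderiv (Sum.inr 0) (P' * E - C π) = P' := by
        rw [map_sub, pderiv_mul, pderiv_C, hPdef, hEdef, pderiv_X_self,
          pderiv_X_of_ne (by simp)]
        ring
      rw [e1] at h6
      exact (hYp.mem_or_mem h6).resolve_left h0
    have hs0 : s * a 0 ∉ Y := fun h5 => (hYp.mem_or_mem h5).elim hs h0
    apply mul_C_notMem_sq hπ Y hπY hs0
    rw [Fin.sum_univ_five] at hsa
    have h5 : s * a 0 * C π = s * a 0 * (P' * E) - (s * (a 0 * eqs π q c h κ j 0 +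
        a 1 * eqs π q c h κ j 1 + a 2 * eqs π q c h κ j 2 + a 3 * eqs π q c h κ j 3 +
        a 4 * eqs π q c h κ j 4) - s * (a 1 * eqs π q c h κ j 1) - s * (a 2 * eqs π q c h κ j 2) -
        s * (a 3 * eqs π q c h κ j 3) - s * (a 4 * eqs π q c h κ j 4)) := by
      rw [f1]; ring
    have hmem : ∀ i, a i ∈ Y → s * (a i * eqs π q c h κ j i) ∈ Y ^ 2 := by
      intro i hi
      rw [pow_two]
      exact Ideal.mul_mem_left _ _ (Ideal.mul_mem_mul hi (hfY i))
    rw [h5]
    refine Ideal.sub_mem _ ?_ (Ideal.sub_mem _ (Ideal.sub_mem _ (Ideal.sub_mem _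
      (Ideal.sub_mem _ hsa (hmem 1 h1)) (hmem 2 h2)) (hmem 3 h3)) (hmem 4 h4))
    rw [pow_two]
    exact Ideal.mul_mem_left _ _ (Ideal.mul_mem_mul hPY hE)
  intro i
  fin_cases i
  · exact h0
  · exact h1
  · exact h2
  · exact h3
  · exact h4

end Pool.Agent.Lib.MP_6a3dac_ag
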