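import Pool.Agent.Lib.MP_6a3dac_ag.Mg.G002

/-!
# Pairs of singular vectors in the radical
-/

set_option autoImplicit false

namespace Pool.Agent.Lib.MP_6a3dac_ag

open Matrix Module IsLocalRing

section Fin2

theorem exists_pair_span {k V : Type*} [Field k] [AddCommGroup V] [Module k V]
    [FiniteDimensional k V] (S : Submodule k V) (h : finrank k S ≤ 2) :
    ∃ v ∈ S, ∃ w ∈ S, S ≤ Submodule.span k {v, w} := by
  obtain ⟨d, hd⟩ : ∃ d, finrank k S = d := ⟨_, rfl⟩
  let b : Basis (Fin d) k S := Module.finBasisOfFinrankEq k S hd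
  rw [hd] at h
  have hx : ∀ x : S, (x : V) = ∑ i, b.repr x i • (b i : V) := by
    intro x
    have h1 := congrArg (Submodule.subtype S) (b.sum_repr x)
    rw [map_sum] at h1
    exact h1.symm
  interval_cases d
  · refine ⟨0, S.zero_mem, 0, S.zero_mem, fun x hxS => ?_⟩
    have := hx ⟨x, hxS⟩
    simp only [Finset.univ_eq_empty, Finset.sum_empty] at this
    rw [this]
    exact Submodule.zero_mem _
  · refine ⟨b 0, (b 0).2, 0, S.zero_mem, fun x hxS => ?_⟩
    have := hx ⟨x, hxS⟩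
    rw [Fin.sum_univ_one] at this
    change x = _ at this
    rw [this]
    exact Submodule.smul_mem _ _ (Submodule.subset_span (by simp))
  · refine ⟨b 0, (b 0).2, b 1, (b 1).2, fun x hxS => ?_⟩
    have := hx ⟨x, hxS⟩
    rw [Fin.sum_univ_two] at this
    change x = _ at this
    rw [this]
    exact Submodule.add_mem _ (Submodule.smul_mem _ _ (Submodule.subset_span (by simp)))
      (Submodule.smul_mem _ _ (Submodule.subset_span (by simp)))

end Fin2

section Aniso

variable {O : Type} [CommRing O] [IsDomain O] [IsDiscreteValuationRing O]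
  [Finite (ResidueField O)] {m : ℕ} {π : O}

/-- The quadratic form `q / π` on the singular radical modulo `π` is anisotropic. -/
def RadAniso (π : O) (A : Matrix (Fin m) (Fin m) O) : Prop :=
  ∀ x : Fin m → O, (∀ i, π ∣ ((A + Aᵀ) *ᵥ x) i) → π ^ 2 ∣ qf A x → ∀ i, π ∣ x i

variable (hπ : Irreducible π) {A : Matrix (Fin m) (Fin m) O} (hA : RadAniso π A)

include hπ in
omit [Finite (ResidueField O)] in
theorem exists_lift_null {v : Fin m → ResidueField O} (hv : v ∈ nullSub (A.map (residue O))) :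
    ∃ r : Fin m → O, residue O ∘ r = v ∧ (∀ i, π ∣ ((A + Aᵀ) *ᵥ r) i) ∧ π ∣ qf A r := by
  choose r hr using fun i => residue_surjective (R := O) (v i)
  have hr' : residue O ∘ r = v := funext hr
  have hres0 : ∀ x : O, residue O x = 0 ↔ π ∣ x := fun x =>
    residue_eq_zero_iff_dvd hπ.maximalIdeal_eq
  refine ⟨r, hr', fun i => ?_, ?_⟩
  · rw [← hres0]
    have h1 := congrFun hv.1 i
    rw [← map_add_transpose, ← hr', map_mulVec'] at h1
    exact h1
  · rw [← hres0]
    have h1 := hv.2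
    rw [← hr', qf_map] at h1
    exact h1

omit [IsDomain O] [IsDiscreteValuationRing O] [Finite (ResidueField O)] in
theorem qf_three (a b c : O) (x y z : Fin m → O) :
    qf A (a • x + b • y + c • z) = a ^ 2 * qf A x + b ^ 2 * qf A y + c ^ 2 * qf A z +
      a * b * (x ⬝ᵥ (A + Aᵀ) *ᵥ y) + a * c * (x ⬝ᵥ (A + Aᵀ) *ᵥ z) +
      b * c * (y ⬝ᵥ (A + Aᵀ) *ᵥ z) := by
  rw [qf_add, qf_add, qf_smul, qf_smul, qf_smul]
  simp only [mulVec_smul, dotProduct_smul, add_dotProduct, smul_dotProduct, smul_eq_mul]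
  ring

include hπ hA in
theorem finrank_null_le_two : finrank (ResidueField O) (nullSub (A.map (residue O))) ≤ 2 := by
  by_contra hcon
  push Not at hcon
  have hres0 : ∀ x : O, residue O x = 0 ↔ π ∣ x := fun x =>
    residue_eq_zero_iff_dvd hπ.maximalIdeal_eq
  let b := Module.finBasis (ResidueField O) (nullSub (A.map (residue O)))
  let v : Fin 3 → nullSub (A.map (residue O)) := fun i => b (Fin.castLE hcon i)
  have hv : LinearIndependent (ResidueField O) v :=
    b.linearIndependent.comp _ (Fin.castLE_injective hcon)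
  rw [Fintype.linearIndependent_iff] at hv
  choose r hr1 hr2 hr3 using fun i => exists_lift_null hπ (v i).2
  choose α hα using hr3
  have hdot : ∀ i j, π ∣ r i ⬝ᵥ (A + Aᵀ) *ᵥ r j := by
    intro i j
    exact Finset.dvd_sum fun l _ => Dvd.dvd.mul_left (hr2 j l) _
  choose β hβ using hdot
  -- the ternary form
  let A₄ : Matrix (Fin 3) (Fin 3) O := !![α 0, β 0 1, β 0 2; 0, α 1, β 1 2; 0, 0, α 2]
  have hA₄ : ∀ c : Fin 3 → O, qf A (c 0 • r 0 + c 1 • r 1 + c 2 • r 2) = π * qf A₄ c := by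
    intro c
    rw [qf_three, hα, hα, hα, hβ, hβ, hβ, qf_eq_sum]
    simp only [Fin.sum_univ_three, A₄, Matrix.of_apply, Matrix.cons_val', Matrix.cons_val_zero,
      Matrix.cons_val_one, Matrix.cons_val, Matrix.empty_val', Matrix.cons_val_fin_one]
    ring
  obtain ⟨J, hJ, hJdim⟩ := exists_totSing (A₄.map (residue O))
  have hJne : J ≠ ⊥ := by
    intro h
    rw [h, finrank_bot] at hJdim
    omega
  obtain ⟨c, hcJ, hc0⟩ := Submodule.exists_mem_ne_zero_of_ne_bot hJne
  choose c' hc' using fun i => residue_surjective (R := O) (c i)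
  have hcc : residue O ∘ c' = c := funext hc'
  have h1 := hJ c hcJ
  rw [← hcc, qf_map, hres0] at h1
  have h2 := hA (c' 0 • r 0 + c' 1 • r 1 + c' 2 • r 2) (fun i => by
    simp only [mulVec_add, mulVec_smul, Pi.add_apply, Pi.smul_apply, smul_eq_mul]
    exact dvd_add (dvd_add (Dvd.dvd.mul_left (hr2 0 i) _) (Dvd.dvd.mul_left (hr2 1 i) _))
      (Dvd.dvd.mul_left (hr2 2 i) _)) (by
    rw [hA₄, pow_two]
    exact mul_dvd_mul_left _ h1)
  apply hc0
  have h3 := hv c (by
    apply Subtype.ext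
    rw [Fin.sum_univ_three]
    change c 0 • (v 0 : Fin m → ResidueField O) + c 1 • (v 1 : Fin m → ResidueField O) +
      c 2 • (v 2 : Fin m → ResidueField O) = 0
    rw [← hr1 0, ← hr1 1, ← hr1 2]
    ext i
    have h4 := (hres0 _).mpr (h2 i)
    simp only [Pi.add_apply, Pi.smul_apply, smul_eq_mul, map_add, map_mul, hc'] at h4
    exact h4)
  exact funext h3

include hπ hA in
/-- Two vectors with coefficients in an overring which are singular and in the radical modulo a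
prime ideal, and such that the form vanishes to second order on their span, are dependent. -/
theorem null_pair {P : Type} [CommRing P] (ι : O →+* P) (Y : Ideal P) [Y.IsPrime]
    (hι : ∀ x ∈ maximalIdeal O, ι x ∈ Y) (hns : ∀ s, s ∉ Y → s * ι π ∉ Y ^ 2)
    {x y : Fin m → P} (hx : ∀ i, ((A + Aᵀ).map ι *ᵥ x) i ∈ Y)
    (hy : ∀ i, ((A + Aᵀ).map ι *ᵥ y) i ∈ Y) {s : P} (hs : s ∉ Y)
    (h : ∀ ξ η : P, s * qf (A.map ι) (ξ • x + η • y) ∈ Y ^ 2) (i j : Fin m) :
    x i * y j - x j * y i ∈ Y := by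
  classical
  by_contra hij
  have hYp : Y.IsPrime := ‹_›
  have hres0 : ∀ x : O, residue O x = 0 ↔ π ∣ x := fun x =>
    residue_eq_zero_iff_dvd hπ.maximalIdeal_eq
  have hqx : qf (A.map ι) x ∈ Y := by
    have h1 := h 1 0
    rw [one_smul, zero_smul, add_zero] at h1
    exact (hYp.mem_or_mem (Ideal.pow_le_self two_ne_zero h1)).resolve_left hs
  have hqy : qf (A.map ι) y ∈ Y := by
    have h1 := h 0 1
    rw [one_smul, zero_smul, zero_add] at h1
    exact (hYp.mem_or_mem (Ideal.pow_le_self two_ne_zero h1)).resolve_left hs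
  -- the fraction field
  let κ := FractionRing (P ⧸ Y)
  let ψ : P →+* κ := (algebraMap (P ⧸ Y) κ).comp (Ideal.Quotient.mk Y)
  have hψ : ∀ p, ψ p = 0 ↔ p ∈ Y := by
    intro p
    simp only [ψ, RingHom.comp_apply]
    rw [FaithfulSMul.algebraMap_eq_zero_iff, Ideal.Quotient.eq_zero_iff_mem]
  let φ : O →+* κ := ψ.comp ι
  have hφ : ∀ x ∈ maximalIdeal O, φ x = 0 := fun x hx => (hψ _).mpr (hι x hx)
  let φ' : ResidueField O →+* κ := Ideal.Quotient.lift (maximalIdeal O) φ hφ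
  let : Algebra (ResidueField O) κ := φ'.toAlgebra
  have hcomp : ∀ x, algebraMap (ResidueField O) κ (residue O x) = φ x := fun x => rfl
  have hAφ : (A.map (residue O)).map (algebraMap (ResidueField O) κ) = A.map φ := by
    ext i j
    exact hcomp _
  have hAψ : (A.map ι).map ψ = A.map φ := by
    ext i j
    rfl
  -- the spanning vectors
  obtain ⟨v₀, hv₀, v₁, hv₁, hspan⟩ := exists_pair_span (nullSub (A.map (residue O)))
    (finrank_null_le_two hπ hA)
  obtain ⟨r₀, e₀, b₀, q₀⟩ := exists_lift_null hπ hv₀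
  obtain ⟨r₁, e₁, b₁, q₁⟩ := exists_lift_null hπ hv₁
  -- expansions
  have hexp : ∀ z : Fin m → P, (∀ i, ((A + Aᵀ).map ι *ᵥ z) i ∈ Y) → qf (A.map ι) z ∈ Y →
      ∃ a b : κ, ∀ l, ψ (z l) = a * φ (r₀ l) + b * φ (r₁ l) := by
    intro z hz hqz
    obtain ⟨T, ω, w, hw, hzw⟩ := exists_expansion (A.map (residue O)) (ψ ∘ z) (by
      rw [hAφ, ← hAψ, ← map_add_transpose, map_mulVec']
      ext l
      rw [Function.comp_apply, Pi.zero_apply, hψ, ← map_add_transpose]
      exact hz l) (by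
      rw [hAφ, ← hAψ, qf_map, hψ]
      exact hqz)
    have h1 : ∀ a ∈ T, ∃ c d : ResidueField O, w a = c • v₀ + d • v₁ := by
      intro a ha
      obtain ⟨c, d, hcd⟩ := Submodule.mem_span_pair.mp (hspan (hw a ha))
      exact ⟨c, d, hcd.symm⟩
    choose! c d hcd using h1
    refine ⟨∑ a ∈ T, ω a * algebraMap (ResidueField O) κ (c a),
      ∑ a ∈ T, ω a * algebraMap (ResidueField O) κ (d a), fun l => ?_⟩
    have h2 := congrFun hzw l
    rw [Function.comp_apply] at h2
    rw [h2, Finset.sum_apply, Finset.sum_mul, Finset.sum_mul, ← Finset.sum_add_distrib]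
    refine Finset.sum_congr rfl fun a ha => ?_
    rw [Pi.smul_apply, Function.comp_apply, hcd a ha, Pi.add_apply, Pi.smul_apply, Pi.smul_apply,
      ← e₀, ← e₁, Function.comp_apply, Function.comp_apply, smul_eq_mul, smul_eq_mul, smul_eq_mul,
      map_add, map_mul, map_mul, hcomp, hcomp]
    ring
  obtain ⟨a, b, hab⟩ := hexp x hx hqx
  obtain ⟨c, d, hcd⟩ := hexp y hy hqy
  -- the minor is a unit
  have hminor : ψ (x i * y j - x j * y i) =
      (a * d - b * c) * φ (r₀ i * r₁ j - r₀ j * r₁ i) := by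
    rw [map_sub, map_mul, map_mul, hab, hab, hcd, hcd, map_sub, map_mul, map_mul]
    ring
  have hne : ψ (x i * y j - x j * y i) ≠ 0 := fun h => hij ((hψ _).mp h)
  rw [hminor] at hne
  have hunit : IsUnit (r₀ i * r₁ j - r₀ j * r₁ i) := by
    by_contra hnu
    exact (right_ne_zero_of_mul hne) (hφ _ ((IsLocalRing.mem_maximalIdeal _).mpr hnu))
  obtain ⟨u, hu⟩ := hunit
  have huu : φ (r₀ i * r₁ j - r₀ j * r₁ i) * φ ((u⁻¹ : Oˣ) : O) = 1 := by
    rw [← map_mul, ← hu, Units.mul_inv, map_one]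
  -- lifts of the coefficients
  let cf : (Fin m → P) → P × P := fun z =>
    (ι ((u⁻¹ : Oˣ) : O) * (z i * ι (r₁ j) - z j * ι (r₁ i)),
      ι ((u⁻¹ : Oˣ) : O) * (z j * ι (r₀ i) - z i * ι (r₀ j)))
  have hcf : ∀ (z : Fin m → P) (a b : κ), (∀ l, ψ (z l) = a * φ (r₀ l) + b * φ (r₁ l)) →
      ψ (cf z).1 = a ∧ ψ (cf z).2 = b := by
    intro z a b hz
    have hψι : ∀ x, ψ (ι x) = φ x := fun _ => rfl
    constructor
    · simp only [cf, map_mul, map_sub, hz, hψι]
      simp only [map_sub, map_mul] at huu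
      linear_combination a * huu
    · simp only [cf, map_mul, map_sub, hz, hψι]
      simp only [map_sub, map_mul] at huu
      linear_combination b * huu
  obtain ⟨ha1, hb1⟩ := hcf x a b hab
  obtain ⟨hc1, hd1⟩ := hcf y c d hcd
  obtain ⟨a', ha'⟩ : ∃ a', a' = (cf x).1 := ⟨_, rfl⟩
  obtain ⟨b', hb'⟩ : ∃ b', b' = (cf x).2 := ⟨_, rfl⟩
  obtain ⟨c', hc'⟩ : ∃ c', c' = (cf y).1 := ⟨_, rfl⟩
  obtain ⟨d', hd'⟩ : ∃ d', d' = (cf y).2 := ⟨_, rfl⟩
  rw [← ha'] at ha1
  rw [← hb'] at hb1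
  rw [← hc'] at hc1
  rw [← hd'] at hd1
  -- the determinant is not in `Y`
  have hdet : a' * d' - b' * c' ∉ Y := by
    rw [← hψ, map_sub, map_mul, map_mul, ha1, hb1, hc1, hd1]
    exact left_ne_zero_of_mul hne
  have hD : (a' * d' - b' * c') ∉ Y := hdet
  obtain ⟨Δ, hΔ⟩ : ∃ Δ, Δ = a' * d' - b' * c' := ⟨_, rfl⟩
  rw [← hΔ] at hdet
  obtain ⟨α, hα⟩ := q₀
  choose β hβ using b₀
  -- the remainder
  let w : Fin m → P := fun l => d' * x l + (-b') * y l - Δ * ι (r₀ l)
  have hw : ∀ l, w l ∈ Y := by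
    intro l
    rw [← hψ]
    simp only [w, map_sub, map_add, map_mul, map_neg]
    rw [hΔ, map_sub, map_mul, map_mul, ha1, hb1, hc1, hd1, hab, hcd]
    change d * (a * φ (r₀ l) + b * φ (r₁ l)) + -b * (c * φ (r₀ l) + d * φ (r₁ l)) -
      (a * d - b * c) * φ (r₀ l) = 0
    ring
  have hz : d' • x + (-b') • y = Δ • (ι ∘ r₀) + w := by
    ext l
    simp only [w, Pi.add_apply, Pi.smul_apply, smul_eq_mul, Function.comp_apply]
    ring
  have hπY : ι π ∈ Y := hι π (by rw [hπ.maximalIdeal_eq]; exact Ideal.mem_span_singleton_self π)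
  have h1 := h d' (-b')
  rw [hz, qf_add, qf_smul, qf_map, hα, map_mul] at h1
  have h2 : qf (A.map ι) w ∈ Y ^ 2 := by
    rw [qf_eq_sum, pow_two]
    refine Ideal.sum_mem _ fun k _ => Ideal.sum_mem _ fun l _ => ?_
    rw [mul_assoc]
    exact Ideal.mul_mem_left _ _ (Ideal.mul_mem_mul (hw k) (hw l))
  have h3 : (Δ • (ι ∘ r₀)) ⬝ᵥ (A.map ι + (A.map ι)ᵀ) *ᵥ w ∈ Y ^ 2 := by
    rw [dot_symm, mulVec_smul, ← map_add_transpose, map_mulVec', dotProduct, pow_two]
    refine Ideal.sum_mem _ fun l _ => ?_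
    simp only [Pi.smul_apply, Function.comp_apply, smul_eq_mul]
    rw [hβ, map_mul]
    have h4 : w l * (Δ * (ι π * ι (β l))) = (Δ * ι (β l)) * (w l * ι π) := by ring
    rw [h4]
    exact Ideal.mul_mem_left _ _ (Ideal.mul_mem_mul (hw l) hπY)
  have h5 : s * Δ ^ 2 * ι α * ι π ∈ Y ^ 2 := by
    have h6 : s * Δ ^ 2 * ι α * ι π = s * (Δ ^ 2 * (ι π * ι α) + qf (A.map ι) w +
        (Δ • (ι ∘ r₀)) ⬝ᵥ (A.map ι + (A.map ι)ᵀ) *ᵥ w) - s * (qf (A.map ι) w +
        (Δ • (ι ∘ r₀)) ⬝ᵥ (A.map ι + (A.map ι)ᵀ) *ᵥ w) := by ring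
    rw [h6]
    exact Ideal.sub_mem _ h1 (Ideal.mul_mem_left _ _ (Ideal.add_mem _ h2 h3))
  have hαm : π ∣ α := by
    by_contra hαu
    apply hns _ ?_ h5
    intro h6
    rcases hYp.mem_or_mem h6 with h7 | h7
    · rcases hYp.mem_or_mem h7 with h8 | h8
      · exact hs h8
      · exact hdet (hYp.mem_of_pow_mem _ h8)
    · have h8 : IsUnit α := by
        rw [← IsLocalRing.notMem_maximalIdeal, hπ.maximalIdeal_eq, Ideal.mem_span_singleton]
        exact hαu
      exact hYp.ne_top (Y.eq_top_of_isUnit_mem h7 (h8.map ι))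
  have h6 := hA r₀ (fun l => ⟨β l, hβ l⟩) (by
    rw [hα, pow_two]
    exact mul_dvd_mul_left _ hαm)
  have h7 : π ∣ r₀ i * r₁ j - r₀ j * r₁ i :=
    dvd_sub (Dvd.dvd.mul_right (h6 i) _) (Dvd.dvd.mul_right (h6 j) _)
  rw [← hu] at h7
  exact hπ.not_isUnit (isUnit_of_dvd_unit h7 u.isUnit)

end Aniso

end Pool.Agent.Lib.MP_6a3dac_ag
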