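import Pool.Agent.Lib.MP_6a3dac_ag.QWArith

/-!
# Quadratic extensions of number fields
-/

set_option autoImplicit false

namespace Pool.Agent.Lib.MP_6a3dac_ag

open NumberField

variable {E L : Type} [Field E] [NumberField E] [Field L] [NumberField L] [Algebra E L]

theorem involution_of_finrank (h2 : Module.finrank E L = 2) (σ : L ≃ₐ[E] L) (c : L) :
    σ (σ c) = c := by
  have : Algebra.IsQuadraticExtension E L := ⟨h2⟩
  have hcard : Nat.card (L ≃ₐ[E] L) = 2 := by rw [IsGalois.card_aut_eq_finrank, h2]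
  have h1 : σ ^ Nat.card (L ≃ₐ[E] L) = 1 := pow_card_eq_one'
  rw [hcard, pow_two] at h1
  exact DFunLike.congr_fun h1 c

theorem quadExt_of_finrank (h2 : Module.finrank E L = 2) (σ : L ≃ₐ[E] L) (hσ : σ ≠ 1) :
    QuadExt (𝓞 E) (𝓞 L) (RingOfIntegers.mapRingHom (σ : L →+* L)) := by
  have : Algebra.IsQuadraticExtension E L := ⟨h2⟩
  have hcard : Nat.card (L ≃ₐ[E] L) = 2 := by rw [IsGalois.card_aut_eq_finrank, h2]
  refine ⟨fun c => ?_, fun r => ?_, fun c hc => ?_, ?_, ?_⟩
  · apply RingOfIntegers.ext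
    exact involution_of_finrank h2 σ c
  · apply RingOfIntegers.ext
    exact σ.commutes (r : E)
  · have hc' : σ (c : L) = c := congrArg (fun z : 𝓞 L => (z : L)) hc
    have h1 : (c : L) ∈ (⊥ : IntermediateField E L) := by
      rw [IsGalois.mem_bot_iff_fixed]
      intro g
      obtain ⟨y, hy, hy2⟩ := (Nat.card_eq_two_iff' (1 : L ≃ₐ[E] L)).mp hcard
      by_cases hg : g = 1
      · rw [hg]; rfl
      · rw [hy2 g hg, ← hy2 σ hσ]
        exact hc'
    obtain ⟨e, he⟩ := IntermediateField.mem_bot.mp h1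
    have h3 : IsIntegral ℤ e := by
      have h4 : IsIntegral ℤ (algebraMap E L e) := by
        rw [he]
        exact c.isIntegral_coe
      exact (isIntegral_algebraMap_iff (algebraMap E L).injective).mp h4
    exact ⟨⟨e, h3⟩, RingOfIntegers.ext he⟩
  · by_contra hcon
    push Not at hcon
    apply hσ
    ext z
    obtain ⟨a, b, hb, rfl⟩ := IsFractionRing.div_surjective (A := 𝓞 L) z
    have ha : σ (a : L) = a := congrArg (fun z : 𝓞 L => (z : L)) (hcon a)
    have hb' : σ (b : L) = b := congrArg (fun z : 𝓞 L => (z : L)) (hcon b)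
    rw [map_div₀]
    change σ (a : L) / σ (b : L) = (a : L) / (b : L)
    rw [ha, hb']
  · exact FaithfulSMul.algebraMap_injective (𝓞 E) (𝓞 L)

end Pool.Agent.Lib.MP_6a3dac_ag
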