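import Pool.Agent.Lib.MP_6a3dac_ag.QuadExt

/-!
# Existence of quadratic extensions
-/

set_option autoImplicit false

namespace Pool.Agent.Lib.MP_6a3dac_ag

theorem exists_qext {K : Type} [Field K] {a b : K} (hroot : ∀ r : K, r * r ≠ a + b * r) :
    ∃ (K₁ : Type) (_ : Field K₁) (_ : Algebra K K₁) (ω : K₁) (σ : K₁ →+* K₁), QExt a b ω σ := by
  have hF : Fact (∀ r : K, r ^ 2 ≠ a + b * r) := ⟨fun r h => hroot r (by rw [← pow_two, h])⟩
  refine ⟨QuadraticAlgebra K a b, inferInstance, inferInstance, ⟨0, 1⟩,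
    starRingEnd (QuadraticAlgebra K a b), ⟨?_, ?_, ?_⟩, ?_, ?_, ?_⟩
  · ext <;> simp
  · intro r
    rw [starRingEnd_apply]
    ext <;> simp
  · rw [starRingEnd_apply]
    ext <;> simp
  · intro w
    exact star_star w
  · intro z
    refine ⟨z.re, z.im, ?_⟩
    ext <;> simp
  · intro x y h
    have h1 := congrArg QuadraticAlgebra.re h
    have h2 := congrArg QuadraticAlgebra.im h
    constructor
    · simpa using h1
    · simpa using h2

end Pool.Agent.Lib.MP_6a3dac_ag
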