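import Mathlib

/-!
# Ramification in quadratic extensions of Dedekind domains
-/

set_option autoImplicit false

namespace Pool.Agent.Lib.MP_6a3dac_ag

/-- An extension `O / R` with an involution `σ ≠ 1` of `O` whose ring of invariants is `R`. -/
structure QuadExt (R O : Type) [CommRing R] [CommRing O] [Algebra R O] (σ : O →+* O) : Prop where
  invol : ∀ c, σ (σ c) = c
  fix : ∀ r, σ (algebraMap R O r) = algebraMap R O r
  fixed : ∀ c, σ c = c → ∃ r, algebraMap R O r = c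
  ne : ∃ c, σ c ≠ c
  inj : Function.Injective (algebraMap R O)

namespace QuadExt

variable {R O : Type} [CommRing R] [CommRing O] [Algebra R O] {σ : O →+* O}
  (h : QuadExt R O σ)
include h

theorem exists_norm (c : O) : ∃ n : R, algebraMap R O n = c * σ c :=
  h.fixed _ (by rw [map_mul, h.invol, mul_comm])

theorem exists_trace (c : O) : ∃ n : R, algebraMap R O n = c + σ c :=
  h.fixed _ (by rw [map_add, h.invol, add_comm])

theorem isIntegral : Algebra.IsIntegral R O := by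
  refine ⟨fun c => ?_⟩
  obtain ⟨n, hn⟩ := h.exists_norm c
  obtain ⟨t, ht⟩ := h.exists_trace c
  refine ⟨Polynomial.X ^ 2 - Polynomial.C t * Polynomial.X + Polynomial.C n, ?_, ?_⟩
  · nontriviality R
    monicity!
  · rw [Polynomial.eval₂_add, Polynomial.eval₂_sub, Polynomial.eval₂_mul,
      Polynomial.eval₂_C, Polynomial.eval₂_C, Polynomial.eval₂_X, Polynomial.eval₂_pow,
      Polynomial.eval₂_X, hn, ht]
    ring

/-- Elements outside a prime `𝔓` over `p` with `σ 𝔓 = 𝔓` divide elements of `R ∖ p`. -/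
theorem exists_dvd {p : Ideal R} {𝔓 : Ideal O} [h𝔓 : 𝔓.IsPrime] (hp : 𝔓.comap (algebraMap R O) = p)
    (hσ : ∀ c, σ c - c ∈ 𝔓) {s : O} (hs : s ∉ 𝔓) : ∃ n, n ∉ p ∧ algebraMap R O n = s * σ s := by
  obtain ⟨n, hn⟩ := h.exists_norm s
  refine ⟨n, ?_, hn⟩
  rw [← hp, Ideal.mem_comap, hn]
  apply h𝔓.mul_notMem hs
  intro hσs
  apply hs
  have := 𝔓.sub_mem hσs (hσ s)
  rwa [sub_sub_cancel] at this

/-- The unramified case: some difference is a unit at `p`. -/
def _root_.Pool.Agent.Lib.MP_6a3dac_ag.UnramAt {R O : Type} [CommRing R] [CommRing O] [Algebra R O]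
    (σ : O →+* O) (p : Ideal R) : Prop :=
  ∃ c d : O, ∃ n, n ∉ p ∧ (σ c - c) * d = algebraMap R O n

/-- In the ramified case, `σ` is trivial modulo the primes over `p`. -/
theorem sub_mem_of_not_unram {p : Ideal R} (hU : ¬ UnramAt σ p) {𝔓 : Ideal O}
    [h𝔓 : 𝔓.IsPrime] (hp : 𝔓.comap (algebraMap R O) = p) (c : O) : σ c - c ∈ 𝔓 := by
  obtain ⟨n, hn⟩ := h.exists_norm (σ c - c)
  by_cases hnp : n ∈ p
  · rw [← hp, Ideal.mem_comap, hn, map_sub, h.invol] at hnp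
    rcases h𝔓.mem_or_mem hnp with h1 | h1
    · exact h1
    · rw [← neg_sub]
      exact 𝔓.neg_mem h1
  · exact absurd ⟨c, σ (σ c - c), n, hnp, hn.symm⟩ hU

/-- The residue extension is trivial in the ramified case. -/
theorem exists_add_mem {p : Ideal R} [hpm : p.IsMaximal] [Finite (R ⧸ p)] {𝔓 : Ideal O}
    [h𝔓 : 𝔓.IsPrime] (hp : 𝔓.comap (algebraMap R O) = p) (hσ : ∀ c, σ c - c ∈ 𝔓) (c : O) :
    ∃ a : R, c - algebraMap R O a ∈ 𝔓 := by
  obtain ⟨n, hn⟩ := h.exists_norm c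
  obtain ⟨t, ht⟩ := h.exists_trace c
  have hpR : ∀ a : R, a ∈ p ↔ algebraMap R O a ∈ 𝔓 := fun a => by rw [← hp, Ideal.mem_comap]
  by_cases h2 : (2 : R) ∈ p
  · -- residue characteristic two
    let := Ideal.Quotient.field p
    have hchar : CharP (R ⧸ p) 2 := by
      apply CharTwo.of_one_ne_zero_of_two_eq_zero one_ne_zero
      rw [← map_ofNat (Ideal.Quotient.mk p) 2]
      exact Ideal.Quotient.eq_zero_iff_mem.mpr h2
    have hfin : Finite (R ⧸ p) := inferInstance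
    obtain ⟨m, hm⟩ : ∃ m : R ⧸ p, m ^ 2 = Ideal.Quotient.mk p n := by
      have hinj : Function.Injective (frobenius (R ⧸ p) 2) := frobenius_inj _ 2
      obtain ⟨m, hm⟩ := (Finite.injective_iff_surjective.mp hinj) (Ideal.Quotient.mk p n)
      exact ⟨m, hm⟩
    obtain ⟨a, rfl⟩ := Ideal.Quotient.mk_surjective m
    rw [← map_pow, Ideal.Quotient.mk_eq_mk_iff_sub_mem, hpR, map_sub, map_pow, hn] at hm
    refine ⟨a, ?_⟩
    apply h𝔓.mem_of_pow_mem 2
    have h3 : (c - algebraMap R O a) ^ 2 = (algebraMap R O a ^ 2 - c * σ c) +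
        c * (σ c - c) + algebraMap R O 2 * (c * c - c * algebraMap R O a) := by
      rw [map_ofNat]; ring
    rw [h3]
    exact 𝔓.add_mem (𝔓.add_mem hm (𝔓.mul_mem_left _ (hσ c)))
      (𝔓.mul_mem_right _ ((hpR 2).mp h2))
  · obtain ⟨s, hs⟩ := Ideal.Quotient.exists_inv (I := p) (a := Ideal.Quotient.mk p 2) (by
      rwa [Ne, Ideal.Quotient.eq_zero_iff_mem])
    obtain ⟨s, rfl⟩ := Ideal.Quotient.mk_surjective s
    rw [← map_mul, ← map_one (Ideal.Quotient.mk p), Ideal.Quotient.mk_eq_mk_iff_sub_mem, hpR,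
      map_sub, map_one, map_mul, map_ofNat] at hs
    refine ⟨s * t, ?_⟩
    have h3 : c - algebraMap R O (s * t) = -(c * (2 * algebraMap R O s - 1)) -
        algebraMap R O s * (σ c - c) := by
      rw [map_mul, ht]; ring
    rw [h3]
    exact 𝔓.sub_mem (𝔓.neg_mem (𝔓.mul_mem_left _ hs)) (𝔓.mul_mem_left _ (hσ c))

/-- **The structure of the ramified case.** -/
theorem exists_uniformizer [IsDedekindDomain O] {p : Ideal R} [hpm : p.IsMaximal]
    [Finite (R ⧸ p)] (hp0 : p ≠ ⊥) (hU : ¬ UnramAt σ p)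
    {𝔓 : Ideal O} [h𝔓 : 𝔓.IsPrime] (hp : 𝔓.comap (algebraMap R O) = p) :
    ∃ (ϖ : O) (r : ℕ), 1 ≤ r ∧ Irreducible (algebraMap O (Localization.AtPrime 𝔓) ϖ) ∧
      (∃ ε, ε ∉ 𝔓 ∧ ∃ n, n ∉ p ∧ algebraMap R O n * (σ ϖ - ϖ) = ε * ϖ ^ r) ∧
      (∀ c, ∃ y, ∃ n, n ∉ p ∧ algebraMap R O n * (σ c - c) = y * ϖ ^ r) := by
  have hσ : ∀ c, σ c - c ∈ 𝔓 := h.sub_mem_of_not_unram hU hp
  have h𝔓0 : 𝔓 ≠ ⊥ := by
    rintro rfl
    apply hp0
    rw [← hp, eq_bot_iff]
    intro a ha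
    rw [Ideal.mem_comap, Ideal.mem_bot] at ha
    exact h.inj (by rw [ha, map_zero])
  have hDVR : IsDiscreteValuationRing (Localization.AtPrime 𝔓) :=
    IsLocalization.AtPrime.isDiscreteValuationRing_of_dedekind_domain O h𝔓0 _
  let O' := Localization.AtPrime 𝔓
  have hσ𝔓 : 𝔓.primeCompl ≤ 𝔓.primeCompl.comap σ := by
    intro s hs
    change σ s ∉ 𝔓
    intro hσs
    apply hs
    have := 𝔓.sub_mem hσs (hσ s)
    rwa [sub_sub_cancel] at this
  let σ' : O' →+* O' := IsLocalization.map O' σ hσ𝔓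
  have hσ'c : ∀ c, σ' (algebraMap O O' c) = algebraMap O O' (σ c) := fun c =>
    IsLocalization.map_eq hσ𝔓 c
  have halg : Function.Injective (algebraMap O O') :=
    IsLocalization.injective O' (Ideal.primeCompl_le_nonZeroDivisors 𝔓)
  -- clearing denominators
  have hden : ∀ z : O', ∃ (n : R) (a : O), n ∉ p ∧
      algebraMap O O' (algebraMap R O n) * z = algebraMap O O' a := by
    intro z
    obtain ⟨⟨a, s⟩, hz⟩ := IsLocalization.surj 𝔓.primeCompl z
    obtain ⟨n, hn, hns⟩ := h.exists_dvd hp hσ s.2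
    refine ⟨n, a * σ s, hn, ?_⟩
    rw [hns, map_mul, map_mul, ← hz]
    ring
  have hunit : ∀ s : O, IsUnit (algebraMap O O' s) ↔ s ∉ 𝔓 := fun s =>
    IsLocalization.AtPrime.isUnit_to_map_iff O' 𝔓 s
  have hnp : ∀ n : R, n ∉ p → IsUnit (algebraMap O O' (algebraMap R O n)) := by
    intro n hn
    rw [hunit]
    rwa [← hp, Ideal.mem_comap] at hn
  -- the minimal exponent
  obtain ⟨ϖ₀, hϖ₀⟩ := IsDiscreteValuationRing.exists_irreducible O'
  have hex : ∃ m, ∃ z : O', Associated (σ' z - z) (ϖ₀ ^ m) := by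
    obtain ⟨c, hc⟩ := h.ne
    have h0 : algebraMap O O' (σ c - c) ≠ 0 := by
      intro h0
      apply hc
      rw [← sub_eq_zero]
      exact halg (by rw [h0, map_zero])
    obtain ⟨m, hm⟩ := IsDiscreteValuationRing.associated_pow_irreducible h0 hϖ₀
    exact ⟨m, algebraMap O O' c, by rw [hσ'c, ← map_sub]; exact hm⟩
  classical
  obtain ⟨r, hr⟩ : ∃ r, r = Nat.find hex := ⟨_, rfl⟩
  obtain ⟨z₁, hz₁⟩ : ∃ z : O', Associated (σ' z - z) (ϖ₀ ^ r) := hr ▸ Nat.find_spec hex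
  have hmin : ∀ z : O', ϖ₀ ^ r ∣ σ' z - z := by
    intro z
    by_cases h0 : σ' z - z = 0
    · rw [h0]; exact dvd_zero _
    · obtain ⟨m, hm⟩ := IsDiscreteValuationRing.associated_pow_irreducible h0 hϖ₀
      have hrm : r ≤ m := hr ▸ Nat.find_min' hex ⟨z, hm⟩
      exact (pow_dvd_pow ϖ₀ hrm).trans hm.symm.dvd
  have hlarge : ∀ z : O', ¬ Associated (σ' z - z) (ϖ₀ ^ r) → ϖ₀ ^ (r + 1) ∣ σ' z - z := by
    intro z hz
    obtain ⟨y, hy⟩ := hmin z
    have hyu : ¬ IsUnit y := by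
      intro hyu
      apply hz
      rw [hy]
      exact (associated_mul_unit_left _ _ hyu)
    have : ϖ₀ ∣ y := by
      rw [← Ideal.mem_span_singleton, ← hϖ₀.maximalIdeal_eq]
      exact hyu
    rw [hy, pow_succ]
    exact mul_dvd_mul_left _ this
  -- `r` is positive
  have hr1 : 1 ≤ r := by
    by_contra hr0
    have hr0 : r = 0 := by omega
    rw [hr0, pow_zero, associated_one_iff_isUnit] at hz₁
    obtain ⟨n, a, hn, hna⟩ := hden z₁
    have h1 : algebraMap O O' (σ a - a) = algebraMap O O' (algebraMap R O n) * (σ' z₁ - z₁) := by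
      rw [map_sub, ← hσ'c, ← hna, map_mul, hσ'c, h.fix]
      ring
    have h2 : IsUnit (algebraMap O O' (σ a - a)) := by
      rw [h1]
      exact (hnp n hn).mul hz₁
    rw [hunit] at h2
    exact h2 (hσ a)
  -- a uniformizer whose difference is minimal
  obtain ⟨ϖ', hϖ', hϖ'2⟩ : ∃ ϖ' : O', Associated ϖ' ϖ₀ ∧ Associated (σ' ϖ' - ϖ') (ϖ₀ ^ r) := by
    by_cases h0 : Associated (σ' ϖ₀ - ϖ₀) (ϖ₀ ^ r)
    · exact ⟨ϖ₀, Associated.refl _, h0⟩
    obtain ⟨n, a, hn, hna⟩ := hden z₁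
    obtain ⟨a', ha'⟩ := h.exists_add_mem hp hσ a
    obtain ⟨d, hd⟩ : ϖ₀ ∣ algebraMap O O' (a - algebraMap R O a') := by
      rw [← Ideal.mem_span_singleton, ← hϖ₀.maximalIdeal_eq]
      exact (IsLocalization.AtPrime.to_map_mem_maximal_iff O' 𝔓 _).mpr ha'
    have h1 : σ' (ϖ₀ * d) - ϖ₀ * d = algebraMap O O' (algebraMap R O n) * (σ' z₁ - z₁) := by
      rw [← hd, hσ'c, map_sub, h.fix, map_sub, map_sub, ← hσ'c, ← hna, map_mul, hσ'c, h.fix]
      ring
    have h2 : Associated (σ' (ϖ₀ * d) - ϖ₀ * d) (ϖ₀ ^ r) := by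
      rw [h1]
      exact (associated_unit_mul_left _ _ (hnp n hn)).trans hz₁
    by_cases hdu : IsUnit d
    · exact ⟨ϖ₀ * d, associated_mul_unit_left _ _ hdu, h2⟩
    · have h3 : IsUnit (1 + d) := by
        by_contra h3
        have h4 := Ideal.sub_mem (IsLocalRing.maximalIdeal O') (a := 1 + d) (b := d) h3 hdu
        rw [add_sub_cancel_right] at h4
        exact (IsLocalRing.maximalIdeal.isMaximal O').ne_top ((Ideal.eq_top_iff_one _).mpr h4)
      refine ⟨ϖ₀ * (1 + d), associated_mul_unit_left _ _ h3, ?_⟩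
      obtain ⟨y, hy⟩ := hlarge ϖ₀ h0
      obtain ⟨u, hu⟩ := h2.symm
      have h4 : σ' (ϖ₀ * (1 + d)) - ϖ₀ * (1 + d) = ϖ₀ ^ r * (u + ϖ₀ * y) := by
        rw [mul_add, mul_one, map_add]
        linear_combination hy - hu
      have h5 : IsUnit ((u : O') + ϖ₀ * y) := by
        by_contra h5
        have h6 : ϖ₀ * y ∈ IsLocalRing.maximalIdeal O' := Ideal.mul_mem_right _ _ hϖ₀.not_isUnit
        have h7 := Ideal.sub_mem (IsLocalRing.maximalIdeal O') (a := u + ϖ₀ * y) h5 h6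
        rw [add_sub_cancel_right] at h7
        exact h7 u.isUnit
      rw [h4]
      exact associated_mul_unit_left _ _ h5
  -- clear the denominator of `ϖ'`
  obtain ⟨n₀, ϖ, hn₀, hn₀ϖ⟩ := hden ϖ'
  have hϖa : Associated (algebraMap O O' ϖ) ϖ₀ := by
    rw [← hn₀ϖ]
    exact (associated_unit_mul_left _ _ (hnp n₀ hn₀)).trans hϖ'
  have hΔϖ : Associated (algebraMap O O' (σ ϖ - ϖ)) (algebraMap O O' (ϖ ^ r)) := by
    have h1 : algebraMap O O' (σ ϖ - ϖ) = algebraMap O O' (algebraMap R O n₀) * (σ' ϖ' - ϖ') := by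
      rw [map_sub, ← hσ'c, ← hn₀ϖ, map_mul, hσ'c, h.fix]
      ring
    rw [h1, map_pow]
    exact ((associated_unit_mul_left _ _ (hnp n₀ hn₀)).trans hϖ'2).trans (hϖa.symm.pow_pow)
  refine ⟨ϖ, r, hr1, (hϖa.irreducible_iff).mpr hϖ₀, ?_, ?_⟩
  · obtain ⟨u, hu⟩ := hΔϖ.symm
    obtain ⟨n, ε, hn, hnε⟩ := hden (u : O')
    refine ⟨ε, ?_, n, hn, ?_⟩
    · rw [← hunit, ← hnε]
      exact (hnp n hn).mul u.isUnit
    · apply halg
      rw [map_mul, map_mul, ← hu, ← hnε]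
      ring
  · intro c
    have h1 : algebraMap O O' (ϖ ^ r) ∣ algebraMap O O' (σ c - c) := by
      rw [map_sub, ← hσ'c, map_pow]
      exact (hϖa.pow_pow.dvd).trans (hmin _)
    obtain ⟨y, hy⟩ := h1
    obtain ⟨n, a, hn, hna⟩ := hden y
    refine ⟨a, n, hn, ?_⟩
    apply halg
    rw [map_mul, hy, map_mul, ← hna]
    ring

/-- Existence of primes over a given prime. -/
theorem exists_prime_over [IsDomain O] (p : Ideal R) [p.IsPrime] :
    ∃ 𝔓 : Ideal O, 𝔓.IsPrime ∧ 𝔓.comap (algebraMap R O) = p := by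
  have := h.isIntegral
  obtain ⟨Q, -, h1, h2⟩ := Ideal.exists_ideal_over_prime_of_isIntegral p (⊥ : Ideal O) (by
    intro a ha
    rw [Ideal.mem_comap, Ideal.mem_bot] at ha
    rw [h.inj (by rw [ha, map_zero] : algebraMap R O a = algebraMap R O 0)]
    exact p.zero_mem)
  exact ⟨Q, h1, h2⟩

/-- All but finitely many primes are unramified: a nonzero discriminant. -/
theorem exists_disc [IsDomain O] : ∃ d : R, d ≠ 0 ∧ ∀ p : Ideal R, d ∉ p → UnramAt σ p := by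
  obtain ⟨c, hc⟩ := h.ne
  obtain ⟨n, hn⟩ := h.exists_norm (σ c - c)
  refine ⟨n, ?_, fun p hp => ⟨c, σ (σ c - c), n, hp, hn.symm⟩⟩
  rintro rfl
  rw [map_zero, eq_comm, mul_eq_zero, map_sub, h.invol] at hn
  rcases hn with h1 | h1
  · exact hc (sub_eq_zero.mp h1)
  · exact hc (sub_eq_zero.mp h1).symm

end QuadExt

end Pool.Agent.Lib.MP_6a3dac_ag
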