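import Pool.Agent.Lib.MP_6a3dac_ag.QWWeilInv

/-!
# The bihomogeneous coordinate ring is a domain
-/

set_option autoImplicit false
set_option linter.unusedSectionVars false

namespace Pool.Agent.Lib.MP_6a3dac_ag

open MvPolynomial TensorProduct

attribute [local instance] MvPolynomial.gradedAlgebra

section Flat

variable {L A B C : Type} [Field L] [CommRing A] [Algebra L A] [CommRing B] [Algebra L B]
  [CommRing C] [Algebra L C]

theorem injective_map_id (f : B →ₐ[L] C) (hf : Function.Injective f) :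
    Function.Injective (Algebra.TensorProduct.map (AlgHom.id L A) f) :=
  Module.Flat.lTensor_preserves_injective_linearMap (M := A) f.toLinearMap hf

end Flat

section Tensor

variable {L O : Type} [Field L] [CommRing O] {n : ℕ}

/-- Base change of a quotient of a polynomial ring. -/
theorem exists_injective_tensor {A : Type} [CommRing A] [Algebra L A] (K' : Type) [CommRing K']
    [Algebra L K'] (ψ : O →+* L) (𝔟 : Ideal (MvPolynomial (Fin n) O))
    (q : MvPolynomial (Fin n) L →ₐ[L] A) (hq : Function.Surjective q)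
    (hker : RingHom.ker q = 𝔟.map (MvPolynomial.map ψ)) :
    ∃ γ : A ⊗[L] K' →+*
      MvPolynomial (Fin n) K' ⧸ 𝔟.map (MvPolynomial.map ((algebraMap L K').comp ψ)),
      Function.Injective γ := by
  obtain ⟨J, hJ⟩ : ∃ J, J = 𝔟.map (MvPolynomial.map ((algebraMap L K').comp ψ)) := ⟨_, rfl⟩
  rw [← hJ]
  let a₀ : MvPolynomial (Fin n) L →ₐ[L] MvPolynomial (Fin n) K' ⧸ J :=
    (Ideal.Quotient.mkₐ L J).comp (mapAlgHom (Algebra.ofId L K'))
  have ha₀ : ∀ g, q g = 0 → a₀ g = 0 := by
    intro g hg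
    have h1 : 𝔟.map (MvPolynomial.map ψ) ≤ RingHom.ker a₀ := by
      rw [Ideal.map_le_iff_le_comap]
      intro f hf
      change Ideal.Quotient.mk J (MvPolynomial.map (algebraMap L K') (MvPolynomial.map ψ f)) = 0
      rw [Ideal.Quotient.eq_zero_iff_mem, MvPolynomial.map_map, hJ]
      exact Ideal.mem_map_of_mem _ hf
    exact h1 (hker ▸ hg)
  let a : A →ₐ[L] MvPolynomial (Fin n) K' ⧸ J :=
    (Ideal.Quotient.liftₐ (RingHom.ker q) a₀ (fun g hg => ha₀ g hg)).comp
      (Ideal.quotientKerAlgEquivOfSurjective hq).symm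
  have ha : ∀ P, a (q P) = Ideal.Quotient.mk J (MvPolynomial.map (algebraMap L K') P) := by
    intro P
    have h1 : (Ideal.quotientKerAlgEquivOfSurjective hq).symm (q P) =
        Ideal.Quotient.mk (RingHom.ker q) P := by
      rw [AlgEquiv.symm_apply_eq]
      rfl
    change Ideal.Quotient.liftₐ (RingHom.ker q) a₀ (fun g hg => ha₀ g hg)
      ((Ideal.quotientKerAlgEquivOfSurjective hq).symm (q P)) = _
    rw [h1]
    rfl
  let b : K' →ₐ[L] MvPolynomial (Fin n) K' ⧸ J := IsScalarTower.toAlgHom L K' _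
  have hb : ∀ k, b k = Ideal.Quotient.mk J (C k) := fun k => rfl
  let γ := Algebra.TensorProduct.productMap a b
  have hγ : ∀ s k, γ (s ⊗ₜ k) = a s * b k := fun s k =>
    Algebra.TensorProduct.productMap_apply_tmul _ _ _ _
  let δ₀ : MvPolynomial (Fin n) K' →+* A ⊗[L] K' :=
    eval₂Hom (Algebra.TensorProduct.includeRight : K' →ₐ[L] A ⊗[L] K').toRingHom
      (fun i => q (X i) ⊗ₜ[L] (1 : K'))
  have hδ₀C : ∀ k, δ₀ (C k) = 1 ⊗ₜ k := fun k => by
    change eval₂Hom _ _ (C k) = _
    rw [coe_eval₂Hom, eval₂_C]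
    rfl
  have hδ₀X : ∀ i, δ₀ (X i) = q (X i) ⊗ₜ 1 := fun i => by
    change eval₂Hom _ _ (X i) = _
    rw [coe_eval₂Hom, eval₂_X]
  have hδ₀ : ∀ P : MvPolynomial (Fin n) L, δ₀ (MvPolynomial.map (algebraMap L K') P) =
      q P ⊗ₜ 1 := by
    intro P
    induction P using MvPolynomial.induction_on with
    | C c =>
      rw [map_C, hδ₀C, Algebra.algebraMap_eq_smul_one, ← TensorProduct.smul_tmul,
        ← Algebra.algebraMap_eq_smul_one, ← algebraMap_eq, AlgHom.commutes]
    | add P Q hP hQ => rw [map_add, map_add, hP, hQ, map_add, TensorProduct.add_tmul]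
    | mul_X P i hP =>
      rw [map_mul, map_mul, hP, map_X, hδ₀X, Algebra.TensorProduct.tmul_mul_tmul, mul_one, map_mul]
  let δ : MvPolynomial (Fin n) K' ⧸ J →+* A ⊗[L] K' :=
    Ideal.Quotient.lift J δ₀ (by
      have h1 : J ≤ RingHom.ker δ₀ := by
        rw [hJ, Ideal.map_le_iff_le_comap]
        intro f hf
        change δ₀ (MvPolynomial.map ((algebraMap L K').comp ψ) f) = 0
        rw [← MvPolynomial.map_map, hδ₀]
        have h2 : q (MvPolynomial.map ψ f) = 0 := by
          rw [← RingHom.mem_ker, hker]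
          exact Ideal.mem_map_of_mem _ hf
        rw [h2, TensorProduct.zero_tmul]
      exact fun g hg => h1 hg)
  have hδ : ∀ P, δ (Ideal.Quotient.mk J P) = δ₀ P := fun P => rfl
  refine ⟨γ.toRingHom, Function.HasLeftInverse.injective ⟨δ, fun t => ?_⟩⟩
  change δ (γ t) = t
  induction t using TensorProduct.induction_on with
  | zero => rw [map_zero, map_zero]
  | tmul s k =>
    obtain ⟨P, rfl⟩ := hq s
    rw [hγ, map_mul, ha, hb, hδ, hδ, hδ₀, hδ₀C, Algebra.TensorProduct.tmul_mul_tmul, mul_one,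
      one_mul]
  | add s t hs ht => rw [map_add, map_add, hs, ht]

end Tensor

section Weil

variable {K L O : Type} [Field K] [Field L] [Algebra K L] [CommRing O] [Algebra O L] {n : ℕ}
  (σ : L ≃ₐ[K] L) (𝔞 : HomogeneousIdeal (homogeneousSubmodule (Fin n) O))

/-- The map of the bihomogeneous coordinate ring to the tensor product is injective. -/
theorem exists_injective_pairRing :
    ∃ γ : PairRing σ 𝔞 →+*
      (MvPolynomial (Fin n) L ⧸ 𝔞.toIdeal.map (MvPolynomial.map (algebraMap O L))) ⊗[L]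
      (MvPolynomial (Fin n) L ⧸ 𝔞.toIdeal.map
        (MvPolynomial.map ((σ : L →+* L).comp (algebraMap O L)))),
      Function.Injective γ := by
  obtain ⟨I₁, hI₁⟩ : ∃ I, I = 𝔞.toIdeal.map (MvPolynomial.map (algebraMap O L)) := ⟨_, rfl⟩
  obtain ⟨I₂, hI₂⟩ : ∃ I, I = 𝔞.toIdeal.map
    (MvPolynomial.map ((σ : L →+* L).comp (algebraMap O L))) := ⟨_, rfl⟩
  rw [← hI₁, ← hI₂]
  let a₀ : MvPolynomial (Fin n) L →ₐ[L] PairRing σ 𝔞 :=
    (Ideal.Quotient.mkₐ L (pairIdeal σ 𝔞)).comp (rename Sum.inl)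
  let b₀ : MvPolynomial (Fin n) L →ₐ[L] PairRing σ 𝔞 :=
    (Ideal.Quotient.mkₐ L (pairIdeal σ 𝔞)).comp (rename Sum.inr)
  let a : (MvPolynomial (Fin n) L ⧸ I₁) →ₐ[L] PairRing σ 𝔞 :=
    Ideal.Quotient.liftₐ _ a₀ (by
      have h1 : I₁ ≤ RingHom.ker a₀ := by
        rw [hI₁, Ideal.map_le_iff_le_comap]
        intro f hf
        change Ideal.Quotient.mk _ (rename Sum.inl (MvPolynomial.map (algebraMap O L) f)) = 0
        rw [Ideal.Quotient.eq_zero_iff_mem]
        exact inl_mem_pairIdeal σ 𝔞 hf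
      exact fun g hg => h1 hg)
  let b : (MvPolynomial (Fin n) L ⧸ I₂) →ₐ[L] PairRing σ 𝔞 :=
    Ideal.Quotient.liftₐ _ b₀ (by
      have h1 : I₂ ≤ RingHom.ker b₀ := by
        rw [hI₂, Ideal.map_le_iff_le_comap]
        intro f hf
        change Ideal.Quotient.mk _ (rename Sum.inr (MvPolynomial.map
          ((σ : L →+* L).comp (algebraMap O L)) f)) = 0
        rw [Ideal.Quotient.eq_zero_iff_mem]
        exact inr_mem_pairIdeal σ 𝔞 hf
      exact fun g hg => h1 hg)
  have ha : ∀ i, a (Ideal.Quotient.mk _ (X i)) = xCl σ 𝔞 i := by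
    intro i
    change Ideal.Quotient.mk _ (rename Sum.inl (X i)) = _
    rw [rename_X]
    rfl
  have hb : ∀ i, b (Ideal.Quotient.mk _ (X i)) = yCl σ 𝔞 i := by
    intro i
    change Ideal.Quotient.mk _ (rename Sum.inr (X i)) = _
    rw [rename_X]
    rfl
  let β := Algebra.TensorProduct.productMap a b
  let α₀ : MvPolynomial (Fin n ⊕ Fin n) L →ₐ[L]
      (MvPolynomial (Fin n) L ⧸ I₁) ⊗[L] (MvPolynomial (Fin n) L ⧸ I₂) :=
    aeval (Sum.elim (fun i => (Ideal.Quotient.mk I₁ (X i)) ⊗ₜ[L] (1 : MvPolynomial (Fin n) L ⧸ I₂))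
      (fun i => (1 : MvPolynomial (Fin n) L ⧸ I₁) ⊗ₜ[L] (Ideal.Quotient.mk I₂ (X i))))
  have h1 : ∀ f : MvPolynomial (Fin n) L, α₀ (rename Sum.inl f) = Ideal.Quotient.mk _ f ⊗ₜ 1 := by
    intro f
    induction f using MvPolynomial.induction_on with
    | C c =>
      rw [rename_C, ← algebraMap_eq, AlgHom.commutes]
      rfl
    | add P Q hP hQ => rw [map_add, map_add, hP, hQ, map_add, TensorProduct.add_tmul]
    | mul_X P i hP =>
      rw [map_mul, map_mul, hP, rename_X]
      change _ * aeval _ (X (Sum.inl i)) = _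
      rw [aeval_X, Sum.elim_inl, Algebra.TensorProduct.tmul_mul_tmul, mul_one, map_mul]
  have h2 : ∀ f : MvPolynomial (Fin n) L, α₀ (rename Sum.inr f) = 1 ⊗ₜ Ideal.Quotient.mk _ f := by
    intro f
    induction f using MvPolynomial.induction_on with
    | C c =>
      rw [rename_C, ← algebraMap_eq, AlgHom.commutes]
      change _ = 1 ⊗ₜ algebraMap L (MvPolynomial (Fin n) L ⧸ I₂) c
      rw [Algebra.algebraMap_eq_smul_one, Algebra.algebraMap_eq_smul_one,
        TensorProduct.tmul_smul]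
      rfl
    | add P Q hP hQ => rw [map_add, map_add, hP, hQ, map_add, TensorProduct.tmul_add]
    | mul_X P i hP =>
      rw [map_mul, map_mul, hP, rename_X]
      change _ * aeval _ (X (Sum.inr i)) = _
      rw [aeval_X, Sum.elim_inr, Algebra.TensorProduct.tmul_mul_tmul, mul_one, map_mul]
  let α : PairRing σ 𝔞 →ₐ[L] (MvPolynomial (Fin n) L ⧸ I₁) ⊗[L] (MvPolynomial (Fin n) L ⧸ I₂) :=
    Ideal.Quotient.liftₐ _ α₀ (by
      have h3 : pairIdeal σ 𝔞 ≤ RingHom.ker α₀ := by
        rw [pairIdeal_eq, Ideal.span_le]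
        rintro _ (⟨f, hf, rfl⟩ | ⟨f, hf, rfl⟩)
        · change α₀ (rename Sum.inl (MvPolynomial.map (algebraMap O L) f)) = 0
          have h4 : Ideal.Quotient.mk I₁ (MvPolynomial.map (algebraMap O L) f) = 0 := by
            rw [Ideal.Quotient.eq_zero_iff_mem, hI₁]
            exact Ideal.mem_map_of_mem _ hf
          rw [h1, h4, TensorProduct.zero_tmul]
        · change α₀ (rename Sum.inr (MvPolynomial.map
            ((σ : L →+* L).comp (algebraMap O L)) f)) = 0
          have h4 : Ideal.Quotient.mk I₂ (MvPolynomial.map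
              ((σ : L →+* L).comp (algebraMap O L)) f) = 0 := by
            rw [Ideal.Quotient.eq_zero_iff_mem, hI₂]
            exact Ideal.mem_map_of_mem _ hf
          rw [h2, h4, TensorProduct.tmul_zero]
      exact fun g hg => h3 hg)
  refine ⟨α.toRingHom, Function.HasLeftInverse.injective ⟨β, fun z => ?_⟩⟩
  obtain ⟨P, rfl⟩ := Ideal.Quotient.mk_surjective z
  have h5 : (β.comp α).comp (Ideal.Quotient.mkₐ L (pairIdeal σ 𝔞)) =
      Ideal.Quotient.mkₐ L (pairIdeal σ 𝔞) := by
    apply MvPolynomial.algHom_ext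
    rintro (i | i)
    · change β (α₀ (X (Sum.inl i))) = xCl σ 𝔞 i
      have : α₀ (X (Sum.inl i)) = Ideal.Quotient.mk _ (X i) ⊗ₜ 1 := by
        change aeval _ _ = _
        rw [aeval_X, Sum.elim_inl]
      rw [this]
      change Algebra.TensorProduct.productMap a b _ = _
      rw [Algebra.TensorProduct.productMap_apply_tmul, ha, map_one, mul_one]
    · change β (α₀ (X (Sum.inr i))) = yCl σ 𝔞 i
      have : α₀ (X (Sum.inr i)) = 1 ⊗ₜ Ideal.Quotient.mk _ (X i) := by
        change aeval _ _ = _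
        rw [aeval_X, Sum.elim_inr]
      rw [this]
      change Algebra.TensorProduct.productMap a b _ = _
      rw [Algebra.TensorProduct.productMap_apply_tmul, hb, map_one, one_mul]
  exact DFunLike.congr_fun h5 P

/-- If the homogeneous coordinate ring is geometrically a domain, then the bihomogeneous
coordinate ring is a domain. -/
theorem isDomain_pairRing (hOL : Function.Injective (algebraMap O L))
    (hgeom : ∀ (K' : Type) [Field K'] (φ : O →+* K'), Function.Injective φ →
      (𝔞.toIdeal.map (MvPolynomial.map φ)).IsPrime) : IsDomain (PairRing σ 𝔞) := by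
  obtain ⟨α, hα⟩ := exists_injective_pairRing σ 𝔞
  have h2 : (𝔞.toIdeal.map (MvPolynomial.map ((σ : L →+* L).comp (algebraMap O L)))).IsPrime :=
    hgeom L _ (σ.injective.comp hOL)
  let S' := MvPolynomial (Fin n) L ⧸ 𝔞.toIdeal.map
    (MvPolynomial.map ((σ : L →+* L).comp (algebraMap O L)))
  have : IsDomain S' := inferInstance
  obtain ⟨γ, hγ⟩ := exists_injective_tensor (FractionRing S') (algebraMap O L) 𝔞.toIdeal
    (Ideal.Quotient.mkₐ L (𝔞.toIdeal.map (MvPolynomial.map (algebraMap O L))))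
    Ideal.Quotient.mk_surjective (Ideal.Quotient.mkₐ_ker L _)
  have h3 : (𝔞.toIdeal.map (MvPolynomial.map ((algebraMap L (FractionRing S')).comp
      (algebraMap O L)))).IsPrime :=
    hgeom _ _ ((algebraMap L (FractionRing S')).injective.comp hOL)
  have h4 := hγ.isDomain γ
  let lin : (MvPolynomial (Fin n) L ⧸ 𝔞.toIdeal.map (MvPolynomial.map (algebraMap O L))) ⊗[L] S'
      →ₐ[L] (MvPolynomial (Fin n) L ⧸ 𝔞.toIdeal.map
        (MvPolynomial.map (algebraMap O L))) ⊗[L] (FractionRing S') :=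
    Algebra.TensorProduct.map (AlgHom.id L _) (IsScalarTower.toAlgHom L S' (FractionRing S'))
  have hlin : Function.Injective lin :=
    injective_map_id _ (IsFractionRing.injective S' (FractionRing S'))
  exact (hlin.comp hα).isDomain (lin.toRingHom.comp α)

end Weil

end Pool.Agent.Lib.MP_6a3dac_ag
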