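import Pool.Agent.Lib.MP_6a3dac_ag.QWWeilLoc
import Pool.Agent.Lib.MP_6a3dac_ag.QWWeilDom

/-!
# Regular models of Weil restrictions along quadratic extensions
-/

set_option autoImplicit false
set_option linter.unusedSectionVars false
set_option linter.unusedVariables false

namespace Pool.Agent.Lib.MP_6a3dac_ag

open CategoryTheory Limits AlgebraicGeometry MvPolynomial TensorProduct IsDedekindDomain

attribute [local instance] MvPolynomial.gradedAlgebra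

variable {R K O L : Type} [CommRing R] [IsDedekindDomain R] [Field K] [Algebra R K]
  [IsFractionRing R K] [CommRing O] [IsDedekindDomain O] [Algebra R O] [Module.Finite R O]
  [Field L] [Algebra R L] [Algebra O L] [IsScalarTower R O L] [IsFractionRing O L]
  [Algebra K L] [IsScalarTower R K L]

theorem exists_model_weil_quadratic (hRf : ¬ IsField R)
    (hfin : ∀ p : HeightOneSpectrum R, Finite (R ⧸ p.asIdeal))
    {σ : L ≃ₐ[K] L} (hσ2 : ∀ c, σ (σ c) = c)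
    {σO : O →+* O} (hσO : ∀ c, algebraMap O L (σO c) = σ (algebraMap O L c))
    (h : QuadExt R O σO) {n : ℕ} (𝔞 : HomogeneousIdeal (homogeneousSubmodule (Fin n) O))
    [IsDomain (PairRing σ 𝔞)] (hfl : Flat (projTo O (coordGr 𝔞)))
    (hreg : ∀ y : ProjectiveSpectrum (coordGr 𝔞),
      IsRegularLocalRing ((Proj (coordGr 𝔞)).presheaf.stalk y))
    (hsm : ∀ (𝔓 : Ideal O) (_ : 𝔓.IsPrime), 𝔓 ≠ ⊥ → SmoothAt 𝔞 𝔓 ∨ SmoothAt 𝔞 (𝔓.comap σO))
    (A₀ : Subalgebra K (PairRing σ 𝔞))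
    (hA₀ : ∀ z, z ∈ A₀ ↔ z ∈ segreAlg σ 𝔞 ∧ swapPair 𝔞 hσ2 z = z)
    (𝒜 : ℕ → Submodule K A₀) (hgr : GradedAlgebra 𝒜)
    (h𝒜 : ∀ k a, a ∈ 𝒜 k ↔ (a : PairRing σ 𝔞) ∈ pairGr σ 𝔞 (2 * k)) :
    ∃ (Y : Scheme.{0}) (g : Y ⟶ Spec (CommRingCat.of R)),
      IsProper g ∧ Flat g ∧ (∀ y : Y, IsRegularLocalRing (Y.presheaf.stalk y)) ∧
      ∃ e : pullback g (Spec.map (CommRingCat.ofHom (algebraMap R K))) ≅ Proj 𝒜,
        e.hom ≫ projTo K 𝒜 =
          pullback.snd g (Spec.map (CommRingCat.ofHom (algebraMap R K))) := by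
  let F := FractionRing (PairRing σ 𝔞)
  let ιP : PairRing σ 𝔞 →ₐ[L] F := IsScalarTower.toAlgHom L (PairRing σ 𝔞) F
  have hιP : Function.Injective ιP := IsFractionRing.injective (PairRing σ 𝔞) F
  have hswi : Function.Injective (swapPair 𝔞 hσ2) :=
    Function.LeftInverse.injective (swapPair_swapPair 𝔞 hσ2)
  have hg : Function.Injective ((algebraMap (PairRing σ 𝔞) F).comp (swapPair 𝔞 hσ2)) :=
    (IsFractionRing.injective (PairRing σ 𝔞) F).comp hswi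
  let τF : F →+* F := IsFractionRing.lift hg
  have hτF0 : ∀ z : PairRing σ 𝔞, τF (ιP z) = ιP (swapPair 𝔞 hσ2 z) := fun z =>
    IsFractionRing.lift_algebraMap hg z
  have hτF2 : ∀ z, τF (τF z) = z := by
    have h1 : τF.comp τF = RingHom.id F := by
      apply IsLocalization.ringHom_ext (nonZeroDivisors (PairRing σ 𝔞))
      refine RingHom.ext fun z => ?_
      change τF (τF (ιP z)) = ιP z
      rw [hτF0, hτF0, swapPair_swapPair]
    exact fun z => RingHom.congr_fun h1 z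
  have hτx : ∀ k, τF (ιP (xCl σ 𝔞 k)) = ιP (yCl σ 𝔞 k) := fun k => by
    rw [hτF0, swapPair_xCl]
  have hτL : ∀ c : L, τF (algebraMap L F c) = algebraMap L F (σ c) := fun c => by
    rw [← ιP.commutes, ← ιP.commutes, hτF0, swapPair_algebraMap]
  let j : A₀ →ₐ[R] segreAlg σ 𝔞 :=
    { toFun := fun z => ⟨z, ((hA₀ _).mp z.2).1⟩
      map_one' := rfl
      map_mul' := fun _ _ => rfl
      map_zero' := rfl
      map_add' := fun _ _ => rfl
      commutes' := fun _ => rfl }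
  have hj : Function.Injective j := fun a b hab =>
    Subtype.ext (congrArg (fun z : segreAlg σ 𝔞 => (z : PairRing σ 𝔞)) hab)
  refine exists_model_of_involution 𝒜 (segreGr σ 𝔞) hRf hfin h j hj h𝒜
    (swapSeg 𝔞 hσ2) (swapSeg_swapSeg 𝔞 hσ2) (fun k m hm => swapPair_mem_pairGr 𝔞 hσ2 hm)
    ?_ ?_ ?_ (segMap ιP) (hιP.comp Subtype.val_injective) τF (fun m => hτF0 m) hτF2
    (xx σ 𝔞) ?_ ?_ {i | i.1 = i.2} ?_ ?_ ?_ ?_
  · intro m hm
    have h1 := congrArg Subtype.val hm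
    rw [coe_swapSeg] at h1
    exact ⟨⟨m, (hA₀ _).mpr ⟨m.2, h1⟩⟩, rfl⟩
  · intro a
    apply Subtype.ext
    rw [coe_swapSeg]
    exact ((hA₀ _).mp a.2).2
  · intro c
    apply Subtype.ext
    rw [coe_swapSeg]
    change swapPair 𝔞 hσ2 (algebraMap L (PairRing σ 𝔞) (algebraMap O L c)) =
      algebraMap L (PairRing σ 𝔞) (algebraMap O L (σO c))
    rw [swapPair_algebraMap, hσO]
  · intro i
    exact xCl_mul_yCl_mem σ 𝔞 i.1 i.2
  · intro i
    refine ⟨(i.2, i.1), Subtype.ext ?_⟩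
    rw [coe_swapSeg]
    change swapPair 𝔞 hσ2 (xCl σ 𝔞 i.1 * yCl σ 𝔞 i.2) = xCl σ 𝔞 i.2 * yCl σ 𝔞 i.1
    rw [map_mul, swapPair_xCl, swapPair_yCl, mul_comm]
  · intro i
    refine ⟨(i.1, i.1), (i.2, i.2), rfl, Subtype.ext ?_, Subtype.ext ?_⟩
    · rw [coe_swapSeg]
      change swapPair 𝔞 hσ2 (xCl σ 𝔞 i.1 * yCl σ 𝔞 i.1) = xCl σ 𝔞 i.1 * yCl σ 𝔞 i.1
      rw [map_mul, swapPair_xCl, swapPair_yCl, mul_comm]
    · change (xCl σ 𝔞 i.1 * yCl σ 𝔞 i.2) * swapPair 𝔞 hσ2 (xCl σ 𝔞 i.1 * yCl σ 𝔞 i.2) =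
        (xCl σ 𝔞 i.1 * yCl σ 𝔞 i.1) * (xCl σ 𝔞 i.2 * yCl σ 𝔞 i.2)
      rw [map_mul, swapPair_xCl, swapPair_yCl]
      ring
  · have h1 : (((↑) : segreAlg σ 𝔞 → PairRing σ 𝔞) ⁻¹' (Set.range fun ij : Fin n × Fin n =>
        xCl σ 𝔞 ij.1 * yCl σ 𝔞 ij.2)) = Set.range (xx σ 𝔞) := by
      ext z
      constructor
      · rintro ⟨ij, hij⟩
        exact ⟨ij, Subtype.ext hij⟩
      · rintro ⟨ij, rfl⟩
        exact ⟨ij, rfl⟩
    rw [← h1]
    exact Algebra.adjoin_adjoin_coe_preimage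
  · intro p i D hloc hΛD hx0 hcoord
    exact exists_chart_weil ιP hιP hτx hτL hσO h hfl hreg hsm p.asIdeal p.ne_bot i D hloc hΛD hx0
      hcoord
  · intro p hU 𝔓 h𝔓 hp𝔓 ϖ r hr hirr hdiv i D hi _ _ hΛD hx0 hcoord _ _
    exact exists_ramChart_weil ιP hιP hτF2 hτx hτL hσO h hfl hreg hsm p.asIdeal p.ne_bot hU 𝔓 h𝔓
      hp𝔓 ϖ r hr hirr hdiv i D hi hΛD hx0 hcoord

end Pool.Agent.Lib.MP_6a3dac_ag
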