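import Pool.Agent.Lib.MP_6a3dac_ag.QWPresSch
import Pool.Agent.Lib.MP_6a3dac_ag.QWWeilModel
import Pool.Agent.Lib.MP_6a3dac_ag.QWNumber

/-!
# The theorem on Weil restrictions
-/

set_option autoImplicit false

namespace Pool.Agent.Lib.MP_6a3dac_ag

open CategoryTheory Limits AlgebraicGeometry NumberField MvPolynomial

theorem exists_model_weilRes (E L : Type) [Field E] [NumberField E] [Field L] [NumberField L]
    [Algebra E L] (h2 : Module.finrank E L = 2) (σ : L ≃ₐ[E] L) (hσ : σ ≠ 1) (n : ℕ)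
    (𝔞 : HomIdeal (𝓞 L) n) (hflat : Flat (hProjTo 𝔞))
    (hreg : ∀ y : hProj 𝔞, IsRegularLocalRing ((hProj 𝔞).presheaf.stalk y))
    (hgeom : GeomDomain 𝔞)
    (hsm : ∀ (𝔓 : Ideal (𝓞 L)) [𝔓.IsPrime], 𝔓 ≠ ⊥ →
      SmoothOver 𝔞 𝔓 ∨ SmoothOver 𝔞 (𝔓.comap (RingOfIntegers.mapRingHom (σ : L →+* L)))) :
    ∃ (Y : Scheme.{0}) (g : Y ⟶ Spec (CommRingCat.of (𝓞 E))),
      IsProper g ∧ Flat g ∧ (∀ y : Y, IsRegularLocalRing (Y.presheaf.stalk y)) ∧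
      ∃ e : pullback g (Spec.map (CommRingCat.ofHom (algebraMap (𝓞 E) E))) ≅ weilRes σ 𝔞,
        e.hom ≫ weilResTo σ 𝔞 =
          pullback.snd g (Spec.map (CommRingCat.ofHom (algebraMap (𝓞 E) E))) := by
  have hdom : IsDomain (PairRing σ 𝔞.toHom) :=
    isDomain_pairRing σ 𝔞.toHom (IsFractionRing.injective (𝓞 L) L) hgeom
  exact exists_model_weil_quadratic (R := 𝓞 E) (O := 𝓞 L)
    (RingOfIntegers.not_isField E) (fun p => inferInstance) (involution_of_finrank h2 σ)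
    (σO := RingOfIntegers.mapRingHom (σ : L →+* L)) (fun c => rfl)
    (quadExt_of_finrank h2 σ hσ) 𝔞.toHom hflat hreg (fun 𝔓 _ h0 => hsm 𝔓 h0)
    (resSub σ 𝔞) (fun z => (mem_resSub_iff σ 𝔞 z).trans
      (mem_resAlg_iff 𝔞.toHom (involution_of_finrank h2 σ) z)) (rGr σ 𝔞) (rGradedAlgebra σ 𝔞)
    (fun k a => Iff.rfl)

end Pool.Agent.Lib.MP_6a3dac_ag
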