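import Pool.Agent.Lib.MP_6a3dac_ag.Mg.G003
import Pool.Agent.Lib.MP_6a3dac_ag.QWArith
import Pool.Agent.Lib.MP_6a3dac_ag.Mg.G006

/-!
# Generators of the rings of invariants
-/

set_option autoImplicit false
set_option linter.unusedSectionVars false
set_option linter.unusedVariables false

namespace Pool.Agent.Lib.MP_6a3dac_ag

theorem monic_quad {S : Type} [CommRing S] (a b : S) :
    (Polynomial.X ^ 2 - Polynomial.C a * Polynomial.X + Polynomial.C b).Monic := by
  nontriviality S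
  monicity!

section FG

variable {R A M : Type} [CommRing R] [IsNoetherianRing R] [CommRing A] [Algebra R A] [CommRing M]
  [Algebra R M]

/-- The ring of invariants of a finitely generated algebra under an involution is finitely
generated. -/
theorem fg_comap_of_involution (j : A →ₐ[R] M) (hj : Function.Injective j) (τ : M →+* M)
    (hτ : ∀ m, τ (τ m) = m) (hfix : ∀ m, τ m = m → ∃ a, j a = m) (T : Subalgebra R M)
    (hTτ : ∀ t ∈ T, τ t ∈ T) (hT : T.FG) : (T.comap j).FG := by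
  let S : Subalgebra R A := T.comap j
  let jT : S →ₐ[R] T := (j.comp S.val).codRestrict T fun s => s.2
  have hjTinj : Function.Injective jT := by
    intro a b hab
    apply Subtype.ext
    apply hj
    exact congrArg Subtype.val hab
  have hlift : ∀ t : T, τ t = t → ∃ s : S, jT s = t := by
    intro t ht
    obtain ⟨a, ha⟩ := hfix t ht
    exact ⟨⟨a, by change j a ∈ T; rw [ha]; exact t.2⟩, Subtype.ext ha⟩
  let : Algebra S T := jT.toRingHom.toAlgebra
  have hst : IsScalarTower R S T := IsScalarTower.of_algebraMap_eq fun r => (jT.commutes r).symm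
  have hint : Algebra.IsIntegral S T := by
    refine ⟨fun t => ?_⟩
    let τt : T := ⟨τ t, hTτ t t.2⟩
    obtain ⟨a, ha⟩ := hlift (t + τt) (by
      change τ ((t : M) + τ t) = t + τ t
      rw [map_add, hτ, add_comm])
    obtain ⟨b, hb⟩ := hlift (t * τt) (by
      change τ ((t : M) * τ t) = t * τ t
      rw [map_mul, hτ, mul_comm])
    refine ⟨Polynomial.X ^ 2 - Polynomial.C a * Polynomial.X + Polynomial.C b, ?_, ?_⟩
    · exact monic_quad a b
    · rw [Polynomial.eval₂_add, Polynomial.eval₂_sub, Polynomial.eval₂_mul,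
        Polynomial.eval₂_C, Polynomial.eval₂_C, Polynomial.eval₂_X, Polynomial.eval₂_pow,
        Polynomial.eval₂_X]
      change t ^ 2 - jT a * t + jT b = 0
      rw [ha, hb]
      ring
  have hft : Algebra.FiniteType R T := (Subalgebra.fg_iff_finiteType T).mp hT
  have hft' : Algebra.FiniteType S T := Algebra.FiniteType.of_restrictScalars_finiteType R S T
  have hfin : Module.Finite S T := Algebra.IsIntegral.finite
  have h1 : (⊤ : Subalgebra R S).FG := fg_of_fg_of_fg R S T hft.out hfin.fg_top hjTinj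
  rw [Subalgebra.fg_iff_finiteType]
  exact ⟨h1⟩

end FG

section Homog

variable {R K A : Type} [CommRing R] [CommRing K] [CommRing A] [Algebra R K] [Algebra K A]
  [Algebra R A] [IsScalarTower R K A] (𝒜 : ℕ → Submodule K A) [GradedAlgebra 𝒜]

/-- `F` is a finite set of homogeneous generators of positive degree of `S`. -/
def GoodGens (S : Subalgebra R A) (F : Set A) : Prop :=
  F.Finite ∧ (∀ x ∈ F, ∃ i, 0 < i ∧ x ∈ 𝒜 i) ∧ Algebra.adjoin R F = S

omit [Algebra R K] [IsScalarTower R K A] in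
theorem exists_goodGens {S : Subalgebra R A} (hS : IsHomog 𝒜 S) (hFG : S.FG)
    (h0 : ∀ s ∈ S, s ∈ 𝒜 0 → ∃ r : R, algebraMap R A r = s) : ∃ F, GoodGens 𝒜 S F := by
  classical
  obtain ⟨G, hG⟩ := hFG
  refine ⟨⋃ g ∈ G, ⋃ i ∈ (DirectSum.decompose 𝒜 g).support.filter (fun i => 0 < i),
    {(DirectSum.decompose 𝒜 g i : A)}, ?_, ?_, ?_⟩
  · exact G.finite_toSet.biUnion fun g _ => (Finset.finite_toSet _).biUnion fun i _ =>
      Set.finite_singleton _
  · intro x hx
    simp only [Set.mem_iUnion, Finset.mem_filter, Set.mem_singleton_iff] at hx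
    obtain ⟨g, _, i, ⟨_, hi⟩, rfl⟩ := hx
    exact ⟨i, hi, (DirectSum.decompose 𝒜 g i).2⟩
  · apply le_antisymm
    · rw [Algebra.adjoin_le_iff]
      intro x hx
      simp only [Set.mem_iUnion, Finset.mem_filter, Set.mem_singleton_iff] at hx
      obtain ⟨g, hg, i, ⟨_, hi⟩, rfl⟩ := hx
      exact hS g (hG ▸ Algebra.subset_adjoin hg) i
    · conv_lhs => rw [← hG]
      rw [Algebra.adjoin_le_iff]
      intro g hg
      have hgS : g ∈ S := hG ▸ Algebra.subset_adjoin hg
      rw [SetLike.mem_coe, ← DirectSum.sum_support_decompose 𝒜 g]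
      refine Subalgebra.sum_mem _ fun i hi => ?_
      rcases Nat.eq_zero_or_pos i with rfl | hi0
      · obtain ⟨r, hr⟩ := h0 _ (hS g hgS 0) (DirectSum.decompose 𝒜 g 0).2
        rw [← hr]
        exact Subalgebra.algebraMap_mem _ _
      · apply Algebra.subset_adjoin
        simp only [Set.mem_iUnion, Finset.mem_filter, Set.mem_singleton_iff]
        exact ⟨g, hg, i, ⟨hi, hi0⟩, rfl⟩

open Classical in
/-- A choice of generators. -/
noncomputable def gensOf (S : Subalgebra R A) : Set A :=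
  if h : ∃ F, GoodGens 𝒜 S F then h.choose else ∅

omit [Algebra R K] [IsScalarTower R K A] [GradedAlgebra 𝒜] in
theorem goodGens_gensOf {S : Subalgebra R A} (h : ∃ F, GoodGens 𝒜 S F) :
    GoodGens 𝒜 S (gensOf 𝒜 S) := by
  rw [gensOf, dif_pos h]
  exact h.choose_spec

end Homog

section Order

variable {R O L M I : Type} [CommRing R] [CommRing O] [Algebra R O] [Field L] [Algebra R L]
  [Algebra O L] [IsScalarTower R O L] [CommRing M] [Algebra L M] [Algebra R M]
  [IsScalarTower R L M] (ℳ : ℕ → Submodule L M) [GradedAlgebra ℳ]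

/-- The embedding of `O` into `M`. -/
def oM (O L M : Type) [CommRing O] [Field L] [Algebra O L] [CommRing M] [Algebra L M] : O →+* M :=
  (algebraMap L M).comp (algebraMap O L)

theorem oM_algebraMap (r : R) : oM O L M (algebraMap R O r) = algebraMap R M r := by
  rw [oM, RingHom.comp_apply, ← IsScalarTower.algebraMap_apply R O L,
    ← IsScalarTower.algebraMap_apply R L M]

omit [CommRing R] [Algebra R O] [Algebra R L] [IsScalarTower R O L] [Algebra R M]
  [IsScalarTower R L M] in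
theorem oM_deg (c : O) : oM O L M c ∈ ℳ 0 := SetLike.algebraMap_mem_graded ℳ _

variable (O L M) in
/-- The localization of `O` at the prime `p` of `R`, inside `M`. -/
def lamP (p : Ideal R) [hp : p.IsPrime] : Subring M where
  carrier := {m | ∃ n, n ∉ p ∧ ∃ c : O, algebraMap R M n * m = oM O L M c ∧ ∃ l, algebraMap L M l = m}
  mul_mem' := by
    rintro a b ⟨n, hn, c, hc, l, hl⟩ ⟨n', hn', c', hc', l', hl'⟩
    refine ⟨n * n', fun h => (hp.mem_or_mem h).elim hn hn', c * c', ?_, l * l', ?_⟩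
    · rw [map_mul, map_mul, ← hc, ← hc']; ring
    · rw [map_mul, hl, hl']
  one_mem' := ⟨1, fun h => hp.ne_top ((Ideal.eq_top_iff_one _).mpr h), 1, by simp, 1, map_one _⟩
  add_mem' := by
    rintro a b ⟨n, hn, c, hc, l, hl⟩ ⟨n', hn', c', hc', l', hl'⟩
    refine ⟨n * n', fun h => (hp.mem_or_mem h).elim hn hn',
      c * algebraMap R O n' + algebraMap R O n * c', ?_, l + l', ?_⟩
    · rw [map_mul, map_add, map_mul, map_mul, ← hc, ← hc', oM_algebraMap, oM_algebraMap]; ring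
    · rw [map_add, hl, hl']
  zero_mem' := ⟨1, fun h => hp.ne_top ((Ideal.eq_top_iff_one _).mpr h), 0, by simp, 0, map_zero _⟩
  neg_mem' := by
    rintro a ⟨n, hn, c, hc, l, hl⟩
    exact ⟨n, hn, -c, by rw [map_neg, ← hc]; ring, -l, by rw [map_neg, hl]⟩

variable {ℳ}

theorem mem_lamP {p : Ideal R} [p.IsPrime] {m : M} : m ∈ lamP O L M p ↔ ∃ n, n ∉ p ∧ ∃ c : O,
    algebraMap R M n * m = oM O L M c ∧ ∃ l, algebraMap L M l = m := Iff.rfl

theorem oM_mem_lamP (p : Ideal R) [hp : p.IsPrime] (c : O) : oM O L M c ∈ lamP O L M p :=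
  ⟨1, fun h => hp.ne_top ((Ideal.eq_top_iff_one _).mpr h), c, by rw [map_one, one_mul],
    _, rfl⟩

theorem lamP_deg (p : Ideal R) [p.IsPrime] {m : M} (hm : m ∈ lamP O L M p) : m ∈ ℳ 0 := by
  obtain ⟨_, _, _, _, l, rfl⟩ := hm
  exact SetLike.algebraMap_mem_graded ℳ _

variable (hRL : Function.Injective (algebraMap R L))
include hRL

omit [Algebra R O] [IsScalarTower R O L] [GradedAlgebra ℳ] [CommRing O] [Algebra O L] in
theorem exists_inv {p : Ideal R} [hp : p.IsPrime] {n : R} (hn : n ∉ p) :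
    ∃ l : L, algebraMap R M n * algebraMap L M l = 1 := by
  have h0 : algebraMap R L n ≠ 0 := by
    intro h0
    apply hn
    rw [hRL (h0.trans (map_zero _).symm)]
    exact p.zero_mem
  refine ⟨(algebraMap R L n)⁻¹, ?_⟩
  rw [IsScalarTower.algebraMap_apply R L M, ← map_mul, mul_inv_cancel₀ h0, map_one]

variable (x : I → M) (τ : M →+* M) (C₀ : Set O) (ϖ : O) (r : ℕ)

omit hRL in
/-- The generators of the order. -/
def orderGens : Set M :=
  oM O L M '' C₀ ∪ (WSet x τ (oM O L M ϖ) r ∪ W1Set x (oM O L M ϖ) r)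

omit hRL in
/-- The order. -/
def orderAlg (R : Type) [CommRing R] [Algebra R M] : Subalgebra R M :=
  Algebra.adjoin R (orderGens (L := L) x τ C₀ ϖ r ∪ τ '' orderGens (L := L) x τ C₀ ϖ r)

end Order

section OrderHyp

variable {R O L M I : Type} [CommRing R] [CommRing O] [Algebra R O] [Field L] [Algebra R L]
  [Algebra O L] [IsScalarTower R O L] [CommRing M] [Algebra L M] [Algebra R M]
  [IsScalarTower R L M] {ℳ : ℕ → Submodule L M} [GradedAlgebra ℳ]
  {σ : O →+* O} (h : QuadExt R O σ) (hRL : Function.Injective (algebraMap R L))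
  {x : I → M} {τ : M →+* M} {C₀ : Set O} {ϖ : O} {r : ℕ}
  (hτO : ∀ c, τ (oM O L M c) = oM O L M (σ c)) (hτ : ∀ m, τ (τ m) = m)
  (hτgr : ∀ n m, m ∈ ℳ n → τ m ∈ ℳ n)
  (hxdeg : ∀ i, x i ∈ ℳ 1) (hstar : ∀ l, ∃ l', τ (x l) = x l')
  (hC₀ : Algebra.adjoin R C₀ = ⊤) (p : Ideal R) [hp : p.IsPrime]
  (hη : ∃ η ∈ lamP O L M p, τ (oM O L M ϖ) = η * oM O L M ϖ)

include hτO hstar hη hτ in
theorem map_BSet {j : ℕ} {b : M} (hb : b ∈ BSet x τ (oM O L M ϖ) j) :
    ∃ c ∈ lamP O L M p, ∃ b' ∈ BSet x τ (oM O L M ϖ) j, τ b = c * b' := by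
  obtain ⟨η, hη1, hη2⟩ := hη
  obtain ⟨k, l, rfl | rfl⟩ := hb
  · obtain ⟨k', hk'⟩ := hstar k
    obtain ⟨l', hl'⟩ := hstar l
    refine ⟨η ^ j, Subring.pow_mem _ hη1 j, _, ⟨k', l', Or.inl rfl⟩, ?_⟩
    rw [map_mul, map_mul, map_pow, hη2, hk', hl', mul_pow]
    ring
  · refine ⟨1, Subring.one_mem _, _, ⟨l, k, Or.inr rfl⟩, ?_⟩
    rw [uEl, uEl, map_sub, map_mul, map_mul, hτ, hτ]
    ring

include hτO hstar hη hτ in
theorem map_WSet {w : M} (hw : w ∈ WSet x τ (oM O L M ϖ) r) :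
    ∃ c ∈ lamP O L M p, ∃ w' ∈ WSet x τ (oM O L M ϖ) r, τ w = c * w' := by
  obtain ⟨i, q, ⟨β, hβ, rfl⟩, rfl⟩ := hw
  obtain ⟨i', hi'⟩ := hstar i
  choose! c hc b' hb' hcb using fun j hj => map_BSet hτO hτ hstar p hη (hβ j hj)
  refine ⟨∏ j ∈ Finset.Icc 1 r, c j, Subring.prod_mem _ hc, x i' * ∏ j ∈ Finset.Icc 1 r, b' j,
    ⟨i', _, ⟨b', hb', rfl⟩, rfl⟩, ?_⟩
  rw [map_mul, map_prod, hi', Finset.prod_congr rfl hcb, Finset.prod_mul_distrib]
  ring

include hτO hstar hη in
theorem map_W1Set {w : M} (hw : w ∈ W1Set x (oM O L M ϖ) r) :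
    ∃ c ∈ lamP O L M p, ∃ w' ∈ W1Set x (oM O L M ϖ) r, τ w = c * w' := by
  obtain ⟨i, rfl⟩ := hw
  obtain ⟨i', hi'⟩ := hstar i
  obtain ⟨η, hη1, hη2⟩ := hη
  refine ⟨∏ j ∈ Finset.Icc 1 r, η ^ j, Subring.prod_mem _ fun j _ => Subring.pow_mem _ hη1 j, _,
    ⟨i', rfl⟩, ?_⟩
  rw [map_mul, map_prod, hi', ← mul_assoc, ← Finset.prod_mul_distrib]
  congr 1
  refine Finset.prod_congr rfl fun j _ => ?_
  rw [map_pow, hη2, mul_pow]

include hxdeg hτgr in
theorem orderGens_homog {m : M} (hm : m ∈ orderGens (L := L) x τ C₀ ϖ r ∪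
    τ '' orderGens (L := L) x τ C₀ ϖ r) : ∃ i, m ∈ ℳ i := by
  have key : ∀ m ∈ orderGens (L := L) x τ C₀ ϖ r, ∃ i, m ∈ ℳ i := by
    rintro m (⟨c, -, rfl⟩ | hm | hm)
    · exact ⟨0, oM_deg ℳ c⟩
    · obtain ⟨i, q, ⟨β, hβ, rfl⟩, rfl⟩ := hm
      have h1 : ∀ j ∈ Finset.Icc 1 r, β j ∈ ℳ 2 := by
        intro j hj
        obtain ⟨k, l, hb | hb⟩ := hβ j hj
        · rw [hb]
          have := SetLike.mul_mem_graded (SetLike.pow_mem_graded j (oM_deg (M := M) ℳ ϖ))
            (SetLike.mul_mem_graded (hxdeg k) (hxdeg l))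
          simpa using this
        · rw [hb]
          exact (ℳ 2).sub_mem (SetLike.mul_mem_graded (hxdeg k) (hτgr _ _ (hxdeg l)))
            (SetLike.mul_mem_graded (hxdeg l) (hτgr _ _ (hxdeg k)))
      refine ⟨1 + ∑ j ∈ Finset.Icc 1 r, 2, SetLike.mul_mem_graded (hxdeg i) ?_⟩
      exact SetLike.prod_mem_graded _ _ _ h1
    · obtain ⟨i, rfl⟩ := hm
      refine ⟨(∑ j ∈ Finset.Icc 1 r, j • 0) + 1, SetLike.mul_mem_graded
        (SetLike.prod_mem_graded _ _ _ fun j _ => SetLike.pow_mem_graded j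
          (oM_deg (M := M) ℳ ϖ)) (hxdeg i)⟩
  rcases hm with hm | ⟨m, hm, rfl⟩
  · exact key m hm
  · obtain ⟨i, hi⟩ := key m hm
    exact ⟨i, hτgr i m hi⟩

include hC₀ in
theorem oM_mem_orderAlg (c : O) : oM O L M c ∈ orderAlg (L := L) x τ C₀ ϖ r R := by
  have hc : c ∈ Algebra.adjoin R C₀ := by rw [hC₀]; exact Algebra.mem_top
  induction hc using Algebra.adjoin_induction with
  | mem c hc => exact Algebra.subset_adjoin (Or.inl (Or.inl ⟨c, hc, rfl⟩))
  | algebraMap r => rw [oM_algebraMap]; exact Subalgebra.algebraMap_mem _ _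
  | add a b _ _ ha hb => rw [map_add]; exact Subalgebra.add_mem _ ha hb
  | mul a b _ _ ha hb => rw [map_mul]; exact Subalgebra.mul_mem _ ha hb

/-- The order is stable under the involution. -/
theorem map_orderAlg (hτR : ∀ a : R, τ (algebraMap R M a) = algebraMap R M a)
    (hτ : ∀ m, τ (τ m) = m) {t : M} (ht : t ∈ orderAlg (L := L) x τ C₀ ϖ r R) :
    τ t ∈ orderAlg (L := L) x τ C₀ ϖ r R := by
  unfold orderAlg at ht
  induction ht using Algebra.adjoin_induction with
  | mem m hm =>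
    rcases hm with hm | ⟨m, hm, rfl⟩
    · exact Algebra.subset_adjoin (Or.inr ⟨m, hm, rfl⟩)
    · rw [hτ]
      exact Algebra.subset_adjoin (Or.inl hm)
  | algebraMap r => rw [hτR]; exact Subalgebra.algebraMap_mem _ _
  | add a b _ _ ha hb => rw [map_add]; exact Subalgebra.add_mem _ ha hb
  | mul a b _ _ ha hb => rw [map_mul]; exact Subalgebra.mul_mem _ ha hb

include h hRL hτO hτ hτgr hxdeg hstar hC₀ hη in
/-- The localized order satisfies the hypotheses of the local theory. -/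
theorem orderHyp_locSub : OrderHyp ℳ x τ (oM O L M ϖ) (lamP O L M p) r
    (locSub p (orderAlg (L := L) x τ C₀ ϖ r R)) where
  xdeg := hxdeg
  τdeg := hτgr
  Λdeg c hc := lamP_deg p hc
  ϖΛ := oM_mem_lamP p ϖ
  hom := isHomog_locSub ℳ p (isHomog_adjoin ℳ fun m hm => orderGens_homog hτgr hxdeg hm)
  Λ_le c hc := by
    obtain ⟨n, hn, c', hc', -⟩ := hc
    refine ⟨n, hn, ?_⟩
    rw [Algebra.smul_def, hc']
    exact oM_mem_orderAlg hC₀ c'
  W_le c hc := le_locSub _ _ (Algebra.subset_adjoin (Or.inl (Or.inr (Or.inl hc))))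
  W1_le c hc := le_locSub _ _ (Algebra.subset_adjoin (Or.inl (Or.inr (Or.inr hc))))
  gen N hN1 hN2 hN3 t ht := by
    have hgen : ∀ m ∈ orderGens (L := L) x τ C₀ ϖ r ∪ τ '' orderGens (L := L) x τ C₀ ϖ r,
        m ∈ N := by
      rintro m ((⟨c, -, rfl⟩ | hm | hm) | ⟨m, (⟨c, -, rfl⟩ | hm | hm), rfl⟩)
      · exact hN1 _ (oM_mem_lamP p c)
      · exact hN2 _ hm
      · exact hN3 _ hm
      · rw [hτO]
        exact hN1 _ (oM_mem_lamP p _)
      · obtain ⟨c, hc, w', hw', hcw⟩ := map_WSet hτO hτ hstar p hη hm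
        rw [hcw]
        exact N.mul_mem (hN1 c hc) (hN2 w' hw')
      · obtain ⟨c, hc, w', hw', hcw⟩ := map_W1Set hτO hstar p hη hm
        rw [hcw]
        exact N.mul_mem (hN1 c hc) (hN3 w' hw')
    have hadj : ∀ m ∈ orderAlg (L := L) x τ C₀ ϖ r R, m ∈ N := by
      intro m hm
      unfold orderAlg at hm
      induction hm using Algebra.adjoin_induction with
      | mem m hm => exact hgen m hm
      | algebraMap a =>
        rw [← oM_algebraMap (O := O) (L := L)]
        exact hN1 _ (oM_mem_lamP p _)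
      | add a b _ _ ha hb => exact N.add_mem ha hb
      | mul a b _ _ ha hb => exact N.mul_mem ha hb
    obtain ⟨n, hn, hnt⟩ := ht
    obtain ⟨l, hl⟩ := exists_inv (L := L) (M := M) hRL hn
    have h1 : t = algebraMap L M l * (n • t) := by
      rw [Algebra.smul_def, ← mul_assoc, mul_comm (algebraMap L M l), hl, one_mul]
    rw [h1]
    refine N.mul_mem (hN1 _ ⟨n, hn, 1, ?_, l, rfl⟩) (hadj _ hnt)
    rw [hl, map_one]

include hxdeg hτgr hτO h in
/-- The invariants of degree zero. -/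
theorem degree_zero_orderAlg (hMinj : Function.Injective (algebraMap L M))
    (hOinj : Function.Injective (algebraMap O L)) {t : M}
    (ht : t ∈ orderAlg (L := L) x τ C₀ ϖ r R) (ht0 : t ∈ ℳ 0) (htτ : τ t = t) :
    ∃ a : R, algebraMap R M a = t := by
  have hpos : ∀ m ∈ orderGens (L := L) x τ C₀ ϖ r ∪ τ '' orderGens (L := L) x τ C₀ ϖ r,
      (∃ c, oM O L M c = m) ∨ ∃ i, 0 < i ∧ m ∈ ℳ i := by
    have key : ∀ m ∈ orderGens (L := L) x τ C₀ ϖ r, (∃ c, oM O L M c = m) ∨
        ∃ i, 0 < i ∧ m ∈ ℳ i := by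
      rintro m (⟨c, -, rfl⟩ | hm | hm)
      · exact Or.inl ⟨c, rfl⟩
      · right
        obtain ⟨i, q, ⟨β, hβ, rfl⟩, rfl⟩ := hm
        have h1 : ∀ j ∈ Finset.Icc 1 r, β j ∈ ℳ 2 := by
          intro j hj
          obtain ⟨k, l, hb | hb⟩ := hβ j hj
          · rw [hb]
            have := SetLike.mul_mem_graded (SetLike.pow_mem_graded j (oM_deg (M := M) ℳ ϖ))
              (SetLike.mul_mem_graded (hxdeg k) (hxdeg l))
            simpa using this
          · rw [hb]
            exact (ℳ 2).sub_mem (SetLike.mul_mem_graded (hxdeg k) (hτgr _ _ (hxdeg l)))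
              (SetLike.mul_mem_graded (hxdeg l) (hτgr _ _ (hxdeg k)))
        exact ⟨1 + ∑ j ∈ Finset.Icc 1 r, 2, by omega, SetLike.mul_mem_graded (hxdeg i)
          (SetLike.prod_mem_graded _ _ _ h1)⟩
      · right
        obtain ⟨i, rfl⟩ := hm
        exact ⟨(∑ j ∈ Finset.Icc 1 r, j • 0) + 1, by omega, SetLike.mul_mem_graded
          (SetLike.prod_mem_graded _ _ _ fun j _ => SetLike.pow_mem_graded j
            (oM_deg (M := M) ℳ ϖ)) (hxdeg i)⟩
    rintro m (hm | ⟨m, hm, rfl⟩)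
    · exact key m hm
    · rcases key m hm with ⟨c, rfl⟩ | ⟨i, hi, hmi⟩
      · exact Or.inl ⟨σ c, (hτO c).symm⟩
      · exact Or.inr ⟨i, hi, hτgr i m hmi⟩
  have key : ∀ t ∈ orderAlg (L := L) x τ C₀ ϖ r R, ∃ c : O,
      oM O L M c = GradedRing.projZeroRingHom ℳ t := by
    intro t ht
    unfold orderAlg at ht
    induction ht using Algebra.adjoin_induction with
    | mem m hm =>
      rcases hpos m hm with ⟨c, rfl⟩ | ⟨i, hi, hmi⟩
      · refine ⟨c, ?_⟩
        rw [GradedRing.projZeroRingHom_apply, DirectSum.decompose_of_mem_same ℳ (oM_deg ℳ c)]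
      · refine ⟨0, ?_⟩
        rw [map_zero, GradedRing.projZeroRingHom_apply, DirectSum.decompose_of_mem_ne ℳ hmi hi.ne']
    | algebraMap a =>
      refine ⟨algebraMap R O a, ?_⟩
      rw [← oM_algebraMap (O := O) (L := L) (M := M) a, GradedRing.projZeroRingHom_apply,
        DirectSum.decompose_of_mem_same ℳ (oM_deg ℳ _)]
    | add a b _ _ ha hb =>
      obtain ⟨c, hc⟩ := ha
      obtain ⟨d, hd⟩ := hb
      exact ⟨c + d, by rw [map_add, map_add, hc, hd]⟩
    | mul a b _ _ ha hb =>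
      obtain ⟨c, hc⟩ := ha
      obtain ⟨d, hd⟩ := hb
      exact ⟨c * d, by rw [map_mul, map_mul, hc, hd]⟩
  obtain ⟨c, hc⟩ := key t ht
  rw [GradedRing.projZeroRingHom_apply, DirectSum.decompose_of_mem_same ℳ ht0] at hc
  have h1 : σ c = c := by
    apply hOinj
    apply hMinj
    change oM O L M (σ c) = oM O L M c
    rw [← hτO, hc, htτ]
  obtain ⟨a, ha⟩ := h.fixed c h1
  exact ⟨a, by rw [← oM_algebraMap (O := O) (L := L), ha, hc]⟩

include h hRL hC₀ in
/-- The order spans the algebra. -/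
theorem full_orderAlg [IsDomain R] (hdom : ∀ c : O, c ≠ 0 → c * σ c ≠ 0)
    (hfrac : ∀ l : L, ∃ a b : O, b ≠ 0 ∧ algebraMap O L b * l = algebraMap O L a)
    (hgen : Algebra.adjoin L (Set.range x) = ⊤) (hϖ : ϖ ≠ 0) (hO : IsDomain O) (m : M) :
    ∃ n : R, n ≠ 0 ∧ n • m ∈ orderAlg (L := L) x τ C₀ ϖ r R := by
  have hU : ∀ m : M, m ∈ locSub (⊥ : Ideal R) (orderAlg (L := L) x τ C₀ ϖ r R) := by
    intro m
    have hm : m ∈ Algebra.adjoin L (Set.range x) := by rw [hgen]; exact Algebra.mem_top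
    have hnorm : ∀ (c : O) (m' : M), c ≠ 0 → oM O L M c * m' ∈ locSub (⊥ : Ideal R)
        (orderAlg (L := L) x τ C₀ ϖ r R) → m' ∈ locSub (⊥ : Ideal R)
        (orderAlg (L := L) x τ C₀ ϖ r R) := by
      intro c m' hc hm'
      obtain ⟨n, hn⟩ := h.exists_norm c
      have hn0 : n ≠ 0 := by
        rintro rfl
        rw [map_zero] at hn
        exact hdom c hc hn.symm
      refine mem_locSub_of_smul _ _ (r := n) (by simpa using hn0) ?_
      have h1 : n • m' = oM O L M (σ c) * (oM O L M c * m') := by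
        rw [Algebra.smul_def, ← oM_algebraMap (O := O) (L := L), hn, map_mul]
        ring
      rw [h1]
      exact Subalgebra.mul_mem _ (le_locSub _ _ (oM_mem_orderAlg hC₀ _)) hm'
    induction hm using Algebra.adjoin_induction with
    | mem m hm =>
      obtain ⟨i, rfl⟩ := hm
      apply hnorm (∏ j ∈ Finset.Icc 1 r, ϖ ^ j) _ (Finset.prod_ne_zero_iff.mpr fun j _ =>
        pow_ne_zero _ hϖ)
      refine le_locSub _ _ (Algebra.subset_adjoin (Or.inl (Or.inr (Or.inr ⟨i, ?_⟩))))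
      rw [map_prod]
      simp only [map_pow]
    | algebraMap l =>
      obtain ⟨a, b, hb, hab⟩ := hfrac l
      apply hnorm b _ hb
      have h1 : oM O L M b * algebraMap L M l = oM O L M a := by
        rw [oM, RingHom.comp_apply, ← map_mul, hab]; rfl
      rw [h1]
      exact le_locSub _ _ (oM_mem_orderAlg hC₀ _)
    | add a b _ _ ha hb => exact Subalgebra.add_mem _ ha hb
    | mul a b _ _ ha hb => exact Subalgebra.mul_mem _ ha hb
  obtain ⟨n, hn, hnm⟩ := hU m
  exact ⟨n, by simpa using hn, hnm⟩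

end OrderHyp

end Pool.Agent.Lib.MP_6a3dac_ag
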