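import Pool.Agent.Lib.MP_6a3dac_ag.Mg.G072
import Pool.Agent.Lib.MP_6a3dac_ag.Mg.G002

/-!
# Tensor products as chart rings
-/

set_option autoImplicit false
set_option linter.unusedSectionVars false
set_option linter.unusedVariables false

namespace Pool.Agent.Lib.MP_6a3dac_ag

open TensorProduct

section Injective

variable {O' L F P B₁ B₂ ν : Type} [CommRing O'] [Field L] [Algebra O' L] [Field F]
  [Algebra L F] [Algebra O' F] [IsScalarTower O' L F] [CommRing P] [Algebra L P]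
  [CommRing B₁] [Algebra O' B₁] [CommRing B₂] [Algebra O' B₂]

/-- The map from the tensor product to the field. -/
noncomputable def prodF (f₁ : B₁ →ₐ[O'] F) (f₂ : B₂ →ₐ[O'] F) : B₁ ⊗[O'] B₂ →ₐ[O'] F :=
  Algebra.TensorProduct.productMap f₁ f₂

theorem prodF_tmul (f₁ : B₁ →ₐ[O'] F) (f₂ : B₂ →ₐ[O'] F) (b₁ : B₁) (b₂ : B₂) :
    prodF f₁ f₂ (b₁ ⊗ₜ b₂) = f₁ b₁ * f₂ b₂ := Algebra.TensorProduct.productMap_apply_tmul _ _ _ _

/-- **Injectivity of the map from the tensor product.** -/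
theorem prodF_injective (hO'L : Function.Injective (algebraMap O' L))
    (ιP : P →ₐ[L] F) (hιP : Function.Injective ιP) (f₁ : B₁ →ₐ[O'] F) (f₂ : B₂ →ₐ[O'] F)
    [Module.Flat O' (B₁ ⊗[O'] B₂)] (ξ₁ : ν → B₁) (ξ₂ : ν → B₂)
    (h₁ : Algebra.adjoin O' (Set.range ξ₁) = ⊤) (h₂ : Algebra.adjoin O' (Set.range ξ₂) = ⊤)
    (X Y : ν → P) (a b : ν) (ha : ξ₁ a = 1) (hb : ξ₂ b = 1)
    (hXa : ιP (X a) ≠ 0) (hYb : ιP (Y b) ≠ 0)
    (hf₁ : ∀ k, f₁ (ξ₁ k) * ιP (X a) = ιP (X k)) (hf₂ : ∀ k, f₂ (ξ₂ k) * ιP (Y b) = ιP (Y k))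
    (θ : P →ₐ[L] L ⊗[O'] (B₁ ⊗[O'] B₂)) (hθX : ∀ k, θ (X k) = 1 ⊗ₜ (ξ₁ k ⊗ₜ 1))
    (hθY : ∀ k, θ (Y k) = 1 ⊗ₜ (1 ⊗ₜ ξ₂ k)) :
    Function.Injective (prodF f₁ f₂) := by
  obtain ⟨u, hu⟩ : ∃ u, u = X a * Y b := ⟨_, rfl⟩
  have hθu : θ u = 1 := by
    rw [hu, map_mul, hθX, hθY, ha, hb, Algebra.TensorProduct.tmul_mul_tmul,
      Algebra.TensorProduct.tmul_mul_tmul, one_mul, one_mul, mul_one]
    rfl
  have hu0 : ιP u ≠ 0 := by
    rw [hu, map_mul]
    exact mul_ne_zero hXa hYb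
  -- the property
  let inc : B₁ ⊗[O'] B₂ →+* L ⊗[O'] (B₁ ⊗[O'] B₂) :=
    (Algebra.TensorProduct.includeRight : B₁ ⊗[O'] B₂ →ₐ[O'] L ⊗[O'] (B₁ ⊗[O'] B₂))
  have hinc : ∀ t, inc t = 1 ⊗ₜ t := fun _ => rfl
  have hincinj : Function.Injective inc := by
    have h := Module.Flat.rTensor_preserves_injective_linearMap (M := B₁ ⊗[O'] B₂)
      (Algebra.linearMap O' L) hO'L
    intro s t hst
    have h1 : (Algebra.linearMap O' L).rTensor (B₁ ⊗[O'] B₂) (1 ⊗ₜ s) =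
        (Algebra.linearMap O' L).rTensor (B₁ ⊗[O'] B₂) (1 ⊗ₜ t) := by
      rw [LinearMap.rTensor_tmul, LinearMap.rTensor_tmul, Algebra.linearMap_apply, map_one]
      exact hst
    have h2 := h h1
    have h3 := congrArg (TensorProduct.lid O' (B₁ ⊗[O'] B₂)) h2
    simpa using h3
  let U : Subring (B₁ ⊗[O'] B₂) :=
    { carrier := {t | ∃ z N, θ z = inc t ∧ ιP z = ιP u ^ N * prodF f₁ f₂ t}
      mul_mem' := by
        rintro s t ⟨z, N, h1, h2⟩ ⟨w, N', h3, h4⟩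
        refine ⟨z * w, N + N', by rw [map_mul, h1, h3, map_mul], ?_⟩
        rw [map_mul, h2, h4, map_mul, pow_add]
        ring
      one_mem' := ⟨1, 0, by rw [map_one, map_one], by rw [map_one, map_one, pow_zero, mul_one]⟩
      add_mem' := by
        rintro s t ⟨z, N, h1, h2⟩ ⟨w, N', h3, h4⟩
        refine ⟨z * u ^ N' + w * u ^ N, N + N', ?_, ?_⟩
        · rw [map_add, map_mul, map_mul, map_pow, map_pow, hθu, one_pow, one_pow, mul_one, mul_one,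
            h1, h3, map_add]
        · rw [map_add, map_mul, map_mul, map_pow, map_pow, h2, h4, map_add, pow_add]
          ring
      zero_mem' := ⟨0, 0, by rw [map_zero, map_zero], by rw [map_zero, map_zero, mul_zero]⟩
      neg_mem' := by
        rintro s ⟨z, N, h1, h2⟩
        exact ⟨-z, N, by rw [map_neg, h1, map_neg], by rw [map_neg, h2, map_neg]; ring⟩ }
  have hU : ∀ t, t ∈ U ↔ ∃ z N, θ z = inc t ∧ ιP z = ιP u ^ N * prodF f₁ f₂ t := fun _ => Iff.rfl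
  have hU1 : ∀ c : O', algebraMap O' (B₁ ⊗[O'] B₂) c ∈ U := by
    intro c
    refine ⟨algebraMap L P (algebraMap O' L c), 0, ?_, ?_⟩
    · rw [AlgHom.commutes]
      change (algebraMap O' L c) ⊗ₜ[O'] (1 : B₁ ⊗[O'] B₂) = 1 ⊗ₜ _
      rw [Algebra.algebraMap_eq_smul_one, Algebra.algebraMap_eq_smul_one, TensorProduct.smul_tmul]
    · rw [AlgHom.commutes, pow_zero, one_mul, AlgHom.commutes,
        IsScalarTower.algebraMap_apply O' L F]
  have hUX : ∀ k, (ξ₁ k ⊗ₜ 1 : B₁ ⊗[O'] B₂) ∈ U := by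
    intro k
    refine ⟨X k * Y b, 1, ?_, ?_⟩
    · rw [map_mul, hθX, hθY, hb, Algebra.TensorProduct.tmul_mul_tmul,
        Algebra.TensorProduct.tmul_mul_tmul, mul_one, mul_one, mul_one]
      rfl
    · rw [map_mul, prodF_tmul, map_one, mul_one, pow_one, hu, map_mul, ← hf₁ k]
      ring
  have hUY : ∀ k, (1 ⊗ₜ ξ₂ k : B₁ ⊗[O'] B₂) ∈ U := by
    intro k
    refine ⟨X a * Y k, 1, ?_, ?_⟩
    · rw [map_mul, hθX, hθY, ha, Algebra.TensorProduct.tmul_mul_tmul,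
        Algebra.TensorProduct.tmul_mul_tmul, one_mul, one_mul, one_mul]
      rfl
    · rw [map_mul, prodF_tmul, map_one, one_mul, pow_one, hu, map_mul, ← hf₂ k]
      ring
  have hU2 : ∀ b₁ : B₁, (b₁ ⊗ₜ 1 : B₁ ⊗[O'] B₂) ∈ U := by
    intro b₁
    have hb₁ : b₁ ∈ Algebra.adjoin O' (Set.range ξ₁) := by rw [h₁]; exact Algebra.mem_top
    induction hb₁ using Algebra.adjoin_induction with
    | mem c hc =>
      obtain ⟨k, rfl⟩ := hc
      exact hUX k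
    | algebraMap c => exact hU1 c
    | add a b _ _ ha hb =>
      rw [TensorProduct.add_tmul]
      exact U.add_mem ha hb
    | mul a b _ _ ha hb =>
      rw [show ((a * b) ⊗ₜ 1 : B₁ ⊗[O'] B₂) = (a ⊗ₜ 1) * (b ⊗ₜ 1) by
        rw [Algebra.TensorProduct.tmul_mul_tmul, mul_one]]
      exact U.mul_mem ha hb
  have hU3 : ∀ b₂ : B₂, (1 ⊗ₜ b₂ : B₁ ⊗[O'] B₂) ∈ U := by
    intro b₂
    have hb₂ : b₂ ∈ Algebra.adjoin O' (Set.range ξ₂) := by rw [h₂]; exact Algebra.mem_top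
    induction hb₂ using Algebra.adjoin_induction with
    | mem c hc =>
      obtain ⟨k, rfl⟩ := hc
      exact hUY k
    | algebraMap c =>
      have : (1 ⊗ₜ algebraMap O' B₂ c : B₁ ⊗[O'] B₂) = algebraMap O' (B₁ ⊗[O'] B₂) c := by
        rw [Algebra.TensorProduct.algebraMap_apply, Algebra.algebraMap_eq_smul_one,
          Algebra.algebraMap_eq_smul_one, TensorProduct.smul_tmul]
      rw [this]
      exact hU1 c
    | add a b _ _ ha hb =>
      rw [TensorProduct.tmul_add]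
      exact U.add_mem ha hb
    | mul a b _ _ ha hb =>
      rw [show (1 ⊗ₜ (a * b) : B₁ ⊗[O'] B₂) = (1 ⊗ₜ a) * (1 ⊗ₜ b) by
        rw [Algebra.TensorProduct.tmul_mul_tmul, mul_one]]
      exact U.mul_mem ha hb
  have hall : ∀ t, t ∈ U := by
    intro t
    induction t using TensorProduct.induction_on with
    | zero => exact U.zero_mem
    | tmul b₁ b₂ =>
      rw [show (b₁ ⊗ₜ b₂ : B₁ ⊗[O'] B₂) = (b₁ ⊗ₜ 1) * (1 ⊗ₜ b₂) by
        rw [Algebra.TensorProduct.tmul_mul_tmul, mul_one, one_mul]]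
      exact U.mul_mem (hU2 b₁) (hU3 b₂)
    | add s t hs ht => exact U.add_mem hs ht
  rw [injective_iff_map_eq_zero]
  intro t ht
  obtain ⟨z, N, h1, h2⟩ := hall t
  rw [ht, mul_zero] at h2
  have h3 : z = 0 := hιP (by rw [h2, map_zero])
  apply hincinj
  rw [← h1, h3, map_zero, map_zero]

end Injective

end Pool.Agent.Lib.MP_6a3dac_ag
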