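import Pool.Agent.Lib.MP_6a3dac_ag.Mg.G029
import Pool.Agent.Lib.MP_6a3dac_ag.QWAbs

/-!
# The charts at the primes of the base
-/

set_option autoImplicit false
set_option linter.unusedSectionVars false
set_option linter.unusedVariables false

namespace Pool.Agent.Lib.MP_6a3dac_ag

open CategoryTheory Limits AlgebraicGeometry MvPolynomial TensorProduct IsDedekindDomain

attribute [local instance] MvPolynomial.gradedAlgebra

section LocInst

variable (O L : Type) [CommRing O] [IsDomain O] [Field L] [Algebra O L] [IsFractionRing O L]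
  (𝔓 : Ideal O) [𝔓.IsPrime]

/-- The field of fractions as an algebra over a localization. -/
@[reducible]
noncomputable def locAlg : Algebra (Localization.AtPrime 𝔓) L :=
  IsLocalization.localizationAlgebraOfSubmonoidLe (Localization.AtPrime 𝔓) L 𝔓.primeCompl
    (nonZeroDivisors O) 𝔓.primeCompl_le_nonZeroDivisors

theorem locAlg_tower : letI := locAlg O L 𝔓; IsScalarTower O (Localization.AtPrime 𝔓) L :=
  IsLocalization.localization_isScalarTower_of_submonoid_le (Localization.AtPrime 𝔓) L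
    𝔓.primeCompl (nonZeroDivisors O) 𝔓.primeCompl_le_nonZeroDivisors

theorem locAlg_injective : letI := locAlg O L 𝔓;
    Function.Injective (algebraMap (Localization.AtPrime 𝔓) L) := by
  let := locAlg O L 𝔓
  have := locAlg_tower O L 𝔓
  have : IsFractionRing (Localization.AtPrime 𝔓) L :=
    IsFractionRing.isFractionRing_of_isDomain_of_isLocalization 𝔓.primeCompl _ _
  exact IsFractionRing.injective _ _

end LocInst

section Aux

variable {R K O L F : Type} [CommRing R] [CommRing O] [Algebra R O] [Field K] [Field L]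
  [Algebra K L] [Algebra R L] [Algebra O L] [IsScalarTower R O L] {n : ℕ}
  {σ : L ≃ₐ[K] L} {𝔞 : HomogeneousIdeal (homogeneousSubmodule (Fin n) O)} [Field F] [Algebra L F]
  [Algebra O F] [IsScalarTower O L F] (ιP : PairRing σ 𝔞 →ₐ[L] F)
  {O' : Type} [CommRing O'] [Algebra O O'] [Algebra O' F] [IsScalarTower O O' F]
  {𝔓 : Ideal O} [𝔓.IsPrime] [IsLocalization.AtPrime O' 𝔓]

theorem segMap_algebraMap (l : L) : segMap ιP (algebraMap L (segreAlg σ 𝔞) l) = algebraMap L F l :=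
  ιP.commutes l

theorem segMap_oM (c : O) : segMap ιP (oM O L (segreAlg σ 𝔞) c) = algebraMap O F c := by
  rw [oM, RingHom.comp_apply, segMap_algebraMap, ← IsScalarTower.algebraMap_apply]

theorem exists_of_mem_lamP {p : Ideal R} [p.IsPrime] (hp𝔓 : 𝔓.comap (algebraMap R O) = p)
    (hOF : Function.Injective (algebraMap O F)) {m : segreAlg σ 𝔞}
    (hm : m ∈ lamP O L (segreAlg σ 𝔞) p) : ∃ c : O', algebraMap O' F c = segMap ιP m := by
  obtain ⟨n, hn, c, hc, l, rfl⟩ := hm
  have hn' : algebraMap R O n ∉ 𝔓 := by rwa [← hp𝔓] at hn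
  refine ⟨IsLocalization.mk' O' c (⟨algebraMap R O n, hn'⟩ : 𝔓.primeCompl), ?_⟩
  have h1 := congrArg (algebraMap O' F) (IsLocalization.mk'_spec O' c
    (⟨algebraMap R O n, hn'⟩ : 𝔓.primeCompl))
  rw [map_mul, ← IsScalarTower.algebraMap_apply O O' F,
    ← IsScalarTower.algebraMap_apply O O' F] at h1
  have h2 := congrArg (segMap ιP) hc
  rw [map_mul, segMap_oM, ← oM_algebraMap (O := O) (L := L), segMap_oM] at h2
  have h3 : algebraMap O F (algebraMap R O n) ≠ 0 := by
    rw [Ne, map_eq_zero_iff _ hOF]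
    intro h0
    apply hn'
    rw [h0]
    exact 𝔓.zero_mem
  apply mul_right_cancel₀ h3
  rw [h1, ← h2, mul_comm]

theorem algebraMap_mem_of_units {D : Subring F} (hO : ∀ c : O, algebraMap O F c ∈ D)
    (hunit : ∀ s, s ∉ 𝔓 → ∃ w ∈ D, algebraMap O F s * w = 1) (c : O') :
    algebraMap O' F c ∈ D := by
  obtain ⟨a, s, rfl⟩ := IsLocalization.exists_mk'_eq 𝔓.primeCompl c
  obtain ⟨w, hw, hsw⟩ := hunit s s.2
  have h1 := congrArg (algebraMap O' F) (IsLocalization.mk'_spec O' a s)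
  rw [map_mul, ← IsScalarTower.algebraMap_apply O O' F,
    ← IsScalarTower.algebraMap_apply O O' F] at h1
  have h2 : algebraMap O' F (IsLocalization.mk' O' a s) = algebraMap O F a * w := by
    rw [← h1, mul_assoc, hsw, mul_one]
  rw [h2]
  exact D.mul_mem (hO a) hw

end Aux

section Hom

variable {O : Type} [CommRing O] {σO : O →+* O} (hσO2 : ∀ c, σO (σO c) = c) (𝔓 𝔔 : Ideal O)
  [𝔓.IsPrime] [𝔔.IsPrime]

include hσO2 in
theorem localRingHom_comp_self (h1 : 𝔓 = 𝔔.comap σO) (h2 : 𝔔 = 𝔓.comap σO)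
    (c : Localization.AtPrime 𝔓) :
    Localization.localRingHom 𝔔 𝔓 σO h2 (Localization.localRingHom 𝔓 𝔔 σO h1 c) = c := by
  have h3 : (Localization.localRingHom 𝔔 𝔓 σO h2).comp (Localization.localRingHom 𝔓 𝔔 σO h1) =
      RingHom.id _ := by
    apply IsLocalization.ringHom_ext 𝔓.primeCompl
    ext c
    rw [RingHom.comp_apply, RingHom.comp_apply, Localization.localRingHom_to_map,
      Localization.localRingHom_to_map, hσO2]
    rfl
  exact RingHom.congr_fun h3 c

include hσO2 in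
theorem comap_comap_involution (𝔓 : Ideal O) : 𝔓 = (𝔓.comap σO).comap σO := by
  ext c
  rw [Ideal.mem_comap, Ideal.mem_comap, hσO2]

end Hom

section Main

variable {R K O L F : Type} [CommRing R] [CommRing O] [IsDedekindDomain O] [Algebra R O]
  [Field K] [Field L] [Algebra K L] [Algebra R L] [Algebra O L] [IsScalarTower R O L]
  [IsFractionRing O L] {n : ℕ} {σ : L ≃ₐ[K] L}
  {𝔞 : HomogeneousIdeal (homogeneousSubmodule (Fin n) O)} [Field F] [Algebra L F]
  [Algebra O F] [IsScalarTower O L F] (ιP : PairRing σ 𝔞 →ₐ[L] F) (hιP : Function.Injective ιP)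
  {τF : F →+* F} (hτF2 : ∀ z, τF (τF z) = z)
  (hτx : ∀ k, τF (ιP (xCl σ 𝔞 k)) = ιP (yCl σ 𝔞 k))
  (hτL : ∀ c : L, τF (algebraMap L F c) = algebraMap L F (σ c))
  {σO : O →+* O} (hσO : ∀ c, algebraMap O L (σO c) = σ (algebraMap O L c))
  (h : QuadExt R O σO) (hfl : Flat (projTo O (coordGr 𝔞)))
  (hreg : ∀ y : ProjectiveSpectrum (coordGr 𝔞),
    IsRegularLocalRing ((Proj (coordGr 𝔞)).presheaf.stalk y))
  (hsm : ∀ (𝔓 : Ideal O) (_ : 𝔓.IsPrime), 𝔓 ≠ ⊥ → SmoothAt 𝔞 𝔓 ∨ SmoothAt 𝔞 (𝔓.comap σO))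

include hιP hτx hτL hσO h hfl hreg hsm in
theorem exists_chart_weil (p : Ideal R) [p.IsPrime] (hp0 : p ≠ ⊥) (i : Fin n × Fin n)
    (D : Subring F) (hloc : IsLocalRing D)
    (hΛD : ∀ c ∈ lamP O L (segreAlg σ 𝔞) p, segMap ιP c ∈ D)
    (hx0 : segMap ιP (xx σ 𝔞 i) ≠ 0)
    (hcoord : ∀ k, segMap ιP (xx σ 𝔞 k) / segMap ιP (xx σ 𝔞 i) ∈ D) :
    ∃ (G : Type) (_ : CommRing G) (φ : G →+* F),
      IsChart (segMap ιP) (xx σ 𝔞) (lamP O L (segreAlg σ 𝔞) p) D i φ := by
  have hOL : Function.Injective (algebraMap O L) := IsFractionRing.injective O L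
  have hOF : Function.Injective (algebraMap O F) := by
    rw [IsScalarTower.algebraMap_eq O L F]
    exact (algebraMap L F).injective.comp hOL
  have hRL : Function.Injective (algebraMap R L) := by
    rw [IsScalarTower.algebraMap_eq R O L]
    exact hOL.comp h.inj
  have hO : ∀ c : O, algebraMap O F c ∈ D := fun c => by
    rw [← segMap_oM ιP]
    exact hΛD _ (oM_mem_lamP p c)
  have hint := h.isIntegral
  let f : O →+* D := (algebraMap O F).codRestrict D hO
  have hunit0 : ∀ c : O, c ∉ (IsLocalRing.maximalIdeal D).comap f →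
      ∃ w ∈ D, algebraMap O F c * w = 1 := by
    intro c hc
    rw [Ideal.mem_comap, IsLocalRing.mem_maximalIdeal, mem_nonunits_iff, not_not] at hc
    obtain ⟨w, hw⟩ := hc.exists_right_inv
    exact ⟨w, w.2, congrArg Subtype.val hw⟩
  have hle : ((IsLocalRing.maximalIdeal D).comap f).comap (algebraMap R O) ≤ p := by
    intro m hm
    by_contra hmp
    obtain ⟨l, hl⟩ := exists_inv (L := L) (M := segreAlg σ 𝔞) hRL hmp
    have h1 : algebraMap L (segreAlg σ 𝔞) l ∈ lamP O L (segreAlg σ 𝔞) p :=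
      ⟨m, hmp, 1, by rw [hl, map_one], l, rfl⟩
    have h2 := congrArg (segMap ιP) hl
    rw [map_mul, ← oM_algebraMap (O := O) (L := L), segMap_oM, map_one] at h2
    rw [Ideal.mem_comap, Ideal.mem_comap, IsLocalRing.mem_maximalIdeal, mem_nonunits_iff] at hm
    exact hm (IsUnit.of_mul_eq_one ⟨_, hΛD _ h1⟩ (Subtype.ext h2))
  obtain ⟨𝔓, h𝔓0, h𝔓, hp𝔓⟩ := Ideal.exists_ideal_over_prime_of_isIntegral p
    ((IsLocalRing.maximalIdeal D).comap f) hle
  have h𝔓ne : 𝔓 ≠ ⊥ := by
    rintro rfl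
    apply hp0
    rw [← hp𝔓, eq_bot_iff]
    intro m hm
    rw [Ideal.mem_comap, Ideal.mem_bot, map_eq_zero_iff _ h.inj] at hm
    rw [hm]
    exact Ideal.zero_mem _
  have hunit : ∀ s, s ∉ 𝔓 → ∃ w ∈ D, algebraMap O F s * w = 1 := fun s hs =>
    hunit0 s fun hs' => hs (h𝔓0 hs')
  -- the localizations
  let := locAlg O L 𝔓
  have := locAlg_tower O L 𝔓
  let := locAlg O L (𝔓.comap σO)
  have := locAlg_tower O L (𝔓.comap σO)
  let : Algebra (Localization.AtPrime 𝔓) F :=
    ((algebraMap L F).comp (algebraMap (Localization.AtPrime 𝔓) L)).toAlgebra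
  let : Algebra (Localization.AtPrime (𝔓.comap σO)) F :=
    ((algebraMap L F).comp (algebraMap (Localization.AtPrime (𝔓.comap σO)) L)).toAlgebra
  have : IsScalarTower (Localization.AtPrime 𝔓) L F := IsScalarTower.of_algebraMap_eq' rfl
  have : IsScalarTower O (Localization.AtPrime 𝔓) F := IsScalarTower.of_algebraMap_eq fun c => by
    change _ = algebraMap L F (algebraMap _ L (algebraMap O _ c))
    rw [← IsScalarTower.algebraMap_apply O (Localization.AtPrime 𝔓) L,
      ← IsScalarTower.algebraMap_apply]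
  have : IsScalarTower O (Localization.AtPrime (𝔓.comap σO)) F :=
    IsScalarTower.of_algebraMap_eq fun c => by
      change _ = algebraMap L F (algebraMap _ L (algebraMap O _ c))
      rw [← IsScalarTower.algebraMap_apply O (Localization.AtPrime (𝔓.comap σO)) L,
        ← IsScalarTower.algebraMap_apply]
  have hcc := comap_comap_involution h.invol 𝔓
  obtain ⟨s, hs⟩ : ∃ s, s = Localization.localRingHom 𝔓 (𝔓.comap σO) σO hcc := ⟨_, rfl⟩
  have hsO' : ∀ c, s (algebraMap O _ c) = algebraMap O _ (σO c) := fun c => by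
    rw [hs, Localization.localRingHom_to_map]
  have hbij : Function.Bijective s := by
    rw [hs]
    refine Function.bijective_iff_has_inverse.mpr ⟨Localization.localRingHom (𝔓.comap σO) 𝔓 σO rfl,
      fun c => ?_, fun c => ?_⟩
    · exact localRingHom_comp_self h.invol _ _ _ _ c
    · exact localRingHom_comp_self h.invol _ _ _ _ c
  have hsF : ∀ c, τF (algebraMap (Localization.AtPrime (𝔓.comap σO)) F (s c)) =
      algebraMap (Localization.AtPrime 𝔓) F c := by
    have h1 : (τF.comp (algebraMap (Localization.AtPrime (𝔓.comap σO)) F)).comp s =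
        algebraMap (Localization.AtPrime 𝔓) F := by
      apply IsLocalization.ringHom_ext 𝔓.primeCompl
      ext c
      rw [RingHom.comp_apply, RingHom.comp_apply, RingHom.comp_apply, RingHom.comp_apply, hsO',
        ← IsScalarTower.algebraMap_apply O (Localization.AtPrime (𝔓.comap σO)) F,
        ← IsScalarTower.algebraMap_apply O (Localization.AtPrime 𝔓) F,
        IsScalarTower.algebraMap_apply O L F, hτL, ← hσO, h.invol,
        IsScalarTower.algebraMap_apply O L F]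
    exact fun c => RingHom.congr_fun h1 c
  have hsO : ∀ c, s (algebraMap O _ (σO c)) = algebraMap O _ c := fun c => by rw [hsO', h.invol]
  obtain ⟨a, b⟩ := i
  have hx0' := hx0
  rw [segMap_xx] at hx0'
  have ha : ιP (xCl σ 𝔞 a) ≠ 0 := left_ne_zero_of_mul hx0'
  have hb' : ιP (yCl σ 𝔞 b) ≠ 0 := right_ne_zero_of_mul hx0'
  have hb : ιP (xCl σ 𝔞 b) ≠ 0 := by
    intro h0
    apply hb'
    rw [← hτx, h0, map_zero]
  obtain ⟨ρ₁, hρ₁⟩ := exists_affChart ιP a ha hfl hreg
  obtain ⟨ρ₂, hρ₂⟩ := exists_affChart ιP b hb hfl hreg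
  refine ⟨_, _, _, prodChart_isChart hρ₁ hρ₂ hτx hbij hsF hσO hsO hιP (locAlg_injective O L 𝔓)
    (fun m hm => exists_of_mem_lamP ιP hp𝔓 hOF hm)
    (algebraMap_mem_of_units hO hunit) hx0 hcoord 𝔓.primeCompl (𝔓.comap σO).primeCompl ?_⟩
  rcases hsm 𝔓 h𝔓 h𝔓ne with h1 | h1
  · exact Or.inl (smooth_chartRing 𝔞 _ a h1)
  · exact Or.inr (smooth_chartRing 𝔞 _ b h1)

/-- Transport of smoothness. -/
theorem smoothAt_congr {𝔓 𝔔 : Ideal O} (hPQ : 𝔓 = 𝔔) [𝔓.IsPrime] [𝔔.IsPrime]
    (hs : SmoothAt 𝔞 𝔓) : SmoothAt 𝔞 𝔔 := by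
  subst hPQ
  exact hs

include hιP hτF2 hτx hτL hσO h hfl hreg hsm in
theorem exists_ramChart_weil (p : Ideal R) [p.IsPrime] (hp0 : p ≠ ⊥) (hU : ¬ UnramAt σO p)
    (𝔓 : Ideal O) (h𝔓 : 𝔓.IsPrime) (hp𝔓 : 𝔓.comap (algebraMap R O) = p) (ϖ : O) (r : ℕ)
    (hr : 1 ≤ r) (hirr : Irreducible (algebraMap O (Localization.AtPrime 𝔓) ϖ))
    (hdiv : ∀ c, ∃ y, ∃ m, m ∉ p ∧ algebraMap R O m * (σO c - c) = y * ϖ ^ r)
    (i : Fin n × Fin n) (D : Subring F) (hi : i.1 = i.2)
    (hΛD : ∀ c ∈ lamP O L (segreAlg σ 𝔞) p, segMap ιP c ∈ D)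
    (hx0 : segMap ιP (xx σ 𝔞 i) ≠ 0)
    (hcoord : ∀ k, segMap ιP (xx σ 𝔞 k) / segMap ιP (xx σ 𝔞 i) ∈ D) :
    ∃ (G : Type) (_ : CommRing G) (φ : G →+* F) (ϖG : G) (Z : Finset G),
      IsRamChart (segMap ιP) τF (xx σ 𝔞) (lamP O L (segreAlg σ 𝔞) p)
        (oM O L (segreAlg σ 𝔞) ϖ) r D i φ ϖG Z := by
  have hOL : Function.Injective (algebraMap O L) := IsFractionRing.injective O L
  have hOF : Function.Injective (algebraMap O F) := by
    rw [IsScalarTower.algebraMap_eq O L F]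
    exact (algebraMap L F).injective.comp hOL
  have hRL : Function.Injective (algebraMap R L) := by
    rw [IsScalarTower.algebraMap_eq R O L]
    exact hOL.comp h.inj
  have hO : ∀ c : O, algebraMap O F c ∈ D := fun c => by
    rw [← segMap_oM ιP]
    exact hΛD _ (oM_mem_lamP p c)
  have hσ𝔓 : ∀ c, σO c - c ∈ 𝔓 := h.sub_mem_of_not_unram hU hp𝔓
  have hcc : 𝔓 = 𝔓.comap σO := by
    ext c
    rw [Ideal.mem_comap]
    constructor
    · intro hc
      have := 𝔓.add_mem (hσ𝔓 c) hc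
      rwa [sub_add_cancel] at this
    · intro hc
      have := 𝔓.sub_mem hc (hσ𝔓 c)
      rwa [sub_sub_cancel] at this
  have h𝔓ne : 𝔓 ≠ ⊥ := by
    rintro rfl
    apply hp0
    rw [← hp𝔓, eq_bot_iff]
    intro m hm
    rw [Ideal.mem_comap, Ideal.mem_bot, map_eq_zero_iff _ h.inj] at hm
    rw [hm]
    exact Ideal.zero_mem _
  have hunitR : ∀ m : R, m ∉ p → ∃ w ∈ D, algebraMap O F (algebraMap R O m) * w = 1 := by
    intro m hmp
    obtain ⟨l, hl⟩ := exists_inv (L := L) (M := segreAlg σ 𝔞) hRL hmp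
    have h1 : algebraMap L (segreAlg σ 𝔞) l ∈ lamP O L (segreAlg σ 𝔞) p :=
      ⟨m, hmp, 1, by rw [hl, map_one], l, rfl⟩
    have h2 := congrArg (segMap ιP) hl
    rw [map_mul, ← oM_algebraMap (O := O) (L := L), segMap_oM, map_one] at h2
    exact ⟨_, hΛD _ h1, h2⟩
  have hunit : ∀ s, s ∉ 𝔓 → ∃ w ∈ D, algebraMap O F s * w = 1 := by
    intro s hs
    obtain ⟨m, hmp, hm⟩ := h.exists_dvd hp𝔓 hσ𝔓 hs
    obtain ⟨w, hw, hmw⟩ := hunitR m hmp
    refine ⟨algebraMap O F (σO s) * w, D.mul_mem (hO _) hw, ?_⟩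
    rw [← mul_assoc, ← map_mul, ← hm, hmw]
  -- the localization
  let := locAlg O L 𝔓
  have := locAlg_tower O L 𝔓
  let : Algebra (Localization.AtPrime 𝔓) F :=
    ((algebraMap L F).comp (algebraMap (Localization.AtPrime 𝔓) L)).toAlgebra
  have : IsScalarTower (Localization.AtPrime 𝔓) L F := IsScalarTower.of_algebraMap_eq' rfl
  have : IsScalarTower O (Localization.AtPrime 𝔓) F := IsScalarTower.of_algebraMap_eq fun c => by
    change _ = algebraMap L F (algebraMap _ L (algebraMap O _ c))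
    rw [← IsScalarTower.algebraMap_apply O (Localization.AtPrime 𝔓) L,
      ← IsScalarTower.algebraMap_apply]
  obtain ⟨s, hs⟩ : ∃ s, s = Localization.localRingHom 𝔓 𝔓 σO hcc := ⟨_, rfl⟩
  have hsO' : ∀ c, s (algebraMap O _ c) = algebraMap O _ (σO c) := fun c => by
    rw [hs, Localization.localRingHom_to_map]
  have hs2 : ∀ c, s (s c) = c := fun c => by
    rw [hs]
    exact localRingHom_comp_self h.invol _ _ _ _ c
  have hsF : ∀ c, τF (algebraMap (Localization.AtPrime 𝔓) F (s c)) =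
      algebraMap (Localization.AtPrime 𝔓) F c := by
    have h1 : (τF.comp (algebraMap (Localization.AtPrime 𝔓) F)).comp s =
        algebraMap (Localization.AtPrime 𝔓) F := by
      apply IsLocalization.ringHom_ext 𝔓.primeCompl
      ext c
      rw [RingHom.comp_apply, RingHom.comp_apply, RingHom.comp_apply, RingHom.comp_apply, hsO',
        ← IsScalarTower.algebraMap_apply O (Localization.AtPrime 𝔓) F,
        ← IsScalarTower.algebraMap_apply O (Localization.AtPrime 𝔓) F,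
        IsScalarTower.algebraMap_apply O L F, hτL, ← hσO, h.invol,
        IsScalarTower.algebraMap_apply O L F]
    exact fun c => RingHom.congr_fun h1 c
  have hsO : ∀ c, s (algebraMap O _ (σO c)) = algebraMap O _ c := fun c => by rw [hsO', h.invol]
  obtain ⟨a, b⟩ := i
  change a = b at hi
  subst hi
  have hx0' := hx0
  rw [segMap_xx] at hx0'
  have ha : ιP (xCl σ 𝔞 a) ≠ 0 := left_ne_zero_of_mul hx0'
  obtain ⟨ρ, hρ⟩ := exists_affChart ιP a ha hfl hreg
  have hsm' : SmoothAt 𝔞 𝔓 := by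
    rcases hsm 𝔓 h𝔓 h𝔓ne with h1 | h1
    · exact h1
    · exact smoothAt_congr hcc.symm h1
  have hDVR : IsDiscreteValuationRing (Localization.AtPrime 𝔓) :=
    IsLocalization.AtPrime.isDiscreteValuationRing_of_dedekind_domain O h𝔓ne _
  have hΔ : ∀ c, ∃ y, s c - c = y * (algebraMap O (Localization.AtPrime 𝔓) ϖ) ^ r := by
    intro c
    obtain ⟨α, t, hc⟩ := IsLocalization.exists_mk'_eq 𝔓.primeCompl c
    have h1 : c * algebraMap O (Localization.AtPrime 𝔓) t = algebraMap O _ α := by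
      rw [← hc]
      exact IsLocalization.mk'_spec _ _ _
    have h2 : s c * algebraMap O (Localization.AtPrime 𝔓) (σO t) = algebraMap O _ (σO α) := by
      rw [← hsO', ← map_mul, h1, hsO']
    obtain ⟨y₁, m₁, hm₁, h3⟩ := hdiv α
    obtain ⟨y₂, m₂, hm₂, h4⟩ := hdiv t
    have h5 := congrArg (algebraMap O (Localization.AtPrime 𝔓)) h3
    have h6 := congrArg (algebraMap O (Localization.AtPrime 𝔓)) h4
    rw [map_mul, map_sub, map_mul, map_pow] at h5 h6
    have hu : ∀ e : O, e ∉ 𝔓 → IsUnit (algebraMap O (Localization.AtPrime 𝔓) e) := fun e he =>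
      IsLocalization.map_units (M := 𝔓.primeCompl) _ ⟨e, he⟩
    have hR : ∀ m : R, m ∉ p → algebraMap R O m ∉ 𝔓 := fun m hm => by rwa [← hp𝔓] at hm
    have hσt : σO t ∉ 𝔓 := fun h0 => t.2 (hcc.symm.le (Ideal.mem_comap.mpr h0))
    obtain ⟨v, hv⟩ := ((((hu _ (hR m₁ hm₁)).mul (hu _ (hR m₂ hm₂))).mul (hu _ t.2)).mul
      (hu _ hσt)).exists_left_inv
    refine ⟨v * (algebraMap O _ (algebraMap R O m₂) * algebraMap O _ y₁ * algebraMap O _ t -
      algebraMap O _ (algebraMap R O m₁) * algebraMap O _ α * algebraMap O _ y₂), ?_⟩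
    linear_combination (-(s c - c)) * hv + (v * algebraMap O _ (algebraMap R O m₁) *
      algebraMap O _ (algebraMap R O m₂) * algebraMap O _ (t : O)) * h2 -
      (v * algebraMap O _ (algebraMap R O m₁) * algebraMap O _ (algebraMap R O m₂) *
        algebraMap O _ (σO t)) * h1 + (v * algebraMap O _ (algebraMap R O m₂) *
        algebraMap O _ (t : O)) * h5 - (v * algebraMap O _ (algebraMap R O m₁) *
        algebraMap O _ α) * h6
  obtain ⟨Z, hZ⟩ := prodChart_isRamChart hρ hτx hτF2 hs2 hsF hσO hsO hιP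
    (locAlg_injective O L 𝔓) (fun m hm => exists_of_mem_lamP ιP hp𝔓 hOF hm)
    (algebraMap_mem_of_units hO hunit) hx0 hcoord 𝔓.primeCompl
    (smooth_chartRing 𝔞 _ a hsm') (ϖ' := algebraMap O (Localization.AtPrime 𝔓) ϖ)
    (ϖM := oM O L (segreAlg σ 𝔞) ϖ) (by
      rw [segMap_oM, ← IsScalarTower.algebraMap_apply])
    (PrincipalIdealRing.isMaximal_of_irreducible hirr) hirr.ne_zero hr hΔ
  exact ⟨_, _, _, _, Z, hZ⟩

end Main

end Pool.Agent.Lib.MP_6a3dac_ag
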