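import Pool.Agent.Lib.MP_6a3dac_ag.QuadricModel
import Pool.Agent.Lib.MP_6a3dac_ag.Mg.G001

/-!
# Coordinate rings of nondegenerate quadrics are domains
-/

set_option autoImplicit false

namespace Pool.Agent.Lib.MP_6a3dac_ag

open MvPolynomial Matrix

variable {K : Type} [Field K] {n : ℕ}

theorem eq_affine {f : MvPolynomial (Fin n) K} (hf : f.totalDegree ≤ 1) :
    f = C (f.coeff 0) + ∑ i, C (f.coeff (Finsupp.single i 1)) * X i := by
  classical
  ext d
  rw [coeff_add, coeff_C, coeff_sum]
  simp_rw [coeff_C_mul, coeff_X]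
  by_cases h0 : d = 0
  · subst h0
    rw [if_pos rfl, Finset.sum_eq_zero, add_zero]
    intro i _
    rw [if_neg, mul_zero]
    intro h
    have := DFunLike.congr_fun h i
    simp at this
  · rw [if_neg (Ne.symm h0), zero_add]
    by_cases h1 : ∃ i, Finsupp.single i 1 = d
    · obtain ⟨i, rfl⟩ := h1
      rw [Finset.sum_eq_single i]
      · rw [if_pos rfl, mul_one]
      · intro k _ hk
        rw [if_neg, mul_zero]
        intro h
        exact hk (Finsupp.single_left_injective one_ne_zero h)
      · intro h
        exact absurd (Finset.mem_univ i) h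
    · rw [Finset.sum_eq_zero]
      · apply coeff_eq_zero_of_totalDegree_lt
        refine lt_of_le_of_lt hf ?_
        by_contra hcon
        rw [not_lt] at hcon
        obtain ⟨i, hi⟩ := Finsupp.ne_iff.mp h0
        rw [Finsupp.zero_apply] at hi
        have hi' : i ∈ d.support := Finsupp.mem_support_iff.mpr hi
        apply h1
        refine ⟨i, ?_⟩
        ext k
        rw [← Finset.add_sum_erase _ _ hi'] at hcon
        by_cases hk : k = i
        · subst hk
          rw [Finsupp.single_eq_same]
          omega
        · rw [Finsupp.single_eq_of_ne hk]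
          by_contra hk'
          have hk2 : k ∈ d.support.erase i :=
            Finset.mem_erase.mpr ⟨hk, Finsupp.mem_support_iff.mpr (Ne.symm hk')⟩
          have h3 := Finset.single_le_sum (f := fun l => d l) (fun _ _ => Nat.zero_le _) hk2
          have h4 : 0 < d k := Nat.pos_of_ne_zero (Ne.symm hk')
          omega
      · intro i _
        rw [if_neg, mul_zero]
        exact fun h => h1 ⟨i, h⟩

theorem eval_quadPoly_eq (B : Matrix (Fin n) (Fin n) K) (v : Fin n → K) :
    eval v (quadPoly B) = qf B v := by
  rw [qf_eq_sum, quadPoly]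
  simp

theorem prime_quadPoly (hn : 3 ≤ n) {B : Matrix (Fin n) (Fin n) K}
    (hB : (B + B.transpose).det ≠ 0) : Prime (quadPoly B) := by
  classical
  rw [← UniqueFactorizationMonoid.irreducible_iff_prime]
  have hne : quadPoly B ≠ 0 := by
    intro h0
    apply hB
    have h1 : ∀ v w : Fin n → K, v ⬝ᵥ (B + Bᵀ) *ᵥ w = 0 := by
      intro v w
      have h2 := qf_add B v w
      rw [← eval_quadPoly_eq, ← eval_quadPoly_eq, ← eval_quadPoly_eq, h0, map_zero, map_zero,
        map_zero] at h2
      linear_combination -h2
    have h3 : B + Bᵀ = 0 := by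
      ext i j
      have := h1 (Pi.single i 1) (Pi.single j 1)
      simpa using this
    have : Nonempty (Fin n) := ⟨⟨0, by omega⟩⟩
    rw [h3, det_zero]
  have hdeg : (quadPoly B).totalDegree = 2 := by
    apply IsHomogeneous.totalDegree _ hne
    exact quadPoly_isHomogeneous B
  constructor
  · intro hu
    obtain ⟨r, hr, hr'⟩ := MvPolynomial.isUnit_iff_eq_C_of_isReduced.mp hu
    rw [hr'] at hdeg
    simp at hdeg
  · intro f g hfg
    have hf : f ≠ 0 := by
      rintro rfl
      rw [zero_mul] at hfg
      exact hne hfg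
    have hg : g ≠ 0 := by
      rintro rfl
      rw [mul_zero] at hfg
      exact hne hfg
    have hsum : f.totalDegree + g.totalDegree = 2 := by
      rw [← totalDegree_mul_of_isDomain hf hg, ← hfg, hdeg]
    have hunit : ∀ {p : MvPolynomial (Fin n) K}, p ≠ 0 → p.totalDegree = 0 → IsUnit p := by
      intro p hp h0
      rw [totalDegree_eq_zero_iff_eq_C] at h0
      rw [h0] at hp ⊢
      refine (IsUnit.mk0 _ ?_).map C
      intro h1
      rw [h1, C_0] at hp
      exact hp rfl
    rcases Nat.lt_or_ge f.totalDegree 1 with h1 | h1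
    · exact Or.inl (hunit hf (by omega))
    rcases Nat.lt_or_ge g.totalDegree 1 with h2 | h2
    · exact Or.inr (hunit hg (by omega))
    exfalso
    have hf1 := eq_affine (f := f) (by omega)
    have hg1 := eq_affine (f := g) (by omega)
    -- a common zero of the linear parts
    let L : (Fin n → K) →ₗ[K] (Fin 2 → K) := Matrix.mulVecLin
      (Matrix.of ![fun i => f.coeff (Finsupp.single i 1), fun i => g.coeff (Finsupp.single i 1)])
    obtain ⟨v, hv, hv0⟩ : ∃ v ∈ LinearMap.ker L, v ≠ 0 := by
      apply Submodule.exists_mem_ne_zero_of_ne_bot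
      intro hbot
      have h3 := LinearMap.finrank_le_finrank_of_injective (LinearMap.ker_eq_bot.mp hbot)
      simp at h3
      omega
    have hv1 : ∑ i, f.coeff (Finsupp.single i 1) * v i = 0 := by
      have := congrFun (LinearMap.mem_ker.mp hv) 0
      simpa [L, mulVec, dotProduct] using this
    have hv2 : ∑ i, g.coeff (Finsupp.single i 1) * v i = 0 := by
      have := congrFun (LinearMap.mem_ker.mp hv) 1
      simpa [L, mulVec, dotProduct] using this
    have key : ∀ (p : MvPolynomial (Fin n) K), p = C (p.coeff 0) +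
        ∑ i, C (p.coeff (Finsupp.single i 1)) * X i →
        ∑ i, p.coeff (Finsupp.single i 1) * v i = 0 → ∀ w, eval (w + v) p = eval w p := by
      intro p hp hpv w
      rw [hp]
      simp only [map_add, map_sum, map_mul, eval_C, eval_X, Pi.add_apply, mul_add,
        Finset.sum_add_distrib]
      rw [hpv, add_zero]
    have h3 : ∀ w, qf B (w + v) = qf B w := by
      intro w
      rw [← eval_quadPoly_eq, ← eval_quadPoly_eq, hfg, map_mul, map_mul, key f hf1 hv1,
        key g hg1 hv2]
    have h4 : qf B v = 0 := by
      have := h3 0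
      rwa [zero_add, qf_zero] at this
    have h5 : (B + Bᵀ) *ᵥ v = 0 := by
      ext i
      have h6 := h3 (Pi.single i 1)
      rw [qf_add, h4, add_zero] at h6
      have h7 : (Pi.single i 1 : Fin n → K) ⬝ᵥ (B + Bᵀ) *ᵥ v = 0 := by
        linear_combination h6
      simpa using h7
    apply hv0
    by_contra hcon
    exact hB (Matrix.exists_mulVec_eq_zero_iff.mp ⟨v, hcon, h5⟩)

theorem isDomain_qcoord (hn : 3 ≤ n) {B : Matrix (Fin n) (Fin n) K}
    (hB : (B + B.transpose).det ≠ 0) : IsDomain (QCoord B) := by
  have h1 := prime_quadPoly hn hB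
  have h2 : (Ideal.span {quadPoly B}).IsPrime := (Ideal.span_singleton_prime h1.ne_zero).mpr h1
  exact Ideal.Quotient.isDomain _

end Pool.Agent.Lib.MP_6a3dac_ag
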