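import Pool.Agent.Lib.MP_6a3dac_ag.DescAbs
import Pool.Agent.Lib.MP_6a3dac_ag.QuatGen
import Pool.Agent.Lib.MP_6a3dac_ag.QuadricModel

/-!
# Unramified quadratic extensions of discrete valuation rings
-/

set_option autoImplicit false
set_option linter.unusedSectionVars false

namespace Pool.Agent.Lib.MP_6a3dac_ag

open IsLocalRing IsDedekindDomain

/-- The field `K₁` is the quadratic extension `K(ω)`, `ω ^ 2 = a + b ω`, with conjugation `σ`. -/
structure QExt {K K₁ : Type} [Field K] [Field K₁] [Algebra K K₁] (a b : K) (ω : K₁)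
    (σ : K₁ →+* K₁) : Prop where
  q : QData a b ω σ
  invol : ∀ w, σ (σ w) = w
  bas : ∀ z : K₁, ∃ x y : K, z = algebraMap K K₁ x + algebraMap K K₁ y * ω
  uniq : ∀ x y : K, algebraMap K K₁ x + algebraMap K K₁ y * ω = 0 → x = 0 ∧ y = 0

section Fin

variable {K K₁ : Type} [Field K] [Field K₁] [Algebra K K₁] {a b : K} {ω : K₁} {σ : K₁ →+* K₁}
  (hE : QExt a b ω σ)

include hE

theorem QExt.finite : Module.Finite K K₁ := by
  let f : (K × K) →ₗ[K] K₁ :=
    { toFun := fun x => algebraMap K K₁ x.1 + algebraMap K K₁ x.2 * ω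
      map_add' := fun x y => by
        simp only [Prod.fst_add, Prod.snd_add, map_add]
        ring
      map_smul' := fun r x => by
        change algebraMap K K₁ (r * x.1) + algebraMap K K₁ (r * x.2) * ω =
          r • (algebraMap K K₁ x.1 + algebraMap K K₁ x.2 * ω)
        rw [Algebra.smul_def, map_mul, map_mul]
        ring }
  refine Module.Finite.of_surjective f fun z => ?_
  obtain ⟨x, y, rfl⟩ := hE.bas z
  exact ⟨(x, y), rfl⟩

theorem QExt.sub_ne_zero (hd : b ^ 2 + 4 * a ≠ 0) : ω - σ ω ≠ 0 := by
  intro h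
  have h1 : (ω - σ ω) ^ 2 = algebraMap K K₁ (b ^ 2 + 4 * a) := by
    rw [hE.q.conj]
    simp only [map_add, map_mul, map_pow, map_ofNat]
    linear_combination 4 * hE.q.om
  rw [h, zero_pow two_ne_zero] at h1
  exact hd ((map_eq_zero _).mp h1.symm)

end Fin

section Int

variable {O K K₁ : Type} [CommRing O] [IsDomain O] [IsDiscreteValuationRing O] [Field K]
  [Algebra O K] [IsFractionRing O K] [Field K₁] [Algebra K K₁] [Algebra O K₁]
  [IsScalarTower O K K₁] {a b : O} {ω : K₁} {σ : K₁ →+* K₁}
  (hE : QExt (algebraMap O K a) (algebraMap O K b) ω σ) (hd : IsUnit (b ^ 2 + 4 * a))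

include hE

theorem QExt.isIntegral_om : IsIntegral O ω := by
  refine ⟨Polynomial.X ^ 2 - (Polynomial.C b * Polynomial.X + Polynomial.C a), ?_, ?_⟩
  · apply Polynomial.monic_X_pow_sub
    have h1 : (Polynomial.C b * Polynomial.X + Polynomial.C a : Polynomial O).degree ≤ 1 := by
      compute_degree
    exact lt_of_le_of_lt h1 (by norm_num)
  · simp only [Polynomial.eval₂_sub, Polynomial.eval₂_pow, Polynomial.eval₂_X,
      Polynomial.eval₂_add, Polynomial.eval₂_mul, Polynomial.eval₂_C]
    rw [IsScalarTower.algebraMap_apply O K K₁, IsScalarTower.algebraMap_apply O K K₁ a]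
    linear_combination hE.q.om

/-- Conjugates of integral elements are integral. -/
theorem QExt.isIntegral_conj {z : K₁} (hz : IsIntegral O z) : IsIntegral O (σ z) := by
  let σ' : K₁ →ₐ[O] K₁ :=
    { σ with
      commutes' := fun r => by
        change σ (algebraMap O K₁ r) = algebraMap O K₁ r
        rw [IsScalarTower.algebraMap_apply O K K₁]
        exact hE.q.alg _ }
  exact hz.map σ'

theorem QExt.exists_of_isIntegral (z : K) (hz : IsIntegral O (algebraMap K K₁ z)) :
    ∃ y : O, algebraMap O K y = z :=
  IsIntegrallyClosed.isIntegral_iff.mp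
    ((isIntegral_algebraMap_iff (algebraMap K K₁).injective).mp hz)

include hd

/-- The integral elements. -/
theorem QExt.isIntegral_iff (z : K₁) : IsIntegral O z ↔
    ∃ x y : O, z = algebraMap O K₁ x + algebraMap O K₁ y * ω := by
  constructor
  · intro hz
    obtain ⟨x, y, rfl⟩ := hE.bas z
    have h1 : IsIntegral O (algebraMap K K₁ (2 * x + algebraMap O K b * y)) := by
      have h2 := hz.add (hE.isIntegral_conj hz)
      have h3 : algebraMap K K₁ x + algebraMap K K₁ y * ω +
          σ (algebraMap K K₁ x + algebraMap K K₁ y * ω) =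
          algebraMap K K₁ (2 * x + algebraMap O K b * y) := by
        simp only [map_add, map_mul, hE.q.alg, hE.q.conj, map_ofNat]
        ring
      rwa [h3] at h2
    have h2 : IsIntegral O (algebraMap K K₁ (algebraMap O K b * x +
        (algebraMap O K b ^ 2 + 2 * algebraMap O K a) * y)) := by
      have h2 := hz.mul hE.isIntegral_om
      have h4 := h2.add (hE.isIntegral_conj h2)
      have h3 : (algebraMap K K₁ x + algebraMap K K₁ y * ω) * ω +
          σ ((algebraMap K K₁ x + algebraMap K K₁ y * ω) * ω) =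
          algebraMap K K₁ (algebraMap O K b * x +
            (algebraMap O K b ^ 2 + 2 * algebraMap O K a) * y) := by
        simp only [map_add, map_mul, hE.q.alg, hE.q.conj, map_ofNat, map_pow]
        linear_combination (2 * algebraMap K K₁ y) * hE.q.om
      rwa [h3] at h4
    obtain ⟨r, hr⟩ := hE.exists_of_isIntegral _ h1
    obtain ⟨s, hs⟩ := hE.exists_of_isIntegral _ h2
    obtain ⟨d, hd'⟩ := hd.exists_left_inv
    have hdK : algebraMap O K d * (algebraMap O K b ^ 2 + 4 * algebraMap O K a) = 1 := by
      rw [← map_one (algebraMap O K), ← hd']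
      simp only [map_mul, map_add, map_pow, map_ofNat]
    -- solve for `y` and `x`
    have hy : algebraMap O K (d * (2 * s - b * r)) = y := by
      simp only [map_mul, map_sub, map_ofNat, hr, hs]
      linear_combination y * hdK
    have hx2 : algebraMap O K (d * (b * (s - (b ^ 2 + 2 * a) * (d * (2 * s - b * r))) +
        2 * a * (r - b * (d * (2 * s - b * r))))) = x := by
      rw [map_mul, map_add, map_mul, map_sub, map_mul (algebraMap O K) (b ^ 2 + 2 * a), hy,
        map_mul _ (2 * a), map_sub, map_mul _ b (d * (2 * s - b * r)), hy, hr, hs]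
      simp only [map_mul, map_add, map_pow, map_ofNat]
      linear_combination x * hdK
    refine ⟨d * (b * (s - (b ^ 2 + 2 * a) * (d * (2 * s - b * r))) +
      2 * a * (r - b * (d * (2 * s - b * r)))), d * (2 * s - b * r), ?_⟩
    rw [IsScalarTower.algebraMap_apply O K K₁, IsScalarTower.algebraMap_apply O K K₁, hy, hx2]
  · rintro ⟨x, y, rfl⟩
    exact isIntegral_algebraMap.add (isIntegral_algebraMap.mul hE.isIntegral_om)

end Int

end Pool.Agent.Lib.MP_6a3dac_ag
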