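import Pool.Agent.Lib.MP_6a3dac_ag.QuadExt

/-!
# Unramified quadratic extensions of discrete valuation rings: the local rings
-/

set_option autoImplicit false
set_option linter.unusedSectionVars false

namespace Pool.Agent.Lib.MP_6a3dac_ag

open IsLocalRing IsDedekindDomain

variable {O K K₁ : Type} [CommRing O] [IsDomain O] [IsDiscreteValuationRing O] [Field K]
  [Algebra O K] [IsFractionRing O K] [Field K₁] [Algebra K K₁] [Algebra O K₁]
  [IsScalarTower O K K₁] {a b : O} {ω : K₁} {σ : K₁ →+* K₁}
  (hE : QExt (algebraMap O K a) (algebraMap O K b) ω σ) (hd : IsUnit (b ^ 2 + 4 * a))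

include hE in
theorem QExt.isDedekindDomain [CharZero K] : IsDedekindDomain (integralClosure O K₁) := by
  have := hE.finite
  exact integralClosure.isDedekindDomain O K K₁

include hE in
theorem QExt.isFractionRing : IsFractionRing (integralClosure O K₁) K₁ := by
  have := hE.finite
  exact integralClosure.isFractionRing_of_finite_extension K K₁

/-- The element `ω` as an integral element. -/
def QExt.omI (hE : QExt (algebraMap O K a) (algebraMap O K b) ω σ) : integralClosure O K₁ :=
  ⟨ω, hE.isIntegral_om⟩

include hE hd in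
theorem QExt.exists_eq (z : integralClosure O K₁) : ∃ x y : O,
    z = algebraMap O _ x + algebraMap O _ y * hE.omI := by
  obtain ⟨x, y, h⟩ := (hE.isIntegral_iff hd (z : K₁)).mp z.2
  exact ⟨x, y, Subtype.ext h⟩

theorem QExt.omI_mul : hE.omI * hE.omI = algebraMap O _ a + algebraMap O _ b * hE.omI := by
  apply Subtype.ext
  change ω * ω = algebraMap O K₁ a + algebraMap O K₁ b * ω
  rw [hE.q.om, IsScalarTower.algebraMap_apply O K K₁, IsScalarTower.algebraMap_apply O K K₁]

theorem comap_prime {P : Ideal (integralClosure O K₁)} [P.IsPrime] (hP : P ≠ ⊥) :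
    P.comap (algebraMap O _) = maximalIdeal O := by
  have h1 : P.comap (algebraMap O (integralClosure O K₁)) ≠ ⊥ :=
    Ideal.IsIntegral.comap_ne_bot O hP
  have h2 : (P.comap (algebraMap O (integralClosure O K₁))).IsPrime := Ideal.IsPrime.comap _
  exact IsLocalRing.eq_maximalIdeal (h2.isMaximal h1)

include hE hd in
theorem QExt.finite_quotient [Finite (ResidueField O)] {P : Ideal (integralClosure O K₁)}
    [P.IsPrime] (hP : P ≠ ⊥) : Finite (integralClosure O K₁ ⧸ P) := by
  have h1 := comap_prime (O := O) hP
  let f : ResidueField O →+* (integralClosure O K₁ ⧸ P) :=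
    Ideal.quotientMap P (algebraMap O _) h1.ge
  have hf : ∀ x : O, f (residue O x) = Ideal.Quotient.mk P (algebraMap O _ x) := fun x => rfl
  refine Finite.of_surjective (fun x : ResidueField O × ResidueField O =>
    f x.1 + f x.2 * Ideal.Quotient.mk P hE.omI) ?_
  intro z
  obtain ⟨z, rfl⟩ := Ideal.Quotient.mk_surjective z
  obtain ⟨x, y, rfl⟩ := hE.exists_eq hd z
  exact ⟨(residue O x, residue O y), by rw [map_add, map_mul]; rfl⟩

section Loc

variable [IsDedekindDomain (integralClosure O K₁)] [IsFractionRing (integralClosure O K₁) K₁]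
  (P : HeightOneSpectrum (integralClosure O K₁))

/-- The map from the base ring to the local ring of the extension. -/
noncomputable def kap : O →+* locRing K₁ P :=
  (algebraMap (integralClosure O K₁) (locRing K₁ P)).comp (algebraMap O _)

theorem algebraMap_kap (x : O) : algebraMap (locRing K₁ P) K₁ (kap P x) = algebraMap O K₁ x := rfl

/-- The element `ω` in the local ring of the extension. -/
noncomputable def QExt.omL (hE : QExt (algebraMap O K a) (algebraMap O K b) ω σ) : locRing K₁ P :=
  algebraMap (integralClosure O K₁) (locRing K₁ P) hE.omI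

theorem QExt.algebraMap_omL : algebraMap (locRing K₁ P) K₁ (hE.omL P) = ω := rfl

include hE in
theorem QExt.isLocalHom_kap : IsLocalHom (kap (O := O) P) := by
  constructor
  intro x hx
  by_contra hcon
  have h1 : x ∈ maximalIdeal O := hcon
  rw [← comap_prime (O := O) P.ne_bot, Ideal.mem_comap] at h1
  have h2 := (IsLocalization.AtPrime.isUnit_to_map_iff (locRing K₁ P) P.asIdeal _).mp hx
  exact h2 h1

include hd in
theorem QExt.etaleLike : EtaleLike (kap P) (hE.omL P) a b where
  om := by
    rw [QExt.omL, ← map_mul, hE.omI_mul, map_add, map_mul]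
    rfl
  disc := hd
  uniq x y h := by
    have h1 := congrArg (algebraMap (locRing K₁ P) K₁) h
    rw [map_add, map_mul, algebraMap_kap, algebraMap_kap, hE.algebraMap_omL, map_zero,
      IsScalarTower.algebraMap_apply O K K₁, IsScalarTower.algebraMap_apply O K K₁, mul_comm] at h1
    obtain ⟨h2, h3⟩ := hE.uniq _ _ h1
    exact ⟨(map_eq_zero_iff _ (IsFractionRing.injective O K)).mp h2,
      (map_eq_zero_iff _ (IsFractionRing.injective O K)).mp h3⟩
  frac z := by
    obtain ⟨x, s, rfl⟩ := IsLocalization.exists_mk'_eq P.asIdeal.primeCompl z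
    obtain ⟨d, e, hx⟩ := hE.exists_eq hd x
    obtain ⟨p, q, hs⟩ := hE.exists_eq hd (s : integralClosure O K₁)
    have h1 : ∀ u v : O, kap P u + hE.omL P * kap P v =
        algebraMap (integralClosure O K₁) (locRing K₁ P)
          (algebraMap O _ u + algebraMap O _ v * hE.omI) := by
      intro u v
      rw [map_add, map_mul, mul_comm (hE.omL P)]
      rfl
    refine ⟨p, q, d, e, ?_, ?_⟩
    · rw [h1, ← hs]
      exact IsLocalization.map_units (locRing K₁ P) s
    · rw [h1, h1, ← hs, ← hx]
      exact IsLocalization.mk'_spec' _ _ _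

include hE hd in
theorem QExt.irreducible_kap {π : O} (hπ : Irreducible π) : Irreducible (kap P π) := by
  have := hE.isLocalHom_kap P
  have h1 := (hE.etaleLike hd P).map_maximalIdeal
  rw [hπ.maximalIdeal_eq, Ideal.map_span, Set.image_singleton] at h1
  exact (IsDiscreteValuationRing.irreducible_iff_uniformizer _).mpr h1.symm

include hE hd in
theorem QExt.finite_residue [Finite (ResidueField O)] : Finite (ResidueField (locRing K₁ P)) := by
  have := hE.finite_quotient hd (P := P.asIdeal) P.ne_bot
  exact finite_residue_locRing P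

omit [IsFractionRing (integralClosure O K₁) K₁] in
include hd in
/-- The prime containing `ω` in the split case. -/
theorem QExt.exists_prime_split {π : O} (hπ : Irreducible π) (ha : π ∣ a) :
    ∃ P : HeightOneSpectrum (integralClosure O K₁), hE.omI ∈ P.asIdeal := by
  set I : Ideal (integralClosure O K₁) := Ideal.span {algebraMap O _ π, hE.omI} with hI
  have hne : I ≠ ⊤ := by
    intro htop
    have h1 : (1 : integralClosure O K₁) ∈ I := by rw [htop]; trivial
    rw [hI, Ideal.mem_span_pair] at h1
    obtain ⟨u, v, huv⟩ := h1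
    obtain ⟨a', ha'⟩ := ha
    have haR : algebraMap O (integralClosure O K₁) a = algebraMap O _ π * algebraMap O _ a' := by
      rw [ha', map_mul]
    -- multiply with the conjugate of `ω`
    have h2 : algebraMap O (integralClosure O K₁) b - hE.omI =
        algebraMap O _ π * (u * (algebraMap O _ b - hE.omI) - v * algebraMap O _ a') := by
      have h3 : hE.omI * (algebraMap O (integralClosure O K₁) b - hE.omI) =
          -(algebraMap O _ π * algebraMap O _ a') := by
        rw [← haR]
        linear_combination (-1) * hE.omI_mul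
      linear_combination (-(algebraMap O (integralClosure O K₁) b - hE.omI)) * huv + v * h3
    obtain ⟨x, y, hxy⟩ := hE.exists_eq hd
      (u * (algebraMap O _ b - hE.omI) - v * algebraMap O _ a')
    rw [hxy] at h2
    have h4 := congrArg (fun w : integralClosure O K₁ => (w : K₁)) h2
    change algebraMap O K₁ b - ω = algebraMap O K₁ π * (algebraMap O K₁ x + algebraMap O K₁ y * ω)
      at h4
    have h5 : algebraMap K K₁ (algebraMap O K (π * x - b)) +
        algebraMap K K₁ (algebraMap O K (π * y + 1)) * ω = 0 := by
      rw [← IsScalarTower.algebraMap_apply, ← IsScalarTower.algebraMap_apply]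
      simp only [map_sub, map_add, map_mul, map_one]
      linear_combination -h4
    obtain ⟨-, h6⟩ := hE.uniq _ _ h5
    have h7 : π * y + 1 = 0 := (map_eq_zero_iff _ (IsFractionRing.injective O K)).mp h6
    apply hπ.not_isUnit
    exact IsUnit.of_mul_eq_one (-y) (by linear_combination -h7)
  obtain ⟨m, hm, hle⟩ := Ideal.exists_le_maximal I hne
  have h1 : algebraMap O (integralClosure O K₁) π ∈ m := by
    apply hle
    rw [hI]
    exact Ideal.subset_span (Set.mem_insert _ _)
  have h2 : hE.omI ∈ m := by
    apply hle
    rw [hI]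
    exact Ideal.subset_span (Set.mem_insert_of_mem _ rfl)
  refine ⟨⟨m, hm.isPrime, ?_⟩, h2⟩
  rintro rfl
  rw [Ideal.mem_bot] at h1
  have h3 := congrArg (fun w : integralClosure O K₁ => (w : K₁)) h1
  change algebraMap O K₁ π = 0 at h3
  rw [IsScalarTower.algebraMap_apply O K K₁, map_eq_zero,
    map_eq_zero_iff _ (IsFractionRing.injective O K)] at h3
  exact hπ.ne_zero h3

/-- Approximation of `ω` in the split case. -/
theorem QExt.exists_approx {π : O} (hπ : Irreducible π) (hb : b = 1) (ha : π ∣ a) (hωP : hE.omI ∈ P.asIdeal) (n : ℕ) :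
    ∃ (r : O) (o : locRing K₁ P), hE.omL P - kap P r = (kap P π) ^ n * o := by
  -- Newton iteration
  have h1 : ∀ n : ℕ, ∃ r : O, π ∣ r ∧ π ^ (n + 1) ∣ r ^ 2 - r - a := by
    intro n
    induction n with
    | zero => exact ⟨0, dvd_zero _, by simpa using ha⟩
    | succ n ih =>
      obtain ⟨r, hr, e, he⟩ := ih
      obtain ⟨s, rfl⟩ := hr
      refine ⟨(π * s) ^ 2 - a, ?_, ?_⟩
      · exact dvd_sub (Dvd.intro (s * (π * s)) (by ring)) ha
      · have h2 : ((π * s) ^ 2 - a) ^ 2 - ((π * s) ^ 2 - a) - a =
            π ^ (n + 1) * (2 * (π * s) * e + π ^ (n + 1) * e * e) := by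
          have h3 : (π * s) ^ 2 - a = π * s + π ^ (n + 1) * e := by linear_combination he
          rw [h3]
          linear_combination he
        rw [h2, pow_succ (π) (n + 1)]
        apply mul_dvd_mul_left
        refine dvd_add (Dvd.intro (2 * s * e) (by ring)) ?_
        rw [pow_succ]
        exact Dvd.intro (π ^ n * e * e) (by ring)
  obtain ⟨r, hr, e, he⟩ := h1 n
  have hu : IsUnit (hE.omL P - 1 + kap P r) := by
    have h2 : hE.omL P - 1 + kap P r = algebraMap (integralClosure O K₁) (locRing K₁ P)
        (hE.omI - 1 + algebraMap O _ r) := by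
      rw [map_add, map_sub, map_one]
      rfl
    rw [h2, IsLocalization.AtPrime.isUnit_to_map_iff (locRing K₁ P) P.asIdeal]
    intro h3
    have hrP : algebraMap O (integralClosure O K₁) r ∈ P.asIdeal := by
      rw [← Ideal.mem_comap, comap_prime (O := O) P.ne_bot, hπ.maximalIdeal_eq,
        Ideal.mem_span_singleton]
      exact hr
    apply P.isPrime.ne_top
    rw [Ideal.eq_top_iff_one]
    have h4 : (1 : integralClosure O K₁) =
        hE.omI + algebraMap O _ r - (hE.omI - 1 + algebraMap O _ r) := by ring
    rw [h4]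
    exact Ideal.sub_mem _ (Ideal.add_mem _ hωP hrP) h3
  obtain ⟨u, hu⟩ := hu.exists_right_inv
  refine ⟨r, -(kap P π * kap P e * u), ?_⟩
  have h2 : (hE.omL P - kap P r) * (hE.omL P - 1 + kap P r) = -(kap P (r ^ 2 - r - a)) := by
    have h3 : hE.omL P * hE.omL P = kap P a + kap P b * hE.omL P := by
      rw [QExt.omL, ← map_mul, hE.omI_mul, map_add, map_mul]
      rfl
    have h4 : kap P b = 1 := by
      have h5 : ∀ c : O, c = 1 → kap P c = 1 := by
        rintro c rfl
        exact map_one _
      exact h5 b hb
    simp only [map_sub, map_pow]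
    linear_combination h3 + hE.omL P * h4
  rw [he, map_mul, map_pow] at h2
  calc hE.omL P - kap P r = (hE.omL P - kap P r) * ((hE.omL P - 1 + kap P r) * u) := by
        rw [hu, mul_one]
    _ = (hE.omL P - kap P r) * (hE.omL P - 1 + kap P r) * u := by ring
    _ = _ := by rw [h2]; ring

end Loc

end Pool.Agent.Lib.MP_6a3dac_ag
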