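import Pool.Agent.Lib.MP_6a3dac_ag.QuatModel

/-!
# Involution varieties of quaternionic skew-Hermitian forms as schemes
-/

set_option autoImplicit false

namespace Pool.Agent.Lib.MP_6a3dac_ag

open MvPolynomial CategoryTheory AlgebraicGeometry
open scoped Quaternion

instance instAddSubgroupClassSk {K A : Type} [CommRing K] [CommRing A] [Algebra K A] :
    AddSubgroupClass (Submodule K A) A := inferInstance

section Coord

variable (K : Type) [CommRing K] (a b : K) (m : ℕ)

/-- The polynomial ring `W[x_i, y_i]` over `W = K[ω] / (ω ^ 2 - b ω - a)` in the coordinates of `m`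
vectors `z_i = (x_i, y_i)`. -/
def SkPoly : Type := MvPolynomial (Fin m ⊕ Fin m) (QW K a b)

/-- Its ring structure. -/
@[reducible]
noncomputable def skPolyCommRing : CommRing (SkPoly K a b m) := AddMonoidAlgebra.commRing

noncomputable instance instCommRingSkPoly : CommRing (SkPoly K a b m) := skPolyCommRing K a b m

/-- Its algebra structure. -/
@[reducible]
noncomputable def skPolyAlgebra : Algebra K (SkPoly K a b m) := AddMonoidAlgebra.algebra

noncomputable instance instAlgebraSkPoly : Algebra K (SkPoly K a b m) := skPolyAlgebra K a b m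

variable {K} {a b} {m}

/-- The coordinate `x_i`. -/
noncomputable def skX (i : Fin m) : SkPoly K a b m :=
  (X (Sum.inl i) : MvPolynomial (Fin m ⊕ Fin m) (QW K a b))

/-- The coordinate `y_i`. -/
noncomputable def skY (i : Fin m) : SkPoly K a b m :=
  (X (Sum.inr i) : MvPolynomial (Fin m ⊕ Fin m) (QW K a b))

/-- The constant polynomial `w`. -/
noncomputable def skC (w : QW K a b) : SkPoly K a b m :=
  (C w : MvPolynomial (Fin m ⊕ Fin m) (QW K a b))

/-- The polynomial `f` is homogeneous of degree `k`. -/
def IsSkHomog (f : SkPoly K a b m) (k : ℕ) : Prop :=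
  IsHomogeneous (f : MvPolynomial (Fin m ⊕ Fin m) (QW K a b)) k

end Coord

section Alg

variable {K : Type} [CommRing K] {a b c : K} {m : ℕ}

/-- The form `z_i ρ(d) η z_jᵀ`, where `η = (0, -1; 1, 0)`. -/
noncomputable def skP (i j : Fin m) (d : ℍ[K,a,b,c]) : SkPoly K a b m :=
  skC (quV d) * (skX i * skX j) - skC (quU d) * (skX i * skY j) +
    skC (qwConj (quU d)) * (skY i * skX j) - skC (quCV d) * (skY i * skY j)

variable (a b c m) in
/-- The `K`-algebra generated by all `z_i ρ(d) η z_jᵀ`. -/
noncomputable def skAlg : Subalgebra K (SkPoly K a b m) :=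
  Algebra.adjoin K (Set.range fun x : Fin m × Fin m × ℍ[K,a,b,c] => skP x.1 x.2.1 x.2.2)

variable (a b c m) in
/-- The same algebra as a type. -/
def SkAlg : Type := skAlg a b c m

variable (a b c m) in
/-- Its ring structure. -/
@[reducible]
noncomputable def skAlgCommRing : CommRing (SkAlg a b c m) := (skAlg a b c m).toCommRing

noncomputable instance instCommRingSkAlg : CommRing (SkAlg a b c m) := skAlgCommRing a b c m

variable (a b c m) in
/-- Its algebra structure. -/
@[reducible]
noncomputable def skAlgAlgebra : Algebra K (SkAlg a b c m) := (skAlg a b c m).algebra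

noncomputable instance instAlgebraSkAlg : Algebra K (SkAlg a b c m) := skAlgAlgebra a b c m

/-- The polynomial that an element of the algebra is. -/
noncomputable def skVal (f : SkAlg a b c m) : SkPoly K a b m := Subtype.val f

/-- The sum of the forms `z_i ρ(H_ij) η z_jᵀ`. -/
noncomputable def skSum (H : Matrix (Fin m) (Fin m) ℍ[K,a,b,c]) : SkPoly K a b m :=
  ∑ i, ∑ j, skP i j (H i j)

theorem skSum_mem (H : Matrix (Fin m) (Fin m) ℍ[K,a,b,c]) : skSum H ∈ skAlg a b c m :=
  quatPoly_mem H

/-- The sum of the forms `z_i ρ(H_ij) η z_jᵀ` as an element of the algebra. -/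
noncomputable def skForm (H : Matrix (Fin m) (Fin m) ℍ[K,a,b,c]) : SkAlg a b c m :=
  ⟨skSum H, skSum_mem H⟩

theorem isSkHomog_add {k : ℕ} {f g : SkAlg a b c m} (hf : IsSkHomog (skVal f) k)
    (hg : IsSkHomog (skVal g) k) : IsSkHomog (skVal (f + g)) k :=
  IsHomogeneous.add hf hg

variable (a b c m) in
theorem isSkHomog_zero (k : ℕ) : IsSkHomog (skVal (0 : SkAlg a b c m)) k :=
  isHomogeneous_zero (Fin m ⊕ Fin m) (QW K a b) k

theorem isSkHomog_smul {k : ℕ} (r : K) {f : SkAlg a b c m} (hf : IsSkHomog (skVal f) k) :
    IsSkHomog (skVal (r • f)) k :=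
  ((homogeneousSubmodule (Fin m ⊕ Fin m) (QW K a b) k).restrictScalars K).smul_mem r hf

variable (a b c m) in
/-- The degree-`k` part of the algebra consists of the homogeneous polynomials of degree `2 k`
in it. -/
noncomputable def skGr (k : ℕ) : Submodule K (SkAlg a b c m) where
  carrier := {f | IsSkHomog (skVal f) (2 * k)}
  add_mem' := isSkHomog_add
  zero_mem' := isSkHomog_zero a b c m (2 * k)
  smul_mem' := fun r _ hf => isSkHomog_smul r hf

variable (H : Matrix (Fin m) (Fin m) ℍ[K,a,b,c])

/-- The ideal generated by this form. -/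
noncomputable def skIdeal : Ideal (SkAlg a b c m) := Ideal.span {skForm H}

/-- The homogeneous coordinate ring of the involution variety. -/
def SkRing : Type := SkAlg a b c m ⧸ skIdeal H

/-- Its ring structure. -/
@[reducible]
noncomputable def skRingCommRing : CommRing (SkRing H) := Ideal.Quotient.commRing (skIdeal H)

noncomputable instance instCommRingSkRing : CommRing (SkRing H) := skRingCommRing H

/-- Its algebra structure. -/
@[reducible]
noncomputable def skRingAlgebra : Algebra K (SkRing H) := Ideal.instAlgebraQuotient K (skIdeal H)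

noncomputable instance instAlgebraSkRing : Algebra K (SkRing H) := skRingAlgebra H

/-- The projection to the homogeneous coordinate ring. -/
noncomputable def skMk : SkAlg a b c m →ₐ[K] SkRing H := Ideal.Quotient.mkₐ K (skIdeal H)

/-- The grading of the homogeneous coordinate ring of the involution variety. -/
noncomputable def skQGr (k : ℕ) : Submodule K (SkRing H) :=
  (skGr a b c m k).map (skMk H).toLinearMap

theorem isInternal_skQGr : DirectSum.IsInternal (skQGr H) := isInternal_quatQGr H

theorem gradedMonoid_skQGr : SetLike.GradedMonoid (skQGr H) := gradedMonoid_quatQGr H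

/-- The graded algebra structure (its decomposition map is determined by the grading). -/
noncomputable instance skQGradedAlgebra : GradedAlgebra (skQGr H) :=
  { (isInternal_skQGr H).chooseDecomposition, gradedMonoid_skQGr H with }

/-- The involution variety of a skew-Hermitian matrix. -/
noncomputable def skVar : Scheme.{0} := Proj (skQGr H)

/-- Its structure morphism. -/
noncomputable def skVarTo : skVar H ⟶ Spec (CommRingCat.of K) := projTo K (skQGr H)

end Alg

section Main

variable {R : Type} [CommRing R] [IsDedekindDomain R] {K : Type} [Field K] [Algebra R K]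
  [IsFractionRing R K] [CharZero K] {a b c : K} {m : ℕ}

open Limits IsDedekindDomain

/-- **Regular models of involution varieties of quaternionic skew-Hermitian forms.** -/
theorem exists_model_sk (hR : ¬ IsField R)
    (hfin : ∀ p : HeightOneSpectrum R, Finite (R ⧸ p.asIdeal)) (hm : 2 ≤ m)
    (hD : ∀ x : ℍ[K,a,b,c], x ≠ 0 → IsUnit x) {H : Matrix (Fin m) (Fin m) ℍ[K,a,b,c]}
    (hH : H.conjTranspose = -H) (hHu : IsUnit H) :
    ∃ (Y : Scheme.{0}) (g : Y ⟶ Spec (CommRingCat.of R)),
      IsProper g ∧ Flat g ∧ (∀ y : Y, IsRegularLocalRing (Y.presheaf.stalk y)) ∧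
      ∃ e : pullback g (Spec.map (CommRingCat.ofHom (algebraMap R K))) ≅ skVar H,
        e.hom ≫ skVarTo H =
          pullback.snd g (Spec.map (CommRingCat.ofHom (algebraMap R K))) :=
  exists_model_quat hR hfin hm hD hH hHu

end Main

end Pool.Agent.Lib.MP_6a3dac_ag
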