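import Pool.Agent.Lib.MP_6a3dac_ag.QuadricModelAll
import Pool.Agent.Lib.MP_6a3dac_ag.QuatVar

/-!
# Forms of smooth quadrics

The forms of smooth quadrics of positive dimension over a number field are the smooth quadrics and
the involution varieties of skew-Hermitian forms over quaternion division algebras.
-/

set_option autoImplicit false

namespace Pool.Agent.Lib.MP_6a3dac_ag

open CategoryTheory AlgebraicGeometry
open scoped Quaternion

variable {E : Type} [CommRing E] {X : Scheme.{0}}

/-- Two schemes over `E` are isomorphic over `E`. -/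
def IsoOver {Y : Scheme.{0}} (f : X ⟶ Spec (CommRingCat.of E)) (g : Y ⟶ Spec (CommRingCat.of E)) :
    Prop :=
  ∃ e : X ≅ Y, e.hom ≫ g = f

/-- The scheme is a quadric of dimension `n - 2`, smooth if `E` is a field of characteristic
different from `2`. -/
def IsQuadric (f : X ⟶ Spec (CommRingCat.of E)) : Prop :=
  ∃ (n : ℕ) (B : Matrix (Fin n) (Fin n) E),
    2 ≤ n ∧ (B + B.transpose).det ≠ 0 ∧ IsoOver f (projTo E (quadricGr B))

/-- The scheme is the involution variety, of dimension `2 m - 2`, of an invertible skew-Hermitian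
matrix over a quaternion division algebra. -/
def IsInvolutionVariety (f : X ⟶ Spec (CommRingCat.of E)) : Prop :=
  ∃ (a b c : E) (m : ℕ) (H : Matrix (Fin m) (Fin m) ℍ[E,a,b,c]),
    (∀ d : ℍ[E,a,b,c], d ≠ 0 → IsUnit d) ∧ 2 ≤ m ∧ H.conjTranspose = -H ∧ IsUnit H ∧
      IsoOver f (skVarTo H)

end Pool.Agent.Lib.MP_6a3dac_ag
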