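import Pool.Agent.Lib.MP_6a3dac_ag.SplitReg
import Pool.Agent.Lib.MP_6a3dac_ag.QuadricModel

/-!
# Regular proper flat models of all smooth quadrics
-/

set_option autoImplicit false

namespace Pool.Agent.Lib.MP_6a3dac_ag

open CategoryTheory Limits AlgebraicGeometry IsDedekindDomain MvPolynomial IsLocalRing

section NotDvd

open Matrix

variable {O : Type} [CommRing O] [IsDomain O] [IsDiscreteValuationRing O] {n : ℕ}

theorem SplitForm.not_dvd {π : O} (hπ : Irreducible π) {q c h : Matrix (Fin n) (Fin n) O}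
    {W : Finset (Fin n)} (H : SplitForm π q c h W) : ¬ C π ∣ quadPoly (q + π • (c + h)) := by
  intro hdvd
  obtain ⟨l, hl⟩ : ∃ l, l ∉ W := by
    by_contra hcon
    push Not at hcon
    exact H.ne_univ (Finset.eq_univ_iff_forall.mpr hcon)
  have hπ0 : residue O π = 0 := by
    rw [residue_eq_zero_iff]
    exact hπ.not_isUnit
  have hadd : quadPoly (q + π • (c + h)) = quadPoly q + C π * (quadPoly c + quadPoly h) := by
    simp only [quadPoly, Finset.mul_sum, ← Finset.sum_add_distrib]
    refine Finset.sum_congr rfl fun i _ => Finset.sum_congr rfl fun j _ => ?_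
    simp only [Matrix.add_apply, Matrix.smul_apply, smul_eq_mul, map_add, map_mul]
    ring
  rw [hadd] at hdvd
  have hq : C π ∣ quadPoly q := (dvd_add_left (dvd_mul_right _ _)).mp hdvd
  obtain ⟨r, hr⟩ := hq
  have h1 := H.radq (ResidueField O) (residue O) (fun x hx => (residue_eq_zero_iff x).mpr hx)
    (Pi.single l 1) ?_ ?_ l hl
  · rw [Pi.single_eq_same] at h1
    exact one_ne_zero h1
  · ext i
    have h2 : pderiv i (quadPoly q) = C π * pderiv i r := by
      rw [hr, pderiv_C_mul]
    have h3 := congrArg (eval₂Hom (residue O) (Pi.single l 1 : Fin n → ResidueField O)) h2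
    rw [pderiv_quadPoly, map_mul, map_sum] at h3
    simp only [coe_eval₂Hom, eval₂_C, hπ0, zero_mul, eval₂_mul, eval₂_X] at h3
    rw [Pi.zero_apply, ← h3, mulVec, dotProduct]
    refine Finset.sum_congr rfl fun j _ => ?_
    simp only [Matrix.add_apply, Matrix.map_apply, Matrix.transpose_apply, map_add]
  · have h3 := congrArg (eval₂Hom (residue O) (Pi.single l 1 : Fin n → ResidueField O)) hr
    rw [eval₂_quadPoly, map_mul] at h3
    simp only [coe_eval₂Hom, eval₂_C, hπ0, zero_mul] at h3
    rw [qf_eq_sum]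
    exact h3

end NotDvd

section Smul

theorem exists_smul_mem_of_adjoin {R A : Type*} [CommRing R] [IsDomain R] [CommRing A]
    [Algebra R A] {Λ : Set A} {S : Subalgebra R A} (h : ∀ x ∈ Λ, ∃ r : R, r ≠ 0 ∧ r • x ∈ S) :
    ∀ x ∈ Algebra.adjoin R Λ, ∃ r : R, r ≠ 0 ∧ r • x ∈ S := by
  intro x hx
  induction hx using Algebra.adjoin_induction with
  | mem x hx => exact h x hx
  | algebraMap r => exact ⟨1, one_ne_zero, by rw [one_smul]; exact S.algebraMap_mem r⟩
  | add x y _ _ hx hy =>
    obtain ⟨r, hr, hx⟩ := hx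
    obtain ⟨s, hs, hy⟩ := hy
    refine ⟨r * s, mul_ne_zero hr hs, ?_⟩
    rw [smul_add, mul_smul r s y, mul_comm r s, mul_smul s r x]
    exact S.add_mem (S.smul_mem hx s) (S.smul_mem hy r)
  | mul x y _ _ hx hy =>
    obtain ⟨r, hr, hx⟩ := hx
    obtain ⟨s, hs, hy⟩ := hy
    refine ⟨r * s, mul_ne_zero hr hs, ?_⟩
    rw [← smul_mul_smul_comm]
    exact S.mul_mem hx hy

end Smul

section Quad

variable {R K : Type} [CommRing R] [IsDedekindDomain R] [Field K] [CharZero K] [Algebra R K]
  [IsFractionRing R K] {n : ℕ} (B : Matrix (Fin n) (Fin n) K)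

/-- The local generating sets at the bad primes. -/
theorem exists_localGens (p : HeightOneSpectrum R) [Finite (R ⧸ p.asIdeal)] (hn : 0 < n)
    (hB : (B + B.transpose).det ≠ 0) :
    ∃ F : Set (QCoord B), F.Finite ∧ (∀ x ∈ F, ∃ i, 0 < i ∧ x ∈ quadricGr B i) ∧
      (∀ a, ∃ r : R, r ≠ 0 ∧ r • a ∈ Algebra.adjoin R F) ∧
      RegAt (quadricGr B) (locSub p.asIdeal (Algebra.adjoin R F)) := by
  have := finite_residue_locRing (K := K) p
  let O := locRing K p
  obtain ⟨π, hπ⟩ := IsDiscreteValuationRing.exists_irreducible O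
  obtain ⟨q, c, hm, W, ⟨g, h, hgh, hhg, a, ha, e⟩, H⟩ := exists_splitForm (O := O) hn B hB hπ
  let ψ := psi O B h
  have hC : ∀ r, ψ (C r) ∈ quadricGr B 0 := by
    intro r
    change psi O B h (C r) ∈ _
    rw [psi_apply, map_C, linSubst_C]
    exact mk_mem_quadricGr B (isHomogeneous_C _ _)
  have hX : ∀ i, ψ (X i) ∈ quadricGr B 1 := by
    intro i
    change psi O B h (X i) ∈ _
    rw [psi_apply, map_X]
    exact mk_mem_quadricGr B (isHomogeneous_linSubst_X h i)
  have hψR : ∀ r : R, ψ (C (algebraMap R O r)) = algebraMap R (QCoord B) r := by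
    intro r
    change psi O B h (C (algebraMap R O r)) = _
    rw [psi_apply, map_C, linSubst_C, algebraMap_qcoord, IsScalarTower.algebraMap_apply R O K]
  have hker : RingHom.ker ψ = Ideal.span {quadPoly (q + π • (c + hm))} :=
    ker_psi hgh hhg ha e hπ (H.not_dvd hπ)
  refine ⟨ψ '' genSet π hm W, (finite_genSet π hm W).image _, ?_, ?_,
    regAt_splitOrder (quadricGr B) p.asIdeal ψ hC hX hψR hπ H hker⟩
  · rintro _ ⟨_, ⟨κ, k, s, _, hk, rfl⟩, rfl⟩
    exact ⟨k + degP n κ, by omega, mem_of_isHomogeneous (quadricGr B) ψ hC hX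
      (isHomogeneous_base_mul π hm κ k s)⟩
  · intro x
    obtain ⟨r, hr, hrx⟩ := exists_smul_mem_adjoin (R := R) B hgh x
    have key : ∀ y ∈ coordSet B h, ∃ r : R, r ≠ 0 ∧
        r • y ∈ Algebra.adjoin R (ψ '' genSet π hm W) := by
      rintro _ ⟨i, rfl⟩
      obtain ⟨b, s, hbs⟩ := IsLocalization.exists_mk'_eq p.asIdeal.primeCompl π
      refine ⟨b, ?_, ?_⟩
      · rintro rfl
        rw [IsLocalization.mk'_zero] at hbs
        exact hπ.ne_zero hbs.symm
      · have h1 : (Ideal.Quotient.mk (Ideal.span {quadPoly B}) (linSubst h (X i)) : QCoord B) =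
            ψ (X i) := by
          change _ = psi O B h (X i)
          rw [psi_apply, map_X]
        have h2 : b • (Ideal.Quotient.mk (Ideal.span {quadPoly B}) (linSubst h (X i)) : QCoord B) =
            (s : R) • (ψ (C π * X i) : QCoord B) := by
          calc b • (Ideal.Quotient.mk (Ideal.span {quadPoly B}) (linSubst h (X i)) : QCoord B) =
                algebraMap R (QCoord B) b * ψ (X i) := by
                rw [h1]
                exact Algebra.smul_def (A := QCoord B) b (ψ (X i))
            _ = ψ (C (algebraMap R O b) * X i) := by rw [← hψR, map_mul]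
            _ = ψ (C (algebraMap R O s) * (C π * X i)) := by
                rw [← mul_assoc, ← map_mul C, ← hbs, IsLocalization.mk'_spec']
            _ = algebraMap R (QCoord B) (s : R) * ψ (C π * X i) := by rw [← hψR, map_mul]
            _ = _ := (Algebra.smul_def (A := QCoord B) (s : R) (ψ (C π * X i))).symm
        rw [h2]
        have h3 : C π * X i ∈ genSet π hm W := by
          refine ⟨Sum.inr 1, 1, fun _ => i, trivial, Or.inl rfl, ?_⟩
          rw [Fin.prod_univ_one]
          rfl
        exact Subalgebra.smul_mem _ (Algebra.subset_adjoin (Set.mem_image_of_mem ψ h3)) _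
    obtain ⟨s, hs, hsx⟩ := exists_smul_mem_of_adjoin key _ hrx
    exact ⟨s * r, mul_ne_zero hs hr, by rwa [mul_smul]⟩

/-- **Quadrics over the fraction field of a Dedekind domain with finite residue fields.** -/
theorem exists_model_quadric_all (hR : ¬ IsField R) (hfin : ∀ p : HeightOneSpectrum R,
      Finite (R ⧸ p.asIdeal)) (hn2 : 2 ≤ n) (hB : (B + B.transpose).det ≠ 0) :
    ∃ (Y : Scheme.{0}) (g : Y ⟶ Spec (CommRingCat.of R)),
      IsProper g ∧ Flat g ∧ (∀ y : Y, IsRegularLocalRing (Y.presheaf.stalk y)) ∧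
      ∃ e : pullback g (Spec.map (CommRingCat.ofHom (algebraMap R K))) ≅ Proj (quadricGr B),
        e.hom ≫ projTo K (quadricGr B) =
          pullback.snd g (Spec.map (CommRingCat.ofHom (algebraMap R K))) := by
  classical
  have := nontrivial_qcoord B
  obtain ⟨D, hD, hDreg⟩ := exists_good_primes (R := R) B hn2 hB
  have hex := fun p : HeightOneSpectrum R =>
    have := hfin p
    exists_localGens B p (by omega) hB
  choose F hF1 hF2 hF3 hF4 using hex
  let F' : HeightOneSpectrum R → Set (QCoord B) :=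
    fun p => if D ∈ p.asIdeal then F p else coordSet B 1
  have hF'1 : ∀ p, D ∈ p.asIdeal → F' p = F p := fun p hp => if_pos hp
  have hF'2 : ∀ p, D ∉ p.asIdeal → F' p = coordSet B 1 := fun p hp => if_neg hp
  have hfull₀ : ∀ a : QCoord B, ∃ r : R, r ≠ 0 ∧ r • a ∈ Algebra.adjoin R (coordSet B 1) :=
    fun a => exists_smul_mem_adjoin B (Matrix.mul_one (1 : Matrix (Fin n) (Fin n) K)) a
  have hL : LocalGens (R := R) (quadricGr B) F' (coordSet B 1) :=
    { finite := fun p => by
        by_cases hp : D ∈ p.asIdeal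
        · rw [hF'1 p hp]
          exact hF1 p
        · rw [hF'2 p hp]
          exact Set.finite_range _
      finite₀ := Set.finite_range _
      ae := by
        refine (finite_mem_prime hD).subset ?_
        intro p hp
        by_contra hcon
        exact hp (hF'2 p hcon)
      homog := by
        intro p x hx
        by_cases hp : D ∈ p.asIdeal
        · rw [hF'1 p hp] at hx
          exact hF2 p x hx
        · rw [hF'2 p hp] at hx
          obtain ⟨i, rfl⟩ := hx
          exact ⟨1, one_pos, mk_mem_quadricGr B (isHomogeneous_linSubst_X _ i)⟩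
      full := fun p a => by
        by_cases hp : D ∈ p.asIdeal
        · rw [hF'1 p hp]
          exact hF3 p a
        · rw [hF'2 p hp]
          exact hfull₀ a
      full₀ := hfull₀ }
  refine exists_model (quadricGr B) hL hR fun p => ?_
  change RegAt _ (locSub p.asIdeal (Algebra.adjoin R (F' p)))
  by_cases hp : D ∈ p.asIdeal
  · rw [hF'1 p hp]
    exact hF4 p
  · rw [hF'2 p hp]
    exact hDreg p hp

end Quad

end Pool.Agent.Lib.MP_6a3dac_ag
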