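import Mathlib

/-!
# The representation of a quaternion algebra by matrices over a quadratic algebra

Let `D = ℍ[K, a, b, c]` be a quaternion algebra with the basis `1, i, j, i j`, where
`i ^ 2 = a + b i`, `j ^ 2 = c`, `j i = (b - i) j`, and let `W = K[ω] / (ω ^ 2 - b ω - a)`.  Writing
an element of `D` as `d = u + v j` with `u, v` in `K[i] = W`, we have the representation
`ρ(d) = (u, v; c v*, u*)` of `D` by `2 × 2` matrices over `W`.
-/

set_option autoImplicit false

namespace Pool.Agent.Lib.MP_6a3dac_ag

open scoped Quaternion

section QW

variable (K : Type) [CommRing K] (a b : K)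

/-- The quadratic algebra `W = K[ω] / (ω ^ 2 - b ω - a)`. -/
def QW : Type := QuadraticAlgebra K a b

/-- The ring structure of the quadratic algebra. -/
@[reducible]
def qwCommRing : CommRing (QW K a b) := QuadraticAlgebra.instCommRing

instance instCommRingQW : CommRing (QW K a b) := qwCommRing K a b

/-- The algebra structure of the quadratic algebra. -/
@[reducible]
def qwAlgebra (R : Type) [CommRing R] [Algebra R K] : Algebra R (QW K a b) :=
  QuadraticAlgebra.instAlgebra

instance instAlgebraQW {R : Type} [CommRing R] [Algebra R K] : Algebra R (QW K a b) :=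
  qwAlgebra K a b R

instance instIsScalarTowerQW {R : Type} [CommRing R] [Algebra R K] :
    IsScalarTower R K (QW K a b) :=
  IsScalarTower.of_algebraMap_eq fun r => by
    change algebraMap R (QuadraticAlgebra K a b) r =
      algebraMap K (QuadraticAlgebra K a b) (algebraMap R K r)
    exact QuadraticAlgebra.ext rfl rfl

variable {K} {a b}

/-- The element `x + y ω`. -/
def qwMk (x y : K) : QW K a b := (⟨x, y⟩ : QuadraticAlgebra K a b)

/-- The conjugation `x + y ω ↦ x + b y - y ω`. -/
def qwConj (w : QW K a b) : QW K a b := (star w : QuadraticAlgebra K a b)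

end QW

section Entries

variable {K : Type} [CommRing K] {a b c : K}

/-- The component `u` of a quaternion `u + v j`. -/
def quU (d : ℍ[K,a,b,c]) : QW K a b := qwMk d.re d.imI

/-- The component `v` of a quaternion `u + v j`. -/
def quV (d : ℍ[K,a,b,c]) : QW K a b := qwMk d.imJ d.imK

/-- The entry `c v*` of the matrix `ρ(u + v j)`. -/
def quCV (d : ℍ[K,a,b,c]) : QW K a b := algebraMap K (QW K a b) c * qwConj (quV d)

end Entries

end Pool.Agent.Lib.MP_6a3dac_ag
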