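import Pool.Agent.Lib.MP_6a3dac_ag.QuatBase
import Pool.Agent.Lib.MP_6a3dac_ag.Mg.G006
import Pool.Agent.Lib.MP_6a3dac_ag.Mg.G007

/-!
# Involution varieties of quaternionic skew-Hermitian forms: the basic definitions

Let `D = ℍ[K, a, b, c]` be a quaternion algebra with the basis `1, i, j, i j`, where
`i ^ 2 = a + b i`, `j ^ 2 = c`, `j i = (b - i) j`, and let `W = K[ω] / (ω ^ 2 - b ω - a)`.  Writing
an element of `D` as `d = u + v j` with `u, v` in `K[i] = W`, we have the representation
`ρ(d) = (u, v; c v*, u*)` of `D` by `2 × 2` matrices over `W`.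
-/

set_option autoImplicit false

namespace Pool.Agent.Lib.MP_6a3dac_ag

open MvPolynomial
open scoped Quaternion

attribute [local instance] MvPolynomial.gradedAlgebra


section Defs

variable {K : Type} [CommRing K] {a b c : K} {m : ℕ}

/-- The polynomial ring over `W` in the coordinates `x_i` (first summand) and `y_i` (second
summand) of `m` vectors `z_i = (x_i, y_i)`. -/
abbrev QuatCoord (K : Type) [CommRing K] (a b : K) (m : ℕ) : Type :=
  MvPolynomial (Fin m ⊕ Fin m) (QW K a b)

/-- The form `z_i ρ(d) η z_jᵀ`, where `η = (0, -1; 1, 0)`. -/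
noncomputable def quatP (i j : Fin m) (d : ℍ[K,a,b,c]) : QuatCoord K a b m :=
  C (quV d) * (X (Sum.inl i) * X (Sum.inl j)) - C (quU d) * (X (Sum.inl i) * X (Sum.inr j)) +
    C (qwConj (quU d)) * (X (Sum.inr i) * X (Sum.inl j)) -
    C (algebraMap K _ c * qwConj (quV d)) * (X (Sum.inr i) * X (Sum.inr j))

variable (a b c m) in
/-- The `K`-algebra generated by all `z_i ρ(d) η z_jᵀ`. -/
noncomputable def quatAlg : Subalgebra K (QuatCoord K a b m) :=
  Algebra.adjoin K (Set.range fun x : Fin m × Fin m × ℍ[K,a,b,c] => quatP x.1 x.2.1 x.2.2)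

variable (a b c m) in
/-- The degree-`k` part of this algebra consists of the homogeneous polynomials of degree `2 k`
in it. -/
noncomputable def quatGr (k : ℕ) : Submodule K (quatAlg a b c m) :=
  ((homogeneousSubmodule (Fin m ⊕ Fin m) (QW K a b) (2 * k)).restrictScalars
    K).comap (quatAlg a b c m).val.toLinearMap

/-- The quadratic form `∑ z_i ρ(H_ij) η z_jᵀ`. -/
noncomputable def quatPoly (H : Matrix (Fin m) (Fin m) ℍ[K,a,b,c]) : QuatCoord K a b m :=
  ∑ i, ∑ j, quatP i j (H i j)

theorem quatP_isHomogeneous (i j : Fin m) (d : ℍ[K,a,b,c]) : (quatP i j d).IsHomogeneous 2 := by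
  have h : ∀ (u : QW K a b) (v w : Fin m ⊕ Fin m),
      (C u * (X v * X w) : QuatCoord K a b m).IsHomogeneous 2 := by
    intro u v w
    have h3 := (isHomogeneous_C (Fin m ⊕ Fin m) u).mul
      ((isHomogeneous_X (QW K a b) v).mul (isHomogeneous_X _ w))
    simpa using h3
  exact (((h _ _ _).sub (h _ _ _)).add (h _ _ _)).sub (h _ _ _)

theorem quatP_mem (i j : Fin m) (d : ℍ[K,a,b,c]) : quatP i j d ∈ quatAlg a b c m :=
  Algebra.subset_adjoin ⟨(i, j, d), rfl⟩

theorem quatPoly_mem (H : Matrix (Fin m) (Fin m) ℍ[K,a,b,c]) : quatPoly H ∈ quatAlg a b c m :=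
  Subalgebra.sum_mem _ fun _ _ => Subalgebra.sum_mem _ fun _ _ => quatP_mem _ _ _

theorem isHomogeneous_quatPoly (H : Matrix (Fin m) (Fin m) ℍ[K,a,b,c]) :
    (quatPoly H).IsHomogeneous 2 :=
  IsHomogeneous.sum _ _ _ fun _ _ => IsHomogeneous.sum _ _ _ fun _ _ => quatP_isHomogeneous _ _ _

theorem isHomog_quatAlg : IsHomog (homogeneousSubmodule (Fin m ⊕ Fin m) (QW K a b))
    (quatAlg a b c m) := by
  refine isHomog_adjoin (R := K) _ ?_
  rintro x ⟨z, rfl⟩
  exact ⟨2, quatP_isHomogeneous _ _ _⟩

theorem decompose_odd_quatAlg (x : QuatCoord K a b m) (hx : x ∈ quatAlg a b c m) :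
    ∀ i, Odd i →
      (DirectSum.decompose (homogeneousSubmodule (Fin m ⊕ Fin m) (QW K a b)) x i :
        QuatCoord K a b m) = 0 := by
  classical
  unfold quatAlg at hx
  induction hx using Algebra.adjoin_induction with
  | mem x hx =>
    intro i hi
    obtain ⟨z, rfl⟩ := hx
    refine DirectSum.decompose_of_mem_ne _ (quatP_isHomogeneous z.1 z.2.1 z.2.2) ?_
    rintro rfl
    exact absurd hi (by decide)
  | algebraMap r =>
    intro i hi
    have h0 : algebraMap K (QuatCoord K a b m) r ∈
        homogeneousSubmodule (Fin m ⊕ Fin m) (QW K a b) 0 := by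
      rw [IsScalarTower.algebraMap_apply K (QW K a b)]
      exact SetLike.algebraMap_mem_graded _ _
    refine DirectSum.decompose_of_mem_ne _ h0 ?_
    rintro rfl
    exact absurd hi (by decide)
  | add x y _ _ hx hy =>
    intro i hi
    rw [DirectSum.decompose_add, DirectSum.add_apply, Submodule.coe_add, hx i hi, hy i hi,
      add_zero]
  | mul x y _ _ hx hy =>
    intro i hi
    conv_lhs => rw [← DirectSum.sum_support_decompose
      (homogeneousSubmodule (Fin m ⊕ Fin m) (QW K a b)) x]
    rw [Finset.sum_mul, DirectSum.decompose_sum, DFinsupp.finsetSum_apply,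
      AddSubmonoidClass.coe_finsetSum]
    refine Finset.sum_eq_zero fun j _ => ?_
    rw [DirectSum.coe_decompose_mul_of_left_mem _ _ (DirectSum.decompose _ x j).2]
    split_ifs with hji
    · rcases Nat.even_or_odd j with hj | hj
      · rw [hy (i - j) (Nat.Odd.sub_even hji hi hj), mul_zero]
      · rw [hx j hj, zero_mul]
    · rfl

theorem isInternal_quatGr : DirectSum.IsInternal (quatGr a b c m) := by
  let := subGradedAlgebra (R := K)
    (homogeneousSubmodule (Fin m ⊕ Fin m) (QW K a b)) (isHomog_quatAlg (c := c))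
  refine isInternal_halve (subGr (homogeneousSubmodule (Fin m ⊕ Fin m) (QW K a b))
    (quatAlg a b c m)) ?_
  intro x i hi
  apply Subtype.ext
  rw [coe_decompose_subGr (R := K) _ (isHomog_quatAlg (c := c)) x i]
  exact decompose_odd_quatAlg (x : QuatCoord K a b m) x.2 i hi

theorem gradedMonoid_quatGr : SetLike.GradedMonoid (quatGr a b c m) where
  one_mem := by
    change ((1 : quatAlg a b c m) : QuatCoord K a b m) ∈
      homogeneousSubmodule (Fin m ⊕ Fin m) (QW K a b) (2 * 0)
    exact isHomogeneous_one _ _
  mul_mem i j x y hx hy := by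
    change ((x * y : quatAlg a b c m) : QuatCoord K a b m) ∈
      homogeneousSubmodule (Fin m ⊕ Fin m) (QW K a b) (2 * (i + j))
    rw [mul_add]
    exact IsHomogeneous.mul hx hy

/-- The graded algebra structure (its decomposition map is determined by the grading). -/
noncomputable instance quatGradedAlgebra : GradedAlgebra (quatGr a b c m) :=
  { isInternal_quatGr.chooseDecomposition, gradedMonoid_quatGr with }

variable (H : Matrix (Fin m) (Fin m) ℍ[K,a,b,c])

/-- The ideal generated by the quadratic form `∑ z_i ρ(H_ij) η z_jᵀ`. -/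
noncomputable def quatIdeal : Ideal (quatAlg a b c m) :=
  Ideal.span {⟨quatPoly H, quatPoly_mem H⟩}

/-- The homogeneous coordinate ring of the involution variety. -/
def QuatRing : Type := quatAlg a b c m ⧸ quatIdeal H

/-- The quotient ring structure. -/
@[reducible]
noncomputable def quatCommRing : CommRing (QuatRing H) :=
  Ideal.Quotient.commRing (quatIdeal H)

noncomputable instance instCommRingQuatRing : CommRing (QuatRing H) :=
  quatCommRing H

/-- The quotient algebra structure. -/
@[reducible]
noncomputable def quatAlgebra (R : Type) [CommRing R] [Algebra R K] :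
    Algebra R (QuatRing H) :=
  Ideal.instAlgebraQuotient R (quatIdeal H)

noncomputable instance instAlgebraQuatRing {R : Type} [CommRing R] [Algebra R K] :
    Algebra R (QuatRing H) :=
  quatAlgebra H R

instance instIsScalarTowerQuatRing {R : Type} [CommRing R] [Algebra R K] :
    IsScalarTower R K (QuatRing H) :=
  IsScalarTower.of_algebraMap_eq fun r => by
    change Ideal.Quotient.mk (quatIdeal H) (algebraMap R (quatAlg a b c m) r) =
      Ideal.Quotient.mk (quatIdeal H) (algebraMap K (quatAlg a b c m) (algebraMap R K r))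
    rw [← IsScalarTower.algebraMap_apply]

/-- The projection to the homogeneous coordinate ring. -/
noncomputable def quatMk : quatAlg a b c m →+* QuatRing H :=
  Ideal.Quotient.mk (quatIdeal H)

theorem quatMk_surjective : Function.Surjective (quatMk H) := Ideal.Quotient.mk_surjective

theorem quatMk_algebraMap {R : Type} [CommRing R] [Algebra R K] (r : R) :
    quatMk H (algebraMap R _ r) = algebraMap R _ r := rfl

theorem quatMk_eq_zero_iff (x : quatAlg a b c m) :
    quatMk H x = 0 ↔ x ∈ quatIdeal H := Ideal.Quotient.eq_zero_iff_mem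

/-- The projection as a homomorphism of algebras. -/
noncomputable def quatMkₐ (R : Type) [CommRing R] [Algebra R K] :
    quatAlg a b c m →ₐ[R] QuatRing H :=
  { quatMk H with commutes' := fun _ => rfl }

/-- The grading of the homogeneous coordinate ring of the involution variety. -/
noncomputable def quatQGr (k : ℕ) : Submodule K (QuatRing H) :=
  (quatGr a b c m k).map (quatMkₐ H K).toLinearMap

theorem isHomogeneous_quatIdeal : (quatIdeal H).IsHomogeneous (quatGr a b c m) := by
  apply Ideal.homogeneous_span
  rintro _ rfl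
  exact ⟨1, isHomogeneous_quatPoly H⟩

theorem isInternal_quatQGr : DirectSum.IsInternal (quatQGr H) :=
  isInternal_quotGr (quatGr a b c m) _ (isHomogeneous_quatIdeal H)

theorem gradedMonoid_quatQGr : SetLike.GradedMonoid (quatQGr H) :=
  quotGr_gradedMonoid (quatGr a b c m) (quatIdeal H)

/-- The graded algebra structure (its decomposition map is determined by the grading). -/
noncomputable instance quatQGradedAlgebra : GradedAlgebra (quatQGr H) :=
  { (isInternal_quatQGr H).chooseDecomposition, gradedMonoid_quatQGr H with }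

end Defs

end Pool.Agent.Lib.MP_6a3dac_ag
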