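import Pool.Agent.Lib.MP_6a3dac_ag.QuatRepE

/-!
# The even map of an involution variety
-/

set_option autoImplicit false
set_option linter.unusedSectionVars false

namespace Pool.Agent.Lib.MP_6a3dac_ag

open MvPolynomial Matrix
open scoped Quaternion

attribute [local instance] MvPolynomial.gradedAlgebra

section Comp

variable {K W : Type} [CommRing K] [CommRing W] [Algebra K W] {a b c : K} {ω : W} {σ : W →+* W}
  {m : ℕ}

theorem gU_zero : gU ω (0 : ℍ[K,a,b,c]) = 0 := by simp [gU]

theorem gV_zero : gV ω (0 : ℍ[K,a,b,c]) = 0 := by simp [gV]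

theorem gU_sum {ι : Type} (s : Finset ι) (f : ι → ℍ[K,a,b,c]) :
    gU ω (∑ k ∈ s, f k) = ∑ k ∈ s, gU ω (f k) := by
  classical
  induction s using Finset.induction_on with
  | empty => simp [gU_zero]
  | insert x s hx ih => rw [Finset.sum_insert hx, Finset.sum_insert hx, gU_add, ih]

theorem gV_sum {ι : Type} (s : Finset ι) (f : ι → ℍ[K,a,b,c]) :
    gV ω (∑ k ∈ s, f k) = ∑ k ∈ s, gV ω (f k) := by
  classical
  induction s using Finset.induction_on with
  | empty => simp [gV_zero]
  | insert x s hx ih => rw [Finset.sum_insert hx, Finset.sum_insert hx, gV_add, ih]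

theorem eG_comp (hQ : QData a b ω σ) (hσ : ∀ w, σ (σ w) = w)
    (G N : Matrix (Fin m) (Fin m) ℍ[K,a,b,c]) (p : MvPolynomial (Fin m ⊕ Fin m) W) :
    eG ω σ G (eG ω σ N p) = eG ω σ (G * N) p := by
  have h : (eG ω σ G).comp (eG ω σ N) = eG ω σ (G * N) := by
    ext i : 1
    rw [AlgHom.comp_apply]
    rcases i with i | i
    · rw [eG_inl, eG_inl, map_sum]
      have h1 : ∀ k, eG ω σ G (C (gU ω (N k i)) * X (Sum.inl k) +
          C (algebraMap K W c * σ (gV ω (N k i))) * X (Sum.inr k)) =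
          ∑ l, (C (gU ω (G l k * N k i)) * X (Sum.inl l) +
            C (algebraMap K W c * σ (gV ω (G l k * N k i))) * X (Sum.inr l)) := by
        intro k
        rw [map_add, map_mul (eG ω σ G), map_mul (eG ω σ G), eG_C, eG_C, eG_inl, eG_inr,
          Finset.mul_sum, Finset.mul_sum, ← Finset.sum_add_distrib]
        refine Finset.sum_congr rfl fun l _ => ?_
        simp only [gU_mul hQ, gV_mul hQ, map_add, map_mul, hσ]
        ring
      simp_rw [h1]
      rw [Finset.sum_comm]
      refine Finset.sum_congr rfl fun l _ => ?_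
      rw [Matrix.mul_apply, gU_sum, gV_sum, Finset.sum_add_distrib, map_sum, Finset.sum_mul,
        map_sum, Finset.mul_sum, map_sum, Finset.sum_mul]
    · rw [eG_inr, eG_inr, map_sum]
      have h1 : ∀ k, eG ω σ G (C (gV ω (N k i)) * X (Sum.inl k) +
          C (σ (gU ω (N k i))) * X (Sum.inr k)) =
          ∑ l, (C (gV ω (G l k * N k i)) * X (Sum.inl l) +
            C (σ (gU ω (G l k * N k i))) * X (Sum.inr l)) := by
        intro k
        rw [map_add, map_mul (eG ω σ G), map_mul (eG ω σ G), eG_C, eG_C, eG_inl, eG_inr,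
          Finset.mul_sum, Finset.mul_sum, ← Finset.sum_add_distrib]
        refine Finset.sum_congr rfl fun l _ => ?_
        simp only [gU_mul hQ, gV_mul hQ, map_add, map_mul, hσ, hQ.alg]
        ring
      simp_rw [h1]
      rw [Finset.sum_comm]
      refine Finset.sum_congr rfl fun l _ => ?_
      rw [Matrix.mul_apply, gU_sum, gV_sum, Finset.sum_add_distrib, map_sum, Finset.sum_mul,
        map_sum, map_sum, Finset.sum_mul]
  exact DFunLike.congr_fun h p

theorem eG_one (p : MvPolynomial (Fin m ⊕ Fin m) W) :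
    eG ω σ (1 : Matrix (Fin m) (Fin m) ℍ[K,a,b,c]) p = p := by
  have h : eG ω σ (1 : Matrix (Fin m) (Fin m) ℍ[K,a,b,c]) = AlgHom.id W _ := by
    ext i : 1
    rw [AlgHom.id_apply]
    rcases i with i | i
    · rw [eG_inl, Finset.sum_eq_single i]
      · rw [Matrix.one_apply_eq, gU_one, gV_one]
        simp
      · intro k _ hk
        rw [Matrix.one_apply_ne hk, gU_zero, gV_zero]
        simp
      · simp
    · rw [eG_inr, Finset.sum_eq_single i]
      · rw [Matrix.one_apply_eq, gU_one, gV_one]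
        simp
      · intro k _ hk
        rw [Matrix.one_apply_ne hk, gU_zero, gV_zero]
        simp
      · simp
  exact DFunLike.congr_fun h p

theorem eG_isHomogeneous (G : Matrix (Fin m) (Fin m) ℍ[K,a,b,c])
    {p : MvPolynomial (Fin m ⊕ Fin m) W} {k : ℕ} (hp : p.IsHomogeneous k) :
    (eG ω σ G p).IsHomogeneous k := by
  have h : ∀ (r : W) (v : Fin m ⊕ Fin m),
      (C r * X v : MvPolynomial (Fin m ⊕ Fin m) W).IsHomogeneous 1 := by
    intro r v
    have h1 := (isHomogeneous_C (Fin m ⊕ Fin m) r).mul (isHomogeneous_X W v)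
    rwa [zero_add] at h1
  have h2 := hp.aeval (n := 1) (Sum.elim
    (fun i => ∑ k, (C (gU ω (G k i)) * X (Sum.inl k) +
      C (algebraMap K W c * σ (gV ω (G k i))) * X (Sum.inr k)))
    (fun i => ∑ k, (C (gV ω (G k i)) * X (Sum.inl k) +
      C (σ (gU ω (G k i))) * X (Sum.inr k)))) (by
      rintro (i | i)
      · exact IsHomogeneous.sum _ _ _ fun k _ => (h _ _).add (h _ _)
      · exact IsHomogeneous.sum _ _ _ fun k _ => (h _ _).add (h _ _))
  rwa [one_mul] at h2

theorem eG_gPoly (hQ : QData a b ω σ) (hσ : ∀ w, σ (σ w) = w)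
    (G H : Matrix (Fin m) (Fin m) ℍ[K,a,b,c]) :
    eG ω σ G (gPoly ω σ H) = gPoly ω σ (G * H * Gᴴ) := by
  rw [gPoly, map_sum]
  simp_rw [map_sum, eG_gQ hQ hσ]
  have h1 : ∀ k l, gQ ω σ k l ((G * H * Gᴴ) k l) =
      ∑ j, ∑ i, gQ ω σ k l (G k i * H i j * star (G l j)) := by
    intro k l
    rw [Matrix.mul_apply, gQ_sum]
    refine Finset.sum_congr rfl fun j _ => ?_
    rw [Matrix.mul_apply, Finset.sum_mul, gQ_sum]
    rfl
  rw [gPoly]
  simp_rw [h1]
  calc ∑ i, ∑ j, ∑ k, ∑ l, gQ ω σ k l (G k i * H i j * star (G l j))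
      = ∑ i, ∑ k, ∑ j, ∑ l, gQ ω σ k l (G k i * H i j * star (G l j)) :=
        Finset.sum_congr rfl fun i _ => Finset.sum_comm
    _ = ∑ k, ∑ i, ∑ j, ∑ l, gQ ω σ k l (G k i * H i j * star (G l j)) := Finset.sum_comm
    _ = ∑ k, ∑ i, ∑ l, ∑ j, gQ ω σ k l (G k i * H i j * star (G l j)) :=
        Finset.sum_congr rfl fun k _ => Finset.sum_congr rfl fun i _ => Finset.sum_comm
    _ = ∑ k, ∑ l, ∑ i, ∑ j, gQ ω σ k l (G k i * H i j * star (G l j)) :=
        Finset.sum_congr rfl fun k _ => Finset.sum_comm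
    _ = ∑ k, ∑ l, ∑ j, ∑ i, gQ ω σ k l (G k i * H i j * star (G l j)) :=
        Finset.sum_congr rfl fun k _ => Finset.sum_congr rfl fun l _ => Finset.sum_comm

end Comp

end Pool.Agent.Lib.MP_6a3dac_ag
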