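import Pool.Agent.Lib.MP_6a3dac_ag.QuatEven
import Pool.Agent.Lib.MP_6a3dac_ag.Mg.G002

/-!
# The even map from the coordinate ring of an involution variety to that of a quadric
-/

set_option autoImplicit false
set_option linter.unusedSectionVars false

namespace Pool.Agent.Lib.MP_6a3dac_ag

open MvPolynomial Matrix
open scoped Quaternion

attribute [local instance] MvPolynomial.gradedAlgebra

section Pr

variable {K₁ : Type} [Field K₁] {m : ℕ} (B : Matrix (Fin (m + m)) (Fin (m + m)) K₁)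

/-- The projection from the polynomial ring in two sets of variables to the coordinate ring of a
quadric. -/
noncomputable def prQ : MvPolynomial (Fin m ⊕ Fin m) K₁ →ₐ[K₁] QCoord B :=
  (Ideal.Quotient.mkₐ K₁ (Ideal.span {quadPoly B})).comp (rename finSumFinEquiv)

theorem prQ_surjective : Function.Surjective (prQ B) := by
  intro x
  obtain ⟨p, rfl⟩ := Ideal.Quotient.mk_surjective x
  refine ⟨rename finSumFinEquiv.symm p, ?_⟩
  change Ideal.Quotient.mk _ (rename finSumFinEquiv (rename finSumFinEquiv.symm p)) = _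
  rw [rename_rename]
  simp

theorem prQ_C (r : K₁) : prQ B (C r) = algebraMap K₁ (QCoord B) r := by
  rw [← algebraMap_eq]
  exact (prQ B).commutes r

variable {B} {q₁ : MvPolynomial (Fin m ⊕ Fin m) K₁} (hB : rename finSumFinEquiv q₁ = quadPoly B)

include hB in
theorem prQ_eq_zero_iff (p : MvPolynomial (Fin m ⊕ Fin m) K₁) : prQ B p = 0 ↔ q₁ ∣ p := by
  change Ideal.Quotient.mk _ (rename finSumFinEquiv p) = 0 ↔ _
  rw [Ideal.Quotient.eq_zero_iff_mem, Ideal.mem_span_singleton, ← hB]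
  constructor
  · intro h
    have h1 := map_dvd (rename (finSumFinEquiv (m := m) (n := m)).symm) h
    rwa [rename_rename, rename_rename, Equiv.symm_comp_self, rename_id_apply, rename_id_apply] at h1
  · exact map_dvd _

theorem quadricGr_eq (k : ℕ) : quadricGr B k =
    (homogeneousSubmodule (Fin m ⊕ Fin m) K₁ k).map (prQ B).toLinearMap := by
  ext x
  constructor
  · rintro ⟨p, hp, rfl⟩
    refine ⟨rename finSumFinEquiv.symm p, IsHomogeneous.rename_isHomogeneous hp, ?_⟩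
    change Ideal.Quotient.mk _ (rename finSumFinEquiv (rename finSumFinEquiv.symm p)) =
      Ideal.Quotient.mk _ p
    rw [rename_rename]
    simp
  · rintro ⟨p, hp, rfl⟩
    exact ⟨rename finSumFinEquiv p, IsHomogeneous.rename_isHomogeneous hp, rfl⟩

theorem prQ_mem {p : MvPolynomial (Fin m ⊕ Fin m) K₁} {k : ℕ} (hp : p.IsHomogeneous k) :
    prQ B p ∈ quadricGr B k := by
  rw [quadricGr_eq]
  exact ⟨p, hp, rfl⟩

end Pr

section Quad

variable {K : Type} [Field K] {a b c a' b' c' : K} (φ : ℍ[K,a',b',c'] ≃ₐ[K] ℍ[K,a,b,c])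
  {K₁ : Type} [Field K₁] [Algebra K K₁] {ω : K₁} {σ : K₁ →+* K₁} {m : ℕ}

theorem quatPoly_eq_sum (H : Matrix (Fin m) (Fin m) ℍ[K,a,b,c]) :
    (⟨quatPoly H, quatPoly_mem H⟩ : quatAlg a b c m) =
      ∑ i, ∑ k, ⟨quatP i k (H i k), quatP_mem i k (H i k)⟩ := by
  apply Subtype.ext
  simp only [AddSubmonoidClass.coe_finsetSum]
  rfl

/-- **The even map of an involution variety.** -/
theorem exists_evenMap_quad (hroot : ∀ r : K, r * r ≠ a + b * r) (hQ : QData a' b' ω σ)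
    (hσ : ∀ w, σ (σ w) = w) (hne : ω - σ ω ≠ 0) (hc' : c' ≠ 0)
    (hbas : ∀ z : K₁, ∃ x y : K, z = algebraMap K K₁ x + algebraMap K K₁ y * ω)
    {G N : Matrix (Fin m) (Fin m) ℍ[K,a',b',c']} (hGN : G * N = 1) (hNG : N * G = 1)
    (H : Matrix (Fin m) (Fin m) ℍ[K,a,b,c]) {q₁ : MvPolynomial (Fin m ⊕ Fin m) K₁} {u : K₁}
    (hu : u ≠ 0) (hq : gPoly ω σ (G * H.map φ.symm * Gᴴ) = u • q₁)
    {B : Matrix (Fin (m + m)) (Fin (m + m)) K₁} (hB : rename finSumFinEquiv q₁ = quadPoly B) :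
    ∃ (j : QuatRing H →+* QCoord B) (τ : QCoord B →+* QCoord B),
      EvenMap (quatQGr H) (quadricGr B) ω j ∧
      (∀ k, ∀ x ∈ quatQGr H k, τ (j x) = (-algebraMap K K₁ c') ^ k • j x) ∧
      (∀ p, τ (prQ B p) = prQ B (tauP (algebraMap K K₁ c') σ p)) ∧
      ∀ i k (d : ℍ[K,a,b,c]), j (quatMk H ⟨quatP i k d, quatP_mem i k d⟩) =
        prQ B (eG ω σ G (gQ ω σ i k (φ.symm d))) := by
  have hcK : algebraMap K K₁ c' ≠ 0 := by
    rw [Ne, map_eq_zero]
    exact hc'
  obtain ⟨j₁, hj₁, hE₁, -⟩ := exists_evenMap_rep (a := a) (b := b) (c := c) φ m hroot hQ hσ hne hc'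
    hbas
  have hE₂ := hE₁.comp_equiv (𝒜₂ := homogeneousSubmodule (Fin m ⊕ Fin m) K₁) (eG ω σ G)
    (eG ω σ N) (fun x => by rw [eG_comp hQ hσ, hNG, eG_one])
    (fun x => by rw [eG_comp hQ hσ, hGN, eG_one])
    (fun k x hx => eG_isHomogeneous G hx) (fun k x hx => eG_isHomogeneous N hx)
  set j₂ : quatAlg a b c m →+* MvPolynomial (Fin m ⊕ Fin m) K₁ :=
    ((eG ω σ G : _ →+* _) : MvPolynomial (Fin m ⊕ Fin m) K₁ →+* _).comp j₁ with hj₂def
  have hj₂ : ∀ i k (d : ℍ[K,a,b,c]), j₂ ⟨quatP i k d, quatP_mem i k d⟩ =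
      ∑ p, ∑ q, gQ ω σ p q (G p i * φ.symm d * star (G q k)) := by
    intro i k d
    change eG ω σ G (j₁ _) = _
    rw [hj₁, eG_gQ hQ hσ]
  have hτ₂ : ∀ k, ∀ x ∈ quatGr a b c m k, tauP (algebraMap K K₁ c') σ (j₂ x) =
      (-algebraMap K K₁ c') ^ k • j₂ x := by
    refine comp_induction (quatGr a b c m) (adjoin_quatGens m) (fun g hg => quatGens_mem m hg)
      (fun k x => tauP (algebraMap K K₁ c') σ (j₂ x) = (-algebraMap K K₁ c') ^ k • j₂ x)
      ?_ ?_ ?_ ?_ ?_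
    · intro k
      simp
    · intro k x y hx hy
      rw [map_add, map_add, hx, hy, smul_add]
    · intro r
      rw [hE₂.alg, algebraMap_eq, tauP_C, hQ.alg, pow_zero, one_smul]
    · rintro x ⟨⟨i, k, d⟩, hd⟩
      have h1 : x = ⟨quatP i k d, quatP_mem i k d⟩ := Subtype.ext hd.symm
      rw [h1, hj₂, pow_one, map_sum, Finset.smul_sum]
      refine Finset.sum_congr rfl fun p _ => ?_
      rw [map_sum, Finset.smul_sum]
      refine Finset.sum_congr rfl fun q _ => ?_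
      rw [tauP_gQ rfl hQ hσ, smul_eq_C_mul]
    · intro k l x y hx hy
      rw [map_mul, map_mul, hx, hy, pow_add, smul_mul_smul_comm]
  have hjH : j₂ ⟨quatPoly H, quatPoly_mem H⟩ = u • q₁ := by
    rw [← hq, ← eG_gPoly hQ hσ]
    change eG ω σ G (j₁ _) = _
    congr 1
    rw [quatPoly_eq_sum, map_sum, gPoly]
    refine Finset.sum_congr rfl fun i _ => ?_
    rw [map_sum]
    refine Finset.sum_congr rfl fun k _ => ?_
    rw [hj₁]
    rfl
  have hq₁ : q₁.IsHomogeneous 2 := by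
    have h1 : (gPoly ω σ (G * H.map φ.symm * Gᴴ)).IsHomogeneous 2 := gPoly_isHomogeneous _
    have h2 : q₁ = u⁻¹ • gPoly ω σ (G * H.map φ.symm * Gᴴ) := by
      rw [hq, smul_smul, inv_mul_cancel₀ hu, one_smul]
    rw [h2]
    exact Submodule.smul_mem (homogeneousSubmodule (Fin m ⊕ Fin m) K₁ 2) _ h1
  obtain ⟨j, hj, hE⟩ := hE₂.quot (ℬ := quatQGr H) (ℬ₁ := quadricGr B) (quatMkₐ H K)
    (quatMk_surjective H) (prQ B) (fun k => rfl) (fun k => quadricGr_eq k)
    (q := ⟨quatPoly H, quatPoly_mem H⟩) (fun x => by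
      change quatMk H x = 0 ↔ _
      rw [quatMk_eq_zero_iff, quatIdeal, Ideal.mem_span_singleton]) (q₁ := q₁) hq₁
    (prQ_eq_zero_iff hB) hu hjH
  -- the semilinear automorphism
  have htq : q₁ ∣ tauP (algebraMap K K₁ c') σ q₁ := by
    have h1 : tauP (algebraMap K K₁ c') σ (gPoly ω σ (G * H.map φ.symm * Gᴴ)) =
        C (-algebraMap K K₁ c') * gPoly ω σ (G * H.map φ.symm * Gᴴ) := by
      rw [gPoly, map_sum, Finset.mul_sum]
      refine Finset.sum_congr rfl fun p _ => ?_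
      rw [map_sum, Finset.mul_sum]
      exact Finset.sum_congr rfl fun q _ => tauP_gQ rfl hQ hσ p q _
    have h2 : q₁ = C u⁻¹ * gPoly ω σ (G * H.map φ.symm * Gᴴ) := by
      rw [hq, smul_eq_C_mul, ← mul_assoc, ← C_mul, inv_mul_cancel₀ hu, C_1, one_mul]
    conv_rhs => rw [h2]
    rw [map_mul, tauP_C, h1, hq, smul_eq_C_mul]
    exact ⟨C (σ u⁻¹) * C (-algebraMap K K₁ c') * C u, by ring⟩
  have hri : Function.RightInverse (Function.surjInv (prQ_surjective B))
      (prQ B : MvPolynomial (Fin m ⊕ Fin m) K₁ →+* QCoord B) :=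
    Function.rightInverse_surjInv (prQ_surjective B)
  have hle : RingHom.ker (prQ B : MvPolynomial (Fin m ⊕ Fin m) K₁ →+* QCoord B) ≤
      RingHom.ker ((prQ B : MvPolynomial (Fin m ⊕ Fin m) K₁ →+* QCoord B).comp
        (tauP (algebraMap K K₁ c') σ)) := by
    intro x hx
    have h1 : prQ B x = 0 := hx
    obtain ⟨y, rfl⟩ := (prQ_eq_zero_iff hB x).mp h1
    change prQ B (tauP (algebraMap K K₁ c') σ (q₁ * y)) = 0
    rw [prQ_eq_zero_iff hB, map_mul]
    exact htq.mul_right _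
  let τ : QCoord B →+* QCoord B := RingHom.liftOfRightInverse
    (prQ B : MvPolynomial (Fin m ⊕ Fin m) K₁ →+* QCoord B) _ hri
    ⟨(prQ B : MvPolynomial (Fin m ⊕ Fin m) K₁ →+* QCoord B).comp
      (tauP (algebraMap K K₁ c') σ), hle⟩
  have hτ : ∀ p, τ (prQ B p) = prQ B (tauP (algebraMap K K₁ c') σ p) := fun p =>
    RingHom.liftOfRightInverse_comp_apply _ _ hri ⟨_, hle⟩ p
  refine ⟨j, τ, hE, ?_, hτ, ?_⟩
  · rintro k _ ⟨s, hs, rfl⟩
    change τ (j (quatMkₐ H K s)) = _ • j (quatMkₐ H K s)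
    rw [hj, hτ]
    change prQ B (tauP (algebraMap K K₁ c') σ (j₂ s)) = _ • prQ B (j₂ s)
    rw [hτ₂ k s hs, map_smul]
  · intro i k d
    rw [← hj₁]
    exact hj _

end Quad

end Pool.Agent.Lib.MP_6a3dac_ag
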