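import Pool.Agent.Lib.MP_6a3dac_ag.QuatLocalIII

/-!
# Local orders of involution varieties at almost all primes: assembly
-/

set_option autoImplicit false
set_option linter.unusedSectionVars false

namespace Pool.Agent.Lib.MP_6a3dac_ag

open Matrix IsDedekindDomain IsLocalRing MvPolynomial
open scoped Quaternion

section Local

variable {R K : Type} [CommRing R] [IsDedekindDomain R] [Field K] [CharZero K] [Algebra R K]
  [IsFractionRing R K] {m : ℕ}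

theorem quat_local_good (p : HeightOneSpectrum R) [Finite (R ⧸ p.asIdeal)] (hm : 2 ≤ m)
    {a b c : locRing K p} {H N : Matrix (Fin m) (Fin m) ℍ[K,algebraMap (locRing K p) K a,
      algebraMap (locRing K p) K b,algebraMap (locRing K p) K c]}
    (hH : Hᴴ = -H) (hHN : H * N = 1) (hNH : N * H = 1)
    (hroot : ∀ r : K, r * r ≠ algebraMap (locRing K p) K a + algebraMap (locRing K p) K b * r)
    (hd : IsUnit (b ^ 2 + 4 * a)) (hcu : IsUnit c) (h2u : IsUnit (2 : locRing K p))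
    (hintH : ∀ x : Fin m × Fin m × Fin 4, ∃ y : locRing K p,
      algebraMap (locRing K p) K y = quatCo (H x.1 x.2.1) x.2.2)
    (hintN : ∀ x : Fin m × Fin m × Fin 4, ∃ y : locRing K p,
      algebraMap (locRing K p) K y = quatCo (N x.1 x.2.1) x.2.2) :
    QuatGood H p (stdQ H) := by
  have hfin := finite_residue_locRing (K := K) p
  obtain ⟨K₁, _, _, ω, σ, hE⟩ := exists_qext hroot
  have : CharZero K₁ := charZero_of_injective_algebraMap (algebraMap K K₁).injective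
  have := hE.isDedekindDomain
  have := hE.isFractionRing
  obtain ⟨P⟩ := exists_prime_any hE hd
  have := hE.isLocalHom_kap P
  obtain ⟨π, hπ⟩ := IsDiscreteValuationRing.exists_irreducible (locRing K p)
  obtain ⟨h1, h2⟩ := quat_good_aux (R := R) (O := locRing K p) (O₁ := locRing K₁ P) p.asIdeal hE
    (hE.etaleLike hd P) (hE.algebraMap_omL P) (fun o => rfl) hm hH hHN hNH hroot hπ
    (hE.irreducible_kap hd P hπ) hcu h2u hintH hintN
  refine ⟨Set.finite_range _, ?_, h1, h2⟩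
  rintro _ ⟨⟨i, k, t⟩, rfl⟩
  refine ⟨1, one_pos, ⟨quatP i k (quatBasis _ _ _ t), quatP_mem _ _ _⟩, ?_, rfl⟩
  exact quatP_isHomogeneous i k _

theorem exists_good_quat {a₀ b₀ c₀ : K} (hfin : ∀ p : HeightOneSpectrum R, Finite (R ⧸ p.asIdeal))
    (hm : 2 ≤ m) {H : Matrix (Fin m) (Fin m) ℍ[K,a₀,b₀,c₀]} (hH : Hᴴ = -H) (hHu : IsUnit H)
    (hroot : ∀ r : K, r * r ≠ a₀ + b₀ * r) (hd : b₀ ^ 2 + 4 * a₀ ≠ 0) (hc : c₀ ≠ 0) :
    ∃ D : R, D ≠ 0 ∧ ∀ p : HeightOneSpectrum R, D ∉ p.asIdeal → QuatGood H p (stdQ H) := by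
  obtain ⟨⟨H', N, hHN, hNH⟩, rfl⟩ := hHu
  change H'ᴴ = -H' at hH
  obtain ⟨D₁, hD₁, h₁⟩ := exists_integral_ae_family (R := R) ![a₀, b₀, c₀]
  obtain ⟨D₂, hD₂, h₂⟩ := exists_integral_ae_family (R := R)
    (fun x : Fin m × Fin m × Fin 4 => quatCo (H' x.1 x.2.1) x.2.2)
  obtain ⟨D₃, hD₃, h₃⟩ := exists_integral_ae_family (R := R)
    (fun x : Fin m × Fin m × Fin 4 => quatCo (N x.1 x.2.1) x.2.2)
  obtain ⟨D₄, hD₄, h₄⟩ := exists_unit_ae (R := R) hc
  obtain ⟨D₅, hD₅, h₅⟩ := exists_unit_ae (R := R) hd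
  obtain ⟨D₆, hD₆, h₆⟩ := exists_unit_ae (R := R) (two_ne_zero (α := K))
  refine ⟨D₁ * D₂ * D₃ * D₄ * D₅ * D₆, by simp [hD₁, hD₂, hD₃, hD₄, hD₅, hD₆], fun p hp => ?_⟩
  have hmem : ∀ {x y : R}, x * y ∉ p.asIdeal → x ∉ p.asIdeal ∧ y ∉ p.asIdeal := by
    intro x y h
    exact ⟨fun h1 => h (p.asIdeal.mul_mem_right _ h1), fun h1 => h (p.asIdeal.mul_mem_left _ h1)⟩
  obtain ⟨hp, g6⟩ := hmem hp
  obtain ⟨hp, g5⟩ := hmem hp
  obtain ⟨hp, g4⟩ := hmem hp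
  obtain ⟨hp, g3⟩ := hmem hp
  obtain ⟨g1, g2⟩ := hmem hp
  obtain ⟨a, ha⟩ := h₁ p g1 0
  obtain ⟨b, hb⟩ := h₁ p g1 1
  obtain ⟨c, hc'⟩ := h₁ p g1 2
  change algebraMap (locRing K p) K a = a₀ at ha
  change algebraMap (locRing K p) K b = b₀ at hb
  change algebraMap (locRing K p) K c = c₀ at hc'
  have e2 := h₂ p g2
  have e3 := h₃ p g3
  have e4 := h₄ p g4
  have e5 := h₅ p g5
  have e6 := h₆ p g6
  clear h₁ h₂ h₃ h₄ h₅ h₆
  subst ha hb hc'
  have := hfin p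
  refine quat_local_good p hm hH hHN hNH hroot ?_ ?_ ?_ e2 e3
  · apply e5
    simp only [map_add, map_pow, map_mul, map_ofNat]
  · exact e4 _ rfl
  · exact e6 _ (map_ofNat _ 2)

end Local

end Pool.Agent.Lib.MP_6a3dac_ag
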