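import Pool.Agent.Lib.MP_6a3dac_ag.QuatGen
import Pool.Agent.Lib.MP_6a3dac_ag.QuatEven

/-!
# Gram matrices of quaternionic skew-Hermitian forms
-/

set_option autoImplicit false
set_option linter.unusedSectionVars false

namespace Pool.Agent.Lib.MP_6a3dac_ag

open Matrix
open scoped Quaternion

section Rho

variable {K W : Type} [CommRing K] [CommRing W] [Algebra K W] {a b c : K} {ω : W} {σ : W →+* W}
  {m : ℕ} (hQ : QData a b ω σ) (hσ : ∀ w, σ (σ w) = w)

/-- The first component of a matrix. -/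
def mU (ω : W) (M : Matrix (Fin m) (Fin m) ℍ[K,a,b,c]) : Matrix (Fin m) (Fin m) W :=
  Matrix.of fun i j => gU ω (M i j)

/-- The second component of a matrix. -/
def mV (ω : W) (M : Matrix (Fin m) (Fin m) ℍ[K,a,b,c]) : Matrix (Fin m) (Fin m) W :=
  Matrix.of fun i j => gV ω (M i j)

/-- The representation of matrices over the quaternion algebra. -/
def rhoB (ω : W) (σ : W →+* W) (M : Matrix (Fin m) (Fin m) ℍ[K,a,b,c]) :
    Matrix (Fin m ⊕ Fin m) (Fin m ⊕ Fin m) W :=
  fromBlocks (mU ω M) (mV ω M) (algebraMap K W c • (mV ω M).map σ) ((mU ω M).map σ)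

include hQ in
theorem mU_mul (M N : Matrix (Fin m) (Fin m) ℍ[K,a,b,c]) :
    mU ω (M * N) = mU ω M * mU ω N + algebraMap K W c • (mV ω M * (mV ω N).map σ) := by
  ext i j
  simp only [mU, mV, Matrix.of_apply, Matrix.mul_apply, gU_sum, gU_mul hQ, Matrix.add_apply,
    Matrix.smul_apply, Matrix.map_apply, smul_eq_mul, Finset.mul_sum, Finset.sum_add_distrib]
  congr 1
  exact Finset.sum_congr rfl fun k _ => by ring

include hQ in
theorem mV_mul (M N : Matrix (Fin m) (Fin m) ℍ[K,a,b,c]) :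
    mV ω (M * N) = mU ω M * mV ω N + mV ω M * (mU ω N).map σ := by
  ext i j
  simp only [mU, mV, Matrix.of_apply, Matrix.mul_apply, gV_sum, gV_mul hQ, Matrix.add_apply,
    Matrix.map_apply, Finset.sum_add_distrib]

theorem mU_one : mU ω (1 : Matrix (Fin m) (Fin m) ℍ[K,a,b,c]) = 1 := by
  ext i j
  by_cases h : i = j
  · subst h
    simp only [mU, Matrix.of_apply, Matrix.one_apply_eq, gU_one]
  · simp only [mU, Matrix.of_apply, Matrix.one_apply_ne h, gU_zero]

theorem mV_one : mV ω (1 : Matrix (Fin m) (Fin m) ℍ[K,a,b,c]) = 0 := by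
  ext i j
  by_cases h : i = j
  · subst h
    simp only [mV, Matrix.of_apply, Matrix.one_apply_eq, gV_one, Matrix.zero_apply]
  · simp only [mV, Matrix.of_apply, Matrix.one_apply_ne h, gV_zero, Matrix.zero_apply]

theorem map_mul_ringHom {R S : Type} [CommRing R] [CommRing S] (f : R →+* S)
    (M N : Matrix (Fin m) (Fin m) R) : (M * N).map f = M.map f * N.map f := by
  ext i j
  simp [Matrix.mul_apply]

include hQ hσ in
theorem rhoB_mul (M N : Matrix (Fin m) (Fin m) ℍ[K,a,b,c]) :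
    rhoB ω σ (M * N) = rhoB ω σ M * rhoB ω σ N := by
  have h1 : ∀ X : Matrix (Fin m) (Fin m) W, (X.map σ).map σ = X := by
    intro X
    ext i j
    simp [hσ]
  have h2 : ∀ (r : K) (X : Matrix (Fin m) (Fin m) W),
      (algebraMap K W r • X).map σ = algebraMap K W r • X.map σ := by
    intro r X
    ext i j
    change σ (algebraMap K W r * X i j) = algebraMap K W r * σ (X i j)
    rw [map_mul, hQ.alg]
  have h3 : ∀ (X Y : Matrix (Fin m) (Fin m) W), (X + Y).map σ = X.map σ + Y.map σ := by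
    intro X Y
    ext i j
    simp
  rw [rhoB, rhoB, rhoB, fromBlocks_multiply]
  congr 1
  · rw [mU_mul hQ, mul_smul_comm]
  · exact mV_mul hQ M N
  · rw [mV_mul hQ, h3, map_mul_ringHom, map_mul_ringHom, h1, smul_add, smul_mul_assoc,
      mul_smul_comm, add_comm]
  · rw [mU_mul hQ, h3, map_mul_ringHom, h2, map_mul_ringHom, h1, smul_mul_assoc, add_comm]

theorem rhoB_one : rhoB ω σ (1 : Matrix (Fin m) (Fin m) ℍ[K,a,b,c]) = 1 := by
  rw [rhoB, mU_one, mV_one]
  have h1 : (1 : Matrix (Fin m) (Fin m) W).map σ = 1 := by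
    rw [Matrix.map_one _ (map_zero σ) (map_one σ)]
  have h2 : (0 : Matrix (Fin m) (Fin m) W).map σ = 0 := by
    rw [Matrix.map_zero _ (map_zero σ)]
  rw [h1, h2, smul_zero, fromBlocks_one]

include hQ hσ in
theorem isUnit_det_rhoB {M : Matrix (Fin m) (Fin m) ℍ[K,a,b,c]} (hM : IsUnit M) :
    IsUnit (rhoB ω σ M).det := by
  obtain ⟨N, hN⟩ := hM.exists_right_inv
  have h1 : rhoB ω σ M * rhoB ω σ N = 1 := by rw [← rhoB_mul hQ hσ, hN, rhoB_one]
  have h2 := congrArg Matrix.det h1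
  rw [Matrix.det_mul, Matrix.det_one] at h2
  exact IsUnit.of_mul_eq_one _ h2

/-- The Gram matrix of the quadratic form of a matrix. -/
def gramB (ω : W) (σ : W →+* W) (M : Matrix (Fin m) (Fin m) ℍ[K,a,b,c]) :
    Matrix (Fin m ⊕ Fin m) (Fin m ⊕ Fin m) W :=
  fromBlocks (mV ω M) (-mU ω M) ((mU ω M).map σ) (-(algebraMap K W c • (mV ω M).map σ))

theorem gramB_eq (M : Matrix (Fin m) (Fin m) ℍ[K,a,b,c]) :
    gramB ω σ M = rhoB ω σ M * fromBlocks 0 (-1) 1 0 := by
  rw [gramB, rhoB, fromBlocks_multiply]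
  simp

theorem det_eta : (fromBlocks 0 (-1) 1 0 : Matrix (Fin m ⊕ Fin m) (Fin m ⊕ Fin m) W).det ^ 2 =
    1 := by
  have h1 : (fromBlocks 0 (-1) 1 0 : Matrix (Fin m ⊕ Fin m) (Fin m ⊕ Fin m) W) *
      fromBlocks 0 1 (-1) 0 = 1 := by
    rw [fromBlocks_multiply]
    simp
  have h2 : (fromBlocks 0 1 (-1) 0 : Matrix (Fin m ⊕ Fin m) (Fin m ⊕ Fin m) W) =
      (fromBlocks 0 (-1) 1 0)ᵀ := by
    rw [fromBlocks_transpose]
    simp
  rw [h2] at h1
  have h3 := congrArg Matrix.det h1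
  rw [Matrix.det_mul, Matrix.det_transpose, Matrix.det_one] at h3
  rw [pow_two]
  exact h3

include hQ hσ in
theorem isUnit_det_gramB {M : Matrix (Fin m) (Fin m) ℍ[K,a,b,c]} (hM : IsUnit M) :
    IsUnit (gramB ω σ M).det := by
  rw [gramB_eq, Matrix.det_mul]
  refine (isUnit_det_rhoB hQ hσ hM).mul ?_
  have h1 := det_eta (W := W) (m := m)
  rw [pow_two] at h1
  exact IsUnit.of_mul_eq_one _ h1

include hQ in
/-- The components of a skew-Hermitian matrix. -/
theorem skew_mU {M : Matrix (Fin m) (Fin m) ℍ[K,a,b,c]} (hM : Mᴴ = -M) (i j : Fin m) :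
    σ (gU ω (M i j)) = -gU ω (M j i) := by
  have h1 := congrFun (congrFun hM j) i
  rw [conjTranspose_apply, Matrix.neg_apply] at h1
  have h2 := congrArg (gU ω) h1
  rw [gU_star hQ] at h2
  rw [h2]
  simp only [gU, QuaternionAlgebra.re_neg, QuaternionAlgebra.imI_neg, map_neg]
  ring

theorem skew_mV {M : Matrix (Fin m) (Fin m) ℍ[K,a,b,c]} (hM : Mᴴ = -M) (i j : Fin m) :
    gV ω (M i j) = gV ω (M j i) := by
  have h1 := congrFun (congrFun hM j) i
  rw [conjTranspose_apply, Matrix.neg_apply] at h1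
  have h2 := congrArg (gV ω) h1
  rw [gV_star] at h2
  have h3 : gV ω (-M j i) = -gV ω (M j i) := by
    simp only [gV, QuaternionAlgebra.imJ_neg, QuaternionAlgebra.imK_neg, map_neg]
    ring
  rw [h3] at h2
  exact neg_injective h2

include hQ in
theorem gramB_symm {M : Matrix (Fin m) (Fin m) ℍ[K,a,b,c]} (hM : Mᴴ = -M) :
    (gramB ω σ M)ᵀ = gramB ω σ M := by
  rw [gramB, fromBlocks_transpose]
  congr 1
  · ext i j
    exact skew_mV hM j i
  · ext i j
    simp only [Matrix.transpose_apply, Matrix.map_apply, mU, Matrix.of_apply, Matrix.neg_apply]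
    exact skew_mU hQ hM j i
  · ext i j
    simp only [Matrix.transpose_apply, Matrix.map_apply, mU, Matrix.of_apply, Matrix.neg_apply]
    rw [skew_mU hQ hM i j]
  · ext i j
    simp only [Matrix.transpose_apply, Matrix.map_apply, mV, Matrix.of_apply, Matrix.neg_apply,
      Matrix.smul_apply]
    rw [skew_mV hM j i]

theorem isSkew_conj {G M : Matrix (Fin m) (Fin m) ℍ[K,a,b,c]} (hM : Mᴴ = -M) :
    (G * M * Gᴴ)ᴴ = -(G * M * Gᴴ) := by
  rw [conjTranspose_mul, conjTranspose_mul, conjTranspose_conjTranspose, hM]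
  rw [Matrix.neg_mul, Matrix.mul_neg, Matrix.mul_assoc]

end Rho

end Pool.Agent.Lib.MP_6a3dac_ag
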