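import Pool.Agent.Lib.MP_6a3dac_ag.QuatGram
import Pool.Agent.Lib.MP_6a3dac_ag.QuadDomain

/-!
# Quadratic polynomials in two sets of variables
-/

set_option autoImplicit false
set_option linter.unusedSectionVars false

namespace Pool.Agent.Lib.MP_6a3dac_ag

open Matrix MvPolynomial
open scoped Quaternion

section Blk

variable {W : Type} [CommRing W] {m : ℕ}

/-- The quadratic polynomial of a matrix. -/
noncomputable def blkPoly (N : Matrix (Fin m ⊕ Fin m) (Fin m ⊕ Fin m) W) :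
    MvPolynomial (Fin m ⊕ Fin m) W :=
  ∑ v, ∑ w, C (N v w) * X v * X w

/-- The reindexed matrix. -/
def blkMat (N : Matrix (Fin m ⊕ Fin m) (Fin m ⊕ Fin m) W) :
    Matrix (Fin (m + m)) (Fin (m + m)) W :=
  N.submatrix finSumFinEquiv.symm finSumFinEquiv.symm

theorem rename_blkPoly (N : Matrix (Fin m ⊕ Fin m) (Fin m ⊕ Fin m) W) :
    rename finSumFinEquiv (blkPoly N) = quadPoly (blkMat N) := by
  rw [blkPoly, quadPoly, map_sum]
  rw [← Equiv.sum_comp finSumFinEquiv (fun i => ∑ j, C (blkMat N i j) * X i * X j)]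
  refine Finset.sum_congr rfl fun v _ => ?_
  rw [map_sum]
  rw [← Equiv.sum_comp finSumFinEquiv
    (fun j => C (blkMat N (finSumFinEquiv v) j) * X (finSumFinEquiv v) * X j)]
  refine Finset.sum_congr rfl fun w _ => ?_
  rw [map_mul, map_mul, rename_C, rename_X, rename_X, blkMat, submatrix_apply,
    Equiv.symm_apply_apply, Equiv.symm_apply_apply]

theorem det_blkMat (N : Matrix (Fin m ⊕ Fin m) (Fin m ⊕ Fin m) W) :
    (blkMat N + (blkMat N)ᵀ).det = (N + Nᵀ).det := by
  have h1 : blkMat N + (blkMat N)ᵀ = blkMat (N + Nᵀ) := by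
    ext i j
    simp [blkMat]
  rw [h1, blkMat, Matrix.det_submatrix_equiv_self]

theorem blkPoly_smul (r : W) (N : Matrix (Fin m ⊕ Fin m) (Fin m ⊕ Fin m) W) :
    blkPoly (r • N) = r • blkPoly N := by
  rw [blkPoly, blkPoly, Finset.smul_sum]
  refine Finset.sum_congr rfl fun v _ => ?_
  rw [Finset.smul_sum]
  refine Finset.sum_congr rfl fun w _ => ?_
  rw [Matrix.smul_apply, smul_eq_mul, C_mul, smul_eq_C_mul]
  ring

theorem blkPoly_fromBlocks (A B C' D : Matrix (Fin m) (Fin m) W) :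
    blkPoly (fromBlocks A B C' D) = ∑ i, ∑ j, (C (A i j) * (X (Sum.inl i) * X (Sum.inl j)) +
      C (B i j) * (X (Sum.inl i) * X (Sum.inr j)) +
      C (C' i j) * (X (Sum.inr i) * X (Sum.inl j)) +
      C (D i j) * (X (Sum.inr i) * X (Sum.inr j))) := by
  rw [blkPoly, Fintype.sum_sum_type]
  simp only [Fintype.sum_sum_type, fromBlocks_apply₁₁, fromBlocks_apply₁₂, fromBlocks_apply₂₁,
    fromBlocks_apply₂₂, Finset.sum_add_distrib, mul_assoc]
  ring

end Blk

section Gram

variable {K W : Type} [CommRing K] [CommRing W] [Algebra K W] {a b c : K} {ω : W} {σ : W →+* W}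
  {m : ℕ}

theorem gPoly_eq_blkPoly (M : Matrix (Fin m) (Fin m) ℍ[K,a,b,c]) :
    gPoly ω σ M = blkPoly (gramB ω σ M) := by
  rw [gramB, blkPoly_fromBlocks, gPoly]
  refine Finset.sum_congr rfl fun i _ => Finset.sum_congr rfl fun j _ => ?_
  simp only [gQ, gF, mU, mV, Matrix.of_apply, Matrix.neg_apply, Matrix.map_apply,
    Matrix.smul_apply, smul_eq_mul, map_neg]
  ring

end Gram

section Det

variable {K W : Type} [Field K] [Field W] [CharZero W] [Algebra K W] {a b c : K} {ω : W}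
  {σ : W →+* W} {m : ℕ}

theorem det_blkMat_gramB (hQ : QData a b ω σ) (hσ : ∀ w, σ (σ w) = w)
    {M : Matrix (Fin m) (Fin m) ℍ[K,a,b,c]} (hM : Mᴴ = -M) (hu : IsUnit M) :
    (blkMat (gramB ω σ M) + (blkMat (gramB ω σ M))ᵀ).det ≠ 0 := by
  rw [det_blkMat, gramB_symm hQ hM, ← two_smul W, det_smul]
  exact mul_ne_zero (pow_ne_zero _ two_ne_zero) (isUnit_det_gramB hQ hσ hu).ne_zero

end Det

end Pool.Agent.Lib.MP_6a3dac_ag
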