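import Pool.Agent.Lib.MP_6a3dac_ag.QuatGramB
import Pool.Agent.Lib.MP_6a3dac_ag.QuadExt

/-!
# Lattices for quaternionic skew-Hermitian forms
-/

set_option autoImplicit false
set_option linter.unusedSectionVars false

namespace Pool.Agent.Lib.MP_6a3dac_ag

open Matrix IsLocalRing
open scoped Quaternion

section UV

variable {K K₁ : Type} [Field K] [Field K₁] [Algebra K K₁] {a' b' c' : K} {ω : K₁}
  {σ : K₁ →+* K₁} {m : ℕ} (hE : QExt a' b' ω σ)

include hE in
theorem quat_ext_UV {d e : ℍ[K,a',b',c']} (h1 : gU ω d = gU ω e) (h2 : gV ω d = gV ω e) :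
    d = e := by
  have h3 := hE.uniq (d.re - e.re) (d.imI - e.imI) (by
    rw [map_sub, map_sub]
    unfold gU at h1
    linear_combination h1)
  have h4 := hE.uniq (d.imJ - e.imJ) (d.imK - e.imK) (by
    rw [map_sub, map_sub]
    unfold gV at h2
    linear_combination h2)
  ext
  · exact sub_eq_zero.mp h3.1
  · exact sub_eq_zero.mp h3.2
  · exact sub_eq_zero.mp h4.1
  · exact sub_eq_zero.mp h4.2

include hE in
theorem mat_ext_UV {M N : Matrix (Fin m) (Fin m) ℍ[K,a',b',c']} (h1 : mU ω M = mU ω N)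
    (h2 : mV ω M = mV ω N) : M = N := by
  refine Matrix.ext fun i j => ?_
  exact quat_ext_UV hE (congrFun (congrFun h1 i) j) (congrFun (congrFun h2 i) j)

include hE in
theorem exists_emb (U : Matrix (Fin m) (Fin m) K₁) :
    ∃ E : Matrix (Fin m) (Fin m) ℍ[K,a',b',c'], mU ω E = U ∧ mV ω E = 0 := by
  choose x y hxy using hE.bas
  refine ⟨Matrix.of fun i j => ⟨x (U i j), y (U i j), 0, 0⟩, ?_, ?_⟩
  · ext i j
    simp only [mU, Matrix.of_apply, gU]
    exact (hxy _).symm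
  · ext i j
    simp [mV, gV]

include hE in
theorem mU_conjTranspose (M : Matrix (Fin m) (Fin m) ℍ[K,a',b',c']) :
    mU ω Mᴴ = ((mU ω M).map σ)ᵀ := by
  ext i j
  simp only [mU, Matrix.of_apply, conjTranspose_apply, Matrix.transpose_apply, Matrix.map_apply,
    gU_star hE.q]

theorem mV_conjTranspose (M : Matrix (Fin m) (Fin m) ℍ[K,a',b',c']) :
    mV ω Mᴴ = -(mV ω M)ᵀ := by
  ext i j
  simp only [mV, Matrix.of_apply, conjTranspose_apply, Matrix.transpose_apply, Matrix.neg_apply,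
    gV_star]

include hE in
theorem emb_conj {M E : Matrix (Fin m) (Fin m) ℍ[K,a',b',c']} {U : Matrix (Fin m) (Fin m) K₁}
    (h1 : mU ω E = U) (h2 : mV ω E = 0) :
    mU ω (E * M * Eᴴ) = U * mU ω M * (U.map σ)ᵀ ∧ mV ω (E * M * Eᴴ) = U * mV ω M * Uᵀ := by
  have h0 : (0 : Matrix (Fin m) (Fin m) K₁).map σ = 0 := by
    rw [Matrix.map_zero _ (map_zero σ)]
  have h3 : mU ω (E * M) = U * mU ω M := by
    rw [mU_mul hE.q, h1, h2, Matrix.zero_mul, smul_zero, add_zero]
  have h4 : mV ω (E * M) = U * mV ω M := by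
    rw [mV_mul hE.q, h1, h2, Matrix.zero_mul, add_zero]
  have h5 : mU ω Eᴴ = (U.map σ)ᵀ := by rw [mU_conjTranspose hE, h1]
  have h6 : mV ω Eᴴ = 0 := by rw [mV_conjTranspose, h2, transpose_zero, neg_zero]
  constructor
  · rw [mU_mul hE.q, h3, h4, h5, h6, h0, Matrix.mul_zero, smul_zero, add_zero]
  · rw [mV_mul hE.q, h3, h4, h5, h6, Matrix.mul_zero, zero_add]
    congr 1
    ext i j
    simp [hE.invol]

end UV

section LRep

variable {K K₁ O₁ : Type} [Field K] [Field K₁] [Algebra K K₁] [CommRing O₁] [Algebra O₁ K₁]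
  {a' b' c' : K} (ω : K₁) {σ : K₁ →+* K₁} {s : O₁ →+* O₁} {m : ℕ}

/-- The skew-Hermitian form `H₀` is equivalent to a multiple of the form with the integral
components `-C` and `B + Bᵀ`. -/
def LRep (H₀ : Matrix (Fin m) (Fin m) ℍ[K,a',b',c']) (B C : Matrix (Fin m) (Fin m) O₁) : Prop :=
  ∃ (l : K) (G N : Matrix (Fin m) (Fin m) ℍ[K,a',b',c']), l ≠ 0 ∧ G * N = 1 ∧ N * G = 1 ∧
    mU ω (G * H₀ * Gᴴ) = -(algebraMap K K₁ l • C.map (algebraMap O₁ K₁)) ∧
    mV ω (G * H₀ * Gᴴ) = algebraMap K K₁ l • (B + Bᵀ).map (algebraMap O₁ K₁)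

/-- The Gram matrix. -/
def grM (π : O₁) (s : O₁ →+* O₁) (B C : Matrix (Fin m) (Fin m) O₁) :
    Matrix (Fin m ⊕ Fin m) (Fin m ⊕ Fin m) O₁ :=
  fromBlocks (B + Bᵀ) C Cᵀ (π • (-(B.map s) + (-(B.map s))ᵀ))

variable {ω} {H₀ : Matrix (Fin m) (Fin m) ℍ[K,a',b',c']} {B C : Matrix (Fin m) (Fin m) O₁}
  (hE : QExt a' b' ω σ) (hs : ∀ z, algebraMap O₁ K₁ (s z) = σ (algebraMap O₁ K₁ z))

theorem LRep.congr (h : LRep ω H₀ B C) {B' : Matrix (Fin m) (Fin m) O₁}
    (hB : B + Bᵀ = B' + B'ᵀ) : LRep ω H₀ B' C := by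
  obtain ⟨l, G, N, h1, h2, h3, h4, h5⟩ := h
  exact ⟨l, G, N, h1, h2, h3, h4, by rw [h5, hB]⟩

theorem map_mul_ringHom' {R S : Type} [CommRing R] [CommRing S] {ι : Type} [Fintype ι]
    (f : R →+* S) (M N : Matrix ι ι R) : (M * N).map f = M.map f * N.map f := by
  ext i j
  simp [Matrix.mul_apply]

include hE hs in
theorem LRep.base (h : LRep ω H₀ B C) {U U' : Matrix (Fin m) (Fin m) O₁} (h1 : U * U' = 1)
    (h2 : U' * U = 1) : LRep ω H₀ (U * B * Uᵀ) (U * C * (U.map s)ᵀ) := by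
  obtain ⟨l, G, N, hl, hGN, hNG, hU, hV⟩ := h
  obtain ⟨E, hEU, hEV⟩ := exists_emb (c' := c') hE (U.map (algebraMap O₁ K₁))
  obtain ⟨E', hEU', hEV'⟩ := exists_emb (c' := c') hE (U'.map (algebraMap O₁ K₁))
  have h0 : (0 : Matrix (Fin m) (Fin m) K₁).map σ = 0 := by
    rw [Matrix.map_zero _ (map_zero σ)]
  have hone : (1 : Matrix (Fin m) (Fin m) O₁).map (algebraMap O₁ K₁) = 1 := by
    rw [Matrix.map_one _ (map_zero _) (map_one _)]
  have key : ∀ {E E' : Matrix (Fin m) (Fin m) ℍ[K,a',b',c']}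
      {U U' : Matrix (Fin m) (Fin m) O₁}, U * U' = 1 → mU ω E = U.map (algebraMap O₁ K₁) →
      mV ω E = 0 → mU ω E' = U'.map (algebraMap O₁ K₁) → mV ω E' = 0 → E * E' = 1 := by
    intro E E' U U' g1 g2 g3 g4 g5
    apply mat_ext_UV hE
    · rw [mU_mul hE.q, g2, g3, g4, g5, Matrix.zero_mul, smul_zero, add_zero, mU_one,
        ← map_mul_ringHom, g1, hone]
    · rw [mV_mul hE.q, g2, g3, g4, g5, Matrix.zero_mul, Matrix.mul_zero, add_zero, mV_one]
  have hEE : E * E' = 1 := key h1 hEU hEV hEU' hEV'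
  have hEE' : E' * E = 1 := key h2 hEU' hEV' hEU hEV
  have hconj : E * G * H₀ * (E * G)ᴴ = E * (G * H₀ * Gᴴ) * Eᴴ := by
    rw [conjTranspose_mul]
    simp only [Matrix.mul_assoc]
  obtain ⟨g1, g2⟩ := emb_conj hE (M := G * H₀ * Gᴴ) hEU hEV
  refine ⟨l, E * G, N * E', hl, ?_, ?_, ?_, ?_⟩
  · calc E * G * (N * E') = E * (G * N) * E' := by simp only [Matrix.mul_assoc]
      _ = 1 := by rw [hGN, Matrix.mul_one, hEE]
  · calc N * E' * (E * G) = N * (E' * E) * G := by simp only [Matrix.mul_assoc]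
      _ = 1 := by rw [hEE', Matrix.mul_one, hNG]
  · rw [hconj, g1, hU, Matrix.mul_neg, Matrix.neg_mul, Matrix.mul_smul, Matrix.smul_mul,
      map_mul_ringHom, map_mul_ringHom]
    congr 3
    ext i j
    simp only [Matrix.transpose_apply, Matrix.map_apply]
    exact (hs _).symm
  · rw [hconj, g2, hV, Matrix.mul_smul, Matrix.smul_mul]
    congr 1
    have h3 : U * B * Uᵀ + (U * B * Uᵀ)ᵀ = U * (B + Bᵀ) * Uᵀ := by
      rw [transpose_mul, transpose_mul, transpose_transpose, Matrix.mul_add, Matrix.add_mul,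
        Matrix.mul_assoc U Bᵀ]
    rw [h3, map_mul_ringHom, map_mul_ringHom]
    rfl

theorem det_grM_base {π : O₁} {U : Matrix (Fin m) (Fin m) O₁} :
    (grM π s (U * B * Uᵀ) (U * C * (U.map s)ᵀ)).det =
      (U.det * (U.map s).det) ^ 2 * (grM π s B C).det := by
  have h1 : grM π s (U * B * Uᵀ) (U * C * (U.map s)ᵀ) =
      fromBlocks U 0 0 (U.map s) * grM π s B C * (fromBlocks U 0 0 (U.map s))ᵀ := by
    rw [grM, grM, fromBlocks_transpose, fromBlocks_multiply, fromBlocks_multiply]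
    simp only [Matrix.zero_mul, Matrix.mul_zero, add_zero, zero_add, transpose_zero]
    congr 1
    · rw [transpose_mul, transpose_mul, transpose_transpose, Matrix.mul_add, Matrix.add_mul,
        Matrix.mul_assoc U Bᵀ]
    · rw [transpose_mul, transpose_mul, transpose_transpose, Matrix.mul_assoc]
    · rw [Matrix.mul_smul, Matrix.smul_mul, Matrix.mul_add, Matrix.add_mul, map_mul_ringHom,
        map_mul_ringHom, transpose_neg, transpose_neg, transpose_mul, transpose_mul,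
        Matrix.mul_neg, Matrix.neg_mul, Matrix.mul_neg, Matrix.neg_mul, Matrix.mul_assoc _ (B.map s)ᵀ]
      rfl
  rw [h1, Matrix.det_mul, Matrix.det_mul, det_transpose, det_fromBlocks_zero₂₁]
  ring

include hE hs in
/-- The Gram matrix over the field. -/
theorem gramB_of_LRep {M : Matrix (Fin m) (Fin m) ℍ[K,a',b',c']} {l : K} {π : O₁}
    (hπ : algebraMap K K₁ c' = algebraMap O₁ K₁ π) (hC : ∀ i j, s (C i j) = -C j i)
    (hU : mU ω M = -(algebraMap K K₁ l • C.map (algebraMap O₁ K₁)))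
    (hV : mV ω M = algebraMap K K₁ l • (B + Bᵀ).map (algebraMap O₁ K₁)) :
    gramB ω σ M = algebraMap K K₁ l • (grM π s B C).map (algebraMap O₁ K₁) := by
  rw [gramB, grM, fromBlocks_map, fromBlocks_smul, hU, hV]
  congr 1
  · rw [neg_neg]
  · ext i j
    simp only [Matrix.map_apply, Matrix.neg_apply, Matrix.smul_apply, smul_eq_mul, map_neg,
      map_mul, hE.q.alg, ← hs, hC, Matrix.transpose_apply]
    ring
  · ext i j
    simp only [Matrix.map_apply, Matrix.neg_apply, Matrix.smul_apply, smul_eq_mul, map_neg,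
      map_mul, hE.q.alg, Matrix.transpose_apply, Matrix.add_apply, map_add, hπ, hs]
    ring

end LRep

end Pool.Agent.Lib.MP_6a3dac_ag
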