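import Pool.Agent.Lib.MP_6a3dac_ag.QuatLatA

/-!
# Lattices for quaternionic skew-Hermitian forms: the reduction step
-/

set_option autoImplicit false
set_option linter.unusedSectionVars false

namespace Pool.Agent.Lib.MP_6a3dac_ag

open Matrix IsLocalRing
open scoped Quaternion

section Basic

variable {K K₁ : Type} [Field K] [Field K₁] [Algebra K K₁] {a' b' c' : K} {ω : K₁}
  {σ : K₁ →+* K₁} {m : ℕ} (hE : QExt a' b' ω σ)

theorem gU_zero' : gU ω (0 : ℍ[K,a',b',c']) = 0 := by simp [gU]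

/-- The inverse of the element `j`. -/
def jInv (a' b' c' : K) : ℍ[K,a',b',c'] := ⟨0, 0, c'⁻¹, 0⟩

/-- The element `j`. -/
def jElt (a' b' c' : K) : ℍ[K,a',b',c'] := ⟨0, 0, 1, 0⟩

theorem gU_jInv : gU ω (jInv a' b' c') = 0 := by simp [gU, jInv]

theorem gV_jInv : gV ω (jInv a' b' c') = algebraMap K K₁ c'⁻¹ := by simp [gV, jInv]

theorem jInv_mul (hc : c' ≠ 0) : jInv a' b' c' * jElt a' b' c' = 1 := by
  ext <;> simp [jInv, jElt, hc]

theorem mul_jInv (hc : c' ≠ 0) : jElt a' b' c' * jInv a' b' c' = 1 := by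
  ext <;> simp [jInv, jElt, hc]

theorem jInv_mul_star (hc : c' ≠ 0) : jInv a' b' c' * star (jInv a' b' c') =
    algebraMap K _ (-c'⁻¹) := by
  change _ = (⟨-c'⁻¹, 0, 0, 0⟩ : ℍ[K,a',b',c'])
  ext
  · simp [jInv]
    field_simp
  · simp [jInv]
  · simp [jInv]
  · simp [jInv]

variable (c') in
/-- The matrix of the move. -/
def jMat (a' b' : K) (i₀ : Fin m) : Matrix (Fin m) (Fin m) ℍ[K,a',b',c'] :=
  Matrix.diagonal fun i => if i = i₀ then jInv a' b' c' else 1

variable (c') in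
/-- The inverse matrix of the move. -/
def jMat' (a' b' : K) (i₀ : Fin m) : Matrix (Fin m) (Fin m) ℍ[K,a',b',c'] :=
  Matrix.diagonal fun i => if i = i₀ then jElt a' b' c' else 1

theorem jMat_mul (hc : c' ≠ 0) (i₀ : Fin m) : jMat c' a' b' i₀ * jMat' c' a' b' i₀ = 1 := by
  rw [jMat, jMat', Matrix.diagonal_mul_diagonal, ← Matrix.diagonal_one]
  congr 1
  ext1 i
  by_cases hi : i = i₀
  · rw [if_pos hi, if_pos hi, jInv_mul hc]
  · rw [if_neg hi, if_neg hi, mul_one]

theorem jMat'_mul (hc : c' ≠ 0) (i₀ : Fin m) : jMat' c' a' b' i₀ * jMat c' a' b' i₀ = 1 := by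
  rw [jMat, jMat', Matrix.diagonal_mul_diagonal, ← Matrix.diagonal_one]
  congr 1
  ext1 i
  by_cases hi : i = i₀
  · rw [if_pos hi, if_pos hi, mul_jInv hc]
  · rw [if_neg hi, if_neg hi, mul_one]

theorem jMat_conj_apply (M : Matrix (Fin m) (Fin m) ℍ[K,a',b',c']) (i₀ i j : Fin m) :
    (jMat c' a' b' i₀ * M * (jMat c' a' b' i₀)ᴴ) i j =
      (if i = i₀ then jInv a' b' c' else 1) * M i j *
        star (if j = i₀ then jInv a' b' c' else 1) := by
  rw [jMat, Matrix.diagonal_conjTranspose, Matrix.mul_diagonal, Matrix.diagonal_mul]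
  rfl

include hE in
theorem gUV_jconj (hc : c' ≠ 0) (d : ℍ[K,a',b',c']) :
    gU ω (jInv a' b' c' * d) = σ (gV ω d) ∧
    gV ω (jInv a' b' c' * d) = algebraMap K K₁ c'⁻¹ * σ (gU ω d) ∧
    gU ω (d * star (jInv a' b' c')) = -gV ω d ∧
    gV ω (d * star (jInv a' b' c')) = -(algebraMap K K₁ c'⁻¹ * gU ω d) := by
  have hcK : algebraMap K K₁ c' * algebraMap K K₁ c'⁻¹ = 1 := by
    rw [← map_mul, mul_inv_cancel₀ hc, map_one]
  refine ⟨?_, ?_, ?_, ?_⟩
  · rw [gU_mul hE.q, gU_jInv, gV_jInv]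
    linear_combination (σ (gV ω d)) * hcK
  · rw [gV_mul hE.q, gU_jInv, gV_jInv]
    ring
  · rw [gU_mul hE.q, gU_star hE.q, gV_star, gU_jInv, gV_jInv, map_zero, map_neg, hE.q.alg]
    linear_combination (-gV ω d) * hcK
  · rw [gV_mul hE.q, gU_star hE.q, gV_star, gU_jInv, gV_jInv, map_zero, map_zero]
    ring

include hE in
theorem det_gramB_jMat (hc : c' ≠ 0) (M : Matrix (Fin m) (Fin m) ℍ[K,a',b',c']) (i₀ : Fin m) :
    algebraMap K K₁ c' ^ 2 * (gramB ω σ (jMat c' a' b' i₀ * M * (jMat c' a' b' i₀)ᴴ)).det =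
      (gramB ω σ M).det := by
  have hcK : algebraMap K K₁ c' * algebraMap K K₁ c'⁻¹ = 1 := by
    rw [← map_mul, mul_inv_cancel₀ hc, map_one]
  have h1 : jMat c' a' b' i₀ * (jMat c' a' b' i₀)ᴴ = Matrix.diagonal fun i =>
      algebraMap K ℍ[K,a',b',c'] (if i = i₀ then -c'⁻¹ else 1) := by
    rw [jMat, Matrix.diagonal_conjTranspose, Matrix.diagonal_mul_diagonal]
    congr 1
    ext1 i
    by_cases hi : i = i₀
    · rw [if_pos hi, if_pos hi]
      simp only [Pi.star_apply, if_pos hi]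
      exact jInv_mul_star hc
    · rw [if_neg hi, if_neg hi]
      simp only [Pi.star_apply, if_neg hi]
      rw [star_one, mul_one, map_one]
  have hU : mU ω (jMat c' a' b' i₀ * (jMat c' a' b' i₀)ᴴ) = Matrix.diagonal fun i =>
      algebraMap K K₁ (if i = i₀ then -c'⁻¹ else 1) := by
    rw [h1]
    ext i j
    by_cases hij : i = j
    · subst hij
      simp [mU, gU]
    · simp only [mU, Matrix.of_apply, Matrix.diagonal_apply_ne _ hij, gU_zero']
  have hV : mV ω (jMat c' a' b' i₀ * (jMat c' a' b' i₀)ᴴ) = 0 := by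
    rw [h1]
    ext i j
    by_cases hij : i = j
    · subst hij
      simp [mV, gV]
    · simp only [mV, Matrix.of_apply, Matrix.diagonal_apply_ne _ hij, gV_zero, Matrix.zero_apply]
  have h0 : (0 : Matrix (Fin m) (Fin m) K₁).map σ = 0 := by
    rw [Matrix.map_zero _ (map_zero σ)]
  have hσd : (Matrix.diagonal fun i : Fin m => algebraMap K K₁ (if i = i₀ then -c'⁻¹ else 1)).map
      σ = Matrix.diagonal fun i => algebraMap K K₁ (if i = i₀ then -c'⁻¹ else 1) := by
    rw [Matrix.diagonal_map (map_zero σ)]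
    congr 1
    ext1 i
    exact hE.q.alg _
  have hprod : ∏ i : Fin m, algebraMap K K₁ (if i = i₀ then -c'⁻¹ else 1) =
      -(algebraMap K K₁ c'⁻¹) := by
    rw [Finset.prod_eq_single i₀]
    · rw [if_pos rfl, map_neg]
    · intro i _ hi
      rw [if_neg hi, map_one]
    · simp
  have h2 : (rhoB ω σ (jMat c' a' b' i₀ * (jMat c' a' b' i₀)ᴴ)).det =
      algebraMap K K₁ c'⁻¹ ^ 2 := by
    rw [rhoB, hU, hV, h0, smul_zero, hσd, det_fromBlocks_zero₂₁, det_diagonal, hprod]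
    ring
  rw [gramB_eq, gramB_eq, rhoB_mul hE.q hE.invol, rhoB_mul hE.q hE.invol, Matrix.det_mul,
    Matrix.det_mul, Matrix.det_mul, Matrix.det_mul]
  rw [rhoB_mul hE.q hE.invol, Matrix.det_mul] at h2
  linear_combination (algebraMap K K₁ c' ^ 2 * (rhoB ω σ M).det *
    (fromBlocks 0 (-1) 1 0 : Matrix (Fin m ⊕ Fin m) (Fin m ⊕ Fin m) K₁).det) * h2 +
    (rhoB ω σ M).det * (fromBlocks 0 (-1) 1 0 : Matrix (Fin m ⊕ Fin m) (Fin m ⊕ Fin m) K₁).det *
    (algebraMap K K₁ c' * algebraMap K K₁ c'⁻¹ + 1) * hcK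

end Basic

section Move

variable {K K₁ O₁ : Type} [Field K] [Field K₁] [Algebra K K₁] [CommRing O₁] [Algebra O₁ K₁]
  {a' b' c' : K} {ω : K₁} {σ : K₁ →+* K₁} {s : O₁ →+* O₁} {m : ℕ}
  {H₀ : Matrix (Fin m) (Fin m) ℍ[K,a',b',c']} {B C : Matrix (Fin m) (Fin m) O₁}
  (hE : QExt a' b' ω σ) (hs : ∀ z, algebraMap O₁ K₁ (s z) = σ (algebraMap O₁ K₁ z))

include hE hs in
theorem LRep.skew [FaithfulSMul O₁ K₁] (h : LRep ω H₀ B C) (hH : H₀ᴴ = -H₀) (i j : Fin m) :
    s (C i j) = -C j i := by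
  obtain ⟨l, G, N, hl, -, -, hU, -⟩ := h
  have h1 := skew_mU hE.q (isSkew_conj (G := G) hH) i j
  have h2 : ∀ i j, gU ω ((G * H₀ * Gᴴ) i j) =
      -(algebraMap K K₁ l * algebraMap O₁ K₁ (C i j)) := by
    intro i j
    exact congrFun (congrFun hU i) j
  rw [h2, h2, map_neg, map_mul, hE.q.alg, ← hs] at h1
  have hlK : algebraMap K K₁ l ≠ 0 := by
    rw [Ne, map_eq_zero]
    exact hl
  apply FaithfulSMul.algebraMap_injective O₁ K₁
  rw [map_neg]
  apply mul_left_cancel₀ hlK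
  linear_combination -h1

include hE hs in
/-- The reduction step. -/
theorem LRep.jmove [FaithfulSMul O₁ K₁] (h : LRep ω H₀ B C) (hH : H₀ᴴ = -H₀) {π : O₁}
    (hc : c' ≠ 0)
    (hπ : algebraMap K K₁ c' = algebraMap O₁ K₁ π) {i₀ : Fin m} (hB : π ∣ B i₀ i₀)
    (hC : ∀ j, π ∣ C j i₀) :
    ∃ B' C' : Matrix (Fin m) (Fin m) O₁, LRep ω H₀ B' C' ∧
      π ^ 2 * (grM π s B' C').det = (grM π s B C).det := by
  classical
  have hskew := h.skew hE hs hH
  obtain ⟨β, hβ⟩ := hB
  choose γ hγ using hC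
  have hinj := FaithfulSMul.algebraMap_injective O₁ K₁
  have hsπ : s π = π := by
    apply hinj
    rw [hs, ← hπ, hE.q.alg]
  have hcK : algebraMap K K₁ c'⁻¹ * algebraMap O₁ K₁ π = 1 := by
    rw [← hπ, ← map_mul, inv_mul_cancel₀ hc, map_one]
  obtain ⟨l, G, N, hl, hGN, hNG, hU, hV⟩ := h
  have hlK : algebraMap K K₁ l ≠ 0 := by
    rw [Ne, map_eq_zero]
    exact hl
  set M := G * H₀ * Gᴴ with hM
  have eU : ∀ i j, gU ω (M i j) = -(algebraMap K K₁ l * algebraMap O₁ K₁ (C i j)) := by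
    intro i j
    exact congrFun (congrFun hU i) j
  have eV : ∀ i j, gV ω (M i j) = algebraMap K K₁ l * algebraMap O₁ K₁ (B i j + B j i) := by
    intro i j
    exact congrFun (congrFun hV i) j
  let B' : Matrix (Fin m) (Fin m) O₁ := Matrix.of fun i j =>
    if i = i₀ then (if j = i₀ then -s β else 0) else (if j = i₀ then γ i else B i j)
  let C' : Matrix (Fin m) (Fin m) O₁ := Matrix.of fun i j =>
    if i = i₀ then (if j = i₀ then γ i₀ else -s (B i₀ j + B j i₀)) else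
      (if j = i₀ then B i i₀ + B i₀ i else C i j)
  have hconj : jMat c' a' b' i₀ * G * H₀ * (jMat c' a' b' i₀ * G)ᴴ =
      jMat c' a' b' i₀ * M * (jMat c' a' b' i₀)ᴴ := by
    rw [conjTranspose_mul, hM]
    simp only [Matrix.mul_assoc]
  have hσU : ∀ i j, σ (gU ω (M i j)) = algebraMap K K₁ l * algebraMap O₁ K₁ (C j i) := by
    intro i j
    rw [eU, map_neg, map_mul, hE.q.alg, ← hs, hskew, map_neg]
    ring
  have hσV : ∀ i j, σ (gV ω (M i j)) =
      algebraMap K K₁ l * algebraMap O₁ K₁ (s (B i j + B j i)) := by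
    intro i j
    rw [eV, map_mul, hE.q.alg, ← hs]
  have hU' : mU ω (jMat c' a' b' i₀ * M * (jMat c' a' b' i₀)ᴴ) =
      -(algebraMap K K₁ l • C'.map (algebraMap O₁ K₁)) := by
    ext i j
    simp only [mU, Matrix.of_apply, jMat_conj_apply, Matrix.neg_apply, Matrix.smul_apply,
      Matrix.map_apply, smul_eq_mul, C']
    by_cases hi : i = i₀
    · subst hi
      by_cases hj : j = i
      · subst hj
        rw [if_pos rfl, if_pos rfl, if_pos rfl, (gUV_jconj hE hc _).2.2.1,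
          (gUV_jconj hE hc _).2.1, hσU, hγ, map_mul]
        linear_combination (-(algebraMap K K₁ l * algebraMap O₁ K₁ (γ j))) * hcK
      · rw [if_pos rfl, if_neg hj, if_pos rfl, if_neg hj, star_one, mul_one,
          (gUV_jconj hE hc _).1, hσV, map_neg]
        ring
    · by_cases hj : j = i₀
      · subst hj
        rw [if_neg hi, if_pos rfl, if_neg hi, if_pos rfl, one_mul, (gUV_jconj hE hc _).2.2.1, eV]
      · rw [if_neg hi, if_neg hj, if_neg hi, if_neg hj, star_one, mul_one, one_mul, eU]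
  have hV' : mV ω (jMat c' a' b' i₀ * M * (jMat c' a' b' i₀)ᴴ) =
      algebraMap K K₁ l • (B' + B'ᵀ).map (algebraMap O₁ K₁) := by
    ext i j
    simp only [mV, Matrix.of_apply, jMat_conj_apply, Matrix.add_apply, Matrix.smul_apply,
      Matrix.map_apply, smul_eq_mul, Matrix.transpose_apply, B']
    by_cases hi : i = i₀
    · subst hi
      by_cases hj : j = i
      · subst hj
        rw [if_pos rfl, if_pos rfl, if_pos rfl, (gUV_jconj hE hc _).2.2.2,
          (gUV_jconj hE hc _).1, hσV, hβ, map_add s, map_mul s, hsπ, map_add, map_mul,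
          map_add, map_neg]
        linear_combination (-(2 * algebraMap K K₁ l * algebraMap O₁ K₁ (s β))) * hcK
      · rw [if_pos rfl, if_neg hj, if_pos rfl, if_neg hj, if_neg hj, if_pos rfl, star_one, mul_one,
          (gUV_jconj hE hc _).2.1, hσU, hγ, map_mul, zero_add]
        linear_combination (algebraMap K K₁ l * algebraMap O₁ K₁ (γ j)) * hcK
    · by_cases hj : j = i₀
      · subst hj
        rw [if_neg hi, if_pos rfl, if_neg hi, if_pos rfl, if_pos rfl, if_neg hi, one_mul,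
          (gUV_jconj hE hc _).2.2.2, eU, hγ, map_mul, add_zero]
        linear_combination (algebraMap K K₁ l * algebraMap O₁ K₁ (γ i)) * hcK
      · rw [if_neg hi, if_neg hj, if_neg hi, if_neg hj, if_neg hj, if_neg hi, star_one, mul_one,
          one_mul, eV]
  refine ⟨B', C', ⟨l, jMat c' a' b' i₀ * G, N * jMat' c' a' b' i₀, hl, ?_, ?_, ?_, ?_⟩, ?_⟩
  · calc jMat c' a' b' i₀ * G * (N * jMat' c' a' b' i₀) =
        jMat c' a' b' i₀ * (G * N) * jMat' c' a' b' i₀ := by simp only [Matrix.mul_assoc]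
      _ = 1 := by rw [hGN, Matrix.mul_one, jMat_mul hc]
  · calc N * jMat' c' a' b' i₀ * (jMat c' a' b' i₀ * G) =
        N * (jMat' c' a' b' i₀ * jMat c' a' b' i₀) * G := by simp only [Matrix.mul_assoc]
      _ = 1 := by rw [jMat'_mul hc, Matrix.mul_one, hNG]
  · rw [hconj, hU']
  · rw [hconj, hV']
  · have hskewM : (jMat c' a' b' i₀ * M * (jMat c' a' b' i₀)ᴴ)ᴴ =
        -(jMat c' a' b' i₀ * M * (jMat c' a' b' i₀)ᴴ) := isSkew_conj (isSkew_conj hH)
    have hskew' : ∀ i j, s (C' i j) = -C' j i := by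
      have hrep : LRep ω H₀ B' C' := ⟨l, jMat c' a' b' i₀ * G, N * jMat' c' a' b' i₀, hl, by
        calc jMat c' a' b' i₀ * G * (N * jMat' c' a' b' i₀) =
              jMat c' a' b' i₀ * (G * N) * jMat' c' a' b' i₀ := by simp only [Matrix.mul_assoc]
          _ = 1 := by rw [hGN, Matrix.mul_one, jMat_mul hc], by
        calc N * jMat' c' a' b' i₀ * (jMat c' a' b' i₀ * G) =
              N * (jMat' c' a' b' i₀ * jMat c' a' b' i₀) * G := by simp only [Matrix.mul_assoc]
          _ = 1 := by rw [jMat'_mul hc, Matrix.mul_one, hNG], by rw [hconj, hU'],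
        by rw [hconj, hV']⟩
      exact hrep.skew hE hs hH
    have h1 := gramB_of_LRep hE hs hπ hskew hU hV
    have h2 := gramB_of_LRep hE hs hπ hskew' hU' hV'
    have h3 := det_gramB_jMat hE hc M i₀
    rw [h1, h2, det_smul, det_smul, ← RingHom.mapMatrix_apply, ← RingHom.mapMatrix_apply,
      ← RingHom.map_det, ← RingHom.map_det, hπ] at h3
    apply hinj
    rw [map_mul, map_pow]
    apply mul_left_cancel₀ (pow_ne_zero (Fintype.card (Fin m ⊕ Fin m)) hlK)
    linear_combination h3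

end Move

end Pool.Agent.Lib.MP_6a3dac_ag
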