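import Pool.Agent.Lib.MP_6a3dac_ag.QuatLatB
import Pool.Agent.Lib.MP_6a3dac_ag.Mg.G002

/-!
# Maximal lattices for quaternionic skew-Hermitian forms
-/

set_option autoImplicit false
set_option linter.unusedSectionVars false

namespace Pool.Agent.Lib.MP_6a3dac_ag

open Matrix IsLocalRing
open scoped Quaternion

section Exist

variable {K K₁ O₁ : Type} [Field K] [Field K₁] [CharZero K₁] [Algebra K K₁] [CommRing O₁]
  [IsDomain O₁] [IsDiscreteValuationRing O₁] [Algebra O₁ K₁] [IsFractionRing O₁ K₁]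
  {a' b' c' : K} {ω : K₁} {σ : K₁ →+* K₁} {s : O₁ →+* O₁} {m : ℕ}
  {H₀ : Matrix (Fin m) (Fin m) ℍ[K,a',b',c']}
  (hE : QExt a' b' ω σ) (hs : ∀ z, algebraMap O₁ K₁ (s z) = σ (algebraMap O₁ K₁ z))
  {π : O₁} (hπ : Irreducible π) (hc : c' ≠ 0) (hπc : algebraMap K K₁ c' = algebraMap O₁ K₁ π)
  (hH : H₀ᴴ = -H₀)

include hπ hc hπc hH in
theorem exists_lrep : ∃ B C : Matrix (Fin m) (Fin m) O₁, LRep ω H₀ B C := by
  obtain ⟨b, hb⟩ := IsLocalization.exist_integer_multiples_of_finite (nonZeroDivisors O₁)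
    (Sum.elim (fun ij : Fin m × Fin m => mU ω H₀ ij.1 ij.2)
      (fun ij : Fin m × Fin m => mV ω H₀ ij.1 ij.2))
  choose f hf using hb
  obtain ⟨n, u, hu⟩ := IsDiscreteValuationRing.eq_unit_mul_pow_irreducible
    (nonZeroDivisors.ne_zero b.2) hπ
  have hcK : algebraMap K K₁ c' ≠ 0 := by
    rw [Ne, map_eq_zero]
    exact hc
  have h2 : (2 : K₁) ≠ 0 := two_ne_zero
  have h2K : (2 : K) ≠ 0 := by
    intro h
    apply h2
    rw [← map_ofNat (algebraMap K K₁) 2, h, map_zero]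
  -- multiples by the power of the uniformizer
  obtain ⟨g, hg⟩ : ∃ g : (Fin m × Fin m) ⊕ (Fin m × Fin m) → O₁, ∀ x,
      algebraMap O₁ K₁ (g x) = algebraMap K K₁ c' ^ n *
        (Sum.elim (fun ij : Fin m × Fin m => mU ω H₀ ij.1 ij.2)
          (fun ij : Fin m × Fin m => mV ω H₀ ij.1 ij.2)) x := by
    refine ⟨fun x => ((u⁻¹ : O₁ˣ) : O₁) * f x, fun x => ?_⟩
    rw [map_mul, hf, Algebra.smul_def]
    change _ * (algebraMap O₁ K₁ b * _) = _
    rw [hu, map_mul, map_pow, ← hπc, ← mul_assoc, ← mul_assoc, ← map_mul, Units.inv_mul, map_one,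
      one_mul]
  have e1 : ∀ i j, algebraMap O₁ K₁ (g (Sum.inl (i, j))) =
      algebraMap K K₁ c' ^ n * mU ω H₀ i j := fun i j => hg (Sum.inl (i, j))
  have e2 : ∀ i j, algebraMap O₁ K₁ (g (Sum.inr (i, j))) =
      algebraMap K K₁ c' ^ n * mV ω H₀ i j := fun i j => hg (Sum.inr (i, j))
  have hl : algebraMap K K₁ (2 * c' ^ n)⁻¹ = (2 * algebraMap K K₁ c' ^ n)⁻¹ := by
    rw [map_inv₀, map_mul, map_pow, map_ofNat]
  refine ⟨Matrix.of fun i j => g (Sum.inr (i, j)), Matrix.of fun i j => -2 * g (Sum.inl (i, j)),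
    (2 * c' ^ n)⁻¹, 1, 1, inv_ne_zero (mul_ne_zero h2K (pow_ne_zero n hc)), Matrix.mul_one 1,
    Matrix.mul_one 1, ?_, ?_⟩
  · rw [conjTranspose_one, Matrix.one_mul, Matrix.mul_one, hl]
    ext i j
    simp only [Matrix.neg_apply, Matrix.smul_apply, Matrix.map_apply, Matrix.of_apply, smul_eq_mul,
      map_mul, map_neg, map_ofNat, e1]
    field_simp
  · rw [conjTranspose_one, Matrix.one_mul, Matrix.mul_one, hl]
    ext i j
    have h3 : mV ω H₀ j i = mV ω H₀ i j := skew_mV hH j i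
    simp only [Matrix.smul_apply, Matrix.map_apply, Matrix.of_apply, smul_eq_mul, Matrix.add_apply,
      Matrix.transpose_apply, map_add, e2, h3]
    field_simp
    ring

include hE hs hπc in
theorem LRep.det_ne {B C : Matrix (Fin m) (Fin m) O₁} (h : LRep ω H₀ B C) (hH : H₀ᴴ = -H₀)
    (hHu : IsUnit H₀) : (grM π s B C).det ≠ 0 := by
  have hskew := h.skew hE hs hH
  obtain ⟨l, G, N, hl, hGN, hNG, hU, hV⟩ := h
  have h1 := gramB_of_LRep hE hs hπc hskew hU hV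
  have hG : IsUnit G := ⟨⟨G, N, hGN, hNG⟩, rfl⟩
  have hG' : IsUnit Gᴴ := by
    refine ⟨⟨Gᴴ, Nᴴ, ?_, ?_⟩, rfl⟩
    · rw [← conjTranspose_mul, hNG, conjTranspose_one]
    · rw [← conjTranspose_mul, hGN, conjTranspose_one]
  have h2 := isUnit_det_gramB hE.q hE.invol ((hG.mul hHu).mul hG')
  intro h0
  rw [h1, det_smul, ← RingHom.mapMatrix_apply, ← RingHom.map_det, h0, map_zero, mul_zero] at h2
  exact h2.ne_zero rfl

include hE hs hπ hc hπc hH in
/-- A lattice which cannot be enlarged. -/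
theorem exists_min_lrep (hHu : IsUnit H₀) : ∃ B C : Matrix (Fin m) (Fin m) O₁, LRep ω H₀ B C ∧
    ∀ v : Fin m → O₁, (∃ i, IsUnit (v i)) → (∀ j, π ∣ (v ᵥ* C) j) → ¬ π ∣ qf B v := by
  classical
  have hinj := FaithfulSMul.algebraMap_injective O₁ K₁
  have hsπ : s π = π := by
    apply hinj
    rw [hs, ← hπc, hE.q.alg]
  let S : Set O₁ := {d | ∃ B C : Matrix (Fin m) (Fin m) O₁, LRep ω H₀ B C ∧
    (grM π s B C).det = d}
  obtain ⟨Ba, Ca, ha⟩ := exists_lrep (ω := ω) hπ hc hπc hH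
  obtain ⟨d, ⟨B, C, hBC, hdd⟩, hmin⟩ := WellFounded.has_min
    (IsWellFounded.wf (r := DvdNotUnit (α := O₁))) S ⟨_, Ba, Ca, ha, rfl⟩
  refine ⟨B, C, hBC, ?_⟩
  rintro v ⟨i₀, hi₀⟩ hv hq
  have hskew := hBC.skew hE hs hH
  -- the change of coordinates
  let U : Matrix (Fin m) (Fin m) O₁ := (1 : Matrix (Fin m) (Fin m) O₁).updateCol i₀ v
  have hUdet : IsUnit U.det := by
    have h3 : U.det = Matrix.cramer (1 : Matrix (Fin m) (Fin m) O₁) v i₀ := by
      rw [Matrix.cramer_apply]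
    rw [h3, Matrix.cramer_one]
    exact hi₀
  have hUdet' : IsUnit (Uᵀ).det := by rwa [det_transpose]
  have hcol : (fun l => U l i₀) = v := by
    ext l
    simp only [U, Matrix.updateCol_self]
  have h1 := hBC.base hE hs (Matrix.mul_nonsing_inv _ hUdet') (Matrix.nonsing_inv_mul _ hUdet')
  have hdet1 := det_grM_base (B := B) (C := C) (s := s) (π := π) (U := Uᵀ)
  have hB1 : π ∣ (Uᵀ * B * Uᵀᵀ) i₀ i₀ := by
    rw [transpose_transpose, conj_apply, hcol]
    exact hq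
  have hC1 : ∀ j, π ∣ (Uᵀ * C * (Uᵀ.map s)ᵀ) j i₀ := by
    intro j
    rw [Matrix.mul_apply]
    have h3 : ∀ p, (Uᵀ.map s)ᵀ p i₀ = s (v p) := by
      intro p
      rw [← hcol]
      rfl
    simp only [h3, Matrix.mul_apply, Finset.sum_mul]
    rw [Finset.sum_comm]
    refine Finset.dvd_sum fun a _ => ?_
    have h4 : ∑ p, Uᵀ j a * C a p * s (v p) = -(Uᵀ j a * s ((v ᵥ* C) a)) := by
      rw [vecMul, dotProduct, map_sum, Finset.mul_sum, ← Finset.sum_neg_distrib]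
      refine Finset.sum_congr rfl fun p _ => ?_
      rw [map_mul, hskew]
      ring
    rw [h4, dvd_neg]
    apply Dvd.dvd.mul_left
    obtain ⟨y, hy⟩ := hv a
    rw [hy, map_mul, hsπ]
    exact dvd_mul_right _ _
  obtain ⟨B', C', h2, hdet2⟩ := h1.jmove hE hs hH hc hπc hB1 hC1
  refine hmin _ ⟨B', C', h2, rfl⟩ ⟨h2.det_ne hE hs hπc hH hHu, ?_⟩
  have hu : IsUnit ((Uᵀ.det * (Uᵀ.map s).det) ^ 2) := by
    refine (hUdet'.mul ?_).pow 2
    rw [← RingHom.mapMatrix_apply, ← RingHom.map_det]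
    exact hUdet'.map s
  obtain ⟨w, hw⟩ := hu.exists_right_inv
  refine ⟨π ^ 2 * w, ?_, ?_⟩
  · intro hunit
    exact hπ.not_isUnit ((isUnit_pow_iff two_ne_zero).mp (isUnit_of_mul_isUnit_left hunit))
  · rw [← hdd]
    rw [hdet1] at hdet2
    calc (grM π s B C).det = ((Uᵀ.det * (Uᵀ.map s).det) ^ 2 * (grM π s B C).det) * w := by
          linear_combination (-(grM π s B C).det) * hw
      _ = _ := by rw [← hdet2]; ring

end Exist

end Pool.Agent.Lib.MP_6a3dac_ag
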