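import Pool.Agent.Lib.MP_6a3dac_ag.IndepB

/-!
# The equations of the local models of quaternionic quadrics at ramified primes
-/

set_option autoImplicit false

namespace Pool.Agent.Lib.MP_6a3dac_ag

open MvPolynomial IsLocalRing Matrix

/-- The integral data of a quaternionic quadric at a ramified prime.  The quadratic form is
`B(x) + x (g + π k) y + π B'(y)` with `B = q + c + h` and `B' = q' + c' + h'`, where `h`, `h'` only
involve the variables in `W`, `q`, `q'`, `g` only those outside `W`, and `c`, `c'` products of a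
variable outside `W` and a variable in `W`. -/
structure RamForm {O : Type} [CommRing O] [IsLocalRing O] {m : ℕ} (π : O)
    (q c h g k q' c' h' : Matrix (Fin m) (Fin m) O) (W : Finset (Fin m)) : Prop where
  q_zero : ∀ i j, (i ∈ W ∨ j ∈ W) → q i j = 0
  c_zero : ∀ i j, (i ∈ W ∨ j ∉ W) → c i j = 0
  h_zero : ∀ i j, (i ∉ W ∨ j ∉ W) → h i j = 0
  q_zero' : ∀ i j, (i ∈ W ∨ j ∈ W) → q' i j = 0
  c_zero' : ∀ i j, (i ∈ W ∨ j ∉ W) → c' i j = 0
  h_zero' : ∀ i j, (i ∉ W ∨ j ∉ W) → h' i j = 0
  g_zero : ∀ i j, (i ∈ W ∨ j ∈ W) → g i j = 0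
  radg : ∀ (κ : Type) [Field κ] (φ : O →+* κ), (∀ x ∈ maximalIdeal O, φ x = 0) →
    ∀ v : Fin m → κ, (g.map φ) *ᵥ v = 0 → ∀ l, l ∉ W → v l = 0
  radg' : ∀ (κ : Type) [Field κ] (φ : O →+* κ), (∀ x ∈ maximalIdeal O, φ x = 0) →
    ∀ v : Fin m → κ, (g.map φ)ᵀ *ᵥ v = 0 → ∀ l, l ∉ W → v l = 0
  radh : ∀ (κ : Type) [Field κ] (φ : O →+* κ), (∀ x ∈ maximalIdeal O, φ x = 0) →
    ∀ v : Fin m → κ, (h.map φ + (h.map φ)ᵀ) *ᵥ v = 0 → qf (h.map φ) v = 0 → ∀ l, l ∈ W → v l = 0
  radh' : ∀ (κ : Type) [Field κ] (φ : O →+* κ), (∀ x ∈ maximalIdeal O, φ x = 0) →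
    ∀ v : Fin m → κ, (h'.map φ + (h'.map φ)ᵀ) *ᵥ v = 0 → qf (h'.map φ) v = 0 →
      ∀ l, l ∈ W → v l = 0
  det_ne : (Matrix.fromBlocks ((q + c + h) + (q + c + h)ᵀ) (g + π • k) (g + π • k)ᵀ
    (π • ((q' + c' + h') + (q' + c' + h')ᵀ))).det ≠ 0

/-- The variables of the charts. -/
abbrev RV (m : ℕ) : Type := (Fin m ⊕ Fin m) ⊕ Fin 5

section Bl

variable {O P : Type} [CommRing O] [CommRing P] {m : ℕ} (ι : O →+* P)

/-- The value of a bilinear form. -/
def bl (A : Matrix (Fin m) (Fin m) O) (v w : Fin m → P) : P := ∑ i, ∑ j, ι (A i j) * v i * w j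

theorem bl_congr {A : Matrix (Fin m) (Fin m) O} {v v' w w' : Fin m → P}
    (h : ∀ i j, A i j ≠ 0 → v i = v' i ∧ w j = w' j) : bl ι A v w = bl ι A v' w' := by
  refine Finset.sum_congr rfl fun i _ => Finset.sum_congr rfl fun j _ => ?_
  by_cases hA : A i j = 0
  · rw [hA, map_zero]; ring
  · obtain ⟨h1, h2⟩ := h i j hA
    rw [h1, h2]

theorem bl_mul (A : Matrix (Fin m) (Fin m) O) (r s : P) (v w : Fin m → P) :
    bl ι A (fun i => r * v i) (fun i => s * w i) = r * s * bl ι A v w := by
  simp only [bl, Finset.mul_sum]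
  refine Finset.sum_congr rfl fun i _ => Finset.sum_congr rfl fun j _ => by ring

theorem bl_add (A B : Matrix (Fin m) (Fin m) O) (v w : Fin m → P) :
    bl ι (A + B) v w = bl ι A v w + bl ι B v w := by
  simp only [bl, Matrix.add_apply, map_add, add_mul, Finset.sum_add_distrib]

theorem bl_smul (r : O) (A : Matrix (Fin m) (Fin m) O) (v w : Fin m → P) :
    bl ι (r • A) v w = ι r * bl ι A v w := by
  simp only [bl, Matrix.smul_apply, smul_eq_mul, map_mul, Finset.mul_sum]
  refine Finset.sum_congr rfl fun i _ => Finset.sum_congr rfl fun j _ => by ring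

theorem bl_zero_left (A : Matrix (Fin m) (Fin m) O) (w : Fin m → P) :
    bl ι A 0 w = 0 := by simp [bl]

theorem bl_zero_right (A : Matrix (Fin m) (Fin m) O) (v : Fin m → P) :
    bl ι A v 0 = 0 := by simp [bl]

theorem bl_transpose (A : Matrix (Fin m) (Fin m) O) (v w : Fin m → P) :
    bl ι Aᵀ v w = bl ι A w v := by
  rw [bl, bl, Finset.sum_comm]
  refine Finset.sum_congr rfl fun i _ => Finset.sum_congr rfl fun j _ => ?_
  rw [Matrix.transpose_apply]; ring

theorem map_bl {Q : Type} [CommRing Q] (χ : P →+* Q) (A : Matrix (Fin m) (Fin m) O)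
    (v w : Fin m → P) : χ (bl ι A v w) = bl (χ.comp ι) A (fun i => χ (v i)) (fun i => χ (w i)) := by
  simp only [bl, map_sum, map_mul, RingHom.comp_apply]

theorem bl_single_left (A : Matrix (Fin m) (Fin m) O) (l : Fin m) (r : P) (w : Fin m → P) :
    bl ι A (Pi.single l r) w = r * ∑ j, ι (A l j) * w j := by
  rw [bl, Finset.sum_eq_single l]
  · rw [Finset.mul_sum]
    refine Finset.sum_congr rfl fun j _ => ?_
    rw [Pi.single_eq_same]; ring
  · intro i _ hi
    refine Finset.sum_eq_zero fun j _ => ?_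
    rw [Pi.single_eq_of_ne hi]; ring
  · simp

theorem bl_single_right (A : Matrix (Fin m) (Fin m) O) (l : Fin m) (r : P) (w : Fin m → P) :
    bl ι A w (Pi.single l r) = r * ∑ j, ι (A j l) * w j := by
  rw [← bl_transpose, bl_single_left]
  rfl

end Bl

section Der

variable {O : Type} [CommRing O] {σ : Type} {m : ℕ}

theorem derivation_bl (D : Derivation O (MvPolynomial σ O) (MvPolynomial σ O))
    (A : Matrix (Fin m) (Fin m) O) (v w : Fin m → MvPolynomial σ O) :
    D (bl C A v w) = bl C A (fun i => D (v i)) w + bl C A v (fun i => D (w i)) := by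
  simp only [bl, map_sum, ← Finset.sum_add_distrib]
  refine Finset.sum_congr rfl fun i _ => Finset.sum_congr rfl fun j _ => ?_
  have h1 : D (C (A i j)) = 0 := derivation_C D (A i j)
  rw [Derivation.leibniz, Derivation.leibniz, h1]
  simp only [smul_eq_mul]
  ring

end Der

section Eqs

variable {O : Type} [CommRing O] {m : ℕ} (π : O)
  (q c h g k q' c' h' : Matrix (Fin m) (Fin m) O) (W : Finset (Fin m))

/-- The chart variables. -/
noncomputable def aV (O : Type) [CommRing O] {m : ℕ} (i : Fin m) : MvPolynomial (RV m) O :=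
  X (Sum.inl (Sum.inl i))
/-- The chart variables. -/
noncomputable def bV (O : Type) [CommRing O] {m : ℕ} (i : Fin m) : MvPolynomial (RV m) O :=
  X (Sum.inl (Sum.inr i))
/-- The exceptional variable. -/
noncomputable def eV (O : Type) [CommRing O] (m : ℕ) : MvPolynomial (RV m) O := X (Sum.inr 0)
/-- The chart variables. -/
noncomputable def uV (O : Type) [CommRing O] (m : ℕ) : MvPolynomial (RV m) O := X (Sum.inr 1)
/-- The chart variables. -/
noncomputable def vV (O : Type) [CommRing O] (m : ℕ) : MvPolynomial (RV m) O := X (Sum.inr 2)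
/-- The chart variables. -/
noncomputable def sV (O : Type) [CommRing O] (m : ℕ) : MvPolynomial (RV m) O := X (Sum.inr 3)
/-- The chart variables. -/
noncomputable def tV (O : Type) [CommRing O] (m : ℕ) : MvPolynomial (RV m) O := X (Sum.inr 4)

open Classical in
/-- The coordinates before the blow-up. -/
noncomputable def ahat (O : Type) [CommRing O] {m : ℕ} (W : Finset (Fin m)) (i : Fin m) :
    MvPolynomial (RV m) O := if i ∈ W then aV O i else eV O m * aV O i

open Classical in
/-- The coordinates before the blow-up. -/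
noncomputable def bhat (O : Type) [CommRing O] {m : ℕ} (W : Finset (Fin m)) (i : Fin m) :
    MvPolynomial (RV m) O := if i ∈ W then bV O i else eV O m * bV O i

/-- The three kinds of charts. -/
inductive Nrm (m : ℕ) : Type
  | xx (i : Fin m) : Nrm m
  | yy (j : Fin m) : Nrm m
  | xy (i j : Fin m) : Nrm m

/-- The first normalization. -/
noncomputable def nrm1 (O : Type) [CommRing O] {m : ℕ} (W : Finset (Fin m)) :
    Nrm m → MvPolynomial (RV m) O
  | Nrm.xx i => ahat O W i
  | Nrm.yy _ => eV O m * vV O m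
  | Nrm.xy i _ => ahat O W i

/-- The second normalization. -/
noncomputable def nrm2 (O : Type) [CommRing O] {m : ℕ} (W : Finset (Fin m)) :
    Nrm m → MvPolynomial (RV m) O
  | Nrm.xx _ => eV O m * uV O m
  | Nrm.yy j => bhat O W j
  | Nrm.xy _ j => bhat O W j

/-- The equation of the strict transform. -/
noncomputable def ramF : MvPolynomial (RV m) O :=
  uV O m * (sV O m + bl C c (aV O) (aV O) + eV O m * bl C q (aV O) (aV O)) +
    bl C g (aV O) (bV O) +
    vV O m * (tV O m + bl C c' (bV O) (bV O) + eV O m * bl C q' (bV O) (bV O)) +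
    uV O m * vV O m * bl C k (ahat O W) (bhat O W)

/-- The equations of a chart. -/
noncomputable def ramEqs (n : Nrm m) (κ : RV m) : Fin 7 → MvPolynomial (RV m) O :=
  ![eV O m ^ 2 * (uV O m * vV O m) - C π,
    bl C h (aV O) (aV O) - eV O m * sV O m,
    bl C h' (bV O) (bV O) - eV O m * tV O m,
    ramF q c g k q' c' W,
    nrm1 O W n - 1,
    nrm2 O W n - 1,
    X κ - 1]

/-- The exceptional directions. -/
def IsExc : RV m → Prop :=
  Sum.elim (Sum.elim (fun l => l ∉ W) (fun l => l ∉ W)) ![False, True, True, True, True]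

end Eqs

end Pool.Agent.Lib.MP_6a3dac_ag
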