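import Pool.Agent.Lib.MP_6a3dac_ag.QuatLatC
import Pool.Agent.Lib.MP_6a3dac_ag.RamForm

/-!
# Normal forms of quaternionic skew-Hermitian forms at ramified primes
-/

set_option autoImplicit false
set_option linter.unusedSectionVars false

namespace Pool.Agent.Lib.MP_6a3dac_ag

open Matrix IsLocalRing Module
open scoped Quaternion

section Supp

variable {O : Type} [CommRing O] [IsDomain O] [IsLocalRing O] {n : ℕ}
  {N : Submodule (ResidueField O) (Fin n → ResidueField O)} {U : Matrix (Fin n) (Fin n) O}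
  {W : Finset (Fin n)}

/-- Coordinates of the elements of a subspace spanned by some columns of an invertible matrix. -/
theorem supp_of_mem (hU : IsUnit U.det) (hcard : W.card = finrank (ResidueField O) N)
    (hUW : ∀ i ∈ W, (fun l => residue O (U l i)) ∈ N) {x : Fin n → ResidueField O}
    (hx : (U.map (residue O)) *ᵥ x ∈ N) : ∀ l, l ∉ W → x l = 0 := by
  intro l hl
  have hUres : IsUnit (U.map (residue O)).det := by
    rw [← RingHom.mapMatrix_apply, ← RingHom.map_det]
    exact hU.map _
  have hspan : N = Submodule.span (ResidueField O)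
      ((fun i => (fun l => residue O (U l i))) '' (W : Set (Fin n))) := by
    symm
    apply Submodule.eq_of_le_of_finrank_le
    · rw [Submodule.span_le]
      rintro _ ⟨i, hi, rfl⟩
      exact hUW i hi
    · have hli : LinearIndependent (ResidueField O)
          (fun i : Fin n => (fun l => residue O (U l i))) := by
        have := Matrix.linearIndependent_cols_of_isUnit
          (A := U.map (residue O)) ((Matrix.isUnit_iff_isUnit_det _).mpr hUres)
        exact this
      have h3 : LinearIndependent (ResidueField O)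
          (fun i : W => (fun l => residue O (U l i))) := hli.comp _ Subtype.val_injective
      have h4 := finrank_span_eq_card h3
      have h5 : (Set.range fun i : W => (fun l => residue O (U l i))) =
          (fun i => (fun l => residue O (U l i))) '' (W : Set (Fin n)) := by
        ext y
        constructor
        · rintro ⟨⟨i, hi⟩, rfl⟩
          exact ⟨i, hi, rfl⟩
        · rintro ⟨i, hi, rfl⟩
          exact ⟨⟨i, hi⟩, rfl⟩
      rw [h5] at h4
      rw [h4, Fintype.card_coe, hcard]
  rw [hspan] at hx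
  have h6 : ∀ y ∈ Submodule.span (ResidueField O)
      ((fun i => (fun l => residue O (U l i))) '' (W : Set (Fin n))),
      ∃ z : Fin n → ResidueField O, (∀ l, l ∉ W → z l = 0) ∧ y = (U.map (residue O)) *ᵥ z := by
    intro y hy
    induction hy using Submodule.span_induction with
    | mem y hy =>
      obtain ⟨i, hi, rfl⟩ := hy
      refine ⟨Pi.single i 1, ?_, ?_⟩
      · intro l hl
        rw [Pi.single_eq_of_ne]
        rintro rfl
        exact hl hi
      · rw [mulVec_single_one]
        rfl
    | zero => exact ⟨0, fun _ _ => rfl, by simp⟩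
    | add y y' _ _ hy hy' =>
      obtain ⟨z, hz, rfl⟩ := hy
      obtain ⟨z', hz', rfl⟩ := hy'
      exact ⟨z + z', fun l hl => by rw [Pi.add_apply, hz l hl, hz' l hl, add_zero],
        by rw [mulVec_add]⟩
    | smul a y _ hy =>
      obtain ⟨z, hz, rfl⟩ := hy
      exact ⟨a • z, fun l hl => by rw [Pi.smul_apply, hz l hl, smul_zero],
        by rw [mulVec_smul]⟩
  obtain ⟨z, hz, hzx⟩ := h6 _ hx
  have h7 : (U.map (residue O)) *ᵥ (x - z) = 0 := by
    rw [mulVec_sub, hzx, sub_self]
  have h8 := mulVec_eq_zero_of_isUnit hUres h7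
  rw [sub_eq_zero] at h8
  rw [h8]
  exact hz l hl

theorem mem_of_supp (hUW : ∀ i ∈ W, (fun l => residue O (U l i)) ∈ N)
    {x : Fin n → ResidueField O} (hx : ∀ l, l ∉ W → x l = 0) :
    (U.map (residue O)) *ᵥ x ∈ N := by
  have h1 : (U.map (residue O)) *ᵥ x = ∑ i, x i • (fun l => residue O (U l i)) := by
    ext l
    simp only [mulVec, dotProduct, Matrix.map_apply, Finset.sum_apply, Pi.smul_apply, smul_eq_mul]
    exact Finset.sum_congr rfl fun i _ => mul_comm _ _
  rw [h1]
  refine Submodule.sum_mem _ fun i _ => ?_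
  by_cases hi : i ∈ W
  · exact Submodule.smul_mem _ _ (hUW i hi)
  · rw [hx i hi, zero_smul]
    exact Submodule.zero_mem _

end Supp

section VecMul

theorem map_vecMul' {R S : Type} [CommRing R] [CommRing S] {n : ℕ} (φ : R →+* S)
    (A : Matrix (Fin n) (Fin n) R) (v : Fin n → R) :
    (φ ∘ v) ᵥ* A.map φ = φ ∘ (v ᵥ* A) := by
  ext i
  simp [vecMul, dotProduct, map_sum]

end VecMul

section Rad

variable {O : Type} [CommRing O] [IsDomain O] [IsLocalRing O] {m : ℕ}
  {g : Matrix (Fin m) (Fin m) O} {W : Finset (Fin m)}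

open Classical in
theorem radg_of_isUnit (g_zero : ∀ i j, (i ∈ W ∨ j ∈ W) → g i j = 0)
    (hu : IsUnit (g + Matrix.diagonal fun i => if i ∈ W then 1 else 0).det)
    {κ : Type} [Field κ] (φ : O →+* κ) (v : Fin m → κ) (hv : (g.map φ) *ᵥ v = 0) :
    ∀ l, l ∉ W → v l = 0 := by
  intro l hl
  let v' : Fin m → κ := fun l => if l ∈ W then 0 else v l
  have hu' : IsUnit ((g + Matrix.diagonal fun i => if i ∈ W then 1 else 0).map φ).det := by
    rw [← RingHom.mapMatrix_apply, ← RingHom.map_det]
    exact hu.map φ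
  have h1 : ((g + Matrix.diagonal fun i => if i ∈ W then 1 else 0).map φ) *ᵥ v' = 0 := by
    rw [← hv]
    ext i
    simp only [mulVec, dotProduct, Matrix.map_apply, Matrix.add_apply, v']
    refine Finset.sum_congr rfl fun j _ => ?_
    by_cases hj : j ∈ W
    · rw [if_pos hj, g_zero i j (Or.inr hj), map_zero, mul_zero, zero_mul]
    · rw [if_neg hj]
      by_cases hij : i = j
      · subst hij
        rw [Matrix.diagonal_apply_eq, if_neg hj, add_zero]
      · rw [Matrix.diagonal_apply_ne _ hij, add_zero]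
  have h2 := congrFun (mulVec_eq_zero_of_isUnit hu' h1) l
  simp only [v', if_neg hl] at h2
  exact h2

end Rad

section Exist

variable {K K₁ O₁ : Type} [Field K] [Field K₁] [CharZero K₁] [Algebra K K₁] [CommRing O₁]
  [IsDomain O₁] [IsDiscreteValuationRing O₁] [Finite (ResidueField O₁)] [Algebra O₁ K₁]
  [IsFractionRing O₁ K₁]
  {a' b' c' : K} {ω : K₁} {σ : K₁ →+* K₁} {s : O₁ →+* O₁} {m : ℕ}
  {H₀ : Matrix (Fin m) (Fin m) ℍ[K,a',b',c']}
  (hE : QExt a' b' ω σ) (hs : ∀ z, algebraMap O₁ K₁ (s z) = σ (algebraMap O₁ K₁ z))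
  {π : O₁} (hπ : Irreducible π) (hc : c' ≠ 0) (hπc : algebraMap K K₁ c' = algebraMap O₁ K₁ π)
  (hH : H₀ᴴ = -H₀)

include hE hs hπ hc hπc hH in
/-- **The normal form of a quaternionic skew-Hermitian form at a ramified prime.** -/
theorem exists_ramForm (hHu : IsUnit H₀) :
    ∃ (q c h g k : Matrix (Fin m) (Fin m) O₁) (W : Finset (Fin m)),
      LRep ω H₀ (q + c + h) (g + π • k) ∧
      RamForm π q c h g k (-(q.map s)) (-(c.map s)) (-(h.map s)) W := by
  classical
  have hinj := FaithfulSMul.algebraMap_injective O₁ K₁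
  have hsπ : s π = π := by
    apply hinj
    rw [hs, ← hπc, hE.q.alg]
  have hss : ∀ z, s (s z) = z := by
    intro z
    apply hinj
    rw [hs, hs, hE.invol]
  have hsdvd : ∀ z, π ∣ z → π ∣ s z := by
    rintro _ ⟨y, rfl⟩
    rw [map_mul, hsπ]
    exact dvd_mul_right _ _
  have hres0 : ∀ x : O₁, residue O₁ x = 0 ↔ π ∣ x := fun x =>
    residue_eq_zero_iff_dvd hπ.maximalIdeal_eq
  obtain ⟨B, C, hBC, hmin⟩ := exists_min_lrep hE hs hπ hc hπc hH hHu
  have hskew := hBC.skew hE hs hH
  obtain ⟨N, hN⟩ : ∃ N : Submodule (ResidueField O₁) (Fin m → ResidueField O₁),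
      ∀ v, v ∈ N ↔ v ᵥ* C.map (residue O₁) = 0 :=
    ⟨LinearMap.ker (C.map (residue O₁)).vecMulLinear, fun v => by
      rw [LinearMap.mem_ker, Matrix.vecMulLinear_apply]⟩
  obtain ⟨U, W, hU, hWcard, hUW⟩ := exists_cols N
  have hUt : IsUnit (Uᵀ).det := by rwa [det_transpose]
  have hUres : IsUnit (U.map (residue O₁)).det := by
    rw [← RingHom.mapMatrix_apply, ← RingHom.map_det]
    exact hU.map _
  have h1 := hBC.base hE hs (Matrix.mul_nonsing_inv _ hUt) (Matrix.nonsing_inv_mul _ hUt)
  obtain ⟨B₁, hB₁⟩ : ∃ B₁, B₁ = Uᵀ * B * Uᵀᵀ := ⟨_, rfl⟩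
  obtain ⟨C₁, hC₁⟩ : ∃ C₁, C₁ = Uᵀ * C * (Uᵀ.map s)ᵀ := ⟨_, rfl⟩
  rw [← hB₁, ← hC₁] at h1
  have hskew₁ := h1.skew hE hs hH
  -- the rows of `C₁` in `W`
  have hrow : ∀ i ∈ W, ∀ j, π ∣ C₁ i j := by
    intro i hi j
    rw [hC₁, Matrix.mul_apply]
    refine Finset.dvd_sum fun p _ => Dvd.dvd.mul_right ?_ _
    have h2 : (Uᵀ * C) i p = ((fun l => U l i) ᵥ* C) p := rfl
    rw [h2, ← hres0]
    have h3 := (hN _).mp (hUW i hi)
    have h4 : (fun l => residue O₁ (U l i)) = residue O₁ ∘ (fun l => U l i) := rfl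
    rw [h4, map_vecMul'] at h3
    exact congrFun h3 p
  have hrow' : ∀ i ∈ W, ∀ j, π ∣ C₁ j i := by
    intro i hi j
    have h2 := hsdvd _ (hrow i hi j)
    rw [hskew₁, dvd_neg] at h2
    exact h2
  -- the components
  obtain ⟨κ, hκ⟩ : ∃ κ : Matrix (Fin m) (Fin m) O₁, ∀ i j, (i ∈ W ∨ j ∈ W) →
      C₁ i j = π * κ i j := by
    have h2 : ∀ i j, ∃ y, (i ∈ W ∨ j ∈ W) → C₁ i j = π * y := by
      intro i j
      by_cases hij : i ∈ W ∨ j ∈ W
      · rcases hij with hi | hj
        · obtain ⟨y, hy⟩ := hrow i hi j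
          exact ⟨y, fun _ => hy⟩
        · obtain ⟨y, hy⟩ := hrow' j hj i
          exact ⟨y, fun _ => hy⟩
      · exact ⟨0, fun h => absurd h hij⟩
    choose y hy using h2
    exact ⟨Matrix.of y, hy⟩
  let g : Matrix (Fin m) (Fin m) O₁ := Matrix.of fun i j => if i ∈ W ∨ j ∈ W then 0 else C₁ i j
  let k : Matrix (Fin m) (Fin m) O₁ := Matrix.of fun i j => if i ∈ W ∨ j ∈ W then κ i j else 0
  let q : Matrix (Fin m) (Fin m) O₁ := Matrix.of fun i j => if i ∈ W ∨ j ∈ W then 0 else B₁ i j
  let c : Matrix (Fin m) (Fin m) O₁ := Matrix.of fun i j =>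
    if i ∈ W ∨ j ∉ W then 0 else B₁ i j + B₁ j i
  let h : Matrix (Fin m) (Fin m) O₁ := Matrix.of fun i j => if i ∉ W ∨ j ∉ W then 0 else B₁ i j
  have hgk : g + π • k = C₁ := by
    ext i j
    simp only [Matrix.add_apply, Matrix.smul_apply, smul_eq_mul, g, k, Matrix.of_apply]
    by_cases hij : i ∈ W ∨ j ∈ W
    · rw [if_pos hij, if_pos hij, zero_add, hκ i j hij]
    · rw [if_neg hij, if_neg hij, mul_zero, add_zero]
  have hsum : B₁ + B₁ᵀ = (q + c + h) + (q + c + h)ᵀ := by
    ext i j
    simp only [Matrix.add_apply, Matrix.transpose_apply, q, c, h, Matrix.of_apply]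
    by_cases hi : i ∈ W
    · by_cases hj : j ∈ W
      · simp only [hi, hj, true_or, if_true, not_true_eq_false, or_self, if_false, zero_add]
      · simp only [hi, hj, true_or, or_true, if_true, not_true_eq_false, not_false_eq_true,
          or_self, if_false, zero_add, add_zero]
        ring
    · by_cases hj : j ∈ W
      · simp only [hi, hj, true_or, or_true, if_true, not_true_eq_false, not_false_eq_true,
          or_self, if_false, zero_add, add_zero]
      · simp only [hi, hj, or_true, if_true, not_false_eq_true, or_self, if_false, add_zero]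
  have hrep : LRep ω H₀ (q + c + h) (g + π • k) := by
    rw [hgk]
    exact h1.congr hsum
  -- anisotropy
  have key : ∀ z : Fin m → O₁, (∀ i, i ∉ W → z i = 0) → π ∣ qf h z → ∀ i, π ∣ z i := by
    intro z hz hqz
    by_contra hcon
    push Not at hcon
    obtain ⟨i, hi⟩ := hcon
    have hzN : (U.map (residue O₁)) *ᵥ (residue O₁ ∘ z) ∈ N :=
      mem_of_supp hUW fun l hl => by rw [Function.comp_apply, hz l hl, map_zero]
    rw [map_mulVec'] at hzN
    refine hmin (U *ᵥ z) ?_ ?_ ?_
    · by_contra hcon'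
      push Not at hcon'
      have h5 : (U.map (residue O₁)) *ᵥ (residue O₁ ∘ z) = 0 := by
        rw [map_mulVec']
        ext i
        rw [Function.comp_apply, Pi.zero_apply, residue_eq_zero_iff]
        exact hcon' i
      have h6 := congrFun (mulVec_eq_zero_of_isUnit hUres h5) i
      rw [Function.comp_apply, Pi.zero_apply, hres0] at h6
      exact hi h6
    · intro j
      rw [← hres0]
      have h5 := (hN _).mp hzN
      rw [map_vecMul'] at h5
      exact congrFun h5 j
    · have h5 : qf B₁ z = qf B (U *ᵥ z) := by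
        rw [hB₁, transpose_transpose, qf_conj]
      have h6 : qf B₁ z = qf h z := by
        rw [qf_eq_sum, qf_eq_sum]
        refine Finset.sum_congr rfl fun i _ => Finset.sum_congr rfl fun j _ => ?_
        by_cases hij : i ∉ W ∨ j ∉ W
        · rcases hij with hi | hj
          · rw [hz i hi]
            ring
          · rw [hz j hj]
            ring
        · simp only [h, Matrix.of_apply, if_neg hij]
      rw [← h5, h6]
      exact hqz
  have hrad : ∀ h₁ : Matrix (Fin m) (Fin m) O₁, (∀ i j, (i ∉ W ∨ j ∉ W) → h₁ i j = 0) →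
      (∀ z : Fin m → O₁, (∀ i, i ∉ W → z i = 0) → π ∣ qf h₁ z → ∀ i, π ∣ z i) →
      ∀ (κ : Type) [Field κ] (φ : O₁ →+* κ), (∀ x ∈ maximalIdeal O₁, φ x = 0) →
        ∀ v : Fin m → κ, (h₁.map φ + (h₁.map φ)ᵀ) *ᵥ v = 0 → qf (h₁.map φ) v = 0 →
          ∀ l, l ∈ W → v l = 0 := by
    intro h₁ hz₁ hkey κ _ φ hφ v g1 g2 l hl
    refine rad_aux' h₁ φ hφ v g1 g2 Wᶜ ?_ l (by rw [Finset.mem_compl, not_not]; exact hl)
    intro x hx l hl
    rw [Finset.mem_compl, not_not] at hl
    choose y hy using fun i => residue_surjective (R := O₁) (x i)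
    let z : Fin m → O₁ := fun i => if i ∈ W then y i else 0
    have hzW : ∀ i, i ∉ W → z i = 0 := fun i hi => if_neg hi
    have hres : ∀ i ∈ W, residue O₁ (z i) = x i := by
      intro i hi
      simp only [z, if_pos hi, hy]
    have hqh : residue O₁ (qf h₁ z) = 0 := by
      rw [← hx.2, qf_eq_sum, qf_eq_sum, map_sum]
      refine Finset.sum_congr rfl fun i _ => ?_
      rw [map_sum]
      refine Finset.sum_congr rfl fun j _ => ?_
      by_cases hij : i ∉ W ∨ j ∉ W
      · rw [Matrix.map_apply, hz₁ i j hij, map_zero, zero_mul, zero_mul, map_zero, zero_mul,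
          zero_mul]
      · push Not at hij
        rw [map_mul, map_mul, hres i hij.1, hres j hij.2]
        rfl
    have h5 := hkey z hzW ((hres0 _).mp hqh) l
    rw [← hres l hl]
    exact (hres0 _).mpr h5
  -- the unit determinant
  have hg_zero : ∀ i j, (i ∈ W ∨ j ∈ W) → g i j = 0 := by
    intro i j hij
    simp only [g, Matrix.of_apply, if_pos hij]
  have hgu : IsUnit (g + Matrix.diagonal fun i => if i ∈ W then 1 else 0).det := by
    apply isUnit_det_of_residue
    intro hdet
    obtain ⟨x, hx0, hx⟩ := Matrix.exists_vecMul_eq_zero_iff.mpr hdet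
    have e1 : ∀ j, ∑ i, x i * residue O₁ ((g + (Matrix.diagonal fun i => if i ∈ W then 1 else 0) :
        Matrix (Fin m) (Fin m) O₁) i j) = 0 := fun j => congrFun hx j
    have hxW : ∀ j ∈ W, x j = 0 := by
      intro j hj
      have h5 := e1 j
      rw [Finset.sum_eq_single j] at h5
      · rw [Matrix.add_apply, hg_zero j j (Or.inl hj), Matrix.diagonal_apply_eq, if_pos hj,
          zero_add, map_one, mul_one] at h5
        exact h5
      · intro i _ hij
        rw [Matrix.add_apply, hg_zero i j (Or.inr hj), Matrix.diagonal_apply_ne _ hij, zero_add,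
          map_zero, mul_zero]
      · simp
    have h6 : x ᵥ* C₁.map (residue O₁) = 0 := by
      ext j
      change ∑ i, x i * residue O₁ (C₁ i j) = 0
      by_cases hj : j ∈ W
      · refine Finset.sum_eq_zero fun i _ => ?_
        rw [(hres0 _).mpr (hrow' j hj i), mul_zero]
      · rw [← e1 j]
        refine Finset.sum_congr rfl fun i _ => ?_
        by_cases hi : i ∈ W
        · rw [hxW i hi, zero_mul, zero_mul]
        · have h7 : g i j = C₁ i j := by
            simp only [g, Matrix.of_apply, hi, hj, or_self, if_false]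
          rw [Matrix.add_apply, h7]
          by_cases hij : i = j
          · subst hij
            rw [Matrix.diagonal_apply_eq, if_neg hi, add_zero]
          · rw [Matrix.diagonal_apply_ne _ hij, add_zero]
    have h7 : (U.map (residue O₁)) *ᵥ x ∈ N := by
      rw [hN]
      have h8 : IsUnit (((Uᵀ.map s)ᵀ).map (residue O₁)).det := by
        rw [← RingHom.mapMatrix_apply, ← RingHom.map_det, det_transpose, ← RingHom.mapMatrix_apply,
          ← RingHom.map_det]
        exact (hUt.map s).map _
      have h10 : x ᵥ* (Uᵀ).map (residue O₁) = (U.map (residue O₁)) *ᵥ x := by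
        have h11 : (Uᵀ).map (residue O₁) = (U.map (residue O₁))ᵀ := rfl
        rw [h11, vecMul_transpose]
      have h9 : (((U.map (residue O₁)) *ᵥ x) ᵥ* C.map (residue O₁)) ᵥ*
          ((Uᵀ.map s)ᵀ).map (residue O₁) = 0 := by
        rw [← h6, hC₁, map_mul_ringHom, map_mul_ringHom, ← vecMul_vecMul, ← vecMul_vecMul, h10]
      exact mulVec_eq_zero_of_isUnit (M := (((Uᵀ.map s)ᵀ).map (residue O₁))ᵀ)
        (by rwa [det_transpose]) (by rw [mulVec_transpose]; exact h9)
    apply hx0
    ext l
    by_cases hl : l ∈ W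
    · exact hxW l hl
    · exact supp_of_mem hU hWcard hUW h7 l hl
  refine ⟨q, c, h, g, k, W, hrep, ?_⟩
  refine ⟨?_, ?_, ?_, ?_, ?_, ?_, hg_zero, ?_, ?_, ?_, ?_, ?_⟩
  · intro i j hij
    simp only [q, Matrix.of_apply, if_pos hij]
  · intro i j hij
    simp only [c, Matrix.of_apply, if_pos hij]
  · intro i j hij
    simp only [h, Matrix.of_apply, if_pos hij]
  · intro i j hij
    simp only [q, Matrix.neg_apply, Matrix.map_apply, Matrix.of_apply, if_pos hij, map_zero,
      neg_zero]
  · intro i j hij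
    simp only [c, Matrix.neg_apply, Matrix.map_apply, Matrix.of_apply, if_pos hij, map_zero,
      neg_zero]
  · intro i j hij
    simp only [h, Matrix.neg_apply, Matrix.map_apply, Matrix.of_apply, if_pos hij, map_zero,
      neg_zero]
  · intro κ _ φ hφ v hv
    exact radg_of_isUnit hg_zero hgu φ v hv
  · intro κ _ φ hφ v hv
    refine radg_of_isUnit (g := gᵀ) (fun i j hij => hg_zero j i hij.symm) ?_ φ v hv
    have h5 : gᵀ + Matrix.diagonal (fun i => if i ∈ W then 1 else 0) =
        (g + Matrix.diagonal fun i => if i ∈ W then 1 else 0)ᵀ := by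
      rw [transpose_add, diagonal_transpose]
    rw [h5, det_transpose]
    exact hgu
  · exact hrad h (fun i j hij => by simp only [h, Matrix.of_apply, if_pos hij]) key
  · refine hrad (-(h.map s)) (fun i j hij => by
      simp only [h, Matrix.neg_apply, Matrix.map_apply, Matrix.of_apply, if_pos hij, map_zero,
        neg_zero]) ?_
    intro z hz hqz i
    have h5 : qf (-(h.map s)) z = -s (qf h (s ∘ z)) := by
      rw [qf_eq_sum, qf_eq_sum, map_sum, ← Finset.sum_neg_distrib]
      refine Finset.sum_congr rfl fun i _ => ?_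
      rw [map_sum, ← Finset.sum_neg_distrib]
      refine Finset.sum_congr rfl fun j _ => ?_
      simp only [Matrix.neg_apply, Matrix.map_apply, Function.comp_apply, map_mul, hss]
      ring
    rw [h5, dvd_neg] at hqz
    have h6 := hsdvd _ hqz
    rw [hss] at h6
    have h7 := key (s ∘ z) (fun i hi => by rw [Function.comp_apply, hz i hi, map_zero]) h6 i
    have h8 := hsdvd _ h7
    rw [Function.comp_apply, hss] at h8
    exact h8
  · have h5 := hrep.det_ne hE hs hπc hH hHu
    rw [grM] at h5
    have h6 : -(q.map s) + -(c.map s) + -(h.map s) = -((q + c + h).map s) := by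
      ext i j
      simp only [Matrix.add_apply, Matrix.neg_apply, Matrix.map_apply, map_add]
      ring
    rw [h6]
    exact h5

end Exist

end Pool.Agent.Lib.MP_6a3dac_ag
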