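import Pool.Agent.Lib.MP_6a3dac_ag.QuatLocalI
import Pool.Agent.Lib.MP_6a3dac_ag.HermModel

/-!
# Local orders of involution varieties at almost all primes
-/

set_option autoImplicit false
set_option linter.unusedSectionVars false

namespace Pool.Agent.Lib.MP_6a3dac_ag

open Matrix IsDedekindDomain IsLocalRing MvPolynomial
open scoped Quaternion

attribute [local instance] MvPolynomial.gradedAlgebra

section Pairs

variable {K : Type} [Field K] {a' b' c' : K} {K₁ : Type} [Field K₁] [Algebra K K₁] {ω : K₁}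
  {σ : K₁ →+* K₁} {m : ℕ} {O₁ : Type} [CommRing O₁] [Algebra O₁ K₁]

/-- The basis of a quaternion algebra. -/
def quatBasis (a b c : K) (t : Fin 4) : ℍ[K,a,b,c] :=
  ![1, ⟨0, 1, 0, 0⟩, ⟨0, 0, 1, 0⟩, ⟨0, 0, 0, 1⟩] t

theorem gQ_basis0 (i k : Fin m) : gQ ω σ i k (quatBasis a' b' c' 0) =
    -(X (Sum.inl i) * X (Sum.inr k)) + X (Sum.inr i) * X (Sum.inl k) := by
  simp [gQ, gF, gU, gV, quatBasis]

theorem gQ_basis1 (i k : Fin m) : gQ ω σ i k (quatBasis a' b' c' 1) =
    -(C ω * (X (Sum.inl i) * X (Sum.inr k))) + C (σ ω) * (X (Sum.inr i) * X (Sum.inl k)) := by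
  simp [gQ, gF, gU, gV, quatBasis]

theorem gQ_basis2 (i k : Fin m) : gQ ω σ i k (quatBasis a' b' c' 2) =
    X (Sum.inl i) * X (Sum.inl k) - C (algebraMap K K₁ c') * (X (Sum.inr i) * X (Sum.inr k)) := by
  simp [gQ, gF, gU, gV, quatBasis]

theorem gQ_basis3 (i k : Fin m) : gQ ω σ i k (quatBasis a' b' c' 3) =
    C ω * (X (Sum.inl i) * X (Sum.inl k)) -
      C (algebraMap K K₁ c' * σ ω) * (X (Sum.inr i) * X (Sum.inr k)) := by
  simp [gQ, gF, gU, gV, quatBasis]

/-- The products of two coordinates are integral combinations of the forms. -/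
theorem pair_mem_of_units {w w' γ d γ' : O₁} (hw : algebraMap O₁ K₁ w = ω)
    (hw' : algebraMap O₁ K₁ w' = σ ω) (hγ : algebraMap O₁ K₁ γ = algebraMap K K₁ c')
    (hd : d * (w - w') = 1) (hγ' : γ' * γ = 1)
    {N : Submodule O₁ (MvPolynomial (Fin m ⊕ Fin m) K₁)}
    (hN : ∀ i k t, gQ ω σ i k (quatBasis a' b' c' t) ∈ N) (v w : Fin m ⊕ Fin m) :
    X v * X w ∈ N := by
  have hs : ∀ (z : O₁) {f : MvPolynomial (Fin m ⊕ Fin m) K₁}, f ∈ N →
      C (algebraMap O₁ K₁ z) * f ∈ N := by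
    intro z f hf
    have h1 := N.smul_mem z hf
    rwa [← IsScalarTower.algebraMap_smul K₁ z f, smul_eq_C_mul] at h1
  have hdK : (C (algebraMap O₁ K₁ d) : MvPolynomial (Fin m ⊕ Fin m) K₁) * (C ω - C (σ ω)) = 1 := by
    rw [← hw', ← hw, ← C_sub, ← C_mul, ← map_sub, ← map_mul, hd, map_one, C_1]
  have hγK : (C (algebraMap O₁ K₁ γ') : MvPolynomial (Fin m ⊕ Fin m) K₁) *
      C (algebraMap K K₁ c') = 1 := by
    rw [← hγ, ← C_mul, ← map_mul, hγ', map_one, C_1]
  have q0 := fun i k : Fin m => gQ_basis0 (ω := ω) (σ := σ) (a' := a') (b' := b') (c' := c') i k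
  have q1 := fun i k : Fin m => gQ_basis1 (ω := ω) (σ := σ) (a' := a') (b' := b') (c' := c') i k
  have q2 := fun i k : Fin m => gQ_basis2 (ω := ω) (σ := σ) (a' := a') (b' := b') (c' := c') i k
  have q3 := fun i k : Fin m => gQ_basis3 (ω := ω) (σ := σ) (a' := a') (b' := b') (c' := c') i k
  have hω : ∀ {f : MvPolynomial (Fin m ⊕ Fin m) K₁}, f ∈ N → C ω * f ∈ N := by
    intro f hf
    rw [← hw]
    exact hs _ hf
  have hω' : ∀ {f : MvPolynomial (Fin m ⊕ Fin m) K₁}, f ∈ N → C (σ ω) * f ∈ N := by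
    intro f hf
    rw [← hw']
    exact hs _ hf
  rcases v with i | i <;> rcases w with k | k
  · have h1 : X (Sum.inl i) * X (Sum.inl k) = C (algebraMap O₁ K₁ d) *
        (gQ ω σ i k (quatBasis a' b' c' 3) - C (σ ω) * gQ ω σ i k (quatBasis a' b' c' 2)) := by
      rw [q2, q3, C_mul]
      linear_combination (-(X (Sum.inl i) * X (Sum.inl k))) * hdK
    rw [h1]
    exact hs _ (N.sub_mem (hN _ _ _) (hω' (hN _ _ _)))
  · have h1 : X (Sum.inl i) * X (Sum.inr k) = C (algebraMap O₁ K₁ d) *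
        (C (σ ω) * gQ ω σ i k (quatBasis a' b' c' 0) - gQ ω σ i k (quatBasis a' b' c' 1)) := by
      rw [q0, q1]
      linear_combination (-(X (Sum.inl i) * X (Sum.inr k))) * hdK
    rw [h1]
    exact hs _ (N.sub_mem (hω' (hN _ _ _)) (hN _ _ _))
  · have h1 : X (Sum.inr i) * X (Sum.inl k) = C (algebraMap O₁ K₁ d) *
        (C ω * gQ ω σ i k (quatBasis a' b' c' 0) - gQ ω σ i k (quatBasis a' b' c' 1)) := by
      rw [q0, q1]
      linear_combination (-(X (Sum.inr i) * X (Sum.inl k))) * hdK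
    rw [h1]
    exact hs _ (N.sub_mem (hω (hN _ _ _)) (hN _ _ _))
  · have h1 : X (Sum.inr i) * X (Sum.inr k) = C (algebraMap O₁ K₁ γ') *
        (C (algebraMap O₁ K₁ d) *
        (gQ ω σ i k (quatBasis a' b' c' 3) - C ω * gQ ω σ i k (quatBasis a' b' c' 2))) := by
      rw [q2, q3, C_mul]
      linear_combination (-(X (Sum.inr i) * X (Sum.inr k))) * hγK -
        (C (algebraMap O₁ K₁ γ') * C (algebraMap K K₁ c') * X (Sum.inr i) * X (Sum.inr k)) * hdK
    rw [h1]
    exact hs _ (hs _ (N.sub_mem (hN _ _ _) (hω (hN _ _ _))))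

end Pairs

section GoodUnit

variable {O K : Type} [CommRing O] [IsDomain O] [IsDiscreteValuationRing O] [Field K] [CharZero K]
  [Algebra O K] [IsFractionRing O K] {n : ℕ}

theorem goodForm_of_isUnit (hn : 0 < n) {A : Matrix (Fin n) (Fin n) O}
    (hA : IsUnit (A + Aᵀ).det) : GoodForm A ⟨0, hn⟩ := by
  refine ⟨hA.ne_zero, ?_⟩
  intro κ _ φ hφ v h1 h2
  have h3 : IsUnit ((A + A.transpose).map φ).det := by
    rw [← RingHom.mapMatrix_apply, ← RingHom.map_det]
    exact hA.map φ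
  have h4 : v = 0 := mulVec_eq_zero_of_isUnit h3 (funext h1)
  subst h4
  exact ⟨fun _ _ => rfl, fun _ => rfl⟩

theorem regAt_coordSet_one (hn2 : 2 ≤ n) {B : Matrix (Fin n) (Fin n) K}
    {A : Matrix (Fin n) (Fin n) O} (hAB : A.map (algebraMap O K) = B)
    (hA : IsUnit (A + Aᵀ).det) :
    RegAt (quadricGr B) (Algebra.adjoin O (coordSet B 1)) := by
  have h0 : IsLocalization.AtPrime O (maximalIdeal O) := by
    apply IsLocalization.self
    intro x hx
    by_contra hcon
    exact hx hcon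
  have h1 := regAt_of_goodForm (R := O) (O := O) (K := K) (maximalIdeal O) hn2 (B := B)
    (g := 1) (h := 1) (Matrix.mul_one _) (Matrix.mul_one _) (c := 1) one_ne_zero (A := A) (by
      rw [one_smul, Matrix.transpose_one, Matrix.mul_one, Matrix.one_mul, ← hAB]
      ext i j
      simp) (goodForm_of_isUnit (by omega) hA)
  rwa [locSub_eq_self] at h1
  intro r hr
  by_contra hcon
  exact hr hcon

end GoodUnit

section Std

variable {K : Type} [Field K] {a b c : K} {m : ℕ}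

/-- The standard generators. -/
noncomputable def stdQ (H : Matrix (Fin m) (Fin m) ℍ[K,a,b,c]) : Set (QuatRing H) :=
  Set.range fun x : Fin m × Fin m × Fin 4 =>
    quatMk H ⟨quatP x.1 x.2.1 (quatBasis a b c x.2.2), quatP_mem _ _ _⟩

theorem coordSet_one {K₁ : Type} [Field K₁] (B : Matrix (Fin (m + m)) (Fin (m + m)) K₁) :
    coordSet B 1 = Set.range fun v => prQ B (X v) := by
  have h1 : ∀ i, linSubst (1 : Matrix (Fin (m + m)) (Fin (m + m)) K₁) (X i) = X i := by
    intro i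
    rw [linSubst_X, Finset.sum_eq_single i]
    · simp
    · intro j _ hj
      rw [Matrix.one_apply_ne (Ne.symm hj)]
      simp
    · simp
  ext x
  constructor
  · rintro ⟨i, rfl⟩
    refine ⟨finSumFinEquiv.symm i, ?_⟩
    change Ideal.Quotient.mk _ (rename finSumFinEquiv (X (finSumFinEquiv.symm i))) =
      Ideal.Quotient.mk _ (linSubst 1 (X i))
    rw [h1, rename_X, Equiv.apply_symm_apply]
  · rintro ⟨v, rfl⟩
    refine ⟨finSumFinEquiv v, ?_⟩
    change Ideal.Quotient.mk _ (linSubst 1 (X (finSumFinEquiv v))) =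
      Ideal.Quotient.mk _ (rename finSumFinEquiv (X v))
    rw [h1, rename_X]

/-- The coordinates of a quaternion. -/
def quatCo (d : ℍ[K,a,b,c]) (t : Fin 4) : K := ![d.re, d.imI, d.imJ, d.imK] t

end Std

section Local

variable {R K : Type} [CommRing R] [IsDedekindDomain R] [Field K] [CharZero K] [Algebra R K]
  [IsFractionRing R K] (p : HeightOneSpectrum R) [Finite (R ⧸ p.asIdeal)] {m : ℕ}

theorem exists_prime_any {O K K₁ : Type} [CommRing O] [IsDomain O] [IsDiscreteValuationRing O]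
    [Field K] [Algebra O K] [IsFractionRing O K] [Field K₁] [Algebra K K₁] [Algebra O K₁]
    [IsScalarTower O K K₁] {a b : O} {ω : K₁} {σ : K₁ →+* K₁}
    (hE : QExt (algebraMap O K a) (algebraMap O K b) ω σ) (hd : IsUnit (b ^ 2 + 4 * a))
    [IsDedekindDomain (integralClosure O K₁)] :
    Nonempty (HeightOneSpectrum (integralClosure O K₁)) := by
  obtain ⟨π, hπ⟩ := IsDiscreteValuationRing.exists_irreducible O
  have hne : Ideal.span {algebraMap O (integralClosure O K₁) π} ≠ ⊤ := by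
    intro htop
    have h1 : (1 : integralClosure O K₁) ∈ Ideal.span {algebraMap O (integralClosure O K₁) π} := by
      rw [htop]; trivial
    obtain ⟨z, hz⟩ := Ideal.mem_span_singleton.mp h1
    obtain ⟨x, y, rfl⟩ := hE.exists_eq hd z
    have h2 := congrArg (fun w : integralClosure O K₁ => (w : K₁)) hz
    change (1 : K₁) = algebraMap O K₁ π * (algebraMap O K₁ x + algebraMap O K₁ y * ω) at h2
    have h5 : algebraMap K K₁ (algebraMap O K (π * x - 1)) +
        algebraMap K K₁ (algebraMap O K (π * y)) * ω = 0 := by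
      rw [← IsScalarTower.algebraMap_apply, ← IsScalarTower.algebraMap_apply]
      simp only [map_sub, map_mul, map_one]
      linear_combination -h2
    obtain ⟨h6, -⟩ := hE.uniq _ _ h5
    have h7 : π * x - 1 = 0 := (map_eq_zero_iff _ (IsFractionRing.injective O K)).mp h6
    exact hπ.not_isUnit (IsUnit.of_mul_eq_one x (by linear_combination h7))
  obtain ⟨n, hn, hle⟩ := Ideal.exists_le_maximal _ hne
  refine ⟨⟨n, hn.isPrime, ?_⟩⟩
  rintro rfl
  have h1 : algebraMap O (integralClosure O K₁) π ∈ (⊥ : Ideal (integralClosure O K₁)) :=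
    hle (Ideal.subset_span rfl)
  rw [Ideal.mem_bot] at h1
  have h3 := congrArg (fun w : integralClosure O K₁ => (w : K₁)) h1
  change algebraMap O K₁ π = 0 at h3
  rw [IsScalarTower.algebraMap_apply O K K₁, map_eq_zero,
    map_eq_zero_iff _ (IsFractionRing.injective O K)] at h3
  exact hπ.ne_zero h3

end Local

section Aux

variable {R O O₁ K K₁ : Type} [CommRing R] [IsDomain R] [CommRing O] [IsDomain O]
  [IsDiscreteValuationRing O] [CommRing O₁] [IsDomain O₁] [IsDiscreteValuationRing O₁] [Field K]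
  [CharZero K] [Algebra R K] [Algebra R O] [Algebra O K] [IsScalarTower R O K]
  [IsFractionRing O K] [Field K₁] [CharZero K₁] [Algebra K K₁] [Algebra O₁ K₁]
  [IsFractionRing O₁ K₁] (p : Ideal R) [p.IsPrime] [IsLocalization.AtPrime O p] {a b c : O}
  {ω : K₁} {σ : K₁ →+* K₁} (hE : QExt (algebraMap O K a) (algebraMap O K b) ω σ)
  {κ : O →+* O₁} [IsLocalHom κ] {ω₁ : O₁} (hκ : EtaleLike κ ω₁ a b)
  (hω₁ : algebraMap O₁ K₁ ω₁ = ω)
  (hcomp : ∀ o, algebraMap K K₁ (algebraMap O K o) = algebraMap O₁ K₁ (κ o)) {m : ℕ}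

include hE hω₁ hcomp in
theorem exists_rhoB_map (M : Matrix (Fin m) (Fin m) ℍ[K,algebraMap O K a,algebraMap O K b,
    algebraMap O K c]) (hM : ∀ x : Fin m × Fin m × Fin 4, ∃ y : O, algebraMap O K y =
      quatCo (M x.1 x.2.1) x.2.2) :
    ∃ X : Matrix (Fin m ⊕ Fin m) (Fin m ⊕ Fin m) O₁, X.map (algebraMap O₁ K₁) = rhoB ω σ M := by
  have hσω : algebraMap O₁ K₁ (κ b - ω₁) = σ ω := by
    rw [map_sub, hE.q.conj, hω₁, hcomp]
  choose y hy using hM
  have hy0 : ∀ i k, algebraMap K K₁ (M i k).re = algebraMap O₁ K₁ (κ (y (i, k, 0))) := by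
    intro i k
    rw [← hcomp, hy]
    rfl
  have hy1 : ∀ i k, algebraMap K K₁ (M i k).imI = algebraMap O₁ K₁ (κ (y (i, k, 1))) := by
    intro i k
    rw [← hcomp, hy]
    rfl
  have hy2 : ∀ i k, algebraMap K K₁ (M i k).imJ = algebraMap O₁ K₁ (κ (y (i, k, 2))) := by
    intro i k
    rw [← hcomp, hy]
    rfl
  have hy3 : ∀ i k, algebraMap K K₁ (M i k).imK = algebraMap O₁ K₁ (κ (y (i, k, 3))) := by
    intro i k
    rw [← hcomp, hy]
    rfl
  refine ⟨fromBlocks (Matrix.of fun i k => κ (y (i, k, 0)) + κ (y (i, k, 1)) * ω₁)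
    (Matrix.of fun i k => κ (y (i, k, 2)) + κ (y (i, k, 3)) * ω₁)
    (Matrix.of fun i k => κ c * (κ (y (i, k, 2)) + κ (y (i, k, 3)) * (κ b - ω₁)))
    (Matrix.of fun i k => κ (y (i, k, 0)) + κ (y (i, k, 1)) * (κ b - ω₁)), ?_⟩
  rw [fromBlocks_map, rhoB]
  congr 1
  · ext i k
    simp only [Matrix.map_apply, Matrix.of_apply, mU, map_add, map_mul, gU, hy0, hy1, hω₁]
  · ext i k
    simp only [Matrix.map_apply, Matrix.of_apply, mV, map_add, map_mul, gV, hy2, hy3, hω₁]
  · ext i k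
    simp only [Matrix.map_apply, Matrix.of_apply, mV, gV, Matrix.smul_apply, smul_eq_mul]
    rw [map_add σ, map_mul σ, hE.q.alg, hE.q.alg, ← hσω, hy2, hy3, ← map_mul, ← map_add, hcomp,
      ← map_mul]
  · ext i k
    simp only [Matrix.map_apply, Matrix.of_apply, mU, gU]
    rw [map_add σ, map_mul σ, hE.q.alg, hE.q.alg, ← hσω, hy0, hy1, ← map_mul, ← map_add]

include hE hω₁ hκ hcomp in
theorem quat_good_aux (hm : 2 ≤ m) {H N : Matrix (Fin m) (Fin m) ℍ[K,algebraMap O K a,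
      algebraMap O K b,algebraMap O K c]}
    (hH : Hᴴ = -H) (hHN : H * N = 1) (hNH : N * H = 1)
    (hroot : ∀ r : K, r * r ≠ algebraMap O K a + algebraMap O K b * r)
    {π : O} (hπ : Irreducible π) (hπ₁ : Irreducible (κ π)) (hcu : IsUnit c) (h2u : IsUnit (2 : O))
    (hintH : ∀ x : Fin m × Fin m × Fin 4, ∃ y : O, algebraMap O K y = quatCo (H x.1 x.2.1) x.2.2)
    (hintN : ∀ x : Fin m × Fin m × Fin 4, ∃ y : O, algebraMap O K y = quatCo (N x.1 x.2.1) x.2.2) :
    (∀ x, ∃ r : R, r ≠ 0 ∧ r • x ∈ Algebra.adjoin R (stdQ H)) ∧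
      RegAt (quatQGr H) (locSub p (Algebra.adjoin R (stdQ H))) := by
  classical
  have hinv := hE.invol
  have hcK : algebraMap O K c ≠ 0 := by
    rw [Ne, map_eq_zero_iff _ (IsFractionRing.injective O K)]
    exact hcu.ne_zero
  have hdK : ω - σ ω ≠ 0 := by
    apply hE.sub_ne_zero
    rw [← map_ofNat (algebraMap O K) 4, ← map_pow, ← map_mul, ← map_add, Ne,
      map_eq_zero_iff _ (IsFractionRing.injective O K)]
    exact hκ.disc.ne_zero
  have hσω : algebraMap O₁ K₁ (κ b - ω₁) = σ ω := by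
    rw [map_sub, hE.q.conj, hω₁, hcomp]
  obtain ⟨B, hBdef⟩ : ∃ B, B = blkMat (gramB ω σ H) := ⟨_, rfl⟩
  have hHid : (1 : Matrix (Fin m) (Fin m) ℍ[K,algebraMap O K a,algebraMap O K b,
      algebraMap O K c]) * H.map (AlgEquiv.refl : ℍ[K,algebraMap O K a,algebraMap O K b,
        algebraMap O K c] ≃ₐ[K] _).symm * 1ᴴ = H := by
    rw [conjTranspose_one, Matrix.one_mul, Matrix.mul_one]
    rfl
  obtain ⟨j, τ, hev, -, -, hjq⟩ := exists_evenMap_quad (AlgEquiv.refl :
    ℍ[K,algebraMap O K a,algebraMap O K b,algebraMap O K c]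
      ≃ₐ[K] _) hroot hE.q hinv hdK hcK hE.bas
    (G := 1) (N := 1) (Matrix.one_mul 1) (Matrix.one_mul 1) H
    (q₁ := gPoly ω σ H) (u := 1) one_ne_zero (by rw [hHid, one_smul])
    (B := B) (by rw [gPoly_eq_blkPoly, rename_blkPoly, hBdef])
  have hjq' : ∀ (i k : Fin m) (d : ℍ[K,algebraMap O K a,algebraMap O K b,algebraMap O K c]),
      j (quatMk H ⟨quatP i k d, quatP_mem i k d⟩) = prQ B (gQ ω σ i k d) := by
    intro i k d
    rw [hjq, eG_one]
    rfl
  have hHu : IsUnit H := ⟨⟨H, N, hHN, hNH⟩, rfl⟩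
  have hB := det_blkMat_gramB hE.q hinv hH hHu
  rw [← hBdef] at hB
  have := isDomain_qcoord (by omega) hB
  obtain ⟨RH, hRH⟩ := exists_rhoB_map hE hω₁ hcomp H hintH
  obtain ⟨RN, hRN⟩ := exists_rhoB_map hE hω₁ hcomp N hintN
  have hinj₁ : Function.Injective (algebraMap O₁ K₁) := IsFractionRing.injective O₁ K₁
  have hRR : RH * RN = 1 := by
    apply Matrix.map_injective hinj₁
    have h1 : (RH * RN).map (algebraMap O₁ K₁) =
        RH.map (algebraMap O₁ K₁) * RN.map (algebraMap O₁ K₁) := Matrix.map_mul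
    change (RH * RN).map (algebraMap O₁ K₁) =
      (1 : Matrix (Fin m ⊕ Fin m) (Fin m ⊕ Fin m) O₁).map (algebraMap O₁ K₁)
    rw [h1, hRH, hRN, ← rhoB_mul hE.q hinv, hHN, rhoB_one,
      Matrix.map_one _ (map_zero _) (map_one _)]
  obtain ⟨A', hA'⟩ : ∃ A' : Matrix (Fin m ⊕ Fin m) (Fin m ⊕ Fin m) O₁,
      A' = RH * fromBlocks 0 (-1) 1 0 := ⟨_, rfl⟩
  have hA'map : A'.map (algebraMap O₁ K₁) = gramB ω σ H := by
    have h1 : (RH * fromBlocks 0 (-1) 1 0).map (algebraMap O₁ K₁) =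
        RH.map (algebraMap O₁ K₁) *
          (fromBlocks 0 (-1) 1 0 : Matrix (Fin m ⊕ Fin m) (Fin m ⊕ Fin m) O₁).map
            (algebraMap O₁ K₁) := Matrix.map_mul
    rw [hA', h1, hRH, gramB_eq, fromBlocks_map]
    congr 2
    · ext i k
      simp
    · ext i k
      by_cases hik : i = k
      · subst hik
        simp
      · simp [Matrix.one_apply_ne hik]
    · ext i k
      by_cases hik : i = k
      · subst hik
        simp
      · simp [Matrix.one_apply_ne hik]
    · ext i k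
      simp
  have hA'det : IsUnit A'.det := by
    rw [hA', Matrix.det_mul]
    refine IsUnit.mul ?_ ?_
    · have h1 := congrArg Matrix.det hRR
      rw [Matrix.det_mul, Matrix.det_one] at h1
      exact IsUnit.of_mul_eq_one _ h1
    · have h1 := det_eta (W := O₁) (m := m)
      rw [pow_two] at h1
      exact IsUnit.of_mul_eq_one _ h1
  have hA'symm : A'ᵀ = A' := by
    apply Matrix.map_injective hinj₁
    have h1 : A'ᵀ.map (algebraMap O₁ K₁) = (A'.map (algebraMap O₁ K₁))ᵀ := rfl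
    change A'ᵀ.map (algebraMap O₁ K₁) = A'.map (algebraMap O₁ K₁)
    rw [h1, hA'map, gramB_symm hE.q hH]
  have h2u' : IsUnit (2 : O₁) := by
    have h1 := h2u.map κ
    rwa [map_ofNat] at h1
  have hreg : RegAt (quadricGr B) (Algebra.adjoin O₁ (coordSet B 1)) := by
    apply regAt_coordSet_one (by omega) (A := blkMat A')
    · rw [hBdef, ← hA'map]
      rfl
    · rw [det_blkMat, hA'symm, ← two_smul O₁, det_smul]
      exact (h2u'.pow _).mul hA'det
  -- the standard generators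
  have hj := EvenMap.hj (quatQGr H) (quadricGr B) (ω := ω₁) (by rw [hω₁]; exact hev) hcomp
  obtain ⟨N₀, hN₀⟩ : ∃ N₀ : Submodule O₁ (MvPolynomial (Fin m ⊕ Fin m) K₁), ∀ f,
      f ∈ N₀ ↔ Fr κ ω₁ j (Subalgebra.toSubmodule (Algebra.adjoin O (stdQ H))) (prQ B f) := by
    refine ⟨⟨⟨⟨{f | Fr κ ω₁ j (Subalgebra.toSubmodule (Algebra.adjoin O (stdQ H))) (prQ B f)},
      ?_⟩, ?_⟩, ?_⟩, fun f => Iff.rfl⟩
    · intro f g hf hg
      change Fr _ _ _ _ (prQ B (f + g))
      rw [map_add]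
      exact Fr.add hκ hj hf hg
    · change Fr _ _ _ _ (prQ B 0)
      rw [map_zero]
      exact Fr.zero
    · intro r f hf
      change Fr _ _ _ _ (prQ B (r • f))
      have h1 : prQ B (r • f) = r • prQ B f := by
        rw [← IsScalarTower.algebraMap_smul K₁ r f, map_smul, IsScalarTower.algebraMap_smul]
      rw [h1]
      exact Fr.smul hκ hj hf r
  have hgen : ∀ i k t, gQ ω σ i k (quatBasis (algebraMap O K a) (algebraMap O K b)
      (algebraMap O K c) t) ∈ N₀ := by
    intro i k t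
    rw [hN₀, ← hjq']
    exact Fr.of_mem (Algebra.subset_adjoin ⟨(i, k, t), rfl⟩)
  obtain ⟨d, hd⟩ : ∃ d : O₁, d * (ω₁ - (κ b - ω₁)) = 1 := by
    obtain ⟨d, hd⟩ := (hκ.disc.map κ).exists_left_inv
    refine ⟨d * (ω₁ - (κ b - ω₁)), ?_⟩
    rw [← hd, mul_assoc]
    congr 1
    simp only [map_add, map_pow, map_mul, map_ofNat]
    linear_combination 4 * hκ.om
  obtain ⟨c', hc'⟩ := (hcu.map κ).exists_left_inv
  have hpair := pair_mem_of_units (K := K) (c' := algebraMap O K c) hω₁ hσω (hcomp c).symm hd hc'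
    hgen
  refine good_of_desc hκ p (quatQGr H) (quadricGr B) hj hev.gr ?_ (F₁ := coordSet B 1) ?_ ?_ ?_ ?_
    hreg
  · intro x x' hxx
    rw [← IsScalarTower.algebraMap_smul K₁ ω₁ (j x'), hω₁] at hxx
    exact hev.uniq x x' hxx
  · intro x hx
    rw [coordSet_one] at hx
    obtain ⟨v, rfl⟩ := hx
    exact ⟨1, prQ_mem (isHomogeneous_X _ _)⟩
  · rintro _ ⟨⟨i, k, t⟩, rfl⟩
    rw [hjq']
    have hX : ∀ v, prQ B (X v) ∈ Algebra.adjoin O₁ (coordSet B 1) := by
      intro v
      apply Algebra.subset_adjoin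
      rw [coordSet_one]
      exact ⟨v, rfl⟩
    have hC : ∀ z : O₁, prQ B (C (algebraMap O₁ K₁ z)) ∈ Algebra.adjoin O₁ (coordSet B 1) := by
      intro z
      rw [prQ_C, ← IsScalarTower.algebraMap_apply]
      exact Subalgebra.algebraMap_mem _ z
    have hCω : prQ B (C ω) ∈ Algebra.adjoin O₁ (coordSet B 1) := by rw [← hω₁]; exact hC _
    have hCω' : prQ B (C (σ ω)) ∈ Algebra.adjoin O₁ (coordSet B 1) := by rw [← hσω]; exact hC _
    have hCc : prQ B (C (algebraMap K K₁ (algebraMap O K c))) ∈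
        Algebra.adjoin O₁ (coordSet B 1) := by rw [hcomp]; exact hC _
    fin_cases t
    · change prQ B (gQ ω σ i k (quatBasis _ _ _ 0)) ∈ _
      rw [gQ_basis0]
      simp only [map_add, map_neg, map_mul]
      exact Subalgebra.add_mem _ (Subalgebra.neg_mem _ (Subalgebra.mul_mem _ (hX _) (hX _)))
        (Subalgebra.mul_mem _ (hX _) (hX _))
    · change prQ B (gQ ω σ i k (quatBasis _ _ _ 1)) ∈ _
      rw [gQ_basis1]
      simp only [map_add, map_neg, map_mul (prQ B)]
      exact Subalgebra.add_mem _ (Subalgebra.neg_mem _ (Subalgebra.mul_mem _ hCω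
        (Subalgebra.mul_mem _ (hX _) (hX _)))) (Subalgebra.mul_mem _ hCω'
        (Subalgebra.mul_mem _ (hX _) (hX _)))
    · change prQ B (gQ ω σ i k (quatBasis _ _ _ 2)) ∈ _
      rw [gQ_basis2]
      simp only [map_sub, map_mul (prQ B)]
      exact Subalgebra.sub_mem _ (Subalgebra.mul_mem _ (hX _) (hX _))
        (Subalgebra.mul_mem _ hCc (Subalgebra.mul_mem _ (hX _) (hX _)))
    · change prQ B (gQ ω σ i k (quatBasis _ _ _ 3)) ∈ _
      rw [gQ_basis3, C_mul]
      simp only [map_sub, map_mul (prQ B)]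
      exact Subalgebra.sub_mem _ (Subalgebra.mul_mem _ hCω (Subalgebra.mul_mem _ (hX _) (hX _)))
        (Subalgebra.mul_mem _ (Subalgebra.mul_mem _ hCc hCω')
          (Subalgebra.mul_mem _ (hX _) (hX _)))
  · rintro x (⟨hx, l, hl⟩ | ⟨s, t, ⟨hs, _⟩, ⟨ht, _⟩, rfl⟩)
    · rw [coordSet_one] at hx
      obtain ⟨v, rfl⟩ := hx
      have h1 := DirectSum.decompose_of_mem_ne (quadricGr B) hl (j := 1) (by omega)
      rw [DirectSum.decompose_of_mem_same (quadricGr B)
        (prQ_mem (isHomogeneous_X K₁ v))] at h1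
      change Fr _ _ _ _ (prQ B (X v))
      have h2 : prQ B (X v) = 0 := h1
      rw [h2]
      exact Fr.zero
    · rw [coordSet_one] at hs ht
      obtain ⟨v, rfl⟩ := hs
      obtain ⟨w, rfl⟩ := ht
      change Fr _ _ _ _ (prQ B (X v) * prQ B (X w))
      rw [← map_mul, ← hN₀]
      exact hpair v w
  · intro k x _
    obtain ⟨r, hr, hrx⟩ := exists_smul_mem_adjoin (R := O₁) B (Matrix.mul_one 1) (j x)
    obtain ⟨n, u, hu⟩ := IsDiscreteValuationRing.eq_unit_mul_pow_irreducible hr hπ₁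
    refine ⟨π ^ n, pow_ne_zero n hπ.ne_zero, ?_⟩
    have h1 : κ (π ^ n) • j x = ((u⁻¹ : O₁ˣ) : O₁) • (r • j x) := by
      rw [map_pow, hu, smul_smul, ← mul_assoc, Units.inv_mul, one_mul]
    rw [h1]
    exact Subalgebra.smul_mem _ hrx _

end Aux

end Pool.Agent.Lib.MP_6a3dac_ag
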