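import Pool.Agent.Lib.MP_6a3dac_ag.RamEst
import Pool.Agent.Lib.MP_6a3dac_ag.ChartApply

/-!
# Regularity of the order of a quaternionic quadric at a ramified prime
-/

set_option autoImplicit false

namespace Pool.Agent.Lib.MP_6a3dac_ag

open MvPolynomial IsLocalRing Matrix HomogeneousLocalization

section Irr

variable {O K A : Type} [CommRing O] [CommRing K] [CommRing A] [Algebra O K]
  [Algebra K A] [Algebra O A] [IsScalarTower O K A] (𝒜 : ℕ → Submodule K A)
  [GradedAlgebra 𝒜] {T : Subalgebra O A} (hT : IsHomog 𝒜 T) (y : Ideal T)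

/-- The elements of an ideal of a subalgebra as elements of the algebra. -/
def idealSet : Set A := {a | ∃ h : a ∈ T, (⟨a, h⟩ : T) ∈ y}

theorem primeSet_idealSet [hy : y.IsPrime] : PrimeSet T.toSubring (idealSet y) where
  zero := ⟨T.zero_mem, y.zero_mem⟩
  add := by
    rintro p q ⟨hp, hp'⟩ ⟨hq, hq'⟩
    exact ⟨T.add_mem hp hq, y.add_mem hp' hq'⟩
  mul := by
    rintro p q hp ⟨hq, hq'⟩
    exact ⟨T.mul_mem hp hq, y.mul_mem_left ⟨p, hp⟩ hq'⟩
  prime := by
    rintro p q hp hq ⟨h, h'⟩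
    have h1 : (⟨p, hp⟩ : T) * ⟨q, hq⟩ ∈ y := h'
    exact (hy.mem_or_mem h1).imp (fun h => ⟨hp, h⟩) fun h => ⟨hq, h⟩

/-- A homogeneous ideal containing a set of generators contains the irrelevant ideal. -/
theorem irrelevant_le_of_gens {S : Set A} (hTS : T = Algebra.adjoin O S) (hS : S ⊆ idealSet y)
    (hyh : letI := subGradedAlgebra 𝒜 hT
      y.IsHomogeneous (subGr 𝒜 T)) :
    letI := subGradedAlgebra 𝒜 hT
    (HomogeneousIdeal.irrelevant (subGr 𝒜 T)).toIdeal ≤ y := by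
  let := subGradedAlgebra 𝒜 hT
  rw [HomogeneousIdeal.toIdeal_irrelevant_le]
  intro i hi t ht
  change t ∈ y
  have key : ∀ x ∈ Algebra.adjoin O S, ∃ (r : O) (z : T), z ∈ y ∧ x = algebraMap O A r + z := by
    intro x hx
    induction hx using Algebra.adjoin_induction with
    | mem x hx =>
      obtain ⟨h1, h2⟩ := hS hx
      exact ⟨0, _, h2, by rw [map_zero, zero_add]⟩
    | algebraMap r => exact ⟨r, 0, y.zero_mem, by simp⟩
    | add x x' _ _ hx hx' =>
      obtain ⟨r, z, hz, rfl⟩ := hx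
      obtain ⟨r', z', hz', rfl⟩ := hx'
      refine ⟨r + r', z + z', y.add_mem hz hz', ?_⟩
      rw [map_add, Subalgebra.coe_add]
      ring
    | mul x x' _ _ hx hx' =>
      obtain ⟨r, z, hz, rfl⟩ := hx
      obtain ⟨r', z', hz', rfl⟩ := hx'
      refine ⟨r * r', algebraMap O _ r * z' + algebraMap O _ r' * z + z * z',
        y.add_mem (y.add_mem (y.mul_mem_left _ hz') (y.mul_mem_left _ hz)) (y.mul_mem_left _ hz'),
        ?_⟩
      rw [map_mul, Subalgebra.coe_add, Subalgebra.coe_add, Subalgebra.coe_mul, Subalgebra.coe_mul,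
        Subalgebra.coe_mul, Subalgebra.coe_algebraMap, Subalgebra.coe_algebraMap]
      ring
  obtain ⟨r, z, hz, hrz⟩ := key _ (hTS.le t.2)
  have h2 : t = ((DirectSum.decompose (subGr 𝒜 T) z i : _) : T) := by
    apply Subtype.ext
    rw [coe_decompose_subGr 𝒜 hT z i]
    have h3 : (z : A) = (t : A) - algebraMap O A r := by
      rw [hrz]; ring
    have h4 : (t : A) ∈ 𝒜 i := ht
    have h5 : algebraMap O A r ∈ 𝒜 0 := algebraMap_mem_zero 𝒜 r
    rw [h3, DirectSum.decompose_sub, DirectSum.sub_apply, AddSubgroupClass.coe_sub,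
      DirectSum.decompose_of_mem_same 𝒜 h4, DirectSum.decompose_of_mem_ne 𝒜 h5 hi.ne, sub_zero]
  rw [h2]
  exact hyh i hz

end Irr

section Elem

variable {A : Type} [CommRing A] {m : ℕ} (x y : Fin m → A) (ϖ : A)

theorem exists_sG_x (i : Fin m) (n : Nrm m) : ∃ s, x i * SY x y n = sG x y ϖ s := by
  rcases n with i' | j | ⟨i', j⟩
  · exact ⟨(0, i, i'), rfl⟩
  · exact ⟨(1, i, j), rfl⟩
  · exact ⟨(1, i, j), rfl⟩

theorem exists_sG_y (i : Fin m) (n : Nrm m) : ∃ s, y i * SX x y ϖ n = sG x y ϖ s := by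
  rcases n with i' | j | ⟨i', j⟩
  · exact ⟨(1, i', i), mul_comm _ _⟩
  · refine ⟨(2, i, j), ?_⟩
    change y i * (ϖ * y j) = ϖ * (y i * y j)
    ring
  · exact ⟨(1, i', i), mul_comm _ _⟩

theorem exists_sG_u (n : Nrm m) : ∃ s, SX x y ϖ n ^ 2 = sG x y ϖ s ∨
    SX x y ϖ n ^ 2 = ϖ * sG x y ϖ s := by
  rcases n with i' | j | ⟨i', j⟩
  · exact ⟨(0, i', i'), Or.inl (pow_two _)⟩
  · refine ⟨(2, j, j), Or.inr ?_⟩
    change (ϖ * y j) ^ 2 = ϖ * (ϖ * (y j * y j))
    ring
  · exact ⟨(0, i', i'), Or.inl (pow_two _)⟩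

theorem exists_sG_v (n : Nrm m) : ∃ s, ϖ * SY x y n ^ 2 = sG x y ϖ s ∨
    ϖ * SY x y n ^ 2 = ϖ * sG x y ϖ s := by
  rcases n with i' | j | ⟨i', j⟩
  · refine ⟨(0, i', i'), Or.inr ?_⟩
    change ϖ * x i' ^ 2 = ϖ * (x i' * x i')
    ring
  · refine ⟨(2, j, j), Or.inl ?_⟩
    change ϖ * y j ^ 2 = ϖ * (y j * y j)
    ring
  · refine ⟨(2, j, j), Or.inl ?_⟩
    change ϖ * y j ^ 2 = ϖ * (y j * y j)
    ring

variable {x y ϖ} {B : Type} [CommRing B] (ι : A →+* B)

theorem map_SX (n : Nrm m) : ι (SX x y ϖ n) = SX (fun i => ι (x i)) (fun i => ι (y i)) (ι ϖ) n := by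
  rcases n with i' | j | ⟨i', j⟩
  · rfl
  · exact map_mul _ _ _
  · rfl

theorem map_SY (n : Nrm m) : ι (SY x y n) = SY (fun i => ι (x i)) (fun i => ι (y i)) n := by
  rcases n with i' | j | ⟨i', j⟩ <;> rfl

end Elem

section KpGr

variable {O K A : Type} [CommRing O] [CommRing K] [CommRing A] [Algebra O K]
  [Algebra K A] [Algebra O A] [IsScalarTower O K A] (𝒜 : ℕ → Submodule K A)
  [GradedAlgebra 𝒜] {m : ℕ} (π : O) (h h' : Matrix (Fin m) (Fin m) O) {W : Finset (Fin m)}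
  {x y : Fin m → A} (hx : ∀ i, x i ∈ 𝒜 1) (hy : ∀ i, y i ∈ 𝒜 1)

include hx hy

theorem SX_mem_graded (n : Nrm m) : SX x y (algebraMap O A π) n ∈ 𝒜 1 := by
  rcases n with i' | j | ⟨i', j⟩
  · exact hx i'
  · exact SetLike.mul_mem_graded (algebraMap_mem_zero 𝒜 π) (hy j)
  · exact hx i'

omit [Algebra O K] [Algebra O A] [IsScalarTower O K A] [GradedAlgebra 𝒜] in
theorem SY_mem_graded (n : Nrm m) : SY x y n ∈ 𝒜 1 := by
  rcases n with i' | j | ⟨i', j⟩
  · exact hx i'
  · exact hy j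
  · exact hy j

theorem kp_mem_graded (n : Nrm m) {κ : RV m} (hκ : IsExc W κ) :
    kp x y (algebraMap O A π) (bl (algebraMap O A) h x x) (bl (algebraMap O A) h' y y) n κ ∈
      𝒜 (2 * kd m κ) := by
  have h1 := SX_mem_graded 𝒜 π hx hy n
  have h2 := SY_mem_graded 𝒜 hx hy n
  rcases κ with (l | l) | a
  · exact SetLike.mul_mem_graded (hx l) h2
  · exact SetLike.mul_mem_graded (hy l) h1
  · fin_cases a
    · exact absurd hκ (by simp [IsExc])
    · exact SetLike.pow_mem_graded 2 h1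
    · exact SetLike.mul_mem_graded (algebraMap_mem_zero 𝒜 π) (SetLike.pow_mem_graded 2 h2)
    · exact SetLike.mul_mem_graded (bl_mem_graded 𝒜 h hx) (SetLike.pow_mem_graded 2 h2)
    · exact SetLike.mul_mem_graded (bl_mem_graded 𝒜 h' hy) (SetLike.pow_mem_graded 2 h1)

end KpGr

section Reg

variable {O K A : Type} [CommRing O] [IsDomain O] [IsDiscreteValuationRing O] [CommRing K]
  [CommRing A] [Algebra O K] [Algebra K A] [Algebra O A] [IsScalarTower O K A]
  (𝒜 : ℕ → Submodule K A) [GradedAlgebra 𝒜] {m : ℕ} {π : O}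
  {q c h g k q' c' h' : Matrix (Fin m) (Fin m) O} {W : Finset (Fin m)}
  {x y : Fin m → A} (hx : ∀ i, x i ∈ 𝒜 1) (hy : ∀ i, y i ∈ 𝒜 1)

include hx hy in
omit [IsDomain O] [IsDiscreteValuationRing O] in
theorem isHomog_ramOrder : IsHomog 𝒜 (ramOrder π h h' W x y) := by
  refine isHomog_adjoin 𝒜 ?_
  rintro g (⟨s, rfl⟩ | ⟨κ, s, s', hκ, hd, rfl⟩ | ⟨κ, s, hκ, hd, rfl⟩)
  · exact ⟨_, SetLike.mul_mem_graded (algebraMap_mem_zero 𝒜 π) (sG_mem_graded 𝒜 π hx hy s)⟩
  · exact ⟨_, SetLike.mul_mem_graded (kG_mem_graded 𝒜 π h h' hx hy κ)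
      (SetLike.mul_mem_graded (sG_mem_graded 𝒜 π hx hy s) (sG_mem_graded 𝒜 π hx hy s'))⟩
  · exact ⟨_, SetLike.mul_mem_graded (kG_mem_graded 𝒜 π h h' hx hy κ)
      (sG_mem_graded 𝒜 π hx hy s)⟩

include hx hy in
theorem regAt_ramOrder (hπ : Irreducible π) (H : RamForm π q c h g k q' c' h' W)
    (hker : RingHom.ker (lamP (algebraMap O A) x y) = Ideal.span {ramQ π q c h g k q' c' h'}) :
    RegAt 𝒜 (ramOrder π h h' W x y) := by
  classical
  intro hT Y hY hyh hirr
  let T := ramOrder π h h' W x y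
  let := subGradedAlgebra 𝒜 hT
  set ϖ := algebraMap O A π with hϖ
  set hX := bl (algebraMap O A) h x x with hhX
  set hY' := bl (algebraMap O A) h' y y with hhY
  have hIn : ramSet x y ϖ hX hY' W ⊆ T.toSubring := Algebra.subset_adjoin
  have hϖT : ϖ ∈ T.toSubring := T.algebraMap_mem π
  have hc : ∀ k l, algebraMap O A (h k l) ∈ T.toSubring := fun k l => T.algebraMap_mem _
  have hc' : ∀ k l, algebraMap O A (h' k l) ∈ T.toSubring := fun k l => T.algebraMap_mem _
  -- the special element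
  obtain ⟨n, κ, hκ, hgZ⟩ : ∃ n κ, IsExc W κ ∧
      kp x y ϖ hX hY' n κ * (SX x y ϖ n * SY x y n) ^ (3 - kd m κ) ∉ idealSet Y := by
    by_contra hcon
    push Not at hcon
    exact hirr (irrelevant_le_of_gens 𝒜 hT Y rfl
      (ramSet_subset (primeSet_idealSet Y) hIn hϖT hc hc' rfl rfl hcon) hyh)
  have hmemkp := kp_mem hIn hϖT hc hc' rfl rfl n hκ
  obtain ⟨sσ, hsσ⟩ := exists_sG_eq x y ϖ n
  have hgT : kp x y ϖ hX hY' n κ * (SX x y ϖ n * SY x y n) ^ (3 - kd m κ) ∈ T := by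
    rcases hmemkp with ⟨hd, h1⟩ | ⟨hd, h1⟩
    · rw [hd, hsσ, show 3 - 1 = 2 from rfl, pow_two]
      exact h1 _ _
    · rw [hd, hsσ, show 3 - 2 = 1 from rfl, pow_one]
      exact h1 _
  let g0 : T := ⟨_, hgT⟩
  have hgy : g0 ∉ Y := fun h1 => hgZ ⟨hgT, h1⟩
  set L := BigLoc Y with hL
  let ι : A →+* L := algebraMap A L
  have : Nontrivial L := nontrivial_bigLoc Y
  have hgunit : IsUnit (ι (kp x y ϖ hX hY' n κ) * ι (SX x y ϖ n * SY x y n) ^ (3 - kd m κ)) := by
    have h1 := isUnit_algebraMap_bigLoc Y hgy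
    rw [← map_pow, ← map_mul]
    exact h1
  have hd3 : 3 - kd m κ ≠ 0 := by
    rcases hmemkp with ⟨hd, _⟩ | ⟨hd, _⟩ <;> omega
  have hσu : IsUnit (ι (SX x y ϖ n) * ι (SY x y n)) := by
    have h1 := isUnit_of_mul_isUnit_right hgunit
    rw [isUnit_pow_iff hd3, map_mul] at h1
    exact h1
  have hku : IsUnit (ι (kp x y ϖ hX hY' n κ)) := isUnit_of_mul_isUnit_left hgunit
  obtain ⟨sx', hsx⟩ := (isUnit_of_mul_isUnit_left hσu).exists_right_inv
  obtain ⟨sy', hsy⟩ := (isUnit_of_mul_isUnit_right hσu).exists_right_inv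
  obtain ⟨k', hk'⟩ := hku.exists_right_inv
  obtain ⟨sx, hsxd⟩ : ∃ sx, sx = ι (SX x y ϖ n) := ⟨_, rfl⟩
  obtain ⟨sy, hsyd⟩ : ∃ sy, sy = ι (SY x y n) := ⟨_, rfl⟩
  rw [← hsxd] at hsx
  rw [← hsyd] at hsy
  obtain ⟨e, hed⟩ : ∃ e, e = ι (kp x y ϖ hX hY' n κ) * (sx' * sy') ^ kd m κ := ⟨_, rfl⟩
  obtain ⟨e', hed'⟩ : ∃ e', e' = k' * (sx * sy) ^ kd m κ := ⟨_, rfl⟩
  have hσσ : (sx * sy) * (sx' * sy') = 1 := by
    linear_combination (sy * sy') * hsx + hsy
  have he : e * e' = 1 := by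
    have h1 : e * e' = (ι (kp x y ϖ hX hY' n κ) * k') * ((sx * sy) * (sx' * sy')) ^ kd m κ := by
      rw [hed, hed', mul_pow]; ring
    rw [h1, hk', hσσ, one_pow, one_mul]
  have hke : ι (kp x y ϖ hX hY' n κ) = e * (sx * sy) ^ kd m κ := by
    rw [hed, mul_assoc, ← mul_pow, mul_comm (sx' * sy'), hσσ, one_pow, mul_one]
  let φ : O →+* L := ι.comp (algebraMap O A)
  let xL : Fin m → L := fun i => ι (x i)
  let yL : Fin m → L := fun i => ι (y i)
  let δ := dl φ π h h' W xL yL sx sx' sy sy' e e'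
  have dC : ∀ r, δ (C r) = φ r := dl_C φ π h h' W xL yL sx sx' sy sy' e e'
  have hblx : ι hX = bl φ h xL xL := map_bl _ ι h x x
  have hbly : ι hY' = bl φ h' yL yL := map_bl _ ι h' y y
  -- the values of the exceptional coordinates
  have hkp : ∀ κ', IsExc W κ' →
      ι (kp x y ϖ hX hY' n κ') = δ (X κ') * e * (sx * sy) ^ kd m κ' := by
    intro κ' hκ'
    rcases κ' with (l | l) | a
    · have h1 : δ (X (Sum.inl (Sum.inl l))) = xL l * sx' * e' :=
        dl_a_notMem φ π h h' W xL yL sx sx' sy sy' e e' hκ'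
      rw [h1]
      change ι (x l * SY x y n) = _ * (sx * sy) ^ 1
      rw [map_mul, ← hsyd]
      change xL l * sy = _
      linear_combination (-(xL l * sy * (sx * sx'))) * he - (xL l * sy) * hsx
    · have h1 : δ (X (Sum.inl (Sum.inr l))) = yL l * sy' * e' :=
        dl_b_notMem φ π h h' W xL yL sx sx' sy sy' e e' hκ'
      rw [h1]
      change ι (y l * SX x y ϖ n) = _ * (sx * sy) ^ 1
      rw [map_mul, ← hsxd]
      change yL l * sx = _
      linear_combination (-(yL l * sx * (sy * sy'))) * he - (yL l * sx) * hsy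
    · fin_cases a
      · exact absurd hκ' (by simp [IsExc])
      · have h1 : δ (X (Sum.inr 1)) = sx * sy' * e' :=
          dl_u φ π h h' W xL yL sx sx' sy sy' e e'
        change ι (SX x y ϖ n ^ 2) = δ (X (Sum.inr 1)) * e * (sx * sy) ^ 1
        rw [h1, map_pow, ← hsxd]
        linear_combination (-(sx ^ 2 * (sy * sy'))) * he - (sx ^ 2) * hsy
      · have h1 : δ (X (Sum.inr 2)) = φ π * sy * sx' * e' :=
          dl_v φ π h h' W xL yL sx sx' sy sy' e e'
        change ι (ϖ * SY x y n ^ 2) = δ (X (Sum.inr 2)) * e * (sx * sy) ^ 1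
        rw [h1, map_mul, map_pow, ← hsyd]
        change φ π * sy ^ 2 = _
        linear_combination (-(φ π * sy ^ 2 * (sx * sx'))) * he - (φ π * sy ^ 2) * hsx
      · have h1 : δ (X (Sum.inr 3)) = bl φ h xL xL * sx' ^ 2 * e' :=
          dl_s φ π h h' W xL yL sx sx' sy sy' e e'
        change ι (hX * SY x y n ^ 2) = δ (X (Sum.inr 3)) * e * (sx * sy) ^ 2
        rw [h1, map_mul, map_pow, ← hsyd, hblx]
        linear_combination (-(bl φ h xL xL * sy ^ 2 * (sx * sx') ^ 2)) * he -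
          (bl φ h xL xL * sy ^ 2 * (sx * sx' + 1)) * hsx
      · have h1 : δ (X (Sum.inr 4)) = bl φ h' yL yL * sy' ^ 2 * e' :=
          dl_t φ π h h' W xL yL sx sx' sy sy' e e'
        change ι (hY' * SX x y ϖ n ^ 2) = δ (X (Sum.inr 4)) * e * (sx * sy) ^ 2
        rw [h1, map_mul, map_pow, ← hsxd, hbly]
        linear_combination (-(bl φ h' yL yL * sx ^ 2 * (sy * sy') ^ 2)) * he -
          (bl φ h' yL yL * sx ^ 2 * (sy * sy' + 1)) * hsy
  have hσpow : ∀ N : ℕ, (sx * sy) ^ N * (sx' * sy') ^ N = 1 := by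
    intro N
    rw [← mul_pow, hσσ, one_pow]
  have hδκ : δ (X κ) = 1 := by
    have h1 := hkp κ hκ
    rw [hke] at h1
    have h2 := hσpow (kd m κ)
    have h3 : δ (X κ) = (δ (X κ) * e * (sx * sy) ^ kd m κ) * e' * (sx' * sy') ^ kd m κ := by
      linear_combination (-(δ (X κ) * ((sx * sy) ^ kd m κ * (sx' * sy') ^ kd m κ))) * he -
        (δ (X κ)) * h2
    rw [h3, ← h1]
    linear_combination ((sx * sy) ^ kd m κ * (sx' * sy') ^ kd m κ) * he + h2
  have hιg : ι g0 = e * (sx * sy) ^ 3 := by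
    change ι (kp x y ϖ hX hY' n κ * (SX x y ϖ n * SY x y n) ^ (3 - kd m κ)) = _
    rw [map_mul, map_pow, map_mul, ← hsxd, ← hsyd, hke, mul_assoc, ← pow_add]
    congr 2
    rcases hmemkp with ⟨hd, _⟩ | ⟨hd, _⟩ <;> omega
  have hσ2 : SX x y ϖ n * SY x y n ∈ 𝒜 2 :=
    SetLike.mul_mem_graded (SX_mem_graded 𝒜 π hx hy n) (SY_mem_graded 𝒜 hx hy n)
  have hdeg6 : ∀ κ', IsExc W κ' → ∀ (hm : kp x y ϖ hX hY' n κ' *
      (SX x y ϖ n * SY x y n) ^ (3 - kd m κ') ∈ T), kp x y ϖ hX hY' n κ' *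
      (SX x y ϖ n * SY x y n) ^ (3 - kd m κ') ∈ 𝒜 6 := by
    intro κ' hκ' _
    have h1 := SetLike.mul_mem_graded (kp_mem_graded 𝒜 π h h' hx hy n hκ')
      (SetLike.pow_mem_graded (3 - kd m κ') hσ2)
    have h2 : 2 * kd m κ' + (3 - kd m κ') • 2 = 6 := by
      rcases kp_mem hIn hϖT hc hc' rfl rfl n hκ' with ⟨hd, _⟩ | ⟨hd, _⟩ <;> rw [hd] <;> rfl
    rw [h2] at h1
    exact h1
  have hg6 : (g0 : A) ∈ 𝒜 6 := hdeg6 κ hκ hgT
  -- the range of the maps
  have hrC : ∀ r, φ r ∈ (bigMap 𝒜 hT Y).range := by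
    intro r
    refine mem_range_bigMap 𝒜 hT Y 0 ⟨_, T.algebraMap_mem r⟩ 1 (algebraMap_mem_zero 𝒜 r)
      (SetLike.GradedOne.one_mem) ?_ ?_
    · exact fun h1 => hY.ne_top ((Ideal.eq_top_iff_one _).mpr h1)
    · change φ r * algebraMap A L 1 = ι (algebraMap O A r)
      rw [map_one, mul_one]
      rfl
  have hrS : ∀ s, ι (sG x y ϖ s) * (sx' * sy') ∈ (bigMap 𝒜 hT Y).range := by
    intro s
    have hσι : ι (sG x y ϖ sσ) = sx * sy := by
      rw [← hsσ, map_mul, ← hsxd, ← hsyd]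
    have hk2 := kp_mem_graded 𝒜 π h h' hx hy n hκ
    rcases hmemkp with ⟨hd, h1⟩ | ⟨hd, h1⟩
    · refine mem_range_bigMap 𝒜 hT Y 6 ⟨_, h1 s sσ⟩ g0 ?_ hg6 hgy ?_
      · have h2 := SetLike.mul_mem_graded hk2 (SetLike.mul_mem_graded
          (sG_mem_graded 𝒜 π hx hy s) (sG_mem_graded 𝒜 π hx hy sσ))
        rw [hd] at h2
        exact h2
      · change ι (sG x y ϖ s) * (sx' * sy') * ι g0 =
          ι (kp x y ϖ hX hY' n κ * (sG x y ϖ s * sG x y ϖ sσ))
        rw [hιg, map_mul, map_mul, hσι, hke, hd]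
        linear_combination (ι (sG x y ϖ s) * e * (sx * sy) ^ 2) * hσσ
    · refine mem_range_bigMap 𝒜 hT Y 6 ⟨_, h1 s⟩ g0 ?_ hg6 hgy ?_
      · have h2 := SetLike.mul_mem_graded hk2 (sG_mem_graded 𝒜 π hx hy s)
        rw [hd] at h2
        exact h2
      · change ι (sG x y ϖ s) * (sx' * sy') * ι g0 =
          ι (kp x y ϖ hX hY' n κ * sG x y ϖ s)
        rw [hιg, map_mul, hke, hd]
        linear_combination (ι (sG x y ϖ s) * e * (sx * sy) ^ 2) * hσσ
  have hra : ∀ i, xL i * sx' ∈ (bigMap 𝒜 hT Y).range := by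
    intro i
    obtain ⟨s, hs⟩ := exists_sG_x x y ϖ i n
    have h1 := hrS s
    rw [← hs, map_mul, ← hsyd] at h1
    have h2 : xL i * sx' = ι (x i) * sy * (sx' * sy') := by
      change ι (x i) * sx' = _
      linear_combination (-(ι (x i) * sx')) * hsy
    rw [h2]
    exact h1
  have hrb : ∀ i, yL i * sy' ∈ (bigMap 𝒜 hT Y).range := by
    intro i
    obtain ⟨s, hs⟩ := exists_sG_y x y ϖ i n
    have h1 := hrS s
    rw [← hs, map_mul, ← hsxd] at h1
    have h2 : yL i * sy' = ι (y i) * sx * (sx' * sy') := by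
      change ι (y i) * sy' = _
      linear_combination (-(ι (y i) * sy')) * hsx
    rw [h2]
    exact h1
  have hru : sx * sy' ∈ (bigMap 𝒜 hT Y).range := by
    obtain ⟨s, hs⟩ := exists_sG_u x y ϖ n
    have h1 : ι (SX x y ϖ n ^ 2) * (sx' * sy') ∈ (bigMap 𝒜 hT Y).range := by
      rcases hs with hs | hs
      · rw [hs]
        exact hrS s
      · rw [hs, map_mul, mul_assoc]
        exact Subring.mul_mem _ (hrC π) (hrS s)
    rw [map_pow, ← hsxd] at h1
    have h2 : sx * sy' = sx ^ 2 * (sx' * sy') := by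
      linear_combination (-(sx * sy')) * hsx
    rw [h2]
    exact h1
  have hrv : φ π * sy * sx' ∈ (bigMap 𝒜 hT Y).range := by
    obtain ⟨s, hs⟩ := exists_sG_v x y ϖ n
    have h1 : ι (ϖ * SY x y n ^ 2) * (sx' * sy') ∈ (bigMap 𝒜 hT Y).range := by
      rcases hs with hs | hs
      · rw [hs]
        exact hrS s
      · rw [hs, map_mul, mul_assoc]
        exact Subring.mul_mem _ (hrC π) (hrS s)
    rw [map_mul, map_pow, ← hsyd] at h1
    have h2 : φ π * sy * sx' = ι ϖ * sy ^ 2 * (sx' * sy') := by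
      change ι ϖ * sy * sx' = _
      linear_combination (-(ι ϖ * sy * sx')) * hsy
    rw [h2]
    exact h1
  have hrbl : ∀ (M : Matrix (Fin m) (Fin m) O) (v : Fin m → L) (r : L),
      (∀ i, v i * r ∈ (bigMap 𝒜 hT Y).range) →
        bl φ M v v * r ^ 2 ∈ (bigMap 𝒜 hT Y).range := by
    intro M v r hv
    have h1 : bl φ M v v * r ^ 2 = bl φ M (fun i => r * v i) (fun i => r * v i) := by
      rw [bl_mul]; ring
    rw [h1]
    refine Subring.sum_mem _ fun i _ => Subring.sum_mem _ fun j _ => ?_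
    have h2 := hv i
    have h3 := hv j
    rw [mul_comm] at h2 h3
    exact Subring.mul_mem _ (Subring.mul_mem _ (hrC _) h2) h3
  have hre : e ∈ (bigMap 𝒜 hT Y).range := by
    have h0 : e = ι (kp x y ϖ hX hY' n κ) * (sx' * sy') ^ kd m κ := hed
    rw [h0]
    clear_value δ g0
    rcases κ with (l | l) | a
    · have h1 := hra l
      have h2 : xL l * sx' = ι (x l * SY x y n) * (sx' * sy') ^ 1 := by
        rw [map_mul, ← hsyd]
        change ι (x l) * sx' = _
        linear_combination (-(ι (x l) * sx')) * hsy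
      rw [h2] at h1
      exact h1
    · have h1 := hrb l
      have h2 : yL l * sy' = ι (y l * SX x y ϖ n) * (sx' * sy') ^ 1 := by
        rw [map_mul, ← hsxd]
        change ι (y l) * sy' = _
        linear_combination (-(ι (y l) * sy')) * hsx
      rw [h2] at h1
      exact h1
    · fin_cases a
      · exact absurd hκ (by simp [IsExc])
      · have h2 : sx * sy' = ι (SX x y ϖ n ^ 2) * (sx' * sy') ^ 1 := by
          rw [map_pow, ← hsxd]
          linear_combination (-(sx * sy')) * hsx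
        rw [h2] at hru
        exact hru
      · have h2 : φ π * sy * sx' = ι (ϖ * SY x y n ^ 2) * (sx' * sy') ^ 1 := by
          rw [map_mul, map_pow, ← hsyd]
          change ι ϖ * sy * sx' = _
          linear_combination (-(ι ϖ * sy * sx')) * hsy
        rw [h2] at hrv
        exact hrv
      · have h1 := hrbl h xL sx' hra
        have h2 : bl φ h xL xL * sx' ^ 2 = ι (hX * SY x y n ^ 2) * (sx' * sy') ^ 2 := by
          rw [map_mul, map_pow, ← hsyd, hblx]
          linear_combination (-(bl φ h xL xL * sx' ^ 2 * (sy * sy' + 1))) * hsy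
        rw [h2] at h1
        exact h1
      · have h1 := hrbl h' yL sy' hrb
        have h2 : bl φ h' yL yL * sy' ^ 2 = ι (hY' * SX x y ϖ n ^ 2) * (sx' * sy') ^ 2 := by
          rw [map_mul, map_pow, ← hsxd, hbly]
          linear_combination (-(bl φ h' yL yL * sy' ^ 2 * (sx * sx' + 1))) * hsx
        rw [h2] at h1
        exact h1
  have hrX : ∀ κ', δ (X κ') ∈ (bigMap 𝒜 hT Y).range := by
    intro κ'
    by_cases hκ' : IsExc W κ'
    · have hm : kp x y ϖ hX hY' n κ' * (SX x y ϖ n * SY x y n) ^ (3 - kd m κ') ∈ T := by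
        rcases kp_mem hIn hϖT hc hc' rfl rfl n hκ' with ⟨hd, h1⟩ | ⟨hd, h1⟩
        · rw [hd, hsσ, show 3 - 1 = 2 from rfl, pow_two]
          exact h1 _ _
        · rw [hd, hsσ, show 3 - 2 = 1 from rfl, pow_one]
          exact h1 _
      refine mem_range_bigMap 𝒜 hT Y 6 ⟨_, hm⟩ g0 (hdeg6 κ' hκ' hm) hg6 hgy ?_
      change δ (X κ') * ι g0 = ι (kp x y ϖ hX hY' n κ' * (SX x y ϖ n * SY x y n) ^ (3 - kd m κ'))
      rw [hιg, map_mul, map_pow, map_mul, ← hsxd, ← hsyd, hkp κ' hκ']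
      have h2 : (sx * sy) ^ 3 = (sx * sy) ^ kd m κ' * (sx * sy) ^ (3 - kd m κ') := by
        rw [← pow_add]
        congr 1
        rcases kp_mem hIn hϖT hc hc' rfl rfl n hκ' with ⟨hd, _⟩ | ⟨hd, _⟩ <;> omega
      rw [h2]
      ring
    · rcases κ' with (l | l) | a
      · have hl : l ∈ W := by
          by_contra hl
          exact hκ' hl
        have h1 : δ (X (Sum.inl (Sum.inl l))) = xL l * sx' :=
          dl_a_mem φ π h h' W xL yL sx sx' sy sy' e e' hl
        rw [h1]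
        exact hra l
      · have hl : l ∈ W := by
          by_contra hl
          exact hκ' hl
        have h1 : δ (X (Sum.inl (Sum.inr l))) = yL l * sy' :=
          dl_b_mem φ π h h' W xL yL sx sx' sy sy' e e' hl
        rw [h1]
        exact hrb l
      · fin_cases a
        · have h1 : δ (X (Sum.inr 0)) = e := dl_e φ π h h' W xL yL sx sx' sy sy' e e'
          change δ (X (Sum.inr 0)) ∈ _
          rw [h1]
          exact hre
        · exact absurd trivial hκ'
        · exact absurd trivial hκ'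
        · exact absurd trivial hκ'
        · exact absurd trivial hκ'
  have hrange : ∀ P, δ P ∈ (bigMap 𝒜 hT Y).range := by
    intro P
    induction P using MvPolynomial.induction_on with
    | C r =>
      rw [dC]
      exact hrC r
    | add P Q hP hQ =>
      rw [map_add]
      exact Subring.add_mem _ hP hQ
    | mul_X P κ' hP =>
      rw [map_mul]
      exact Subring.mul_mem _ hP (hrX κ')
  have hlam : (ι.comp (lamP (algebraMap O A) x y)) = lamP φ xL yL := by
    apply MvPolynomial.ringHom_ext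
    · intro r
      simp [lamP, φ]
    · rintro (i | i) <;> simp [lamP, xL, yL]
  have hlamQ : lamP φ xL yL (ramQ π q c h g k q' c' h') = 0 := by
    have h1 : ramQ π q c h g k q' c' h' ∈ RingHom.ker (lamP (algebraMap O A) x y) := by
      rw [hker]
      exact Ideal.mem_span_singleton_self _
    rw [← hlam, RingHom.comp_apply, RingHom.mem_ker.mp h1, map_zero]
  have hfδ : ∀ i, δ (ramEqs π q c h g k q' c' h' W n κ i) = 0 := by
    refine dl_ramEqs φ π h h' W xL yL sx sx' sy sy' e e' he hsx hsy H n ?_ ?_ hlamQ hδκ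
    · rw [hsxd, map_SX]
      rfl
    · rw [hsyd, map_SY]
  refine isRegularLocalRing_of_range (bigMap 𝒜 hT Y) (bigMap_injective 𝒜 hT Y) δ hrange
    (ramEqs π q c h g k q' c' h' W n κ) hfδ ?_ ?_ ?_
  · intro Q hQ hfQ s hs a hsa
    exact ram_indep hπ H n hκ Q hfQ hs a hsa
  · -- fractions
    intro z
    obtain ⟨k, a, b, ha, hb, hby, rfl⟩ := exists_frac 𝒜 hT Y z
    have hab : ((a * b ^ 5 : T) : A) ∈ 𝒜 (2 * (3 * k)) := by
      have h1 := SetLike.mul_mem_graded ha (SetLike.pow_mem_graded 5 hb)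
      have h3 : k + 5 • k = 2 * (3 * k) := by rw [smul_eq_mul]; ring
      rw [h3] at h1
      exact h1
    have hbb : ((b ^ 6 : T) : A) ∈ 𝒜 (2 * (3 * k)) := by
      have h1 := SetLike.pow_mem_graded 6 hb
      have h3 : 6 • k = 2 * (3 * k) := by rw [smul_eq_mul]; ring
      rw [h3] at h1
      exact h1
    have hgg : ((g0 ^ k : T) : A) ∈ 𝒜 (2 * (3 * k)) := by
      have h1 := SetLike.pow_mem_graded k hg6
      have h3 : k • 6 = 2 * (3 * k) := by rw [smul_eq_mul]; ring
      rw [h3] at h1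
      exact h1
    have hdiv : (3 * k + 2) / 3 = k := by omega
    obtain ⟨P, hP⟩ := ram_estimate 𝒜 π h h' W hx hy ι sx sx' sy sy' e e' he hsx hsy
      (a * b ^ 5).2 (3 * k)
    obtain ⟨Q, hQ⟩ := ram_estimate 𝒜 π h h' W hx hy ι sx sx' sy sy' e e' he hsx hsy
      (b ^ 6).2 (3 * k)
    rw [DirectSum.decompose_of_mem_same 𝒜 hab, hdiv] at hP
    rw [DirectSum.decompose_of_mem_same 𝒜 hbb, hdiv] at hQ
    have hub : IsUnit (ι b) := isUnit_algebraMap_bigLoc Y hby
    have hιab : ι ((a * b ^ 5 : T) : A) = ι a * ι b ^ 5 := by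
      rw [← map_pow, ← map_mul]; rfl
    have hιb : ι ((b ^ 6 : T) : A) = ι b ^ 6 := by
      rw [← map_pow]; rfl
    have hev : IsUnit (e ^ k * (sx * sy) ^ (3 * k)) :=
      ((IsUnit.of_mul_eq_one _ he).pow k).mul ((IsUnit.of_mul_eq_one _ hσσ).pow _)
    refine ⟨P, Q, ?_, ?_⟩
    · have h1 := bigMap_mk 𝒜 hT Y k a b ha hb hby
      apply hev.mul_left_cancel
      rw [hιab] at hP
      rw [hιb] at hQ
      calc e ^ k * (sx * sy) ^ (3 * k) *
            (bigMap 𝒜 hT Y (HomogeneousLocalization.mk ⟨k, ⟨a, ha⟩, ⟨b, hb⟩, hby⟩) * δ Q)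
          = bigMap 𝒜 hT Y (HomogeneousLocalization.mk ⟨k, ⟨a, ha⟩, ⟨b, hb⟩, hby⟩) *
            (e ^ k * (sx * sy) ^ (3 * k) * δ Q) := by ring
        _ = (bigMap 𝒜 hT Y (HomogeneousLocalization.mk ⟨k, ⟨a, ha⟩, ⟨b, hb⟩, hby⟩) * ι b) *
            ι b ^ 5 := by
            rw [← hQ]; ring
        _ = ι a * ι b ^ 5 := by rw [h1]
        _ = _ := hP
    · intro w hw
      have hb6 : b ^ 6 ∉ Y := fun h1 => hby (hY.mem_of_pow_mem _ h1)
      have hgk : g0 ^ k ∉ Y := fun h1 => hgy (hY.mem_of_pow_mem _ h1)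
      have h1 := isUnit_frac_of_notMem 𝒜 hT Y _ (b ^ 6) (g0 ^ k) hbb hgg hb6 hgk
      have h2 := bigMap_mk 𝒜 hT Y _ (b ^ 6) (g0 ^ k) hbb hgg hgk
      have h3 : w = HomogeneousLocalization.mk
          ⟨2 * (3 * k), ⟨b ^ 6, hbb⟩, ⟨g0 ^ k, hgg⟩, hgk⟩ := by
        apply bigMap_injective 𝒜 hT Y
        rw [hw]
        apply hev.mul_right_cancel
        have h4 : algebraMap A (BigLoc Y) ((g0 ^ k : T) : A) = e ^ k * (sx * sy) ^ (3 * k) := by
          have h5 : algebraMap A (BigLoc Y) ((g0 ^ k : T) : A) = ι g0 ^ k := by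
            rw [← map_pow]; rfl
          rw [h5, hιg, mul_pow, ← pow_mul]
        rw [h4] at h2
        rw [h2]
        change _ = ι ((b ^ 6 : T) : A)
        rw [hQ]
        ring
      rw [h3]
      exact h1
  · -- relations
    intro G hG
    let I := Ideal.span (Set.range (ramEqs π q c h g k q' c' h' W n κ))
    let ρ := Ideal.Quotient.mk I
    have hρ : ∀ i, ρ (ramEqs π q c h g k q' c' h' W n κ i) = 0 := fun i =>
      Ideal.Quotient.eq_zero_iff_mem.mpr (Ideal.subset_span ⟨i, rfl⟩)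
    have hρδ : ∀ {P Q}, ρ P = ρ Q → δ P = δ Q := by
      intro P Q hPQ
      have h1 : P - Q ∈ I := (Ideal.Quotient.mk_eq_mk_iff_sub_mem P Q).mp hPQ
      have h2 : I ≤ RingHom.ker δ := by
        rw [Ideal.span_le]
        rintro _ ⟨i, rfl⟩
        exact hfδ i
      have h3 : δ (P - Q) = 0 := h2 h1
      rwa [map_sub, sub_eq_zero] at h3
    obtain ⟨a, b, P, hP⟩ := exists_mu_eq n κ ρ hρ H hκ G
    obtain ⟨v, hv⟩ := exists_mu_eq_one n κ ρ hρ
    have hδP : δ (mu W P) = 0 := by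
      rw [← hρδ hP, map_mul, hG, mul_zero]
    set M := P.totalDegree with hM
    let P' : MvPolynomial (Fin m ⊕ Fin m) O :=
      ∑ i ∈ Finset.range (M + 1), X v ^ (M - i) * homogeneousComponent i P
    have hP'hom : P'.IsHomogeneous M := by
      refine IsHomogeneous.sum _ _ _ fun i hi => ?_
      have h1 := ((isHomogeneous_X O v).pow (M - i)).mul (homogeneousComponent_isHomogeneous i P)
      have h2 : 1 * (M - i) + i = M := by
        rw [Finset.mem_range] at hi
        omega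
      rwa [h2] at h1
    have hρP' : ρ (mu W P') = ρ (mu W P) := by
      have h1 : ρ (mu W P') = ∑ i ∈ Finset.range (M + 1),
          ρ (mu W (homogeneousComponent i P)) := by
        simp only [P', map_sum]
        refine Finset.sum_congr rfl fun i _ => ?_
        rw [map_mul, map_mul, map_pow, map_pow, hv, one_pow, one_mul]
      rw [h1, ← map_sum, ← map_sum, sum_homogeneousComponent]
    have hιP' : ι (lamP (algebraMap O A) x y P') = 0 := by
      rw [← RingHom.comp_apply, hlam,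
        lamP_eq φ π h h' W xL yL sx sx' sy sy' e e' he hsx hsy hP'hom]
      change sy ^ M * δ (mu W P') = 0
      rw [hρδ hρP', hδP, mul_zero]
    obtain ⟨⟨_, t, ht, rfl⟩, ht0⟩ := (IsLocalization.map_eq_zero_iff (denoms Y) L _).mp hιP'
    change (t : A) * lamP (algebraMap O A) x y P' = 0 at ht0
    have hlC : ∀ r, lamP (algebraMap O A) x y (C r) ∈ 𝒜 0 := by
      intro r
      rw [lamP, coe_eval₂Hom, eval₂_C]
      exact algebraMap_mem_zero 𝒜 r
    have hlX : ∀ i, lamP (algebraMap O A) x y (X i) ∈ 𝒜 1 := by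
      intro i
      rw [lamP, coe_eval₂Hom, eval₂_X]
      rcases i with i | i
      · exact hx i
      · exact hy i
    obtain ⟨k₀, hk₀⟩ : ∃ k, ((DirectSum.decompose (subGr 𝒜 T) t k : _) : T) ∉ Y := by
      by_contra hcon
      push Not at hcon
      apply ht
      rw [← DirectSum.sum_support_decompose (subGr 𝒜 T) t]
      exact Y.sum_mem fun i _ => hcon i
    have htk : ((DirectSum.decompose 𝒜 (t : A) k₀ : _) : A) * lamP (algebraMap O A) x y P' = 0 := by
      have h1 := mem_of_isHomogeneous' 𝒜 _ hlC hlX hP'hom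
      have h2 := DirectSum.coe_decompose_mul_of_right_mem 𝒜 (k₀ + M) h1 (a := (t : A))
      rw [ht0, if_pos (by omega), Nat.add_sub_cancel, DirectSum.decompose_zero] at h2
      exact h2.symm
    obtain ⟨τ, hτ⟩ : ∃ τ, lamP (algebraMap O A) x y τ = t := by
      have h1 : T ≤ (aeval (Sum.elim x y) : MvPolynomial (Fin m ⊕ Fin m) O →ₐ[O] A).range := by
        refine Algebra.adjoin_le ?_
        have hxr : ∀ i, x i ∈ (aeval (Sum.elim x y) : MvPolynomial (Fin m ⊕ Fin m) O →ₐ[O]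
            A).range := fun i => ⟨X (Sum.inl i), by simp⟩
        have hyr : ∀ i, y i ∈ (aeval (Sum.elim x y) : MvPolynomial (Fin m ⊕ Fin m) O →ₐ[O]
            A).range := fun i => ⟨X (Sum.inr i), by simp⟩
        have hbr : ∀ (M : Matrix (Fin m) (Fin m) O) (w : Fin m → A), (∀ i, w i ∈
            (aeval (Sum.elim x y) : MvPolynomial (Fin m ⊕ Fin m) O →ₐ[O] A).range) →
            bl (algebraMap O A) M w w ∈
              (aeval (Sum.elim x y) : MvPolynomial (Fin m ⊕ Fin m) O →ₐ[O] A).range := by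
          intro M w hw
          refine Subalgebra.sum_mem _ fun i _ => Subalgebra.sum_mem _ fun j _ => ?_
          exact Subalgebra.mul_mem _ (Subalgebra.mul_mem _ (Subalgebra.algebraMap_mem _ _) (hw i))
            (hw j)
        have hsr : ∀ s, sG x y ϖ s ∈
            (aeval (Sum.elim x y) : MvPolynomial (Fin m ⊕ Fin m) O →ₐ[O] A).range := by
          rintro ⟨a, k, l⟩
          fin_cases a
          · exact Subalgebra.mul_mem _ (hxr k) (hxr l)
          · exact Subalgebra.mul_mem _ (hxr k) (hyr l)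
          · exact Subalgebra.mul_mem _ (Subalgebra.algebraMap_mem _ _)
              (Subalgebra.mul_mem _ (hyr k) (hyr l))
        have hkr : ∀ s, kG x y ϖ hX hY' s ∈
            (aeval (Sum.elim x y) : MvPolynomial (Fin m ⊕ Fin m) O →ₐ[O] A).range := by
          rintro ⟨a, k, l⟩
          fin_cases a
          · exact Subalgebra.mul_mem _ (hxr k) (hxr l)
          · exact Subalgebra.mul_mem _ (Subalgebra.algebraMap_mem _ _)
              (Subalgebra.mul_mem _ (hyr k) (hyr l))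
          · exact Subalgebra.mul_mem _ (hxr k) (hyr l)
          · exact Subalgebra.mul_mem _ (hxr k) (hyr l)
          · exact Subalgebra.mul_mem _ (hbr h x hxr) (Subalgebra.mul_mem _ (hyr k) (hyr l))
          · exact Subalgebra.mul_mem _ (hbr h' y hyr) (Subalgebra.mul_mem _ (hxr k) (hxr l))
        rintro g (⟨s, rfl⟩ | ⟨κ, s, s', hκ, hd, rfl⟩ | ⟨κ, s, hκ, hd, rfl⟩)
        · exact Subalgebra.mul_mem _ (Subalgebra.algebraMap_mem _ _) (hsr s)
        · exact Subalgebra.mul_mem _ (hkr κ) (Subalgebra.mul_mem _ (hsr s) (hsr s'))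
        · exact Subalgebra.mul_mem _ (hkr κ) (hsr s)
      obtain ⟨τ, hτ⟩ := h1 t.2
      exact ⟨τ, hτ⟩
    refine ⟨mu W (homogeneousComponent k₀ τ) * ((eV O m * uV O m) ^ a * eV O m ^ b), ?_, ?_⟩
    · have h1 := lamP_eq φ π h h' W xL yL sx sx' sy sy' e e' he hsx hsy
        (homogeneousComponent_isHomogeneous k₀ τ)
      have h2 : lamP φ xL yL (homogeneousComponent k₀ τ) =
          algebraMap A L ((DirectSum.decompose (subGr 𝒜 T) t k₀ : _) : T) := by
        rw [← hlam, RingHom.comp_apply, ← decompose_map' 𝒜 _ hlC hlX, hτ,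
          coe_decompose_subGr 𝒜 hT t k₀]
      have h3 : IsUnit (sy ^ k₀ * δ (mu W (homogeneousComponent k₀ τ))) := by
        have h4 := isUnit_algebraMap_bigLoc Y hk₀
        rw [← h2, h1] at h4
        exact h4
      have h5 : IsUnit (δ (mu W (homogeneousComponent k₀ τ))) := isUnit_of_mul_isUnit_right h3
      have h6 : IsUnit (δ (eV O m)) := by
        have : δ (eV O m) = e := dl_e φ π h h' W xL yL sx sx' sy sy' e e'
        rw [this]
        exact IsUnit.of_mul_eq_one _ he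
      have h7 : IsUnit (δ (eV O m) * δ (uV O m)) := by
        have h8 : δ (eV O m) * δ (uV O m) = sx * sy' :=
          dl_eu φ π h h' W xL yL sx sx' sy sy' e e' he
        rw [h8]
        refine (IsUnit.of_mul_eq_one _ hsx).mul (IsUnit.of_mul_eq_one sy ?_)
        rw [mul_comm]
        exact hsy
      rw [map_mul, map_mul, map_pow, map_pow, map_mul]
      exact (h5.mul ((h7.pow a).mul (h6.pow b))).ne_zero
    · have h1 : homogeneousComponent k₀ τ * P' ∈ Ideal.span {ramQ π q c h g k q' c' h'} := by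
        rw [← hker, RingHom.mem_ker, map_mul, ← decompose_map' 𝒜 _ hlC hlX, hτ]
        exact htk
      have h2 : ρ (mu W (homogeneousComponent k₀ τ * P')) = 0 := by
        obtain ⟨r, hr⟩ := Ideal.mem_span_singleton.mp h1
        rw [hr, map_mul, map_mul, rho_mu_ramQ n κ ρ hρ H, zero_mul]
      rw [map_mul, map_mul, hρP', ← hP, ← map_mul] at h2
      have h3 := Ideal.Quotient.eq_zero_iff_mem.mp h2
      rw [mul_assoc]
      exact h3

end Reg

end Pool.Agent.Lib.MP_6a3dac_ag
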