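import Pool.Agent.Lib.MP_6a3dac_ag.QuatLatD
import Pool.Agent.Lib.MP_6a3dac_ag.RamReg
import Pool.Agent.Lib.MP_6a3dac_ag.QuatLocalIII

/-!
# Local orders of involution varieties at ramified primes: the polynomials
-/

set_option autoImplicit false
set_option linter.unusedSectionVars false

namespace Pool.Agent.Lib.MP_6a3dac_ag

open Matrix IsLocalRing MvPolynomial
open scoped Quaternion

attribute [local instance] MvPolynomial.gradedAlgebra

section Blk

variable {W : Type} [CommRing W] {m : ℕ}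

theorem blkPoly_add (M N : Matrix (Fin m ⊕ Fin m) (Fin m ⊕ Fin m) W) :
    blkPoly (M + N) = blkPoly M + blkPoly N := by
  simp only [blkPoly, Matrix.add_apply, map_add, add_mul, Finset.sum_add_distrib]

theorem blkPoly_transpose (M : Matrix (Fin m ⊕ Fin m) (Fin m ⊕ Fin m) W) :
    blkPoly Mᵀ = blkPoly M := by
  rw [blkPoly, blkPoly, Finset.sum_comm]
  refine Finset.sum_congr rfl fun v _ => Finset.sum_congr rfl fun w _ => ?_
  rw [Matrix.transpose_apply]
  ring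

theorem map_blkPoly {W' : Type} [CommRing W'] (f : W →+* W')
    (M : Matrix (Fin m ⊕ Fin m) (Fin m ⊕ Fin m) W) :
    MvPolynomial.map f (blkPoly M) = blkPoly (M.map f) := by
  simp only [blkPoly, map_sum, map_mul, MvPolynomial.map_C, MvPolynomial.map_X, Matrix.map_apply]

theorem ramQ_eq_blkPoly (π : W) (q c h g k q' c' h' : Matrix (Fin m) (Fin m) W) :
    ramQ π q c h g k q' c' h' = blkPoly (fromBlocks (q + c + h) (g + π • k) 0
      (π • (q' + c' + h'))) := by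
  rw [blkPoly_fromBlocks, ramQ, bl, bl, bl, Finset.mul_sum]
  simp only [Finset.sum_add_distrib, Matrix.zero_apply, map_zero, zero_mul, Finset.sum_const_zero,
    add_zero, Finset.mul_sum, xV, yV, Matrix.smul_apply, smul_eq_mul, C_mul, mul_assoc]

end Blk

section Rep

variable {K K₁ O₁ : Type} [Field K] [Field K₁] [Algebra K K₁] [CommRing O₁] [Algebra O₁ K₁]
  {a' b' c' : K} {ω : K₁} {σ : K₁ →+* K₁} {s : O₁ →+* O₁} {m : ℕ}
  {B C : Matrix (Fin m) (Fin m) O₁}
  (hE : QExt a' b' ω σ) (hs : ∀ z, algebraMap O₁ K₁ (s z) = σ (algebraMap O₁ K₁ z))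

include hE hs in
theorem gPoly_of_rep {M : Matrix (Fin m) (Fin m) ℍ[K,a',b',c']} {l : K} {π : O₁}
    (hπ : algebraMap K K₁ c' = algebraMap O₁ K₁ π) (hC : ∀ i j, s (C i j) = -C j i)
    (hU : mU ω M = -(algebraMap K K₁ l • C.map (algebraMap O₁ K₁)))
    (hV : mV ω M = algebraMap K K₁ l • (B + Bᵀ).map (algebraMap O₁ K₁)) :
    gPoly ω σ M = (2 * algebraMap K K₁ l) •
      blkPoly ((fromBlocks B C 0 (π • -(B.map s))).map (algebraMap O₁ K₁)) := by
  have h1 : grM π s B C = fromBlocks B C 0 (π • -(B.map s)) +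
      (fromBlocks B C 0 (π • -(B.map s)))ᵀ := by
    rw [fromBlocks_transpose, fromBlocks_add, grM, smul_add]
    congr 1
    · simp
    · simp
  rw [gPoly_eq_blkPoly, gramB_of_LRep hE hs hπ hC hU hV, blkPoly_smul, ← map_blkPoly, h1,
    blkPoly_add, blkPoly_transpose, ← two_mul, map_mul, map_ofNat, map_blkPoly,
    smul_eq_C_mul, smul_eq_C_mul, C_mul, map_ofNat]
  ring

end Rep

section Stable

variable {O₁ A : Type} [CommRing O₁] [CommRing A] [Algebra O₁ A] {m : ℕ} {s : O₁ →+* O₁} {π : O₁}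
  {h : Matrix (Fin m) (Fin m) O₁} {W : Finset (Fin m)} {x y : Fin m → A} {τ : A →+* A}
  (hsπ : s π = π) (hss : ∀ z, s (s z) = z)
  (hτr : ∀ r, τ (algebraMap O₁ A r) = algebraMap O₁ A (s r))
  (hτx : ∀ i, τ (x i) = algebraMap O₁ A π * y i) (hτy : ∀ i, τ (y i) = x i)

include hsπ hτr hτx hτy in
theorem tau_sG (t : Fin 3 × Fin m × Fin m) : ∃ t', τ (sG x y (algebraMap O₁ A π) t) =
    algebraMap O₁ A π * sG x y (algebraMap O₁ A π) t' := by
  obtain ⟨a, k, l⟩ := t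
  fin_cases a
  · refine ⟨(2, k, l), ?_⟩
    change τ (x k * x l) = algebraMap O₁ A π * (algebraMap O₁ A π * (y k * y l))
    rw [map_mul, hτx, hτx]
    ring
  · refine ⟨(1, l, k), ?_⟩
    change τ (x k * y l) = algebraMap O₁ A π * (x l * y k)
    rw [map_mul, hτx, hτy]
    ring
  · refine ⟨(0, k, l), ?_⟩
    change τ (algebraMap O₁ A π * (y k * y l)) = algebraMap O₁ A π * (x k * x l)
    rw [map_mul, map_mul, hτr, hsπ, hτy, hτy]

include hτr hτx in
theorem tau_bl_x : τ (bl (algebraMap O₁ A) h x x) =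
    -(algebraMap O₁ A π ^ 2 * bl (algebraMap O₁ A) (-(h.map s)) y y) := by
  rw [bl, bl, map_sum, Finset.mul_sum, ← Finset.sum_neg_distrib]
  refine Finset.sum_congr rfl fun i _ => ?_
  rw [map_sum, Finset.mul_sum, ← Finset.sum_neg_distrib]
  refine Finset.sum_congr rfl fun j _ => ?_
  rw [map_mul, map_mul, hτr, hτx, hτx, Matrix.neg_apply, Matrix.map_apply, map_neg]
  ring

include hss hτr hτy in
theorem tau_bl_y : τ (bl (algebraMap O₁ A) (-(h.map s)) y y) =
    -(bl (algebraMap O₁ A) h x x) := by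
  rw [bl, bl, map_sum, ← Finset.sum_neg_distrib]
  refine Finset.sum_congr rfl fun i _ => ?_
  rw [map_sum, ← Finset.sum_neg_distrib]
  refine Finset.sum_congr rfl fun j _ => ?_
  rw [map_mul, map_mul, hτr, hτy, hτy, Matrix.neg_apply, Matrix.map_apply, map_neg, hss,
    map_neg]
  ring

include hsπ hss hτr hτx hτy in
theorem tau_kG (t : Fin 6 × Fin m × Fin m) (ht : kOk W t) :
    (kDeg t = 1 ∧ ∃ t', kOk W t' ∧ kDeg t' = 1 ∧
      τ (kG x y (algebraMap O₁ A π) (bl (algebraMap O₁ A) h x x)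
        (bl (algebraMap O₁ A) (-(h.map s)) y y) t) = algebraMap O₁ A π *
      kG x y (algebraMap O₁ A π) (bl (algebraMap O₁ A) h x x)
        (bl (algebraMap O₁ A) (-(h.map s)) y y) t') ∨
    (kDeg t = 2 ∧ ∃ t', kOk W t' ∧ kDeg t' = 2 ∧
      τ (kG x y (algebraMap O₁ A π) (bl (algebraMap O₁ A) h x x)
        (bl (algebraMap O₁ A) (-(h.map s)) y y) t) = -(algebraMap O₁ A π ^ 2 *
      kG x y (algebraMap O₁ A π) (bl (algebraMap O₁ A) h x x)
        (bl (algebraMap O₁ A) (-(h.map s)) y y) t')) := by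
  have hx := tau_bl_x (h := h) (s := s) (π := π) hτr hτx
  have hy := tau_bl_y (h := h) (s := s) hss hτr hτy
  obtain ⟨a, k, l⟩ := t
  fin_cases a
  · refine Or.inl ⟨rfl, (1, k, l), trivial, rfl, ?_⟩
    change τ (x k * x l) = algebraMap O₁ A π * (algebraMap O₁ A π * (y k * y l))
    rw [map_mul, hτx, hτx]
    ring
  · refine Or.inl ⟨rfl, (0, k, l), trivial, rfl, ?_⟩
    change τ (algebraMap O₁ A π * (y k * y l)) = algebraMap O₁ A π * (x k * x l)
    rw [map_mul, map_mul, hτr, hsπ, hτy, hτy]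
  · refine Or.inl ⟨rfl, (3, l, k), ht, rfl, ?_⟩
    change τ (x k * y l) = algebraMap O₁ A π * (x l * y k)
    rw [map_mul, hτx, hτy]
    ring
  · refine Or.inl ⟨rfl, (2, l, k), ht, rfl, ?_⟩
    change τ (x k * y l) = algebraMap O₁ A π * (x l * y k)
    rw [map_mul, hτx, hτy]
    ring
  · refine Or.inr ⟨rfl, (5, k, l), trivial, rfl, ?_⟩
    change τ (bl (algebraMap O₁ A) h x x * (y k * y l)) = -(algebraMap O₁ A π ^ 2 *
      (bl (algebraMap O₁ A) (-(h.map s)) y y * (x k * x l)))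
    rw [map_mul, map_mul, hx, hτy, hτy]
    ring
  · refine Or.inr ⟨rfl, (4, k, l), trivial, rfl, ?_⟩
    change τ (bl (algebraMap O₁ A) (-(h.map s)) y y * (x k * x l)) = -(algebraMap O₁ A π ^ 2 *
      (bl (algebraMap O₁ A) h x x * (y k * y l)))
    rw [map_mul, map_mul, hy, hτx, hτx]
    ring

include hsπ hss hτr hτx hτy in
theorem ramSet_stable {K₁ : Type} [CommRing K₁] [Algebra O₁ K₁] [Algebra K₁ A]
    [IsScalarTower O₁ K₁ A] (𝒜 : ℕ → Submodule K₁ A) [GradedAlgebra 𝒜]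
    (hx : ∀ i, x i ∈ 𝒜 1) (hy : ∀ i, y i ∈ 𝒜 1) {g : A}
    (hg : g ∈ ramSet x y (algebraMap O₁ A π) (bl (algebraMap O₁ A) h x x)
      (bl (algebraMap O₁ A) (-(h.map s)) y y) W) :
    ∃ k, 0 < k ∧ g ∈ 𝒜 (2 * k) ∧ ∃ x' ∈ Algebra.adjoin O₁ (ramSet x y (algebraMap O₁ A π)
      (bl (algebraMap O₁ A) h x x) (bl (algebraMap O₁ A) (-(h.map s)) y y) W),
      τ g = (-algebraMap O₁ A π) ^ k * x' := by
  have hsub : ramSet x y (algebraMap O₁ A π)
      (bl (algebraMap O₁ A) h x x) (bl (algebraMap O₁ A) (-(h.map s)) y y) W ⊆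
      Algebra.adjoin O₁ (ramSet x y (algebraMap O₁ A π)
      (bl (algebraMap O₁ A) h x x) (bl (algebraMap O₁ A) (-(h.map s)) y y) W) :=
    Algebra.subset_adjoin
  have sS := tau_sG hsπ hτr hτx hτy
  have kS := tau_kG (h := h) (W := W) hsπ hss hτr hτx hτy
  rcases hg with ⟨t, rfl⟩ | ⟨κ, t, t', hκ, hd, rfl⟩ | ⟨κ, t, hκ, hd, rfl⟩
  · obtain ⟨u, hu⟩ := sS t
    refine ⟨1, one_pos, SetLike.mul_mem_graded (algebraMap_mem_zero 𝒜 π)
      (sG_mem_graded 𝒜 π hx hy t), -(algebraMap O₁ A π * sG x y (algebraMap O₁ A π) u),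
      Subalgebra.neg_mem _ (hsub (Or.inl ⟨u, rfl⟩)), ?_⟩
    rw [map_mul, hτr, hsπ, hu]
    ring
  · obtain ⟨u, hu⟩ := sS t
    obtain ⟨u', hu'⟩ := sS t'
    rcases kS κ hκ with ⟨h1, κ', hκ', hd', he⟩ | ⟨h1, _⟩
    · refine ⟨3, by norm_num, ?_, _, Subalgebra.neg_mem _
        (hsub (Or.inr (Or.inl ⟨κ', u, u', hκ', hd', rfl⟩))), ?_⟩
      · have h2 := SetLike.mul_mem_graded (kG_mem_graded 𝒜 π h (-(h.map s)) hx hy κ)
          (SetLike.mul_mem_graded (sG_mem_graded 𝒜 π hx hy t) (sG_mem_graded 𝒜 π hx hy t'))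
        rw [hd] at h2
        exact h2
      · rw [map_mul, map_mul, hu, hu', he]
        ring
    · omega
  · obtain ⟨u, hu⟩ := sS t
    rcases kS κ hκ with ⟨h1, _⟩ | ⟨h1, κ', hκ', hd', he⟩
    · omega
    · refine ⟨3, by norm_num, ?_, _, hsub (Or.inr (Or.inr ⟨κ', u, hκ', hd', rfl⟩)), ?_⟩
      · have h2 := SetLike.mul_mem_graded (kG_mem_graded 𝒜 π h (-(h.map s)) hx hy κ)
          (sG_mem_graded 𝒜 π hx hy t)
        rw [hd] at h2
        exact h2
      · rw [map_mul, hu, he]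
        ring

end Stable

end Pool.Agent.Lib.MP_6a3dac_ag
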