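import Pool.Agent.Lib.MP_6a3dac_ag.QuatRam
import Pool.Agent.Lib.MP_6a3dac_ag.QExtExist
import Pool.Agent.Lib.MP_6a3dac_ag.QuatGramB
import Pool.Agent.Lib.MP_6a3dac_ag.QuatEvenB
import Pool.Agent.Lib.MP_6a3dac_ag.QuadExtB
import Pool.Agent.Lib.MP_6a3dac_ag.QuadricModelAll

/-!
# Local orders of involution varieties at primes splitting in a quadratic subfield
-/

set_option autoImplicit false
set_option linter.unusedSectionVars false

namespace Pool.Agent.Lib.MP_6a3dac_ag

open Matrix IsDedekindDomain IsLocalRing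
open scoped Quaternion

section Star

variable {K : Type} [Field K] {a b c a' b' c' : K}

theorem algebraMap_quat (r : K) : algebraMap K ℍ[K,a,b,c] r = ⟨r, 0, 0, 0⟩ := rfl

theorem quat_add_star (d : ℍ[K,a,b,c]) :
    d + star d = algebraMap K _ (2 * d.re + b * d.imI) := by
  rw [algebraMap_quat]
  ext
  · simp
    ring
  · simp
  · simp
  · simp

theorem quat_mul_star (d : ℍ[K,a,b,c]) : ∃ n : K, d * star d = algebraMap K _ n := by
  refine ⟨d.re ^ 2 + b * d.re * d.imI - a * d.imI ^ 2 - c * d.imJ ^ 2 - b * c * d.imJ * d.imK +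
    a * c * d.imK ^ 2, ?_⟩
  rw [algebraMap_quat]
  ext <;> simp <;> ring

/-- Isomorphisms of quaternion algebras commute with the canonical involutions. -/
theorem quat_map_star (φ : ℍ[K,a',b',c'] ≃ₐ[K] ℍ[K,a,b,c]) (d : ℍ[K,a',b',c']) :
    φ (star d) = star (φ d) := by
  obtain ⟨n, hn⟩ := quat_mul_star d
  obtain ⟨n', hn'⟩ := quat_mul_star (φ d)
  have h1 := quat_add_star d
  have h2 := quat_add_star (φ d)
  set t := 2 * d.re + b' * d.imI
  set t' := 2 * (φ d).re + b * (φ d).imI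
  have e1 : star d = algebraMap K _ t - d := by rw [← h1]; abel
  have e2 : star (φ d) = algebraMap K _ t' - φ d := by rw [← h2]; abel
  rw [e1, e2, map_sub, AlgEquiv.commutes]
  congr 1
  rw [e1] at hn
  rw [e2] at hn'
  have h3 := congrArg φ hn
  rw [map_mul, map_sub, AlgEquiv.commutes, AlgEquiv.commutes] at h3
  have h4 : φ d * algebraMap K _ (t - t') = algebraMap K _ (n - n') := by
    rw [map_sub, map_sub, ← h3, ← hn']
    noncomm_ring
  by_cases ht : t - t' = 0
  · rw [sub_eq_zero.mp ht]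
  · -- then `φ d` is a scalar
    have h5 : φ d = algebraMap K _ ((n - n') / (t - t')) := by
      have h6 := congrArg (fun w => w * algebraMap K ℍ[K,a,b,c] (t - t')⁻¹) h4
      simp only [mul_assoc, ← map_mul] at h6
      rw [mul_inv_cancel₀ ht, map_one, mul_one] at h6
      rw [h6, div_eq_mul_inv]
    have h7 : d = algebraMap K _ ((n - n') / (t - t')) := by
      apply φ.injective
      rw [h5, AlgEquiv.commutes]
    have h8 : t = 2 * ((n - n') / (t - t')) := by
      change 2 * d.re + b' * d.imI = _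
      have h9 : d.re = (n - n') / (t - t') := by
        conv_lhs => rw [h7]
        simp
      have h10 : d.imI = 0 := by
        conv_lhs => rw [h7]
        simp
      rw [h9, h10]
      ring
    have h8' : t' = 2 * ((n - n') / (t - t')) := by
      change 2 * (φ d).re + b * (φ d).imI = _
      have h9 : (φ d).re = (n - n') / (t - t') := by
        conv_lhs => rw [h5]
        simp
      have h10 : (φ d).imI = 0 := by
        conv_lhs => rw [h5]
        simp
      rw [h9, h10]
      ring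
    exact absurd (sub_eq_zero.mpr (h8.trans h8'.symm)) ht

theorem quat_map_skew {m : ℕ} (φ : ℍ[K,a',b',c'] ≃ₐ[K] ℍ[K,a,b,c])
    {H : Matrix (Fin m) (Fin m) ℍ[K,a,b,c]} (hH : Hᴴ = -H) :
    (H.map φ.symm)ᴴ = -(H.map φ.symm) := by
  refine Matrix.ext fun i j => ?_
  have h1 := congrFun (congrFun hH i) j
  rw [conjTranspose_apply, Matrix.neg_apply] at h1
  rw [conjTranspose_apply, Matrix.neg_apply, Matrix.map_apply, Matrix.map_apply,
    ← quat_map_star φ.symm, h1, map_neg]

theorem quat_map_isUnit {m : ℕ} (φ : ℍ[K,a',b',c'] ≃ₐ[K] ℍ[K,a,b,c])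
    {H : Matrix (Fin m) (Fin m) ℍ[K,a,b,c]} (hH : IsUnit H) : IsUnit (H.map φ.symm) :=
  hH.map (φ.symm : ℍ[K,a,b,c] →+* ℍ[K,a',b',c']).mapMatrix

end Star

section Inst

variable {R K : Type} [CommRing R] [Field K] [Algebra R K] {a b c : K} {m : ℕ}
  (H : Matrix (Fin m) (Fin m) ℍ[K,a,b,c])

instance instIsScalarTowerQuatRing' {O : Type} [CommRing O] [Algebra R O] [Algebra O K]
    [IsScalarTower R O K] : IsScalarTower R O (QuatRing H) :=
  IsScalarTower.of_algebraMap_eq fun r => by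
    rw [IsScalarTower.algebraMap_apply R K (QuatRing H),
      IsScalarTower.algebraMap_apply O K (QuatRing H), ← IsScalarTower.algebraMap_apply R O K]

end Inst

section Local

variable {R K : Type} [CommRing R] [IsDedekindDomain R] [Field K] [CharZero K] [Algebra R K]
  [IsFractionRing R K]

/-- The properties of a generating set which we need at a prime. -/
structure QuatGood {a b c : K} {m : ℕ} (H : Matrix (Fin m) (Fin m) ℍ[K,a,b,c])
    (p : HeightOneSpectrum R) (S : Set (QuatRing H)) : Prop where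
  finite : S.Finite
  homog : ∀ x ∈ S, ∃ i, 0 < i ∧ x ∈ quatQGr H i
  full : ∀ x, ∃ r : R, r ≠ 0 ∧ r • x ∈ Algebra.adjoin R S
  reg : RegAt (quatQGr H) (locSub p.asIdeal (Algebra.adjoin R S))

variable (p : HeightOneSpectrum R) [Finite (R ⧸ p.asIdeal)] {a₀ b₀ c₀ : K} {m : ℕ}

theorem exists_localGens_dvr {O₁ K₁ : Type} [CommRing O₁] [IsDomain O₁]
    [IsDiscreteValuationRing O₁] [Finite (ResidueField O₁)] [Field K₁] [CharZero K₁]
    [Algebra O₁ K₁] [IsFractionRing O₁ K₁] {n : ℕ} (B : Matrix (Fin n) (Fin n) K₁) (hn : 0 < n)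
    (hB : (B + B.transpose).det ≠ 0) :
    ∃ F : Set (QCoord B), F.Finite ∧ (∀ x ∈ F, ∃ i, 0 < i ∧ x ∈ quadricGr B i) ∧
      (∀ a, ∃ r : O₁, r ≠ 0 ∧ r • a ∈ Algebra.adjoin O₁ F) ∧
      RegAt (quadricGr B) (Algebra.adjoin O₁ F) := by
  let P : HeightOneSpectrum O₁ := ⟨maximalIdeal O₁, inferInstance,
    IsDiscreteValuationRing.not_a_field O₁⟩
  have : Finite (O₁ ⧸ P.asIdeal) := ‹Finite (ResidueField O₁)›
  obtain ⟨F, h1, h2, h3, h4⟩ := exists_localGens B P hn hB
  refine ⟨F, h1, h2, h3, ?_⟩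
  rwa [locSub_eq_self] at h4
  intro r hr
  by_contra hcon
  exact hr hcon

theorem quat_local_split (hm : 2 ≤ m) {H : Matrix (Fin m) (Fin m) ℍ[K,a₀,b₀,c₀]}
    (hH : Hᴴ = -H) (hHu : IsUnit H) (hroot : ∀ r : K, r * r ≠ a₀ + b₀ * r) {a b : locRing K p}
    {c' : K} (φ : ℍ[K,algebraMap (locRing K p) K a,algebraMap (locRing K p) K b,c'] ≃ₐ[K]
      ℍ[K,a₀,b₀,c₀])
    (hroot' : ∀ r : K, r * r ≠ algebraMap (locRing K p) K a + algebraMap (locRing K p) K b * r)
    (hc' : c' ≠ 0) {π : locRing K p} (hπ : Irreducible π) (hb : b = 1) (ha : π ∣ a) :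
    ∃ S, QuatGood H p S := by
  classical
  have hfin := finite_residue_locRing (K := K) p
  obtain ⟨K₁, _, _, ω, σ, hE⟩ := exists_qext hroot'
  have : CharZero K₁ := charZero_of_injective_algebraMap (algebraMap K K₁).injective
  have hd : IsUnit (b ^ 2 + 4 * a) := by
    by_contra hcon
    have h1 : b ^ 2 + 4 * a ∈ maximalIdeal (locRing K p) := hcon
    obtain ⟨a', rfl⟩ := ha
    have h2 : π ∈ maximalIdeal (locRing K p) := hπ.not_isUnit
    have h3 : b ^ 2 ∈ maximalIdeal (locRing K p) := by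
      have h4 : b ^ 2 = b ^ 2 + 4 * (π * a') - 4 * a' * π := by ring
      rw [h4]
      exact Ideal.sub_mem _ h1 (Ideal.mul_mem_left _ _ h2)
    rw [hb, one_pow] at h3
    exact h3 isUnit_one
  have hdK : ω - σ ω ≠ 0 := by
    apply hE.sub_ne_zero
    rw [← map_ofNat (algebraMap (locRing K p) K) 4, ← map_pow, ← map_mul, ← map_add]
    exact (hd.map (algebraMap (locRing K p) K)).ne_zero
  have := hE.isDedekindDomain
  have := hE.isFractionRing
  obtain ⟨P, hP⟩ := hE.exists_prime_split hd hπ ha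
  have := hE.isLocalHom_kap P
  have := hE.finite_residue hd P
  have hinv := hE.invol
  set M := (1 : Matrix (Fin m) (Fin m) ℍ[K,algebraMap (locRing K p) K a,
    algebraMap (locRing K p) K b,c']) * H.map φ.symm * (1 : Matrix (Fin m) (Fin m)
      ℍ[K,algebraMap (locRing K p) K a,algebraMap (locRing K p) K b,c'])ᴴ with hM
  have hMH : M = H.map φ.symm := by rw [hM, conjTranspose_one, Matrix.one_mul, Matrix.mul_one]
  have hMs : Mᴴ = -M := by
    rw [hMH]
    exact quat_map_skew φ hH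
  have hMu : IsUnit M := by
    rw [hMH]
    exact quat_map_isUnit φ hHu
  obtain ⟨j, τ, hev, -, -, -⟩ := exists_evenMap_quad φ hroot hE.q hinv hdK hc' hE.bas
    (G := 1) (N := 1) (Matrix.one_mul 1) (Matrix.one_mul 1) H
    (q₁ := gPoly ω σ M) (u := 1) one_ne_zero (one_smul _ _).symm
    (B := blkMat (gramB ω σ M)) (by rw [gPoly_eq_blkPoly, rename_blkPoly])
  have hB := det_blkMat_gramB hE.q hinv hMs hMu
  have := isDomain_qcoord (by omega) hB
  obtain ⟨F₁, hF1, hF2, hF3, hF4⟩ := exists_localGens_dvr (O₁ := locRing K₁ P)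
    (blkMat (gramB ω σ M)) (by omega) hB
  obtain ⟨F, h1, h2, h3, h4⟩ := exists_gens_split (hE.etaleLike hd P) p.asIdeal (quatQGr H)
    (quadricGr (blkMat (gramB ω σ M))) (by rw [hE.algebraMap_omL]; exact hev) (fun o => rfl)
    (hE.irreducible_kap hd P hπ) (fun n => hE.exists_approx P hπ hb ha hP n) hF1 hF2 hF3 hF4
  exact ⟨F, h1, h2, h3, h4⟩

end Local

end Pool.Agent.Lib.MP_6a3dac_ag
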