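import Pool.Agent.Lib.MP_6a3dac_ag.QuatLatE

/-!
# Local orders of involution varieties at ramified primes
-/

set_option autoImplicit false
set_option linter.unusedSectionVars false

namespace Pool.Agent.Lib.MP_6a3dac_ag

open Matrix IsLocalRing MvPolynomial IsDedekindDomain
open scoped Quaternion

attribute [local instance] MvPolynomial.gradedAlgebra

section Prim

variable {O : Type} [CommRing O] [IsDomain O] [IsDiscreteValuationRing O] {m : ℕ} {π : O}
  {q c h g k q' c' h' : Matrix (Fin m) (Fin m) O} {W : Finset (Fin m)}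

theorem bl_eq_dot (φ : O →+* ResidueField O) (A : Matrix (Fin m) (Fin m) O)
    (v w : Fin m → ResidueField O) : bl φ A v w = v ⬝ᵥ (A.map φ) *ᵥ w := by
  simp only [bl, dotProduct, mulVec, Matrix.map_apply, Finset.mul_sum]
  refine Finset.sum_congr rfl fun i _ => Finset.sum_congr rfl fun j _ => by ring

theorem not_dvd_ramQ (hπ : Irreducible π) (H : RamForm π q c h g k q' c' h' W) (hm : 0 < m) :
    ¬ C π ∣ ramQ π q c h g k q' c' h' := by
  rintro ⟨f, hf⟩
  have hπ0 : residue O π = 0 := by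
    rw [residue_eq_zero_iff, hπ.maximalIdeal_eq]
    exact Ideal.mem_span_singleton_self π
  have key : ∀ a b : Fin m → ResidueField O,
      bl (residue O) (q + c + h) a a + bl (residue O) g a b = 0 := by
    intro a b
    have h1 := congrArg (eval₂Hom (residue O) (Sum.elim a b)) hf
    have h2 : (eval₂Hom (residue O) (Sum.elim a b)).comp C = residue O := by
      ext r
      simp
    have hx : (fun i => eval₂Hom (residue O) (Sum.elim a b) (xV O i)) = a := by
      ext i
      simp [xV]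
    have hy : (fun i => eval₂Hom (residue O) (Sum.elim a b) (yV O i)) = b := by
      ext i
      simp [yV]
    have hC : eval₂Hom (residue O) (Sum.elim a b) (C π) = 0 := by
      rw [coe_eval₂Hom, eval₂_C, hπ0]
    rw [ramQ, map_add, map_add, map_mul, map_bl, map_bl, map_bl, h2, hx, hy, map_mul, hC,
      zero_mul, zero_mul, add_zero, bl_add (A := g), bl_smul, hπ0, zero_mul, add_zero] at h1
    exact h1
  have hA : ∀ a : Fin m → ResidueField O, bl (residue O) (q + c + h) a a = 0 := by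
    intro a
    have h1 := key a 0
    rwa [bl_zero_right, add_zero] at h1
  have hg : ∀ b : Fin m → ResidueField O, (g.map (residue O)) *ᵥ b = 0 := by
    intro b
    ext i
    have h1 := key (Pi.single i 1) b
    rw [hA, zero_add, bl_single_left, one_mul] at h1
    exact h1
  have hφ : ∀ x ∈ maximalIdeal O, residue O x = 0 := fun x hx => (residue_eq_zero_iff x).mpr hx
  have hW : ∀ l, l ∈ W := by
    intro l
    by_contra hl
    exact one_ne_zero (H.radg _ (residue O) hφ (fun _ => 1) (hg _) l hl)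
  have hqch : q + c + h = h := by
    ext i j
    rw [Matrix.add_apply, Matrix.add_apply, H.q_zero i j (Or.inl (hW i)),
      H.c_zero i j (Or.inl (hW i)), zero_add, zero_add]
  rw [hqch] at hA
  have hqf : ∀ v, qf (h.map (residue O)) v = 0 := by
    intro v
    rw [qf, ← bl_eq_dot, hA]
  refine one_ne_zero (H.radh _ (residue O) hφ (fun _ => 1) ?_ (hqf _) ⟨0, hm⟩ (hW _))
  ext i
  have h1 := qf_add (h.map (residue O)) (Pi.single i 1) (fun _ => 1)
  rw [hqf, hqf, hqf, zero_add, zero_add, single_one_dotProduct] at h1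
  exact h1.symm

end Prim

section Ker

variable {O₁ K₁ : Type} [CommRing O₁] [IsDomain O₁] [IsDiscreteValuationRing O₁] [Field K₁]
  [Algebra O₁ K₁] [IsFractionRing O₁ K₁] {m : ℕ} {π : O₁}
  {q c h g k q' c' h' : Matrix (Fin m) (Fin m) O₁} {W : Finset (Fin m)}
  {B : Matrix (Fin (m + m)) (Fin (m + m)) K₁}

theorem lamP_prQ (p : MvPolynomial (Fin m ⊕ Fin m) O₁) :
    lamP (algebraMap O₁ (QCoord B)) (fun i => prQ B (X (Sum.inl i)))
      (fun i => prQ B (X (Sum.inr i))) p = prQ B (MvPolynomial.map (algebraMap O₁ K₁) p) := by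
  have h1 : lamP (algebraMap O₁ (QCoord B)) (fun i : Fin m => prQ B (X (Sum.inl i)))
      (fun i => prQ B (X (Sum.inr i))) =
      (prQ B : MvPolynomial (Fin m ⊕ Fin m) K₁ →+* QCoord B).comp
        (MvPolynomial.map (algebraMap O₁ K₁)) := by
    apply MvPolynomial.ringHom_ext
    · intro r
      rw [lamP, coe_eval₂Hom, eval₂_C, RingHom.comp_apply, MvPolynomial.map_C]
      change _ = prQ B _
      rw [prQ_C, ← IsScalarTower.algebraMap_apply]
    · intro v
      rw [lamP, coe_eval₂Hom, eval₂_X, RingHom.comp_apply, MvPolynomial.map_X]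
      rcases v with i | i <;> rfl
  rw [h1]
  rfl

theorem ker_lamP (hπ : Irreducible π) (H : RamForm π q c h g k q' c' h' W) (hm : 0 < m)
    (hB : rename finSumFinEquiv (MvPolynomial.map (algebraMap O₁ K₁)
      (ramQ π q c h g k q' c' h')) = quadPoly B) :
    RingHom.ker (lamP (algebraMap O₁ (QCoord B)) (fun i => prQ B (X (Sum.inl i)))
      (fun i => prQ B (X (Sum.inr i)))) = Ideal.span {ramQ π q c h g k q' c' h'} := by
  ext p
  rw [RingHom.mem_ker, lamP_prQ, prQ_eq_zero_iff hB, Ideal.mem_span_singleton]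
  constructor
  · intro hp
    have h1 : rename finSumFinEquiv p ∈ Ideal.span {rename finSumFinEquiv
        (ramQ π q c h g k q' c' h')} := by
      apply mem_span_of_map_mem_span (K := K₁) hπ
      · intro hdvd
        apply not_dvd_ramQ hπ H hm
        have h2 := map_dvd (rename (R := O₁) (finSumFinEquiv (m := m) (n := m)).symm) hdvd
        rwa [rename_C, rename_rename, Equiv.symm_comp_self, rename_id_apply] at h2
      · rw [Ideal.mem_span_singleton, MvPolynomial.map_rename, MvPolynomial.map_rename]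
        exact map_dvd _ hp
    rw [Ideal.mem_span_singleton] at h1
    have h2 := map_dvd (rename (R := O₁) (finSumFinEquiv (m := m) (n := m)).symm) h1
    rwa [rename_rename, rename_rename, Equiv.symm_comp_self, rename_id_apply,
      rename_id_apply] at h2
  · exact map_dvd _

end Ker

section Full

variable {O₁ K₁ : Type} [CommRing O₁] [IsDomain O₁] [IsDiscreteValuationRing O₁] [Field K₁]
  [Algebra O₁ K₁] [IsFractionRing O₁ K₁] {m : ℕ} (π : O₁)
  {h h' : Matrix (Fin m) (Fin m) O₁} {W : Finset (Fin m)}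
  {B : Matrix (Fin (m + m)) (Fin (m + m)) K₁}

theorem full_ramOrder (hπ : π ≠ 0) {k : ℕ} {x : QCoord B} (hx : x ∈ quadricGr B (2 * k)) :
    ∃ r : O₁, r ≠ 0 ∧ r • x ∈ ramOrder π h h' W (fun i => prQ B (X (Sum.inl i)))
      (fun i => prQ B (X (Sum.inr i))) := by
  set T := ramOrder π h h' W (fun i => prQ B (X (Sum.inl i)))
    (fun i => prQ B (X (Sum.inr i))) with hT
  have hsub : ramSet (fun i => prQ B (X (Sum.inl i))) (fun i => prQ B (X (Sum.inr i)))
      (algebraMap O₁ (QCoord B) π) (bl (algebraMap O₁ (QCoord B)) h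
        (fun i => prQ B (X (Sum.inl i))) (fun i => prQ B (X (Sum.inl i))))
      (bl (algebraMap O₁ (QCoord B)) h' (fun i => prQ B (X (Sum.inr i)))
        (fun i => prQ B (X (Sum.inr i)))) W ⊆ T := Algebra.subset_adjoin
  have hπT : algebraMap O₁ (QCoord B) π ∈ T := T.algebraMap_mem π
  have hpair : ∀ v w : Fin m ⊕ Fin m,
      algebraMap O₁ (QCoord B) π ^ 2 * (prQ B (X v) * prQ B (X w)) ∈ T := by
    have e1 : ∀ i j, algebraMap O₁ (QCoord B) π * (prQ B (X (Sum.inl i)) *
        prQ B (X (Sum.inl j))) ∈ T := fun i j => hsub (Or.inl ⟨(0, i, j), rfl⟩)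
    have e2 : ∀ i j, algebraMap O₁ (QCoord B) π * (prQ B (X (Sum.inl i)) *
        prQ B (X (Sum.inr j))) ∈ T := fun i j => hsub (Or.inl ⟨(1, i, j), rfl⟩)
    have e3 : ∀ i j, algebraMap O₁ (QCoord B) π * (algebraMap O₁ (QCoord B) π *
        (prQ B (X (Sum.inr i)) * prQ B (X (Sum.inr j)))) ∈ T :=
      fun i j => hsub (Or.inl ⟨(2, i, j), rfl⟩)
    intro v w
    rcases v with i | i <;> rcases w with j | j
    · rw [pow_two, mul_assoc]
      exact T.mul_mem hπT (e1 i j)
    · rw [pow_two, mul_assoc]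
      exact T.mul_mem hπT (e2 i j)
    · rw [pow_two, mul_assoc, mul_comm (prQ B (X (Sum.inr i)))]
      exact T.mul_mem hπT (e2 j i)
    · rw [pow_two, mul_assoc]
      exact e3 i j
  obtain ⟨r, hr, hrx⟩ := exists_smul_mem_adjoin (R := O₁) B (Matrix.mul_one 1) x
  have hrx' : r • x ∈ quadricGr B (2 * k) := by
    rw [← IsScalarTower.algebraMap_smul K₁ r x]
    exact Submodule.smul_mem _ _ hx
  have hF : ∀ z ∈ coordSet B (1 : Matrix (Fin (m + m)) (Fin (m + m)) K₁),
      ∃ i, z ∈ quadricGr B i := by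
    intro z hz
    rw [coordSet_one] at hz
    obtain ⟨v, rfl⟩ := hz
    exact ⟨1, prQ_mem (isHomogeneous_X _ _)⟩
  have h1 := even_adjoin (𝒜 := quadricGr B) hF hrx hrx'
  have key : ∀ z ∈ Algebra.adjoin O₁ (evenGens (quadricGr B) (coordSet B 1)),
      ∃ n : ℕ, algebraMap O₁ (QCoord B) π ^ n * z ∈ T := by
    intro z hz
    induction hz using Algebra.adjoin_induction with
    | mem z hz =>
      rcases hz with ⟨hz, l, hl⟩ | ⟨s, t, ⟨hs, _⟩, ⟨ht, _⟩, rfl⟩
      · rw [coordSet_one] at hz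
        obtain ⟨v, rfl⟩ := hz
        have h1 := DirectSum.decompose_of_mem_ne (quadricGr B) hl (j := 1) (by omega)
        rw [DirectSum.decompose_of_mem_same (quadricGr B)
          (prQ_mem (isHomogeneous_X K₁ v))] at h1
        refine ⟨0, ?_⟩
        have h2 : prQ B (X v) = 0 := h1
        change _ * prQ B (X v) ∈ T
        rw [h2, mul_zero]
        exact T.zero_mem
      · rw [coordSet_one] at hs ht
        obtain ⟨v, rfl⟩ := hs
        obtain ⟨w, rfl⟩ := ht
        exact ⟨2, hpair v w⟩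
    | algebraMap r => exact ⟨0, by rw [pow_zero, one_mul]; exact T.algebraMap_mem r⟩
    | add y z _ _ hy hz =>
      obtain ⟨n, hn⟩ := hy
      obtain ⟨n', hn'⟩ := hz
      refine ⟨n + n', ?_⟩
      have h2 : algebraMap O₁ (QCoord B) π ^ (n + n') * (y + z) =
          algebraMap O₁ (QCoord B) π ^ n' * (algebraMap O₁ (QCoord B) π ^ n * y) +
          algebraMap O₁ (QCoord B) π ^ n * (algebraMap O₁ (QCoord B) π ^ n' * z) := by ring
      rw [h2]
      exact T.add_mem (T.mul_mem (T.pow_mem hπT _) hn) (T.mul_mem (T.pow_mem hπT _) hn')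
    | mul y z _ _ hy hz =>
      obtain ⟨n, hn⟩ := hy
      obtain ⟨n', hn'⟩ := hz
      refine ⟨n + n', ?_⟩
      have h2 : algebraMap O₁ (QCoord B) π ^ (n + n') * (y * z) =
          (algebraMap O₁ (QCoord B) π ^ n * y) *
          (algebraMap O₁ (QCoord B) π ^ n' * z) := by ring
      rw [h2]
      exact T.mul_mem hn hn'
  obtain ⟨n, hn⟩ := key _ h1
  refine ⟨π ^ n * r, mul_ne_zero (pow_ne_zero n hπ) hr, ?_⟩
  have h5 : (π ^ n) • (r • x) = algebraMap O₁ (QCoord B) π ^ n * (r • x) := by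
    rw [← map_pow]
    exact Algebra.smul_def (R := O₁) (A := QCoord B) (π ^ n) (r • x)
  rw [mul_smul, h5]
  exact hn

end Full

section Aux

variable {R O O₁ K K₁ : Type} [CommRing R] [IsDomain R] [CommRing O] [IsDomain O]
  [IsDiscreteValuationRing O] [CommRing O₁] [IsDomain O₁] [IsDiscreteValuationRing O₁]
  [Finite (ResidueField O₁)] [Field K]
  [CharZero K] [Algebra R K] [Algebra R O] [Algebra O K] [IsScalarTower R O K]
  [IsFractionRing O K] [Field K₁] [CharZero K₁] [Algebra K K₁] [Algebra O₁ K₁]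
  [IsFractionRing O₁ K₁] (p : Ideal R) [p.IsPrime] [IsLocalization.AtPrime O p] {a b π : O}
  {ω : K₁} {σ : K₁ →+* K₁} (hE : QExt (algebraMap O K a) (algebraMap O K b) ω σ)
  {κ : O →+* O₁} [IsLocalHom κ] {ω₁ : O₁} (hκ : EtaleLike κ ω₁ a b)
  (hω₁ : algebraMap O₁ K₁ ω₁ = ω)
  (hcomp : ∀ o, algebraMap K K₁ (algebraMap O K o) = algebraMap O₁ K₁ (κ o)) {m : ℕ}
  {a₀ b₀ c₀ : K} (φ : ℍ[K,algebraMap O K a,algebraMap O K b,algebraMap O K π] ≃ₐ[K]
    ℍ[K,a₀,b₀,c₀]) {s : O₁ →+* O₁} (hs : ∀ z, algebraMap O₁ K₁ (s z) = σ (algebraMap O₁ K₁ z))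

include hE hκ hω₁ hcomp hs φ in
theorem quat_ram_aux (hm : 2 ≤ m) {H : Matrix (Fin m) (Fin m) ℍ[K,a₀,b₀,c₀]}
    (hH : Hᴴ = -H) (hHu : IsUnit H) (hroot : ∀ r : K, r * r ≠ a₀ + b₀ * r)
    (hπ : Irreducible π) (hπ₁ : Irreducible (κ π)) :
    ∃ F : Set (QuatRing H), F.Finite ∧ (∀ x ∈ F, ∃ i, 0 < i ∧ x ∈ quatQGr H i) ∧
      (∀ x, ∃ r : R, r ≠ 0 ∧ r • x ∈ Algebra.adjoin R F) ∧
      RegAt (quatQGr H) (locSub p (Algebra.adjoin R F)) := by
  classical
  have hinv := hE.invol
  have hinj : Function.Injective (algebraMap O₁ K₁) := IsFractionRing.injective O₁ K₁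
  have hcK : algebraMap O K π ≠ 0 := by
    rw [Ne, map_eq_zero_iff _ (IsFractionRing.injective O K)]
    exact hπ.ne_zero
  have hdK : ω - σ ω ≠ 0 := by
    apply hE.sub_ne_zero
    rw [← map_ofNat (algebraMap O K) 4, ← map_pow, ← map_mul, ← map_add, Ne,
      map_eq_zero_iff _ (IsFractionRing.injective O K)]
    exact hκ.disc.ne_zero
  have hss : ∀ z, s (s z) = z := by
    intro z
    apply hinj
    rw [hs, hs, hinv]
  have hsκ : ∀ o, s (κ o) = κ o := by
    intro o
    apply hinj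
    rw [hs, ← hcomp, hE.q.alg]
  have hH₀ : (H.map φ.symm)ᴴ = -(H.map φ.symm) := quat_map_skew φ hH
  have hH₀u : IsUnit (H.map φ.symm) := quat_map_isUnit φ hHu
  obtain ⟨q, c, h, g, k, W, ⟨l, G, N, hl, hGN, hNG, hU, hV⟩, hram⟩ :=
    exists_ramForm hE hs hπ₁ hcK (hcomp π) hH₀ hH₀u
  have hrep : LRep ω (H.map φ.symm) (q + c + h) (g + κ π • k) :=
    ⟨l, G, N, hl, hGN, hNG, hU, hV⟩
  have hskew := hrep.skew hE hs hH₀
  have hdet := hrep.det_ne hE hs (hcomp π) hH₀ hH₀u
  have hlK : 2 * algebraMap K K₁ l ≠ 0 := by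
    refine mul_ne_zero two_ne_zero ?_
    rw [Ne, map_eq_zero]
    exact hl
  have hsum : -(q.map s) + -(c.map s) + -(h.map s) = -((q + c + h).map s) := by
    ext i j
    simp only [Matrix.add_apply, Matrix.neg_apply, Matrix.map_apply, map_add]
    ring
  obtain ⟨M, hM⟩ : ∃ M : Matrix (Fin m ⊕ Fin m) (Fin m ⊕ Fin m) O₁, M =
      fromBlocks (q + c + h) (g + κ π • k) 0 (κ π • -((q + c + h).map s)) := ⟨_, rfl⟩
  have hramM : ramQ (κ π) q c h g k (-(q.map s)) (-(c.map s)) (-(h.map s)) = blkPoly M := by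
    rw [ramQ_eq_blkPoly, hsum, hM]
  obtain ⟨B, hB⟩ : ∃ B, B = blkMat (M.map (algebraMap O₁ K₁)) := ⟨_, rfl⟩
  have hrename : rename finSumFinEquiv (blkPoly (M.map (algebraMap O₁ K₁))) = quadPoly B := by
    rw [rename_blkPoly, hB]
  obtain ⟨j, τ, hev, hτj, hτp, -⟩ := exists_evenMap_quad φ hroot hE.q hinv hdK hcK hE.bas
    hGN hNG H (q₁ := blkPoly (M.map (algebraMap O₁ K₁))) hlK (by
      rw [gPoly_of_rep hE hs (hcomp π) hskew hU hV, hM]) hrename
  have hBdet : (B + Bᵀ).det ≠ 0 := by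
    rw [hB, det_blkMat]
    have h1 : M.map (algebraMap O₁ K₁) + (M.map (algebraMap O₁ K₁))ᵀ =
        (grM (κ π) s (q + c + h) (g + κ π • k)).map (algebraMap O₁ K₁) := by
      have h2 : grM (κ π) s (q + c + h) (g + κ π • k) = M + Mᵀ := by
        rw [hM, fromBlocks_transpose, fromBlocks_add, grM, smul_add]
        congr 1
        · simp
        · simp
      rw [h2]
      ext i j
      simp
    rw [h1, ← RingHom.mapMatrix_apply, ← RingHom.map_det, Ne,
      map_eq_zero_iff _ hinj]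
    exact hdet
  have := isDomain_qcoord (by omega) hBdet
  have hker := ker_lamP (K₁ := K₁) (B := B) hπ₁ hram (by omega) (by
    rw [hramM, map_blkPoly]
    exact hrename)
  have hx1 : ∀ i : Fin m, prQ B (X (Sum.inl i)) ∈ quadricGr B 1 :=
    fun i => prQ_mem (isHomogeneous_X _ _)
  have hy1 : ∀ i : Fin m, prQ B (X (Sum.inr i)) ∈ quadricGr B 1 :=
    fun i => prQ_mem (isHomogeneous_X _ _)
  have hreg := regAt_ramOrder (quadricGr B) hx1 hy1 hπ₁ hram hker
  have hτr : ∀ r, τ (algebraMap O₁ (QCoord B) r) = algebraMap O₁ (QCoord B) (s r) := by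
    intro r
    rw [IsScalarTower.algebraMap_apply O₁ K₁ (QCoord B), ← prQ_C, hτp, tauP_C, prQ_C, ← hs,
      ← IsScalarTower.algebraMap_apply]
  have hτx : ∀ i : Fin m, τ (prQ B (X (Sum.inl i))) =
      algebraMap O₁ (QCoord B) (κ π) * prQ B (X (Sum.inr i)) := by
    intro i
    rw [hτp, tauP_inl, map_mul, prQ_C, hcomp, ← IsScalarTower.algebraMap_apply]
  have hτy : ∀ i : Fin m, τ (prQ B (X (Sum.inr i))) = prQ B (X (Sum.inl i)) := by
    intro i
    rw [hτp, tauP_inr]
  have hγ : -algebraMap K K₁ (algebraMap O K π) ≠ 0 := by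
    rw [neg_ne_zero, Ne, map_eq_zero]
    exact hcK
  refine exists_gens_ram hκ p (quatQGr H) (quadricGr B) (by rw [hω₁]; exact hev) hcomp
    (σ := σ) (by rw [hω₁, hE.q.conj, map_sub, hω₁, hcomp]) (τ := τ) ?_ hγ hτj hπ₁
    (finite_ramSet _ _ _ _ _ W) ?_ ?_ hreg
  · intro w
    rw [← prQ_C, hτp, tauP_C, prQ_C]
  · intro x hx
    obtain ⟨k, hk, hxk, x', hx', he⟩ := ramSet_stable (hsκ π) hss hτr hτx hτy (quadricGr B) hx1 hy1
      hx
    refine ⟨k, hk, hxk, x', hx', ?_⟩
    rw [he, Algebra.smul_def, map_pow, map_neg, hcomp, ← IsScalarTower.algebraMap_apply]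
  · intro k x hx
    exact full_ramOrder (κ π) hπ₁.ne_zero hx

end Aux

section Conj

variable {O O₁ K K₁ : Type} [CommRing O] [IsDomain O] [IsDiscreteValuationRing O] [CommRing O₁]
  [Field K] [Algebra O K] [Field K₁] [Algebra K K₁] [Algebra O₁ K₁] [FaithfulSMul O₁ K₁]
  {a b π : O} {ω : K₁} {σ : K₁ →+* K₁} (hE : QExt (algebraMap O K a) (algebraMap O K b) ω σ)
  {κ : O →+* O₁} {ω₁ : O₁} (hκ : EtaleLike κ ω₁ a b) (hω₁ : algebraMap O₁ K₁ ω₁ = ω)
  (hcomp : ∀ o, algebraMap K K₁ (algebraMap O K o) = algebraMap O₁ K₁ (κ o))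

include hE hκ hω₁ hcomp in
/-- The conjugation restricts to the local ring in the inert case. -/
theorem exists_conj_aux (hπ : Irreducible π) (hπ₁ : ¬ IsUnit (κ π))
    (hin : ∀ x y : O, π ∣ x ^ 2 + b * x * y - a * y ^ 2 → π ∣ x ∧ π ∣ y) :
    ∃ s : O₁ →+* O₁, ∀ z, algebraMap O₁ K₁ (s z) = σ (algebraMap O₁ K₁ z) := by
  have hinj := FaithfulSMul.algebraMap_injective O₁ K₁
  have hσκ : ∀ o, σ (algebraMap O₁ K₁ (κ o)) = algebraMap O₁ K₁ (κ o) := by
    intro o
    rw [← hcomp, hE.q.alg]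
  have hσω : σ (algebraMap O₁ K₁ ω₁) = algebraMap O₁ K₁ (κ b - ω₁) := by
    rw [hω₁, hE.q.conj, map_sub, hω₁, hcomp]
  obtain ⟨s, hs⟩ := exists_lift_of_range_le (algebraMap O₁ K₁) hinj (σ.comp (algebraMap O₁ K₁))
    (by
      intro z
      obtain ⟨p, q, d, e, hu, hz⟩ := hκ.frac z
      have hnorm : (κ p + ω₁ * κ q) * (κ p + (κ b - ω₁) * κ q) =
          κ (p ^ 2 + b * p * q - a * q ^ 2) := by
        simp only [map_sub, map_add, map_mul, map_pow]
        linear_combination (-(κ q) ^ 2) * hκ.om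
      have hn : IsUnit (p ^ 2 + b * p * q - a * q ^ 2) := by
        by_contra hcon
        have h1 : p ^ 2 + b * p * q - a * q ^ 2 ∈ maximalIdeal O := hcon
        rw [hπ.maximalIdeal_eq, Ideal.mem_span_singleton] at h1
        obtain ⟨⟨p', rfl⟩, ⟨q', rfl⟩⟩ := hin p q h1
        apply hπ₁
        have h2 : κ (π * p') + ω₁ * κ (π * q') = κ π * (κ p' + ω₁ * κ q') := by
          rw [map_mul, map_mul]
          ring
        rw [h2] at hu
        exact isUnit_of_mul_isUnit_left hu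
      have hw : IsUnit (κ p + (κ b - ω₁) * κ q) := by
        have h1 := hn.map κ
        rw [← hnorm] at h1
        exact isUnit_of_mul_isUnit_right h1
      obtain ⟨w, hw'⟩ := hw.exists_left_inv
      refine ⟨w * (κ d + (κ b - ω₁) * κ e), ?_⟩
      have h1 := congrArg (fun t => σ (algebraMap O₁ K₁ t)) hz
      simp only [map_mul, map_add, hσκ, hσω] at h1
      have h2 := congrArg (algebraMap O₁ K₁) hw'
      rw [map_mul, map_one, map_add, map_mul] at h2
      rw [map_mul, map_add, map_mul, ← h1, RingHom.comp_apply]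
      linear_combination (σ (algebraMap O₁ K₁ z)) * h2)
  exact ⟨s, fun z => hs z⟩

end Conj

section Local

variable {R K : Type} [CommRing R] [IsDedekindDomain R] [Field K] [CharZero K] [Algebra R K]
  [IsFractionRing R K]

/-- **Local orders at ramified primes.** -/
theorem quat_local_ram (p : HeightOneSpectrum R) [Finite (R ⧸ p.asIdeal)] {a₀ b₀ c₀ : K} {m : ℕ}
    (hm : 2 ≤ m) {H : Matrix (Fin m) (Fin m) ℍ[K,a₀,b₀,c₀]}
    (hH : Hᴴ = -H) (hHu : IsUnit H) (hroot : ∀ r : K, r * r ≠ a₀ + b₀ * r)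
    {a b π : locRing K p} (φ : ℍ[K,algebraMap (locRing K p) K a,algebraMap (locRing K p) K b,
      algebraMap (locRing K p) K π] ≃ₐ[K] ℍ[K,a₀,b₀,c₀])
    (hroot' : ∀ r : K, r * r ≠ algebraMap (locRing K p) K a + algebraMap (locRing K p) K b * r)
    (hπ : Irreducible π) (hd : IsUnit (b ^ 2 + 4 * a))
    (hin : ∀ x y : locRing K p, π ∣ x ^ 2 + b * x * y - a * y ^ 2 → π ∣ x ∧ π ∣ y) :
    ∃ S, QuatGood H p S := by
  have hfin := finite_residue_locRing (K := K) p
  obtain ⟨K₁, _, _, ω, σ, hE⟩ := exists_qext hroot'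
  have : CharZero K₁ := charZero_of_injective_algebraMap (algebraMap K K₁).injective
  have := hE.isDedekindDomain
  have := hE.isFractionRing
  obtain ⟨P⟩ := exists_prime_any hE hd
  have := hE.isLocalHom_kap P
  have := hE.finite_residue hd P
  obtain ⟨s, hs⟩ := exists_conj_aux hE (hE.etaleLike hd P) (hE.algebraMap_omL P) (fun o => rfl)
    hπ (hE.irreducible_kap hd P hπ).not_isUnit hin
  obtain ⟨F, h1, h2, h3, h4⟩ := quat_ram_aux (R := R) (O := locRing K p) (O₁ := locRing K₁ P)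
    p.asIdeal hE (hE.etaleLike hd P) (hE.algebraMap_omL P) (fun o => rfl) φ hs hm hH hHu hroot hπ
    (hE.irreducible_kap hd P hπ)
  exact ⟨F, h1, h2, h3, h4⟩

end Local

end Pool.Agent.Lib.MP_6a3dac_ag
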