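import Pool.Agent.Lib.MP_6a3dac_ag.QuatThetaC

/-!
# Presentations of quaternion division algebras over local rings
-/

set_option autoImplicit false
set_option linter.unusedSectionVars false

namespace Pool.Agent.Lib.MP_6a3dac_ag

open Matrix IsLocalRing
open scoped Quaternion

section Alg

variable {K : Type} [Field K] [CharZero K] {a b c : K}

theorem nrd_comb (θ : ℍ[K,a,b,c]) (x y : K) : nrd (algebraMap K _ x + y • θ) =
    x ^ 2 + trd θ * x * y + nrd θ * y ^ 2 := by
  simp [nrd, trd]
  ring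

theorem trd_comb (θ : ℍ[K,a,b,c]) (x y : K) : trd (algebraMap K _ x + y • θ) =
    2 * x + trd θ * y := by
  simp [trd]
  ring

theorem nrd_one_add (J : ℍ[K,a,b,c]) : nrd (1 + J) = 1 + trd J + nrd J := by
  simp [nrd, trd]
  ring

theorem not_scalar {θ : ℍ[K,a,b,c]} (h : trd θ ^ 2 - 4 * nrd θ ≠ 0) (r : K) :
    θ ≠ algebraMap K _ r := by
  rintro rfl
  apply h
  rw [trd_algebraMap, nrd_algebraMap]
  ring

/-- Elements anticommuting with `θ` up to conjugation have trace zero. -/
theorem trd_eq_zero {θ J : ℍ[K,a,b,c]} {T : K} (hT : trd θ = T)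
    (hd : T ^ 2 - 4 * nrd θ ≠ 0) (hJ : J * θ = T • J - θ * J) :
    trd J = 0 ∧ trd (θ * J) = 0 := by
  have h2 : (2 : K) ≠ 0 := two_ne_zero
  have e1 : 2 * trd (θ * J) = T * trd J := by
    have h3 := congrArg trd hJ
    have h4 : T • J - θ * J = T • J + (-1 : K) • (θ * J) := by
      rw [neg_smul, one_smul, sub_eq_add_neg]
    rw [h4, trd_add, trd_smul, trd_smul, trd_mul_comm] at h3
    linear_combination h3
  have e2 : T * trd (θ * J) = 2 * (nrd θ * trd J) := by
    have h3 : θ * (J * θ) = θ * (T • J - θ * J) := by rw [hJ]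
    have h5 : trd (θ * (J * θ)) = trd (θ * θ * J) := by
      rw [← mul_assoc, trd_mul_comm, ← mul_assoc]
    have h6 : trd (θ * θ * J) = -nrd θ * trd J + T * trd (θ * J) := by
      rw [mul_self_eq, hT, add_mul, smul_mul_assoc, one_mul, smul_mul_assoc, trd_add, trd_smul,
        trd_smul]
    have h7 : θ * (T • J - θ * J) = T • (θ * J) + (-1 : K) • (θ * θ * J) := by
      rw [mul_sub, mul_smul_comm, neg_smul, one_smul, ← sub_eq_add_neg, mul_assoc]
    have h8 := congrArg trd h3
    rw [h5, h7, trd_add, trd_smul, trd_smul, h6] at h8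
    linear_combination h8
  have e3 : trd J = 0 := by
    apply (mul_eq_zero.mp (_ : (T ^ 2 - 4 * nrd θ) * trd J = 0)).resolve_left hd
    linear_combination (-T) * e1 + 2 * e2
  refine ⟨e3, ?_⟩
  rw [e3, mul_zero] at e1
  exact (mul_eq_zero.mp e1).resolve_left h2

end Alg

section Local

variable {O K : Type} [CommRing O] [IsDomain O] [IsDiscreteValuationRing O]
  [Finite (ResidueField O)] [Field K] [CharZero K] [Algebra O K] [IsFractionRing O K] {a b c : K}

/-- The first case. -/
theorem local_case_one (hD : ∀ x : ℍ[K,a,b,c], x ≠ 0 → IsUnit x) {π : O} (hπ : Irreducible π)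
    {θ : ℍ[K,a,b,c]} {N : O} (hT : trd θ = 1) (hN : nrd θ = algebraMap O K N) (hπN : π ∣ N) :
    ∃ (A : O) (C : K), π ∣ A ∧ C ≠ 0 ∧
      Nonempty (ℍ[K,algebraMap O K A,algebraMap O K 1,C] ≃ₐ[K] ℍ[K,a,b,c]) := by
  have hinj := IsFractionRing.injective O K
  have hd : trd θ ^ 2 - 4 * nrd θ ≠ 0 := by
    intro h
    rw [hT, hN, ← map_ofNat (algebraMap O K) 4, ← map_one (algebraMap O K), ← map_pow, ← map_mul,
      ← map_sub, map_eq_zero_iff _ hinj] at h
    apply hπ.not_isUnit
    obtain ⟨N', rfl⟩ := hπN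
    exact IsUnit.of_mul_eq_one (4 * N') (by linear_combination -h)
  have hθ : θ * θ = (algebraMap O K (-N)) • (1 : ℍ[K,a,b,c]) + (algebraMap O K 1) • θ := by
    rw [mul_self_eq, hT, hN, map_neg, map_one]
  obtain ⟨J, C, hJ0, hC, hJJ, hJθ⟩ := exists_presentation hD hθ (not_scalar hd)
  exact ⟨-N, C, (dvd_neg).mpr hπN, hC, exists_iso_of_theta hD hθ hJJ hJθ (not_scalar hd) hJ0⟩

/-- **The two kinds of local presentations of a quaternion division algebra.** -/
theorem exists_local_case (hD : ∀ x : ℍ[K,a,b,c], x ≠ 0 → IsUnit x) :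
    (∃ (π A : O) (C : K), Irreducible π ∧ π ∣ A ∧ C ≠ 0 ∧
      Nonempty (ℍ[K,algebraMap O K A,algebraMap O K 1,C] ≃ₐ[K] ℍ[K,a,b,c])) ∨
    ∃ (π A B : O), Irreducible π ∧ IsUnit (B ^ 2 + 4 * A) ∧
      (∀ x y : O, π ∣ x ^ 2 + B * x * y - A * y ^ 2 → π ∣ x ∧ π ∣ y) ∧
      Nonempty (ℍ[K,algebraMap O K A,algebraMap O K B,algebraMap O K π] ≃ₐ[K] ℍ[K,a,b,c]) := by
  obtain ⟨π, hπ⟩ := IsDiscreteValuationRing.exists_irreducible O
  have hinj := IsFractionRing.injective O K
  obtain ⟨θ, T, N, hT, hN, hdu⟩ := exists_theta (O := O) hD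
  have hπK : algebraMap O K π ≠ 0 := by
    rw [Ne, map_eq_zero_iff _ hinj]
    exact hπ.ne_zero
  have hdisc : trd θ ^ 2 - 4 * nrd θ ≠ 0 := by
    rw [hT, hN, ← map_ofNat (algebraMap O K) 4, ← map_pow, ← map_mul, ← map_sub, Ne,
      map_eq_zero_iff _ hinj]
    exact hdu.ne_zero
  have hunit : ∀ x : O, ¬ π ∣ x → IsUnit x := by
    intro x hx
    by_contra hcon
    have h1 : x ∈ maximalIdeal O := hcon
    rw [hπ.maximalIdeal_eq, Ideal.mem_span_singleton] at h1
    exact hx h1
  by_cases hroot : ∃ r : O, π ∣ r ^ 2 - T * r + N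
  · -- the split case
    obtain ⟨r, hr⟩ := hroot
    left
    have hδ : IsUnit (T - 2 * r) := by
      by_contra hcon
      have h1 : T - 2 * r ∈ maximalIdeal O := hcon
      rw [hπ.maximalIdeal_eq, Ideal.mem_span_singleton] at h1
      apply hπ.not_isUnit
      have h2 : π ∣ T ^ 2 - 4 * N := by
        have h3 : T ^ 2 - 4 * N = (T - 2 * r) * (T - 2 * r) - 4 * (r ^ 2 - T * r + N) := by ring
        rw [h3]
        exact dvd_sub (Dvd.dvd.mul_right h1 _) (Dvd.dvd.mul_left hr _)
      exact isUnit_of_dvd_unit h2 hdu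
    obtain ⟨δ', hδ'⟩ := hδ.exists_right_inv
    have hδK : (algebraMap O K T - 2 * algebraMap O K r) * algebraMap O K δ' = 1 := by
      have h1 := congrArg (algebraMap O K) hδ'
      simpa only [map_mul, map_sub, map_ofNat, map_one] using h1
    obtain ⟨A, C, h1, h2, h3⟩ := local_case_one hD hπ
      (θ := algebraMap K _ (-(algebraMap O K r * algebraMap O K δ')) + algebraMap O K δ' • θ)
      (N := δ' ^ 2 * (r ^ 2 - T * r + N)) (by
        rw [trd_comb, hT]
        linear_combination hδK) (by
        rw [nrd_comb, hT, hN]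
        simp only [map_mul, map_add, map_sub, map_pow]
        ring) (Dvd.dvd.mul_left hr _)
    exact ⟨π, A, C, hπ, h1, h2, h3⟩
  · push Not at hroot
    have hθ : θ * θ = (algebraMap O K (-N)) • (1 : ℍ[K,a,b,c]) + (algebraMap O K T) • θ := by
      rw [mul_self_eq, hT, hN, map_neg]
    obtain ⟨J, C, hJ0, hC, hJJ, hJθ⟩ := exists_presentation hD hθ (not_scalar hdisc)
    -- scale the second generator
    have hscale : ∀ r : K, r ≠ 0 → r • J ≠ 0 ∧ (r • J) * (r • J) = (r ^ 2 * C) • 1 ∧
        (r • J) * θ = algebraMap O K T • (r • J) - θ * (r • J) := by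
      intro r hr
      refine ⟨smul_ne_zero hr hJ0, ?_, ?_⟩
      · rw [smul_mul_smul_comm, hJJ, smul_smul, pow_two]
      · rw [smul_mul_assoc, hJθ, smul_sub, smul_comm, mul_smul_comm]
    obtain ⟨r, z, hr0, hz, hzu⟩ : ∃ (r : K) (z : O), r ≠ 0 ∧ r ^ 2 * C = algebraMap O K z ∧
        (IsUnit z ∨ Irreducible z) := by
      obtain ⟨x, y, hy, hxy⟩ := IsFractionRing.div_surjective (A := O) C
      have hy0 : y ≠ 0 := nonZeroDivisors.ne_zero hy
      have hyK : algebraMap O K y ≠ 0 := by
        rw [Ne, map_eq_zero_iff _ hinj]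
        exact hy0
      have hx0 : x ≠ 0 := by
        rintro rfl
        rw [map_zero, zero_div] at hxy
        exact hC hxy.symm
      obtain ⟨n, u, hu⟩ := IsDiscreteValuationRing.eq_unit_mul_pow_irreducible
        (mul_ne_zero hx0 hy0) hπ
      have hCy : algebraMap O K y ^ 2 * C = algebraMap O K (x * y) := by
        rw [← hxy, map_mul]
        field_simp
      rcases Nat.even_or_odd' n with ⟨k, rfl | rfl⟩
      · refine ⟨(algebraMap O K π ^ k)⁻¹ * algebraMap O K y, u,
          mul_ne_zero (inv_ne_zero (pow_ne_zero _ hπK)) hyK, ?_, Or.inl u.isUnit⟩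
        rw [mul_pow, mul_assoc, hCy, hu, map_mul, map_pow, pow_mul']
        field_simp
      · refine ⟨(algebraMap O K π ^ k)⁻¹ * algebraMap O K y, u * π,
          mul_ne_zero (inv_ne_zero (pow_ne_zero _ hπK)) hyK, ?_, Or.inr ?_⟩
        · rw [mul_pow, mul_assoc, hCy, hu, map_mul, map_mul, map_pow,
            pow_succ (algebraMap O K π) (2 * k), pow_mul']
          field_simp
        · exact (irreducible_units_mul u).mpr hπ
    obtain ⟨hJ0', hJJ', hJθ'⟩ := hscale r hr0
    rw [hz] at hJJ'
    set J₂ := r • J with hJ₂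
    rcases hzu with hzu | hzi
    · -- the algebra is split
      left
      have hπ0 : ∀ x : O, residue O x = 0 ↔ π ∣ x := by
        intro x
        rw [residue_eq_zero_iff, hπ.maximalIdeal_eq, Ideal.mem_span_singleton]
      have hzres : residue O z ≠ 0 := (hzu.map (residue O)).ne_zero
      have hdres : residue O T ^ 2 - 4 * residue O N ≠ 0 := by
        have h1 := (hdu.map (residue O)).ne_zero
        simpa only [map_sub, map_pow, map_mul, map_ofNat] using h1
      obtain ⟨x₀, y₀, hxy⟩ := exists_norm_eq hdres (residue O z)⁻¹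
      obtain ⟨x, rfl⟩ := residue_surjective x₀
      obtain ⟨y, rfl⟩ := residue_surjective y₀
      have hnw : π ∣ 1 - (x ^ 2 + T * x * y + N * y ^ 2) * z := by
        rw [← hπ0]
        simp only [map_sub, map_one, map_mul, map_add, map_pow]
        rw [hxy, inv_mul_cancel₀ hzres, sub_self]
      obtain ⟨δ, hδ⟩ := hdu.exists_right_inv
      have hδK : (algebraMap O K T ^ 2 - 4 * algebraMap O K N) * algebraMap O K δ = 1 := by
        have h1 := congrArg (algebraMap O K) hδ
        simpa only [map_mul, map_sub, map_pow, map_ofNat, map_one] using h1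
      -- the new elements
      obtain ⟨w, hw⟩ : ∃ w, w = algebraMap K ℍ[K,a,b,c] (algebraMap O K x) +
        algebraMap O K y • θ := ⟨_, rfl⟩
      obtain ⟨v, hv⟩ : ∃ v, v = algebraMap K ℍ[K,a,b,c] (-2 * algebraMap O K N *
        algebraMap O K δ) + (algebraMap O K T * algebraMap O K δ) • θ := ⟨_, rfl⟩
      have hcomm : ∀ (p q : K), θ * (algebraMap K ℍ[K,a,b,c] p + q • θ) =
          (algebraMap K ℍ[K,a,b,c] p + q • θ) * θ := by
        intro p q
        rw [mul_add, add_mul, ← Algebra.commutes, mul_smul_comm, smul_mul_assoc]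
      have hwθ : (w * J₂) * θ = algebraMap O K T • (w * J₂) - θ * (w * J₂) := by
        rw [mul_assoc, hJθ', mul_sub, mul_smul_comm, ← mul_assoc, ← mul_assoc, hw, hcomm]
      obtain ⟨t1, t2⟩ := trd_eq_zero hT (by rw [← hT]; exact hdisc) hwθ
      obtain ⟨t3, -⟩ := trd_eq_zero hT (by rw [← hT]; exact hdisc) hJθ'
      have hnJ : nrd J₂ = -algebraMap O K z := by
        have h1 := mul_self_eq J₂
        rw [t3, zero_smul, add_zero, hJJ'] at h1
        have h2 : algebraMap K ℍ[K,a,b,c] (algebraMap O K z) = algebraMap K _ (-nrd J₂) := by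
          rw [Algebra.algebraMap_eq_smul_one (R := K) (A := ℍ[K,a,b,c]) (algebraMap O K z),
            Algebra.algebraMap_eq_smul_one (R := K) (A := ℍ[K,a,b,c]) (-nrd J₂)]
          exact h1
        have h3 := (algebraMap K ℍ[K,a,b,c]).injective h2
        rw [h3, neg_neg]
      have hnJ₃ : nrd (w * J₂) = -((algebraMap O K x ^ 2 + algebraMap O K T * algebraMap O K x *
          algebraMap O K y + algebraMap O K N * algebraMap O K y ^ 2) * algebraMap O K z) := by
        rw [nrd_mul, hnJ, hw, nrd_comb, hT, hN]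
        ring
      obtain ⟨A, C', h1, h2, h3⟩ := local_case_one hD hπ
        (θ := v * (1 + w * J₂))
        (N := ((-2 * N * δ) ^ 2 + T * (-2 * N * δ) * (T * δ) + N * (T * δ) ^ 2) *
          (1 - (x ^ 2 + T * x * y + N * y ^ 2) * z)) (by
          rw [mul_add, mul_one, trd_add]
          have h4 : trd v = 1 := by
            rw [hv, trd_comb, hT]
            linear_combination hδK
          have h5 : trd (v * (w * J₂)) = 0 := by
            rw [hv, add_mul, ← Algebra.smul_def, smul_mul_assoc, trd_add, trd_smul, trd_smul, t1,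
              t2, mul_zero, mul_zero, add_zero]
          rw [h4, h5, add_zero]) (by
          rw [nrd_mul, nrd_one_add, t1, hnJ₃, hv, nrd_comb, hT, hN]
          simp only [map_mul, map_add, map_sub, map_pow, map_neg, map_ofNat, map_one]
          ring) (Dvd.dvd.mul_left hnw _)
      exact ⟨π, A, C', hπ, h1, h2, h3⟩
    · -- the ramified case
      right
      have hzdvd : ∀ x : O, z ∣ x ↔ π ∣ x := by
        intro x
        rw [← Ideal.mem_span_singleton, ← Ideal.mem_span_singleton, ← hπ.maximalIdeal_eq,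
          ← hzi.maximalIdeal_eq]
      refine ⟨z, -N, T, hzi, ?_, ?_, exists_iso_of_theta hD hθ hJJ' hJθ' (not_scalar hdisc) hJ0'⟩
      · have h1 : T ^ 2 + 4 * -N = T ^ 2 - 4 * N := by ring
        rw [h1]
        exact hdu
      · intro x y hxy
        rw [hzdvd] at hxy
        rw [hzdvd, hzdvd]
        have hy : π ∣ y := by
          by_contra hy
          obtain ⟨y', hy'⟩ := (hunit y hy).exists_right_inv
          apply hroot (-(x * y'))
          have h1 : (-(x * y')) ^ 2 - T * (-(x * y')) + N =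
              y' ^ 2 * (x ^ 2 + T * x * y - -N * y ^ 2) := by
            linear_combination (-(T * x * y') - N * (y * y' + 1)) * hy'
          rw [h1]
          exact Dvd.dvd.mul_left hxy _
        refine ⟨?_, hy⟩
        obtain ⟨y', rfl⟩ := hy
        have h1 : π ∣ x ^ 2 := by
          have h2 : x ^ 2 = (x ^ 2 + T * x * (π * y') - -N * (π * y') ^ 2) -
              π * (T * x * y' + N * π * y' ^ 2) := by ring
          rw [h2]
          exact dvd_sub hxy (dvd_mul_right _ _)
        exact hπ.prime.dvd_of_dvd_pow h1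

end Local

end Pool.Agent.Lib.MP_6a3dac_ag
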