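import Pool.Agent.Lib.MP_6a3dac_ag.QuatGoodAe
import Pool.Agent.Lib.MP_6a3dac_ag.QuatLocalII
import Pool.Agent.Lib.MP_6a3dac_ag.QuatThetaD

/-!
# Regular proper flat models of involution varieties of quaternionic skew-Hermitian forms
-/

set_option autoImplicit false
set_option linter.unusedSectionVars false

namespace Pool.Agent.Lib.MP_6a3dac_ag

open CategoryTheory Limits AlgebraicGeometry IsDedekindDomain MvPolynomial IsLocalRing Matrix
open scoped Quaternion

section Full

variable {R K A : Type} [CommRing R] [IsDomain R] [Field K] [CommRing A] [Algebra R K]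
  [IsFractionRing R K] [Algebra K A] [Algebra R A] [IsScalarTower R K A]

/-- Clearing denominators. -/
theorem full_of_adjoin_eq_top {S : Set A} (hS : Algebra.adjoin K S = ⊤) (x : A) :
    ∃ r : R, r ≠ 0 ∧ r • x ∈ Algebra.adjoin R S := by
  have hx : x ∈ Algebra.adjoin K S := by
    rw [hS]
    trivial
  induction hx using Algebra.adjoin_induction with
  | mem x hx => exact ⟨1, one_ne_zero, by rw [one_smul]; exact Algebra.subset_adjoin hx⟩
  | algebraMap k =>
    obtain ⟨u, v, hv, rfl⟩ := IsFractionRing.div_surjective (A := R) k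
    refine ⟨v, nonZeroDivisors.ne_zero hv, ?_⟩
    have hvK : algebraMap R K v ≠ 0 := by
      rw [Ne, FaithfulSMul.algebraMap_eq_zero_iff]
      exact nonZeroDivisors.ne_zero hv
    have h1 : v • algebraMap K A (algebraMap R K u / algebraMap R K v) = algebraMap R A u := by
      rw [Algebra.smul_def, IsScalarTower.algebraMap_apply R K A v, ← map_mul,
        mul_div_cancel₀ _ hvK, ← IsScalarTower.algebraMap_apply]
    rw [h1]
    exact Subalgebra.algebraMap_mem _ u
  | add x y _ _ hx hy =>
    obtain ⟨r, hr, h1⟩ := hx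
    obtain ⟨r', hr', h2⟩ := hy
    refine ⟨r * r', mul_ne_zero hr hr', ?_⟩
    rw [smul_add, mul_comm r r', mul_smul, mul_comm r' r, mul_smul]
    exact Subalgebra.add_mem _ (Subalgebra.smul_mem _ h1 _) (Subalgebra.smul_mem _ h2 _)
  | mul x y _ _ hx hy =>
    obtain ⟨r, hr, h1⟩ := hx
    obtain ⟨r', hr', h2⟩ := hy
    refine ⟨r * r', mul_ne_zero hr hr', ?_⟩
    rw [mul_smul_mul_comm]
    exact Subalgebra.mul_mem _ h1 h2

end Full

section Inst

/-- Submodules are closed under subtraction. -/
instance instAddSubgroupClassQuat {K A : Type} [Field K] [CommRing A] [Algebra K A] :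
    AddSubgroupClass (Submodule K A) A := inferInstance

end Inst

section Std

variable {K : Type} [Field K] {a b c : K} {m : ℕ}

theorem quatP_basis (i k : Fin m) (d : ℍ[K,a,b,c]) : quatP i k d =
    d.re • quatP i k (quatBasis a b c 0) + d.imI • quatP i k (quatBasis a b c 1) +
      d.imJ • quatP i k (quatBasis a b c 2) + d.imK • quatP i k (quatBasis a b c 3) := by
  have h2 : d = d.re • quatBasis a b c 0 + d.imI • quatBasis a b c 1 +
      d.imJ • quatBasis a b c 2 + d.imK • quatBasis a b c 3 := by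
    ext <;> simp [quatBasis]
  have h3 : ∀ (r : K) (e : ℍ[K,a,b,c]), quatP i k (r • e) = r • quatP i k e := by
    intro r e
    rw [quatP_eq, quatP_eq, gQ_smul qdata_qw, Algebra.smul_def]
    rfl
  have h4 : ∀ d e : ℍ[K,a,b,c], quatP i k (d + e) = quatP i k d + quatP i k e := by
    intro d e
    rw [quatP_eq, quatP_eq, quatP_eq, gQ_add]
  conv_lhs => rw [h2]
  rw [h4, h4, h4, h3, h3, h3, h3]

theorem adjoin_stdQ (H : Matrix (Fin m) (Fin m) ℍ[K,a,b,c]) :
    Algebra.adjoin K (stdQ H) = ⊤ := by
  rw [eq_top_iff]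
  rintro x -
  obtain ⟨z, rfl⟩ := quatMk_surjective H x
  have hz : z ∈ Algebra.adjoin K (quatGens a b c m) := by
    rw [adjoin_quatGens]
    trivial
  induction hz using Algebra.adjoin_induction with
  | mem z hz =>
    obtain ⟨⟨i, k, d⟩, hd⟩ := hz
    have h1 : z = d.re • ⟨quatP i k (quatBasis a b c 0), quatP_mem _ _ _⟩ +
        d.imI • ⟨quatP i k (quatBasis a b c 1), quatP_mem _ _ _⟩ +
        d.imJ • ⟨quatP i k (quatBasis a b c 2), quatP_mem _ _ _⟩ +
        d.imK • ⟨quatP i k (quatBasis a b c 3), quatP_mem _ _ _⟩ := by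
      apply Subtype.ext
      rw [← hd]
      exact quatP_basis i k d
    have h2 : ∀ (r : K) (t : Fin 4), quatMk H (r • ⟨quatP i k (quatBasis a b c t),
        quatP_mem _ _ _⟩) ∈ Algebra.adjoin K (stdQ H) := by
      intro r t
      have h3 : quatMk H (r • ⟨quatP i k (quatBasis a b c t), quatP_mem _ _ _⟩) =
          r • quatMk H ⟨quatP i k (quatBasis a b c t), quatP_mem _ _ _⟩ :=
        map_smul (quatMkₐ H K) r _
      have h4 : quatMk H ⟨quatP i k (quatBasis a b c t), quatP_mem _ _ _⟩ ∈ stdQ H :=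
        ⟨(i, k, t), rfl⟩
      rw [h3]
      exact Subalgebra.smul_mem (Algebra.adjoin K (stdQ H)) (Algebra.subset_adjoin h4) r
    rw [h1, map_add, map_add, map_add]
    exact Subalgebra.add_mem _ (Subalgebra.add_mem _ (Subalgebra.add_mem _ (h2 _ _) (h2 _ _))
      (h2 _ _)) (h2 _ _)
  | algebraMap k => exact Subalgebra.algebraMap_mem _ k
  | add x y _ _ hx hy =>
    rw [map_add]
    exact Subalgebra.add_mem _ hx hy
  | mul x y _ _ hx hy =>
    rw [map_mul]
    exact Subalgebra.mul_mem _ hx hy

theorem nontrivial_quatRing (H : Matrix (Fin m) (Fin m) ℍ[K,a,b,c]) : Nontrivial (QuatRing H) := by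
  refine ⟨0, 1, fun h => ?_⟩
  have h1 : quatMk H 1 = 0 := by rw [map_one, ← h]
  rw [quatMk_eq_zero_iff, quatIdeal, Ideal.mem_span_singleton] at h1
  obtain ⟨z, hz⟩ := h1
  have h2 := congrArg Subtype.val hz
  change (1 : QuatCoord K a b m) = quatPoly H * (z : QuatCoord K a b m) at h2
  have h3 := congrArg constantCoeff h2
  have h4 : constantCoeff (quatPoly H) = 0 := by
    by_contra h5
    have h6 := isHomogeneous_quatPoly H h5
    simp at h6
  rw [map_one, map_mul, h4, zero_mul] at h3
  have h5 := congrArg QuadraticAlgebra.re h3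
  exact one_ne_zero h5

end Std

section Division

variable {K : Type} [Field K] {a b c a' b' c' : K}

theorem division_of_iso (φ : ℍ[K,a',b',c'] ≃ₐ[K] ℍ[K,a,b,c])
    (hD : ∀ x : ℍ[K,a,b,c], x ≠ 0 → IsUnit x) (x : ℍ[K,a',b',c']) (hx : x ≠ 0) : IsUnit x := by
  have h1 := hD (φ x) (by
    intro h
    exact hx ((map_eq_zero_iff φ φ.injective).mp h))
  have h2 := h1.map (φ.symm : ℍ[K,a,b,c] →* ℍ[K,a',b',c'])
  simpa using h2

end Division

section Model

variable {R K : Type} [CommRing R] [IsDedekindDomain R] [Field K] [CharZero K] [Algebra R K]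
  [IsFractionRing R K] {a b c : K} {m : ℕ}

/-- Local orders at all primes. -/
theorem exists_local_quat (p : HeightOneSpectrum R) [Finite (R ⧸ p.asIdeal)] (hm : 2 ≤ m)
    (hD : ∀ x : ℍ[K,a,b,c], x ≠ 0 → IsUnit x) {H : Matrix (Fin m) (Fin m) ℍ[K,a,b,c]}
    (hH : Hᴴ = -H) (hHu : IsUnit H) : ∃ S, QuatGood H p S := by
  have hfin := finite_residue_locRing (K := K) p
  rcases exists_local_case (O := locRing K p) hD with
    ⟨π, A, C, hπ, hA, hC, ⟨φ⟩⟩ | ⟨π, A, B, hπ, hd, hin, ⟨φ⟩⟩
  · exact quat_local_split p hm hH hHu (root_of_division hD) φ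
      (root_of_division (division_of_iso φ hD)) hC hπ rfl hA
  · exact quat_local_ram p hm hH hHu (root_of_division hD) φ
      (root_of_division (division_of_iso φ hD)) hπ hd hin

/-- **Regular models of involution varieties of quaternionic skew-Hermitian forms.** -/
theorem exists_model_quat (hR : ¬ IsField R)
    (hfin : ∀ p : HeightOneSpectrum R, Finite (R ⧸ p.asIdeal)) (hm : 2 ≤ m)
    (hD : ∀ x : ℍ[K,a,b,c], x ≠ 0 → IsUnit x) {H : Matrix (Fin m) (Fin m) ℍ[K,a,b,c]}
    (hH : Hᴴ = -H) (hHu : IsUnit H) :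
    ∃ (Y : Scheme.{0}) (g : Y ⟶ Spec (CommRingCat.of R)),
      IsProper g ∧ Flat g ∧ (∀ y : Y, IsRegularLocalRing (Y.presheaf.stalk y)) ∧
      ∃ e : pullback g (Spec.map (CommRingCat.ofHom (algebraMap R K))) ≅ Proj (quatQGr H),
        e.hom ≫ projTo K (quatQGr H) =
          pullback.snd g (Spec.map (CommRingCat.ofHom (algebraMap R K))) := by
  classical
  obtain ⟨D, hD0, hDreg⟩ := exists_good_quat (R := R) hfin hm hH hHu (root_of_division hD)
    (disc_of_division hD) (c_ne_zero_of_division hD)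
  have hex : ∀ p : HeightOneSpectrum R, ∃ S, QuatGood H p S ∧ (D ∉ p.asIdeal → S = stdQ H) := by
    intro p
    by_cases hp : D ∈ p.asIdeal
    · have := hfin p
      obtain ⟨S, hS⟩ := exists_local_quat (R := R) p hm hD hH hHu
      exact ⟨S, hS, fun h => absurd hp h⟩
    · exact ⟨_, hDreg p hp, fun _ => rfl⟩
  choose F hF hF₀ using hex
  have hL : LocalGens (R := R) (quatQGr H) F (stdQ H) :=
    { finite := fun p => (hF p).finite
      finite₀ := Set.finite_range _
      ae := by
        refine (finite_mem_prime hD0).subset ?_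
        intro p hp
        by_contra hcon
        exact hp (hF₀ p hcon)
      homog := fun p => (hF p).homog
      full := fun p => (hF p).full
      full₀ := full_of_adjoin_eq_top (adjoin_stdQ H) }
  have := nontrivial_quatRing H
  exact exists_model (quatQGr H) hL hR fun p => (hF p).reg

end Model

end Pool.Agent.Lib.MP_6a3dac_ag
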