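import Pool.Agent.Lib.MP_6a3dac_ag.QuatSplit

/-!
# Local orders of forms of quadrics from orders stable under the semilinear automorphism
-/

set_option autoImplicit false
set_option linter.unusedSectionVars false

namespace Pool.Agent.Lib.MP_6a3dac_ag

open IsLocalRing

section Ram

variable {R O O₁ K A K₁ A₁ : Type} [CommRing R] [IsDomain R] [CommRing O] [IsDomain O]
  [IsDiscreteValuationRing O] [CommRing O₁] [IsDomain O₁]
  [IsDiscreteValuationRing O₁] {κ : O →+* O₁} [IsLocalHom κ] {ω : O₁} {a b : O}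
  (hκ : EtaleLike κ ω a b) [Algebra R O] (p : Ideal R) [p.IsPrime] [IsLocalization.AtPrime O p]
  [CommRing K] [CommRing A] [Algebra R K] [Algebra K A] [Algebra R A] [IsScalarTower R K A]
  [Algebra O K] [Algebra O A] [IsScalarTower O K A] [IsScalarTower R O A]
  (𝒜 : ℕ → Submodule K A) [GradedAlgebra 𝒜]
  [Field K₁] [CommRing A₁] [IsDomain A₁] [Algebra O₁ K₁] [Algebra K₁ A₁]
  [Algebra O₁ A₁] [IsScalarTower O₁ K₁ A₁] [Algebra K K₁]
  (𝒜₁ : ℕ → Submodule K₁ A₁) [GradedAlgebra 𝒜₁]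
  {j : A →+* A₁} (hev : EvenMap 𝒜 𝒜₁ (algebraMap O₁ K₁ ω) j)
  (hcomp : ∀ o, algebraMap K K₁ (algebraMap O K o) = algebraMap O₁ K₁ (κ o))
  {σ : K₁ →+* K₁} (hσω : σ (algebraMap O₁ K₁ ω) = algebraMap O₁ K₁ (κ b - ω))
  {τ : A₁ →+* A₁} (hτ : ∀ w, τ (algebraMap K₁ A₁ w) = algebraMap K₁ A₁ (σ w)) {γ : K₁}
  (hγ : γ ≠ 0) (hτj : ∀ k, ∀ x ∈ 𝒜 k, τ (j x) = γ ^ k • j x)

include hκ hev hcomp hσω hτ hγ hτj in
/-- Local orders from orders stable under the semilinear automorphism. -/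
theorem exists_gens_ram {π : O} (hπ₁ : Irreducible (κ π)) {F₁ : Set A₁}
    (hF₁ : F₁.Finite) (hF₁h : ∀ x ∈ F₁, ∃ k, 0 < k ∧ x ∈ 𝒜₁ (2 * k) ∧
      ∃ x' ∈ Algebra.adjoin O₁ F₁, τ x = γ ^ k • x')
    (hfull₁ : ∀ k, ∀ x ∈ 𝒜₁ (2 * k), ∃ r : O₁, r ≠ 0 ∧ r • x ∈ Algebra.adjoin O₁ F₁)
    (hreg : RegAt 𝒜₁ (Algebra.adjoin O₁ F₁)) :
    ∃ F : Set A, F.Finite ∧ (∀ x ∈ F, ∃ i, 0 < i ∧ x ∈ 𝒜 i) ∧
      (∀ x, ∃ r : R, r ≠ 0 ∧ r • x ∈ Algebra.adjoin R F) ∧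
      RegAt 𝒜 (locSub p (Algebra.adjoin R F)) := by
  have hj := EvenMap.hj 𝒜 𝒜₁ hev hcomp
  obtain ⟨d, hd⟩ : ∃ d : O₁, d * (ω - (κ b - ω)) = 1 := by
    obtain ⟨d, hd⟩ := (hκ.disc.map κ).exists_left_inv
    refine ⟨d * (ω - (κ b - ω)), ?_⟩
    rw [← hd, mul_assoc]
    congr 1
    simp only [map_add, map_pow, map_mul, map_ofNat]
    linear_combination 4 * hκ.om
  -- the components
  have key : ∀ x ∈ F₁, ∃ (k : ℕ) (y z : A), 0 < k ∧ y ∈ 𝒜 k ∧ z ∈ 𝒜 k ∧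
      x = j y + ω • j z ∧ j y ∈ Algebra.adjoin O₁ F₁ ∧ j z ∈ Algebra.adjoin O₁ F₁ := by
    intro x hx
    obtain ⟨k, hk, hxk, x', hx', hxx'⟩ := hF₁h x hx
    obtain ⟨s, hs, s', hs', he⟩ := hev.exi k x hxk
    have he' : x = j s + ω • j s' := by
      rw [he, IsScalarTower.algebraMap_smul]
    have h1 : x' = j s + (κ b - ω) • j s' := by
      have h2 : γ ^ k • x' = γ ^ k • (j s + (κ b - ω) • j s') := by
        rw [← hxx', he, map_add, Algebra.smul_def, map_mul, hτ, hτj k s hs, hτj k s' hs', hσω,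
          smul_add, ← Algebra.smul_def, IsScalarTower.algebraMap_smul, smul_comm]
      have h3 := congrArg (fun w => (γ ^ k)⁻¹ • w) h2
      simp only [smul_smul, inv_mul_cancel₀ (pow_ne_zero k hγ), one_smul] at h3
      exact h3
    have h4 : j s' = d • (x - x') := by
      have h5 : x - x' = (ω - (κ b - ω)) • j s' := by
        rw [he', h1, sub_smul ω (κ b - ω)]
        abel
      rw [h5, smul_smul, hd, one_smul]
    have h6 : j s' ∈ Algebra.adjoin O₁ F₁ := by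
      rw [h4]
      exact Subalgebra.smul_mem _ (Subalgebra.sub_mem _ (Algebra.subset_adjoin hx) hx') _
    have h7 : j s = x - ω • j s' := by
      rw [he']
      abel
    refine ⟨k, s, s', hk, hs, hs', he', ?_, h6⟩
    rw [h7]
    exact Subalgebra.sub_mem _ (Algebra.subset_adjoin hx) (Subalgebra.smul_mem _ h6 _)
  choose! k y z hk hy hz hx hjy hjz using key
  refine ⟨y '' F₁ ∪ z '' F₁, (hF₁.image _).union (hF₁.image _), ?_, ?_⟩
  · rintro _ (⟨x, hx', rfl⟩ | ⟨x, hx', rfl⟩)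
    · exact ⟨k x, hk x hx', hy x hx'⟩
    · exact ⟨k x, hk x hx', hz x hx'⟩
  · refine good_of_desc hκ p 𝒜 𝒜₁ hj hev.gr ?_ ?_ ?_ ?_ ?_ hreg
    · intro x x' hxx
      rw [← IsScalarTower.algebraMap_smul K₁ ω (j x')] at hxx
      exact hev.uniq x x' hxx
    · intro x hx'
      obtain ⟨i, _, hi, _⟩ := hF₁h x hx'
      exact ⟨_, hi⟩
    · rintro _ (⟨x, hx', rfl⟩ | ⟨x, hx', rfl⟩)
      · exact hjy x hx'
      · exact hjz x hx'
    · rintro x (⟨hx', _⟩ | ⟨s, t, ⟨hs, l, hsl⟩, _, rfl⟩)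
      · rw [hx x hx']
        refine Fr.add hκ hj (Fr.of_mem ?_) (Fr.smul hκ hj (Fr.of_mem ?_) _)
        · exact Algebra.subset_adjoin (Or.inl ⟨x, hx', rfl⟩)
        · exact Algebra.subset_adjoin (Or.inr ⟨x, hx', rfl⟩)
      · obtain ⟨i, _, hi, _⟩ := hF₁h s hs
        have h1 := DirectSum.decompose_of_mem_ne 𝒜₁ hsl (j := 2 * i) (by omega)
        rw [DirectSum.decompose_of_mem_same 𝒜₁ hi] at h1
        rw [h1, zero_mul]
        exact Fr.zero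
    · intro k x hxk
      obtain ⟨r, hr, hrx⟩ := hfull₁ k _ (hev.gr k x hxk)
      obtain ⟨n, u, hu⟩ := IsDiscreteValuationRing.eq_unit_mul_pow_irreducible hr hπ₁
      refine ⟨π ^ n, pow_ne_zero n ?_, ?_⟩
      · rintro rfl
        rw [map_zero] at hπ₁
        exact hπ₁.ne_zero rfl
      · have h1 : κ (π ^ n) • j x = ((u⁻¹ : O₁ˣ) : O₁) • (r • j x) := by
          rw [map_pow, hu, smul_smul, ← mul_assoc, Units.inv_mul, one_mul]
        rw [h1]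
        exact Subalgebra.smul_mem _ hrx _

end Ram

end Pool.Agent.Lib.MP_6a3dac_ag
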