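import Pool.Agent.Lib.MP_6a3dac_ag.EvenQuot

/-!
# Comparison of two presentations of a quaternion algebra
-/

set_option autoImplicit false
set_option linter.unusedSectionVars false

namespace Pool.Agent.Lib.MP_6a3dac_ag

open MvPolynomial Matrix
open scoped Quaternion

section Mat

variable {Ω : Type} [Field Ω] [IsAlgClosed Ω]

theorem exists_intertwiner {T M : Matrix (Fin 2) (Fin 2) Ω} {w w' a b c : Ω}
    (hT : T * T = a • 1 + b • T) (hM : M * M = c • 1) (hMT : M * T = (b • 1 - T) * M)
    (hadd : w + w' = b) (hmul : w * w' = -a) (hne : w ≠ w') (hc : c ≠ 0) :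
    ∃ g : Matrix (Fin 2) (Fin 2) Ω, g.det = 1 ∧ g * T = !![w, 0; 0, w'] * g ∧
      g * M = !![0, 1; c, 0] * g := by
  -- an eigenvector
  obtain ⟨v, hv0, hv⟩ : ∃ v : Fin 2 → Ω, v ≠ 0 ∧ v ᵥ* T = w • v := by
    have h1 : (T - w' • 1) * T = w • (T - w' • 1) := by
      rw [sub_mul, hT, smul_mul_assoc, one_mul, smul_sub, smul_smul, hmul, ← hadd]
      module
    have h2 : T - w' • (1 : Matrix (Fin 2) (Fin 2) Ω) ≠ 0 := by
      intro h3
      have h4 : T = w' • 1 := sub_eq_zero.mp h3
      rw [h4] at hMT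
      have h5 : (w - w') • M = 0 := by
        have h6 : M * (w' • (1 : Matrix (Fin 2) (Fin 2) Ω)) = w' • M := by
          rw [mul_smul_comm, mul_one]
        have h7 : (b • (1 : Matrix (Fin 2) (Fin 2) Ω) - w' • 1) * M = w • M := by
          rw [← hadd, ← sub_smul, smul_mul_assoc, one_mul]
          congr 1
          ring
        rw [h6, h7] at hMT
        rw [sub_smul, hMT, sub_self]
      have h8 : M = 0 := (smul_eq_zero.mp h5).resolve_left (sub_ne_zero.mpr hne)
      rw [h8, mul_zero] at hM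
      have h9 := congrFun (congrFun hM 0) 0
      simp at h9
      exact hc h9.symm
    obtain ⟨i, hi⟩ : ∃ i, (T - w' • (1 : Matrix (Fin 2) (Fin 2) Ω)) i ≠ 0 := by
      by_contra hcon
      push Not at hcon
      exact h2 (funext hcon)
    refine ⟨_, hi, ?_⟩
    have h3 := congrFun h1 i
    ext l
    exact congrFun h3 l
  -- the intertwiner up to a scalar
  let g₀ : Matrix (Fin 2) (Fin 2) Ω := Matrix.of ![v, v ᵥ* M]
  have h1 : g₀ * T = !![w, 0; 0, w'] * g₀ := by
    have h2 : (v ᵥ* M) ᵥ* T = w' • (v ᵥ* M) := by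
      rw [vecMul_vecMul, hMT, ← vecMul_vecMul, vecMul_sub, hv, vecMul_smul, vecMul_one, ← sub_smul,
        ← hadd, add_sub_cancel_left, smul_vecMul]
    ext i l
    fin_cases i
    · have := congrFun hv l
      simpa [g₀, Matrix.mul_apply, vecMul, dotProduct, Fin.sum_univ_two] using this
    · have := congrFun h2 l
      simpa [g₀, Matrix.mul_apply, vecMul, dotProduct, Fin.sum_univ_two] using this
  have h2 : g₀ * M = !![0, 1; c, 0] * g₀ := by
    have h3 : (v ᵥ* M) ᵥ* M = c • v := by
      rw [vecMul_vecMul, hM, vecMul_smul, vecMul_one]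
    ext i l
    fin_cases i
    · simp [g₀, Matrix.mul_apply, vecMul, dotProduct, Fin.sum_univ_two]
    · have := congrFun h3 l
      simpa [g₀, Matrix.mul_apply, vecMul, dotProduct, Fin.sum_univ_two] using this
  have hdet : g₀.det ≠ 0 := by
    intro h0
    obtain ⟨s, hs, hs0⟩ := Matrix.exists_vecMul_eq_zero_iff.mpr h0
    have e1 : s 0 • v + s 1 • (v ᵥ* M) = 0 := by
      ext l
      have := congrFun hs0 l
      simpa [g₀, vecMul, dotProduct, Fin.sum_univ_two] using this
    have e2 : s ᵥ* (g₀ * T) = 0 := by rw [← vecMul_vecMul, hs0, zero_vecMul]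
    rw [h1, ← vecMul_vecMul] at e2
    have e3 : (s 0 * w) • v + (s 1 * w') • (v ᵥ* M) = 0 := by
      ext l
      have := congrFun e2 l
      simpa [g₀, vecMul, dotProduct, Fin.sum_univ_two] using this
    have e4 : (s 0 * (w - w')) • v = 0 := by
      have e5 : (s 0 * (w - w')) • v = ((s 0 * w) • v + (s 1 * w') • (v ᵥ* M)) -
          w' • (s 0 • v + s 1 • (v ᵥ* M)) := by module
      rw [e5, e1, e3, smul_zero, sub_zero]
    have e5 : s 0 = 0 := by
      rcases smul_eq_zero.mp e4 with h | h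
      · exact (mul_eq_zero.mp h).resolve_right (sub_ne_zero.mpr hne)
      · exact absurd h hv0
    rw [e5, zero_smul, zero_add] at e1
    have e6 : s 1 = 0 := by
      rcases smul_eq_zero.mp e1 with h | h
      · exact h
      · exfalso
        have e7 : (v ᵥ* M) ᵥ* M = c • v := by
          rw [vecMul_vecMul, hM, vecMul_smul, vecMul_one]
        rw [h, zero_vecMul] at e7
        exact (smul_ne_zero hc hv0) e7.symm
    apply hs
    ext i
    fin_cases i
    · exact e5
    · exact e6
  obtain ⟨z, hz⟩ := IsAlgClosed.exists_pow_nat_eq (g₀.det)⁻¹ (n := 2) (by norm_num)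
  refine ⟨z • g₀, ?_, ?_, ?_⟩
  · rw [det_smul, Fintype.card_fin, hz, inv_mul_cancel₀ hdet]
  · rw [smul_mul_assoc, h1, mul_smul_comm]
  · rw [smul_mul_assoc, h2, mul_smul_comm]

end Mat

end Pool.Agent.Lib.MP_6a3dac_ag
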