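import Pool.Agent.Lib.MP_6a3dac_ag.QuatRep

/-!
# Comparison of the forms attached to two presentations of a quaternion algebra
-/

set_option autoImplicit false
set_option linter.unusedSectionVars false

namespace Pool.Agent.Lib.MP_6a3dac_ag

open MvPolynomial Matrix
open scoped Quaternion

section QW

variable {K : Type} [CommRing K] (a b : K)

/-- The conjugation as a ring homomorphism. -/
def qwConjHom : QW K a b →+* QW K a b :=
  (starRingEnd (QuadraticAlgebra K a b) : QuadraticAlgebra K a b →+* QuadraticAlgebra K a b)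

variable {a b}

theorem qwConjHom_apply (w : QW K a b) : qwConjHom a b w = qwConj w := rfl

theorem algebraMap_qw (r : K) : algebraMap K (QW K a b) r = qwMk r 0 := rfl

theorem qdata_qw : QData a b (qwMk 0 1 : QW K a b) (qwConjHom a b) where
  om := by
    refine QuadraticAlgebra.ext ?_ ?_
    · change (0 : K) * 0 + a * 1 * 1 = a + (b * 0 + a * 0 * 1)
      ring
    · change (0 : K) * 1 + 1 * 0 + b * 1 * 1 = 0 + (b * 1 + 0 * 0 + b * 0 * 1)
      ring
  alg r := by
    refine QuadraticAlgebra.ext ?_ ?_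
    · change r + b * 0 = r
      ring
    · change -(0 : K) = 0
      ring
  conj := by
    refine QuadraticAlgebra.ext ?_ ?_
    · change (0 : K) + b * 1 = b - 0
      ring
    · change -(1 : K) = 0 - 1
      ring

theorem qwConjHom_conj (w : QW K a b) : qwConjHom a b (qwConjHom a b w) = w :=
  star_star (R := QuadraticAlgebra K a b) w

variable {c : K} {m : ℕ}

theorem quU_eq (d : ℍ[K,a,b,c]) : quU d = gU (qwMk 0 1 : QW K a b) d := by
  refine QuadraticAlgebra.ext ?_ ?_
  · change d.re = d.re + (d.imI * 0 + a * 0 * 1)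
    ring
  · change d.imI = 0 + (d.imI * 1 + 0 * 0 + b * 0 * 1)
    ring

theorem quV_eq (d : ℍ[K,a,b,c]) : quV d = gV (qwMk 0 1 : QW K a b) d := by
  refine QuadraticAlgebra.ext ?_ ?_
  · change d.imJ = d.imJ + (d.imK * 0 + a * 0 * 1)
    ring
  · change d.imK = 0 + (d.imK * 1 + 0 * 0 + b * 0 * 1)
    ring

theorem quatP_eq (i j : Fin m) (d : ℍ[K,a,b,c]) :
    quatP i j d = gQ (qwMk 0 1 : QW K a b) (qwConjHom a b) i j d := by
  rw [quatP, gQ, gF, quU_eq, quV_eq]
  rfl

end QW

section Rho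

variable {K W Ω : Type} [CommRing K] [CommRing W] [Algebra K W] [CommRing Ω] {a b c : K} {ω : W}
  {σ : W →+* W} (α : W →+* Ω) {m : ℕ}

/-- The representation by `2 × 2` matrices. -/
def rhoM (ω : W) (σ : W →+* W) (d : ℍ[K,a,b,c]) : Matrix (Fin 2) (Fin 2) Ω :=
  !![α (gU ω d), α (gV ω d); α (algebraMap K W c * σ (gV ω d)), α (σ (gU ω d))]

theorem rhoM_add (d e : ℍ[K,a,b,c]) : rhoM α ω σ (d + e) = rhoM α ω σ d + rhoM α ω σ e := by
  ext i l
  fin_cases i <;> fin_cases l <;> simp [rhoM, gU_add, gV_add, mul_add]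

theorem rhoM_one : rhoM α ω σ (1 : ℍ[K,a,b,c]) = 1 := by
  ext i l
  fin_cases i <;> fin_cases l <;> simp [rhoM, gU_one, gV_one]

theorem rhoM_smul (hQ : QData a b ω σ) (r : K) (d : ℍ[K,a,b,c]) :
    rhoM α ω σ (r • d) = α (algebraMap K W r) • rhoM α ω σ d := by
  ext i l
  fin_cases i <;> fin_cases l <;> simp [rhoM, gU_smul, gV_smul, hQ.alg] 
  ring

theorem rhoM_mul (hQ : QData a b ω σ) (hσ : ∀ w, σ (σ w) = w) (d e : ℍ[K,a,b,c]) :
    rhoM α ω σ (d * e) = rhoM α ω σ d * rhoM α ω σ e := by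
  ext i l
  fin_cases i <;> fin_cases l <;>
    simp [rhoM, gU_mul hQ, gV_mul hQ, hQ.alg, hσ, Matrix.mul_apply, Fin.sum_univ_two] <;> ring

/-- The form attached to a matrix. -/
noncomputable def qM (i j : Fin m) (N : Matrix (Fin 2) (Fin 2) Ω) :
    MvPolynomial (Fin m ⊕ Fin m) Ω :=
  C (N 0 1) * (X (Sum.inl i) * X (Sum.inl j)) - C (N 0 0) * (X (Sum.inl i) * X (Sum.inr j)) +
    C (N 1 1) * (X (Sum.inr i) * X (Sum.inl j)) - C (N 1 0) * (X (Sum.inr i) * X (Sum.inr j))

theorem map_gQ (i j : Fin m) (d : ℍ[K,a,b,c]) :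
    MvPolynomial.map α (gQ ω σ i j d) = qM i j (rhoM α ω σ d) := by
  rw [gQ, gF, qM]
  simp [rhoM]

/-- The substitution `z_i ↦ z_i g`. -/
noncomputable def subM (g : Matrix (Fin 2) (Fin 2) Ω) :
    MvPolynomial (Fin m ⊕ Fin m) Ω →ₐ[Ω] MvPolynomial (Fin m ⊕ Fin m) Ω :=
  aeval (Sum.elim (fun i => C (g 0 0) * X (Sum.inl i) + C (g 1 0) * X (Sum.inr i))
    fun i => C (g 0 1) * X (Sum.inl i) + C (g 1 1) * X (Sum.inr i))

theorem subM_inl (g : Matrix (Fin 2) (Fin 2) Ω) (i : Fin m) :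
    subM g (X (Sum.inl i)) = C (g 0 0) * X (Sum.inl i) + C (g 1 0) * X (Sum.inr i) := by
  simp [subM]

theorem subM_inr (g : Matrix (Fin 2) (Fin 2) Ω) (i : Fin m) :
    subM g (X (Sum.inr i)) = C (g 0 1) * X (Sum.inl i) + C (g 1 1) * X (Sum.inr i) := by
  simp [subM]

theorem subM_C (g : Matrix (Fin 2) (Fin 2) Ω) (r : Ω) :
    subM (m := m) g (C r) = C r := by
  simp [subM, algebraMap_eq]

theorem subM_comp {g h : Matrix (Fin 2) (Fin 2) Ω} (hgh : g * h = 1)
    (p : MvPolynomial (Fin m ⊕ Fin m) Ω) : subM g (subM h p) = p := by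
  have e : ∀ i l, (g * h) i l = (1 : Matrix (Fin 2) (Fin 2) Ω) i l := fun i l => by rw [hgh]
  have e00 := e 0 0
  have e01 := e 0 1
  have e10 := e 1 0
  have e11 := e 1 1
  simp only [Matrix.mul_apply, Fin.sum_univ_two, Matrix.one_apply_eq, ne_eq, Fin.isValue,
    zero_ne_one, not_false_eq_true, Matrix.one_apply_ne, one_ne_zero] at e00 e01 e10 e11
  have h1 : (subM (m := m) g).comp (subM h) = AlgHom.id Ω _ := by
    ext i : 1
    rw [AlgHom.comp_apply, AlgHom.id_apply]
    rcases i with i | i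
    · rw [subM_inl, map_add, map_mul, map_mul, subM_C, subM_C, subM_inl, subM_inr]
      have f00 := congrArg (C : Ω → MvPolynomial (Fin m ⊕ Fin m) Ω) e00
      have f10 := congrArg (C : Ω → MvPolynomial (Fin m ⊕ Fin m) Ω) e10
      simp only [map_add, map_mul, map_one, map_zero] at f00 f10
      linear_combination (X (Sum.inl i)) * f00 + (X (Sum.inr i)) * f10
    · rw [subM_inr, map_add, map_mul, map_mul, subM_C, subM_C, subM_inl, subM_inr]
      have f01 := congrArg (C : Ω → MvPolynomial (Fin m ⊕ Fin m) Ω) e01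
      have f11 := congrArg (C : Ω → MvPolynomial (Fin m ⊕ Fin m) Ω) e11
      simp only [map_add, map_mul, map_one, map_zero] at f01 f11
      linear_combination (X (Sum.inl i)) * f01 + (X (Sum.inr i)) * f11
  exact DFunLike.congr_fun h1 p

theorem subM_qM {g N N' : Matrix (Fin 2) (Fin 2) Ω} (hg : g.det = 1) (hN : g * N = N' * g)
    (i j : Fin m) : subM g (qM i j N) = qM i j N' := by
  have h1 : N' = g * N * g.adjugate := by
    rw [hN, mul_assoc, mul_adjugate, hg, one_smul, mul_one]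
  have e : ∀ i l, N' i l = (g * N * g.adjugate) i l := fun i l => by rw [← h1]
  have h2 : subM g (qM i j N) =
      C (N 0 1) * (subM g (X (Sum.inl i)) * subM g (X (Sum.inl j))) -
      C (N 0 0) * (subM g (X (Sum.inl i)) * subM g (X (Sum.inr j))) +
      C (N 1 1) * (subM g (X (Sum.inr i)) * subM g (X (Sum.inl j))) -
      C (N 1 0) * (subM g (X (Sum.inr i)) * subM g (X (Sum.inr j))) := by
    simp only [qM, map_sub, map_add, map_mul (subM g), subM_C]
  rw [h2, subM_inl, subM_inl, subM_inr, subM_inr, qM, e 0 1, e 0 0, e 1 1, e 1 0]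
  simp only [Matrix.mul_apply, Fin.sum_univ_two, adjugate_fin_two, Matrix.of_apply,
    Matrix.cons_val', Matrix.cons_val_zero, Matrix.cons_val_one, Matrix.cons_val_fin_one,
    map_add, map_mul, map_neg]
  ring

end Rho

end Pool.Agent.Lib.MP_6a3dac_ag
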