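import Pool.Agent.Lib.MP_6a3dac_ag.QuatRepB

/-!
# The even map attached to a presentation of a quaternion algebra
-/

set_option autoImplicit false
set_option linter.unusedSectionVars false

namespace Pool.Agent.Lib.MP_6a3dac_ag

open MvPolynomial Matrix
open scoped Quaternion

attribute [local instance] MvPolynomial.gradedAlgebra

section Span

variable {K K₁ A A₁ : Type} [CommRing K] [Field K₁] [Algebra K K₁] [CommRing A] [Algebra K A]
  [CommRing A₁] [Algebra K₁ A₁] {ω : K₁} {j : A →+* A₁}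

theorem mem_span_rangeOm {a b : K} {σ : K₁ →+* K₁} (hQ : QData a b ω σ)
    (alg : ∀ r : K, j (algebraMap K A r) = algebraMap K₁ A₁ (algebraMap K K₁ r))
    (hbas : ∀ z : K₁, ∃ x y : K, z = algebraMap K K₁ x + algebraMap K K₁ y * ω) {f : A₁}
    (hf : f ∈ Submodule.span K₁ (Set.range j)) : ∃ s s', f = j s + ω • j s' := by
  refine Submodule.span_induction (p := fun f _ => ∃ s s', f = j s + ω • j s') ?_ ?_ ?_ ?_ hf
  · rintro _ ⟨s, rfl⟩
    exact ⟨s, 0, by simp⟩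
  · exact ⟨0, 0, by simp⟩
  · rintro _ _ _ _ ⟨s, s', rfl⟩ ⟨t, t', rfl⟩
    exact ⟨s + t, s' + t', by rw [map_add, map_add, smul_add]; ring⟩
  · rintro z _ _ ⟨s, s', rfl⟩
    obtain ⟨x, y, rfl⟩ := hbas z
    refine ⟨algebraMap K A x * s + algebraMap K A a * (algebraMap K A y * s'),
      algebraMap K A x * s' + algebraMap K A y * s + algebraMap K A b * (algebraMap K A y * s'), ?_⟩
    have h1 : (algebraMap K₁ A₁ ω) * (algebraMap K₁ A₁ ω) =
        algebraMap K₁ A₁ (algebraMap K K₁ a) +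
        algebraMap K₁ A₁ (algebraMap K K₁ b) * algebraMap K₁ A₁ ω := by
      rw [← map_mul, hQ.om, map_add, map_mul]
    simp only [map_add, map_mul, alg, Algebra.smul_def]
    linear_combination (algebraMap K₁ A₁ (algebraMap K K₁ y) * j s') * h1

end Span

section Tau

variable {K K₁ : Type} [CommRing K] [Field K₁] [Algebra K K₁] {a b : K} (c : K₁) {ω : K₁}
  (σ : K₁ →+* K₁) {m : ℕ}

/-- The semilinear substitution `x_i ↦ c y_i`, `y_i ↦ x_i`. -/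
noncomputable def tauP : MvPolynomial (Fin m ⊕ Fin m) K₁ →+* MvPolynomial (Fin m ⊕ Fin m) K₁ :=
  eval₂Hom (C.comp σ) (Sum.elim (fun i => C c * X (Sum.inr i)) fun i => X (Sum.inl i))

theorem tauP_C (w : K₁) : tauP (m := m) c σ (C w) = C (σ w) := by simp [tauP]

theorem tauP_inl (i : Fin m) : tauP c σ (X (Sum.inl i)) = C c * X (Sum.inr i) := by simp [tauP]

theorem tauP_inr (i : Fin m) : tauP c σ (X (Sum.inr i)) = X (Sum.inl i) := by simp [tauP]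

variable {c σ}

theorem tauP_gQ {c₀ : K} (hc : algebraMap K K₁ c₀ = c) (hQ : QData a b ω σ)
    (hσ : ∀ w, σ (σ w) = w) (i k : Fin m) (d : ℍ[K,a,b,c₀]) :
    tauP c σ (gQ ω σ i k d) = C (-c) * gQ ω σ i k d := by
  subst hc
  rw [gQ, gF]
  simp only [map_sub, map_add, map_mul, tauP_C, tauP_inl, tauP_inr, hσ, hQ.alg, map_neg]
  ring

end Tau

section Exists

variable {K : Type} [Field K] {a b c a' b' c' : K} (φ : ℍ[K,a',b',c'] ≃ₐ[K] ℍ[K,a,b,c])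
  {K₁ : Type} [Field K₁] [Algebra K K₁] {ω : K₁} {σ : K₁ →+* K₁} {m : ℕ}

theorem quat_decomp (d : ℍ[K,a',b',c']) : d = d.re • 1 + d.imI • (⟨0, 1, 0, 0⟩ : ℍ[K,a',b',c']) +
    d.imJ • (⟨0, 0, 1, 0⟩ : ℍ[K,a',b',c']) +
      d.imK • ((⟨0, 1, 0, 0⟩ : ℍ[K,a',b',c']) * ⟨0, 0, 1, 0⟩) := by
  ext <;> simp

theorem rhoM_intertwine {Ω : Type} [Field Ω] {α : QW K a b →+* Ω} {β : K₁ →+* Ω}
    (hαβ : ∀ r, α (algebraMap K _ r) = β (algebraMap K K₁ r)) (hQ : QData a' b' ω σ)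
    (hσ : ∀ w, σ (σ w) = w) {g : Matrix (Fin 2) (Fin 2) Ω}
    (hT : g * rhoM α (qwMk 0 1) (qwConjHom a b) (φ ⟨0, 1, 0, 0⟩) =
      rhoM β ω σ (⟨0, 1, 0, 0⟩ : ℍ[K,a',b',c']) * g)
    (hM : g * rhoM α (qwMk 0 1) (qwConjHom a b) (φ ⟨0, 0, 1, 0⟩) =
      rhoM β ω σ (⟨0, 0, 1, 0⟩ : ℍ[K,a',b',c']) * g) (d : ℍ[K,a',b',c']) :
    g * rhoM α (qwMk 0 1) (qwConjHom a b) (φ d) = rhoM β ω σ d * g := by
  have h1 : φ d = d.re • 1 + d.imI • φ ⟨0, 1, 0, 0⟩ + d.imJ • φ ⟨0, 0, 1, 0⟩ +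
      d.imK • (φ ⟨0, 1, 0, 0⟩ * φ ⟨0, 0, 1, 0⟩) := by
    conv_lhs => rw [quat_decomp d]
    rw [map_add, map_add, map_add, map_smul, map_smul, map_smul, map_smul, map_mul, map_one]
  rw [h1]
  conv_rhs => rw [quat_decomp d]
  simp only [rhoM_add, rhoM_smul _ qdata_qw, rhoM_smul _ hQ, rhoM_mul _ qdata_qw qwConjHom_conj,
    rhoM_mul _ hQ hσ, rhoM_one, mul_add, add_mul, hαβ, mul_smul_comm, smul_mul_assoc, mul_one,
    one_mul, hT, hM]
  rw [← mul_assoc g, hT, mul_assoc, hM, mul_assoc]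

end Exists

end Pool.Agent.Lib.MP_6a3dac_ag
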