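import Pool.Agent.Lib.MP_6a3dac_ag.QuatRepC

/-!
# Existence of the even map attached to a presentation of a quaternion algebra
-/

set_option autoImplicit false
set_option linter.unusedSectionVars false

namespace Pool.Agent.Lib.MP_6a3dac_ag

open MvPolynomial Matrix
open scoped Quaternion

attribute [local instance] MvPolynomial.gradedAlgebra

section Alpha

variable {K : Type} [Field K] {a b : K}

theorem exists_alpha (hroot : ∀ r : K, r * r ≠ a + b * r) {Ω : Type} [Field Ω] [IsAlgClosed Ω]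
    (η : K →+* Ω) : ∃ α : QW K a b →+* Ω, Function.Injective α ∧
      ∀ r, α (algebraMap K _ r) = η r := by
  obtain ⟨θ, hθ⟩ : ∃ θ : Ω, θ * θ = η a + η b * θ := by
    obtain ⟨θ, hθ⟩ := IsAlgClosed.exists_root
      (Polynomial.X ^ 2 - Polynomial.C (η b) * Polynomial.X - Polynomial.C (η a) :
        Polynomial Ω) (by
      have h1 : (Polynomial.X ^ 2 - Polynomial.C (η b) * Polynomial.X - Polynomial.C (η a) :
          Polynomial Ω).degree = 2 := by compute_degree!
      rw [h1]
      decide)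
    refine ⟨θ, ?_⟩
    rw [Polynomial.IsRoot.def] at hθ
    simp only [Polynomial.eval_sub, Polynomial.eval_pow, Polynomial.eval_X, Polynomial.eval_mul,
      Polynomial.eval_C] at hθ
    linear_combination hθ
  let α : QW K a b →+* Ω :=
    { toFun := fun w => η (w : QuadraticAlgebra K a b).re + η (w : QuadraticAlgebra K a b).im * θ
      map_one' := by
        change η 1 + η 0 * θ = 1
        rw [map_one, map_zero, zero_mul, add_zero]
      map_zero' := by
        change η 0 + η 0 * θ = 0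
        rw [map_zero, zero_mul, add_zero]
      map_add' := fun x y => by
        change η (x.re + y.re) + η (x.im + y.im) * θ = _
        rw [map_add, map_add]
        ring
      map_mul' := fun x y => by
        change η (x.re * y.re + a * x.im * y.im) + η (x.re * y.im + x.im * y.re +
          b * x.im * y.im) * θ = _
        simp only [map_add, map_mul]
        linear_combination (-(η x.im * η y.im)) * hθ }
  refine ⟨α, ?_, ?_⟩
  · rw [injective_iff_map_eq_zero]
    intro w hw
    change η (w : QuadraticAlgebra K a b).re + η (w : QuadraticAlgebra K a b).im * θ = 0 at hw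
    by_cases him : (w : QuadraticAlgebra K a b).im = 0
    · rw [him, map_zero, zero_mul, add_zero, map_eq_zero] at hw
      exact QuadraticAlgebra.ext hw him
    · exfalso
      set x := (w : QuadraticAlgebra K a b).re
      set y := (w : QuadraticAlgebra K a b).im
      have h1 : θ = η (-x / y) := by
        rw [map_div₀, map_neg]
        have hy : η y ≠ 0 := (map_ne_zero η).mpr him
        field_simp
        linear_combination hw
      apply hroot (-x / y)
      apply η.injective
      rw [map_mul, map_add, map_mul, ← h1]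
      exact hθ
  · intro r
    change η r + η 0 * θ = η r
    rw [map_zero, zero_mul, add_zero]

end Alpha

section Exists

variable {K : Type} [Field K] {a b c a' b' c' : K} (φ : ℍ[K,a',b',c'] ≃ₐ[K] ℍ[K,a,b,c])
  {K₁ : Type} [Field K₁] [Algebra K K₁] {ω : K₁} {σ : K₁ →+* K₁} {m : ℕ}

theorem exists_g (hroot : ∀ r : K, r * r ≠ a + b * r) (hQ : QData a' b' ω σ)
    (hσ : ∀ w, σ (σ w) = w) (hne : ω ≠ σ ω) (hc' : c' ≠ 0) :
    ∃ (α : QW K a b →+* AlgebraicClosure K₁) (g : Matrix (Fin 2) (Fin 2) (AlgebraicClosure K₁)),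
      Function.Injective α ∧
      (∀ r, α (algebraMap K _ r) = algebraMap K₁ (AlgebraicClosure K₁) (algebraMap K K₁ r)) ∧
      g.det = 1 ∧
      ∀ d : ℍ[K,a',b',c'], g * rhoM α (qwMk 0 1) (qwConjHom a b) (φ d) =
        rhoM (algebraMap K₁ (AlgebraicClosure K₁)) ω σ d * g := by
  set β := algebraMap K₁ (AlgebraicClosure K₁) with hβ
  obtain ⟨α, hα, hαβ⟩ := exists_alpha hroot (β.comp (algebraMap K K₁))
  have hαβ' : ∀ r, α (algebraMap K _ r) = β (algebraMap K K₁ r) := hαβ
  set R := rhoM (a := a) (b := b) (c := c) α (qwMk 0 1) (qwConjHom a b) with hR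
  have hRone : R 1 = 1 := rhoM_one _
  have hRmul : ∀ d e, R (d * e) = R d * R e := rhoM_mul _ qdata_qw qwConjHom_conj
  have hRadd : ∀ d e, R (d + e) = R d + R e := rhoM_add _
  have hRsmul : ∀ (r : K) d, R (r • d) = β (algebraMap K K₁ r) • R d := by
    intro r d
    rw [hR, rhoM_smul _ qdata_qw, hαβ']
  have e1 : (⟨0, 1, 0, 0⟩ : ℍ[K,a',b',c']) * ⟨0, 1, 0, 0⟩ =
      a' • 1 + b' • (⟨0, 1, 0, 0⟩ : ℍ[K,a',b',c']) := by
    ext <;> simp
  have e2 : (⟨0, 0, 1, 0⟩ : ℍ[K,a',b',c']) * ⟨0, 0, 1, 0⟩ = c' • 1 := by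
    ext <;> simp
  have e3 : (⟨0, 0, 1, 0⟩ : ℍ[K,a',b',c']) * ⟨0, 1, 0, 0⟩ =
      (b' • 1 + (-1 : K) • (⟨0, 1, 0, 0⟩ : ℍ[K,a',b',c'])) * ⟨0, 0, 1, 0⟩ := by
    ext <;> simp
  obtain ⟨g, hg, hgT, hgM⟩ := exists_intertwiner (T := R (φ ⟨0, 1, 0, 0⟩))
    (M := R (φ ⟨0, 0, 1, 0⟩)) (w := β ω) (w' := β (σ ω)) (a := β (algebraMap K K₁ a'))
    (b := β (algebraMap K K₁ b')) (c := β (algebraMap K K₁ c')) (by
      rw [← hRmul, ← map_mul, e1, map_add, map_smul, map_smul, map_one, hRadd, hRsmul, hRsmul,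
        hRone]) (by
      rw [← hRmul, ← map_mul, e2, map_smul, map_one, hRsmul, hRone]) (by
      rw [← hRmul, ← map_mul, e3, map_mul, map_add, map_smul, map_smul, map_one, hRmul, hRadd,
        hRsmul, hRsmul, hRone, map_neg, map_neg, map_one, map_one, neg_one_smul, sub_eq_add_neg])
    (by rw [hQ.conj, map_sub]; ring) (by
      rw [← map_mul, hQ.conj, ← map_neg, mul_sub, hQ.om, mul_comm ω]
      congr 1
      ring) (fun h => hne (β.injective h)) (by
      rw [Ne, map_eq_zero, map_eq_zero]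
      exact hc')
  refine ⟨α, g, hα, hαβ', hg, rhoM_intertwine φ hαβ' hQ hσ ?_ ?_⟩
  · change g * R (φ ⟨0, 1, 0, 0⟩) = _
    rw [hgT]
    congr 1
    ext i l
    fin_cases i <;> fin_cases l <;> simp [rhoM, gU, gV]
  · change g * R (φ ⟨0, 0, 1, 0⟩) = _
    rw [hgM]
    congr 1
    ext i l
    fin_cases i <;> fin_cases l <;> simp [rhoM, gU, gV, hQ.alg]

end Exists

end Pool.Agent.Lib.MP_6a3dac_ag
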