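import Pool.Agent.Lib.MP_6a3dac_ag.QuatRepD

/-!
# The even map attached to a presentation of a quaternion algebra: conclusion
-/

set_option autoImplicit false
set_option linter.unusedSectionVars false

namespace Pool.Agent.Lib.MP_6a3dac_ag

open MvPolynomial Matrix
open scoped Quaternion

attribute [local instance] MvPolynomial.gradedAlgebra

section Pairs

variable {K : Type} [Field K] {a' b' c' : K} {K₁ : Type} [Field K₁] [Algebra K K₁] {ω : K₁}
  {σ : K₁ →+* K₁} {m : ℕ}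

/-- The products of two coordinates are combinations of the forms. -/
theorem pair_mem_span (hne : ω - σ ω ≠ 0) (hc' : c' ≠ 0)
    {N : Submodule K₁ (MvPolynomial (Fin m ⊕ Fin m) K₁)}
    (hN : ∀ i k (d : ℍ[K,a',b',c']), gQ ω σ i k d ∈ N) (v w : Fin m ⊕ Fin m) :
    X v * X w ∈ N := by
  have hc : algebraMap K K₁ c' ≠ 0 := by
    rw [Ne, map_eq_zero]
    exact hc'
  have key : ∀ {z : K₁} {f : MvPolynomial (Fin m ⊕ Fin m) K₁}, z ≠ 0 → C z * f ∈ N → f ∈ N := by
    intro z f hz hf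
    have h1 := N.smul_mem z⁻¹ hf
    rwa [← smul_eq_C_mul, smul_smul, inv_mul_cancel₀ hz, one_smul] at h1
  have hs : ∀ (z : K₁) {f : MvPolynomial (Fin m ⊕ Fin m) K₁}, f ∈ N → C z * f ∈ N := by
    intro z f hf
    rw [← smul_eq_C_mul]
    exact N.smul_mem z hf
  have q1 : ∀ i k : Fin m, gQ ω σ i k (⟨0, 0, 1, 0⟩ : ℍ[K,a',b',c']) =
      X (Sum.inl i) * X (Sum.inl k) - C (algebraMap K K₁ c') * (X (Sum.inr i) * X (Sum.inr k)) := by
    intro i k
    simp [gQ, gF, gU, gV]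
  have q2 : ∀ i k : Fin m, gQ ω σ i k (⟨0, 0, 0, 1⟩ : ℍ[K,a',b',c']) =
      C ω * (X (Sum.inl i) * X (Sum.inl k)) -
        C (algebraMap K K₁ c' * σ ω) * (X (Sum.inr i) * X (Sum.inr k)) := by
    intro i k
    simp [gQ, gF, gU, gV]
  have q3 : ∀ i k : Fin m, gQ ω σ i k (1 : ℍ[K,a',b',c']) =
      -(X (Sum.inl i) * X (Sum.inr k)) + X (Sum.inr i) * X (Sum.inl k) := by
    intro i k
    simp [gQ, gF, gU, gV]
  have q4 : ∀ i k : Fin m, gQ ω σ i k (⟨0, 1, 0, 0⟩ : ℍ[K,a',b',c']) =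
      -(C ω * (X (Sum.inl i) * X (Sum.inr k))) + C (σ ω) * (X (Sum.inr i) * X (Sum.inl k)) := by
    intro i k
    simp [gQ, gF, gU, gV]
  rcases v with i | i <;> rcases w with k | k
  · apply key hne
    have h1 : C (ω - σ ω) * (X (Sum.inl i) * X (Sum.inl k)) =
        gQ ω σ i k (⟨0, 0, 0, 1⟩ : ℍ[K,a',b',c']) -
          C (σ ω) * gQ ω σ i k (⟨0, 0, 1, 0⟩ : ℍ[K,a',b',c']) := by
      rw [q1, q2]
      simp only [map_sub, map_mul]
      ring
    rw [h1]
    exact N.sub_mem (hN _ _ _) (hs _ (hN _ _ _))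
  · apply key hne
    have h1 : C (ω - σ ω) * (X (Sum.inl i) * X (Sum.inr k)) =
        C (σ ω) * gQ ω σ i k (1 : ℍ[K,a',b',c']) -
          gQ ω σ i k (⟨0, 1, 0, 0⟩ : ℍ[K,a',b',c']) := by
      rw [q3, q4]
      simp only [map_sub]
      ring
    rw [h1]
    exact N.sub_mem (hs _ (hN _ _ _)) (hN _ _ _)
  · apply key hne
    have h1 : C (ω - σ ω) * (X (Sum.inr i) * X (Sum.inl k)) =
        C ω * gQ ω σ i k (1 : ℍ[K,a',b',c']) -
          gQ ω σ i k (⟨0, 1, 0, 0⟩ : ℍ[K,a',b',c']) := by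
      rw [q3, q4]
      simp only [map_sub]
      ring
    rw [h1]
    exact N.sub_mem (hs _ (hN _ _ _)) (hN _ _ _)
  · apply key (mul_ne_zero hc hne)
    have h1 : C (algebraMap K K₁ c' * (ω - σ ω)) * (X (Sum.inr i) * X (Sum.inr k)) =
        gQ ω σ i k (⟨0, 0, 0, 1⟩ : ℍ[K,a',b',c']) -
          C ω * gQ ω σ i k (⟨0, 0, 1, 0⟩ : ℍ[K,a',b',c']) := by
      rw [q1, q2]
      simp only [map_sub, map_mul]
      ring
    rw [h1]
    exact N.sub_mem (hN _ _ _) (hs _ (hN _ _ _))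

end Pairs

section Exists

variable {K : Type} [Field K] {a b c a' b' c' : K} (φ : ℍ[K,a',b',c'] ≃ₐ[K] ℍ[K,a,b,c])
  {K₁ : Type} [Field K₁] [Algebra K K₁] {ω : K₁} {σ : K₁ →+* K₁} (m : ℕ)

/-- The generators of `quatAlg`. -/
def quatGens (a b c : K) (m : ℕ) : Set (quatAlg a b c m) :=
  (Subtype.val : quatAlg a b c m → _) ⁻¹' (Set.range fun x : Fin m × Fin m × ℍ[K,a,b,c] =>
    quatP x.1 x.2.1 x.2.2)

theorem adjoin_quatGens : Algebra.adjoin K (quatGens a b c m) = ⊤ :=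
  Algebra.adjoin_adjoin_coe_preimage

theorem quatGens_mem {g : quatAlg a b c m} (hg : g ∈ quatGens a b c m) :
    g ∈ quatGr a b c m 1 := by
  obtain ⟨x, hx⟩ := hg
  change (g : QuatCoord K a b m) ∈ homogeneousSubmodule (Fin m ⊕ Fin m) (QW K a b) (2 * 1)
  rw [← hx]
  exact quatP_isHomogeneous _ _ _

/-- **The even map attached to a presentation.** -/
theorem exists_evenMap_rep (hroot : ∀ r : K, r * r ≠ a + b * r) (hQ : QData a' b' ω σ)
    (hσ : ∀ w, σ (σ w) = w) (hne : ω - σ ω ≠ 0) (hc' : c' ≠ 0)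
    (hbas : ∀ z : K₁, ∃ x y : K, z = algebraMap K K₁ x + algebraMap K K₁ y * ω) :
    ∃ j : quatAlg a b c m →+* MvPolynomial (Fin m ⊕ Fin m) K₁,
      (∀ i k (d : ℍ[K,a,b,c]), j ⟨quatP i k d, quatP_mem i k d⟩ = gQ ω σ i k (φ.symm d)) ∧
      EvenMap (quatGr a b c m) (homogeneousSubmodule (Fin m ⊕ Fin m) K₁) ω j ∧
      ∀ k, ∀ x ∈ quatGr a b c m k, tauP (algebraMap K K₁ c') σ (j x) =
        (-algebraMap K K₁ c') ^ k • j x := by
  obtain ⟨α, g, hα, hαβ, hg, hgρ⟩ := exists_g φ hroot hQ hσ (sub_ne_zero.mp hne) hc'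
  set β := algebraMap K₁ (AlgebraicClosure K₁) with hβ
  have hβi : Function.Injective (MvPolynomial.map (σ := Fin m ⊕ Fin m) β) :=
    map_injective _ β.injective
  let δ' : quatAlg a b c m →+* MvPolynomial (Fin m ⊕ Fin m) (AlgebraicClosure K₁) :=
    ((subM (m := m) g).toRingHom.comp (MvPolynomial.map α)).comp (quatAlg a b c m).val.toRingHom
  have hδP : ∀ i k (d : ℍ[K,a,b,c]) (h : quatP i k d ∈ quatAlg a b c m), δ' ⟨quatP i k d, h⟩ =
      MvPolynomial.map β (gQ ω σ i k (φ.symm d)) := by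
    intro i k d h
    change subM g (MvPolynomial.map α (quatP i k d)) = _
    rw [quatP_eq, map_gQ, map_gQ]
    apply subM_qM hg
    rw [← hgρ, φ.apply_symm_apply]
  have hδK : ∀ r : K, δ' (algebraMap K _ r) = C (β (algebraMap K K₁ r)) := by
    intro r
    change subM g (MvPolynomial.map α (algebraMap K (QuatCoord K a b m) r)) = _
    have h1 : algebraMap K (QuatCoord K a b m) r = C (algebraMap K (QW K a b) r) := by
      rw [IsScalarTower.algebraMap_apply K (QW K a b), algebraMap_eq]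
    rw [h1, map_C, subM_C, hαβ]
  have hrange : ∀ x : quatAlg a b c m, δ' x ∈ (MvPolynomial.map (σ := Fin m ⊕ Fin m) β).range := by
    intro x
    have hx : x ∈ Algebra.adjoin K (quatGens a b c m) := by
      rw [adjoin_quatGens]
      trivial
    induction hx using Algebra.adjoin_induction with
    | mem x hx =>
      obtain ⟨⟨i, k, d⟩, hd⟩ := hx
      have h1 : x = ⟨quatP i k d, quatP_mem i k d⟩ := Subtype.ext hd.symm
      rw [h1, hδP]
      exact ⟨_, rfl⟩
    | algebraMap r => exact ⟨C (algebraMap K K₁ r), by rw [map_C, hδK]⟩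
    | add x y _ _ hx hy =>
      rw [map_add]
      exact Subring.add_mem _ hx hy
    | mul x y _ _ hx hy =>
      rw [map_mul]
      exact Subring.mul_mem _ hx hy
  obtain ⟨j, hj⟩ := exists_lift_of_range_le _ hβi δ' hrange
  have hjP : ∀ i k (d : ℍ[K,a,b,c]) (h : quatP i k d ∈ quatAlg a b c m), j ⟨quatP i k d, h⟩ =
      gQ ω σ i k (φ.symm d) := by
    intro i k d h
    apply hβi
    rw [hj, hδP]
  have hjK : ∀ r : K, j (algebraMap K _ r) = algebraMap K₁ _ (algebraMap K K₁ r) := by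
    intro r
    apply hβi
    rw [hj, hδK, algebraMap_eq, map_C]
  have hji : Function.Injective j := by
    intro x y hxy
    have h1 : δ' x = δ' y := by rw [← hj, ← hj, hxy]
    have h2 : subM g (MvPolynomial.map α (x : QuatCoord K a b m)) =
        subM g (MvPolynomial.map α (y : QuatCoord K a b m)) := h1
    have h3 : g.adjugate * g = 1 := by rw [adjugate_mul, hg, one_smul]
    have h4 := congrArg (subM g.adjugate) h2
    rw [subM_comp h3, subM_comp h3] at h4
    exact Subtype.ext (map_injective α hα h4)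
  have hspan : ∀ i k (d : ℍ[K,a',b',c']), gQ ω σ i k d ∈ Submodule.span K₁ (Set.range j) := by
    intro i k d
    apply Submodule.subset_span
    exact ⟨⟨quatP i k (φ d), quatP_mem i k (φ d)⟩, by rw [hjP, φ.symm_apply_apply]⟩
  obtain ⟨h1, h2⟩ := evenMap_of_gens (𝒜 := quatGr a b c m)
    (𝒜₁ := homogeneousSubmodule (Fin m ⊕ Fin m) K₁) (j := j) hQ hne hbas
    (adjoin_quatGens (a := a) (b := b) (c := c) m) (fun g hg => quatGens_mem m hg) hjK (by
      rintro x ⟨⟨i, k, d⟩, hd⟩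
      have h1 : x = ⟨quatP i k d, quatP_mem i k d⟩ := Subtype.ext hd.symm
      rw [h1, hjP]
      exact gQ_isHomogeneous _ _ _) hji (F₁ := Set.range X) (adjoin_range_X) (by
      rintro _ ⟨v, rfl⟩
      exact isHomogeneous_X _ _) (by
      rintro _ ⟨v, rfl⟩ _ ⟨w, rfl⟩
      exact mem_span_rangeOm hQ hjK hbas (pair_mem_span hne hc' hspan v w))
    (tauP (algebraMap K K₁ c') σ) (fun w => tauP_C _ _ w) (γ := -algebraMap K K₁ c') (by
      rw [Ne, neg_eq_zero, map_eq_zero]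
      exact hc') (by
      rintro x ⟨⟨i, k, d⟩, hd⟩
      have h1 : x = ⟨quatP i k d, quatP_mem i k d⟩ := Subtype.ext hd.symm
      rw [h1, hjP, tauP_gQ rfl hQ hσ, smul_eq_C_mul])
  exact ⟨j, fun i k d => hjP i k d _, h1, h2⟩

end Exists

end Pool.Agent.Lib.MP_6a3dac_ag
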