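import Pool.Agent.Lib.MP_6a3dac_ag.DescGood
import Pool.Agent.Lib.MP_6a3dac_ag.EvenMap

/-!
# Local orders of forms of quadrics at primes splitting in the quadratic extension
-/

set_option autoImplicit false
set_option linter.unusedSectionVars false

namespace Pool.Agent.Lib.MP_6a3dac_ag

open IsLocalRing

section Pos

variable {K A : Type} [CommRing K] [CommRing A] [Algebra K A] (𝒜 : ℕ → Submodule K A)
  [GradedAlgebra 𝒜]

theorem evenGens_homog_pos {F : Set A} (hF : ∀ x ∈ F, ∃ i, 0 < i ∧ x ∈ 𝒜 i) {x : A}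
    (hx : x ∈ evenGens 𝒜 F) : ∃ k, 0 < k ∧ x ∈ 𝒜 (2 * k) := by
  rcases hx with ⟨hxF, k, hk⟩ | ⟨s, t, ⟨_, k, hs⟩, ⟨_, l, ht⟩, rfl⟩
  · rcases Nat.eq_zero_or_pos k with h0 | h0
    · subst h0
      obtain ⟨i, hi, hxi⟩ := hF x hxF
      have h1 := DirectSum.decompose_of_mem_ne 𝒜 hk (j := i) (by omega)
      rw [DirectSum.decompose_of_mem_same 𝒜 hxi] at h1
      subst h1
      exact ⟨1, one_pos, Submodule.zero_mem _⟩
    · exact ⟨k, h0, hk⟩
  · refine ⟨k + l + 1, by omega, ?_⟩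
    have h1 := SetLike.mul_mem_graded hs ht
    rwa [show 2 * k + 1 + (2 * l + 1) = 2 * (k + l + 1) by ring] at h1

end Pos

section Self

variable {R A : Type} [CommRing R] [CommRing A] [Algebra R A] (p : Ideal R) [p.IsPrime]
  (S : Subalgebra R A)

theorem locSub_eq_self (h : ∀ r, r ∉ p → IsUnit r) : locSub p S = S := by
  apply le_antisymm
  · rintro x ⟨r, hr, hx⟩
    obtain ⟨u, rfl⟩ := h r hr
    have h1 := S.smul_mem hx ((u⁻¹ : Rˣ) : R)
    rwa [smul_smul, Units.inv_mul, one_smul] at h1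
  · exact le_locSub p S

end Self

section Split

variable {R O O₁ K A K₁ A₁ : Type} [CommRing R] [IsDomain R] [CommRing O] [IsDomain O]
  [IsDiscreteValuationRing O] [CommRing O₁] [IsDomain O₁]
  [IsDiscreteValuationRing O₁] {κ : O →+* O₁} [IsLocalHom κ] {ω : O₁} {a b : O}
  (hκ : EtaleLike κ ω a b) [Algebra R O] (p : Ideal R) [p.IsPrime] [IsLocalization.AtPrime O p]
  [CommRing K] [CommRing A] [Algebra R K] [Algebra K A] [Algebra R A] [IsScalarTower R K A]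
  [Algebra O K] [Algebra O A] [IsScalarTower O K A] [IsScalarTower R O A]
  (𝒜 : ℕ → Submodule K A) [GradedAlgebra 𝒜]
  [Field K₁] [CommRing A₁] [IsDomain A₁] [Algebra O₁ K₁] [Algebra K₁ A₁]
  [Algebra O₁ A₁] [IsScalarTower O₁ K₁ A₁] [Algebra K K₁]
  (𝒜₁ : ℕ → Submodule K₁ A₁) [GradedAlgebra 𝒜₁]
  {j : A →+* A₁} (hev : EvenMap 𝒜 𝒜₁ (algebraMap O₁ K₁ ω) j)
  (hcomp : ∀ o, algebraMap K K₁ (algebraMap O K o) = algebraMap O₁ K₁ (κ o))

include hev hcomp in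
theorem EvenMap.hj (o : O) : j (algebraMap O A o) = algebraMap O₁ A₁ (κ o) := by
  rw [IsScalarTower.algebraMap_apply O K A, hev.alg, hcomp, ← IsScalarTower.algebraMap_apply]

include hκ hev hcomp in
/-- Local orders at primes splitting in the quadratic extension. -/
theorem exists_gens_split {π : O} (hπ₁ : Irreducible (κ π))
    (hdens : ∀ n : ℕ, ∃ (r : O) (o : O₁), ω - κ r = (κ π) ^ n * o) {F₁ : Set A₁}
    (hF₁ : F₁.Finite) (hF₁h : ∀ x ∈ F₁, ∃ i, 0 < i ∧ x ∈ 𝒜₁ i)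
    (hfull₁ : ∀ x, ∃ r : O₁, r ≠ 0 ∧ r • x ∈ Algebra.adjoin O₁ F₁)
    (hreg : RegAt 𝒜₁ (Algebra.adjoin O₁ F₁)) :
    ∃ F : Set A, F.Finite ∧ (∀ x ∈ F, ∃ i, 0 < i ∧ x ∈ 𝒜 i) ∧
      (∀ x, ∃ r : R, r ≠ 0 ∧ r • x ∈ Algebra.adjoin R F) ∧
      RegAt 𝒜 (locSub p (Algebra.adjoin R F)) := by
  have hj := EvenMap.hj 𝒜 𝒜₁ hev hcomp
  have hpow : ∀ x : A₁, ∃ n : ℕ, (κ π) ^ n • x ∈ Algebra.adjoin O₁ F₁ := by
    intro x
    obtain ⟨r, hr, hx⟩ := hfull₁ x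
    obtain ⟨n, u, hu⟩ := IsDiscreteValuationRing.eq_unit_mul_pow_irreducible hr hπ₁
    refine ⟨n, ?_⟩
    have h1 : (κ π) ^ n • x = ((u⁻¹ : O₁ˣ) : O₁) • (r • x) := by
      rw [hu, smul_smul, ← mul_assoc, Units.inv_mul, one_mul]
    rw [h1]
    exact Subalgebra.smul_mem _ hx _
  -- the components
  have key : ∀ x ∈ evenGens 𝒜₁ F₁, ∃ (k : ℕ) (y z : A) (o : O₁), 0 < k ∧ y ∈ 𝒜 k ∧ z ∈ 𝒜 k ∧
      x = j y + o • j z ∧ j y ∈ Algebra.adjoin O₁ F₁ ∧ j z ∈ Algebra.adjoin O₁ F₁ := by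
    intro x hx
    obtain ⟨k, hk, hxk⟩ := evenGens_homog_pos 𝒜₁ hF₁h hx
    obtain ⟨s, hs, s', hs', he⟩ := hev.exi k x hxk
    obtain ⟨n, hn⟩ := hpow (j s')
    obtain ⟨r, o, hro⟩ := hdens n
    have hsm : ∀ (c : O) (v : A), v ∈ 𝒜 k → c • v ∈ 𝒜 k := by
      intro c v hv
      rw [← IsScalarTower.algebraMap_smul K c v]
      exact Submodule.smul_mem _ _ hv
    have hjsm : ∀ (c : O) (v : A), j (c • v) = κ c • j v := by
      intro c v
      rw [Algebra.smul_def, map_mul, hj, ← Algebra.smul_def]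
    have hz : j (π ^ n • s') ∈ Algebra.adjoin O₁ F₁ := by
      rw [hjsm, map_pow]
      exact hn
    have hx' : x = j (s + r • s') + o • j (π ^ n • s') := by
      rw [map_add, hjsm, hjsm, map_pow, smul_smul, mul_comm o, ← hro, sub_smul, he,
        IsScalarTower.algebraMap_smul]
      abel
    refine ⟨k, s + r • s', π ^ n • s', o, hk, Submodule.add_mem _ hs (hsm _ _ hs'),
      hsm _ _ hs', hx', ?_, hz⟩
    have h1 : j (s + r • s') = x - o • j (π ^ n • s') := by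
      rw [hx']
      abel
    rw [h1]
    refine Subalgebra.sub_mem _ ?_ (Subalgebra.smul_mem _ hz _)
    exact evenGens_subset 𝒜₁ (Algebra.subset_adjoin) hx
  choose! k y z o hk hy hz hx hjy hjz using key
  refine ⟨y '' evenGens 𝒜₁ F₁ ∪ z '' evenGens 𝒜₁ F₁,
    ((finite_evenGens 𝒜₁ hF₁).image _).union ((finite_evenGens 𝒜₁ hF₁).image _), ?_, ?_⟩
  · rintro _ (⟨x, hx', rfl⟩ | ⟨x, hx', rfl⟩)
    · exact ⟨k x, hk x hx', hy x hx'⟩
    · exact ⟨k x, hk x hx', hz x hx'⟩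
  · refine good_of_desc hκ p 𝒜 𝒜₁ hj hev.gr ?_ ?_ ?_ ?_ ?_ hreg
    · intro x x' hxx
      rw [← IsScalarTower.algebraMap_smul K₁ ω (j x')] at hxx
      exact hev.uniq x x' hxx
    · intro x hx'
      obtain ⟨i, _, hi⟩ := hF₁h x hx'
      exact ⟨i, hi⟩
    · rintro _ (⟨x, hx', rfl⟩ | ⟨x, hx', rfl⟩)
      · exact hjy x hx'
      · exact hjz x hx'
    · intro x hx'
      rw [hx x hx']
      refine Fr.add hκ hj (Fr.of_mem ?_) (Fr.smul hκ hj (Fr.of_mem ?_) _)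
      · exact Algebra.subset_adjoin (Or.inl ⟨x, hx', rfl⟩)
      · exact Algebra.subset_adjoin (Or.inr ⟨x, hx', rfl⟩)
    · intro k x _
      obtain ⟨n, hn⟩ := hpow (j x)
      refine ⟨π ^ n, pow_ne_zero n ?_, by rwa [map_pow]⟩
      rintro rfl
      rw [map_zero] at hπ₁
      exact hπ₁.ne_zero rfl

end Split

end Pool.Agent.Lib.MP_6a3dac_ag
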