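import Mathlib

/-!
# Presentations of quaternion division algebras
-/

set_option autoImplicit false
set_option linter.unusedSectionVars false

namespace Pool.Agent.Lib.MP_6a3dac_ag

open scoped Quaternion

section Nrd

variable {K : Type} [Field K] {a b c : K}

/-- The reduced norm. -/
def nrd (d : ℍ[K,a,b,c]) : K :=
  d.re ^ 2 + b * d.re * d.imI - a * d.imI ^ 2 - c * d.imJ ^ 2 - b * c * d.imJ * d.imK +
    a * c * d.imK ^ 2

/-- The reduced trace. -/
def trd (d : ℍ[K,a,b,c]) : K := 2 * d.re + b * d.imI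

theorem mul_star_nrd (d : ℍ[K,a,b,c]) : d * star d = algebraMap K _ (nrd d) := by
  change _ = (⟨nrd d, 0, 0, 0⟩ : ℍ[K,a,b,c])
  ext
  · simp [nrd]
    ring
  · simp
    ring
  · simp
    ring
  · simp
    ring

theorem star_mul_nrd (d : ℍ[K,a,b,c]) : star d * d = algebraMap K _ (nrd d) := by
  change _ = (⟨nrd d, 0, 0, 0⟩ : ℍ[K,a,b,c])
  ext
  · simp [nrd]
    ring
  · simp
    ring
  · simp
    ring
  · simp
    ring

theorem add_star_trd (d : ℍ[K,a,b,c]) : d + star d = algebraMap K _ (trd d) := by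
  change _ = (⟨trd d, 0, 0, 0⟩ : ℍ[K,a,b,c])
  ext
  · simp [trd]
    ring
  · simp
  · simp
  · simp

theorem mul_self_eq (d : ℍ[K,a,b,c]) : d * d = (-nrd d) • (1 : ℍ[K,a,b,c]) + trd d • d := by
  have h1 : star d = algebraMap K _ (trd d) - d := by
    rw [← add_star_trd]
    abel
  have h2 := mul_star_nrd d
  rw [h1, mul_sub] at h2
  rw [neg_smul, ← Algebra.algebraMap_eq_smul_one, ← h2, Algebra.smul_def, ← Algebra.commutes]
  abel

theorem nrd_mul (d e : ℍ[K,a,b,c]) : nrd (d * e) = nrd d * nrd e := by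
  simp [nrd]
  ring

theorem nrd_star (d : ℍ[K,a,b,c]) : nrd (star d) = nrd d := by
  simp [nrd]
  ring

theorem nrd_smul (r : K) (d : ℍ[K,a,b,c]) : nrd (r • d) = r ^ 2 * nrd d := by
  simp [nrd]
  ring

theorem nrd_algebraMap (r : K) : nrd (algebraMap K ℍ[K,a,b,c] r) = r ^ 2 := by
  simp [nrd]

theorem trd_algebraMap (r : K) : trd (algebraMap K ℍ[K,a,b,c] r) = 2 * r := by
  simp [trd]

theorem trd_smul (r : K) (d : ℍ[K,a,b,c]) : trd (r • d) = r * trd d := by
  simp [trd]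
  ring

theorem trd_add (d e : ℍ[K,a,b,c]) : trd (d + e) = trd d + trd e := by
  simp [trd]
  ring

theorem trd_star_mul (d e : ℍ[K,a,b,c]) : trd (star d * e) = nrd (d + e) - nrd d - nrd e := by
  simp [nrd, trd]
  ring

theorem trd_mul_comm (d e : ℍ[K,a,b,c]) : trd (d * e) = trd (e * d) := by
  simp [trd]
  ring

end Nrd

section Division

variable {K : Type} [Field K] {a b c : K}

theorem nrd_ne_zero (hD : ∀ x : ℍ[K,a,b,c], x ≠ 0 → IsUnit x) {d : ℍ[K,a,b,c]} (hd : d ≠ 0) :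
    nrd d ≠ 0 := by
  intro h
  have h1 := mul_star_nrd d
  rw [h, map_zero] at h1
  obtain ⟨e, he⟩ := (hD d hd).exists_left_inv
  have h2 : star d = 0 := by
    rw [← one_mul (star d), ← he, mul_assoc, h1, mul_zero]
  apply hd
  rw [← star_star d, h2, star_zero]

theorem mul_eq_zero_div (hD : ∀ x : ℍ[K,a,b,c], x ≠ 0 → IsUnit x) {d e : ℍ[K,a,b,c]}
    (h : d * e = 0) (hd : d ≠ 0) : e = 0 := by
  obtain ⟨f, hf⟩ := (hD d hd).exists_left_inv
  rw [← one_mul e, ← hf, mul_assoc, h, mul_zero]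

theorem mul_eq_zero_div' (hD : ∀ x : ℍ[K,a,b,c], x ≠ 0 → IsUnit x) {d e : ℍ[K,a,b,c]}
    (h : d * e = 0) (he : e ≠ 0) : d = 0 := by
  by_contra hd
  exact he (mul_eq_zero_div hD h hd)

/-- Presentations of a quaternion division algebra. -/
theorem exists_iso_of_theta [CharZero K] (hD : ∀ x : ℍ[K,a,b,c], x ≠ 0 → IsUnit x)
    {θ J : ℍ[K,a,b,c]} {A B C : K} (hθ : θ * θ = A • 1 + B • θ) (hJ : J * J = C • 1)
    (hJθ : J * θ = B • J - θ * J) (hθK : ∀ r : K, θ ≠ algebraMap K _ r) (hJ0 : J ≠ 0) :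
    Nonempty (ℍ[K,A,B,C] ≃ₐ[K] ℍ[K,a,b,c]) := by
  let q : QuaternionAlgebra.Basis ℍ[K,a,b,c] A B C :=
    { i := θ, j := J, k := θ * J, i_mul_i := hθ, j_mul_j := hJ, i_mul_j := rfl, j_mul_i := hJθ }
  have h2 : (2 : K) ≠ 0 := two_ne_zero
  have hker : ∀ x y : K, algebraMap K ℍ[K,a,b,c] x + y • θ = 0 → x = 0 ∧ y = 0 := by
    intro x y h
    have hy : y = 0 := by
      by_contra hy
      apply hθK (-(y⁻¹ * x))
      have h3 := congrArg (fun z => y⁻¹ • z) h
      simp only [smul_add, smul_smul, inv_mul_cancel₀ hy, one_smul, smul_zero] at h3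
      rw [map_neg, map_mul, ← Algebra.smul_def]
      exact eq_neg_of_add_eq_zero_right h3
    subst hy
    rw [zero_smul, add_zero] at h
    exact ⟨(map_eq_zero_iff _ (algebraMap K ℍ[K,a,b,c]).injective).mp h, rfl⟩
  have hinj : Function.Injective q.liftHom := by
    rw [injective_iff_map_eq_zero]
    intro d hd
    obtain ⟨x, y, z, w⟩ := d
    have hd' : (algebraMap K ℍ[K,a,b,c] x + y • θ) + (algebraMap K ℍ[K,a,b,c] z + w • θ) * J =
        0 := by
      have h3 : q.liftHom (⟨x, y, z, w⟩ : ℍ[K,A,B,C]) =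
          algebraMap K ℍ[K,a,b,c] x + y • θ + z • J + w • (θ * J) := rfl
      rw [h3] at hd
      rw [← hd, add_mul, ← Algebra.smul_def, smul_mul_assoc]
      abel
    set u := algebraMap K ℍ[K,a,b,c] x + y • θ with hu
    set v := algebraMap K ℍ[K,a,b,c] z + w • θ with hv
    have hcu : θ * u = u * θ := by
      rw [hu, mul_add, add_mul, ← Algebra.commutes, mul_smul_comm, smul_mul_assoc]
    have hcv : θ * v = v * θ := by
      rw [hv, mul_add, add_mul, ← Algebra.commutes, mul_smul_comm, smul_mul_assoc]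
    have h3 : v * ((2 • θ - algebraMap K _ B) * J) = 0 := by
      have h4 : θ * (u + v * J) - (u + v * J) * θ = v * ((2 • θ - algebraMap K _ B) * J) := by
        have e1 : θ * (v * J) = v * (θ * J) := by rw [← mul_assoc, hcv, mul_assoc]
        have e2 : v * J * θ = v * (B • J - θ * J) := by rw [mul_assoc, hJθ]
        rw [mul_add θ u (v * J), add_mul u (v * J) θ, hcu, e1, e2,
          sub_mul (2 • θ) (algebraMap K _ B) J, ← Algebra.smul_def, two_nsmul, add_mul θ θ J,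
          mul_sub v (B • J) (θ * J), mul_sub v (θ * J + θ * J) (B • J), mul_add v (θ * J) (θ * J)]
        abel
      rw [← h4, hd', mul_zero, zero_mul, sub_zero]
    have h5 : (2 • θ - algebraMap K _ B) ≠ 0 := by
      intro h5
      apply hθK (2⁻¹ * B)
      rw [map_mul, ← Algebra.smul_def, ← sub_eq_zero.mp h5, two_nsmul, ← two_smul K, smul_smul,
        inv_mul_cancel₀ h2, one_smul]
    have h6 : (2 • θ - algebraMap K _ B) * J ≠ 0 := fun h7 => hJ0 (mul_eq_zero_div hD h7 h5)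
    have h7 : v = 0 := mul_eq_zero_div' hD h3 h6
    obtain ⟨hz, hw⟩ := hker z w h7
    have h8 : u = 0 := by
      rw [h7, zero_mul, add_zero] at hd'
      exact hd'
    obtain ⟨hx, hy⟩ := hker x y h8
    subst hx hy hz hw
    rfl
  have hbij : Function.Bijective q.liftHom := by
    refine ⟨hinj, ?_⟩
    have h3 : Module.finrank K ℍ[K,A,B,C] = Module.finrank K ℍ[K,a,b,c] := by
      rw [QuaternionAlgebra.finrank_eq_four, QuaternionAlgebra.finrank_eq_four]
    exact (LinearMap.injective_iff_surjective_of_finrank_eq_finrank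
      (f := q.liftHom.toLinearMap) h3).mp hinj
  exact ⟨AlgEquiv.ofBijective q.liftHom hbij⟩

theorem c_ne_zero_of_division (hD : ∀ x : ℍ[K,a,b,c], x ≠ 0 → IsUnit x) : c ≠ 0 := by
  rintro rfl
  have h1 : (⟨0, 0, 1, 0⟩ : ℍ[K,a,b,0]) ≠ 0 := by
    intro h
    have h2 := congrArg QuaternionAlgebra.imJ h
    simp at h2
  apply nrd_ne_zero hD h1
  simp [nrd]

theorem root_of_division (hD : ∀ x : ℍ[K,a,b,c], x ≠ 0 → IsUnit x) (r : K) :
    r * r ≠ a + b * r := by
  intro hr
  have h1 : (⟨-r, 1, 0, 0⟩ : ℍ[K,a,b,c]) ≠ 0 := by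
    intro h
    have h2 := congrArg QuaternionAlgebra.imI h
    simp at h2
  apply nrd_ne_zero hD h1
  simp [nrd]
  linear_combination hr

theorem disc_of_division [CharZero K] (hD : ∀ x : ℍ[K,a,b,c], x ≠ 0 → IsUnit x) :
    b ^ 2 + 4 * a ≠ 0 := by
  intro h
  apply root_of_division hD (2⁻¹ * b)
  have h2 : (2 : K) ≠ 0 := two_ne_zero
  field_simp
  linear_combination -h

theorem exists_noncomm [CharZero K] (hD : ∀ x : ℍ[K,a,b,c], x ≠ 0 → IsUnit x)
    {θ : ℍ[K,a,b,c]} (hθK : ∀ r : K, θ ≠ algebraMap K _ r) : ∃ x : ℍ[K,a,b,c],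
      x * θ - θ * x ≠ 0 := by
  by_contra hcon
  push Not at hcon
  have hc := c_ne_zero_of_division hD
  obtain ⟨x, y, z, w⟩ := θ
  have h1 := hcon ⟨0, 1, 0, 0⟩
  have h2 := hcon ⟨0, 0, 1, 0⟩
  have e1 := congrArg QuaternionAlgebra.imK h1
  have e2 := congrArg QuaternionAlgebra.imK h2
  have e3 := congrArg QuaternionAlgebra.imI h2
  simp at e1 e2 e3
  have h2' : (2 : K) ≠ 0 := two_ne_zero
  have hy : y = 0 := by
    apply (mul_eq_zero.mp (_ : 2 * y = 0)).resolve_left h2'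
    linear_combination -e2
  have hw : w = 0 := by
    apply (mul_eq_zero.mp (_ : (2 * c) * w = 0)).resolve_left (mul_ne_zero h2' hc)
    linear_combination -e3
  have hz : z = 0 := by
    apply (mul_eq_zero.mp (_ : 2 * z = 0)).resolve_left h2'
    subst hw
    linear_combination e1
  subst hy hw hz
  exact hθK x rfl

/-- **Presentations from elements of a quaternion division algebra.** -/
theorem exists_presentation [CharZero K] (hD : ∀ x : ℍ[K,a,b,c], x ≠ 0 → IsUnit x)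
    {θ : ℍ[K,a,b,c]} {A B : K} (hθ : θ * θ = A • 1 + B • θ)
    (hθK : ∀ r : K, θ ≠ algebraMap K _ r) :
    ∃ (J : ℍ[K,a,b,c]) (C : K), J ≠ 0 ∧ C ≠ 0 ∧ J * J = C • 1 ∧ J * θ = B • J - θ * J := by
  obtain ⟨x, hx⟩ := exists_noncomm hD hθK
  refine ⟨x * θ - θ * x, -nrd (x * θ - θ * x), hx, neg_ne_zero.mpr (nrd_ne_zero hD hx), ?_, ?_⟩
  · have h1 : trd (x * θ - θ * x) = 0 := by
      have h2 : x * θ - θ * x = x * θ + (-1 : K) • (θ * x) := by
        rw [neg_smul, one_smul, sub_eq_add_neg]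
      rw [h2, trd_add, trd_smul, trd_mul_comm]
      ring
    rw [mul_self_eq, h1, zero_smul, add_zero]
  · have h1 : (x * θ - θ * x) * θ + θ * (x * θ - θ * x) = x * (θ * θ) - (θ * θ) * x := by
      noncomm_ring
    rw [hθ, mul_add, add_mul, mul_smul_comm, mul_smul_comm, smul_mul_assoc, smul_mul_assoc,
      mul_one, one_mul] at h1
    rw [eq_sub_iff_add_eq, h1, smul_sub]
    abel

end Division

end Pool.Agent.Lib.MP_6a3dac_ag
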