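import Pool.Agent.Lib.MP_6a3dac_ag.Mg.G001

/-!
# Planes and norms over finite fields
-/

set_option autoImplicit false
set_option linter.unusedSectionVars false

namespace Pool.Agent.Lib.MP_6a3dac_ag

open Matrix

section Plane

variable {k : Type} [Field k] [Finite k] {n : ℕ}

theorem exists_sqrt_char_two (h2 : (2 : k) = 0) (z : k) : ∃ x : k, x ^ 2 = z := by
  have hinj : Function.Injective (fun x : k => x ^ 2) := by
    intro x y hxy
    have h1 : (x - y) ^ 2 = 0 := by
      simp only at hxy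
      linear_combination hxy + (y ^ 2 - x * y) * h2
    exact sub_eq_zero.mp (pow_eq_zero_iff two_ne_zero |>.mp h1)
  exact (Finite.surjective_of_injective hinj) z

/-- The norm form of a separable quadratic algebra over a finite field represents everything. -/
theorem exists_norm_eq {T N : k} (hd : T ^ 2 - 4 * N ≠ 0) (z : k) :
    ∃ x y : k, x ^ 2 + T * x * y + N * y ^ 2 = z := by
  by_cases h2 : (2 : k) = 0
  · obtain ⟨x, hx⟩ := exists_sqrt_char_two h2 z
    exact ⟨x, 0, by rw [← hx]; ring⟩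
  · have := Fintype.ofFinite k
    have hchar : ringChar k ≠ 2 := by
      intro h
      apply h2
      have h3 := ringChar.Nat.cast_ringChar (R := k)
      rw [h] at h3
      exact_mod_cast h3
    have hodd := FiniteField.odd_card_of_char_ne_two hchar
    have h4 : (4 : k) ≠ 0 := by
      have h5 : (4 : k) = 2 * 2 := by norm_num
      rw [h5]
      exact mul_ne_zero h2 h2
    have hδ : N - T ^ 2 / 4 ≠ 0 := by
      intro h
      apply hd
      field_simp at h
      linear_combination -h
    obtain ⟨x, y, hxy⟩ := FiniteField.exists_root_sum_quadratic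
      (f := Polynomial.C (1 : k) * Polynomial.X ^ 2 + Polynomial.C (0 : k) * Polynomial.X +
        Polynomial.C (-z))
      (g := Polynomial.C (N - T ^ 2 / 4) * Polynomial.X ^ 2 + Polynomial.C (0 : k) * Polynomial.X +
        Polynomial.C (0 : k))
      (Polynomial.degree_quadratic one_ne_zero) (Polynomial.degree_quadratic hδ) hodd
    refine ⟨x - T / 2 * y, y, ?_⟩
    simp only [Polynomial.eval_add, Polynomial.eval_mul, Polynomial.eval_C, Polynomial.eval_pow,
      Polynomial.eval_X] at hxy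
    field_simp at hxy ⊢
    linear_combination hxy

/-- A quadratic form over a finite field without null vectors has a nondegenerate plane. -/
theorem exists_plane (A : Matrix (Fin n) (Fin n) k) (S : Finset (Fin n))
    (hnull : ∀ v, (A + Aᵀ) *ᵥ v = 0 → qf A v = 0 → ∀ l ∈ S, v l = 0) (hS : 2 ≤ S.card) :
    ∃ v w : Fin n → k, qf A v ≠ 0 ∧
      (qf A (v + w) - qf A v - qf A w) ^ 2 - 4 * qf A v * qf A w ≠ 0 := by
  classical
  by_contra hcon
  push Not at hcon
  obtain ⟨l₁, h₁, l₂, h₂, hl⟩ := Finset.one_lt_card.mp (by omega : 1 < S.card)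
  have hbil : ∀ v w, qf A (v + w) - qf A v - qf A w = v ⬝ᵥ (A + Aᵀ) *ᵥ w := by
    intro v w
    rw [qf_add]
    ring
  have hzero : ∀ w, (∀ v, v ⬝ᵥ (A + Aᵀ) *ᵥ w = 0) → (A + Aᵀ) *ᵥ w = 0 := by
    intro w hw
    ext i
    have h := hw (Pi.single i 1)
    rwa [single_one_dotProduct] at h
  simp only [hbil] at hcon
  obtain ⟨v₀, hv₀⟩ : ∃ v, qf A v ≠ 0 := by
    by_contra hq
    push Not at hq
    have h1 := hnull (fun _ => 1) (hzero _ fun v => by rw [← hbil, hq, hq, hq]; ring) (hq _) l₁ h₁
    exact one_ne_zero h1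
  by_cases h2 : (2 : k) = 0
  · have h4 : (4 : k) = 0 := by
      have h5 : (4 : k) = 2 * 2 := by norm_num
      rw [h5, h2, mul_zero]
    have hb1 : ∀ v w, qf A v ≠ 0 → v ⬝ᵥ (A + Aᵀ) *ᵥ w = 0 := by
      intro v w hv
      have h3 := hcon v w hv
      rw [h4, zero_mul, zero_mul, sub_zero] at h3
      exact pow_eq_zero_iff two_ne_zero |>.mp h3
    have hb : ∀ v w, v ⬝ᵥ (A + Aᵀ) *ᵥ w = 0 := by
      intro v w
      by_contra hne
      have hv : qf A v = 0 := by
        by_contra h
        exact hne (hb1 v w h)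
      have hw : qf A w = 0 := by
        by_contra h
        apply hne
        rw [dot_symm]
        exact hb1 w v h
      have hvw : qf A (v + w) ≠ 0 := by
        rw [qf_add, hv, hw, zero_add, zero_add]
        exact hne
      have h3 := hb1 (v + w) w hvw
      rw [add_dotProduct, dot_self, hw, mul_zero, add_zero] at h3
      exact hne h3
    obtain ⟨α, hα⟩ := exists_sqrt_char_two h2 (qf A (Pi.single l₁ 1))
    obtain ⟨β, hβ⟩ := exists_sqrt_char_two h2 (qf A (Pi.single l₂ 1))
    have h3 := hnull (β • Pi.single l₁ 1 + α • Pi.single l₂ 1) (hzero _ fun v => hb v _) (by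
      rw [qf_add, hb, qf_smul, qf_smul, ← hα, ← hβ]
      linear_combination (α ^ 2 * β ^ 2) * h2) l₂ h₂
    have hα0 : α = 0 := by
      simpa [Pi.single_eq_of_ne (Ne.symm hl)] using h3
    have h5 := hnull (Pi.single l₁ 1) (hzero _ fun v => hb v _) (by
      rw [← hα, hα0]
      ring) l₁ h₁
    rw [Pi.single_eq_same] at h5
    exact one_ne_zero h5
  · have h4 : (4 : k) ≠ 0 := by
      have h5 : (4 : k) = 2 * 2 := by norm_num
      rw [h5]
      exact mul_ne_zero h2 h2
    have key : ∀ u, v₀ ⬝ᵥ (A + Aᵀ) *ᵥ u = 0 → ∀ l ∈ S, u l = 0 := by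
      intro u hu
      have hq4 : ∀ w, 4 * qf A v₀ * qf A w = (v₀ ⬝ᵥ (A + Aᵀ) *ᵥ w) ^ 2 := by
        intro w
        linear_combination -(hcon v₀ w hv₀)
      have hc : 4 * qf A v₀ ≠ 0 := mul_ne_zero h4 hv₀
      have hqu : qf A u = 0 := by
        have h5 := hq4 u
        rw [hu] at h5
        apply (mul_eq_zero.mp (_ : 4 * qf A v₀ * qf A u = 0)).resolve_left hc
        rw [h5]
        ring
      apply hnull u ?_ hqu
      apply hzero
      intro w
      have h5 := hq4 (w + u)
      have h6 := hq4 w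
      rw [mulVec_add, dotProduct_add, hu, add_zero, ← h6] at h5
      have h7 := mul_left_cancel₀ hc h5
      rw [qf_add, hqu, add_zero] at h7
      linear_combination h7
    have h5 := key ((v₀ ⬝ᵥ (A + Aᵀ) *ᵥ (Pi.single l₂ 1)) • Pi.single l₁ 1 -
      (v₀ ⬝ᵥ (A + Aᵀ) *ᵥ (Pi.single l₁ 1)) • Pi.single l₂ 1) (by
      rw [mulVec_sub, mulVec_smul, mulVec_smul, dotProduct_sub, dotProduct_smul, dotProduct_smul,
        smul_eq_mul, smul_eq_mul]
      ring)
    have h6 : v₀ ⬝ᵥ (A + Aᵀ) *ᵥ (Pi.single l₁ 1) = 0 := by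
      have h7 := h5 l₂ h₂
      simpa [Pi.single_eq_of_ne (Ne.symm hl)] using h7
    have h7 := key (Pi.single l₁ 1) h6 l₁ h₁
    rw [Pi.single_eq_same] at h7
    exact one_ne_zero h7

end Plane

end Pool.Agent.Lib.MP_6a3dac_ag
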