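import Pool.Agent.Lib.MP_6a3dac_ag.QuatThetaA
import Pool.Agent.Lib.MP_6a3dac_ag.QuatThetaB
import Pool.Agent.Lib.MP_6a3dac_ag.Mg.G002

/-!
# Unramified quadratic subfields of quaternion algebras over local rings
-/

set_option autoImplicit false
set_option linter.unusedSectionVars false

namespace Pool.Agent.Lib.MP_6a3dac_ag

open Matrix IsLocalRing
open scoped Quaternion

section Norm

variable {K : Type} [Field K] {a b c : K}

/-- The quaternion with given coordinates. -/
def toQ (a b c : K) (v : Fin 4 → K) : ℍ[K,a,b,c] := ⟨v 0, v 1, v 2, v 3⟩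

theorem toQ_add (v w : Fin 4 → K) : toQ a b c (v + w) = toQ a b c v + toQ a b c w := by
  ext <;> simp [toQ]

/-- The matrix of the norm form. -/
def nrdM (a b c : K) : Matrix (Fin 4) (Fin 4) K :=
  !![1, b, 0, 0; 0, -a, 0, 0; 0, 0, -c, -(b * c); 0, 0, 0, a * c]

theorem qf_nrdM (v : Fin 4 → K) : qf (nrdM a b c) v = nrd (toQ a b c v) := by
  rw [qf_eq_sum]
  simp [nrdM, toQ, nrd, Fin.sum_univ_four]
  ring

theorem det_nrdM [CharZero K] (hc : c ≠ 0) (hd : b ^ 2 + 4 * a ≠ 0) :
    (nrdM a b c + (nrdM a b c)ᵀ).det ≠ 0 := by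
  intro h
  obtain ⟨v, hv, hM⟩ := Matrix.exists_mulVec_eq_zero_iff.mpr h
  have e0 := congrFun hM 0
  have e1 := congrFun hM 1
  have e2 := congrFun hM 2
  have e3 := congrFun hM 3
  simp [mulVec, dotProduct, Fin.sum_univ_four, nrdM] at e0 e1 e2 e3
  have h2 : (2 : K) ≠ 0 := two_ne_zero
  have v1 : v 1 = 0 := by
    apply (mul_eq_zero.mp (_ : (b ^ 2 + 4 * a) * v 1 = 0)).resolve_left hd
    linear_combination b * e0 - 2 * e1
  have v0 : v 0 = 0 := by
    apply (mul_eq_zero.mp (_ : 2 * v 0 = 0)).resolve_left h2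
    rw [v1] at e0
    linear_combination e0
  have v3 : v 3 = 0 := by
    apply (mul_eq_zero.mp (_ : (c * (b ^ 2 + 4 * a)) * v 3 = 0)).resolve_left
      (mul_ne_zero hc hd)
    linear_combination -b * e2 + 2 * e3
  have v2 : v 2 = 0 := by
    apply (mul_eq_zero.mp (_ : (2 * c) * v 2 = 0)).resolve_left (mul_ne_zero h2 hc)
    rw [v3] at e2
    linear_combination -e2
  apply hv
  ext i
  fin_cases i
  · exact v0
  · exact v1
  · exact v2
  · exact v3

end Norm

section Local

variable {O K : Type} [CommRing O] [IsDomain O] [IsDiscreteValuationRing O]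
  [Finite (ResidueField O)] [Field K] [CharZero K] [Algebra O K] [IsFractionRing O K]

/-- A plane on which a form has good reduction up to a scalar. -/
theorem exists_plane_lift {π : O} (hπ : Irreducible π) {q c h : Matrix (Fin 4) (Fin 4) O}
    {W : Finset (Fin 4)} (hS : SplitForm π q c h W) :
    ∃ (v w : Fin 4 → O) (t α β γ : O), t ≠ 0 ∧ qf (q + π • (c + h)) v = t * α ∧
      qf (q + π • (c + h)) w = t * γ ∧ qf (q + π • (c + h)) (v + w) = t * (α + β + γ) ∧
      IsUnit α ∧ IsUnit (β ^ 2 - 4 * α * γ) := by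
  classical
  have hφ : ∀ x ∈ maximalIdeal O, residue O x = 0 := fun x hx => (residue_eq_zero_iff x).mpr hx
  have hπ0 : residue O π = 0 := by
    apply hφ
    rw [hπ.maximalIdeal_eq]
    exact Ideal.mem_span_singleton_self π
  have hunit : ∀ x : O, residue O x ≠ 0 → IsUnit x := by
    intro x hx
    by_contra hcon
    exact hx (hφ x hcon)
  by_cases hcard : 2 ≤ (Wᶜ).card
  · obtain ⟨v₀, w₀, h1, h2⟩ := exists_plane (q.map (residue O)) Wᶜ (fun v g1 g2 l hl =>
      hS.radq _ (residue O) hφ v g1 g2 l (Finset.mem_compl.mp hl)) hcard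
    choose v hv using fun i => residue_surjective (R := O) (v₀ i)
    choose w hw using fun i => residue_surjective (R := O) (w₀ i)
    have key : ∀ (z : Fin 4 → O), residue O (qf (q + π • (c + h)) z) =
        qf (q.map (residue O)) (residue O ∘ z) := by
      intro z
      rw [← qf_map]
      congr 1
      ext i j
      simp [hπ0]
    have ev : residue O ∘ v = v₀ := funext hv
    have ew : residue O ∘ w = w₀ := funext hw
    have evw : residue O ∘ (v + w) = v₀ + w₀ := by
      ext i
      simp [hv, hw]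
    refine ⟨v, w, 1, qf (q + π • (c + h)) v, qf (q + π • (c + h)) (v + w) -
      qf (q + π • (c + h)) v - qf (q + π • (c + h)) w, qf (q + π • (c + h)) w, one_ne_zero,
      (one_mul _).symm, (one_mul _).symm, by ring, hunit _ ?_, hunit _ ?_⟩
    · rw [key, ev]
      exact h1
    · simp only [map_sub, map_pow, map_mul, key, ev, ew, evw, map_ofNat]
      exact h2
  · have hcard' : 2 ≤ W.card := by
      have h1 := Finset.card_add_card_compl W
      rw [Fintype.card_fin] at h1
      omega
    obtain ⟨v₀, w₀, h1, h2⟩ := exists_plane (h.map (residue O)) W (fun v g1 g2 l hl =>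
      hS.radh _ (residue O) hφ v g1 g2 l hl) hcard'
    choose v' hv' using fun i => residue_surjective (R := O) (v₀ i)
    choose w' hw' using fun i => residue_surjective (R := O) (w₀ i)
    let v : Fin 4 → O := fun i => if i ∈ W then v' i else 0
    let w : Fin 4 → O := fun i => if i ∈ W then w' i else 0
    have hqz : ∀ z : Fin 4 → O, (∀ i, i ∉ W → z i = 0) →
        qf (q + π • (c + h)) z = π * qf h z := by
      intro z hz
      rw [qf_eq_sum, qf_eq_sum, Finset.mul_sum]
      refine Finset.sum_congr rfl fun i _ => ?_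
      rw [Finset.mul_sum]
      refine Finset.sum_congr rfl fun j _ => ?_
      by_cases hi : i ∈ W
      · rw [Matrix.add_apply, Matrix.smul_apply, Matrix.add_apply, hS.q_zero i j (Or.inl hi),
          hS.c_zero i j (Or.inl hi), smul_eq_mul]
        ring
      · rw [hz i hi]
        ring
    have hres : ∀ (z : Fin 4 → O) (z₀ : Fin 4 → ResidueField O),
        (∀ i ∈ W, residue O (z i) = z₀ i) → residue O (qf h z) = qf (h.map (residue O)) z₀ := by
      intro z z₀ hz
      rw [qf_eq_sum, qf_eq_sum, map_sum]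
      refine Finset.sum_congr rfl fun i _ => ?_
      rw [map_sum]
      refine Finset.sum_congr rfl fun j _ => ?_
      by_cases hij : i ∉ W ∨ j ∉ W
      · rw [Matrix.map_apply, hS.h_zero i j hij, map_zero, zero_mul, zero_mul, map_zero, zero_mul,
          zero_mul]
      · push Not at hij
        rw [map_mul, map_mul, hz i hij.1, hz j hij.2]
        rfl
    have hvW : ∀ i, i ∉ W → v i = 0 := fun i hi => if_neg hi
    have hwW : ∀ i, i ∉ W → w i = 0 := fun i hi => if_neg hi
    have hvwW : ∀ i, i ∉ W → (v + w) i = 0 := by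
      intro i hi
      rw [Pi.add_apply, hvW i hi, hwW i hi, add_zero]
    have ev : ∀ i ∈ W, residue O (v i) = v₀ i := by
      intro i hi
      simp only [v, if_pos hi, hv']
    have ew : ∀ i ∈ W, residue O (w i) = w₀ i := by
      intro i hi
      simp only [w, if_pos hi, hw']
    have evw : ∀ i ∈ W, residue O ((v + w) i) = (v₀ + w₀) i := by
      intro i hi
      rw [Pi.add_apply, map_add, ev i hi, ew i hi, Pi.add_apply]
    refine ⟨v, w, π, qf h v, qf h (v + w) - qf h v - qf h w, qf h w, hπ.ne_zero,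
      hqz v hvW, hqz w hwW, ?_, hunit _ ?_, hunit _ ?_⟩
    · rw [hqz (v + w) hvwW]
      ring
    · rw [hres v v₀ ev]
      exact h1
    · simp only [map_sub, map_pow, map_mul, map_ofNat]
      rw [hres v v₀ ev, hres w w₀ ew, hres (v + w) (v₀ + w₀) evw]
      exact h2

/-- **Unramified quadratic subalgebras.** -/
theorem exists_theta {a b c : K} (hD : ∀ x : ℍ[K,a,b,c], x ≠ 0 → IsUnit x) :
    ∃ (θ : ℍ[K,a,b,c]) (T N : O), trd θ = algebraMap O K T ∧ nrd θ = algebraMap O K N ∧
      IsUnit (T ^ 2 - 4 * N) := by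
  obtain ⟨π, hπ⟩ := IsDiscreteValuationRing.exists_irreducible O
  obtain ⟨q, c', h, W, ⟨g, g', hgg, hgg', u, hu, hrel⟩, hS⟩ := exists_splitForm (O := O)
    (by norm_num : 0 < 4) (nrdM a b c)
    (det_nrdM (c_ne_zero_of_division hD) (disc_of_division hD)) hπ
  obtain ⟨v, w, t, α, β, γ, ht, e1, e2, e3, hα, hdisc⟩ := exists_plane_lift hπ hS
  have hinj := IsFractionRing.injective O K
  have htK : algebraMap O K t ≠ 0 := by
    rw [Ne, map_eq_zero_iff _ hinj]
    exact ht
  have hαK : algebraMap O K α ≠ 0 := by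
    rw [Ne, map_eq_zero_iff _ hinj]
    exact hα.ne_zero
  -- the values of the norm form
  have hval : ∀ z : Fin 4 → O, algebraMap O K (qf (q + π • (c' + h)) z) =
      u * nrd (toQ a b c (g *ᵥ (algebraMap O K ∘ z))) := by
    intro z
    have h2 : (2 : K) ≠ 0 := two_ne_zero
    apply mul_left_cancel₀ h2
    have h3 : (2 : K) * algebraMap O K (qf (q + π • (c' + h)) z) =
        algebraMap O K (z ⬝ᵥ ((q + π • (c' + h)) + (q + π • (c' + h))ᵀ) *ᵥ z) := by
      rw [dot_self, map_mul, map_ofNat]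
    have h4 : ∀ M : Matrix (Fin 4) (Fin 4) O, algebraMap O K (z ⬝ᵥ M *ᵥ z) =
        (algebraMap O K ∘ z) ⬝ᵥ (M.map (algebraMap O K)) *ᵥ (algebraMap O K ∘ z) := by
      intro M
      rw [map_mulVec']
      simp [dotProduct, map_sum]
    have h5 : (g *ᵥ (algebraMap O K ∘ z)) ⬝ᵥ (nrdM a b c + (nrdM a b c)ᵀ) *ᵥ
        (g *ᵥ (algebraMap O K ∘ z)) = (algebraMap O K ∘ z) ⬝ᵥ
          (gᵀ * (nrdM a b c + (nrdM a b c)ᵀ) * g) *ᵥ (algebraMap O K ∘ z) := by
      exact (qf_conj (nrdM a b c + (nrdM a b c)ᵀ) g (algebraMap O K ∘ z)).symm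
    rw [h3, h4, hrel, smul_mulVec, dotProduct_smul, smul_eq_mul, ← h5, dot_self, qf_nrdM]
    ring
  obtain ⟨x, hx⟩ : ∃ x, x = toQ a b c (g *ᵥ (algebraMap O K ∘ v)) := ⟨_, rfl⟩
  obtain ⟨y, hy⟩ : ∃ y, y = toQ a b c (g *ᵥ (algebraMap O K ∘ w)) := ⟨_, rfl⟩
  have hxy : toQ a b c (g *ᵥ (algebraMap O K ∘ (v + w))) = x + y := by
    have h3 : (algebraMap O K ∘ (v + w)) = algebraMap O K ∘ v + algebraMap O K ∘ w := by
      ext i
      simp
    rw [h3, mulVec_add, toQ_add, hx, hy]
  have f1 := hval v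
  have f2 := hval w
  have f3 := hval (v + w)
  rw [e1, ← hx, map_mul] at f1
  rw [e2, ← hy, map_mul] at f2
  rw [e3, hxy, map_mul, map_add, map_add] at f3
  have hnx : nrd x ≠ 0 := by
    intro h0
    rw [h0, mul_zero] at f1
    exact mul_ne_zero htK hαK f1
  obtain ⟨α', hα'⟩ := hα.exists_right_inv
  have hαα : algebraMap O K α * algebraMap O K α' = 1 := by rw [← map_mul, hα', map_one]
  refine ⟨(nrd x)⁻¹ • (star x * y), β * α', γ * α', ?_, ?_, ?_⟩
  · rw [trd_smul, trd_star_mul, map_mul]
    have h3 : u * (nrd (x + y) - nrd x - nrd y) = algebraMap O K t * algebraMap O K β := by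
      linear_combination -f3 + f1 + f2
    field_simp
    apply mul_left_cancel₀ hu
    apply mul_left_cancel₀ hαK
    linear_combination algebraMap O K α * h3 + algebraMap O K α * algebraMap O K α' *
      algebraMap O K β * f1 - algebraMap O K t * algebraMap O K β * algebraMap O K α * hαα
  · rw [nrd_smul, nrd_mul, nrd_star, map_mul]
    have h3 : ((nrd x)⁻¹) ^ 2 * (nrd x * nrd y) = (nrd x)⁻¹ * nrd y := by
      field_simp
    rw [h3]
    have h4 : algebraMap O K α * nrd y = algebraMap O K γ * nrd x := by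
      apply mul_left_cancel₀ hu
      linear_combination algebraMap O K γ * f1 - algebraMap O K α * f2
    apply mul_left_cancel₀ hnx
    apply mul_left_cancel₀ hαK
    rw [mul_inv_cancel_left₀ hnx]
    linear_combination h4 - nrd x * algebraMap O K γ * hαα
  · have h3 : (β * α') ^ 2 - 4 * (γ * α') = (β ^ 2 - 4 * α * γ) * α' ^ 2 := by
      linear_combination (4 * γ * α') * hα'
    rw [h3]
    refine hdisc.mul (IsUnit.pow 2 ?_)
    exact IsUnit.of_mul_eq_one α (by rw [mul_comm]; exact hα')

end Local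

end Pool.Agent.Lib.MP_6a3dac_ag
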