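import Pool.Agent.Lib.MP_6a3dac_ag.RamMaps

/-!
# The charts of quaternionic quadrics at ramified primes inside a ring
-/

set_option autoImplicit false

namespace Pool.Agent.Lib.MP_6a3dac_ag

open MvPolynomial IsLocalRing Matrix

section Smul

variable {O L σ : Type} [CommRing O] [CommRing L]

theorem eval₂Hom_mul_of_isHomogeneous₂ (φ : O →+* L) (v : L) (w : σ → L)
    {p : MvPolynomial σ O} {k : ℕ} (hp : p.IsHomogeneous k) :
    eval₂Hom φ (fun i => v * w i) p = v ^ k * eval₂Hom φ w p := by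
  rw [coe_eval₂Hom, coe_eval₂Hom, eval₂_eq, eval₂_eq, Finset.mul_sum]
  refine Finset.sum_congr rfl fun d hd => ?_
  have hdk : ∑ i ∈ d.support, d i = k := by
    have := hp (mem_support_iff.mp hd)
    rw [← this, Finsupp.weight_apply, Finsupp.sum]
    simp
  simp_rw [mul_pow]
  rw [Finset.prod_mul_distrib, Finset.prod_pow_eq_pow_sum, hdk]
  ring

end Smul

section Chart

variable {O L : Type} [CommRing O] [CommRing L] {m : ℕ} (φ : O →+* L) (π : O)
  (h h' : Matrix (Fin m) (Fin m) O) (W : Finset (Fin m)) (x y : Fin m → L)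
  (sx sx' sy sy' e e' : L)

open Classical in
/-- The values of the chart coordinates. -/
noncomputable def zR : RV m → L :=
  Sum.elim (Sum.elim (fun i => if i ∈ W then x i * sx' else x i * sx' * e')
    (fun i => if i ∈ W then y i * sy' else y i * sy' * e'))
    ![e, sx * sy' * e', φ π * sy * sx' * e', bl φ h x x * sx' ^ 2 * e',
      bl φ h' y y * sy' ^ 2 * e']

/-- The evaluation map of a chart. -/
noncomputable def dl : MvPolynomial (RV m) O →+* L :=
  eval₂Hom φ (zR φ π h h' W x y sx sx' sy sy' e e')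

theorem dl_C (r : O) : (dl φ π h h' W x y sx sx' sy sy' e e') (C r) = φ r := by simp [dl]

theorem dl_X (κ : RV m) : (dl φ π h h' W x y sx sx' sy sy' e e') (X κ) = zR φ π h h' W x y sx sx' sy sy' e e' κ := by simp [dl]

theorem dl_e : (dl φ π h h' W x y sx sx' sy sy' e e') (eV O m) = e := by rw [eV, dl_X]; rfl

theorem dl_u : (dl φ π h h' W x y sx sx' sy sy' e e') (uV O m) = sx * sy' * e' := by rw [uV, dl_X]; rfl

theorem dl_v : (dl φ π h h' W x y sx sx' sy sy' e e') (vV O m) = φ π * sy * sx' * e' := by rw [vV, dl_X]; rfl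

theorem dl_s : (dl φ π h h' W x y sx sx' sy sy' e e') (sV O m) = bl φ h x x * sx' ^ 2 * e' := by rw [sV, dl_X]; rfl

theorem dl_t : (dl φ π h h' W x y sx sx' sy sy' e e') (tV O m) = bl φ h' y y * sy' ^ 2 * e' := by rw [tV, dl_X]; rfl

theorem dl_a_mem {i : Fin m} (hi : i ∈ W) : (dl φ π h h' W x y sx sx' sy sy' e e') (aV O i) = x i * sx' := by
  rw [aV, dl_X]
  exact if_pos hi

theorem dl_a_notMem {i : Fin m} (hi : i ∉ W) : (dl φ π h h' W x y sx sx' sy sy' e e') (aV O i) = x i * sx' * e' := by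
  rw [aV, dl_X]
  exact if_neg hi

theorem dl_b_mem {i : Fin m} (hi : i ∈ W) : (dl φ π h h' W x y sx sx' sy sy' e e') (bV O i) = y i * sy' := by
  rw [bV, dl_X]
  exact if_pos hi

theorem dl_b_notMem {i : Fin m} (hi : i ∉ W) : (dl φ π h h' W x y sx sx' sy sy' e e') (bV O i) = y i * sy' * e' := by
  rw [bV, dl_X]
  exact if_neg hi

variable (he : e * e' = 1) (hsx : sx * sx' = 1) (hsy : sy * sy' = 1)

include he in
theorem dl_ahat (i : Fin m) : (dl φ π h h' W x y sx sx' sy sy' e e') (ahat O W i) = x i * sx' := by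
  by_cases hi : i ∈ W
  · rw [ahat_mem hi, dl_a_mem _ _ _ _ _ _ _ _ _ _ _ _ _ hi]
  · rw [ahat_notMem hi, map_mul, dl_e, dl_a_notMem _ _ _ _ _ _ _ _ _ _ _ _ _ hi]
    linear_combination (x i * sx') * he

include he in
theorem dl_bhat (i : Fin m) : (dl φ π h h' W x y sx sx' sy sy' e e') (bhat O W i) = y i * sy' := by
  by_cases hi : i ∈ W
  · rw [bhat_mem hi, dl_b_mem _ _ _ _ _ _ _ _ _ _ _ _ _ hi]
  · rw [bhat_notMem hi, map_mul, dl_e, dl_b_notMem _ _ _ _ _ _ _ _ _ _ _ _ _ hi]
    linear_combination (y i * sy') * he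

include he in
theorem dl_eu : (dl φ π h h' W x y sx sx' sy sy' e e') (eV O m) * (dl φ π h h' W x y sx sx' sy sy' e e') (uV O m) = sx * sy' := by
  rw [dl_e, dl_u]
  linear_combination (sx * sy') * he

include he in
theorem dl_ev : (dl φ π h h' W x y sx sx' sy sy' e e') (eV O m) * (dl φ π h h' W x y sx sx' sy sy' e e') (vV O m) = φ π * sy * sx' := by
  rw [dl_e, dl_v]
  linear_combination (φ π * sy * sx') * he

include he hsx hsy in
theorem dl_r0 : (dl φ π h h' W x y sx sx' sy sy' e e') (eV O m) ^ 2 * ((dl φ π h h' W x y sx sx' sy sy' e e') (uV O m) * (dl φ π h h' W x y sx sx' sy sy' e e') (vV O m)) = (dl φ π h h' W x y sx sx' sy sy' e e') (C π) := by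
  rw [dl_e, dl_u, dl_v, dl_C]
  linear_combination (φ π * (sy * sy') * (sx * sx') * (e * e' + 1)) * he +
    (φ π * (sy * sy')) * hsx + φ π * hsy

include he in
theorem dl_r1 (h_zero : ∀ i j, (i ∉ W ∨ j ∉ W) → h i j = 0) :
    (dl φ π h h' W x y sx sx' sy sy' e e') (bl C h (aV O) (aV O)) = (dl φ π h h' W x y sx sx' sy sy' e e') (eV O m) * (dl φ π h h' W x y sx sx' sy sy' e e') (sV O m) := by
  rw [map_bl, dl_e, dl_s]
  have h1 : (dl φ π h h' W x y sx sx' sy sy' e e').comp C = φ := by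
    ext r
    exact dl_C _ _ _ _ _ _ _ _ _ _ _ _ _ r
  have h2 : bl φ h (fun i => (dl φ π h h' W x y sx sx' sy sy' e e') (aV O i)) (fun i => (dl φ π h h' W x y sx sx' sy sy' e e') (aV O i)) = bl φ h (fun i => sx' * x i)
      (fun i => sx' * x i) := by
    refine bl_congr φ fun i j hij => ?_
    have hi : i ∈ W := by
      by_contra hi
      exact hij (h_zero i j (Or.inl hi))
    have hj : j ∈ W := by
      by_contra hj
      exact hij (h_zero i j (Or.inr hj))
    rw [dl_a_mem _ _ _ _ _ _ _ _ _ _ _ _ _ hi, dl_a_mem _ _ _ _ _ _ _ _ _ _ _ _ _ hj]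
    exact ⟨mul_comm _ _, mul_comm _ _⟩
  rw [h1, h2, bl_mul]
  linear_combination (-(sx' ^ 2 * bl φ h x x)) * he

include he in
theorem dl_r2 (h_zero : ∀ i j, (i ∉ W ∨ j ∉ W) → h' i j = 0) :
    (dl φ π h h' W x y sx sx' sy sy' e e') (bl C h' (bV O) (bV O)) = (dl φ π h h' W x y sx sx' sy sy' e e') (eV O m) * (dl φ π h h' W x y sx sx' sy sy' e e') (tV O m) := by
  rw [map_bl, dl_e, dl_t]
  have h1 : (dl φ π h h' W x y sx sx' sy sy' e e').comp C = φ := by
    ext r
    exact dl_C _ _ _ _ _ _ _ _ _ _ _ _ _ r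
  have h2 : bl φ h' (fun i => (dl φ π h h' W x y sx sx' sy sy' e e') (bV O i)) (fun i => (dl φ π h h' W x y sx sx' sy sy' e e') (bV O i)) = bl φ h' (fun i => sy' * y i)
      (fun i => sy' * y i) := by
    refine bl_congr φ fun i j hij => ?_
    have hi : i ∈ W := by
      by_contra hi
      exact hij (h_zero i j (Or.inl hi))
    have hj : j ∈ W := by
      by_contra hj
      exact hij (h_zero i j (Or.inr hj))
    rw [dl_b_mem _ _ _ _ _ _ _ _ _ _ _ _ _ hi, dl_b_mem _ _ _ _ _ _ _ _ _ _ _ _ _ hj]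
    exact ⟨mul_comm _ _, mul_comm _ _⟩
  rw [h1, h2, bl_mul]
  linear_combination (-(sy' ^ 2 * bl φ h' y y)) * he

/-- The evaluation of polynomials in the original coordinates. -/
noncomputable def lamP : MvPolynomial (Fin m ⊕ Fin m) O →+* L := eval₂Hom φ (Sum.elim x y)

include he hsx hsy in
theorem lamP_eq {p : MvPolynomial (Fin m ⊕ Fin m) O} {d : ℕ} (hp : p.IsHomogeneous d) :
    lamP φ x y p = sy ^ d * (dl φ π h h' W x y sx sx' sy sy' e e') (mu W p) := by
  have h1 : (dl φ π h h' W x y sx sx' sy sy' e e').comp (mu (O := O) (m := m) W).toRingHom =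
      eval₂Hom φ (fun i => sy' * (Sum.elim x y i)) := by
    apply MvPolynomial.ringHom_ext
    · intro r
      change (dl φ π h h' W x y sx sx' sy sy' e e') (mu W (C r)) = _
      rw [mu_C, dl_C, coe_eval₂Hom, eval₂_C]
    · intro v
      change (dl φ π h h' W x y sx sx' sy sy' e e') (mu W (X v)) = _
      rw [coe_eval₂Hom, eval₂_X]
      rcases v with i | i
      · change (dl φ π h h' W x y sx sx' sy sy' e e') (mu W (xV O i)) = sy' * x i
        rw [mu_x, map_mul, map_mul, dl_ahat _ _ _ _ _ _ _ _ _ _ _ _ _ he,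
          dl_eu _ _ _ _ _ _ _ _ _ _ _ _ _ he]
        linear_combination (sy' * x i) * hsx
      · change (dl φ π h h' W x y sx sx' sy sy' e e') (mu W (yV O i)) = sy' * y i
        rw [mu_y, dl_bhat _ _ _ _ _ _ _ _ _ _ _ _ _ he]
        ring
  have h2 : (dl φ π h h' W x y sx sx' sy sy' e e') (mu W p) = sy' ^ d * lamP φ x y p := by
    have h3 := DFunLike.congr_fun h1 p
    rw [eval₂Hom_mul_of_isHomogeneous₂ φ _ _ hp] at h3
    exact h3
  rw [h2, ← mul_assoc, ← mul_pow, hsy, one_pow, one_mul]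

/-- Homogeneity of bilinear expressions. -/
theorem isHomogeneous_bl {σ : Type} (A : Matrix (Fin m) (Fin m) O) {v w : Fin m → MvPolynomial σ O}
    {a b : ℕ} (hv : ∀ i, (v i).IsHomogeneous a) (hw : ∀ i, (w i).IsHomogeneous b) :
    (bl C A v w).IsHomogeneous (a + b) := by
  refine IsHomogeneous.sum _ _ _ fun i _ => IsHomogeneous.sum _ _ _ fun j _ => ?_
  have h1 := ((isHomogeneous_C σ (A i j)).mul (hv i)).mul (hw j)
  rwa [zero_add] at h1

theorem isHomogeneous_ramQ (q c h g k q' c' h' : Matrix (Fin m) (Fin m) O) :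
    (ramQ π q c h g k q' c' h').IsHomogeneous 2 := by
  have hx : ∀ i : Fin m, (xV O i).IsHomogeneous 1 := fun i => isHomogeneous_X _ _
  have hy : ∀ i : Fin m, (yV O i).IsHomogeneous 1 := fun i => isHomogeneous_X _ _
  refine ((isHomogeneous_bl _ hx hx).add (isHomogeneous_bl _ hx hy)).add ?_
  have h1 := (isHomogeneous_C (Fin m ⊕ Fin m) π).mul (isHomogeneous_bl (q' + c' + h') hy hy)
  rwa [zero_add] at h1

variable {q c g k q' c' : Matrix (Fin m) (Fin m) O}

include he hsx hsy in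
/-- The equations of a chart hold. -/
theorem dl_ramEqs [IsLocalRing O] (H : RamForm π q c h g k q' c' h' W) (n : Nrm m) {κ : RV m}
    (hSX : SX x y (φ π) n = sx) (hSY : SY x y n = sy)
    (hQ : lamP φ x y (ramQ π q c h g k q' c' h') = 0) (hκ : (dl φ π h h' W x y sx sx' sy sy' e e') (X κ) = 1) (i : Fin 7) :
    (dl φ π h h' W x y sx sx' sy sy' e e') (ramEqs π q c h g k q' c' h' W n κ i) = 0 := by
  have r0 := dl_r0 φ π h h' W x y sx sx' sy sy' e e' he hsx hsy
  have r1 := dl_r1 φ π h h' W x y sx sx' sy sy' e e' he H.h_zero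
  have r2 := dl_r2 φ π h h' W x y sx sx' sy sy' e e' he H.h_zero'
  have a1 := dl_ahat φ π h h' W x y sx sx' sy sy' e e' he
  have a2 := dl_bhat φ π h h' W x y sx sx' sy sy' e e' he
  have a3 := dl_eu φ π h h' W x y sx sx' sy sy' e e' he
  have a4 := dl_ev φ π h h' W x y sx sx' sy sy' e e' he
  fin_cases i
  · change (dl φ π h h' W x y sx sx' sy sy' e e') (eV O m ^ 2 * (uV O m * vV O m) - C π) = 0
    rw [map_sub, map_mul, map_mul, map_pow, r0, sub_self]
  · change (dl φ π h h' W x y sx sx' sy sy' e e') (bl C h (aV O) (aV O) - eV O m * sV O m) = 0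
    rw [map_sub, map_mul, r1, sub_self]
  · change (dl φ π h h' W x y sx sx' sy sy' e e') (bl C h' (bV O) (bV O) - eV O m * tV O m) = 0
    rw [map_sub, map_mul, r2, sub_self]
  · change (dl φ π h h' W x y sx sx' sy sy' e e') (ramF q c g k q' c' W) = 0
    have h1 := lamP_eq φ π h h' W x y sx sx' sy sy' e e' he hsx hsy
      (isHomogeneous_ramQ π q c h g k q' c' h')
    rw [hQ, rho_mu_ramQ' (dl φ π h h' W x y sx sx' sy sy' e e') H r0 r1 r2] at h1
    rw [dl_e, dl_u] at h1
    have h2 : (sy * sy') * (sx * sx') * (e * e') ^ 3 * (dl φ π h h' W x y sx sx' sy sy' e e') (ramF q c g k q' c' W) =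
        (sy' * sy * (sy * sy') * (sx * sx') * (e * e') ^ 3) * (dl φ π h h' W x y sx sx' sy sy' e e') (ramF q c g k q' c' W) := by
      rw [mul_comm sy' sy, hsy]; ring
    have h3 : (sy * sy') * (sx * sx') * (e * e') ^ 3 * (dl φ π h h' W x y sx sx' sy sy' e e') (ramF q c g k q' c' W) =
        e' ^ 2 * sx' * sy' * (sy ^ 2 * (e ^ 3 * (sx * sy' * e') * (dl φ π h h' W x y sx sx' sy sy' e e') (ramF q c g k q' c' W))) := by
      rw [h2]; ring
    rw [← h1, mul_zero, hsy, hsx, he] at h3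
    simpa using h3
  · change (dl φ π h h' W x y sx sx' sy sy' e e') (nrm1 O W n - 1) = 0
    rw [map_sub, map_one, sub_eq_zero]
    rcases n with i | j | ⟨i, j⟩
    · change (dl φ π h h' W x y sx sx' sy sy' e e') (ahat O W i) = 1
      change x i = sx at hSX
      rw [a1, hSX, hsx]
    · change (dl φ π h h' W x y sx sx' sy sy' e e') (eV O m * vV O m) = 1
      change φ π * y j = sx at hSX
      change y j = sy at hSY
      rw [map_mul, a4, ← hSY, hSX, hsx]
    · change (dl φ π h h' W x y sx sx' sy sy' e e') (ahat O W i) = 1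
      change x i = sx at hSX
      rw [a1, hSX, hsx]
  · change (dl φ π h h' W x y sx sx' sy sy' e e') (nrm2 O W n - 1) = 0
    rw [map_sub, map_one, sub_eq_zero]
    rcases n with i | j | ⟨i, j⟩
    · change (dl φ π h h' W x y sx sx' sy sy' e e') (eV O m * uV O m) = 1
      change x i = sx at hSX
      change x i = sy at hSY
      rw [map_mul, a3, ← hSX, hSY, hsy]
    · change (dl φ π h h' W x y sx sx' sy sy' e e') (bhat O W j) = 1
      change y j = sy at hSY
      rw [a2, hSY, hsy]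
    · change (dl φ π h h' W x y sx sx' sy sy' e e') (bhat O W j) = 1
      change y j = sy at hSY
      rw [a2, hSY, hsy]
  · change (dl φ π h h' W x y sx sx' sy sy' e e') (X κ - 1) = 0
    rw [map_sub, map_one, hκ, sub_self]

end Chart

end Pool.Agent.Lib.MP_6a3dac_ag
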