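import Pool.Agent.Lib.MP_6a3dac_ag.RamLin

/-!
# The linear algebra of the charts of quaternionic quadrics at ramified primes
-/

set_option autoImplicit false

namespace Pool.Agent.Lib.MP_6a3dac_ag

open MvPolynomial IsLocalRing Matrix

section Core

variable {O : Type} [CommRing O] {m : ℕ} {π : O}
  {q c h g k q' c' h' : Matrix (Fin m) (Fin m) O} {W : Finset (Fin m)}
  {κ : Type} [Field κ] (φ : O →+* κ)

open Classical in
/-- The vector of coordinates before the blow-up. -/
noncomputable def hatv (W : Finset (Fin m)) (e : κ) (α : Fin m → κ) (i : Fin m) : κ :=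
  if i ∈ W then α i else e * α i

theorem hatv_mem {i : Fin m} (hi : i ∈ W) (e : κ) (α : Fin m → κ) : hatv W e α i = α i := if_pos hi

theorem hatv_notMem {i : Fin m} (hi : i ∉ W) (e : κ) (α : Fin m → κ) :
    hatv W e α i = e * α i := if_neg hi

/-- Vanishing of a form `c` on vectors vanishing outside `W`. -/
theorem bl_c_eq_zero (c_zero : ∀ i j, (i ∈ W ∨ j ∉ W) → c i j = 0) (α : Fin m → κ)
    (hα : ∀ l, l ∉ W → α l = 0) : bl φ c α α = 0 := by
  refine Finset.sum_eq_zero fun i _ => Finset.sum_eq_zero fun j _ => ?_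
  by_cases hi : i ∈ W
  · rw [c_zero i j (Or.inl hi), map_zero]; ring
  · rw [hα i hi]; ring

theorem bl_q_eq_zero (q_zero : ∀ i j, (i ∈ W ∨ j ∈ W) → q i j = 0) (α : Fin m → κ)
    (hα : ∀ l, l ∉ W → α l = 0) : bl φ q α α = 0 := by
  refine Finset.sum_eq_zero fun i _ => Finset.sum_eq_zero fun j _ => ?_
  by_cases hi : i ∈ W
  · rw [q_zero i j (Or.inl hi), map_zero]; ring
  · rw [hα i hi]; ring

/-- The value of the whole form on the hat vector. -/
theorem bl_hatv (q_zero : ∀ i j, (i ∈ W ∨ j ∈ W) → q i j = 0)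
    (c_zero : ∀ i j, (i ∈ W ∨ j ∉ W) → c i j = 0)
    (h_zero : ∀ i j, (i ∉ W ∨ j ∉ W) → h i j = 0) (e : κ) (α : Fin m → κ) :
    bl φ (q + c + h) (hatv W e α) (hatv W e α) =
      e ^ 2 * bl φ q α α + e * bl φ c α α + bl φ h α α := by
  rw [bl_add, bl_add]
  congr 1
  · congr 1
    · rw [pow_two, ← bl_mul]
      refine bl_congr φ fun i j hij => ?_
      have hi : i ∉ W := fun hi => hij (q_zero i j (Or.inl hi))
      have hj : j ∉ W := fun hj => hij (q_zero i j (Or.inr hj))
      exact ⟨hatv_notMem hi e α, hatv_notMem hj e α⟩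
    · have h1 := bl_mul φ c e 1 α α
      rw [mul_one] at h1
      rw [← h1]
      refine bl_congr φ fun i j hij => ?_
      have hi : i ∉ W := fun hi => hij (c_zero i j (Or.inl hi))
      have hj : j ∈ W := by
        by_contra hj
        exact hij (c_zero i j (Or.inr hj))
      exact ⟨hatv_notMem hi e α, by rw [one_mul]; exact hatv_mem hj e α⟩
  · refine bl_congr φ fun i j hij => ?_
    have hi : i ∈ W := by
      by_contra hi
      exact hij (h_zero i j (Or.inl hi))
    have hj : j ∈ W := by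
      by_contra hj
      exact hij (h_zero i j (Or.inr hj))
    exact ⟨hatv_mem hi e α, hatv_mem hj e α⟩

open Classical in
/-- The derivative of the whole form. -/
theorem sum_hatv (q_zero : ∀ i j, (i ∈ W ∨ j ∈ W) → q i j = 0)
    (c_zero : ∀ i j, (i ∈ W ∨ j ∉ W) → c i j = 0)
    (h_zero : ∀ i j, (i ∉ W ∨ j ∉ W) → h i j = 0) (e : κ) (α : Fin m → κ) (l : Fin m) :
    e * ∑ j, φ (((q + c + h) + (q + c + h)ᵀ) l j) * hatv W e α j =
      (if l ∈ W then e else 1) * (e * ∑ j, φ ((c + cᵀ) l j) * α j +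
        e ^ 2 * ∑ j, φ ((q + qᵀ) l j) * α j) + e * ∑ j, φ ((h + hᵀ) l j) * α j := by
  by_cases hl : l ∈ W
  · rw [if_pos hl]
    simp only [Finset.mul_sum, ← Finset.sum_add_distrib]
    refine Finset.sum_congr rfl fun j _ => ?_
    by_cases hj : j ∈ W
    · simp only [Matrix.add_apply, Matrix.transpose_apply, q_zero l j (Or.inl hl),
        q_zero j l (Or.inl hj), c_zero l j (Or.inl hl), c_zero j l (Or.inl hj), hatv_mem hj,
        zero_add, map_zero]
      ring
    · simp only [Matrix.add_apply, Matrix.transpose_apply, q_zero l j (Or.inl hl),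
        q_zero j l (Or.inr hl), c_zero l j (Or.inl hl), h_zero l j (Or.inr hj),
        h_zero j l (Or.inl hj), hatv_notMem hj, zero_add, map_zero, add_zero]
      ring
  · rw [if_neg hl, one_mul]
    simp only [Finset.mul_sum, ← Finset.sum_add_distrib]
    refine Finset.sum_congr rfl fun j _ => ?_
    by_cases hj : j ∈ W
    · simp only [Matrix.add_apply, Matrix.transpose_apply, q_zero l j (Or.inr hj),
        q_zero j l (Or.inl hj), c_zero j l (Or.inl hj), h_zero l j (Or.inl hl),
        h_zero j l (Or.inr hl), hatv_mem hj, zero_add, map_zero, add_zero]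
      ring
    · simp only [Matrix.add_apply, Matrix.transpose_apply, c_zero l j (Or.inr hj),
        c_zero j l (Or.inr hl), h_zero l j (Or.inl hl),
        h_zero j l (Or.inr hl), hatv_notMem hj, map_zero, add_zero]
      ring

open Classical in
/-- The equations of a point of a chart, together with the relations of a dependent family of
equations, in which the coefficients of the normalizations have already been removed. -/
structure RamPt (c h g k q q' c' h' : Matrix (Fin m) (Fin m) O) (W : Finset (Fin m)) (π : O)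
    (κ₀ : RV m) (α β : Fin m → κ) (e u v s t A0 A1 A2 A3 : κ) : Prop where
  F0 : e ^ 2 * (u * v) = φ π
  F1 : bl φ h α α = e * s
  F2 : bl φ h' β β = e * t
  hN : ((∃ i, hatv W e α i = 1) ∧ e * u = 1) ∨ (e * v = 1 ∧ ∃ j, hatv W e β j = 1) ∨
    ((∃ i, hatv W e α i = 1) ∧ ∃ j, hatv W e β j = 1)
  Xk : Sum.elim (Sum.elim α β) ![e, u, v, s, t] κ₀ = 1
  Ds : A1 * e = A3 * u
  Dt : A2 * e = A3 * v
  Du : A0 * (e ^ 2 * v) + A3 * (s + bl φ c α α + e * bl φ q α α +
    v * bl φ k (hatv W e α) (hatv W e β)) = 0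
  Dv : A0 * (e ^ 2 * u) + A3 * (t + bl φ c' β β + e * bl φ q' β β +
    u * bl φ k (hatv W e α) (hatv W e β)) = 0
  Da : ∀ l, A1 * ∑ j, φ ((h + hᵀ) l j) * α j + A3 * (u * (∑ j, φ ((c + cᵀ) l j) * α j +
    e * ∑ j, φ ((q + qᵀ) l j) * α j) + ∑ j, φ (g l j) * β j +
    u * v * ((if l ∈ W then 1 else e) * ∑ j, φ (k l j) * hatv W e β j)) = 0
  Db : ∀ l, A2 * ∑ j, φ ((h' + h'ᵀ) l j) * β j + A3 * (v * (∑ j, φ ((c' + c'ᵀ) l j) * β j +
    e * ∑ j, φ ((q' + q'ᵀ) l j) * β j) + ∑ j, φ (g j l) * α j +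
    u * v * ((if l ∈ W then 1 else e) * ∑ j, φ (k j l) * hatv W e α j)) = 0

variable {κ₀ : RV m} {α β : Fin m → κ} {e u v s t A0 A1 A2 A3 : κ}

/-- The sum with the form `g`. -/
theorem sum_g_hatv (g_zero : ∀ i j, (i ∈ W ∨ j ∈ W) → g i j = 0) (β : Fin m → κ) (l : Fin m) :
    ∑ j, φ (g l j) * hatv W e β j = e * ∑ j, φ (g l j) * β j := by
  rw [Finset.mul_sum]
  refine Finset.sum_congr rfl fun j _ => ?_
  by_cases hj : j ∈ W
  · rw [g_zero l j (Or.inr hj), map_zero]; ring
  · rw [hatv_notMem hj]; ring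

open Classical in
/-- The relations in the nonexceptional form. -/
theorem ram_rel (q_zero : ∀ i j, (i ∈ W ∨ j ∈ W) → q i j = 0)
    (c_zero : ∀ i j, (i ∈ W ∨ j ∉ W) → c i j = 0)
    (h_zero : ∀ i j, (i ∉ W ∨ j ∉ W) → h i j = 0)
    (g_zero : ∀ i j, (i ∈ W ∨ j ∈ W) → g i j = 0)
    (F0 : e ^ 2 * (u * v) = φ π) (Ds : A1 * e = A3 * u) (l : Fin m)
    (Da : A1 * ∑ j, φ ((h + hᵀ) l j) * α j + A3 * (u * (∑ j, φ ((c + cᵀ) l j) * α j +
      e * ∑ j, φ ((q + qᵀ) l j) * α j) + ∑ j, φ (g l j) * β j +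
      u * v * ((if l ∈ W then 1 else e) * ∑ j, φ (k l j) * hatv W e β j)) = 0) :
    A3 * ((e * u) * ∑ j, φ (((q + c + h) + (q + c + h)ᵀ) l j) * hatv W e α j +
      ∑ j, φ ((g + π • k) l j) * hatv W e β j) = 0 := by
  have h1 : ∑ j, φ ((g + π • k) l j) * hatv W e β j = e * ∑ j, φ (g l j) * β j +
      φ π * ∑ j, φ (k l j) * hatv W e β j := by
    rw [← sum_g_hatv φ g_zero β l, Finset.mul_sum, ← Finset.sum_add_distrib]
    refine Finset.sum_congr rfl fun j _ => ?_
    rw [Matrix.add_apply, Matrix.smul_apply, smul_eq_mul, map_add, map_mul]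
    ring
  have h2 := sum_hatv φ q_zero c_zero h_zero e α l
  rw [h1, ← F0]
  by_cases hl : l ∈ W
  · rw [if_pos hl] at h2 Da
    have h3 : ∑ j, φ (g l j) * β j = 0 := by
      refine Finset.sum_eq_zero fun j _ => ?_
      rw [g_zero l j (Or.inl hl), map_zero, zero_mul]
    rw [h3] at Da ⊢
    linear_combination (A3 * u) * h2 + e ^ 2 * Da - (e * ∑ j, φ ((h + hᵀ) l j) * α j) * Ds
  · rw [if_neg hl] at h2 Da
    have h3 : ∑ j, φ ((h + hᵀ) l j) * α j = 0 := by
      refine Finset.sum_eq_zero fun j _ => ?_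
      rw [Matrix.add_apply, Matrix.transpose_apply, h_zero l j (Or.inl hl),
        h_zero j l (Or.inr hl), add_zero, map_zero, zero_mul]
    rw [h3] at Da h2
    linear_combination (A3 * u) * h2 + e * Da

variable [IsDomain O] [IsDiscreteValuationRing O] (H : RamForm π q c h g k q' c' h' W)
  (hπ : Irreducible π) (hκ : IsExc W κ₀)
  (R : RamPt φ c h g k q q' c' h' W π κ₀ α β e u v s t A0 A1 A2 A3)

theorem map_eq_zero_of_map_pi {φ : O →+* κ} (hπ : Irreducible π) (h0 : φ π = 0) :
    ∀ x ∈ maximalIdeal O, φ x = 0 := by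
  intro x hx
  rw [hπ.maximalIdeal_eq, Ideal.mem_span_singleton] at hx
  obtain ⟨y, rfl⟩ := hx
  rw [map_mul, h0, zero_mul]

include hκ R in
/-- The final contradiction. -/
theorem ram_contra (hu : u = 0) (hv : v = 0) (hα : ∀ l, l ∉ W → α l = 0)
    (hβ : ∀ l, l ∉ W → β l = 0) (H : RamForm π q c h g k q' c' h' W) : A3 = 0 := by
  by_contra hA
  have hs : s = 0 := by
    have h1 := R.Du
    rw [hv, bl_c_eq_zero φ H.c_zero α hα, bl_q_eq_zero φ H.q_zero α hα] at h1
    simp only [mul_zero, zero_add, zero_mul, add_zero, mul_eq_zero] at h1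
    exact h1.resolve_left hA
  have ht : t = 0 := by
    have h1 := R.Dv
    rw [hu, bl_c_eq_zero φ H.c_zero' β hβ, bl_q_eq_zero φ H.q_zero' β hβ] at h1
    simp only [mul_zero, zero_add, zero_mul, add_zero, mul_eq_zero] at h1
    exact h1.resolve_left hA
  have hX := R.Xk
  rcases κ₀ with (l | l) | a
  · have hl : l ∉ W := hκ
    simp only [Sum.elim_inl, hα l hl] at hX
    exact zero_ne_one hX
  · have hl : l ∉ W := hκ
    simp only [Sum.elim_inl, Sum.elim_inr, hβ l hl] at hX
    exact zero_ne_one hX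
  · fin_cases a
    · exact absurd hκ (by simp [IsExc])
    · exact zero_ne_one (hu.symm.trans hX)
    · exact zero_ne_one (hv.symm.trans hX)
    · exact zero_ne_one (hs.symm.trans hX)
    · exact zero_ne_one (ht.symm.trans hX)

include hκ R H hπ in
theorem ram_core3 : A3 = 0 := by
  by_contra hA
  have hA' := hA
  apply hA'
  by_cases he : e = 0
  · -- the exceptional divisor
    have hπ0 : φ π = 0 := by rw [← R.F0, he]; ring
    have hφ := map_eq_zero_of_map_pi hπ hπ0
    have hu : u = 0 := by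
      have h1 := R.Ds
      rw [he, mul_zero] at h1
      exact (mul_eq_zero.mp h1.symm).resolve_left hA
    have hv : v = 0 := by
      have h1 := R.Dt
      rw [he, mul_zero] at h1
      exact (mul_eq_zero.mp h1.symm).resolve_left hA
    refine ram_contra φ hκ R hu hv ?_ ?_ H
    · refine H.radg' κ φ hφ α ?_
      ext l
      rw [mulVec, dotProduct, Pi.zero_apply]
      by_cases hl : l ∈ W
      · refine Finset.sum_eq_zero fun j _ => ?_
        rw [Matrix.transpose_apply, Matrix.map_apply, H.g_zero j l (Or.inr hl), map_zero, zero_mul]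
      · have h1 := R.Db l
        have h3 : ∑ j, φ ((h' + h'ᵀ) l j) * β j = 0 := by
          refine Finset.sum_eq_zero fun j _ => ?_
          rw [Matrix.add_apply, Matrix.transpose_apply, H.h_zero' l j (Or.inl hl),
            H.h_zero' j l (Or.inr hl), add_zero, map_zero, zero_mul]
        rw [h3, hu, hv] at h1
        simp only [mul_zero, zero_add, zero_mul, add_zero, mul_eq_zero] at h1
        exact h1.resolve_left hA
    · refine H.radg κ φ hφ β ?_
      ext l
      rw [mulVec, dotProduct, Pi.zero_apply]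
      by_cases hl : l ∈ W
      · refine Finset.sum_eq_zero fun j _ => ?_
        rw [Matrix.map_apply, H.g_zero l j (Or.inl hl), map_zero, zero_mul]
      · have h1 := R.Da l
        have h3 : ∑ j, φ ((h + hᵀ) l j) * α j = 0 := by
          refine Finset.sum_eq_zero fun j _ => ?_
          rw [Matrix.add_apply, Matrix.transpose_apply, H.h_zero l j (Or.inl hl),
            H.h_zero j l (Or.inr hl), add_zero, map_zero, zero_mul]
        rw [h3, hu, hv] at h1
        simp only [mul_zero, zero_add, zero_mul, add_zero, mul_eq_zero] at h1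
        exact h1.resolve_left hA
  · -- away from the exceptional divisor
    have h1 : (e * u) * (e * v) = φ π := by rw [← R.F0]; ring
    have h2 : ∀ l, (e * u) * ∑ j, φ (((q + c + h) + (q + c + h)ᵀ) l j) * hatv W e α j +
        ∑ j, φ ((g + π • k) l j) * hatv W e β j = 0 := fun l =>
      (mul_eq_zero.mp (ram_rel φ H.q_zero H.c_zero H.h_zero H.g_zero R.F0 R.Ds l
        (R.Da l))).resolve_left hA
    have h3 : ∀ l, ∑ j, φ ((g + π • k) j l) * hatv W e α j +
        (e * v) * ∑ j, φ (((q' + c' + h') + (q' + c' + h')ᵀ) l j) * hatv W e β j = 0 := by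
      intro l
      have hg : ∀ i j, (i ∈ W ∨ j ∈ W) → gᵀ i j = 0 := fun i j hij => H.g_zero j i hij.symm
      have F0' : e ^ 2 * (v * u) = φ π := by rw [← R.F0]; ring
      have h4 := R.Db l
      have h5 : A2 * ∑ j, φ ((h' + h'ᵀ) l j) * β j + A3 * (v * (∑ j, φ ((c' + c'ᵀ) l j) * β j +
          e * ∑ j, φ ((q' + q'ᵀ) l j) * β j) + ∑ j, φ (gᵀ l j) * α j +
          v * u * ((if l ∈ W then 1 else e) * ∑ j, φ (kᵀ l j) * hatv W e α j)) = 0 := by
        rw [← h4]
        simp only [Matrix.transpose_apply]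
        ring
      have h6 := (mul_eq_zero.mp (ram_rel φ H.q_zero' H.c_zero' H.h_zero' hg F0' R.Dt l
        h5)).resolve_left hA
      rw [← h6, add_comm]
      rfl
    obtain ⟨r, hr⟩ : ∃ r, r = -(A0 * e ^ 2 / A3) - bl φ k (hatv W e α) (hatv W e β) := ⟨_, rfl⟩
    have h4 : bl φ (q + c + h) (hatv W e α) (hatv W e α) = r * (e * v) := by
      rw [bl_hatv φ H.q_zero H.c_zero H.h_zero, R.F1, hr]
      field_simp
      linear_combination R.Du
    have h5 : bl φ (q' + c' + h') (hatv W e β) (hatv W e β) = r * (e * u) := by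
      rw [bl_hatv φ H.q_zero' H.c_zero' H.h_zero', R.F2, hr]
      field_simp
      linear_combination R.Dv
    by_cases hπ0 : φ π = 0
    · have hφ := map_eq_zero_of_map_pi hπ hπ0
      have hπm : π ∈ maximalIdeal O := by
        rw [hπ.maximalIdeal_eq]
        exact Ideal.mem_span_singleton_self _
      by_cases hu : u = 0
      · by_cases hv : v = 0
        · obtain ⟨h6, h7⟩ := ram_uv φ H (hatv W e α) (hatv W e β) (e * u) (e * v) h2 h3 hφ hπm
            (by rw [hu, mul_zero]) (by rw [hv, mul_zero])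
          refine ram_contra φ hκ R hu hv (fun l hl => ?_) (fun l hl => ?_) H
          · have := h6 l hl
            rw [hatv_notMem hl] at this
            exact (mul_eq_zero.mp this).resolve_left he
          · have := h7 l hl
            rw [hatv_notMem hl] at this
            exact (mul_eq_zero.mp this).resolve_left he
        · exfalso
          have h6 := ram_v φ H (hatv W e α) (hatv W e β) (e * u) (e * v) r h2 h3 h5 hφ hπm
            (by rw [hu, mul_zero]) (mul_ne_zero he hv)
          rcases R.hN with ⟨_, h7⟩ | ⟨_, j, h7⟩ | ⟨_, j, h7⟩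
          · rw [hu, mul_zero] at h7
            exact zero_ne_one h7
          · rw [h6] at h7
            exact zero_ne_one h7
          · rw [h6] at h7
            exact zero_ne_one h7
      · exfalso
        have hv : v = 0 := by
          have h6 := R.F0
          rw [hπ0, mul_eq_zero, mul_eq_zero] at h6
          exact (h6.resolve_left (pow_ne_zero 2 he)).resolve_left hu
        have h6 := ram_u φ H (hatv W e α) (hatv W e β) (e * u) (e * v) r h2 h3 h4 hφ hπm
          (mul_ne_zero he hu) (by rw [hv, mul_zero])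
        rcases R.hN with ⟨⟨i, h7⟩, _⟩ | ⟨h7, _⟩ | ⟨⟨i, h7⟩, _⟩
        · rw [h6] at h7
          exact zero_ne_one h7
        · rw [hv, mul_zero] at h7
          exact zero_ne_one h7
        · rw [h6] at h7
          exact zero_ne_one h7
    · exfalso
      obtain ⟨h6, h7⟩ := ram_gen φ H hπ (hatv W e α) (hatv W e β) (e * u) (e * v) h1 h2 h3 hπ0
      rcases R.hN with ⟨⟨i, h8⟩, _⟩ | ⟨_, j, h8⟩ | ⟨⟨i, h8⟩, _⟩
      · rw [h6] at h8
        exact zero_ne_one h8
      · rw [h7] at h8
        exact zero_ne_one h8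
      · rw [h6] at h8
        exact zero_ne_one h8

include H hπ R in
theorem ram_core1 (hA3 : A3 = 0) : A1 = 0 := by
  by_contra hA
  have h1 := R.Ds
  rw [hA3, zero_mul] at h1
  have he : e = 0 := (mul_eq_zero.mp h1).resolve_left hA
  have hπ0 : φ π = 0 := by rw [← R.F0, he]; ring
  have hφ := map_eq_zero_of_map_pi hπ hπ0
  have h2 : ∀ l, ∑ j, φ ((h + hᵀ) l j) * α j = 0 := by
    intro l
    have h3 := R.Da l
    rw [hA3, zero_mul, add_zero] at h3
    exact (mul_eq_zero.mp h3).resolve_left hA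
  have h4 := H.radh κ φ hφ α (by
    ext l
    rw [mulVec, dotProduct, Pi.zero_apply, ← h2 l]
    refine Finset.sum_congr rfl fun j _ => ?_
    simp) (by rw [← bl_self_eq_qf, R.F1, he, zero_mul])
  rcases R.hN with ⟨_, h5⟩ | ⟨h5, _⟩ | ⟨⟨i, h5⟩, _⟩
  · rw [he, zero_mul] at h5
    exact zero_ne_one h5
  · rw [he, zero_mul] at h5
    exact zero_ne_one h5
  · by_cases hi : i ∈ W
    · rw [hatv_mem hi, h4 i hi] at h5
      exact zero_ne_one h5
    · rw [hatv_notMem hi, he, zero_mul] at h5
      exact zero_ne_one h5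

include H hπ R in
theorem ram_core2 (hA3 : A3 = 0) : A2 = 0 := by
  by_contra hA
  have h1 := R.Dt
  rw [hA3, zero_mul] at h1
  have he : e = 0 := (mul_eq_zero.mp h1).resolve_left hA
  have hπ0 : φ π = 0 := by rw [← R.F0, he]; ring
  have hφ := map_eq_zero_of_map_pi hπ hπ0
  have h2 : ∀ l, ∑ j, φ ((h' + h'ᵀ) l j) * β j = 0 := by
    intro l
    have h3 := R.Db l
    rw [hA3, zero_mul, add_zero] at h3
    exact (mul_eq_zero.mp h3).resolve_left hA
  have h4 := H.radh' κ φ hφ β (by
    ext l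
    rw [mulVec, dotProduct, Pi.zero_apply, ← h2 l]
    refine Finset.sum_congr rfl fun j _ => ?_
    simp) (by rw [← bl_self_eq_qf, R.F2, he, zero_mul])
  rcases R.hN with ⟨_, h5⟩ | ⟨h5, _⟩ | ⟨_, ⟨i, h5⟩⟩
  · rw [he, zero_mul] at h5
    exact zero_ne_one h5
  · rw [he, zero_mul] at h5
    exact zero_ne_one h5
  · by_cases hi : i ∈ W
    · rw [hatv_mem hi, h4 i hi] at h5
      exact zero_ne_one h5
    · rw [hatv_notMem hi, he, zero_mul] at h5
      exact zero_ne_one h5

end Core

end Pool.Agent.Lib.MP_6a3dac_ag
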