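import Pool.Agent.Lib.MP_6a3dac_ag.RamForm

/-!
# The generators of the order of a quaternionic quadric at a ramified prime
-/

set_option autoImplicit false

namespace Pool.Agent.Lib.MP_6a3dac_ag

section Gen

variable {A : Type} [CommRing A] {m : ℕ} (x y : Fin m → A) (ϖ hx hy : A) (W : Finset (Fin m))

/-- The generators of the order before the blow-up. -/
def sG (s : Fin 3 × Fin m × Fin m) : A :=
  (![x s.2.1 * x s.2.2, x s.2.1 * y s.2.2, ϖ * (y s.2.1 * y s.2.2)] : Fin 3 → A) s.1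

/-- The generators of the centre of the blow-up. -/
def kG (s : Fin 6 × Fin m × Fin m) : A :=
  (![x s.2.1 * x s.2.2, ϖ * (y s.2.1 * y s.2.2), x s.2.1 * y s.2.2, x s.2.1 * y s.2.2,
    hx * (y s.2.1 * y s.2.2), hy * (x s.2.1 * x s.2.2)] : Fin 6 → A) s.1

/-- The admissible indices. -/
def kOk (s : Fin 6 × Fin m × Fin m) : Prop :=
  (![True, True, s.2.1 ∉ W, s.2.2 ∉ W, True, True] : Fin 6 → Prop) s.1

/-- The degrees. -/
def kDeg (s : Fin 6 × Fin m × Fin m) : ℕ := (![1, 1, 1, 1, 2, 2] : Fin 6 → ℕ) s.1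

/-- The generators of the order. -/
def ramSet : Set A :=
  {g | (∃ s, g = ϖ * sG x y ϖ s) ∨
    (∃ κ s s', kOk W κ ∧ kDeg κ = 1 ∧ g = kG x y ϖ hx hy κ * (sG x y ϖ s * sG x y ϖ s')) ∨
    (∃ κ s, kOk W κ ∧ kDeg κ = 2 ∧ g = kG x y ϖ hx hy κ * sG x y ϖ s)}

theorem finite_ramSet : (ramSet x y ϖ hx hy W).Finite := by
  have h1 : ramSet x y ϖ hx hy W ⊆
      Set.range (fun s => ϖ * sG x y ϖ s) ∪
      (Set.range (fun z : (Fin 6 × Fin m × Fin m) × (Fin 3 × Fin m × Fin m) ×
        (Fin 3 × Fin m × Fin m) =>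
        kG x y ϖ hx hy z.1 * (sG x y ϖ z.2.1 * sG x y ϖ z.2.2)) ∪
      Set.range (fun z : (Fin 6 × Fin m × Fin m) × (Fin 3 × Fin m × Fin m) =>
        kG x y ϖ hx hy z.1 * sG x y ϖ z.2)) := by
    rintro g (⟨s, rfl⟩ | ⟨κ, s, s', _, _, rfl⟩ | ⟨κ, s, _, _, rfl⟩)
    · exact Or.inl ⟨s, rfl⟩
    · exact Or.inr (Or.inl ⟨(κ, s, s'), rfl⟩)
    · exact Or.inr (Or.inr ⟨(κ, s), rfl⟩)
  exact ((Set.finite_range _).union ((Set.finite_range _).union (Set.finite_range _))).subset h1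

variable {W} in
theorem kDeg_eq (s : Fin 6 × Fin m × Fin m) : kDeg s = 1 ∨ kDeg s = 2 := by
  obtain ⟨a, k, l⟩ := s
  fin_cases a
  · exact Or.inl rfl
  · exact Or.inl rfl
  · exact Or.inl rfl
  · exact Or.inl rfl
  · exact Or.inr rfl
  · exact Or.inr rfl

/-- The first chart coordinate. -/
def SX : Nrm m → A
  | Nrm.xx i => x i
  | Nrm.yy j => ϖ * y j
  | Nrm.xy i _ => x i

/-- The second chart coordinate. -/
def SY : Nrm m → A
  | Nrm.xx i => x i
  | Nrm.yy j => y j
  | Nrm.xy _ j => y j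

/-- The product of the chart coordinates is one of the generators. -/
theorem exists_sG_eq (n : Nrm m) : ∃ s, SX x y ϖ n * SY x y n = sG x y ϖ s := by
  rcases n with i | j | ⟨i, j⟩
  · exact ⟨(0, i, i), rfl⟩
  · exact ⟨(2, j, j), mul_assoc _ _ _⟩
  · exact ⟨(1, i, j), rfl⟩

/-- The numerators of the exceptional coordinates. -/
def kp (n : Nrm m) : RV m → A :=
  Sum.elim (Sum.elim (fun l => x l * SY x y n) (fun l => y l * SX x y ϖ n))
    ![1, SX x y ϖ n ^ 2, ϖ * SY x y n ^ 2, hx * SY x y n ^ 2, hy * SX x y ϖ n ^ 2]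

/-- Their degrees. -/
def kd (m : ℕ) : RV m → ℕ := Sum.elim (Sum.elim (fun _ => 1) (fun _ => 1)) ![0, 1, 1, 2, 2]

end Gen

section Mem

variable {A : Type} [CommRing A] {m : ℕ} {x y : Fin m → A} {ϖ hx hy : A} {W : Finset (Fin m)}
  {In : Subring A} (hIn : ramSet x y ϖ hx hy W ⊆ In) (hϖ : ϖ ∈ In)
  {c c' : Fin m → Fin m → A} (hc : ∀ k l, c k l ∈ In) (hc' : ∀ k l, c' k l ∈ In)
  (ehx : hx = ∑ k, ∑ l, c k l * x k * x l) (ehy : hy = ∑ k, ∑ l, c' k l * y k * y l)

include hIn in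
theorem gen1_mem {κ} (hκ : kOk W κ) (hd : kDeg κ = 1) (s s') :
    kG x y ϖ hx hy κ * (sG x y ϖ s * sG x y ϖ s') ∈ In :=
  hIn (Or.inr (Or.inl ⟨κ, s, s', hκ, hd, rfl⟩))

include hIn in
theorem gen2_mem {κ} (hκ : kOk W κ) (hd : kDeg κ = 2) (s) :
    kG x y ϖ hx hy κ * sG x y ϖ s ∈ In :=
  hIn (Or.inr (Or.inr ⟨κ, s, hκ, hd, rfl⟩))

include hIn in
theorem memU (k l : Fin m) (s s') : x k * x l * (sG x y ϖ s * sG x y ϖ s') ∈ In :=
  gen1_mem hIn (κ := (0, k, l)) trivial rfl s s'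

include hIn in
theorem memV (k l : Fin m) (s s') : ϖ * (y k * y l) * (sG x y ϖ s * sG x y ϖ s') ∈ In :=
  gen1_mem hIn (κ := (1, k, l)) trivial rfl s s'

include hIn in
theorem memA {k : Fin m} (hk : k ∉ W) (l : Fin m) (s s') :
    x k * y l * (sG x y ϖ s * sG x y ϖ s') ∈ In :=
  gen1_mem hIn (κ := (2, k, l)) hk rfl s s'

include hIn in
theorem memB (k : Fin m) {l : Fin m} (hl : l ∉ W) (s s') :
    x k * y l * (sG x y ϖ s * sG x y ϖ s') ∈ In :=
  gen1_mem hIn (κ := (3, k, l)) hl rfl s s'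

include hIn in
theorem memS (k l : Fin m) (s) : hx * (y k * y l) * sG x y ϖ s ∈ In :=
  gen2_mem hIn (κ := (4, k, l)) trivial rfl s

include hIn in
theorem memT (k l : Fin m) (s) : hy * (x k * x l) * sG x y ϖ s ∈ In :=
  gen2_mem hIn (κ := (5, k, l)) trivial rfl s

include hIn hϖ hc hc' ehx ehy in
/-- The exceptional numerators multiplied by generators lie in the order. -/
theorem kp_mem (n : Nrm m) {κ : RV m} (hκ : IsExc W κ) :
    (kd m κ = 1 ∧ ∀ s s', kp x y ϖ hx hy n κ * (sG x y ϖ s * sG x y ϖ s') ∈ In) ∨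
    (kd m κ = 2 ∧ ∀ s, kp x y ϖ hx hy n κ * sG x y ϖ s ∈ In) := by
  rcases κ with (l | l) | a
  · have hl : l ∉ W := hκ
    left
    refine ⟨rfl, fun s s' => ?_⟩
    rcases n with i | j | ⟨i, j⟩
    · exact memU hIn l i s s'
    · exact memA hIn hl j s s'
    · exact memA hIn hl j s s'
  · have hl : l ∉ W := hκ
    left
    refine ⟨rfl, fun s s' => ?_⟩
    rcases n with i | j | ⟨i, j⟩
    · have := memB hIn i hl s s'
      rw [mul_comm (x i)] at this
      exact this
    · have := memV hIn l j s s'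
      change y l * (ϖ * y j) * _ ∈ In
      rw [show y l * (ϖ * y j) = ϖ * (y l * y j) by ring]
      exact this
    · have := memB hIn i hl s s'
      rw [mul_comm (x i)] at this
      exact this
  · fin_cases a
    · exact absurd hκ (by simp [IsExc])
    · left
      refine ⟨rfl, fun s s' => ?_⟩
      change SX x y ϖ n ^ 2 * _ ∈ In
      rcases n with i | j | ⟨i, j⟩
      · change x i ^ 2 * _ ∈ In
        rw [pow_two]
        exact memU hIn i i s s'
      · change (ϖ * y j) ^ 2 * _ ∈ In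
        rw [show (ϖ * y j) ^ 2 * (sG x y ϖ s * sG x y ϖ s') =
          ϖ * (ϖ * (y j * y j) * (sG x y ϖ s * sG x y ϖ s')) by ring]
        exact In.mul_mem hϖ (memV hIn j j s s')
      · change x i ^ 2 * _ ∈ In
        rw [pow_two]
        exact memU hIn i i s s'
    · left
      refine ⟨rfl, fun s s' => ?_⟩
      change ϖ * SY x y n ^ 2 * _ ∈ In
      rcases n with i | j | ⟨i, j⟩
      · change ϖ * x i ^ 2 * _ ∈ In
        rw [pow_two, mul_assoc ϖ]
        exact In.mul_mem hϖ (memU hIn i i s s')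
      · change ϖ * y j ^ 2 * _ ∈ In
        rw [pow_two]
        exact memV hIn j j s s'
      · change ϖ * y j ^ 2 * _ ∈ In
        rw [pow_two]
        exact memV hIn j j s s'
    · right
      refine ⟨rfl, fun s => ?_⟩
      change hx * SY x y n ^ 2 * _ ∈ In
      rcases n with i | j | ⟨i, j⟩
      · change hx * x i ^ 2 * _ ∈ In
        rw [ehx, Finset.sum_mul, Finset.sum_mul]
        refine In.sum_mem fun k _ => ?_
        rw [Finset.sum_mul, Finset.sum_mul]
        refine In.sum_mem fun l _ => ?_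
        rw [show c k l * x k * x l * x i ^ 2 * sG x y ϖ s =
          c k l * (x k * x l * (sG x y ϖ (0, i, i) * sG x y ϖ s)) by
            change _ = c k l * (x k * x l * (x i * x i * sG x y ϖ s)); ring]
        exact In.mul_mem (hc k l) (memU hIn k l _ s)
      · change hx * y j ^ 2 * _ ∈ In
        rw [pow_two]
        exact memS hIn j j s
      · change hx * y j ^ 2 * _ ∈ In
        rw [pow_two]
        exact memS hIn j j s
    · right
      refine ⟨rfl, fun s => ?_⟩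
      change hy * SX x y ϖ n ^ 2 * _ ∈ In
      rcases n with i | j | ⟨i, j⟩
      · change hy * x i ^ 2 * _ ∈ In
        rw [pow_two]
        exact memT hIn i i s
      · change hy * (ϖ * y j) ^ 2 * _ ∈ In
        rw [ehy, Finset.sum_mul, Finset.sum_mul]
        refine In.sum_mem fun k _ => ?_
        rw [Finset.sum_mul, Finset.sum_mul]
        refine In.sum_mem fun l _ => ?_
        rw [show c' k l * y k * y l * (ϖ * y j) ^ 2 * sG x y ϖ s =
          c' k l * (ϖ * (y k * y l) * (sG x y ϖ (2, j, j) * sG x y ϖ s)) by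
            change _ = c' k l * (ϖ * (y k * y l) * (ϖ * (y j * y j) * sG x y ϖ s)); ring]
        exact In.mul_mem (hc' k l) (memV hIn k l _ s)
      · change hy * x i ^ 2 * _ ∈ In
        rw [pow_two]
        exact memT hIn i i s

end Mem

/-- The elements of a prime ideal of a subring, as a set of elements of the ring. -/
structure PrimeSet {A : Type} [CommRing A] (In : Subring A) (Z : Set A) : Prop where
  zero : 0 ∈ Z
  add : ∀ {p q}, p ∈ Z → q ∈ Z → p + q ∈ Z
  mul : ∀ {p q}, p ∈ In → q ∈ Z → p * q ∈ Z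
  prime : ∀ {p q}, p ∈ In → q ∈ In → p * q ∈ Z → p ∈ Z ∨ q ∈ Z

section Cover

variable {A : Type} [CommRing A] {In : Subring A} {Z : Set A} (hZ : PrimeSet In Z)

include hZ in
theorem PrimeSet.sum {ι : Type} (s : Finset ι) {f : ι → A} (h : ∀ i, f i ∈ Z) :
    ∑ i ∈ s, f i ∈ Z := by
  classical
  induction s using Finset.induction_on with
  | empty => exact hZ.zero
  | insert a s ha ih =>
    rw [Finset.sum_insert ha]
    exact hZ.add (h a) ih

include hZ in
theorem PrimeSet.of_sq {p : A} (a b : A) (hp : p ∈ In) (h : p * p = b * a) (ha : a ∈ Z)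
    (hb : b ∈ In) : p ∈ Z := by
  have h1 : p * p ∈ Z := by
    rw [h]
    exact hZ.mul hb ha
  exact (hZ.prime hp hp h1).elim id id

include hZ in
theorem PrimeSet.of_cube {p : A} (a b : A) (hp : p ∈ In) (h : p * (p * p) = b * a) (ha : a ∈ Z)
    (hb : b ∈ In) : p ∈ Z := by
  have h1 : p * (p * p) ∈ Z := by
    rw [h]
    exact hZ.mul hb ha
  exact (hZ.prime hp (In.mul_mem hp hp) h1).elim id fun h2 => (hZ.prime hp hp h2).elim id id

variable {m : ℕ} {x y : Fin m → A} {ϖ hx hy : A} {W : Finset (Fin m)}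

include hZ in
theorem PrimeSet.step_one {κ : A} (hmem : ∀ s s', κ * (sG x y ϖ s * sG x y ϖ s') ∈ In)
    (h : ∀ n, κ * ((SX x y ϖ n * SY x y n) * (SX x y ϖ n * SY x y n)) ∈ Z) (s s') :
    κ * (sG x y ϖ s * sG x y ϖ s') ∈ Z := by
  have h1 : ∀ s, κ * (sG x y ϖ s * sG x y ϖ s) ∈ Z := by
    rintro ⟨a, k, l⟩
    fin_cases a
    · refine hZ.of_sq (κ * ((x k * x k) * (x k * x k))) (κ * ((x l * x l) * (x l * x l)))
        (hmem _ _) ?_ (h (Nrm.xx k)) (hmem (0, l, l) (0, l, l))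
      change κ * (x k * x l * (x k * x l)) * (κ * (x k * x l * (x k * x l))) = _
      ring
    · exact h (Nrm.xy k l)
    · refine hZ.of_sq (κ * ((ϖ * y k * y k) * (ϖ * y k * y k)))
        (κ * ((ϖ * (y l * y l)) * (ϖ * (y l * y l))))
        (hmem _ _) ?_ (h (Nrm.yy k)) (hmem (2, l, l) (2, l, l))
      change κ * (ϖ * (y k * y l) * (ϖ * (y k * y l))) * (κ * (ϖ * (y k * y l) *
        (ϖ * (y k * y l)))) = _
      ring
  refine hZ.of_sq (κ * (sG x y ϖ s * sG x y ϖ s)) (κ * (sG x y ϖ s' * sG x y ϖ s')) (hmem _ _) ?_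
    (h1 s) (hmem _ _)
  ring

include hZ in
theorem PrimeSet.step_two {κ : A} (hmem : ∀ s, κ * sG x y ϖ s ∈ In)
    (h : ∀ n, κ * (SX x y ϖ n * SY x y n) ∈ Z) (s) : κ * sG x y ϖ s ∈ Z := by
  obtain ⟨a, k, l⟩ := s
  fin_cases a
  · refine hZ.of_sq (κ * (x k * x k)) (κ * (x l * x l))
      (hmem _) ?_ (h (Nrm.xx k)) (hmem (0, l, l))
    change κ * (x k * x l) * (κ * (x k * x l)) = _
    ring
  · exact h (Nrm.xy k l)
  · refine hZ.of_sq (κ * (ϖ * y k * y k)) (κ * (ϖ * (y l * y l)))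
      (hmem _) ?_ (h (Nrm.yy k)) (hmem (2, l, l))
    change κ * (ϖ * (y k * y l)) * (κ * (ϖ * (y k * y l))) = _
    ring

variable (hIn : ramSet x y ϖ hx hy W ⊆ In) (hϖ : ϖ ∈ In)
  {c c' : Fin m → Fin m → A} (hc : ∀ k l, c k l ∈ In) (hc' : ∀ k l, c' k l ∈ In)
  (ehx : hx = ∑ k, ∑ l, c k l * x k * x l) (ehy : hy = ∑ k, ∑ l, c' k l * y k * y l)
  (hsp : ∀ n κ, IsExc W κ → kp x y ϖ hx hy n κ * (SX x y ϖ n * SY x y n) ^ (3 - kd m κ) ∈ Z)

include hsp in
theorem spU (n : Nrm m) (i j : Fin m) (hn : n = Nrm.xx i ∨ n = Nrm.xy i j) :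
    x i * x i * ((SX x y ϖ n * SY x y n) * (SX x y ϖ n * SY x y n)) ∈ Z := by
  have h1 := hsp n (Sum.inr 1) trivial
  change SX x y ϖ n ^ 2 * (SX x y ϖ n * SY x y n) ^ 2 ∈ Z at h1
  rw [pow_two, pow_two] at h1
  rcases hn with rfl | rfl
  · exact h1
  · exact h1

include hsp in
theorem spV (n : Nrm m) (i j : Fin m) (hn : n = Nrm.yy j ∨ n = Nrm.xy i j) :
    ϖ * (y j * y j) * ((SX x y ϖ n * SY x y n) * (SX x y ϖ n * SY x y n)) ∈ Z := by
  have h1 := hsp n (Sum.inr 2) trivial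
  change ϖ * SY x y n ^ 2 * (SX x y ϖ n * SY x y n) ^ 2 ∈ Z at h1
  rw [pow_two, pow_two] at h1
  rcases hn with rfl | rfl
  · exact h1
  · exact h1

include hZ hIn hsp in
/-- Elements of the first type. -/
theorem coverU' (i j j' : Fin m) :
    x i * x i * ((x i * y j) * (x i * y j')) ∈ Z := by
  refine hZ.of_sq (x i * x i * ((x i * y j) * (x i * y j))) (x i * x i * ((x i * y j') * (x i * y j')))
    (memU hIn i i (1, i, j) (1, i, j')) (by ring) ?_ (memU hIn i i (1, i, j') (1, i, j'))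
  exact spU hsp (Nrm.xy i j) i j (Or.inr rfl)

include hZ hIn hsp in
/-- Elements of the second type. -/
theorem coverV' (j i i' : Fin m) :
    ϖ * (y j * y j) * ((x i * y j) * (x i' * y j)) ∈ Z := by
  refine hZ.of_sq (ϖ * (y j * y j) * ((x i * y j) * (x i * y j)))
    (ϖ * (y j * y j) * ((x i' * y j) * (x i' * y j)))
    (memV hIn j j (1, i, j) (1, i', j)) (by ring) ?_ (memV hIn j j (1, i', j) (1, i', j))
  exact spV hsp (Nrm.xy i j) i j (Or.inr rfl)

include hZ hIn hϖ hsp in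
theorem coverU (k l : Fin m) (s s') : x k * x l * (sG x y ϖ s * sG x y ϖ s') ∈ Z := by
  refine hZ.step_one (memU hIn k l) (fun n => ?_) s s'
  rcases n with i | j | ⟨i, j⟩
  · refine hZ.of_sq (x i * x i * ((x i * x i) * (x i * x i)))
      (x k * x k * ((x l * x l) * (x i * x i))) (memU hIn k l (0, i, i) (0, i, i)) ?_
      (spU hsp (Nrm.xx i) i i (Or.inl rfl)) (memU hIn k k (0, l, l) (0, i, i))
    change x k * x l * (x i * x i * (x i * x i)) * (x k * x l * (x i * x i * (x i * x i))) = _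
    ring
  · change x k * x l * (ϖ * y j * y j * (ϖ * y j * y j)) ∈ Z
    rw [show x k * x l * (ϖ * y j * y j * (ϖ * y j * y j)) =
      ϖ * (ϖ * (y j * y j) * ((x k * y j) * (x l * y j))) by ring]
    exact hZ.mul hϖ (coverV' hZ hIn hsp j k l)
  · have h1 : ∀ k, x k * x k * (x i * y j * (x i * y j)) ∈ Z := by
      intro k
      refine hZ.of_sq (x i * x i * ((x i * y j) * (x i * y j)))
        (x k * x k * ((x k * y j) * (x k * y j))) (memU hIn k k (1, i, j) (1, i, j)) (by ring)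
        (spU hsp (Nrm.xy i j) i j (Or.inr rfl)) (memU hIn k k (1, k, j) (1, k, j))
    refine hZ.of_sq _ (x l * x l * (x i * y j * (x i * y j))) (memU hIn k l (1, i, j) (1, i, j)) ?_
      (h1 k) (memU hIn l l (1, i, j) (1, i, j))
    change x k * x l * (x i * y j * (x i * y j)) * (x k * x l * (x i * y j * (x i * y j))) = _
    ring

include hZ hIn hϖ hsp in
theorem coverV (k l : Fin m) (s s') : ϖ * (y k * y l) * (sG x y ϖ s * sG x y ϖ s') ∈ Z := by
  refine hZ.step_one (memV hIn k l) (fun n => ?_) s s'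
  rcases n with i | j | ⟨i, j⟩
  · change ϖ * (y k * y l) * (x i * x i * (x i * x i)) ∈ Z
    rw [show ϖ * (y k * y l) * (x i * x i * (x i * x i)) =
      ϖ * (x i * x i * ((x i * y k) * (x i * y l))) by ring]
    exact hZ.mul hϖ (coverU' hZ hIn hsp i k l)
  · refine hZ.of_sq (ϖ * (y j * y j) * ((ϖ * y j * y j) * (ϖ * y j * y j)))
      (ϖ * (y k * y k) * ((ϖ * (y l * y l)) * (ϖ * (y j * y j)))) ?_ ?_
      (spV hsp (Nrm.yy j) j j (Or.inl rfl)) (memV hIn k k (2, l, l) (2, j, j))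
    · have h1 := memV hIn k l (2, j, j) (2, j, j)
      change ϖ * (y k * y l) * (ϖ * (y j * y j) * (ϖ * (y j * y j))) ∈ In at h1
      rw [← mul_assoc ϖ (y j) (y j)] at h1
      exact h1
    · change ϖ * (y k * y l) * (ϖ * y j * y j * (ϖ * y j * y j)) * (ϖ * (y k * y l) *
        (ϖ * y j * y j * (ϖ * y j * y j))) = _
      ring
  · have h1 : ∀ k, ϖ * (y k * y k) * (x i * y j * (x i * y j)) ∈ Z := by
      intro k
      refine hZ.of_sq (ϖ * (y j * y j) * ((x i * y j) * (x i * y j)))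
        (ϖ * (y k * y k) * ((x i * y k) * (x i * y k))) (memV hIn k k (1, i, j) (1, i, j)) (by ring)
        (spV hsp (Nrm.xy i j) i j (Or.inr rfl)) (memV hIn k k (1, i, k) (1, i, k))
    refine hZ.of_sq _ (ϖ * (y l * y l) * (x i * y j * (x i * y j)))
      (memV hIn k l (1, i, j) (1, i, j)) ?_ (h1 k) (memV hIn l l (1, i, j) (1, i, j))
    change ϖ * (y k * y l) * (x i * y j * (x i * y j)) * (ϖ * (y k * y l) *
      (x i * y j * (x i * y j))) = _
    ring

include hZ hIn hϖ hsp in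
theorem coverA {k : Fin m} (hk : k ∉ W) (l : Fin m) (s s') :
    x k * y l * (sG x y ϖ s * sG x y ϖ s') ∈ Z := by
  refine hZ.step_one (memA hIn hk l) (fun n => ?_) s s'
  rcases n with i | j | ⟨i, j⟩
  · change x k * y l * (x i * x i * (x i * x i)) ∈ Z
    rw [show x k * y l * (x i * x i * (x i * x i)) =
      x k * x i * ((x i * y l) * (x i * x i)) by ring]
    exact coverU hZ hIn hϖ hsp k i (1, i, l) (0, i, i)
  · have h1 := hsp (Nrm.yy j) (Sum.inl (Sum.inl k)) hk
    change x k * y j * (ϖ * y j * y j) ^ 2 ∈ Z at h1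
    refine hZ.of_sq (x k * y j * (ϖ * y j * y j) ^ 2)
      (x k * y j * ((ϖ * (y l * y l)) * (ϖ * (y j * y j)))) ?_ ?_ h1
      (memA hIn hk j (2, l, l) (2, j, j))
    · have h2 := memA hIn hk l (2, j, j) (2, j, j)
      change x k * y l * (ϖ * (y j * y j) * (ϖ * (y j * y j))) ∈ In at h2
      rw [← mul_assoc ϖ (y j) (y j)] at h2
      exact h2
    · change x k * y l * (ϖ * y j * y j * (ϖ * y j * y j)) * (x k * y l *
        (ϖ * y j * y j * (ϖ * y j * y j))) = _
      ring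
  · have h1 := hsp (Nrm.xy i j) (Sum.inl (Sum.inl k)) hk
    change x k * y j * (x i * y j) ^ 2 ∈ Z at h1
    refine hZ.of_sq (x k * y j * (x i * y j) ^ 2) (x k * y j * ((x i * y l) * (x i * y l)))
      (memA hIn hk l (1, i, j) (1, i, j)) ?_ h1 (memA hIn hk j (1, i, l) (1, i, l))
    change x k * y l * (x i * y j * (x i * y j)) * (x k * y l * (x i * y j * (x i * y j))) = _
    ring

include hZ hIn hϖ hsp in
theorem coverB (k : Fin m) {l : Fin m} (hl : l ∉ W) (s s') :
    x k * y l * (sG x y ϖ s * sG x y ϖ s') ∈ Z := by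
  refine hZ.step_one (memB hIn k hl) (fun n => ?_) s s'
  rcases n with i | j | ⟨i, j⟩
  · have h1 := hsp (Nrm.xx i) (Sum.inl (Sum.inr l)) hl
    change y l * x i * (x i * x i) ^ 2 ∈ Z at h1
    refine hZ.of_sq (y l * x i * (x i * x i) ^ 2) (x i * y l * ((x k * x k) * (x i * x i)))
      (memB hIn k hl (0, i, i) (0, i, i)) ?_ h1 (memB hIn i hl (0, k, k) (0, i, i))
    change x k * y l * (x i * x i * (x i * x i)) * (x k * y l * (x i * x i * (x i * x i))) = _
    ring
  · change x k * y l * (ϖ * y j * y j * (ϖ * y j * y j)) ∈ Z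
    rw [show x k * y l * (ϖ * y j * y j * (ϖ * y j * y j)) =
      ϖ * (y l * y j) * ((x k * y j) * (ϖ * (y j * y j))) by ring]
    exact coverV hZ hIn hϖ hsp l j (1, k, j) (2, j, j)
  · have h1 := hsp (Nrm.xy i j) (Sum.inl (Sum.inr l)) hl
    change y l * x i * (x i * y j) ^ 2 ∈ Z at h1
    refine hZ.of_sq (y l * x i * (x i * y j) ^ 2) (x i * y l * ((x k * y j) * (x k * y j)))
      (memB hIn k hl (1, i, j) (1, i, j)) ?_ h1 (memB hIn i hl (1, k, j) (1, k, j))
    change x k * y l * (x i * y j * (x i * y j)) * (x k * y l * (x i * y j * (x i * y j))) = _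
    ring

include hZ hIn hϖ hc ehx hsp in
theorem coverS (k l : Fin m) (s) : hx * (y k * y l) * sG x y ϖ s ∈ Z := by
  refine hZ.step_two (memS hIn k l) (fun n => ?_) s
  rcases n with i | j | ⟨i, j⟩
  · change hx * (y k * y l) * (x i * x i) ∈ Z
    rw [ehx, Finset.sum_mul, Finset.sum_mul]
    refine hZ.sum _ fun p => ?_
    rw [Finset.sum_mul, Finset.sum_mul]
    refine hZ.sum _ fun q => ?_
    rw [show c p q * x p * x q * (y k * y l) * (x i * x i) =
      c p q * (x p * x q * ((x i * y k) * (x i * y l))) by ring]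
    exact hZ.mul (hc p q) (coverU hZ hIn hϖ hsp p q (1, i, k) (1, i, l))
  · have h1 := hsp (Nrm.yy j) (Sum.inr 3) trivial
    change hx * y j ^ 2 * (ϖ * y j * y j) ^ 1 ∈ Z at h1
    have h2 : ∀ k, hx * (y k * y k) * (ϖ * y j * y j) ∈ Z := by
      intro k
      refine hZ.of_sq (hx * y j ^ 2 * (ϖ * y j * y j) ^ 1) (hx * (y k * y k) * (ϖ * (y k * y k)))
        ?_ (by ring) h1 (memS hIn k k (2, k, k))
      have h2 := memS hIn k k (2, j, j)
      change hx * (y k * y k) * (ϖ * (y j * y j)) ∈ In at h2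
      rw [← mul_assoc ϖ (y j) (y j)] at h2
      exact h2
    refine hZ.of_sq _ (hx * (y l * y l) * (ϖ * (y j * y j))) ?_ ?_ (h2 k)
      (memS hIn l l (2, j, j))
    · have h2 := memS hIn k l (2, j, j)
      change hx * (y k * y l) * (ϖ * (y j * y j)) ∈ In at h2
      rw [← mul_assoc ϖ (y j) (y j)] at h2
      exact h2
    · change hx * (y k * y l) * (ϖ * y j * y j) * (hx * (y k * y l) * (ϖ * y j * y j)) = _
      ring
  · have h1 := hsp (Nrm.xy i j) (Sum.inr 3) trivial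
    change hx * y j ^ 2 * (x i * y j) ^ 1 ∈ Z at h1
    have h2 : ∀ k, hx * (y k * y k) * (x i * y j) ∈ Z := by
      intro k
      refine hZ.of_cube (hx * y j ^ 2 * (x i * y j) ^ 1)
        ((hx * (y k * y k) * (x i * y k)) * (hx * (y k * y k) * (x i * y k)))
        (memS hIn k k (1, i, j)) (by ring) h1
        (In.mul_mem (memS hIn k k (1, i, k)) (memS hIn k k (1, i, k)))
    refine hZ.of_sq _ (hx * (y l * y l) * (x i * y j)) (memS hIn k l (1, i, j)) ?_ (h2 k)
      (memS hIn l l (1, i, j))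
    change hx * (y k * y l) * (x i * y j) * (hx * (y k * y l) * (x i * y j)) = _
    ring

include hZ hIn hϖ hc' ehy hsp in
theorem coverT (k l : Fin m) (s) : hy * (x k * x l) * sG x y ϖ s ∈ Z := by
  refine hZ.step_two (memT hIn k l) (fun n => ?_) s
  rcases n with i | j | ⟨i, j⟩
  · have h1 := hsp (Nrm.xx i) (Sum.inr 4) trivial
    change hy * x i ^ 2 * (x i * x i) ^ 1 ∈ Z at h1
    have h2 : ∀ k, hy * (x k * x k) * (x i * x i) ∈ Z := by
      intro k
      exact hZ.of_sq (hy * x i ^ 2 * (x i * x i) ^ 1) (hy * (x k * x k) * (x k * x k))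
        (memT hIn k k (0, i, i)) (by ring) h1 (memT hIn k k (0, k, k))
    refine hZ.of_sq _ (hy * (x l * x l) * (x i * x i)) (memT hIn k l (0, i, i)) ?_ (h2 k)
      (memT hIn l l (0, i, i))
    change hy * (x k * x l) * (x i * x i) * (hy * (x k * x l) * (x i * x i)) = _
    ring
  · change hy * (x k * x l) * (ϖ * y j * y j) ∈ Z
    rw [ehy, Finset.sum_mul, Finset.sum_mul]
    refine hZ.sum _ fun p => ?_
    rw [Finset.sum_mul, Finset.sum_mul]
    refine hZ.sum _ fun q => ?_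
    rw [show c' p q * y p * y q * (x k * x l) * (ϖ * y j * y j) =
      c' p q * (ϖ * (y p * y q) * ((x k * y j) * (x l * y j))) by ring]
    exact hZ.mul (hc' p q) (coverV hZ hIn hϖ hsp p q (1, k, j) (1, l, j))
  · have h1 := hsp (Nrm.xy i j) (Sum.inr 4) trivial
    change hy * x i ^ 2 * (x i * y j) ^ 1 ∈ Z at h1
    have h2 : ∀ k, hy * (x k * x k) * (x i * y j) ∈ Z := by
      intro k
      refine hZ.of_cube (hy * x i ^ 2 * (x i * y j) ^ 1)
        ((hy * (x k * x k) * (x k * y j)) * (hy * (x k * x k) * (x k * y j)))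
        (memT hIn k k (1, i, j)) (by ring) h1
        (In.mul_mem (memT hIn k k (1, k, j)) (memT hIn k k (1, k, j)))
    refine hZ.of_sq _ (hy * (x l * x l) * (x i * y j)) (memT hIn k l (1, i, j)) ?_ (h2 k)
      (memT hIn l l (1, i, j))
    change hy * (x k * x l) * (x i * y j) * (hy * (x k * x l) * (x i * y j)) = _
    ring

include hZ hIn hϖ hc hc' ehx ehy hsp in
/-- **Covering lemma**: if all special elements lie in a prime ideal, so do all generators. -/
theorem ramSet_subset : ramSet x y ϖ hx hy W ⊆ Z := by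
  rintro g (⟨⟨a, k, l⟩, rfl⟩ | ⟨⟨a, k, l⟩, s, s', hκ, hd, rfl⟩ | ⟨⟨a, k, l⟩, s, hκ, hd, rfl⟩)
  · have hg := hIn (Or.inl ⟨(a, k, l), rfl⟩)
    fin_cases a
    · refine hZ.of_cube (x k * x l * ((x k * x l) * (x k * x l))) (ϖ ^ 3) hg ?_
        (coverU hZ hIn hϖ hsp k l (0, k, l) (0, k, l)) (In.pow_mem hϖ 3)
      change ϖ * (x k * x l) * (ϖ * (x k * x l) * (ϖ * (x k * x l))) = _
      ring
    · refine hZ.of_cube (x k * x k * ((x k * y l) * (ϖ * (y l * y l)))) (ϖ ^ 2) hg ?_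
        (coverU hZ hIn hϖ hsp k k (1, k, l) (2, l, l)) (In.pow_mem hϖ 2)
      change ϖ * (x k * y l) * (ϖ * (x k * y l) * (ϖ * (x k * y l))) = _
      ring
    · refine hZ.of_cube (ϖ * (y k * y l) * ((ϖ * (y k * y l)) * (ϖ * (y k * y l)))) (ϖ ^ 3) hg ?_
        (coverV hZ hIn hϖ hsp k l (2, k, l) (2, k, l)) (In.pow_mem hϖ 3)
      change ϖ * (ϖ * (y k * y l)) * (ϖ * (ϖ * (y k * y l)) * (ϖ * (ϖ * (y k * y l)))) = _
      ring
  · fin_cases a
    · exact coverU hZ hIn hϖ hsp k l s s'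
    · exact coverV hZ hIn hϖ hsp k l s s'
    · exact coverA hZ hIn hϖ hsp hκ l s s'
    · exact coverB hZ hIn hϖ hsp k hκ s s'
    · exact absurd hd (show ¬ (2 : ℕ) = 1 by decide)
    · exact absurd hd (show ¬ (2 : ℕ) = 1 by decide)
  · fin_cases a
    · exact absurd hd (show ¬ (1 : ℕ) = 2 by decide)
    · exact absurd hd (show ¬ (1 : ℕ) = 2 by decide)
    · exact absurd hd (show ¬ (1 : ℕ) = 2 by decide)
    · exact absurd hd (show ¬ (1 : ℕ) = 2 by decide)
    · exact coverS hZ hIn hϖ hc ehx hsp k l s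
    · exact coverT hZ hIn hϖ hc' ehy hsp k l s

end Cover

end Pool.Agent.Lib.MP_6a3dac_ag
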