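import Pool.Agent.Lib.MP_6a3dac_ag.RamChart
import Pool.Agent.Lib.MP_6a3dac_ag.SplitReg

/-!
# Estimates for the order of a quaternionic quadric at a ramified prime
-/

set_option autoImplicit false

namespace Pool.Agent.Lib.MP_6a3dac_ag

open MvPolynomial IsLocalRing Matrix

section Dec

variable {K A : Type} [CommRing K] [CommRing A] [Algebra K A] (𝒜 : ℕ → Submodule K A)
  [GradedAlgebra 𝒜]

open Classical in
/-- The components of a product. -/
theorem coe_decompose_mul_eq (a b : A) (k : ℕ) : (DirectSum.decompose 𝒜 (a * b) k : A) =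
    ∑ i ∈ (DirectSum.decompose 𝒜 a).support, if i ≤ k then
      (DirectSum.decompose 𝒜 a i : A) * (DirectSum.decompose 𝒜 b (k - i) : A) else 0 := by
  classical
  conv_lhs => rw [← DirectSum.sum_support_decompose 𝒜 a]
  rw [Finset.sum_mul, DirectSum.decompose_sum, DFinsupp.finsetSum_apply,
    AddSubmonoidClass.coe_finsetSum]
  refine Finset.sum_congr rfl fun i _ => ?_
  rw [DirectSum.coe_decompose_mul_of_left_mem 𝒜 _ (DirectSum.decompose 𝒜 a i).2]

variable {O : Type} [CommRing O] [Algebra O K] [Algebra O A] [IsScalarTower O K A]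

/-- Elements generated by elements of even degree have no odd components. -/
theorem decompose_odd {S : Set A} (hS : ∀ g ∈ S, ∃ j, g ∈ 𝒜 (2 * j)) {t : A}
    (ht : t ∈ Algebra.adjoin O S) : ∀ j, (DirectSum.decompose 𝒜 t (2 * j + 1) : A) = 0 := by
  classical
  induction ht using Algebra.adjoin_induction with
  | mem g hg =>
    intro j
    obtain ⟨i, hi⟩ := hS g hg
    rw [DirectSum.decompose_of_mem_ne 𝒜 hi (by omega)]
  | algebraMap r =>
    intro j
    have h0 : algebraMap O A r ∈ 𝒜 0 := by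
      rw [IsScalarTower.algebraMap_apply O K A]
      exact SetLike.algebraMap_mem_graded 𝒜 _
    rw [DirectSum.decompose_of_mem_ne 𝒜 h0 (by omega)]
  | add a b _ _ ha hb =>
    intro j
    rw [DirectSum.decompose_add, DirectSum.add_apply, Submodule.coe_add, ha, hb, add_zero]
  | mul a b _ _ ha hb =>
    intro j
    rw [coe_decompose_mul_eq]
    refine Finset.sum_eq_zero fun i _ => ?_
    split_ifs with hi
    · obtain ⟨i', hi' | hi'⟩ := Nat.even_or_odd' i
      · have h1 : 2 * j + 1 - i = 2 * (j - i') + 1 := by omega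
        rw [h1, hb, mul_zero]
      · rw [hi', ha, zero_mul]
    · rfl

end Dec

section Est

variable {O K A : Type} [CommRing O] [CommRing K] [CommRing A] [Algebra O K]
  [Algebra K A] [Algebra O A] [IsScalarTower O K A] (𝒜 : ℕ → Submodule K A)
  [GradedAlgebra 𝒜] {m : ℕ} (π : O) (h h' : Matrix (Fin m) (Fin m) O) (W : Finset (Fin m))
  (x y : Fin m → A)

/-- The order of a quaternionic quadric at a ramified prime. -/
def ramOrder : Subalgebra O A :=
  Algebra.adjoin O (ramSet x y (algebraMap O A π) (bl (algebraMap O A) h x x)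
    (bl (algebraMap O A) h' y y) W)

omit [GradedAlgebra 𝒜] in
theorem algebraMap_mem_zero [GradedAlgebra 𝒜] (r : O) : algebraMap O A r ∈ 𝒜 0 := by
  rw [IsScalarTower.algebraMap_apply O K A]
  exact SetLike.algebraMap_mem_graded 𝒜 _

theorem bl_mem_graded (A' : Matrix (Fin m) (Fin m) O) {x : Fin m → A} (hx : ∀ i, x i ∈ 𝒜 1) :
    bl (algebraMap O A) A' x x ∈ 𝒜 2 := by
  refine Submodule.sum_mem _ fun i _ => Submodule.sum_mem _ fun j _ => ?_
  have h1 := SetLike.mul_mem_graded (SetLike.mul_mem_graded (algebraMap_mem_zero 𝒜 (A' i j))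
    (hx i)) (hx j)
  exact h1

variable {x y} (hx : ∀ i, x i ∈ 𝒜 1) (hy : ∀ i, y i ∈ 𝒜 1)

include hx hy in
theorem sG_mem_graded (s) : sG x y (algebraMap O A π) s ∈ 𝒜 2 := by
  obtain ⟨a, k, l⟩ := s
  fin_cases a
  · exact SetLike.mul_mem_graded (hx k) (hx l)
  · exact SetLike.mul_mem_graded (hx k) (hy l)
  · exact SetLike.mul_mem_graded (algebraMap_mem_zero 𝒜 π) (SetLike.mul_mem_graded (hy k) (hy l))

include hx hy in
theorem kG_mem_graded (s) : kG x y (algebraMap O A π) (bl (algebraMap O A) h x x)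
    (bl (algebraMap O A) h' y y) s ∈ 𝒜 (2 * kDeg s) := by
  obtain ⟨a, k, l⟩ := s
  fin_cases a
  · exact SetLike.mul_mem_graded (hx k) (hx l)
  · exact SetLike.mul_mem_graded (algebraMap_mem_zero 𝒜 π) (SetLike.mul_mem_graded (hy k) (hy l))
  · exact SetLike.mul_mem_graded (hx k) (hy l)
  · exact SetLike.mul_mem_graded (hx k) (hy l)
  · exact SetLike.mul_mem_graded (bl_mem_graded 𝒜 h hx) (SetLike.mul_mem_graded (hy k) (hy l))
  · exact SetLike.mul_mem_graded (bl_mem_graded 𝒜 h' hy) (SetLike.mul_mem_graded (hx k) (hx l))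

variable {L : Type} [CommRing L] (ι : A →+* L) (sx sx' sy sy' e e' : L) (he : e * e' = 1)
  (hsx : sx * sx' = 1) (hsy : sy * sy' = 1)

include he hsx hsy in
theorem iota_sG (s) : ∃ P, ι (sG x y (algebraMap O A π) s) = (sx * sy) * (dl (ι.comp (algebraMap O A)) π h h' W (fun i => ι (x i)) (fun i => ι (y i)) sx sx' sy sy' e e') P := by
  have a1 := dl_ahat (ι.comp (algebraMap O A)) π h h' W (fun i => ι (x i)) (fun i => ι (y i))
    sx sx' sy sy' e e' he
  have a2 := dl_bhat (ι.comp (algebraMap O A)) π h h' W (fun i => ι (x i)) (fun i => ι (y i))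
    sx sx' sy sy' e e' he
  have a3 := dl_eu (ι.comp (algebraMap O A)) π h h' W (fun i => ι (x i)) (fun i => ι (y i))
    sx sx' sy sy' e e' he
  have a4 := dl_ev (ι.comp (algebraMap O A)) π h h' W (fun i => ι (x i)) (fun i => ι (y i))
    sx sx' sy sy' e e' he
  obtain ⟨a, k, l⟩ := s
  fin_cases a
  · refine ⟨eV O m * uV O m * ahat O W k * ahat O W l, ?_⟩
    rw [map_mul, map_mul, map_mul, a1, a1, a3]
    change ι (x k * x l) = _
    rw [map_mul]
    linear_combination (-(ι (x k) * ι (x l) * (sx * sx') ^ 2)) * hsy -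
      (ι (x k) * ι (x l) * (sx * sx' + 1)) * hsx
  · refine ⟨ahat O W k * bhat O W l, ?_⟩
    rw [map_mul, a1, a2]
    change ι (x k * y l) = _
    rw [map_mul]
    linear_combination (-(ι (x k) * ι (y l) * (sx * sx'))) * hsy - (ι (x k) * ι (y l)) * hsx
  · refine ⟨eV O m * vV O m * bhat O W k * bhat O W l, ?_⟩
    rw [map_mul, map_mul, map_mul, a2, a2, a4]
    change ι (algebraMap O A π * (y k * y l)) = _
    rw [map_mul, map_mul, RingHom.comp_apply]
    linear_combination (-(ι (algebraMap O A π) * ι (y k) * ι (y l) * (sy * sy') ^ 2)) * hsx -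
      (ι (algebraMap O A π) * ι (y k) * ι (y l) * (sy * sy' + 1)) * hsy

include he hsx hsy in
theorem iota_kG (s) (hs : kOk W s) : ∃ P, ι (kG x y (algebraMap O A π)
    (bl (algebraMap O A) h x x) (bl (algebraMap O A) h' y y) s) =
      e * (sx * sy) ^ kDeg s * (dl (ι.comp (algebraMap O A)) π h h' W (fun i => ι (x i)) (fun i => ι (y i)) sx sx' sy sy' e e') P := by
  have a1 := dl_ahat (ι.comp (algebraMap O A)) π h h' W (fun i => ι (x i)) (fun i => ι (y i))
    sx sx' sy sy' e e' he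
  have a2 := dl_bhat (ι.comp (algebraMap O A)) π h h' W (fun i => ι (x i)) (fun i => ι (y i))
    sx sx' sy sy' e e' he
  obtain ⟨a, k, l⟩ := s
  fin_cases a
  · refine ⟨uV O m * ahat O W k * ahat O W l, ?_⟩
    rw [map_mul, map_mul, a1, a1, dl_u]
    change ι (x k * x l) = e * (sx * sy) ^ 1 * _
    rw [map_mul]
    linear_combination (-(ι (x k) * ι (x l) * (sx * sx') ^ 2 * (sy * sy'))) * he +
      (-(ι (x k) * ι (x l) * (sx * sx') ^ 2)) * hsy -
      (ι (x k) * ι (x l) * (sx * sx' + 1)) * hsx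
  · refine ⟨vV O m * bhat O W k * bhat O W l, ?_⟩
    rw [map_mul, map_mul, a2, a2, dl_v]
    change ι (algebraMap O A π * (y k * y l)) = e * (sx * sy) ^ 1 * _
    rw [map_mul, map_mul, RingHom.comp_apply]
    linear_combination
      (-(ι (algebraMap O A π) * ι (y k) * ι (y l) * (sy * sy') ^ 2 * (sx * sx'))) * he +
      (-(ι (algebraMap O A π) * ι (y k) * ι (y l) * (sy * sy') ^ 2)) * hsx -
      (ι (algebraMap O A π) * ι (y k) * ι (y l) * (sy * sy' + 1)) * hsy
  · have hk : k ∉ W := hs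
    refine ⟨aV O k * bhat O W l, ?_⟩
    rw [map_mul, a2, dl_a_notMem _ _ _ _ _ _ _ _ _ _ _ _ _ hk]
    change ι (x k * y l) = e * (sx * sy) ^ 1 * _
    rw [map_mul]
    linear_combination (-(ι (x k) * ι (y l) * (sx * sx') * (sy * sy'))) * he +
      (-(ι (x k) * ι (y l) * (sx * sx'))) * hsy - (ι (x k) * ι (y l)) * hsx
  · have hl : l ∉ W := hs
    refine ⟨ahat O W k * bV O l, ?_⟩
    rw [map_mul, a1, dl_b_notMem _ _ _ _ _ _ _ _ _ _ _ _ _ hl]
    change ι (x k * y l) = e * (sx * sy) ^ 1 * _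
    rw [map_mul]
    linear_combination (-(ι (x k) * ι (y l) * (sx * sx') * (sy * sy'))) * he +
      (-(ι (x k) * ι (y l) * (sx * sx'))) * hsy - (ι (x k) * ι (y l)) * hsx
  · refine ⟨sV O m * bhat O W k * bhat O W l, ?_⟩
    rw [map_mul, map_mul, a2, a2, dl_s]
    change ι (bl (algebraMap O A) h x x * (y k * y l)) = e * (sx * sy) ^ 2 * _
    rw [map_mul, map_mul, map_bl]
    linear_combination (-(bl (ι.comp (algebraMap O A)) h (fun i => ι (x i)) (fun i => ι (x i)) *
        ι (y k) * ι (y l) * (sx * sx') ^ 2 * (sy * sy') ^ 2)) * he +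
      (-(bl (ι.comp (algebraMap O A)) h (fun i => ι (x i)) (fun i => ι (x i)) *
        ι (y k) * ι (y l) * (sx * sx') ^ 2 * (sy * sy' + 1))) * hsy -
      (bl (ι.comp (algebraMap O A)) h (fun i => ι (x i)) (fun i => ι (x i)) *
        ι (y k) * ι (y l) * (sx * sx' + 1)) * hsx
  · refine ⟨tV O m * ahat O W k * ahat O W l, ?_⟩
    rw [map_mul, map_mul, a1, a1, dl_t]
    change ι (bl (algebraMap O A) h' y y * (x k * x l)) = e * (sx * sy) ^ 2 * _
    rw [map_mul, map_mul, map_bl]
    linear_combination (-(bl (ι.comp (algebraMap O A)) h' (fun i => ι (y i)) (fun i => ι (y i)) *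
        ι (x k) * ι (x l) * (sx * sx') ^ 2 * (sy * sy') ^ 2)) * he +
      (-(bl (ι.comp (algebraMap O A)) h' (fun i => ι (y i)) (fun i => ι (y i)) *
        ι (x k) * ι (x l) * (sx * sx') ^ 2 * (sy * sy' + 1))) * hsy -
      (bl (ι.comp (algebraMap O A)) h' (fun i => ι (y i)) (fun i => ι (y i)) *
        ι (x k) * ι (x l) * (sx * sx' + 1)) * hsx

include he hsx hsy in
theorem iota_pi : ∃ P, ι (algebraMap O A π) = e * (dl (ι.comp (algebraMap O A)) π h h' W (fun i => ι (x i)) (fun i => ι (y i)) sx sx' sy sy' e e') P := by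
  have a0 := dl_r0 (ι.comp (algebraMap O A)) π h h' W (fun i => ι (x i)) (fun i => ι (y i))
    sx sx' sy sy' e e' he hsx hsy
  refine ⟨eV O m * uV O m * vV O m, ?_⟩
  rw [dl_C, dl_e] at a0
  rw [map_mul, map_mul, dl_e]
  change (ι.comp (algebraMap O A)) π = _
  rw [← a0]
  ring

include hx hy he hsx hsy in
theorem iota_gen (g) (hg : g ∈ ramSet x y (algebraMap O A π) (bl (algebraMap O A) h x x)
    (bl (algebraMap O A) h' y y) W) : ∃ j, (j + 2) / 3 = 1 ∧ g ∈ 𝒜 (2 * j) ∧
      ∃ P, ι g = e * (sx * sy) ^ j * (dl (ι.comp (algebraMap O A)) π h h' W (fun i => ι (x i)) (fun i => ι (y i)) sx sx' sy sy' e e') P := by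
  rcases hg with ⟨s, rfl⟩ | ⟨κ, s, s', hκ, hd, rfl⟩ | ⟨κ, s, hκ, hd, rfl⟩
  · obtain ⟨P, hP⟩ := iota_sG π h h' W ι sx sx' sy sy' e e' he hsx hsy s
    obtain ⟨Q, hQ⟩ := iota_pi π h h' W (x := x) (y := y) ι sx sx' sy sy' e e' he hsx hsy
    refine ⟨1, rfl, ?_, Q * P, ?_⟩
    · exact SetLike.mul_mem_graded (algebraMap_mem_zero 𝒜 π) (sG_mem_graded 𝒜 π hx hy s)
    · rw [map_mul, map_mul, hP, hQ]; ring
  · obtain ⟨P, hP⟩ := iota_sG π h h' W ι sx sx' sy sy' e e' he hsx hsy s
    obtain ⟨P', hP'⟩ := iota_sG π h h' W ι sx sx' sy sy' e e' he hsx hsy s'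
    obtain ⟨Q, hQ⟩ := iota_kG π h h' W ι sx sx' sy sy' e e' he hsx hsy κ hκ
    refine ⟨3, rfl, ?_, Q * P * P', ?_⟩
    · have h1 := SetLike.mul_mem_graded (kG_mem_graded 𝒜 π h h' hx hy κ)
        (SetLike.mul_mem_graded (sG_mem_graded 𝒜 π hx hy s) (sG_mem_graded 𝒜 π hx hy s'))
      rw [hd] at h1
      exact h1
    · rw [map_mul, map_mul, map_mul, map_mul, hP, hP', hQ, hd]; ring
  · obtain ⟨P, hP⟩ := iota_sG π h h' W ι sx sx' sy sy' e e' he hsx hsy s
    obtain ⟨Q, hQ⟩ := iota_kG π h h' W ι sx sx' sy sy' e e' he hsx hsy κ hκ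
    refine ⟨3, rfl, ?_, Q * P, ?_⟩
    · have h1 := SetLike.mul_mem_graded (kG_mem_graded 𝒜 π h h' hx hy κ)
        (sG_mem_graded 𝒜 π hx hy s)
      rw [hd] at h1
      exact h1
    · rw [map_mul, map_mul, hP, hQ, hd]; ring

include hx hy he hsx hsy in
/-- The estimate for the homogeneous components of elements of the order. -/
theorem ram_estimate {t : A} (ht : t ∈ ramOrder π h h' W x y) (j : ℕ) :
    ∃ P, ι (DirectSum.decompose 𝒜 t (2 * j)) = e ^ ((j + 2) / 3) * (sx * sy) ^ j * (dl (ι.comp (algebraMap O A)) π h h' W (fun i => ι (x i)) (fun i => ι (y i)) sx sx' sy sy' e e') P := by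
  classical
  have hodd : ∀ t ∈ ramOrder π h h' W x y, ∀ j,
      (DirectSum.decompose 𝒜 t (2 * j + 1) : A) = 0 := by
    intro t ht
    refine decompose_odd 𝒜 (O := O) (fun g hg => ?_) ht
    obtain ⟨j, _, hj, _⟩ := iota_gen 𝒜 π h h' W hx hy ι sx sx' sy sy' e e' he hsx hsy g hg
    exact ⟨j, hj⟩
  induction ht using Algebra.adjoin_induction generalizing j with
  | mem g hg =>
    obtain ⟨i, hi, hgi, P, hP⟩ := iota_gen 𝒜 π h h' W hx hy ι sx sx' sy sy' e e' he hsx hsy g hg
    by_cases hij : i = j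
    · subst hij
      rw [DirectSum.decompose_of_mem_same 𝒜 hgi, hi, pow_one]
      exact ⟨P, hP⟩
    · rw [DirectSum.decompose_of_mem_ne 𝒜 hgi (by omega), map_zero]
      exact ⟨0, by rw [map_zero, mul_zero]⟩
  | algebraMap r =>
    have h0 := algebraMap_mem_zero 𝒜 r
    by_cases hj : j = 0
    · subst hj
      rw [mul_zero, DirectSum.decompose_of_mem_same 𝒜 h0]
      refine ⟨C r, ?_⟩
      rw [dl_C]
      simp
    · rw [DirectSum.decompose_of_mem_ne 𝒜 h0 (by omega), map_zero]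
      exact ⟨0, by rw [map_zero, mul_zero]⟩
  | add a b _ _ ha hb =>
    obtain ⟨P, hP⟩ := ha j
    obtain ⟨P', hP'⟩ := hb j
    refine ⟨P + P', ?_⟩
    rw [DirectSum.decompose_add, DirectSum.add_apply, Submodule.coe_add, map_add, hP, hP', map_add]
    ring
  | mul a b ha' hb' ha hb =>
    have hterm : ∀ i, ∃ P, ι (if i ≤ 2 * j then (DirectSum.decompose 𝒜 a i : A) *
        (DirectSum.decompose 𝒜 b (2 * j - i) : A) else 0) =
        e ^ ((j + 2) / 3) * (sx * sy) ^ j * (dl (ι.comp (algebraMap O A)) π h h' W (fun i => ι (x i)) (fun i => ι (y i)) sx sx' sy sy' e e') P := by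
      intro i
      split_ifs with hi
      · obtain ⟨i', hi' | hi'⟩ := Nat.even_or_odd' i
        · obtain ⟨P, hP⟩ := ha i'
          obtain ⟨P', hP'⟩ := hb (j - i')
          obtain ⟨r, hr⟩ : ∃ r, (i' + 2) / 3 + (j - i' + 2) / 3 = (j + 2) / 3 + r :=
            Nat.exists_eq_add_of_le (by omega)
          refine ⟨eV O m ^ r * (P * P'), ?_⟩
          have h1 : 2 * j - i = 2 * (j - i') := by omega
          have hk : (sx * sy) ^ j = (sx * sy) ^ i' * (sx * sy) ^ (j - i') := by
            rw [← pow_add]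
            congr 1
            omega
          have he2 : e ^ ((i' + 2) / 3) * e ^ ((j - i' + 2) / 3) = e ^ ((j + 2) / 3) * e ^ r := by
            rw [← pow_add, ← pow_add, hr]
          rw [h1, map_mul, hi', hP, hP', map_mul, map_mul, map_pow, dl_e, hk]
          linear_combination ((sx * sy) ^ i' * (sx * sy) ^ (j - i') * (dl (ι.comp (algebraMap O A)) π h h' W (fun i => ι (x i)) (fun i => ι (y i)) sx sx' sy sy' e e') P * (dl (ι.comp (algebraMap O A)) π h h' W (fun i => ι (x i)) (fun i => ι (y i)) sx sx' sy sy' e e') P') * he2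
        · refine ⟨0, ?_⟩
          rw [hi', hodd a ha' i', zero_mul, map_zero, map_zero, mul_zero]
      · exact ⟨0, by rw [map_zero, map_zero, mul_zero]⟩
    choose P hP using hterm
    refine ⟨∑ i ∈ (DirectSum.decompose 𝒜 a).support, P i, ?_⟩
    rw [coe_decompose_mul_eq, map_sum, map_sum, Finset.mul_sum]
    exact Finset.sum_congr rfl fun i _ => hP i

end Est

end Pool.Agent.Lib.MP_6a3dac_ag
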