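import Pool.Agent.Lib.MP_6a3dac_ag.RamCore

/-!
# Independence of the equations of the charts of quaternionic quadrics at ramified primes
-/

set_option autoImplicit false

namespace Pool.Agent.Lib.MP_6a3dac_ag

open MvPolynomial IsLocalRing Matrix

section Calc

variable {O : Type} [CommRing O] {m : ℕ}

theorem derivation_bl_euler {σ : Type} (D : Derivation O (MvPolynomial σ O) (MvPolynomial σ O))
    (A : Matrix (Fin m) (Fin m) O) (x y wx wy : Fin m → MvPolynomial σ O)
    (hx : ∀ i, D (x i) = wx i * x i) (hy : ∀ i, D (y i) = wy i * y i) (μ : MvPolynomial σ O)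
    (hA : ∀ i j, A i j ≠ 0 → wx i + wy j = μ) : D (bl C A x y) = μ * bl C A x y := by
  rw [derivation_bl]
  simp only [bl, Finset.mul_sum, ← Finset.sum_add_distrib, hx, hy]
  refine Finset.sum_congr rfl fun i _ => Finset.sum_congr rfl fun j _ => ?_
  by_cases hij : A i j = 0
  · rw [hij, C_0]; ring
  · rw [← hA i j hij]; ring

variable (q c g k q' c' : Matrix (Fin m) (Fin m) O) (W : Finset (Fin m))

theorem derivation_ramF (D : Derivation O (MvPolynomial (RV m) O) (MvPolynomial (RV m) O)) :
    D (ramF q c g k q' c' W) =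
      D (uV O m) * (sV O m + bl C c (aV O) (aV O) + eV O m * bl C q (aV O) (aV O)) +
      uV O m * (D (sV O m) + D (bl C c (aV O) (aV O)) +
        (D (eV O m) * bl C q (aV O) (aV O) + eV O m * D (bl C q (aV O) (aV O)))) +
      D (bl C g (aV O) (bV O)) +
      (D (vV O m) * (tV O m + bl C c' (bV O) (bV O) + eV O m * bl C q' (bV O) (bV O)) +
      vV O m * (D (tV O m) + D (bl C c' (bV O) (bV O)) +
        (D (eV O m) * bl C q' (bV O) (bV O) + eV O m * D (bl C q' (bV O) (bV O))))) +
      ((D (uV O m) * vV O m + uV O m * D (vV O m)) * bl C k (ahat O W) (bhat O W) +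
        uV O m * vV O m * D (bl C k (ahat O W) (bhat O W))) := by
  simp only [ramF, map_add, Derivation.leibniz, smul_eq_mul]
  ring

end Calc

section Euler

variable {O : Type} [CommRing O] {m : ℕ} {π : O}
  {q c h g k q' c' h' : Matrix (Fin m) (Fin m) O} {W : Finset (Fin m)}
  (D : Derivation O (MvPolynomial (RV m) O) (MvPolynomial (RV m) O))

/-- The first Euler derivation. -/
theorem euler3 [IsLocalRing O] (H : RamForm π q c h g k q' c' h' W) (ha : ∀ i, D (aV O i) = (if i ∈ W then 0 else 1) * aV O i)
    (hb : ∀ i, D (bV O i) = (if i ∈ W then 0 else 1) * bV O i)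
    (he : D (eV O m) = -eV O m) (hu : D (uV O m) = uV O m) (hv : D (vV O m) = vV O m)
    (hs : D (sV O m) = sV O m) (ht : D (tV O m) = tV O m) (n : Nrm m) (κ : RV m) :
    D (ramEqs π q c h g k q' c' h' W n κ 0) = 0 ∧ D (ramEqs π q c h g k q' c' h' W n κ 1) = 0 ∧
    D (ramEqs π q c h g k q' c' h' W n κ 2) = 0 ∧
    D (ramEqs π q c h g k q' c' h' W n κ 3) = 2 * ramEqs π q c h g k q' c' h' W n κ 3 ∧
    D (ramEqs π q c h g k q' c' h' W n κ 4) = 0 ∧
    D (ramEqs π q c h g k q' c' h' W n κ 5) = 0 := by
  have hDC : ∀ r, D (C r) = 0 := fun r => derivation_C D r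
  have hah : ∀ i, D (ahat O W i) = 0 * ahat O W i := by
    intro i
    unfold ahat
    split_ifs with hi
    · rw [ha, if_pos hi]
    · rw [Derivation.leibniz, ha, if_neg hi, he]
      simp only [smul_eq_mul]; ring
  have hbh : ∀ i, D (bhat O W i) = 0 * bhat O W i := by
    intro i
    unfold bhat
    split_ifs with hi
    · rw [hb, if_pos hi]
    · rw [Derivation.leibniz, hb, if_neg hi, he]
      simp only [smul_eq_mul]; ring
  have Dq : D (bl C q (aV O) (aV O)) = 2 * bl C q (aV O) (aV O) := by
    refine derivation_bl_euler D q _ _ _ _ ha ha 2 fun i l hil => ?_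
    have hi : i ∉ W := fun hi => hil (H.q_zero i l (Or.inl hi))
    have hl : l ∉ W := fun hl => hil (H.q_zero i l (Or.inr hl))
    rw [if_neg hi, if_neg hl]
    norm_num
  have Dq' : D (bl C q' (bV O) (bV O)) = 2 * bl C q' (bV O) (bV O) := by
    refine derivation_bl_euler D q' _ _ _ _ hb hb 2 fun i l hil => ?_
    have hi : i ∉ W := fun hi => hil (H.q_zero' i l (Or.inl hi))
    have hl : l ∉ W := fun hl => hil (H.q_zero' i l (Or.inr hl))
    rw [if_neg hi, if_neg hl]
    norm_num
  have Dg : D (bl C g (aV O) (bV O)) = 2 * bl C g (aV O) (bV O) := by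
    refine derivation_bl_euler D g _ _ _ _ ha hb 2 fun i l hil => ?_
    have hi : i ∉ W := fun hi => hil (H.g_zero i l (Or.inl hi))
    have hl : l ∉ W := fun hl => hil (H.g_zero i l (Or.inr hl))
    rw [if_neg hi, if_neg hl]
    norm_num
  have Dc : D (bl C c (aV O) (aV O)) = 1 * bl C c (aV O) (aV O) := by
    refine derivation_bl_euler D c _ _ _ _ ha ha 1 fun i l hil => ?_
    have hi : i ∉ W := fun hi => hil (H.c_zero i l (Or.inl hi))
    have hl : l ∈ W := by
      by_contra hl
      exact hil (H.c_zero i l (Or.inr hl))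
    rw [if_neg hi, if_pos hl, add_zero]
  have Dc' : D (bl C c' (bV O) (bV O)) = 1 * bl C c' (bV O) (bV O) := by
    refine derivation_bl_euler D c' _ _ _ _ hb hb 1 fun i l hil => ?_
    have hi : i ∉ W := fun hi => hil (H.c_zero' i l (Or.inl hi))
    have hl : l ∈ W := by
      by_contra hl
      exact hil (H.c_zero' i l (Or.inr hl))
    rw [if_neg hi, if_pos hl, add_zero]
  have Dh : D (bl C h (aV O) (aV O)) = 0 * bl C h (aV O) (aV O) := by
    refine derivation_bl_euler D h _ _ _ _ ha ha 0 fun i l hil => ?_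
    have hi : i ∈ W := by
      by_contra hi
      exact hil (H.h_zero i l (Or.inl hi))
    have hl : l ∈ W := by
      by_contra hl
      exact hil (H.h_zero i l (Or.inr hl))
    rw [if_pos hi, if_pos hl, add_zero]
  have Dh' : D (bl C h' (bV O) (bV O)) = 0 * bl C h' (bV O) (bV O) := by
    refine derivation_bl_euler D h' _ _ _ _ hb hb 0 fun i l hil => ?_
    have hi : i ∈ W := by
      by_contra hi
      exact hil (H.h_zero' i l (Or.inl hi))
    have hl : l ∈ W := by
      by_contra hl
      exact hil (H.h_zero' i l (Or.inr hl))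
    rw [if_pos hi, if_pos hl, add_zero]
  have Dk : D (bl C k (ahat O W) (bhat O W)) = 0 * bl C k (ahat O W) (bhat O W) :=
    derivation_bl_euler D k _ _ _ _ hah hbh 0 fun i l _ => add_zero _
  refine ⟨?_, ?_, ?_, ?_, ?_, ?_⟩
  · change D (eV O m ^ 2 * (uV O m * vV O m) - C π) = 0
    rw [map_sub, hDC, Derivation.leibniz, Derivation.leibniz_pow, Derivation.leibniz, he, hu, hv]
    simp only [smul_eq_mul, nsmul_eq_mul]
    push_cast
    ring
  · change D (bl C h (aV O) (aV O) - eV O m * sV O m) = 0
    rw [map_sub, Dh, Derivation.leibniz, he, hs]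
    simp only [smul_eq_mul]
    ring
  · change D (bl C h' (bV O) (bV O) - eV O m * tV O m) = 0
    rw [map_sub, Dh', Derivation.leibniz, he, ht]
    simp only [smul_eq_mul]
    ring
  · change D (ramF q c g k q' c' W) = 2 * ramF q c g k q' c' W
    rw [derivation_ramF, Dq, Dq', Dc, Dc', Dg, Dk, he, hu, hv, hs, ht, ramF]
    ring
  · change D (nrm1 O W n - 1) = 0
    rw [map_sub, Derivation.map_one_eq_zero, sub_zero]
    rcases n with i | j | ⟨i, j⟩
    · change D (ahat O W i) = 0
      rw [hah, zero_mul]
    · change D (eV O m * vV O m) = 0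
      rw [Derivation.leibniz, he, hv]
      simp only [smul_eq_mul]
      ring
    · change D (ahat O W i) = 0
      rw [hah, zero_mul]
  · change D (nrm2 O W n - 1) = 0
    rw [map_sub, Derivation.map_one_eq_zero, sub_zero]
    rcases n with i | j | ⟨i, j⟩
    · change D (eV O m * uV O m) = 0
      rw [Derivation.leibniz, he, hu]
      simp only [smul_eq_mul]
      ring
    · change D (bhat O W j) = 0
      rw [hbh, zero_mul]
    · change D (bhat O W j) = 0
      rw [hbh, zero_mul]

/-- The second Euler derivation. -/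
theorem euler1 (ha : ∀ i, D (aV O i) = 1 * aV O i) (hb : ∀ i : Fin m, D (bV O i) = 0 * bV O i)
    (he : D (eV O m) = 0) (hu : D (uV O m) = -uV O m) (hv : D (vV O m) = vV O m)
    (hs : D (sV O m) = 2 * sV O m) (ht : D (tV O m) = 0) (n : Nrm m) (κ : RV m) :
    D (ramEqs π q c h g k q' c' h' W n κ 0) = 0 ∧
    D (ramEqs π q c h g k q' c' h' W n κ 1) = 2 * ramEqs π q c h g k q' c' h' W n κ 1 ∧
    D (ramEqs π q c h g k q' c' h' W n κ 2) = 0 ∧
    D (ramEqs π q c h g k q' c' h' W n κ 3) = ramEqs π q c h g k q' c' h' W n κ 3 ∧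
    D (ramEqs π q c h g k q' c' h' W n κ 4) = nrm1 O W n ∧
    D (ramEqs π q c h g k q' c' h' W n κ 5) = match n with
      | Nrm.xx _ => -(eV O m * uV O m)
      | _ => 0 := by
  have hDC : ∀ r, D (C r) = 0 := fun r => derivation_C D r
  have hah : ∀ i, D (ahat O W i) = 1 * ahat O W i := by
    intro i
    unfold ahat
    split_ifs with hi
    · rw [ha]
    · rw [Derivation.leibniz, ha, he]
      simp only [smul_eq_mul]; ring
  have hbh : ∀ i, D (bhat O W i) = 0 * bhat O W i := by
    intro i
    unfold bhat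
    split_ifs with hi
    · rw [hb]
    · rw [Derivation.leibniz, hb, he]
      simp only [smul_eq_mul]; ring
  have hA : ∀ A, D (bl C A (aV O) (aV O)) = 2 * bl C A (aV O) (aV O) := fun A =>
    derivation_bl_euler D A _ _ _ _ ha ha 2 fun i l _ => by norm_num
  have hB : ∀ A, D (bl C A (bV O) (bV O)) = 0 * bl C A (bV O) (bV O) := fun A =>
    derivation_bl_euler D A _ _ _ _ hb hb 0 fun i l _ => add_zero _
  have Dg : D (bl C g (aV O) (bV O)) = 1 * bl C g (aV O) (bV O) :=
    derivation_bl_euler D g _ _ _ _ ha hb 1 fun i l _ => add_zero _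
  have Dk : D (bl C k (ahat O W) (bhat O W)) = 1 * bl C k (ahat O W) (bhat O W) :=
    derivation_bl_euler D k _ _ _ _ hah hbh 1 fun i l _ => add_zero _
  refine ⟨?_, ?_, ?_, ?_, ?_, ?_⟩
  · change D (eV O m ^ 2 * (uV O m * vV O m) - C π) = 0
    rw [map_sub, hDC, Derivation.leibniz, Derivation.leibniz_pow, Derivation.leibniz, he, hu, hv]
    simp only [smul_eq_mul, nsmul_eq_mul]
    push_cast
    ring
  · change D (bl C h (aV O) (aV O) - eV O m * sV O m) = 2 * (_ - _)
    rw [map_sub, hA, Derivation.leibniz, he, hs]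
    simp only [smul_eq_mul]
    ring
  · change D (bl C h' (bV O) (bV O) - eV O m * tV O m) = 0
    rw [map_sub, hB, Derivation.leibniz, he, ht]
    simp only [smul_eq_mul]
    ring
  · change D (ramF q c g k q' c' W) = ramF q c g k q' c' W
    rw [derivation_ramF, hA, hB, hA, hB, Dg, Dk, he, hu, hv, hs, ht, ramF]
    ring
  · change D (nrm1 O W n - 1) = _
    rw [map_sub, Derivation.map_one_eq_zero, sub_zero]
    rcases n with i | j | ⟨i, j⟩
    · change D (ahat O W i) = ahat O W i
      rw [hah, one_mul]
    · change D (eV O m * vV O m) = eV O m * vV O m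
      rw [Derivation.leibniz, he, hv]
      simp only [smul_eq_mul]
      ring
    · change D (ahat O W i) = ahat O W i
      rw [hah, one_mul]
  · change D (nrm2 O W n - 1) = _
    rw [map_sub, Derivation.map_one_eq_zero, sub_zero]
    rcases n with i | j | ⟨i, j⟩
    · change D (eV O m * uV O m) = -(eV O m * uV O m)
      rw [Derivation.leibniz, he, hu]
      simp only [smul_eq_mul]
      ring
    · change D (bhat O W j) = 0
      rw [hbh, zero_mul]
    · change D (bhat O W j) = 0
      rw [hbh, zero_mul]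

/-- The third Euler derivation. -/
theorem euler2 (ha : ∀ i : Fin m, D (aV O i) = 0 * aV O i) (hb : ∀ i, D (bV O i) = 1 * bV O i)
    (he : D (eV O m) = 0) (hu : D (uV O m) = uV O m) (hv : D (vV O m) = -vV O m)
    (hs : D (sV O m) = 0) (ht : D (tV O m) = 2 * tV O m) (n : Nrm m) (κ : RV m) :
    D (ramEqs π q c h g k q' c' h' W n κ 0) = 0 ∧
    D (ramEqs π q c h g k q' c' h' W n κ 1) = 0 ∧
    D (ramEqs π q c h g k q' c' h' W n κ 2) = 2 * ramEqs π q c h g k q' c' h' W n κ 2 ∧
    D (ramEqs π q c h g k q' c' h' W n κ 3) = ramEqs π q c h g k q' c' h' W n κ 3 ∧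
    D (ramEqs π q c h g k q' c' h' W n κ 4) = (match n with
      | Nrm.yy _ => -(eV O m * vV O m)
      | _ => 0) ∧
    D (ramEqs π q c h g k q' c' h' W n κ 5) = nrm2 O W n := by
  have hDC : ∀ r, D (C r) = 0 := fun r => derivation_C D r
  have hah : ∀ i, D (ahat O W i) = 0 * ahat O W i := by
    intro i
    unfold ahat
    split_ifs with hi
    · rw [ha]
    · rw [Derivation.leibniz, ha, he]
      simp only [smul_eq_mul]; ring
  have hbh : ∀ i, D (bhat O W i) = 1 * bhat O W i := by
    intro i
    unfold bhat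
    split_ifs with hi
    · rw [hb]
    · rw [Derivation.leibniz, hb, he]
      simp only [smul_eq_mul]; ring
  have hA : ∀ A, D (bl C A (aV O) (aV O)) = 0 * bl C A (aV O) (aV O) := fun A =>
    derivation_bl_euler D A _ _ _ _ ha ha 0 fun i l _ => add_zero _
  have hB : ∀ A, D (bl C A (bV O) (bV O)) = 2 * bl C A (bV O) (bV O) := fun A =>
    derivation_bl_euler D A _ _ _ _ hb hb 2 fun i l _ => by norm_num
  have Dg : D (bl C g (aV O) (bV O)) = 1 * bl C g (aV O) (bV O) :=
    derivation_bl_euler D g _ _ _ _ ha hb 1 fun i l _ => zero_add _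
  have Dk : D (bl C k (ahat O W) (bhat O W)) = 1 * bl C k (ahat O W) (bhat O W) :=
    derivation_bl_euler D k _ _ _ _ hah hbh 1 fun i l _ => zero_add _
  refine ⟨?_, ?_, ?_, ?_, ?_, ?_⟩
  · change D (eV O m ^ 2 * (uV O m * vV O m) - C π) = 0
    rw [map_sub, hDC, Derivation.leibniz, Derivation.leibniz_pow, Derivation.leibniz, he, hu, hv]
    simp only [smul_eq_mul, nsmul_eq_mul]
    push_cast
    ring
  · change D (bl C h (aV O) (aV O) - eV O m * sV O m) = 0
    rw [map_sub, hA, Derivation.leibniz, he, hs]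
    simp only [smul_eq_mul]
    ring
  · change D (bl C h' (bV O) (bV O) - eV O m * tV O m) = 2 * (_ - _)
    rw [map_sub, hB, Derivation.leibniz, he, ht]
    simp only [smul_eq_mul]
    ring
  · change D (ramF q c g k q' c' W) = ramF q c g k q' c' W
    rw [derivation_ramF, hA, hB, hA, hB, Dg, Dk, he, hu, hv, hs, ht, ramF]
    ring
  · change D (nrm1 O W n - 1) = _
    rw [map_sub, Derivation.map_one_eq_zero, sub_zero]
    rcases n with i | j | ⟨i, j⟩
    · change D (ahat O W i) = 0
      rw [hah, zero_mul]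
    · change D (eV O m * vV O m) = -(eV O m * vV O m)
      rw [Derivation.leibniz, he, hv]
      simp only [smul_eq_mul]
      ring
    · change D (ahat O W i) = 0
      rw [hah, zero_mul]
  · change D (nrm2 O W n - 1) = _
    rw [map_sub, Derivation.map_one_eq_zero, sub_zero]
    rcases n with i | j | ⟨i, j⟩
    · change D (eV O m * uV O m) = eV O m * uV O m
      rw [Derivation.leibniz, he, hu]
      simp only [smul_eq_mul]
      ring
    · change D (bhat O W j) = bhat O W j
      rw [hbh, one_mul]
    · change D (bhat O W j) = bhat O W j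
      rw [hbh, one_mul]

end Euler

section Dep

variable {O : Type} [CommRing O] {m : ℕ} {π : O}
  {q c h g k q' c' h' : Matrix (Fin m) (Fin m) O} {W : Finset (Fin m)}
  (D : Derivation O (MvPolynomial (RV m) O) (MvPolynomial (RV m) O))

open Classical in
/-- The derivatives of the equations in directions tangent to the exceptional divisor. -/
theorem derivation_ramEqs (da db : Fin m → MvPolynomial (RV m) O)
    (du dv ds dt : MvPolynomial (RV m) O)
    (ha : ∀ i, D (aV O i) = da i) (hb : ∀ i : Fin m, D (bV O i) = db i)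
    (he : D (eV O m) = 0) (hu : D (uV O m) = du) (hv : D (vV O m) = dv)
    (hs : D (sV O m) = ds) (ht : D (tV O m) = dt) (n : Nrm m) (κ : RV m) :
    D (ramEqs π q c h g k q' c' h' W n κ 0) = eV O m ^ 2 * (du * vV O m + uV O m * dv) ∧
    D (ramEqs π q c h g k q' c' h' W n κ 1) =
      (bl C h da (aV O) + bl C h (aV O) da) - eV O m * ds ∧
    D (ramEqs π q c h g k q' c' h' W n κ 2) =
      (bl C h' db (bV O) + bl C h' (bV O) db) - eV O m * dt ∧
    D (ramEqs π q c h g k q' c' h' W n κ 3) =
      du * (sV O m + bl C c (aV O) (aV O) + eV O m * bl C q (aV O) (aV O)) +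
      uV O m * (ds + (bl C c da (aV O) + bl C c (aV O) da) +
        eV O m * (bl C q da (aV O) + bl C q (aV O) da)) +
      (bl C g da (bV O) + bl C g (aV O) db) +
      (dv * (tV O m + bl C c' (bV O) (bV O) + eV O m * bl C q' (bV O) (bV O)) +
      vV O m * (dt + (bl C c' db (bV O) + bl C c' (bV O) db) +
        eV O m * (bl C q' db (bV O) + bl C q' (bV O) db))) +
      ((du * vV O m + uV O m * dv) * bl C k (ahat O W) (bhat O W) +
        uV O m * vV O m * (bl C k (fun i => if i ∈ W then da i else eV O m * da i) (bhat O W) +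
          bl C k (ahat O W) (fun i => if i ∈ W then db i else eV O m * db i))) := by
  have hDC : ∀ r, D (C r) = 0 := fun r => derivation_C D r
  have hda : (fun i => D (aV O i)) = da := funext ha
  have hdb : (fun i => D (bV O i)) = db := funext hb
  have hah : (fun i => D (ahat O W i)) = fun i => if i ∈ W then da i else eV O m * da i := by
    funext i
    unfold ahat
    split_ifs with hi
    · exact ha i
    · rw [Derivation.leibniz, ha, he]
      simp only [smul_eq_mul]; ring
  have hbh : (fun i => D (bhat O W i)) = fun i => if i ∈ W then db i else eV O m * db i := by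
    funext i
    unfold bhat
    split_ifs with hi
    · exact hb i
    · rw [Derivation.leibniz, hb, he]
      simp only [smul_eq_mul]; ring
  refine ⟨?_, ?_, ?_, ?_⟩
  · change D (eV O m ^ 2 * (uV O m * vV O m) - C π) = _
    rw [map_sub, hDC, Derivation.leibniz, Derivation.leibniz_pow, Derivation.leibniz, he, hu, hv]
    simp only [smul_eq_mul, nsmul_eq_mul]
    ring
  · change D (bl C h (aV O) (aV O) - eV O m * sV O m) = _
    rw [map_sub, derivation_bl, Derivation.leibniz, he, hs, hda]
    simp only [smul_eq_mul]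
    ring
  · change D (bl C h' (bV O) (bV O) - eV O m * tV O m) = _
    rw [map_sub, derivation_bl, Derivation.leibniz, he, ht, hdb]
    simp only [smul_eq_mul]
    ring
  · change D (ramF q c g k q' c' W) = _
    rw [derivation_ramF, derivation_bl, derivation_bl, derivation_bl, derivation_bl, derivation_bl,
      derivation_bl, he, hu, hv, hs, ht, hda, hdb, hah, hbh]
    ring

end Dep

end Pool.Agent.Lib.MP_6a3dac_ag
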