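import Pool.Agent.Lib.MP_6a3dac_ag.RamIndep

/-!
# Independence of the equations of the charts of quaternionic quadrics at ramified primes, II
-/

set_option autoImplicit false

namespace Pool.Agent.Lib.MP_6a3dac_ag

open MvPolynomial IsLocalRing Matrix

section Res

variable {P : Type} [CommRing P] (Y : Ideal P)

/-- The map to the residue field of a prime ideal. -/
noncomputable def resMap : P →+* FractionRing (P ⧸ Y) :=
  (algebraMap (P ⧸ Y) (FractionRing (P ⧸ Y))).comp (Ideal.Quotient.mk Y)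

theorem resMap_eq_zero_iff (x : P) : resMap Y x = 0 ↔ x ∈ Y := by
  rw [resMap, RingHom.comp_apply, map_eq_zero_iff _ (IsFractionRing.injective _ _),
    Ideal.Quotient.eq_zero_iff_mem]

end Res

section Dep

variable {O : Type} [CommRing O] {m : ℕ} {π : O}
  {q c h g k q' c' h' : Matrix (Fin m) (Fin m) O} {W : Finset (Fin m)}
  (n : Nrm m) (κ : RV m) (Y : Ideal (MvPolynomial (RV m) O)) [hYp : Y.IsPrime]
  (hfY : ∀ i, ramEqs π q c h g k q' c' h' W n κ i ∈ Y)
  {s : MvPolynomial (RV m) O} (hs : s ∉ Y)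
  (a : Fin 7 → MvPolynomial (RV m) O)
  (hsa : s * ∑ i, a i * ramEqs π q c h g k q' c' h' W n κ i ∈ Y ^ 2)

include hfY hs hsa in
theorem sum_derivation_mem (D : Derivation O (MvPolynomial (RV m) O) (MvPolynomial (RV m) O)) :
    ∑ i, a i * D (ramEqs π q c h g k q' c' h' W n κ i) ∈ Y := by
  have h1 := derivation_mem Y D hs hsa
  have h2 : D (∑ i, a i * ramEqs π q c h g k q' c' h' W n κ i) =
      ∑ i, a i * D (ramEqs π q c h g k q' c' h' W n κ i) +
      ∑ i, D (a i) * ramEqs π q c h g k q' c' h' W n κ i := by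
    rw [map_sum, ← Finset.sum_add_distrib]
    refine Finset.sum_congr rfl fun i _ => ?_
    rw [Derivation.leibniz, smul_eq_mul, smul_eq_mul]
    ring
  rw [h2] at h1
  exact (Ideal.add_mem_iff_left _ (Y.sum_mem fun i _ => Y.mul_mem_left _ (hfY i))).mp h1

omit [CommRing O] in
theorem sum_seven {M : Type} [AddCommMonoid M] (f : Fin 7 → M) :
    ∑ i, f i = f 0 + f 1 + f 2 + f 3 + f 4 + f 5 + f 6 := Fin.sum_univ_seven f

include hfY in
omit [Y.IsPrime] in
theorem X_notMem_of_eqs [hYp : Y.IsPrime] : X κ ∉ Y := by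
  intro hX
  have h1 := Y.sub_mem hX (show X κ - 1 ∈ Y from hfY 6)
  rw [sub_sub_cancel] at h1
  exact hYp.ne_top ((Ideal.eq_top_iff_one _).mpr h1)

include hfY hs hsa in
theorem a6_mem [IsLocalRing O] (H : RamForm π q c h g k q' c' h' W) (hκ : IsExc W κ) :
    a 6 ∈ Y := by
  classical
  let w : RV m → MvPolynomial (RV m) O :=
    Sum.elim (Sum.elim (fun i => if i ∈ W then 0 else 1) (fun i => if i ∈ W then 0 else 1))
      ![-1, 1, 1, 1, 1]
  let D := mkDerivation O fun κ' => w κ' * X κ'
  have hDX : ∀ κ', D (X κ') = w κ' * X κ' := fun κ' => mkDerivation_X _ _ _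
  obtain ⟨h0, h1, h2, h3, h4, h5⟩ := euler3 (π := π) D H (fun i => hDX _) (fun i => hDX _)
    (by rw [eV, hDX]; simp [w]) (by rw [uV, hDX]; simp [w]) (by rw [vV, hDX]; simp [w])
    (by rw [sV, hDX]; simp [w]) (by rw [tV, hDX]; simp [w]) n κ
  have h6 := sum_derivation_mem n κ Y hfY hs a hsa D
  have h7 : D (ramEqs π q c h g k q' c' h' W n κ 6) = X κ := by
    change D (X κ - 1) = X κ
    rw [map_sub, Derivation.map_one_eq_zero, sub_zero, hDX]
    rcases κ with (l | l) | b
    · have hl : l ∉ W := hκ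
      simp [w, hl]
    · have hl : l ∉ W := hκ
      simp [w, hl]
    · fin_cases b
      · exact absurd hκ (by simp [IsExc])
      · simp [w]
      · simp [w]
      · simp [w]
      · simp [w]
  rw [sum_seven, h0, h1, h2, h3, h4, h5, h7] at h6
  have h8 : a 6 * X κ ∈ Y := by
    have h9 : a 6 * X κ = (a 0 * 0 + a 1 * 0 + a 2 * 0 +
        a 3 * (2 * ramEqs π q c h g k q' c' h' W n κ 3) + a 4 * 0 + a 5 * 0 + a 6 * X κ) -
        (2 * a 3) * ramEqs π q c h g k q' c' h' W n κ 3 := by ring
    rw [h9]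
    exact Y.sub_mem h6 (Y.mul_mem_left _ (hfY 3))
  exact (hYp.mem_or_mem h8).resolve_right (X_notMem_of_eqs n κ Y hfY)

include hfY in
omit [Y.IsPrime] in
theorem resMap_nrm : resMap Y (nrm1 O W n) = 1 ∧ resMap Y (nrm2 O W n) = 1 := by
  constructor
  · have h1 := (resMap_eq_zero_iff Y _).mpr (show nrm1 O W n - 1 ∈ Y from hfY 4)
    rwa [map_sub, map_one, sub_eq_zero] at h1
  · have h1 := (resMap_eq_zero_iff Y _).mpr (show nrm2 O W n - 1 ∈ Y from hfY 5)
    rwa [map_sub, map_one, sub_eq_zero] at h1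

include hfY hs hsa in
theorem a45_mem (h6 : a 6 ∈ Y) : a 4 ∈ Y ∧ a 5 ∈ Y := by
  classical
  let w1 : RV m → MvPolynomial (RV m) O :=
    Sum.elim (Sum.elim (fun _ => 1) (fun _ => 0)) ![0, -1, 1, 2, 0]
  let D1 := mkDerivation O fun κ' => w1 κ' * X κ'
  have hDX1 : ∀ κ', D1 (X κ') = w1 κ' * X κ' := fun κ' => mkDerivation_X _ _ _
  let w2 : RV m → MvPolynomial (RV m) O :=
    Sum.elim (Sum.elim (fun _ => 0) (fun _ => 1)) ![0, 1, -1, 0, 2]
  let D2 := mkDerivation O fun κ' => w2 κ' * X κ'
  have hDX2 : ∀ κ', D2 (X κ') = w2 κ' * X κ' := fun κ' => mkDerivation_X _ _ _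
  obtain ⟨e0, e1, e2, e3, e4, e5⟩ := euler1 (π := π) (q := q) (c := c) (h := h) (g := g) (k := k)
    (q' := q') (c' := c') (h' := h') (W := W) D1 (fun i => hDX1 _) (fun i => hDX1 _)
    (by rw [eV, hDX1]; simp [w1]) (by rw [uV, hDX1]; simp [w1]) (by rw [vV, hDX1]; simp [w1])
    (by rw [sV, hDX1]; simp [w1]) (by rw [tV, hDX1]; simp [w1]) n κ
  obtain ⟨d0, d1, d2, d3, d4, d5⟩ := euler2 (π := π) (q := q) (c := c) (h := h) (g := g) (k := k)
    (q' := q') (c' := c') (h' := h') (W := W) D2 (fun i => hDX2 _) (fun i => hDX2 _)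
    (by rw [eV, hDX2]; simp [w2]) (by rw [uV, hDX2]; simp [w2]) (by rw [vV, hDX2]; simp [w2])
    (by rw [sV, hDX2]; simp [w2]) (by rw [tV, hDX2]; simp [w2]) n κ
  have r1 := (resMap_eq_zero_iff Y _).mpr (sum_derivation_mem n κ Y hfY hs a hsa D1)
  have r2 := (resMap_eq_zero_iff Y _).mpr (sum_derivation_mem n κ Y hfY hs a hsa D2)
  have z : ∀ i, resMap Y (ramEqs π q c h g k q' c' h' W n κ i) = 0 := fun i =>
    (resMap_eq_zero_iff Y _).mpr (hfY i)
  have z6 := (resMap_eq_zero_iff Y _).mpr h6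
  obtain ⟨n1, n2⟩ := resMap_nrm n κ Y hfY
  rw [sum_seven, e0, e1, e2, e3, e4, e5] at r1
  rw [sum_seven, d0, d1, d2, d3, d4, d5] at r2
  simp only [map_add, map_mul, z, z6, n1, n2, mul_zero, zero_mul, add_zero, zero_add,
    mul_one] at r1 r2
  rw [← resMap_eq_zero_iff Y, ← resMap_eq_zero_iff Y]
  rcases n with i | j | ⟨i, j⟩
  · have n2' : resMap Y (eV O m * uV O m) = 1 := n2
    simp only [map_neg, n2', map_zero, mul_zero, zero_add] at r1 r2
    refine ⟨?_, r2⟩
    rw [r2] at r1
    simpa using r1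
  · have n1' : resMap Y (eV O m * vV O m) = 1 := n1
    simp only [map_neg, n1', map_zero, mul_zero, add_zero] at r1 r2
    refine ⟨r1, ?_⟩
    rw [r1] at r2
    simpa using r2
  · simp only [map_zero, mul_zero, add_zero, zero_add] at r1 r2
    exact ⟨r1, r2⟩

omit [Y.IsPrime] in
/-- The image of the hat vector. -/
theorem resMap_ahat [hYp : Y.IsPrime] : (fun i => resMap Y (ahat O W i)) =
    hatv W (resMap Y (eV O m)) (fun i => resMap Y (aV O i)) := by
  funext i
  unfold ahat hatv
  split_ifs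
  · rfl
  · rw [map_mul]

omit [Y.IsPrime] in
/-- The image of the hat vector. -/
theorem resMap_bhat [hYp : Y.IsPrime] : (fun i => resMap Y (bhat O W i)) =
    hatv W (resMap Y (eV O m)) (fun i => resMap Y (bV O i)) := by
  funext i
  unfold bhat hatv
  split_ifs
  · rfl
  · rw [map_mul]

include hfY hs hsa in
/-- The remaining relation. -/
theorem rel_of_derivation (h4 : a 4 ∈ Y) (h5 : a 5 ∈ Y) (h6 : a 6 ∈ Y)
    (D : Derivation O (MvPolynomial (RV m) O) (MvPolynomial (RV m) O)) :
    resMap Y (a 0) * resMap Y (D (ramEqs π q c h g k q' c' h' W n κ 0)) +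
    resMap Y (a 1) * resMap Y (D (ramEqs π q c h g k q' c' h' W n κ 1)) +
    resMap Y (a 2) * resMap Y (D (ramEqs π q c h g k q' c' h' W n κ 2)) +
    resMap Y (a 3) * resMap Y (D (ramEqs π q c h g k q' c' h' W n κ 3)) = 0 := by
  have h1 := (resMap_eq_zero_iff Y _).mpr (sum_derivation_mem n κ Y hfY hs a hsa D)
  rw [← resMap_eq_zero_iff Y] at h4 h5 h6
  rw [sum_seven] at h1
  simpa only [map_add, map_mul, h4, h5, h6, zero_mul, add_zero] using h1

include hfY hs hsa in
theorem ramPt_of_dep (h4 : a 4 ∈ Y) (h5 : a 5 ∈ Y) (h6 : a 6 ∈ Y) :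
    RamPt ((resMap Y).comp C) c h g k q q' c' h' W π κ (fun i => resMap Y (aV O i))
      (fun i => resMap Y (bV O i)) (resMap Y (eV O m)) (resMap Y (uV O m)) (resMap Y (vV O m))
      (resMap Y (sV O m)) (resMap Y (tV O m)) (resMap Y (a 0)) (resMap Y (a 1)) (resMap Y (a 2))
      (resMap Y (a 3)) := by
  classical
  have z : ∀ i, resMap Y (ramEqs π q c h g k q' c' h' W n κ i) = 0 := fun i =>
    (resMap_eq_zero_iff Y _).mpr (hfY i)
  have hrel := rel_of_derivation n κ Y hfY hs a hsa h4 h5 h6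
  have hda : ∀ (a' : RV m) (i : Fin m), pderiv a' (aV O i) =
      if a' = Sum.inl (Sum.inl i) then 1 else 0 := by
    intro a' i
    rw [aV, pderiv_X]
    simp [Pi.single_apply, eq_comm]
  have hdb : ∀ (a' : RV m) (i : Fin m), pderiv a' (bV O i) =
      if a' = Sum.inl (Sum.inr i) then 1 else 0 := by
    intro a' i
    rw [bV, pderiv_X]
    simp [Pi.single_apply, eq_comm]
  have hdr : ∀ (a' : RV m) (b : Fin 5), pderiv a' (X (Sum.inr b) : MvPolynomial (RV m) O) =
      if a' = Sum.inr b then 1 else 0 := by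
    intro a' b
    rw [pderiv_X]
    simp [Pi.single_apply, eq_comm]
  have hz0 : (fun i => if i ∈ W then (0 : Fin m → MvPolynomial (RV m) O) i else
      eV O m * (0 : Fin m → MvPolynomial (RV m) O) i) = 0 := by
    funext i
    simp
  have hz1 : ∀ l, (fun i => if i ∈ W then (Pi.single l 1 : Fin m → MvPolynomial (RV m) O) i else
      eV O m * (Pi.single l 1 : Fin m → MvPolynomial (RV m) O) i) =
        Pi.single l (if l ∈ W then 1 else eV O m) := by
    intro l
    funext i
    by_cases hil : i = l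
    · subst hil
      simp
    · simp [Pi.single_eq_of_ne hil]
  have hsum : ∀ (A : Matrix (Fin m) (Fin m) O) (l : Fin m) (x : Fin m → MvPolynomial (RV m) O),
      ∑ j, ((resMap Y).comp C) ((A + Aᵀ) l j) * resMap Y (x j) =
        ∑ j, resMap Y (C (A l j)) * resMap Y (x j) + ∑ j, resMap Y (C (A j l)) * resMap Y (x j) := by
    intro A l x
    rw [← Finset.sum_add_distrib]
    refine Finset.sum_congr rfl fun j _ => ?_
    rw [Matrix.add_apply, Matrix.transpose_apply, map_add, add_mul]
    rfl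
  have hat1 : ∀ i, resMap Y (ahat O W i) =
      hatv W (resMap Y (eV O m)) (fun i => resMap Y (aV O i)) i := congrFun (resMap_ahat Y)
  have hat2 : ∀ i, resMap Y (bhat O W i) =
      hatv W (resMap Y (eV O m)) (fun i => resMap Y (bV O i)) i := congrFun (resMap_bhat Y)
  refine ⟨?_, ?_, ?_, ?_, ?_, ?_, ?_, ?_, ?_, ?_, ?_⟩
  · have h1 := z 0
    change resMap Y (eV O m ^ 2 * (uV O m * vV O m) - C π) = 0 at h1
    rw [map_sub, sub_eq_zero, map_mul, map_mul, map_pow] at h1
    exact h1
  · have h1 := z 1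
    change resMap Y (bl C h (aV O) (aV O) - eV O m * sV O m) = 0 at h1
    rw [map_sub, sub_eq_zero, map_mul, map_bl] at h1
    exact h1
  · have h1 := z 2
    change resMap Y (bl C h' (bV O) (bV O) - eV O m * tV O m) = 0 at h1
    rw [map_sub, sub_eq_zero, map_mul, map_bl] at h1
    exact h1
  · obtain ⟨n1, n2⟩ := resMap_nrm n κ Y hfY
    rw [← resMap_ahat, ← resMap_bhat, ← map_mul, ← map_mul]
    rcases n with i | j | ⟨i, j⟩
    · exact Or.inl ⟨⟨i, n1⟩, n2⟩
    · exact Or.inr (Or.inl ⟨n1, j, n2⟩)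
    · exact Or.inr (Or.inr ⟨⟨i, n1⟩, j, n2⟩)
  · have h1 := z 6
    change resMap Y (X κ - 1) = 0 at h1
    rw [map_sub, map_one, sub_eq_zero] at h1
    rw [← h1]
    rcases κ with (l | l) | b
    · rfl
    · rfl
    · fin_cases b <;> rfl
  · -- the derivative with respect to `s`
    obtain ⟨d0, d1, d2, d3⟩ := derivation_ramEqs (π := π) (q := q) (c := c) (h := h) (g := g)
      (k := k) (q' := q') (c' := c') (h' := h') (W := W) (pderiv (Sum.inr 3)) 0 0 0 0 1 0
      (fun i => by simp [hda]) (fun i => by simp [hdb]) (by simp [eV, hdr]) (by simp [uV, hdr])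
      (by simp [vV, hdr]) (by simp [sV, hdr]) (by simp [tV, hdr]) n κ
    have h1 := hrel (pderiv (Sum.inr 3))
    rw [d0, d1, d2, d3, hz0] at h1
    simp only [bl_zero_left, bl_zero_right, map_add, map_sub, map_mul, map_pow, map_zero, map_one,
      mul_zero, zero_mul, add_zero, zero_add, mul_one, one_mul, sub_zero, zero_sub, map_neg, map_bl,
      resMap_ahat, resMap_bhat] at h1
    linear_combination -h1
  · -- the derivative with respect to `t`
    obtain ⟨d0, d1, d2, d3⟩ := derivation_ramEqs (π := π) (q := q) (c := c) (h := h) (g := g)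
      (k := k) (q' := q') (c' := c') (h' := h') (W := W) (pderiv (Sum.inr 4)) 0 0 0 0 0 1
      (fun i => by simp [hda]) (fun i => by simp [hdb]) (by simp [eV, hdr]) (by simp [uV, hdr])
      (by simp [vV, hdr]) (by simp [sV, hdr]) (by simp [tV, hdr]) n κ
    have h1 := hrel (pderiv (Sum.inr 4))
    rw [d0, d1, d2, d3, hz0] at h1
    simp only [bl_zero_left, bl_zero_right, map_add, map_sub, map_mul, map_pow, map_zero, map_one,
      mul_zero, zero_mul, add_zero, zero_add, mul_one, one_mul, sub_zero, zero_sub, map_neg, map_bl,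
      resMap_ahat, resMap_bhat] at h1
    linear_combination -h1
  · -- the derivative with respect to `u`
    obtain ⟨d0, d1, d2, d3⟩ := derivation_ramEqs (π := π) (q := q) (c := c) (h := h) (g := g)
      (k := k) (q' := q') (c' := c') (h' := h') (W := W) (pderiv (Sum.inr 1)) 0 0 1 0 0 0
      (fun i => by simp [hda]) (fun i => by simp [hdb]) (by simp [eV, hdr]) (by simp [uV, hdr])
      (by simp [vV, hdr]) (by simp [sV, hdr]) (by simp [tV, hdr]) n κ
    have h1 := hrel (pderiv (Sum.inr 1))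
    rw [d0, d1, d2, d3, hz0] at h1
    simp only [bl_zero_left, bl_zero_right, map_add, map_sub, map_mul, map_pow, map_zero, map_one,
      mul_zero, zero_mul, add_zero, zero_add, mul_one, one_mul, sub_zero, zero_sub, map_neg, map_bl,
      resMap_ahat, resMap_bhat] at h1
    linear_combination h1
  · -- the derivative with respect to `v`
    obtain ⟨d0, d1, d2, d3⟩ := derivation_ramEqs (π := π) (q := q) (c := c) (h := h) (g := g)
      (k := k) (q' := q') (c' := c') (h' := h') (W := W) (pderiv (Sum.inr 2)) 0 0 0 1 0 0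
      (fun i => by simp [hda]) (fun i => by simp [hdb]) (by simp [eV, hdr]) (by simp [uV, hdr])
      (by simp [vV, hdr]) (by simp [sV, hdr]) (by simp [tV, hdr]) n κ
    have h1 := hrel (pderiv (Sum.inr 2))
    rw [d0, d1, d2, d3, hz0] at h1
    simp only [bl_zero_left, bl_zero_right, map_add, map_sub, map_mul, map_pow, map_zero, map_one,
      mul_zero, zero_mul, add_zero, zero_add, mul_one, one_mul, sub_zero, zero_sub, map_neg, map_bl,
      resMap_ahat, resMap_bhat] at h1
    linear_combination h1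
  · -- the derivative with respect to `a l`
    intro l
    obtain ⟨w, hw⟩ : ∃ w, w = if l ∈ W then (1 : MvPolynomial (RV m) O) else eV O m := ⟨_, rfl⟩
    have hw' : resMap Y w = if l ∈ W then 1 else resMap Y (eV O m) := by
      rw [hw, apply_ite (resMap Y), map_one]
    obtain ⟨d0, d1, d2, d3⟩ := derivation_ramEqs (π := π) (q := q) (c := c) (h := h) (g := g)
      (k := k) (q' := q') (c' := c') (h' := h') (W := W) (pderiv (Sum.inl (Sum.inl l))) (Pi.single l 1) 0
      0 0 0 0 (fun i => by simp [hda, Pi.single_apply, eq_comm])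
      (fun i => by simp [hdb, Pi.single_apply, eq_comm])
      (by simp [eV, hdr]) (by simp [uV, hdr]) (by simp [vV, hdr]) (by simp [sV, hdr])
      (by simp [tV, hdr]) n κ
    have h1 := hrel (pderiv (Sum.inl (Sum.inl l)))
    rw [d0, d1, d2, d3, hz0, hz1, ← hw] at h1
    simp only [bl_zero_left, bl_zero_right, bl_single_left, bl_single_right, map_add, map_sub,
      map_mul, map_pow, map_zero, map_one, map_sum, hat1, hat2, hw',
      mul_zero, zero_mul, add_zero, zero_add, mul_one, one_mul, sub_zero] at h1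
    simp only [hsum]
    exact h1
  · -- the derivative with respect to `b l`
    intro l
    obtain ⟨w, hw⟩ : ∃ w, w = if l ∈ W then (1 : MvPolynomial (RV m) O) else eV O m := ⟨_, rfl⟩
    have hw' : resMap Y w = if l ∈ W then 1 else resMap Y (eV O m) := by
      rw [hw, apply_ite (resMap Y), map_one]
    obtain ⟨d0, d1, d2, d3⟩ := derivation_ramEqs (π := π) (q := q) (c := c) (h := h) (g := g)
      (k := k) (q' := q') (c' := c') (h' := h') (W := W) (pderiv (Sum.inl (Sum.inr l))) 0 (Pi.single l 1)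
      0 0 0 0 (fun i => by simp [hda, Pi.single_apply, eq_comm])
      (fun i => by simp [hdb, Pi.single_apply, eq_comm])
      (by simp [eV, hdr]) (by simp [uV, hdr]) (by simp [vV, hdr]) (by simp [sV, hdr])
      (by simp [tV, hdr]) n κ
    have h1 := hrel (pderiv (Sum.inl (Sum.inr l)))
    rw [d0, d1, d2, d3, hz0, hz1, ← hw] at h1
    simp only [bl_zero_left, bl_zero_right, bl_single_left, bl_single_right, map_add, map_sub,
      map_mul, map_pow, map_zero, map_one, map_sum, hat1, hat2, hw',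
      mul_zero, zero_mul, add_zero, zero_add, mul_one, one_mul, sub_zero] at h1
    simp only [hsum]
    change _ * _ + _ * (_ + ∑ j, resMap Y (C (g j l)) * resMap Y (aV O j) + _ * (_ *
      ∑ j, resMap Y (C (k j l)) * _)) = 0
    linear_combination h1

end Dep

section Main

variable {O : Type} [CommRing O] [IsDomain O] [IsDiscreteValuationRing O] {m : ℕ} {π : O}
  {q c h g k q' c' h' : Matrix (Fin m) (Fin m) O} {W : Finset (Fin m)}

/-- The equations of a chart are independent at every prime ideal. -/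
theorem ram_indep (hπ : Irreducible π) (H : RamForm π q c h g k q' c' h' W) (n : Nrm m) {κ : RV m}
    (hκ : IsExc W κ) (Y : Ideal (MvPolynomial (RV m) O)) [hYp : Y.IsPrime]
    (hfY : ∀ i, ramEqs π q c h g k q' c' h' W n κ i ∈ Y)
    {s : MvPolynomial (RV m) O} (hs : s ∉ Y) (a : Fin 7 → MvPolynomial (RV m) O)
    (hsa : s * ∑ i, a i * ramEqs π q c h g k q' c' h' W n κ i ∈ Y ^ 2) : ∀ i, a i ∈ Y := by
  have h6 := a6_mem n κ Y hfY hs a hsa H hκ
  obtain ⟨h4, h5⟩ := a45_mem n κ Y hfY hs a hsa h6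
  have R := ramPt_of_dep n κ Y hfY hs a hsa h4 h5 h6
  have e3 := ram_core3 _ H hπ hκ R
  have h3 := (resMap_eq_zero_iff Y _).mp e3
  have h1 := (resMap_eq_zero_iff Y _).mp (ram_core1 _ H hπ R e3)
  have h2 := (resMap_eq_zero_iff Y _).mp (ram_core2 _ H hπ R e3)
  have h0 : a 0 ∈ Y := by
    by_contra h0
    have h0' : resMap Y (a 0) ≠ 0 := fun h => h0 ((resMap_eq_zero_iff Y _).mp h)
    have r1 := R.Du
    have r2 := R.Dv
    rw [e3, zero_mul, add_zero] at r1 r2
    have hev : eV O m * (uV O m * (eV O m * vV O m)) ∈ Y ^ 2 := by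
      by_cases he : eV O m ∈ Y
      · have h5 : eV O m * (uV O m * (eV O m * vV O m)) =
            (uV O m * vV O m) * (eV O m * eV O m) := by ring
        rw [h5, pow_two]
        exact Ideal.mul_mem_left _ _ (Ideal.mul_mem_mul he he)
      · have he' : resMap Y (eV O m) ≠ 0 := fun h => he ((resMap_eq_zero_iff Y _).mp h)
        have hv : vV O m ∈ Y := by
          rw [← resMap_eq_zero_iff]
          exact (mul_eq_zero.mp ((mul_eq_zero.mp r1).resolve_left h0')).resolve_left
            (pow_ne_zero 2 he')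
        have hu : uV O m ∈ Y := by
          rw [← resMap_eq_zero_iff]
          exact (mul_eq_zero.mp ((mul_eq_zero.mp r2).resolve_left h0')).resolve_left
            (pow_ne_zero 2 he')
        have h5 : eV O m * (uV O m * (eV O m * vV O m)) =
            (eV O m * eV O m) * (uV O m * vV O m) := by ring
        rw [h5, pow_two]
        exact Ideal.mul_mem_left _ _ (Ideal.mul_mem_mul hu hv)
    have hπY : C π ∈ Y := by
      have h5 : C π = eV O m * (uV O m * (eV O m * vV O m)) -
          ramEqs π q c h g k q' c' h' W n κ 0 := by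
        change _ = _ - (eV O m ^ 2 * (uV O m * vV O m) - C π)
        ring
      rw [h5]
      exact Y.sub_mem (Ideal.pow_le_self two_ne_zero hev) (hfY 0)
    have hs0 : s * a 0 ∉ Y := fun h5 => (hYp.mem_or_mem h5).elim hs h0
    apply mul_C_notMem_sq hπ Y hπY hs0
    have hmem : ∀ i, a i ∈ Y → s * (a i * ramEqs π q c h g k q' c' h' W n κ i) ∈ Y ^ 2 := by
      intro i hi
      rw [pow_two]
      exact Ideal.mul_mem_left _ _ (Ideal.mul_mem_mul hi (hfY i))
    have h7 : s * a 0 * C π = s * a 0 * (eV O m * (uV O m * (eV O m * vV O m))) -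
        (s * ∑ i, a i * ramEqs π q c h g k q' c' h' W n κ i -
        s * (a 1 * ramEqs π q c h g k q' c' h' W n κ 1) -
        s * (a 2 * ramEqs π q c h g k q' c' h' W n κ 2) -
        s * (a 3 * ramEqs π q c h g k q' c' h' W n κ 3) -
        s * (a 4 * ramEqs π q c h g k q' c' h' W n κ 4) -
        s * (a 5 * ramEqs π q c h g k q' c' h' W n κ 5) -
        s * (a 6 * ramEqs π q c h g k q' c' h' W n κ 6)) := by
      rw [sum_seven]
      have h8 : ramEqs π q c h g k q' c' h' W n κ 0 =
        eV O m * (uV O m * (eV O m * vV O m)) - C π := by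
        change (eV O m ^ 2 * (uV O m * vV O m) - C π) = _
        ring
      rw [h8]
      ring
    rw [h7]
    refine Ideal.sub_mem _ (Ideal.mul_mem_left _ _ hev) (Ideal.sub_mem _ (Ideal.sub_mem _
      (Ideal.sub_mem _ (Ideal.sub_mem _ (Ideal.sub_mem _ (Ideal.sub_mem _ hsa (hmem 1 h1))
      (hmem 2 h2)) (hmem 3 h3)) (hmem 4 h4)) (hmem 5 h5)) (hmem 6 h6))
  intro i
  fin_cases i
  · exact h0
  · exact h1
  · exact h2
  · exact h3
  · exact h4
  · exact h5
  · exact h6

end Main

end Pool.Agent.Lib.MP_6a3dac_ag
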