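import Pool.Agent.Lib.MP_6a3dac_ag.RamForm

/-!
# Linear algebra for the local models of quaternionic quadrics at ramified primes
-/

set_option autoImplicit false

namespace Pool.Agent.Lib.MP_6a3dac_ag

open MvPolynomial IsLocalRing Matrix

section Lin

variable {O : Type} [CommRing O] [IsDomain O] [IsDiscreteValuationRing O] {m : ℕ} {π : O}
  {q c h g k q' c' h' : Matrix (Fin m) (Fin m) O} {W : Finset (Fin m)}
  {κ : Type} [Field κ] (φ : O →+* κ)

omit [IsDomain O] [IsDiscreteValuationRing O] in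
theorem bl_self_eq_qf (A : Matrix (Fin m) (Fin m) O) (v : Fin m → κ) :
    bl φ A v v = qf (A.map φ) v := by
  rw [qf_eq_sum]
  rfl

/-- Vanishing of a singular vector supported on `W`. -/
theorem eq_zero_of_supp (hφ : ∀ x ∈ maximalIdeal O, φ x = 0)
    (q_zero : ∀ i j, (i ∈ W ∨ j ∈ W) → q i j = 0) (c_zero : ∀ i j, (i ∈ W ∨ j ∉ W) → c i j = 0)
    (h_zero : ∀ i j, (i ∉ W ∨ j ∉ W) → h i j = 0)
    (radh : ∀ v : Fin m → κ, (h.map φ + (h.map φ)ᵀ) *ᵥ v = 0 → qf (h.map φ) v = 0 →
      ∀ l, l ∈ W → v l = 0)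
    (v : Fin m → κ) (hv : ∀ l, l ∉ W → v l = 0)
    (h1 : ∀ i ∈ W, ∑ j, φ (((q + c + h) + (q + c + h)ᵀ) i j) * v j = 0)
    (h2 : bl φ (q + c + h) v v = 0) : v = 0 := by
  have h3 : (h.map φ + (h.map φ)ᵀ) *ᵥ v = 0 := by
    ext i
    rw [mulVec, dotProduct, Pi.zero_apply]
    by_cases hi : i ∈ W
    · rw [← h1 i hi]
      refine Finset.sum_congr rfl fun j _ => ?_
      by_cases hj : j ∈ W
      · simp only [Matrix.add_apply, Matrix.map_apply, Matrix.transpose_apply,
          q_zero i j (Or.inl hi), q_zero j i (Or.inl hj), c_zero i j (Or.inl hi),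
          c_zero j i (Or.inl hj), zero_add, map_add]
      · rw [hv j hj, mul_zero, mul_zero]
    · refine Finset.sum_eq_zero fun j _ => ?_
      simp only [Matrix.add_apply, Matrix.map_apply, Matrix.transpose_apply,
        h_zero i j (Or.inl hi), h_zero j i (Or.inr hi), map_zero, add_zero, zero_mul]
  have h4 : qf (h.map φ) v = 0 := by
    rw [← bl_self_eq_qf, ← h2]
    refine Finset.sum_congr rfl fun i _ => Finset.sum_congr rfl fun j _ => ?_
    by_cases hi : i ∈ W
    · simp only [Matrix.add_apply, q_zero i j (Or.inl hi), c_zero i j (Or.inl hi), zero_add]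
    · rw [hv i hi]; ring
  ext l
  by_cases hl : l ∈ W
  · exact radh v h3 h4 l hl
  · exact hv l hl

variable (H : RamForm π q c h g k q' c' h' W) (hπ : Irreducible π)
  (α β : Fin m → κ) (u v r : κ)
  (h1 : u * v = φ π)
  (h2 : ∀ i, u * ∑ j, φ (((q + c + h) + (q + c + h)ᵀ) i j) * α j +
    ∑ j, φ ((g + π • k) i j) * β j = 0)
  (h3 : ∀ i, ∑ j, φ ((g + π • k) j i) * α j +
    v * ∑ j, φ (((q' + c' + h') + (q' + c' + h')ᵀ) i j) * β j = 0)
  (h4 : bl φ (q + c + h) α α = r * v) (h5 : bl φ (q' + c' + h') β β = r * u)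

include hπ in
theorem injective_of_ne (hφ : φ π ≠ 0) : Function.Injective φ := by
  rw [RingHom.injective_iff_ker_eq_bot]
  by_contra hne
  have hp : (RingHom.ker φ).IsPrime := RingHom.ker_isPrime φ
  have h1 := IsLocalRing.eq_maximalIdeal (hp.isMaximal hne)
  apply hφ
  have h2 : π ∈ RingHom.ker φ := by
    rw [h1, hπ.maximalIdeal_eq]
    exact Ideal.mem_span_singleton_self π
  exact h2

include H hπ h1 h2 h3 in
theorem ram_gen (hφ : φ π ≠ 0) : α = 0 ∧ β = 0 := by
  have hu : u ≠ 0 := fun h => hφ (by rw [← h1, h, zero_mul])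
  have hinj := injective_of_ne φ hπ hφ
  set M := Matrix.fromBlocks ((q + c + h) + (q + c + h)ᵀ) (g + π • k) (g + π • k)ᵀ
    (π • ((q' + c' + h') + (q' + c' + h')ᵀ)) with hM
  have hdet : IsUnit (M.map φ).det := by
    rw [← RingHom.mapMatrix_apply, ← RingHom.map_det, isUnit_iff_ne_zero, Ne,
      map_eq_zero_iff φ hinj]
    exact H.det_ne
  have hz : (M.map φ) *ᵥ (Sum.elim (fun i => u * α i) β) = 0 := by
    ext i
    rw [mulVec, dotProduct, Fintype.sum_sum_type, Pi.zero_apply]
    rcases i with i | i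
    · rw [← h2 i, Finset.mul_sum]
      congr 1
      refine Finset.sum_congr rfl fun j _ => ?_
      simp only [hM, Matrix.map_apply, Matrix.fromBlocks_apply₁₁, Sum.elim_inl]
      ring
    · have h6 : u * (∑ j, φ ((g + π • k) j i) * α j +
          v * ∑ j, φ (((q' + c' + h') + (q' + c' + h')ᵀ) i j) * β j) = 0 := by
        rw [h3, mul_zero]
      rw [← h6, mul_add, ← mul_assoc, h1, Finset.mul_sum, Finset.mul_sum]
      congr 1
      · refine Finset.sum_congr rfl fun j _ => ?_
        simp only [hM, Matrix.map_apply, Matrix.fromBlocks_apply₂₁, Sum.elim_inl,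
          Matrix.transpose_apply]
        ring
      · refine Finset.sum_congr rfl fun j _ => ?_
        simp only [hM, Matrix.map_apply, Matrix.fromBlocks_apply₂₂, Sum.elim_inr,
          Matrix.smul_apply, smul_eq_mul, map_mul]
        ring
  have h7 : Sum.elim (fun i => u * α i) β = (0 : Fin m ⊕ Fin m → κ) := by
    have h8 := congrArg (fun w => (M.map φ)⁻¹ *ᵥ w) hz
    simp only [mulVec_mulVec, Matrix.nonsing_inv_mul _ hdet, one_mulVec, mulVec_zero] at h8
    exact h8
  constructor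
  · ext i
    have := congrFun h7 (Sum.inl i)
    simp only [Sum.elim_inl, Pi.zero_apply, mul_eq_zero] at this
    exact this.resolve_left hu
  · ext i
    exact congrFun h7 (Sum.inr i)

include H h2 h3 h4 in
theorem ram_u (hφ : ∀ x ∈ maximalIdeal O, φ x = 0) (hπm : π ∈ maximalIdeal O)
    (hu : u ≠ 0) (hv : v = 0) : α = 0 := by
  have hπ0 : φ π = 0 := hφ π hπm
  have hG : ∀ i j, φ ((g + π • k) i j) = φ (g i j) := by
    intro i j
    rw [Matrix.add_apply, Matrix.smul_apply, smul_eq_mul, map_add, map_mul, hπ0, zero_mul, add_zero]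
  have hsupp : ∀ l, l ∉ W → α l = 0 := by
    refine H.radg' κ φ hφ α ?_
    ext i
    rw [mulVec, dotProduct, Pi.zero_apply, ← h3 i, hv, zero_mul, add_zero]
    refine Finset.sum_congr rfl fun j _ => ?_
    rw [hG]
    rfl
  refine eq_zero_of_supp φ hφ H.q_zero H.c_zero H.h_zero (H.radh κ φ hφ) α hsupp ?_ ?_
  · intro i hi
    have h6 := h2 i
    have h7 : ∑ j, φ ((g + π • k) i j) * β j = 0 := by
      refine Finset.sum_eq_zero fun j _ => ?_
      rw [hG, H.g_zero i j (Or.inl hi), map_zero, zero_mul]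
    rw [h7, add_zero] at h6
    exact (mul_eq_zero.mp h6).resolve_left hu
  · rw [h4, hv, mul_zero]

include H h2 h3 h5 in
theorem ram_v (hφ : ∀ x ∈ maximalIdeal O, φ x = 0) (hπm : π ∈ maximalIdeal O)
    (hu : u = 0) (hv : v ≠ 0) : β = 0 := by
  have hπ0 : φ π = 0 := hφ π hπm
  have hG : ∀ i j, φ ((g + π • k) i j) = φ (g i j) := by
    intro i j
    rw [Matrix.add_apply, Matrix.smul_apply, smul_eq_mul, map_add, map_mul, hπ0, zero_mul, add_zero]
  have hsupp : ∀ l, l ∉ W → β l = 0 := by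
    refine H.radg κ φ hφ β ?_
    ext i
    rw [mulVec, dotProduct, Pi.zero_apply, ← h2 i, hu, zero_mul, zero_add]
    refine Finset.sum_congr rfl fun j _ => ?_
    rw [hG]
    rfl
  refine eq_zero_of_supp φ hφ H.q_zero' H.c_zero' H.h_zero' (H.radh' κ φ hφ) β hsupp ?_ ?_
  · intro i hi
    have h6 := h3 i
    have h7 : ∑ j, φ ((g + π • k) j i) * α j = 0 := by
      refine Finset.sum_eq_zero fun j _ => ?_
      rw [hG, H.g_zero j i (Or.inr hi), map_zero, zero_mul]
    rw [h7, zero_add] at h6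
    exact (mul_eq_zero.mp h6).resolve_left hv
  · rw [h5, hu, mul_zero]

include H h2 h3 in
theorem ram_uv (hφ : ∀ x ∈ maximalIdeal O, φ x = 0) (hπm : π ∈ maximalIdeal O)
    (hu : u = 0) (hv : v = 0) : (∀ l, l ∉ W → α l = 0) ∧ (∀ l, l ∉ W → β l = 0) := by
  have hπ0 : φ π = 0 := hφ π hπm
  have hG : ∀ i j, φ ((g + π • k) i j) = φ (g i j) := by
    intro i j
    rw [Matrix.add_apply, Matrix.smul_apply, smul_eq_mul, map_add, map_mul, hπ0, zero_mul, add_zero]
  constructor
  · refine H.radg' κ φ hφ α ?_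
    ext i
    rw [mulVec, dotProduct, Pi.zero_apply, ← h3 i, hv, zero_mul, add_zero]
    refine Finset.sum_congr rfl fun j _ => ?_
    rw [hG]
    rfl
  · refine H.radg κ φ hφ β ?_
    ext i
    rw [mulVec, dotProduct, Pi.zero_apply, ← h2 i, hu, zero_mul, zero_add]
    refine Finset.sum_congr rfl fun j _ => ?_
    rw [hG]
    rfl

end Lin

end Pool.Agent.Lib.MP_6a3dac_ag
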