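import Pool.Agent.Lib.MP_6a3dac_ag.RamIndepB
import Pool.Agent.Lib.MP_6a3dac_ag.RamCover

/-!
# Substitutions for the charts of quaternionic quadrics at ramified primes
-/

set_option autoImplicit false

namespace Pool.Agent.Lib.MP_6a3dac_ag

open MvPolynomial IsLocalRing Matrix

section Hat

variable {O R : Type} [CommRing O] [CommRing R] {m : ℕ} (φ : O →+* R)
  {q c h g : Matrix (Fin m) (Fin m) O} {W : Finset (Fin m)}

open Classical in
/-- The value of the whole form on the hat vector. -/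
theorem bl_hat (q_zero : ∀ i j, (i ∈ W ∨ j ∈ W) → q i j = 0)
    (c_zero : ∀ i j, (i ∈ W ∨ j ∉ W) → c i j = 0)
    (h_zero : ∀ i j, (i ∉ W ∨ j ∉ W) → h i j = 0) (e : R) (α α' : Fin m → R)
    (hα : ∀ i, α' i = if i ∈ W then α i else e * α i) :
    bl φ (q + c + h) α' α' = e ^ 2 * bl φ q α α + e * bl φ c α α + bl φ h α α := by
  rw [bl_add, bl_add]
  congr 1
  · congr 1
    · rw [pow_two, ← bl_mul]
      refine bl_congr φ fun i j hij => ?_
      have hi : i ∉ W := fun hi => hij (q_zero i j (Or.inl hi))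
      have hj : j ∉ W := fun hj => hij (q_zero i j (Or.inr hj))
      exact ⟨by rw [hα, if_neg hi], by rw [hα, if_neg hj]⟩
    · have h1 := bl_mul φ c e 1 α α
      rw [mul_one] at h1
      rw [← h1]
      refine bl_congr φ fun i j hij => ?_
      have hi : i ∉ W := fun hi => hij (c_zero i j (Or.inl hi))
      have hj : j ∈ W := by
        by_contra hj
        exact hij (c_zero i j (Or.inr hj))
      exact ⟨by rw [hα, if_neg hi], by rw [one_mul, hα, if_pos hj]⟩
  · refine bl_congr φ fun i j hij => ?_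
    have hi : i ∈ W := by
      by_contra hi
      exact hij (h_zero i j (Or.inl hi))
    have hj : j ∈ W := by
      by_contra hj
      exact hij (h_zero i j (Or.inr hj))
    exact ⟨by rw [hα, if_pos hi], by rw [hα, if_pos hj]⟩

open Classical in
theorem bl_g_hat (g_zero : ∀ i j, (i ∈ W ∨ j ∈ W) → g i j = 0) (e : R) (α α' β β' : Fin m → R)
    (hα : ∀ i, α' i = if i ∈ W then α i else e * α i)
    (hβ : ∀ i, β' i = if i ∈ W then β i else e * β i) :
    bl φ g α' β' = e ^ 2 * bl φ g α β := by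
  rw [pow_two, ← bl_mul]
  refine bl_congr φ fun i j hij => ?_
  have hi : i ∉ W := fun hi => hij (g_zero i j (Or.inl hi))
  have hj : j ∉ W := fun hj => hij (g_zero i j (Or.inr hj))
  exact ⟨by rw [hα, if_neg hi], by rw [hβ, if_neg hj]⟩

open Classical in
theorem bl_h_hat (h_zero : ∀ i j, (i ∉ W ∨ j ∉ W) → h i j = 0) (e : R) (α α' : Fin m → R)
    (hα : ∀ i, α' i = if i ∈ W then α i else e * α i) :
    bl φ h α' α' = bl φ h α α := by
  refine bl_congr φ fun i j hij => ?_
  have hi : i ∈ W := by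
    by_contra hi
    exact hij (h_zero i j (Or.inl hi))
  have hj : j ∈ W := by
    by_contra hj
    exact hij (h_zero i j (Or.inr hj))
  exact ⟨by rw [hα, if_pos hi], by rw [hα, if_pos hj]⟩

end Hat

section Sub

variable {O : Type} [CommRing O] {m : ℕ} (π : O)
  (q c h g k q' c' h' : Matrix (Fin m) (Fin m) O) (W : Finset (Fin m))

/-- The coordinates. -/
noncomputable def xV (O : Type) [CommRing O] {m : ℕ} (i : Fin m) :
    MvPolynomial (Fin m ⊕ Fin m) O := X (Sum.inl i)
/-- The coordinates. -/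
noncomputable def yV (O : Type) [CommRing O] {m : ℕ} (i : Fin m) :
    MvPolynomial (Fin m ⊕ Fin m) O := X (Sum.inr i)

/-- The quadratic form. -/
noncomputable def ramQ : MvPolynomial (Fin m ⊕ Fin m) O :=
  bl C (q + c + h) (xV O) (xV O) + bl C (g + π • k) (xV O) (yV O) +
    C π * bl C (q' + c' + h') (yV O) (yV O)

/-- The substitution given by the affine coordinates. -/
noncomputable def mu : MvPolynomial (Fin m ⊕ Fin m) O →ₐ[O] MvPolynomial (RV m) O :=
  aeval (Sum.elim (fun i => eV O m * uV O m * ahat O W i) (fun i => bhat O W i))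

variable {π q c h g k q' c' h' W} (n : Nrm m) (κ : RV m)

theorem mu_x (i : Fin m) : mu (O := O) W (xV O i) = eV O m * uV O m * ahat O W i := by
  simp [mu, xV]

theorem mu_y (i : Fin m) : mu (O := O) W (yV O i) = bhat O W i := by
  simp [mu, yV]

theorem mu_C (r : O) : mu (m := m) W (C r) = C r := by
  simp [mu, algebraMap_eq]

variable {B : Type} [CommRing B] (ρ : MvPolynomial (RV m) O →+* B)
  (hρ : ∀ i, ρ (ramEqs π q c h g k q' c' h' W n κ i) = 0)

include hρ

theorem rho0 : ρ (eV O m) ^ 2 * (ρ (uV O m) * ρ (vV O m)) = ρ (C π) := by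
  have h1 := hρ 0
  change ρ (eV O m ^ 2 * (uV O m * vV O m) - C π) = 0 at h1
  rwa [map_sub, sub_eq_zero, map_mul, map_mul, map_pow] at h1

theorem rho1 : ρ (bl C h (aV O) (aV O)) = ρ (eV O m) * ρ (sV O m) := by
  have h1 := hρ 1
  change ρ (bl C h (aV O) (aV O) - eV O m * sV O m) = 0 at h1
  rwa [map_sub, sub_eq_zero, map_mul] at h1

theorem rho2 : ρ (bl C h' (bV O) (bV O)) = ρ (eV O m) * ρ (tV O m) := by
  have h1 := hρ 2
  change ρ (bl C h' (bV O) (bV O) - eV O m * tV O m) = 0 at h1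
  rwa [map_sub, sub_eq_zero, map_mul] at h1

theorem rho3 : ρ (ramF q c g k q' c' W) = 0 := hρ 3

theorem rho4 : ρ (nrm1 O W n) = 1 := by
  have h1 := hρ 4
  change ρ (nrm1 O W n - 1) = 0 at h1
  rwa [map_sub, sub_eq_zero, map_one] at h1

theorem rho5 : ρ (nrm2 O W n) = 1 := by
  have h1 := hρ 5
  change ρ (nrm2 O W n - 1) = 0 at h1
  rwa [map_sub, sub_eq_zero, map_one] at h1

theorem rho6 : ρ (X κ) = 1 := by
  have h1 := hρ 6
  change ρ (X κ - 1) = 0 at h1
  rwa [map_sub, sub_eq_zero, map_one] at h1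

omit hρ in
theorem mu_bl (A : Matrix (Fin m) (Fin m) O) (v w : Fin m → MvPolynomial (Fin m ⊕ Fin m) O) :
    mu W (bl C A v w) = bl C A (fun i => mu W (v i)) (fun i => mu W (w i)) := by
  have h1 := map_bl C (mu (O := O) (m := m) W).toRingHom A v w
  have h2 : (mu (O := O) (m := m) W).toRingHom.comp C = C := by
    ext r : 1
    exact mu_C r
  rw [h2] at h1
  exact h1

omit hρ in
/-- The image of the quadratic form. -/
theorem rho_mu_ramQ' [IsLocalRing O] (H : RamForm π q c h g k q' c' h' W)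
    (r0 : ρ (eV O m) ^ 2 * (ρ (uV O m) * ρ (vV O m)) = ρ (C π))
    (r1 : ρ (bl C h (aV O) (aV O)) = ρ (eV O m) * ρ (sV O m))
    (r2 : ρ (bl C h' (bV O) (bV O)) = ρ (eV O m) * ρ (tV O m)) :
    ρ (mu W (ramQ π q c h g k q' c' h')) =
      ρ (eV O m) ^ 3 * ρ (uV O m) * ρ (ramF q c g k q' c' W) := by
  classical
  have e1 : bl C (q + c + h) (ahat O W) (ahat O W) = eV O m ^ 2 * bl C q (aV O) (aV O) +
      eV O m * bl C c (aV O) (aV O) + bl C h (aV O) (aV O) :=
    bl_hat C H.q_zero H.c_zero H.h_zero (eV O m) (aV O) (ahat O W) fun i => rfl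
  have e2 : bl C (q' + c' + h') (bhat O W) (bhat O W) = eV O m ^ 2 * bl C q' (bV O) (bV O) +
      eV O m * bl C c' (bV O) (bV O) + bl C h' (bV O) (bV O) :=
    bl_hat C H.q_zero' H.c_zero' H.h_zero' (eV O m) (bV O) (bhat O W) fun i => rfl
  have e3 : bl C g (ahat O W) (bhat O W) = eV O m ^ 2 * bl C g (aV O) (bV O) :=
    bl_g_hat C H.g_zero (eV O m) (aV O) (ahat O W) (bV O) (bhat O W) (fun i => rfl) fun i => rfl
  have h1 : mu W (ramQ π q c h g k q' c' h') =
      (eV O m * uV O m) ^ 2 * (eV O m ^ 2 * bl C q (aV O) (aV O) +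
        eV O m * bl C c (aV O) (aV O) + bl C h (aV O) (aV O)) +
      (eV O m * uV O m) * (eV O m ^ 2 * bl C g (aV O) (bV O) +
        C π * bl C k (ahat O W) (bhat O W)) +
      C π * (eV O m ^ 2 * bl C q' (bV O) (bV O) +
        eV O m * bl C c' (bV O) (bV O) + bl C h' (bV O) (bV O)) := by
    rw [ramQ, map_add, map_add, map_mul, mu_C, mu_bl, mu_bl, mu_bl, ← e1, ← e2, ← e3]
    simp only [mu_x, mu_y]
    have e4 : bl C (g + π • k) (fun i => eV O m * uV O m * ahat O W i) (fun i => bhat O W i) =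
        (eV O m * uV O m) * bl C (g + π • k) (ahat O W) (bhat O W) := by
      have := bl_mul C (g + π • k) (eV O m * uV O m) 1 (ahat O W) (bhat O W)
      simp only [one_mul, mul_one] at this
      exact this
    rw [bl_mul, e4, bl_add (A := g), bl_smul]
    ring
  rw [h1, ramF]
  simp only [map_add, map_mul, map_pow]
  rw [r1, r2, ← r0]
  ring

/-- The quadratic form lies in the ideal of a chart. -/
theorem rho_mu_ramQ [IsLocalRing O] (H : RamForm π q c h g k q' c' h' W) :
    ρ (mu W (ramQ π q c h g k q' c' h')) = 0 := by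
  rw [rho_mu_ramQ' ρ H (rho0 n κ ρ hρ) (rho1 n κ ρ hρ) (rho2 n κ ρ hρ), rho3 n κ ρ hρ, mul_zero]

/-- The polynomial giving the first chart coordinate. -/
theorem exists_mu_eq_eu : ∃ P : MvPolynomial (Fin m ⊕ Fin m) O,
    ρ (mu W P) = ρ (eV O m) * ρ (uV O m) := by
  have h5 := rho5 n κ ρ hρ
  have h4 := rho4 n κ ρ hρ
  have h0 := rho0 n κ ρ hρ
  rcases n with i | j | ⟨i, j⟩
  · refine ⟨xV O i, ?_⟩
    change ρ (ahat O W i) = 1 at h4
    rw [mu_x, map_mul, h4, mul_one, map_mul]
  · refine ⟨C π, ?_⟩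
    change ρ (eV O m * vV O m) = 1 at h4
    rw [map_mul] at h4
    rw [mu_C, ← h0]
    linear_combination (ρ (eV O m) * ρ (uV O m)) * h4
  · refine ⟨xV O i, ?_⟩
    change ρ (ahat O W i) = 1 at h4
    rw [mu_x, map_mul, h4, mul_one, map_mul]

/-- The variable giving the second chart coordinate. -/
theorem exists_mu_eq_one : ∃ v : Fin m ⊕ Fin m, ρ (mu W (X v)) = 1 := by
  have h5 := rho5 n κ ρ hρ
  have h4 := rho4 n κ ρ hρ
  rcases n with i | j | ⟨i, j⟩
  · refine ⟨Sum.inl i, ?_⟩
    change ρ (ahat O W i) = 1 at h4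
    change ρ (eV O m * uV O m) = 1 at h5
    change ρ (mu W (xV O i)) = 1
    rw [mu_x, map_mul, h4, mul_one, h5]
  · refine ⟨Sum.inr j, ?_⟩
    change ρ (bhat O W j) = 1 at h5
    change ρ (mu W (yV O j)) = 1
    rw [mu_y, h5]
  · refine ⟨Sum.inr j, ?_⟩
    change ρ (bhat O W j) = 1 at h5
    change ρ (mu W (yV O j)) = 1
    rw [mu_y, h5]

omit hρ in
theorem ahat_notMem {i : Fin m} (hi : i ∉ W) : ahat O W i = eV O m * aV O i := if_neg hi
omit hρ in
theorem bhat_notMem {i : Fin m} (hi : i ∉ W) : bhat O W i = eV O m * bV O i := if_neg hi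
omit hρ in
theorem ahat_mem {i : Fin m} (hi : i ∈ W) : ahat O W i = aV O i := if_pos hi
omit hρ in
theorem bhat_mem {i : Fin m} (hi : i ∈ W) : bhat O W i = bV O i := if_pos hi

omit hρ in
theorem mu_hx (h_zero : ∀ i j, (i ∉ W ∨ j ∉ W) → h i j = 0) :
    mu W (bl C h (xV O) (xV O)) = (eV O m * uV O m) ^ 2 * bl C h (aV O) (aV O) := by
  classical
  have h2 := bl_h_hat C h_zero (eV O m) (aV O) (ahat O W) fun i => rfl
  rw [mu_bl]
  simp only [mu_x]
  rw [bl_mul, h2]
  ring

omit hρ in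
theorem mu_hy (h_zero : ∀ i j, (i ∉ W ∨ j ∉ W) → h' i j = 0) :
    mu W (bl C h' (yV O) (yV O)) = bl C h' (bV O) (bV O) := by
  classical
  have h2 := bl_h_hat C h_zero (eV O m) (bV O) (bhat O W) fun i => rfl
  rw [mu_bl]
  simp only [mu_y]
  exact h2

/-- The polynomial giving the exceptional coordinate. -/
theorem exists_mu_eq_e [IsLocalRing O] (H : RamForm π q c h g k q' c' h' W) (hκ : IsExc W κ) :
    ∃ P : MvPolynomial (Fin m ⊕ Fin m) O,
    ρ (mu W P) = (ρ (eV O m) * ρ (uV O m)) ^ 2 * ρ (eV O m) := by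
  obtain ⟨S, hS⟩ := exists_mu_eq_eu n κ ρ hρ
  have h0 := rho0 n κ ρ hρ
  have h1 := rho1 n κ ρ hρ
  have h2 := rho2 n κ ρ hρ
  have h6 := rho6 n κ ρ hρ
  rcases κ with (l | l) | a
  · have hl : l ∉ W := hκ
    change ρ (aV O l) = 1 at h6
    refine ⟨S * xV O l, ?_⟩
    rw [map_mul, map_mul, hS, mu_x, ahat_notMem hl, map_mul, map_mul, map_mul, h6]
    ring
  · have hl : l ∉ W := hκ
    change ρ (bV O l) = 1 at h6
    refine ⟨S ^ 2 * yV O l, ?_⟩
    rw [map_mul, map_mul, map_pow, map_pow, hS, mu_y, bhat_notMem hl, map_mul, h6]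
    ring
  · fin_cases a
    · exact absurd hκ (by simp [IsExc])
    · change ρ (uV O m) = 1 at h6
      refine ⟨S ^ 3, ?_⟩
      rw [map_pow, map_pow, hS, h6]
      ring
    · change ρ (vV O m) = 1 at h6
      refine ⟨S * C π, ?_⟩
      rw [map_mul, map_mul, hS, mu_C, ← h0, h6]
      ring
    · change ρ (sV O m) = 1 at h6
      refine ⟨bl C h (xV O) (xV O), ?_⟩
      rw [mu_hx H.h_zero, map_mul, h1, h6, map_pow, map_mul]
      ring
    · change ρ (tV O m) = 1 at h6
      refine ⟨S ^ 2 * bl C h' (yV O) (yV O), ?_⟩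
      rw [map_mul, map_mul, map_pow, map_pow, hS, mu_hy H.h_zero', h2, h6]
      ring

/-- Every polynomial becomes a polynomial in the affine coordinates after multiplication with the
chart coordinates. -/
theorem exists_mu_eq [IsLocalRing O] (H : RamForm π q c h g k q' c' h' W) (hκ : IsExc W κ)
    (G : MvPolynomial (RV m) O) :
    ∃ (a b : ℕ) (P : MvPolynomial (Fin m ⊕ Fin m) O),
    ρ ((eV O m * uV O m) ^ a * eV O m ^ b * G) = ρ (mu W P) := by
  classical
  obtain ⟨S, hS⟩ := exists_mu_eq_eu n κ ρ hρ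
  obtain ⟨E, hE⟩ := exists_mu_eq_e n κ ρ hρ H hκ
  have h0 := rho0 n κ ρ hρ
  have h1 := rho1 n κ ρ hρ
  have h2 := rho2 n κ ρ hρ
  have key : ∃ (a b : ℕ) (P : MvPolynomial (Fin m ⊕ Fin m) O),
      (ρ (eV O m) * ρ (uV O m)) ^ a * ((ρ (eV O m) * ρ (uV O m)) ^ 2 * ρ (eV O m)) ^ b * ρ G =
        ρ (mu W P) := by
    induction G using MvPolynomial.induction_on with
    | C r => exact ⟨0, 0, C r, by rw [mu_C]; ring⟩
    | add G G' hG hG' =>
      obtain ⟨a, b, P, hP⟩ := hG
      obtain ⟨a', b', P', hP'⟩ := hG'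
      refine ⟨a + a', b + b', S ^ a' * E ^ b' * P + S ^ a * E ^ b * P', ?_⟩
      simp only [map_add, map_mul, map_pow, hS, hE, ← hP, ← hP', pow_add]
      ring
    | mul_X G v hG =>
      obtain ⟨a, b, P, hP⟩ := hG
      have hv : ∃ (a b : ℕ) (P : MvPolynomial (Fin m ⊕ Fin m) O),
          (ρ (eV O m) * ρ (uV O m)) ^ a * ((ρ (eV O m) * ρ (uV O m)) ^ 2 * ρ (eV O m)) ^ b *
            ρ (X v) = ρ (mu W P) := by
        rcases v with (i | i) | r
        · by_cases hi : i ∈ W
          · refine ⟨1, 0, xV O i, ?_⟩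
            rw [mu_x, ahat_mem hi, map_mul, map_mul]
            change _ * ρ (aV O i) = _
            ring
          · refine ⟨0, 1, S * xV O i, ?_⟩
            rw [map_mul, map_mul, hS, mu_x, ahat_notMem hi, map_mul, map_mul, map_mul]
            change _ * ρ (aV O i) = _
            ring
        · by_cases hi : i ∈ W
          · refine ⟨0, 0, yV O i, ?_⟩
            rw [mu_y, bhat_mem hi]
            change _ * ρ (bV O i) = _
            ring
          · refine ⟨0, 1, S ^ 2 * yV O i, ?_⟩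
            rw [map_mul, map_mul, map_pow, map_pow, hS, mu_y, bhat_notMem hi, map_mul]
            change _ * ρ (bV O i) = _
            ring
        · fin_cases r
          · refine ⟨2, 0, E, ?_⟩
            rw [hE]
            change _ * ρ (eV O m) = _
            ring
          · refine ⟨0, 1, S ^ 3, ?_⟩
            rw [map_pow, map_pow, hS]
            change _ * ρ (uV O m) = _
            ring
          · refine ⟨0, 1, S * C π, ?_⟩
            rw [map_mul, map_mul, hS, mu_C, ← h0]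
            change _ * ρ (vV O m) = _
            ring
          · refine ⟨0, 1, bl C h (xV O) (xV O), ?_⟩
            rw [mu_hx H.h_zero, map_mul, h1, map_pow, map_mul]
            change _ * ρ (sV O m) = _
            ring
          · refine ⟨0, 1, S ^ 2 * bl C h' (yV O) (yV O), ?_⟩
            rw [map_mul, map_mul, map_pow, map_pow, hS, mu_hy H.h_zero', h2]
            change _ * ρ (tV O m) = _
            ring
      obtain ⟨a', b', P', hP'⟩ := hv
      refine ⟨a + a', b + b', P * P', ?_⟩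
      rw [map_mul, map_mul, map_mul, ← hP, ← hP']
      ring
  obtain ⟨a, b, P, hP⟩ := key
  refine ⟨a + 2 * b, b, P, ?_⟩
  rw [← hP]
  simp only [map_mul, map_pow]
  ring

end Sub

end Pool.Agent.Lib.MP_6a3dac_ag
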