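import Pool.Agent.Lib.MP_6a3dac_ag.SplitRel

/-!
# The charts of the blow-up of a split quadric
-/

set_option autoImplicit false

namespace Pool.Agent.Lib.MP_6a3dac_ag

open MvPolynomial IsLocalRing Matrix

section Smul

variable {O L : Type} [CommRing O] [CommRing L] {n : ℕ}

theorem eval₂Hom_mul_of_isHomogeneous (φ : O →+* L) (v : L) (w : Fin n → L)
    {p : MvPolynomial (Fin n) O} {k : ℕ} (hp : p.IsHomogeneous k) :
    eval₂Hom φ (fun i => v * w i) p = v ^ k * eval₂Hom φ w p := by
  rw [coe_eval₂Hom, coe_eval₂Hom, eval₂_eq, eval₂_eq, Finset.mul_sum]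
  refine Finset.sum_congr rfl fun d hd => ?_
  have hdk : ∑ i ∈ d.support, d i = k := by
    have := hp (mem_support_iff.mp hd)
    rw [← this, Finsupp.weight_apply, Finsupp.sum]
    simp
  simp_rw [mul_pow]
  rw [Finset.prod_mul_distrib, Finset.prod_pow_eq_pow_sum, hdk]
  ring

end Smul

section Maps

variable {O L : Type} [CommRing O] [CommRing L] {n : ℕ} (lam : MvPolynomial (Fin n) O →+* L)
  (v e : Lˣ) (π : O) (h : Matrix (Fin n) (Fin n) O) (W : Finset (Fin n))

/-- The map to the local ring given by the affine coordinates `X_i / X_j`. -/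
noncomputable def mapZero : MvPolynomial (Fin n) O →+* L :=
  eval₂Hom (lam.comp C) fun i => lam (X i) * ↑(v⁻¹)

theorem mapZero_C (r : O) : mapZero lam v (C r) = lam (C r) := by
  simp [mapZero]

theorem mapZero_X (i : Fin n) : mapZero lam v (X i) = lam (X i) * ↑(v⁻¹) := by
  simp [mapZero]

theorem lam_eq_of_isHomogeneous {p : MvPolynomial (Fin n) O} {k : ℕ} (hp : p.IsHomogeneous k) :
    lam p = (v : L) ^ k * mapZero lam v p := by
  have h1 : lam p = eval₂Hom (lam.comp C) (fun i => (v : L) * (lam (X i) * ↑(v⁻¹))) p := by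
    have h2 : lam = eval₂Hom (lam.comp C) (fun i => (v : L) * (lam (X i) * ↑(v⁻¹))) := by
      apply MvPolynomial.ringHom_ext
      · intro r
        simp
      · intro i
        rw [coe_eval₂Hom, eval₂_X, mul_comm (lam (X i)), ← mul_assoc, Units.mul_inv, one_mul]
    exact DFunLike.congr_fun h2 p
  rw [h1, eval₂Hom_mul_of_isHomogeneous _ _ _ hp]
  rfl

open Classical in
/-- The map from the large polynomial ring. -/
noncomputable def mapBig : MvPolynomial (Fin n ⊕ Fin 3) O →+* L :=
  eval₂Hom (lam.comp C) fun κ => if IsGood W κ then mapZero lam v (baseP π h κ) * ↑(e⁻¹)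
    else Sum.elim (fun i => mapZero lam v (X i)) (fun _ => (e : L)) κ

theorem mapBig_C (r : O) : mapBig lam v e π h W (C r) = lam (C r) := by
  simp [mapBig]

theorem mapBig_good {κ : Fin n ⊕ Fin 3} (hκ : IsGood W κ) :
    mapBig lam v e π h W (X κ) = mapZero lam v (baseP π h κ) * ↑(e⁻¹) := by
  simp [mapBig, hκ]

theorem mapBig_inl {i : Fin n} (hi : i ∈ W) :
    mapBig lam v e π h W (X (Sum.inl i)) = mapZero lam v (X i) := by
  have h1 : ¬ IsGood W (Sum.inl i) := fun h => h hi
  simp [mapBig, h1]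

theorem mapBig_exc : mapBig lam v e π h W (X (Sum.inr 0)) = e := by
  have h1 : ¬ IsGood W (Sum.inr 0) := fun h => h
  simp [mapBig, h1]

theorem mapBig_base {κ : Fin n ⊕ Fin 3} (hκ : IsGood W κ) :
    mapBig lam v e π h W (X (Sum.inr 0) * X κ) = mapZero lam v (baseP π h κ) := by
  rw [map_mul, mapBig_exc, mapBig_good _ _ _ _ _ _ hκ, mul_comm (mapZero lam v _), ← mul_assoc,
    Units.mul_inv, one_mul]

theorem mapBig_sigma (p : MvPolynomial (Fin n) O) :
    mapBig lam v e π h W (sigma W p) = mapZero lam v p := by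
  have h1 : (mapBig lam v e π h W).comp (sigma (O := O) W : MvPolynomial (Fin n) O →+* _) =
      mapZero lam v := by
    apply MvPolynomial.ringHom_ext
    · intro r
      change mapBig lam v e π h W (sigma W (C r)) = _
      rw [sigma_C, mapBig_C, mapZero_C]
    · intro i
      change mapBig lam v e π h W (sigma W (X i)) = _
      by_cases hi : i ∈ W
      · rw [sigma_X_mem hi, mapBig_inl _ _ _ _ _ _ hi]
      · rw [sigma_X_notMem hi, mapBig_base (κ := Sum.inl i) _ _ _ _ _ _ hi]
        rfl
  exact DFunLike.congr_fun h1 p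

/-- The value of a product of a base polynomial and coordinates. -/
theorem lam_base_mul {κ : Fin n ⊕ Fin 3} (hκ : IsGood W κ) (k : ℕ) (s : Fin k → Fin n) :
    lam (baseP π h κ * ∏ a, X (s a)) = (e : L) * (v : L) ^ (k + degP n κ) *
      mapBig lam v e π h W (X κ * sigma W (∏ a, X (s a))) := by
  rw [lam_eq_of_isHomogeneous lam v (isHomogeneous_base_mul π h κ k s), map_mul, map_mul,
    mapBig_sigma, ← mapBig_base lam v e π h W hκ, map_mul, mapBig_exc]
  ring

end Maps

section Est

variable {R O K A L : Type} [CommRing R] [CommRing O] [CommRing K] [CommRing A] [Algebra R K]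
  [Algebra K A] [Algebra R A] [IsScalarTower R K A] [Algebra R O] (𝒜 : ℕ → Submodule K A)
  [GradedAlgebra 𝒜] [CommRing L]
  (p : Ideal R) [p.IsPrime] {n : ℕ} (ψ : MvPolynomial (Fin n) O →+* A)
  (hC : ∀ r, ψ (C r) ∈ 𝒜 0) (hX : ∀ i, ψ (X i) ∈ 𝒜 1)
  (π : O) (h : Matrix (Fin n) (Fin n) O) (W : Finset (Fin n)) [IsLocalization.AtPrime O p]
  (hψR : ∀ r, ψ (C (algebraMap R O r)) = algebraMap R A r) (ι : A →+* L) (v e : Lˣ)

include hC hX hψR in
theorem exists_estimate (t : A) (ht : t ∈ splitOrder p ψ π h W) (k : ℕ) :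
    ∃ P : MvPolynomial (Fin n ⊕ Fin 3) O, ι (DirectSum.decompose 𝒜 t k) =
      (e : L) ^ ((k + 2) / 3) * (v : L) ^ k * mapBig (ι.comp ψ) v e π h W P := by
  classical
  have key : ∀ x ∈ Algebra.adjoin R (ψ '' genSet π h W), ∀ k, ∃ P : MvPolynomial (Fin n ⊕ Fin 3) O,
      ι (DirectSum.decompose 𝒜 x k) =
      (e : L) ^ ((k + 2) / 3) * (v : L) ^ k * mapBig (ι.comp ψ) v e π h W P := by
    intro x hx
    induction hx using Algebra.adjoin_induction with
    | mem x hx =>
      obtain ⟨_, ⟨κ, m, s, hκ, hm, rfl⟩, rfl⟩ := hx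
      intro k
      have h1 := mem_of_isHomogeneous 𝒜 ψ hC hX (isHomogeneous_base_mul π h κ m s)
      by_cases hk : m + degP n κ = k
      · subst hk
        rw [DirectSum.decompose_of_mem_same 𝒜 h1]
        refine ⟨X κ * sigma W (∏ a, X (s a)), ?_⟩
        have h2 : (m + degP n κ + 2) / 3 = 1 := by omega
        rw [h2, pow_one]
        exact lam_base_mul (ι.comp ψ) v e π h W hκ m s
      · rw [DirectSum.decompose_of_mem_ne 𝒜 h1 hk, map_zero]
        exact ⟨0, by rw [map_zero, mul_zero]⟩
    | algebraMap r =>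
      intro k
      have h0 : algebraMap R A r ∈ 𝒜 0 := by
        rw [IsScalarTower.algebraMap_apply R K A]
        exact SetLike.algebraMap_mem_graded 𝒜 _
      by_cases hk : 0 = k
      · subst hk
        rw [DirectSum.decompose_of_mem_same 𝒜 h0]
        refine ⟨C (algebraMap R O r), ?_⟩
        rw [mapBig_C, RingHom.comp_apply, hψR]
        simp
      · rw [DirectSum.decompose_of_mem_ne 𝒜 h0 hk, map_zero]
        exact ⟨0, by rw [map_zero, mul_zero]⟩
    | add x x' _ _ hx hx' =>
      intro k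
      obtain ⟨P, hP⟩ := hx k
      obtain ⟨P', hP'⟩ := hx' k
      refine ⟨P + P', ?_⟩
      rw [DirectSum.decompose_add, DirectSum.add_apply, Submodule.coe_add, map_add, hP, hP',
        map_add]
      ring
    | mul x x' _ _ hx hx' =>
      intro k
      have hterm : ∀ i, ∃ P : MvPolynomial (Fin n ⊕ Fin 3) O,
          ι (DirectSum.decompose 𝒜 ((DirectSum.decompose 𝒜 x i : A) * x') k) =
          (e : L) ^ ((k + 2) / 3) * (v : L) ^ k * mapBig (ι.comp ψ) v e π h W P := by
        intro i
        rw [DirectSum.coe_decompose_mul_of_left_mem 𝒜 _ (DirectSum.decompose 𝒜 x i).2]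
        split_ifs with hik
        · obtain ⟨P, hP⟩ := hx i
          obtain ⟨P', hP'⟩ := hx' (k - i)
          obtain ⟨m, hm⟩ : ∃ m, (i + 2) / 3 + (k - i + 2) / 3 = (k + 2) / 3 + m :=
            Nat.exists_eq_add_of_le (by omega)
          refine ⟨X (Sum.inr 0) ^ m * (P * P'), ?_⟩
          have hk : (v : L) ^ k = (v : L) ^ i * (v : L) ^ (k - i) := by
            rw [← pow_add]
            congr 1
            omega
          have he : (e : L) ^ ((i + 2) / 3) * (e : L) ^ ((k - i + 2) / 3) =
              (e : L) ^ ((k + 2) / 3) * (e : L) ^ m := by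
            rw [← pow_add, ← pow_add, hm]
          rw [map_mul, hP, hP', map_mul, map_mul, map_pow, mapBig_exc, hk]
          calc _ = ((e : L) ^ ((i + 2) / 3) * (e : L) ^ ((k - i + 2) / 3)) *
                ((v : L) ^ i * (v : L) ^ (k - i)) * (mapBig (ι.comp ψ) v e π h W P *
                  mapBig (ι.comp ψ) v e π h W P') := by ring
            _ = _ := by rw [he]; ring
        · exact ⟨0, by rw [map_zero, map_zero, mul_zero]⟩
      choose P hP using hterm
      refine ⟨∑ i ∈ (DirectSum.decompose 𝒜 x).support, P i, ?_⟩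
      rw [map_sum, Finset.mul_sum]
      simp_rw [← hP]
      rw [← map_sum]
      congr 1
      conv_lhs => rw [← DirectSum.sum_support_decompose 𝒜 x]
      rw [Finset.sum_mul, DirectSum.decompose_sum, DFinsupp.finsetSum_apply,
        AddSubmonoidClass.coe_finsetSum]
  obtain ⟨r, hr, hrt⟩ := ht
  obtain ⟨P, hP⟩ := key _ hrt k
  refine ⟨C (IsLocalization.mk' O 1 (⟨r, hr⟩ : p.primeCompl)) * P, ?_⟩
  have h1 : (DirectSum.decompose 𝒜 t k : A) =
      ψ (C (IsLocalization.mk' O 1 (⟨r, hr⟩ : p.primeCompl))) *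
        (DirectSum.decompose 𝒜 (r • t) k : A) := by
    rw [← IsScalarTower.algebraMap_smul K r t, DirectSum.decompose_smul, DirectSum.smul_apply,
      Submodule.coe_smul, IsScalarTower.algebraMap_smul]
    exact (psi_C_mul_smul p ψ hψR hr _).symm
  rw [h1, map_mul, hP, map_mul, mapBig_C, RingHom.comp_apply]
  ring

end Est

end Pool.Agent.Lib.MP_6a3dac_ag
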