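import Pool.Agent.Lib.MP_6a3dac_ag.ChartSplit
import Pool.Agent.Lib.MP_6a3dac_ag.Mg.G002

/-!
# The graded order of the blow-up of a split quadric
-/

set_option autoImplicit false

namespace Pool.Agent.Lib.MP_6a3dac_ag

open MvPolynomial IsLocalRing Matrix

section Gen

variable {O : Type} [CommRing O] {n : ℕ} (π : O) (h : Matrix (Fin n) (Fin n) O)
  (W : Finset (Fin n))

/-- The generators of the graded order. -/
def genSet : Set (MvPolynomial (Fin n) O) :=
  {g | ∃ (κ : Fin n ⊕ Fin 3) (k : ℕ) (s : Fin k → Fin n), IsGood W κ ∧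
    (k + degP n κ = 1 ∨ k + degP n κ = 3) ∧ g = baseP π h κ * ∏ a, X (s a)}

theorem finite_genSet : (genSet π h W).Finite := by
  have h1 : genSet π h W ⊆ ⋃ κ : Fin n ⊕ Fin 3, ⋃ k : Fin 4,
      Set.range (fun s : Fin (k : ℕ) → Fin n => baseP π h κ * ∏ a, X (s a)) := by
    rintro g ⟨κ, k, s, _, hk, rfl⟩
    rw [Set.mem_iUnion]
    refine ⟨κ, ?_⟩
    rw [Set.mem_iUnion]
    exact ⟨⟨k, by omega⟩, s, rfl⟩
  refine Set.Finite.subset ?_ h1
  exact Set.finite_iUnion fun κ => Set.finite_iUnion fun k => Set.finite_range _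

theorem isHomogeneous_baseP (κ : Fin n ⊕ Fin 3) :
    (baseP π h κ).IsHomogeneous (degP n κ) := by
  rcases κ with l | a
  · exact isHomogeneous_X _ _
  · fin_cases a
    · exact isHomogeneous_one _ _
    · exact isHomogeneous_C _ _
    · exact quadPoly_isHomogeneous h

theorem isHomogeneous_base_mul (κ : Fin n ⊕ Fin 3) (k : ℕ) (s : Fin k → Fin n) :
    (baseP π h κ * ∏ a, X (s a)).IsHomogeneous (k + degP n κ) := by
  rw [add_comm]
  refine (isHomogeneous_baseP π h κ).mul ?_
  have h1 : (∏ a, X (s a) : MvPolynomial (Fin n) O).IsHomogeneous (∑ _a : Fin k, 1) :=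
    IsHomogeneous.prod _ _ _ fun a _ => isHomogeneous_X _ _
  simpa using h1

theorem degP_le (κ : Fin n ⊕ Fin 3) : degP n κ ≤ 2 := by
  rcases κ with l | a
  · exact one_le_two
  · fin_cases a <;> simp [degP]

variable {W}

theorem gen_mem {κ : Fin n ⊕ Fin 3} (hκ : IsGood W κ) (s : Fin (3 - degP n κ) → Fin n) :
    baseP π h κ * ∏ a, X (s a) ∈ genSet π h W :=
  ⟨κ, _, s, hκ, Or.inr (by have := degP_le κ; omega), rfl⟩

theorem gen_pow_mem {κ : Fin n ⊕ Fin 3} (hκ : IsGood W κ) (j : Fin n) :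
    baseP π h κ * X j ^ (3 - degP n κ) ∈ genSet π h W := by
  have h1 := gen_mem π h hκ (fun _ => j)
  rwa [Finset.prod_const, Finset.card_univ, Fintype.card_fin] at h1

theorem gen_pow_mul_mem {κ : Fin n ⊕ Fin 3} (hκ : IsGood W κ) (j i : Fin n) :
    baseP π h κ * (X j ^ (2 - degP n κ) * X i) ∈ genSet π h W := by
  have hd := degP_le κ
  refine ⟨κ, (2 - degP n κ) + 1, Fin.snoc (fun _ => j) i, hκ, Or.inr (by omega), ?_⟩
  rw [Fin.prod_univ_castSucc]
  simp

end Gen

section Order

variable {R O K A : Type} [CommRing R] [CommRing O] [CommRing K] [CommRing A] [Algebra R K]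
  [Algebra K A] [Algebra R A] [IsScalarTower R K A] [Algebra R O] (𝒜 : ℕ → Submodule K A)
  (p : Ideal R) [p.IsPrime] {n : ℕ} (ψ : MvPolynomial (Fin n) O →+* A)
  (π : O) (h : Matrix (Fin n) (Fin n) O) (W : Finset (Fin n))

/-- The local graded order. -/
def splitOrder : Subalgebra R A := locSub p (Algebra.adjoin R (ψ '' genSet π h W))

omit [Algebra R O] in
theorem psi_mem_of_gen {g : MvPolynomial (Fin n) O} (hg : g ∈ genSet π h W) :
    ψ g ∈ splitOrder p ψ π h W :=
  le_locSub _ _ (Algebra.subset_adjoin ⟨g, hg, rfl⟩)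

variable [IsLocalization.AtPrime O p] (hψR : ∀ r, ψ (C (algebraMap R O r)) = algebraMap R A r)
include hψR

theorem psi_C_mem (r : O) : ψ (C r) ∈ splitOrder p ψ π h W := by
  obtain ⟨a, s, rfl⟩ := IsLocalization.exists_mk'_eq p.primeCompl r
  refine ⟨s, s.2, ?_⟩
  rw [Algebra.smul_def, ← hψR, ← map_mul, ← map_mul, IsLocalization.mk'_spec', hψR]
  exact Subalgebra.algebraMap_mem _ _

/-- Division by elements outside the prime ideal. -/
theorem psi_C_mul_smul {r : R} (hr : r ∉ p) (a : A) :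
    ψ (C (IsLocalization.mk' O 1 (⟨r, hr⟩ : p.primeCompl))) * r • a = a := by
  rw [Algebra.smul_def, ← mul_assoc, ← hψR, ← map_mul, ← map_mul, IsLocalization.mk'_spec, map_one,
    map_one, map_one, one_mul]

theorem splitOrder_le_range (a : A) (ha : a ∈ splitOrder p ψ π h W) : ∃ g, ψ g = a := by
  obtain ⟨r, hr, ha⟩ := ha
  have h1 : ∀ x ∈ Algebra.adjoin R (ψ '' genSet π h W), ∃ g, ψ g = x := by
    intro x hx
    induction hx using Algebra.adjoin_induction with
    | mem x hx =>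
      obtain ⟨g, _, rfl⟩ := hx
      exact ⟨g, rfl⟩
    | algebraMap r => exact ⟨_, hψR r⟩
    | add x y _ _ hx hy =>
      obtain ⟨a, rfl⟩ := hx
      obtain ⟨b, rfl⟩ := hy
      exact ⟨a + b, map_add _ _ _⟩
    | mul x y _ _ hx hy =>
      obtain ⟨a, rfl⟩ := hx
      obtain ⟨b, rfl⟩ := hy
      exact ⟨a * b, map_mul _ _ _⟩
  obtain ⟨g, hg⟩ := h1 _ ha
  refine ⟨C (IsLocalization.mk' O 1 (⟨r, hr⟩ : p.primeCompl)) * g, ?_⟩
  rw [map_mul, hg, psi_C_mul_smul p ψ hψR hr]

theorem algebraMap_notMem (y : Ideal (splitOrder p ψ π h W)) [hy : y.IsPrime] {r : R}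
    (hr : r ∉ p) : algebraMap R (splitOrder p ψ π h W) r ∉ y := by
  intro hry
  have h1 : (⟨ψ (C (IsLocalization.mk' O 1 (⟨r, hr⟩ : p.primeCompl))),
      psi_C_mem p ψ π h W hψR _⟩ : splitOrder p ψ π h W) * algebraMap R _ r = 1 := by
    apply Subtype.ext
    have h2 := psi_C_mul_smul p ψ hψR hr 1
    rw [Algebra.smul_def, mul_one] at h2
    exact h2
  have h3 := y.mul_mem_left (⟨ψ (C (IsLocalization.mk' O 1 (⟨r, hr⟩ : p.primeCompl))),
      psi_C_mem p ψ π h W hψR _⟩ : splitOrder p ψ π h W) hry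
  rw [h1] at h3
  exact hy.ne_top ((Ideal.eq_top_iff_one _).mpr h3)

/-- If all the special generators lie in a prime ideal, so do all generators. -/
theorem gen_mem_of_special (y : Ideal (splitOrder p ψ π h W)) [hy : y.IsPrime]
    (hall : ∀ (κ : Fin n ⊕ Fin 3) (hκ : IsGood W κ) (j : Fin n),
      (⟨_, psi_mem_of_gen p ψ π h W (gen_pow_mem π h hκ j)⟩ : splitOrder p ψ π h W) ∈ y)
    {g : MvPolynomial (Fin n) O} (hg : g ∈ genSet π h W) :
    (⟨_, psi_mem_of_gen p ψ π h W hg⟩ : splitOrder p ψ π h W) ∈ y := by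
  obtain ⟨κ, k, s, hκ, hk, rfl⟩ := hg
  have hd := degP_le κ
  rcases hk with hk | hk
  · -- degree one
    apply hy.mem_of_pow_mem 3
    rcases κ with l | a
    · have hk0 : k = 0 := by
        change k + 1 = 1 at hk
        omega
      subst hk0
      convert hall _ hκ l using 1
      apply Subtype.ext
      change ψ (X l * ∏ a, X (s a)) ^ 3 = ψ (X l * X l ^ (3 - 1))
      rw [Finset.univ_eq_empty, Finset.prod_empty, ← map_pow]
      congr 1
      ring
    · fin_cases a
      · exact absurd hκ (by simp [IsGood])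
      · have hk1 : k = 1 := by
          change k + 0 = 1 at hk
          omega
        subst hk1
        have h1 := y.mul_mem_left (⟨ψ (C (π ^ 2)), psi_C_mem p ψ π h W hψR _⟩ :
          splitOrder p ψ π h W) (hall _ hκ (s 0))
        convert h1 using 1
        apply Subtype.ext
        change ψ (C π * ∏ a, X (s a)) ^ 3 = ψ (C (π ^ 2)) * ψ (C π * X (s 0) ^ (3 - 0))
        rw [Fin.prod_univ_one, ← map_pow, ← map_mul]
        congr 1
        rw [C_pow]
        ring
      · exfalso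
        change k + 2 = 1 at hk
        omega
  · -- degree three
    have hk0 : 0 < k := by omega
    apply hy.mem_of_pow_mem k
    have hk' : k = 3 - degP n κ := by omega
    subst hk'
    have h1 : (⟨_, psi_mem_of_gen p ψ π h W (gen_mem π h hκ s)⟩ : splitOrder p ψ π h W) ^
        (3 - degP n κ) = ∏ a : Fin (3 - degP n κ),
          (⟨_, psi_mem_of_gen p ψ π h W (gen_pow_mem π h hκ (s a))⟩ : splitOrder p ψ π h W) := by
      apply Subtype.ext
      change (splitOrder p ψ π h W).val (_ ^ _) = (splitOrder p ψ π h W).val (∏ a, _)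
      rw [map_pow, map_prod]
      change ψ _ ^ _ = ∏ a, ψ _
      rw [← map_pow, ← map_prod]
      congr 1
      rw [mul_pow, Finset.prod_mul_distrib, Finset.prod_const, Finset.card_univ, Fintype.card_fin,
        Finset.prod_pow]
    rw [h1]
    exact Ideal.mem_of_dvd _ (Finset.dvd_prod_of_mem _ (Finset.mem_univ ⟨0, hk0⟩)) (hall _ hκ _)

end Order

end Pool.Agent.Lib.MP_6a3dac_ag
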