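import Pool.Agent.Lib.MP_6a3dac_ag.SplitOrder

/-!
# Relevant primes of the graded order of the blow-up of a split quadric
-/

set_option autoImplicit false

namespace Pool.Agent.Lib.MP_6a3dac_ag

open MvPolynomial IsLocalRing Matrix

variable {R O K A : Type} [CommRing R] [CommRing O] [CommRing K] [CommRing A] [Algebra R K]
  [Algebra K A] [Algebra R A] [IsScalarTower R K A] [Algebra R O] (𝒜 : ℕ → Submodule K A)
  [GradedAlgebra 𝒜]
  (p : Ideal R) [p.IsPrime] {n : ℕ} (ψ : MvPolynomial (Fin n) O →+* A)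
  (hC : ∀ r, ψ (C r) ∈ 𝒜 0) (hX : ∀ i, ψ (X i) ∈ 𝒜 1)
  (π : O) (h : Matrix (Fin n) (Fin n) O) (W : Finset (Fin n))

include hC hX in
omit [Algebra R O] in
theorem isHomog_splitOrder : IsHomog 𝒜 (splitOrder p ψ π h W) := by
  refine isHomog_locSub 𝒜 _ (isHomog_adjoin 𝒜 ?_)
  rintro _ ⟨g, ⟨κ, k, s, _, _, rfl⟩, rfl⟩
  exact ⟨_, mem_of_isHomogeneous 𝒜 ψ hC hX (isHomogeneous_base_mul π h κ k s)⟩

variable [IsLocalization.AtPrime O p] (hψR : ∀ r, ψ (C (algebraMap R O r)) = algebraMap R A r)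
  (hT : IsHomog 𝒜 (splitOrder p ψ π h W))

include hψR in
theorem exists_special_notMem (y : Ideal (splitOrder p ψ π h W)) [hy : y.IsPrime]
    (hyh : letI := subGradedAlgebra 𝒜 hT
      y.IsHomogeneous (subGr 𝒜 (splitOrder p ψ π h W)))
    (hirr : letI := subGradedAlgebra 𝒜 hT
      ¬ (HomogeneousIdeal.irrelevant (subGr 𝒜 (splitOrder p ψ π h W))).toIdeal ≤ y) :
    ∃ (κ : Fin n ⊕ Fin 3) (hκ : IsGood W κ) (j : Fin n),
      (⟨_, psi_mem_of_gen p ψ π h W (gen_pow_mem π h hκ j)⟩ : splitOrder p ψ π h W) ∉ y := by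
  by_contra hcon
  push Not at hcon
  have hgen := fun g hg => gen_mem_of_special (g := g) p ψ π h W hψR y hcon hg
  let := subGradedAlgebra 𝒜 hT
  apply hirr
  rw [HomogeneousIdeal.toIdeal_irrelevant_le]
  intro i hi t ht
  change t ∈ y
  have key : ∀ x ∈ Algebra.adjoin R (ψ '' genSet π h W), ∃ (r : R) (z : splitOrder p ψ π h W),
      z ∈ y ∧ x = algebraMap R A r + z := by
    intro x hx
    induction hx using Algebra.adjoin_induction with
    | mem x hx =>
      obtain ⟨g, hg, rfl⟩ := hx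
      exact ⟨0, _, hgen g hg, by rw [map_zero, zero_add]⟩
    | algebraMap r => exact ⟨r, 0, y.zero_mem, by simp⟩
    | add x x' _ _ hx hx' =>
      obtain ⟨r, z, hz, rfl⟩ := hx
      obtain ⟨r', z', hz', rfl⟩ := hx'
      refine ⟨r + r', z + z', y.add_mem hz hz', ?_⟩
      rw [map_add, Subalgebra.coe_add]
      ring
    | mul x x' _ _ hx hx' =>
      obtain ⟨r, z, hz, rfl⟩ := hx
      obtain ⟨r', z', hz', rfl⟩ := hx'
      refine ⟨r * r', algebraMap R _ r * z' + algebraMap R _ r' * z + z * z',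
        y.add_mem (y.add_mem (y.mul_mem_left _ hz') (y.mul_mem_left _ hz)) (y.mul_mem_left _ hz'),
        ?_⟩
      rw [map_mul, Subalgebra.coe_add, Subalgebra.coe_add, Subalgebra.coe_mul, Subalgebra.coe_mul,
        Subalgebra.coe_mul, Subalgebra.coe_algebraMap, Subalgebra.coe_algebraMap]
      ring
  obtain ⟨r₀, hr₀, hrt⟩ := t.2
  obtain ⟨r, z, hz, hrz⟩ := key _ hrt
  have h1 : algebraMap R (splitOrder p ψ π h W) r₀ * t ∈ y := by
    have h2 : algebraMap R (splitOrder p ψ π h W) r₀ * t =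
        ((DirectSum.decompose (subGr 𝒜 (splitOrder p ψ π h W)) z i : _) :
          splitOrder p ψ π h W) := by
      apply Subtype.ext
      rw [coe_decompose_subGr 𝒜 hT z i, Subalgebra.coe_mul, Subalgebra.coe_algebraMap,
        ← Algebra.smul_def, hrz]
      have h3 : (z : A) = r₀ • (t : A) - algebraMap R A r := by
        rw [hrz]; ring
      have h4 : r₀ • (t : A) ∈ 𝒜 i := by
        rw [← IsScalarTower.algebraMap_smul K r₀ (t : A)]
        exact Submodule.smul_mem _ _ ht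
      have h5 : algebraMap R A r ∈ 𝒜 0 := by
        rw [IsScalarTower.algebraMap_apply R K A]
        exact SetLike.algebraMap_mem_graded 𝒜 _
      rw [h3, DirectSum.decompose_sub, DirectSum.sub_apply, AddSubgroupClass.coe_sub,
        DirectSum.decompose_of_mem_same 𝒜 h4, DirectSum.decompose_of_mem_ne 𝒜 h5 hi.ne, ← h3, ← hrz,
        sub_zero]
    rw [h2]
    exact hyh i hz
  exact (hy.mem_or_mem h1).resolve_left (algebraMap_notMem p ψ π h W hψR y hr₀)

end Pool.Agent.Lib.MP_6a3dac_ag
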