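import Pool.Agent.Lib.MP_6a3dac_ag.WeilSection

/-!
# Clearing denominators in the charts of the second kind
-/

set_option autoImplicit false

namespace Pool.Agent.Lib.MP_6a3dac_ag

open MvPolynomial IsLocalRing

variable {O K : Type} [CommRing O] [IsDomain O] [Field K] [Algebra O K] [IsFractionRing O K]
  {t n : O} {N : ℕ}

attribute [local instance] MvPolynomial.algebraMvPolynomial in
theorem exists_C_mul_mem {ν : Type} {I : Ideal (MvPolynomial ν O)} {x : MvPolynomial ν O}
    (hx : MvPolynomial.map (algebraMap O K) x ∈ I.map (MvPolynomial.map (algebraMap O K))) :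
    ∃ r : O, r ≠ 0 ∧ C r * x ∈ I := by
  have h1 : algebraMap (MvPolynomial ν O) (MvPolynomial ν K) x ∈
      I.map (algebraMap (MvPolynomial ν O) (MvPolynomial ν K)) := hx
  rw [IsLocalization.algebraMap_mem_map_algebraMap_iff ((nonZeroDivisors O).map (C (σ := ν)))] at h1
  obtain ⟨_, ⟨r, hr, rfl⟩, h2⟩ := h1
  exact ⟨r, nonZeroDivisors.ne_zero hr, h2⟩

theorem exists_C_mul_mem_of_sections {I : Ideal (MvPolynomial (ChartVar N) O)}
    (hI : X (Sum.inr 0) * (C t - X (Sum.inr 0)) - X (Sum.inr 1) * X (Sum.inr 2) - C n ∈ I)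
    (hd : t ^ 2 - 4 * n ≠ 0) (x : MvPolynomial (ChartVar N) O)
    (h : ∀ (ξ η : O) (R₁ : Type) [CommRing R₁] (φ : K →+* R₁)
      (δ'' : MvPolynomial (ChartVar N) O →+* R₁), (∀ r, δ'' (C r) = φ (algebraMap O K r)) →
        (∀ z ∈ I, δ'' z = 0) → IsUnit (δ'' (gForm O t N ξ η)) → δ'' x = 0) :
    ∃ r : O, r ≠ 0 ∧ C r * x ∈ I := by
  apply exists_C_mul_mem (K := K)
  set ρ : MvPolynomial (ChartVar N) O →+* MvPolynomial (ChartVar N) K :=
    MvPolynomial.map (algebraMap O K) with hρ
  set IK := I.map ρ with hIK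
  let J : Ideal (MvPolynomial (ChartVar N) K) :=
    { carrier := {z | z * ρ x ∈ IK}
      add_mem' := fun {a b} ha hb => by
        change (a + b) * ρ x ∈ IK
        rw [add_mul]
        exact IK.add_mem ha hb
      zero_mem' := by
        change 0 * ρ x ∈ IK
        rw [zero_mul]
        exact IK.zero_mem
      smul_mem' := fun c z hz => by
        change (c • z) * ρ x ∈ IK
        rw [smul_eq_mul, mul_assoc]
        exact IK.mul_mem_left _ hz }
  have hJmem : ∀ z, z ∈ J ↔ z * ρ x ∈ IK := fun z => Iff.rfl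
  have hJI : IK ≤ J := fun z hz => IK.mul_mem_right _ hz
  have hg : ∀ ξ η : O, ∃ M : ℕ, ρ (gForm O t N ξ η) ^ M ∈ J := by
    intro ξ η
    let S := MvPolynomial (ChartVar N) K ⧸ IK
    let g : S := Ideal.Quotient.mk IK (ρ (gForm O t N ξ η))
    let R₁ := Localization.Away g
    let δ'' : MvPolynomial (ChartVar N) O →+* R₁ :=
      (algebraMap S R₁).comp ((Ideal.Quotient.mk IK).comp ρ)
    have h0 : δ'' x = 0 := by
      refine h ξ η R₁ ((algebraMap S R₁).comp ((Ideal.Quotient.mk IK).comp C)) δ'' ?_ ?_ ?_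
      · intro r
        simp only [δ'', hρ, RingHom.comp_apply, map_C]
      · intro z hz
        have : ρ z ∈ IK := Ideal.mem_map_of_mem _ hz
        change algebraMap S R₁ (Ideal.Quotient.mk IK (ρ z)) = 0
        rw [Ideal.Quotient.eq_zero_iff_mem.mpr this, map_zero]
      · exact IsLocalization.Away.algebraMap_isUnit g
    change algebraMap S R₁ (Ideal.Quotient.mk IK (ρ x)) = 0 at h0
    obtain ⟨⟨_, M, rfl⟩, hM⟩ := (IsLocalization.map_eq_zero_iff (Submonoid.powers g) R₁ _).mp h0
    refine ⟨M, ?_⟩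
    rw [hJmem, ← Ideal.Quotient.eq_zero_iff_mem, map_mul, map_pow]
    exact hM
  have h1 : (1 : MvPolynomial (ChartVar N) K) ∈ J := by
    rw [← Ideal.eq_top_iff_one]
    by_contra hne
    obtain ⟨m, hm, hJm⟩ := Ideal.exists_le_maximal J hne
    have hmp := hm.isPrime
    have hgm : ∀ ξ η : O, ρ (gForm O t N ξ η) ∈ m := by
      intro ξ η
      obtain ⟨M, hM⟩ := hg ξ η
      exact hmp.mem_of_pow_mem _ (hJm hM)
    have hval : ∀ ξ η : O, ρ (gForm O t N ξ η) =
        -(X (Sum.inr 1) * C (algebraMap O K (ξ ^ 2))) +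
          (2 * X (Sum.inr 0) - C (algebraMap O K t)) * C (algebraMap O K (ξ * η)) +
          X (Sum.inr 2) * C (algebraMap O K (η ^ 2)) := by
      intro ξ η
      rw [gForm, hρ]
      simp only [map_add, map_neg, map_mul, map_sub, map_ofNat, map_C, map_X]
    have hB : (X (Sum.inr 1) : MvPolynomial (ChartVar N) K) ∈ m := by
      have h2 := hgm 1 0
      rw [hval] at h2
      simpa using h2
    have hCC : (X (Sum.inr 2) : MvPolynomial (ChartVar N) K) ∈ m := by
      have h2 := hgm 0 1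
      rw [hval] at h2
      simpa using h2
    have hA : (2 * X (Sum.inr 0) - C (algebraMap O K t) : MvPolynomial (ChartVar N) K) ∈ m := by
      have h2 := hgm 1 1
      rw [hval] at h2
      simp only [one_pow, mul_one, map_one] at h2
      have h3 := m.add_mem h2 (m.sub_mem hB hCC)
      have h4 : -X (Sum.inr 1) + (2 * X (Sum.inr 0) - C (algebraMap O K t)) + X (Sum.inr 2) +
          (X (Sum.inr 1) - X (Sum.inr 2)) =
          (2 * X (Sum.inr 0) - C (algebraMap O K t) : MvPolynomial (ChartVar N) K) := by ring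
      rwa [h4] at h3
    have hf : ρ (X (Sum.inr 0) * (C t - X (Sum.inr 0)) - X (Sum.inr 1) * X (Sum.inr 2) - C n) ∈ m :=
      hJm (hJI (Ideal.mem_map_of_mem _ hI))
    rw [hρ] at hf
    simp only [map_sub, map_mul, map_C, map_X] at hf
    have hdm : (C (algebraMap O K (t ^ 2 - 4 * n)) : MvPolynomial (ChartVar N) K) ∈ m := by
      have h3 := m.add_mem (m.add_mem (m.mul_mem_left
        (2 * X (Sum.inr 0) - C (algebraMap O K t)) hA) (m.mul_mem_left (4 * X (Sum.inr 2)) hB))
        (m.mul_mem_left 4 hf)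
      have h4 : (2 * X (Sum.inr 0) - C (algebraMap O K t)) *
          (2 * X (Sum.inr 0) - C (algebraMap O K t)) + 4 * X (Sum.inr 2) * X (Sum.inr 1) +
          4 * (X (Sum.inr 0) * (C (algebraMap O K t) - X (Sum.inr 0)) -
            X (Sum.inr 1) * X (Sum.inr 2) - C (algebraMap O K n)) =
          (C (algebraMap O K (t ^ 2 - 4 * n)) : MvPolynomial (ChartVar N) K) := by
        simp only [map_sub, map_mul, map_pow, map_ofNat]
        ring
      rwa [h4] at h3
    apply hmp.ne_top
    refine Ideal.eq_top_of_isUnit_mem _ hdm ?_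
    rw [isUnit_iff_exists_inv]
    have hne0 : algebraMap O K (t ^ 2 - 4 * n) ≠ 0 := by
      rwa [Ne, FaithfulSMul.algebraMap_eq_zero_iff]
    exact ⟨C (algebraMap O K (t ^ 2 - 4 * n))⁻¹, by rw [← C_mul, mul_inv_cancel₀ hne0, C_1]⟩
  have h2 := (hJmem 1).mp h1
  rwa [one_mul] at h2

end Pool.Agent.Lib.MP_6a3dac_ag
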