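import Pool.Agent.Lib.MP_6a3dac_ag.WeilMaps

/-!
# Weil restrictions of projective spaces: compatibility in the charts
-/

set_option autoImplicit false

namespace Pool.Agent.Lib.MP_6a3dac_ag

open MvPolynomial IsLocalRing

variable {O : Type} [CommRing O] {K : Type} [CommRing K] [Algebra O K] {t n : O} {N : ℕ}
  {L : Type} [CommRing L] (lam : MvPolynomial (WG N) O →+* L)
  (hlam : ∀ Q, psiS K t n N Q = 0 → lam Q = 0)

include hlam

/-- Compatibility for the first kind of charts. -/
theorem compatA (i : Fin N) (hu : IsUnit (lam (X (Sum.inl (i, i)))))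
    (δ' : CoordRing O N →+* L) (hC : ∀ r, lam (C r) = δ' (C r))
    (hv : ∀ v, lam (zvarA O i v) = lam (X (Sum.inl (i, i))) * δ' (X v)) (x : WG N) :
    lam (X x) = lam (X (Sum.inl (i, i))) * δ' (psiS O t n N (X x)) := by
  have ha : ∀ k, lam (X (Sum.inl (k, i))) = lam (X (Sum.inl (i, i))) * δ' (X (Sum.inl k)) :=
    fun k => hv (Sum.inl k)
  have hb : ∀ k, lam (X (Sum.inr (k, i))) = lam (X (Sum.inl (i, i))) * δ' (X (Sum.inr k)) :=
    fun k => hv (Sum.inr k)
  apply hu.mul_left_cancel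
  rcases x with ⟨k, l⟩ | ⟨k, l⟩
  · have h1 := hlam _ (psiS_rel_eps K t n k l i)
    rw [map_sub, sub_eq_zero] at h1
    simp only [map_add, map_mul] at h1
    rw [hC, hC, ha k, ha l, hb k, hb l] at h1
    rw [mul_comm, h1, psiS_inl, epsP]
    simp only [map_add, map_mul, Algebra.algebraMap_self, RingHom.id_apply]
    ring
  · have h1 := hlam _ (psiS_rel_del K t n k l i)
    rw [map_sub, sub_eq_zero] at h1
    simp only [map_sub, map_mul] at h1
    rw [ha k, ha l, hb k, hb l] at h1
    rw [mul_comm, h1, psiS_inr, delP]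
    simp only [map_sub, map_mul]
    ring

/-- Compatibility for the second kind of charts. -/
theorem compatD (i j : Fin N) (hu : IsUnit (lam (X (Sum.inr (i, j)))))
    (δ' : MvPolynomial (ChartVar N) O →+* L) (hC : ∀ r, lam (C r) = δ' (C r))
    (hv : ∀ v, lam (zvarD O i j v) = lam (X (Sum.inr (i, j))) * δ' (X v)) (x : WG N) :
    lam (X x) = lam (X (Sum.inr (i, j))) * δ' (thetaD t N (X x)) := by
  have hc : ∀ k, lam (X (Sum.inr (k, j))) = lam (X (Sum.inr (i, j))) *
    δ' (X (Sum.inl (Sum.inl k))) := fun k => hv (Sum.inl (Sum.inl k))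
  have hd : ∀ k, lam (X (Sum.inr (i, k))) = lam (X (Sum.inr (i, j))) *
    δ' (X (Sum.inl (Sum.inr k))) := fun k => hv (Sum.inl (Sum.inr k))
  have hA : lam (X (Sum.inl (j, i))) = lam (X (Sum.inr (i, j))) * δ' (X (Sum.inr 0)) :=
    hv (Sum.inr 0)
  have hB : lam (X (Sum.inl (i, i))) = -(lam (X (Sum.inr (i, j))) * δ' (X (Sum.inr 1))) := by
    have := hv (Sum.inr 1)
    change lam (-X (Sum.inl (i, i))) = _ at this
    rw [map_neg] at this
    rw [← this, neg_neg]
  have hCC : lam (X (Sum.inl (j, j))) = lam (X (Sum.inr (i, j))) * δ' (X (Sum.inr 2)) :=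
    hv (Sum.inr 2)
  rcases x with ⟨k, l⟩ | ⟨k, l⟩
  · apply (hu.pow 2).mul_left_cancel
    have h1 := hlam _ (psiS_rel_quad K t n k l i j)
    rw [map_sub, sub_eq_zero] at h1
    simp only [map_add, map_mul, map_sub, map_pow] at h1
    rw [hC, hc k, hd k, hc l, hd l, hA, hB, hCC] at h1
    rw [mul_comm, h1, thetaD_inl]
    simp only [map_add, map_mul, map_sub, map_neg]
    ring
  · apply hu.mul_left_cancel
    have h1 := hlam _ (psiS_rel_plucker K t n k l i j)
    rw [map_sub, sub_eq_zero] at h1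
    simp only [map_sub, map_mul] at h1
    rw [hc k, hd k, hc l, hd l] at h1
    rw [mul_comm, h1, thetaD_inr]
    simp only [map_sub, map_mul]
    ring

/-- The norm relation in the second kind of charts. -/
theorem normRel (i j : Fin N) (hu : IsUnit (lam (X (Sum.inr (i, j)))))
    (δ' : MvPolynomial (ChartVar N) O →+* L) (hC : ∀ r, lam (C r) = δ' (C r))
    (hv : ∀ v, lam (zvarD O i j v) = lam (X (Sum.inr (i, j))) * δ' (X v)) :
    δ' (X (Sum.inr 0) * (C t - X (Sum.inr 0)) - X (Sum.inr 1) * X (Sum.inr 2) - C n) = 0 := by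
  have hA : lam (X (Sum.inl (j, i))) = lam (X (Sum.inr (i, j))) * δ' (X (Sum.inr 0)) :=
    hv (Sum.inr 0)
  have hB : lam (X (Sum.inl (i, i))) = -(lam (X (Sum.inr (i, j))) * δ' (X (Sum.inr 1))) := by
    have := hv (Sum.inr 1)
    change lam (-X (Sum.inl (i, i))) = _ at this
    rw [map_neg] at this
    rw [← this, neg_neg]
  have hCC : lam (X (Sum.inl (j, j))) = lam (X (Sum.inr (i, j))) * δ' (X (Sum.inr 2)) :=
    hv (Sum.inr 2)
  apply (hu.pow 2).mul_left_cancel
  have h1 := hlam _ (psiS_rel_norm K t n i j)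
  simp only [map_add, map_mul, map_sub, map_pow] at h1
  rw [hC, hC, hA, hB, hCC] at h1
  rw [mul_zero]
  simp only [map_add, map_mul, map_sub]
  rw [← neg_eq_zero, ← h1]
  ring

end Pool.Agent.Lib.MP_6a3dac_ag
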