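import Pool.Agent.Lib.MP_6a3dac_ag.WeilCompat

/-!
# Sections of the charts of the second kind
-/

set_option autoImplicit false

namespace Pool.Agent.Lib.MP_6a3dac_ag

open MvPolynomial IsLocalRing

section

variable {O K R₁ : Type} [CommRing O] [CommRing K] [Algebra O K] [CommRing R₁] (t n : O) {N : ℕ}

/-- The quadratic form whose values have to be units. -/
noncomputable def gForm (O : Type) [CommRing O] (t : O) (N : ℕ) (ξ η : O) :
    MvPolynomial (ChartVar N) O :=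
  -(X (Sum.inr 1) * C (ξ ^ 2)) + (2 * X (Sum.inr 0) - C t) * C (ξ * η) +
    X (Sum.inr 2) * C (η ^ 2)

theorem exists_section (φ : K →+* R₁) (δ'' : MvPolynomial (ChartVar N) O →+* R₁)
    (hC : ∀ r, δ'' (C r) = φ (algebraMap O K r))
    (h1 : δ'' (X (Sum.inr 0) * (C t - X (Sum.inr 0)) - X (Sum.inr 1) * X (Sum.inr 2) - C n) = 0)
    (ξ η : O) (hg : IsUnit (δ'' (gForm O t N ξ η))) :
    ∃ σ : CoordRing K N →+* R₁, (∀ r, σ (C r) = φ r) ∧ ∀ x,
      δ'' (gForm O t N ξ η) * σ (psiS K t n N (X x)) = δ'' (thetaD t N (X x)) := by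
  obtain ⟨g, hg⟩ := hg
  rw [← hg]
  obtain ⟨A, hA⟩ : ∃ A, A = δ'' (X (Sum.inr 0)) := ⟨_, rfl⟩
  obtain ⟨B, hB⟩ : ∃ B, B = δ'' (X (Sum.inr 1)) := ⟨_, rfl⟩
  obtain ⟨D, hD⟩ : ∃ D, D = δ'' (X (Sum.inr 2)) := ⟨_, rfl⟩
  obtain ⟨x, hx⟩ : ∃ x, x = δ'' (C ξ) := ⟨_, rfl⟩
  obtain ⟨y, hy⟩ : ∃ y, y = δ'' (C η) := ⟨_, rfl⟩
  obtain ⟨T, hT⟩ : ∃ T, T = δ'' (C t) := ⟨_, rfl⟩
  obtain ⟨M, hM⟩ : ∃ M, M = δ'' (C n) := ⟨_, rfl⟩
  have hgval : (g : R₁) = -(B * x ^ 2) + (2 * A - T) * (x * y) + D * y ^ 2 := by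
    rw [hg, gForm]
    simp only [map_add, map_neg, map_mul, map_sub, map_ofNat, map_pow, hA, hB, hD, hx, hy, hT]
  have hrel : A * (T - A) - B * D - M = 0 := by
    rw [← h1]
    simp only [map_sub, map_mul, hA, hB, hD, hT, hM]
  have hu : (g : R₁) * ↑(g⁻¹) = 1 := Units.mul_inv g
  obtain ⟨u, hu'⟩ : ∃ u : R₁, u = ↑(g⁻¹) := ⟨_, rfl⟩
  rw [← hu'] at hu
  let c : Fin N → R₁ := fun k => δ'' (X (Sum.inl (Sum.inl k)))
  let d : Fin N → R₁ := fun k => δ'' (X (Sum.inl (Sum.inr k)))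
  let σ : CoordRing K N →+* R₁ := eval₂Hom φ (Sum.elim
    (fun k => (c k * (-(x * B + y * (T - A))) + d k * (x * A + y * D)) * u)
    (fun k => (c k * y + d k * (-x)) * u))
  have hσa : ∀ k, σ (X (Sum.inl k)) =
      (c k * (-(x * B + y * (T - A))) + d k * (x * A + y * D)) * u := by
    intro k
    simp only [σ, coe_eval₂Hom, eval₂_X, Sum.elim_inl]
  have hσb : ∀ k, σ (X (Sum.inr k)) = (c k * y + d k * (-x)) * u := by
    intro k
    simp only [σ, coe_eval₂Hom, eval₂_X, Sum.elim_inr]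
  have hσC : ∀ r, σ (C r) = φ r := by
    intro r
    simp only [σ, coe_eval₂Hom, eval₂_C]
  refine ⟨σ, hσC, ?_⟩
  have hgu : ∀ z : R₁, (g : R₁) * (u ^ 2 * ((g : R₁) * z)) = z := by
    intro z
    have : (g : R₁) * (u ^ 2 * ((g : R₁) * z)) = (g * u) ^ 2 * z := by ring
    rw [this, hu, one_pow, one_mul]
  have hθC : ∀ k, δ'' (X (Sum.inl (Sum.inl k))) = c k := fun _ => rfl
  have hθd : ∀ k, δ'' (X (Sum.inl (Sum.inr k))) = d k := fun _ => rfl
  intro w
  rcases w with ⟨k, l⟩ | ⟨k, l⟩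
  · rw [psiS_inl, thetaD_inl, epsP]
    simp only [map_add, map_mul, map_sub, map_neg, hσa, hσb, hσC, ← hC, hθC, hθd, ← hT, ← hM,
      ← hA, ← hB, ← hD]
    refine Eq.trans ?_ (hgu _)
    congr 1
    generalize hck : c k = ck
    generalize hcl : c l = cl
    generalize hdk : d k = dk
    generalize hdl : d l = dl
    rw [hgval]
    have e1 : (ck * (-(x * B + y * (T - A))) + dk * (x * A + y * D)) *
          (cl * (-(x * B + y * (T - A))) + dl * (x * A + y * D)) +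
        M * ((ck * y + dk * (-x)) * (cl * y + dl * (-x))) +
        T * ((ck * (-(x * B + y * (T - A))) + dk * (x * A + y * D)) * (cl * y + dl * (-x))) =
        (-(B * x ^ 2) + (2 * A - T) * (x * y) + D * y ^ 2) *
          (-(ck * cl * B) + ck * dl * (A - T) + dk * cl * A + dk * dl * D) := by
      have hM' : M = A * (T - A) - B * D := by
        linear_combination -hrel
      rw [hM']
      ring
    linear_combination u ^ 2 * e1
  · rw [psiS_inr, thetaD_inr, delP]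
    simp only [map_mul, map_sub, hσa, hσb, hθC, hθd]
    refine Eq.trans ?_ (hgu _)
    congr 1
    generalize hck : c k = ck
    generalize hcl : c l = cl
    generalize hdk : d k = dk
    generalize hdl : d l = dl
    rw [hgval]
    ring

end

end Pool.Agent.Lib.MP_6a3dac_ag
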